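import Pool.Agent.Lib.MP_9a76ab_an.Basic

/-!
# The span of reduced words, and the moments of free Haar letters (module SPAN)
-/

set_option autoImplicit false

namespace Pool.Agent.MP9a76ab

open scoped InnerProductSpace

theorem adjoin_subset_span {A L : Type} [Ring A] [Algebra ℂ A] (B : Subalgebra ℂ A) (u : L → A)
    (bar : L → L) (cen : L → A →ₗ[ℂ] ℂ)
    (hc : ∀ l, ∃ c ∈ B, cen l c = 1 ∧ u l * c * u (bar l) ∈ B) :
    ∀ x ∈ Algebra.adjoin ℂ ((B : Set A) ∪ Set.range u),
      x ∈ Submodule.span ℂ ((B : Set A) ∪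
        {x | ∃ b ∈ B, ∃ l c, Con (B : Set A) u bar cen l c ∧ x = b * u l * c}) := by
  obtain ⟨P, hP⟩ : ∃ P, P = Submodule.span ℂ ((B : Set A) ∪
      {x | ∃ b ∈ B, ∃ l c, Con (B : Set A) u bar cen l c ∧ x = b * u l * c}) := ⟨_, rfl⟩
  rw [← hP]
  have hB : ∀ b ∈ B, b ∈ P := fun b hb => by
    rw [hP]; exact Submodule.subset_span (Or.inl hb)
  have hW : ∀ b ∈ B, ∀ l c, Con (B : Set A) u bar cen l c → b * u l * c ∈ P :=
    fun b hb l c h => by
      rw [hP]; exact Submodule.subset_span (Or.inr ⟨b, hb, l, c, h, rfl⟩)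
  have key : ∀ x, x ∈ (B : Set A) ∪ Set.range u → ∀ y ∈ P, x * y ∈ P := by
    intro x hx y hy
    rw [hP] at hy
    induction hy using Submodule.span_induction with
    | mem y hy =>
      rcases hx with hx | ⟨l, rfl⟩
      · rcases hy with hy | ⟨b, hb, l', c, hcon, rfl⟩
        · exact hB _ (B.mul_mem hx hy)
        · have h1 : x * (b * u l' * c) = (x * b) * u l' * c := by simp only [mul_assoc]
          rw [h1]
          exact hW _ (B.mul_mem hx hb) _ _ hcon
      · rcases hy with hy | ⟨b, hb, l', c, hcon, rfl⟩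
        · have h1 : u l * y = 1 * u l * y := by rw [one_mul]
          rw [h1]
          exact hW _ B.one_mem _ _ (Con.base l y hy)
        · by_cases hl : l' = bar l
          · obtain ⟨c0, hc0, hcen, hd⟩ := hc l
            have hb0 : b - cen l b • c0 ∈ B := B.sub_mem hb (B.smul_mem hc0 _)
            have h0 : cen l (b - cen l b • c0) = 0 := by
              rw [map_sub, map_smul, hcen, smul_eq_mul, mul_one, sub_self]
            have h1 : u l * (b * u l' * c) = 1 * u l * ((b - cen l b • c0) * u l' * c) +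
                cen l b • (u l * c0 * u (bar l) * c) := by
              rw [hl, one_mul, sub_mul, sub_mul, mul_sub, smul_mul_assoc, smul_mul_assoc,
                mul_smul_comm]
              simp only [mul_assoc]
              abel
            rw [h1]
            refine P.add_mem (hW _ B.one_mem _ _ (Con.step l l' _ c hb0 (fun _ => h0) hcon)) ?_
            refine P.smul_mem _ ?_
            cases hcon with
            | base _ _ hb' => exact hB _ (B.mul_mem hd hb')
            | step _ l'' b1 c' hb1 hh hc' =>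
              have h2 : u l * c0 * u (bar l) * (b1 * u l'' * c') =
                  (u l * c0 * u (bar l) * b1) * u l'' * c' := by simp only [mul_assoc]
              rw [h2]
              exact hW _ (B.mul_mem hd hb1) _ _ hc'
          · have h1 : u l * (b * u l' * c) = 1 * u l * (b * u l' * c) := by rw [one_mul]
            rw [h1]
            exact hW _ B.one_mem _ _ (Con.step l l' b c hb (fun h => absurd h hl) hcon)
    | zero => rw [mul_zero]; exact P.zero_mem
    | add y y' _ _ h h' => rw [mul_add]; exact P.add_mem h h'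
    | smul a y _ h => rw [mul_smul_comm]; exact P.smul_mem _ h
  intro x hx
  have h1 : ∀ y ∈ P, x * y ∈ P := by
    induction hx using Algebra.adjoin_induction with
    | mem x hx => exact key x hx
    | algebraMap r =>
      intro y hy
      rw [← Algebra.smul_def]
      exact P.smul_mem _ hy
    | add x x' _ _ h h' =>
      intro y hy
      rw [add_mul]
      exact P.add_mem (h y hy) (h' y hy)
    | mul x x' _ _ h h' =>
      intro y hy
      rw [mul_assoc]
      exact h _ (h' y hy)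
  have h2 := h1 1 (hB 1 B.one_mem)
  rwa [mul_one] at h2

section B
variable {V J : Type} {H : Type} [NormedAddCommGroup H] [InnerProductSpace ℂ H] [CompleteSpace H]
variable {W : WSys V H} {B B1 : StarSubalgebra ℂ (Op H)}

theorem FHS.moments {V' H' : Type} [NormedAddCommGroup H'] [InnerProductSpace ℂ H']
    [CompleteSpace H'] {U : J → Op H} {S T : J → Finset V} (h : FHS W B U S T)
    {W' : WSys V' H'} {B' : StarSubalgebra ℂ (Op H')} {U' : J → Op H'} {S' T' : J → Finset V'}
    (h' : FHS W' B' U' S' T') (𝔅 : StarSubalgebra ℂ (Op H × Op H'))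
    (h1 : ∀ p ∈ 𝔅, p.1 ∈ B) (h2 : ∀ p ∈ 𝔅, p.2 ∈ B') (x y : V) (x' y' : V')
    (hS : ∀ p ∈ 𝔅, ∀ j, W.φF (S j) p.1 = W'.φF (S' j) p.2)
    (hT : ∀ p ∈ 𝔅, ∀ j, W.φF (T j) p.1 = W'.φF (T' j) p.2)
    (hx : ∀ p ∈ 𝔅, ⟪W.ξ x, p.1 (W.ξ y)⟫_ℂ = ⟪W'.ξ x', p.2 (W'.ξ y')⟫_ℂ)
    (eS : ∀ j, (W.eF (S j), W'.eF (S' j)) ∈ 𝔅) (eT : ∀ j, (W.eF (T j), W'.eF (T' j)) ∈ 𝔅)
    (cS : ∀ j, (S j).card = (S' j).card) (cT : ∀ j, (T j).card = (T' j).card) :
    ∀ p ∈ StarAlgebra.adjoin ℂ ((𝔅 : Set (Op H × Op H')) ∪ Set.range (fun j => (U j, U' j))),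
      ⟪W.ξ x, p.1 (W.ξ y)⟫_ℂ = ⟪W'.ξ x', p.2 (W'.ξ y')⟫_ℂ := by
  obtain ⟨uu, huu⟩ : ∃ uu : J × Bool → Op H × Op H', uu = fun l => (ltr U l, ltr U' l) :=
    ⟨_, rfl⟩
  obtain ⟨cen, hcen⟩ : ∃ cen : J × Bool → (Op H × Op H') →ₗ[ℂ] ℂ,
      cen = fun l => (W.φF (rt S T l)).comp (LinearMap.fst ℂ (Op H) (Op H')) := ⟨_, rfl⟩
  have huu1 : ∀ l, (uu l).1 = ltr U l := fun l => by rw [huu]
  have huu2 : ∀ l, (uu l).2 = ltr U' l := fun l => by rw [huu]
  have hcen1 : ∀ l p, cen l p = W.φF (rt S T l) p.1 := fun l p => by rw [hcen]; rfl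
  have hcen2 : ∀ l, ∀ p ∈ 𝔅, cen l p = W'.φF (rt S' T' l) p.2 := by
    rintro ⟨j, s⟩ p hp
    rw [hcen1]
    cases s
    · exact hT p hp j
    · exact hS p hp j
  have hee : ∀ l, (W.eF (rt S T l), W'.eF (rt S' T' l)) ∈ 𝔅 := by
    rintro ⟨j, s⟩
    cases s
    · exact eT j
    · exact eS j
  have hc : ∀ l, ∃ c ∈ 𝔅.toSubalgebra, cen l c = 1 ∧ uu l * c * uu (bar l) ∈ 𝔅.toSubalgebra := by
    intro l
    have hcard : ((rt S T l).card : ℂ) ≠ 0 := by
      exact_mod_cast (Finset.card_pos.mpr (h.ne_rt l)).ne'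
    refine ⟨((rt S T l).card : ℂ)⁻¹ • (W.eF (rt S T l), W'.eF (rt S' T' l)),
      𝔅.toSubalgebra.smul_mem (hee l) _, ?_, ?_⟩
    · rw [hcen1, Prod.smul_fst, map_smul, W.φF_eF, smul_eq_mul, inv_mul_cancel₀ hcard]
    · have h3 : uu l * (((rt S T l).card : ℂ)⁻¹ • (W.eF (rt S T l), W'.eF (rt S' T' l))) *
          uu (bar l) = ((rt S T l).card : ℂ)⁻¹ •
            (W.eF (rt S T (bar l)), W'.eF (rt S' T' (bar l))) := by
        rw [mul_smul_comm, smul_mul_assoc, ← h.conj_corner l, ← h'.conj_corner l, huu]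
        rfl
      rw [h3]
      exact 𝔅.toSubalgebra.smul_mem (hee (bar l)) _
  have hcon1 : ∀ l c, Con (𝔅.toSubalgebra : Set (Op H × Op H')) uu bar cen l c →
      Con (B : Set (Op H)) (ltr U) bar (fun l => W.φF (rt S T l)) l c.1 := by
    intro l c hcc
    induction hcc with
    | base l b hb => exact Con.base l b.1 (h1 b hb)
    | step l l' b c hb hh _ ih =>
      rw [Prod.fst_mul, Prod.fst_mul, huu1]
      exact Con.step l l' b.1 c.1 (h1 b hb) (fun e => by rw [← hcen1]; exact hh e) ih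
  have hcon2 : ∀ l c, Con (𝔅.toSubalgebra : Set (Op H × Op H')) uu bar cen l c →
      Con (B' : Set (Op H')) (ltr U') bar (fun l => W'.φF (rt S' T' l)) l c.2 := by
    intro l c hcc
    induction hcc with
    | base l b hb => exact Con.base l b.2 (h2 b hb)
    | step l l' b c hb hh _ ih =>
      rw [Prod.snd_mul, Prod.snd_mul, huu2]
      exact Con.step l l' b.2 c.2 (h2 b hb) (fun e => by rw [← hcen2 l b hb]; exact hh e) ih
  intro p hp
  have hp1 : p ∈ Algebra.adjoin ℂ (((𝔅.toSubalgebra : Set (Op H × Op H'))) ∪ Set.range uu) := by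
    have h3 : p ∈ Algebra.adjoin ℂ (((𝔅 : Set (Op H × Op H')) ∪
        Set.range (fun j => (U j, U' j))) ∪ star ((𝔅 : Set (Op H × Op H')) ∪
        Set.range (fun j => (U j, U' j)))) := hp
    refine Algebra.adjoin_mono ?_ h3
    rintro q (hq | hq)
    · rcases hq with hq | ⟨j, rfl⟩
      · exact Or.inl hq
      · exact Or.inr ⟨(j, true), by rw [huu]; rfl⟩
    · rw [Set.mem_star] at hq
      rcases hq with hq | ⟨j, hj⟩
      · exact Or.inl (by simpa using star_mem hq)
      · refine Or.inr ⟨(j, false), ?_⟩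
        have h4 : q = star (U j, U' j) := by
          have h5 : (U j, U' j) = star q := hj
          rw [h5, star_star]
        rw [h4, huu]
        rfl
  have hp2 := adjoin_subset_span 𝔅.toSubalgebra uu bar cen hc p hp1
  clear hp hp1
  induction hp2 using Submodule.span_induction with
  | mem p hp =>
    rcases hp with hp | ⟨b, hb, l, c, hcc, rfl⟩
    · exact hx p hp
    · have h3 := h.van b.1 (h1 b hb) l c.1 (hcon1 l c hcc) x y
      have h4 := h'.van b.2 (h2 b hb) l c.2 (hcon2 l c hcc) x' y'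
      rw [Prod.fst_mul, Prod.fst_mul, Prod.snd_mul, Prod.snd_mul, huu1, huu2]
      exact h3.trans h4.symm
  | zero => simp
  | add p q _ _ ih ih' =>
    rw [Prod.fst_add, Prod.snd_add, add_apply, add_apply, inner_add_right, inner_add_right, ih,
      ih']
  | smul a p _ ih =>
    rw [Prod.smul_fst, Prod.smul_snd, smul_apply, smul_apply, inner_smul_right,
      inner_smul_right, ih]

end B

end Pool.Agent.MP9a76ab
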