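import Pool.Agent.Lib.MP_9a76ab_an.Basic
import Pool.Agent.Lib.MP_9a76ab_an.Span

/-! Associativity of free Haar systems. -/

set_option autoImplicit false

namespace Pool.Agent.MP9a76ab

open scoped InnerProductSpace

namespace AssocX

section gen
variable {A L L' : Type} [Ring A] [Algebra ℂ A]

/-- Transfer of reduced words. -/
theorem con_map {B B' : Set A} (hB : B' ⊆ B) {u : L → A} {u' : L' → A} {br : L → L}
    {br' : L' → L'} {cen : L → A →ₗ[ℂ] ℂ} {cen' : L' → A →ₗ[ℂ] ℂ} (f : L' → L)
    (hu : ∀ l, u (f l) = u' l) (hcen : ∀ l, cen (f l) = cen' l)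
    (hbr : ∀ l l', f l' = br (f l) → l' = br' l) {l : L'} {c : A}
    (h : Con B' u' br' cen' l c) : Con B u br cen (f l) c := by
  induction h with
  | base l b hb => exact Con.base _ b (hB hb)
  | step l l' b c hb hk _ ih =>
    rw [← hu l']
    refine Con.step _ _ b c (hB hb) (fun h => ?_) ih
    rw [hcen]
    exact hk (hbr l l' h)

end gen

section B
variable {V J : Type} {H : Type} [NormedAddCommGroup H] [InnerProductSpace ℂ H] [CompleteSpace H]
variable {W : WSys V H} {B : StarSubalgebra ℂ (Op H)}

/-- Map of letters. -/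
def fm {J' : Type} (f : J' → J) (l : J' × Bool) : J × Bool := (f l.1, l.2)

theorem fm_bar {J' : Type} {f : J' → J} (hf : Function.Injective f) (l l' : J' × Bool)
    (h : fm f l' = bar (fm f l)) : l' = bar l := by
  obtain ⟨j, s⟩ := l
  obtain ⟨j', s'⟩ := l'
  simp only [fm, bar, Prod.mk.injEq] at h ⊢
  exact ⟨hf h.1, h.2⟩

/-- Transfer of reduced words for a family of letters. -/
theorem con_fm {J' : Type} {U : J → Op H} {S T : J → Finset V} {B B' : Set (Op H)} (hB : B' ⊆ B)
    (f : J' → J) (hf : Function.Injective f) {l : J' × Bool} {c : Op H}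
    (h : Con B' (ltr fun j => U (f j)) bar
      (fun l => W.φF (rt (fun j => S (f j)) (fun j => T (f j)) l)) l c) :
    Con B (ltr U) bar (fun l => W.φF (rt S T l)) (fm f l) c :=
  con_map hB (fm f) (fun _ => rfl) (fun _ => rfl) (fm_bar hf) h

end B

end AssocX

section B
variable {V J : Type} {H : Type} [NormedAddCommGroup H] [InnerProductSpace ℂ H] [CompleteSpace H]
variable {W : WSys V H} {B B1 : StarSubalgebra ℂ (Op H)}

theorem FHS.mono {J' : Type} {U : J → Op H} {S T : J → Finset V} (h : FHS W B U S T)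
    {B' : StarSubalgebra ℂ (Op H)} (hB : B' ≤ B) (he : ∀ x, W.e x ∈ B')
    (f : J' → J) (hf : Function.Injective f) :
    FHS W B' (fun j => U (f j)) (fun j => S (f j)) (fun j => T (f j)) where
  mem_e := he
  neS j := h.neS (f j)
  neT j := h.neT (f j)
  iS j := h.iS (f j)
  iT j := h.iT (f j)
  van b hb l c hc x y := h.van b (hB hb) (AssocX.fm f l) c (AssocX.con_fm hB f hf hc) x y

end B

namespace AssocX

section B
variable {V : Type} {H : Type} [NormedAddCommGroup H] [InnerProductSpace ℂ H] [CompleteSpace H]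
variable {W : WSys V H} {B : StarSubalgebra ℂ (Op H)}
variable {J1 J2 : Type} {U1 : J1 → Op H} {S1 T1 : J1 → Finset V}
    {U2 : J2 → Op H} {S2 T2 : J2 → Finset V}

/-- Words of the first system followed by a letter of the second one. -/
theorem con_mix {l1 : J1 × Bool} {c1 : Op H}
    (h1 : Con (B : Set (Op H)) (ltr U1) bar (fun l => W.φF (rt S1 T1 l)) l1 c1)
    {l' : J2 × Bool} {c : Op H}
    (hc : Con (B : Set (Op H)) (ltr (Sum.elim U1 U2)) bar
      (fun l => W.φF (rt (Sum.elim S1 S2) (Sum.elim T1 T2) l)) (fm Sum.inr l') c) :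
    Con (B : Set (Op H)) (ltr (Sum.elim U1 U2)) bar
      (fun l => W.φF (rt (Sum.elim S1 S2) (Sum.elim T1 T2) l)) (fm Sum.inl l1)
      (c1 * ltr U2 l' * c) := by
  induction h1 with
  | base l b hb =>
    refine Con.step _ (fm Sum.inr l') b c hb (fun h => ?_) hc
    have := congrArg Prod.fst h
    simp [fm, bar] at this
  | step l l'' b c1' hb hk _ ih =>
    have e : b * ltr U1 l'' * c1' * ltr U2 l' * c =
        b * ltr (Sum.elim U1 U2) (fm Sum.inl l'') * (c1' * ltr U2 l' * c) := by
      have : ltr (Sum.elim U1 U2) (fm Sum.inl l'') = ltr U1 l'' := rfl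
      rw [this]
      noncomm_ring
    rw [e]
    exact Con.step _ _ b _ hb (fun h => hk (fm_bar Sum.inl_injective _ _ h)) ih

/-- The generators of the algebra of the first system. -/
def TT (W : WSys V H) (B : StarSubalgebra ℂ (Op H)) (U1 : J1 → Op H) (S1 T1 : J1 → Finset V) :
    Set (Op H) :=
  {x | ∃ b ∈ B, ∃ l c, Con (B : Set (Op H)) (ltr U1) bar (fun l => W.φF (rt S1 T1 l)) l c ∧
    x = b * ltr U1 l * c}

theorem mem_span (h : FHS W B U1 S1 T1) (x : Op H)
    (hx : x ∈ StarAlgebra.adjoin ℂ ((B : Set (Op H)) ∪ Set.range U1)) :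
    x ∈ Submodule.span ℂ ((B : Set (Op H)) ∪ TT W B U1 S1 T1) := by
  have h1 := adjoin_subset_span B.toSubalgebra (ltr U1) bar (fun l => W.φF (rt S1 T1 l))
    (fun l => by
      have hne : ((rt S1 T1 l).card : ℂ) ≠ 0 := by
        exact_mod_cast (Finset.card_pos.2 (h.ne_rt l)).ne'
      refine ⟨((rt S1 T1 l).card : ℂ)⁻¹ • W.eF (rt S1 T1 l),
        B.toSubalgebra.smul_mem (W.eF_mem h.mem_e _) _, ?_, ?_⟩
      · rw [map_smul, W.φF_eF, smul_eq_mul, inv_mul_cancel₀ hne]
      · rw [mul_smul_comm, smul_mul_assoc, h.conj_corner]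
        exact B.toSubalgebra.smul_mem (W.eF_mem h.mem_e _) _)
  refine h1 x ?_
  have h2 : x ∈ (StarAlgebra.adjoin ℂ ((B : Set (Op H)) ∪ Set.range U1)).toSubalgebra := hx
  rw [StarAlgebra.adjoin_toSubalgebra] at h2
  refine Algebra.adjoin_mono ?_ h2
  rintro y (hy | hy)
  · rcases hy with hy | ⟨j, rfl⟩
    · exact Or.inl hy
    · exact Or.inr ⟨(j, true), rfl⟩
  · rcases hy with hy | ⟨j, hj⟩
    · left
      have : star (star y) ∈ B := star_mem hy
      rwa [star_star] at this
    · right
      refine ⟨(j, false), ?_⟩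
      rw [ltr_false, hj, star_star]

theorem con_inl {l : J1 × Bool} {c : Op H}
    (h : Con (B : Set (Op H)) (ltr U1) bar (fun l => W.φF (rt S1 T1 l)) l c) :
    Con (B : Set (Op H)) (ltr (Sum.elim U1 U2)) bar
      (fun l => W.φF (rt (Sum.elim S1 S2) (Sum.elim T1 T2) l)) (fm Sum.inl l) c :=
  con_fm (U := Sum.elim U1 U2) (S := Sum.elim S1 S2) (T := Sum.elim T1 T2) subset_rfl Sum.inl
    Sum.inl_injective h

theorem van_TT (h : FHS W B (Sum.elim U1 U2) (Sum.elim S1 S2) (Sum.elim T1 T2)) {v : Op H}
    (hv : v ∈ Submodule.span ℂ (TT W B U1 S1 T1)) (F : Finset V) : W.φF F v = 0 := by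
  induction hv using Submodule.span_induction with
  | mem v hv =>
    obtain ⟨b, hb, l, c, hc, rfl⟩ := hv
    rw [W.φF_apply]
    refine Finset.sum_eq_zero fun x _ => ?_
    exact h.van b hb (fm Sum.inl l) c (con_inl hc) x x
  | zero => exact map_zero _
  | add x y _ _ hx hy => rw [map_add, hx, hy, add_zero]
  | smul a x _ hx => rw [map_smul, hx, smul_zero]

/-- The words of the big system which may follow a letter of the second one. -/
def CC (W : WSys V H) (B : StarSubalgebra ℂ (Op H)) (U1 : J1 → Op H) (S1 T1 : J1 → Finset V)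
    (U2 : J2 → Op H) (S2 T2 : J2 → Finset V) (l : J2 × Bool) : Set (Op H) :=
  {c | Con (B : Set (Op H)) (ltr (Sum.elim U1 U2)) bar
      (fun l => W.φF (rt (Sum.elim S1 S2) (Sum.elim T1 T2) l)) (fm Sum.inr l) c}

theorem claim (h : FHS W B (Sum.elim U1 U2) (Sum.elim S1 S2) (Sum.elim T1 T2))
    {l : J2 × Bool} {c : Op H}
    (hc : Con ((StarAlgebra.adjoin ℂ ((B : Set (Op H)) ∪ Set.range U1) :
      StarSubalgebra ℂ (Op H)) : Set (Op H)) (ltr U2) bar (fun l => W.φF (rt S2 T2 l)) l c) :
    c ∈ Submodule.span ℂ (CC W B U1 S1 T1 U2 S2 T2 l) := by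
  have h1 : FHS W B U1 S1 T1 := h.mono le_rfl h.mem_e Sum.inl Sum.inl_injective
  induction hc with
  | base l b hb =>
    refine Submodule.span_le.2 ?_ (mem_span h1 b hb)
    rintro x (hx | ⟨b0, hb0, l1, c1, hc1, rfl⟩)
    · exact Submodule.subset_span (Con.base _ x hx)
    · refine Submodule.subset_span (Con.step _ (fm Sum.inl l1) b0 c1 hb0 (fun h => ?_)
        (con_inl hc1))
      have := congrArg Prod.fst h
      simp [fm, bar] at this
  | step l l' x c hx hk hcc ih =>
    clear hcc
    have hx' := mem_span h1 x hx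
    rw [Submodule.span_union, Submodule.mem_sup] at hx'
    obtain ⟨β, hβ, v, hv, rfl⟩ := hx'
    have hβ' : β ∈ B := by
      have hle : Submodule.span ℂ (B : Set (Op H)) ≤ B.toSubalgebra.toSubmodule :=
        Submodule.span_le.2 fun y hy => hy
      exact hle hβ
    have hφ : l' = bar l → W.φF (rt S2 T2 l) β = 0 := by
      intro hl
      have h2 := hk hl
      simp only [map_add, van_TT h hv, add_zero] at h2
      exact h2
    have e : (β + v) * ltr U2 l' * c = β * ltr U2 l' * c + v * ltr U2 l' * c := by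
      noncomm_ring
    rw [e]
    refine Submodule.add_mem _ ?_ ?_
    · clear e
      induction ih using Submodule.span_induction with
      | mem c' hc' =>
        refine Submodule.subset_span (Con.step _ (fm Sum.inr l') β c' hβ' (fun h => ?_) hc')
        exact hφ (fm_bar Sum.inr_injective _ _ h)
      | zero => rw [mul_zero]; exact Submodule.zero_mem _
      | add a b _ _ ha hb => rw [mul_add]; exact Submodule.add_mem _ ha hb
      | smul r a _ ha => rw [mul_smul_comm]; exact Submodule.smul_mem _ _ ha
    · clear e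
      induction ih using Submodule.span_induction with
      | mem c' hc' =>
        clear hk hφ hx
        induction hv using Submodule.span_induction with
        | mem v hv =>
          obtain ⟨b0, hb0, l1, c1, hc1, rfl⟩ := hv
          have e2 : b0 * ltr U1 l1 * c1 * ltr U2 l' * c' =
              b0 * ltr (Sum.elim U1 U2) (fm Sum.inl l1) * (c1 * ltr U2 l' * c') := by
            have : ltr (Sum.elim U1 U2) (fm Sum.inl l1) = ltr U1 l1 := rfl
            rw [this]
            noncomm_ring
          rw [e2]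
          refine Submodule.subset_span (Con.step _ (fm Sum.inl l1) b0 _ hb0 (fun h => ?_)
            (con_mix hc1 hc'))
          have := congrArg Prod.fst h
          simp [fm, bar] at this
        | zero => rw [zero_mul, zero_mul]; exact Submodule.zero_mem _
        | add a b _ _ ha hb => rw [add_mul, add_mul]; exact Submodule.add_mem _ ha hb
        | smul r a _ ha =>
          rw [smul_mul_assoc, smul_mul_assoc]; exact Submodule.smul_mem _ _ ha
      | zero => rw [mul_zero]; exact Submodule.zero_mem _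
      | add a b _ _ ha hb => rw [mul_add]; exact Submodule.add_mem _ ha hb
      | smul r a _ ha => rw [mul_smul_comm]; exact Submodule.smul_mem _ _ ha

end B

end AssocX

section B
variable {V J : Type} {H : Type} [NormedAddCommGroup H] [InnerProductSpace ℂ H] [CompleteSpace H]
variable {W : WSys V H} {B B1 : StarSubalgebra ℂ (Op H)}

open AssocX in
theorem FHS.assoc {J1 J2 : Type} {U1 : J1 → Op H} {S1 T1 : J1 → Finset V}
    {U2 : J2 → Op H} {S2 T2 : J2 → Finset V}
    (h : FHS W B (Sum.elim U1 U2) (Sum.elim S1 S2) (Sum.elim T1 T2)) :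
    FHS W (StarAlgebra.adjoin ℂ ((B : Set (Op H)) ∪ Set.range U1)) U2 S2 T2 where
  mem_e x := StarAlgebra.subset_adjoin ℂ _ (Or.inl (h.mem_e x))
  neS j := h.neS (Sum.inr j)
  neT j := h.neT (Sum.inr j)
  iS j := h.iS (Sum.inr j)
  iT j := h.iT (Sum.inr j)
  van b hb l c hc x y := by
    have h1 : FHS W B U1 S1 T1 := h.mono le_rfl h.mem_e Sum.inl Sum.inl_injective
    have hb' := mem_span h1 b hb
    have hc' := claim h hc
    clear hb hc
    induction hc' using Submodule.span_induction with
    | mem c' hc' =>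
      induction hb' using Submodule.span_induction with
      | mem b hb =>
        rcases hb with hb | ⟨b0, hb0, l1, c1, hc1, rfl⟩
        · exact h.van b hb (fm Sum.inr l) c' hc' x y
        · exact h.van b0 hb0 (fm Sum.inl l1) _ (con_mix hc1 hc') x y
      | zero => simp
      | add a b _ _ ha hb =>
        rw [add_apply, inner_add_right, ha, hb, add_zero]
      | smul r a _ ha =>
        rw [smul_apply, inner_smul_right, ha, mul_zero]
    | zero => simp
    | add a b _ _ ha hb =>
      rw [add_apply, map_add, map_add, inner_add_right, ha, hb, add_zero]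
    | smul r a _ ha =>
      rw [smul_apply, map_smul, map_smul, inner_smul_right, ha, mul_zero]

end B

end Pool.Agent.MP9a76ab
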