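import Pool.Agent.Lib.MP_9a76ab_an.Basic

/-! Converse associativity of free Haar systems and absorption of coefficients. -/

set_option autoImplicit false

namespace Pool.Agent.MP9a76ab

open scoped InnerProductSpace

namespace AssocInvX

section
variable {V J : Type} {H : Type} [NormedAddCommGroup H] [InnerProductSpace ℂ H] [CompleteSpace H]

theorem ltr_mem {B1 : StarSubalgebra ℂ (Op H)} {U : J → Op H} (hU : ∀ j, U j ∈ B1)
    (l : J × Bool) : ltr U l ∈ B1 := by
  obtain ⟨j, s⟩ := l
  cases s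
  · exact star_mem (hU j)
  · exact hU j

theorem con_mem {B B1 : StarSubalgebra ℂ (Op H)} {U : J → Op H}
    {cen : J × Bool → Op H →ₗ[ℂ] ℂ} (hB : B ≤ B1) (hU : ∀ j, U j ∈ B1) {l : J × Bool} {c : Op H}
    (h : Con (B : Set (Op H)) (ltr U) bar cen l c) : c ∈ B1 := by
  induction h with
  | base l b hb => exact hB hb
  | step l l' b c hb _ _ ih => exact mul_mem (mul_mem (hB hb) (ltr_mem hU l')) ih

theorem φF_van {W : WSys V H} {B : StarSubalgebra ℂ (Op H)} {U : J → Op H} {S T : J → Finset V}
    (h : FHS W B U S T) {b : Op H} (hb : b ∈ B) (l : J × Bool) {c : Op H}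
    (hc : Con (B : Set (Op H)) (ltr U) bar (fun l => W.φF (rt S T l)) l c) (F : Finset V) :
    W.φF F (b * ltr U l * c) = 0 := by
  rw [W.φF_apply]
  refine Finset.sum_eq_zero fun x _ => ?_
  exact h.van b hb l c hc x x

/-- The normal form of reduced words of a sum of two families. -/
def PP {J1 J2 : Type} (W : WSys V H) (B B1 : StarSubalgebra ℂ (Op H)) (U1 : J1 → Op H)
    (S1 T1 : J1 → Finset V) (U2 : J2 → Op H) (S2 T2 : J2 → Finset V) :
    (J1 ⊕ J2) × Bool → Op H → Prop
  | (Sum.inl j, s), c =>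
      Con (B : Set (Op H)) (ltr U1) bar (fun l => W.φF (rt S1 T1 l)) (j, s) c ∨
      ∃ (c1 : Op H) (l' : J2 × Bool) (c2 : Op H),
        Con (B : Set (Op H)) (ltr U1) bar (fun l => W.φF (rt S1 T1 l)) (j, s) c1 ∧
        Con (B1 : Set (Op H)) (ltr U2) bar (fun l => W.φF (rt S2 T2 l)) l' c2 ∧
        c = c1 * ltr U2 l' * c2
  | (Sum.inr j, s), c =>
      Con (B1 : Set (Op H)) (ltr U2) bar (fun l => W.φF (rt S2 T2 l)) (j, s) c

theorem con_PP {J1 J2 : Type} {W : WSys V H} {B B1 : StarSubalgebra ℂ (Op H)}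
    {U1 : J1 → Op H} {S1 T1 : J1 → Finset V} {U2 : J2 → Op H} {S2 T2 : J2 → Finset V}
    (h1 : FHS W B U1 S1 T1) (hB : B ≤ B1) (hU : ∀ j, U1 j ∈ B1)
    (l : (J1 ⊕ J2) × Bool) (c : Op H)
    (h : Con (B : Set (Op H)) (ltr (Sum.elim U1 U2)) bar
      (fun l => W.φF (rt (Sum.elim S1 S2) (Sum.elim T1 T2) l)) l c) :
    PP W B B1 U1 S1 T1 U2 S2 T2 l c := by
  induction h with
  | base l b hb =>
    obtain ⟨l | l, s⟩ := l
    · exact Or.inl (Con.base _ b hb)
    · exact Con.base _ b (hB hb)
  | step l l' b c hb hcen _ ih =>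
    obtain ⟨j | j, s⟩ := l
    · obtain ⟨j' | j', s'⟩ := l'
      · have hcen' : (j', s') = bar (j, s) → W.φF (rt S1 T1 (j, s)) b = 0 := by
          intro he
          refine hcen ?_
          simp only [bar, Prod.mk.injEq] at he ⊢
          exact ⟨by rw [he.1], he.2⟩
        rcases ih with ih | ⟨c1, l'', c2, hc1, hc2, rfl⟩
        · exact Or.inl (Con.step _ (j', s') b c hb hcen' ih)
        · refine Or.inr ⟨b * ltr U1 (j', s') * c1, l'', c2, Con.step _ (j', s') b c1 hb hcen' hc1,
            hc2, ?_⟩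
          change b * ltr U1 (j', s') * (c1 * ltr U2 l'' * c2) = _
          simp only [mul_assoc]
      · exact Or.inr ⟨b, (j', s'), c, Con.base _ b hb, ih, rfl⟩
    · obtain ⟨j' | j', s'⟩ := l'
      · rcases ih with ih | ⟨c1, l'', c2, hc1, hc2, rfl⟩
        · refine Con.base _ _ ?_
          exact mul_mem (mul_mem (hB hb) (ltr_mem hU (j', s'))) (con_mem hB hU ih)
        · have he : b * ltr (Sum.elim U1 U2) (Sum.inl j', s') * (c1 * ltr U2 l'' * c2) =
              (b * ltr U1 (j', s') * c1) * ltr U2 l'' * c2 := by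
            change b * ltr U1 (j', s') * (c1 * ltr U2 l'' * c2) = _
            simp only [mul_assoc]
          rw [he]
          refine Con.step _ l'' _ c2 ?_ (fun _ => ?_) hc2
          · exact mul_mem (mul_mem (hB hb) (ltr_mem hU (j', s'))) (con_mem hB hU hc1)
          · exact φF_van h1 hb (j', s') hc1 _
      · have hcen' : (j', s') = bar (j, s) → W.φF (rt S2 T2 (j, s)) b = 0 := by
          intro he
          refine hcen ?_
          simp only [bar, Prod.mk.injEq] at he ⊢
          exact ⟨by rw [he.1], he.2⟩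
        exact Con.step _ (j', s') b c (hB hb) hcen' ih

/-- right multiplier -/
noncomputable def mr (g k : J → Op H) (l : J × Bool) : Op H := if l.2 then k l.1 else star (g l.1)

/-- left multiplier -/
noncomputable def ml (g k : J → Op H) (l : J × Bool) : Op H := if l.2 then g l.1 else star (k l.1)

theorem ml_bar (g k : J → Op H) (l : J × Bool) : ml g k (bar l) = star (mr g k l) := by
  obtain ⟨j, s⟩ := l
  cases s <;> simp [ml, mr, bar]

theorem ltr_abs (U g k : J → Op H) (l : J × Bool) :
    ltr (fun j => g j * U j * k j) l = ml g k l * ltr U l * mr g k l := by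
  obtain ⟨j, s⟩ := l
  cases s
  · simp [ml, mr, ltr, mul_assoc]
  · simp [ml, mr, ltr]

theorem con_abs {W : WSys V H} {B : StarSubalgebra ℂ (Op H)}
    {U : J → Op H} {S T : J → Finset V} (g k : J → Op H)
    (hg : ∀ j, g j ∈ B) (hk : ∀ j, k j ∈ B) (S' T' : J → Finset V)
    (hsk : ∀ j, ∀ b ∈ B, W.φF (S' j) b = 0 → W.φF (S j) (k j * b * star (k j)) = 0)
    (hsg : ∀ j, ∀ b ∈ B, W.φF (T' j) b = 0 → W.φF (T j) (star (g j) * b * g j) = 0)
    (l : J × Bool) (c : Op H)
    (h : Con (B : Set (Op H)) (ltr fun j => g j * U j * k j) bar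
      (fun l => W.φF (rt S' T' l)) l c) :
    Con (B : Set (Op H)) (ltr U) bar (fun l => W.φF (rt S T l)) l (mr g k l * c) := by
  have hml : ∀ l, ml g k l ∈ B := by
    rintro ⟨j, s⟩
    cases s
    · exact star_mem (hk j)
    · exact hg j
  have hmr : ∀ l, mr g k l ∈ B := by
    rintro ⟨j, s⟩
    cases s
    · exact star_mem (hg j)
    · exact hk j
  induction h with
  | base l b hb => exact Con.base _ _ (mul_mem (hmr l) hb)
  | step l l' b c hb hcen _ ih =>
    have he : mr g k l * (b * ltr (fun j => g j * U j * k j) l' * c) =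
        (mr g k l * b * ml g k l') * ltr U l' * (mr g k l' * c) := by
      rw [ltr_abs]
      simp only [mul_assoc]
    rw [he]
    refine Con.step _ l' _ _ (mul_mem (mul_mem (hmr l) hb) (hml l')) (fun hl => ?_) ih
    have h0 := hcen hl
    subst hl
    rw [ml_bar]
    obtain ⟨j, s⟩ := l
    cases s
    · have := hsg j b hb h0
      simpa [mr, rt] using this
    · have := hsk j b hb h0
      simpa [mr, rt] using this

end

end AssocInvX

section B
variable {V J : Type} {H : Type} [NormedAddCommGroup H] [InnerProductSpace ℂ H] [CompleteSpace H]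
variable {W : WSys V H} {B B1 : StarSubalgebra ℂ (Op H)}

theorem FHS.assoc_inv {J1 J2 : Type} {U1 : J1 → Op H} {S1 T1 : J1 → Finset V}
    {U2 : J2 → Op H} {S2 T2 : J2 → Finset V}
    (h1 : FHS W B U1 S1 T1) (h2 : FHS W B1 U2 S2 T2) (hB : B ≤ B1) (hU : ∀ j, U1 j ∈ B1) :
    FHS W B (Sum.elim U1 U2) (Sum.elim S1 S2) (Sum.elim T1 T2) where
  mem_e := h1.mem_e
  neS := by
    rintro (j | j)
    · exact h1.neS j
    · exact h2.neS j
  neT := by
    rintro (j | j)
    · exact h1.neT j
    · exact h2.neT j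
  iS := by
    rintro (j | j)
    · exact h1.iS j
    · exact h2.iS j
  iT := by
    rintro (j | j)
    · exact h1.iT j
    · exact h2.iT j
  van := by
    rintro b hb ⟨j | j, s⟩ c hc x y
    · have hP := AssocInvX.con_PP h1 hB hU _ _ hc
      rcases hP with hP | ⟨c1, l', c2, hc1, hc2, rfl⟩
      · exact h1.van b hb (j, s) c hP x y
      · exact h2.van (b * ltr U1 (j, s) * c1)
          (mul_mem (mul_mem (hB hb) (AssocInvX.ltr_mem hU (j, s))) (AssocInvX.con_mem hB hU hc1))
          l' c2 hc2 x y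
    · have hP := AssocInvX.con_PP h1 hB hU _ _ hc
      exact h2.van b (hB hb) (j, s) c hP x y

theorem FHS.abs {U : J → Op H} {S T : J → Finset V} (h : FHS W B U S T) (g k : J → Op H)
    (hg : ∀ j, g j ∈ B) (hk : ∀ j, k j ∈ B) (S' T' : J → Finset V)
    (neS : ∀ j, (S' j).Nonempty) (neT : ∀ j, (T' j).Nonempty)
    (k1 : ∀ j, star (k j) * k j = W.eF (S' j)) (k2 : ∀ j, k j * star (k j) = W.eF (S j))
    (g1 : ∀ j, star (g j) * g j = W.eF (T j)) (g2 : ∀ j, g j * star (g j) = W.eF (T' j))
    (hsk : ∀ j, ∀ b ∈ B, W.φF (S' j) b = 0 → W.φF (S j) (k j * b * star (k j)) = 0)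
    (hsg : ∀ j, ∀ b ∈ B, W.φF (T' j) b = 0 → W.φF (T j) (star (g j) * b * g j) = 0) :
    FHS W B (fun j => g j * U j * k j) S' T' where
  mem_e := h.mem_e
  neS := neS
  neT := neT
  iS := by
    intro j
    have hU : W.eF (T j) * U j = U j := h.mul_ltr (j, true)
    calc star (g j * U j * k j) * (g j * U j * k j)
        = star (k j) * (star (U j) * ((star (g j) * g j) * U j)) * k j := by
          simp only [StarMul.star_mul, mul_assoc]
      _ = star (k j) * W.eF (S j) * k j := by rw [g1, hU, h.iS]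
      _ = (star (k j) * k j) * (star (k j) * k j) := by rw [← k2]; simp only [mul_assoc]
      _ = W.eF (S' j) := by rw [k1, W.eF_idem]
  iT := by
    intro j
    have hU : U j * W.eF (S j) = U j := h.ltr_mul (j, true)
    calc (g j * U j * k j) * star (g j * U j * k j)
        = g j * ((U j * (k j * star (k j))) * star (U j)) * star (g j) := by
          simp only [StarMul.star_mul, mul_assoc]
      _ = g j * W.eF (T j) * star (g j) := by rw [k2, hU, h.iT]
      _ = (g j * star (g j)) * (g j * star (g j)) := by rw [← g1]; simp only [mul_assoc]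
      _ = W.eF (T' j) := by rw [g2, W.eF_idem]
  van := by
    intro b hb l c hc x y
    have hc' := AssocInvX.con_abs g k hg hk S' T' hsk hsg l c hc
    have hml : AssocInvX.ml g k l ∈ B := by
      obtain ⟨j, s⟩ := l
      cases s
      · exact star_mem (hk j)
      · exact hg j
    have := h.van (b * AssocInvX.ml g k l) (mul_mem hb hml) l _ hc' x y
    rw [AssocInvX.ltr_abs]
    exact this

end B

end Pool.Agent.MP9a76ab
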