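import Pool.Agent.Lib.MP_9a76ab_an.Defs

/-! Basic API for MP_9a76ab_an. -/

set_option autoImplicit false

namespace Pool.Agent.MP9a76ab

open scoped InnerProductSpace

section vn
variable {H : Type} [NormedAddCommGroup H] [InnerProductSpace ℂ H] [CompleteSpace H]

theorem inner_op_star (A : Op H) (u v : H) : ⟪u, A v⟫_ℂ = ⟪star A u, v⟫_ℂ := by
  rw [ContinuousLinearMap.star_eq_adjoint, ContinuousLinearMap.adjoint_inner_left]

theorem inner_star_op (A : Op H) (u v : H) : ⟪u, star A v⟫_ℂ = ⟪A u, v⟫_ℂ := by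
  rw [ContinuousLinearMap.star_eq_adjoint, ContinuousLinearMap.adjoint_inner_right]

theorem inner_self_C (u : H) : ⟪u, u⟫_ℂ = ((‖u‖ : ℝ) : ℂ) ^ 2 := inner_self_eq_norm_sq_to_K u

theorem mem_vNa_iff {S : Set (Op H)} {X : Op H} : X ∈ vNa S ↔
    ∀ T : Op H, (∀ s ∈ S, s * T = T * s ∧ star s * T = T * star s) → T * X = X * T := by
  unfold vNa
  rw [StarSubalgebra.mem_centralizer_iff]
  constructor
  · intro h T hT
    exact (h T ((StarSubalgebra.mem_centralizer_iff ℂ).2 hT)).1
  · intro h T hT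
    have h2 := (StarSubalgebra.mem_centralizer_iff ℂ).1 (show T ∈ StarSubalgebra.centralizer ℂ S from hT)
    refine ⟨h T h2, h (star T) fun s hs => ?_⟩
    have h3 := h2 s hs
    constructor
    · have := congrArg star h3.2; simpa using this.symm
    · have := congrArg star h3.1; simpa using this.symm

theorem subset_vNa (S : Set (Op H)) : S ⊆ vNa S := fun s hs => by
  rw [SetLike.mem_coe, mem_vNa_iff]
  exact fun T hT => (hT s hs).1.symm

theorem vNa_commute {S : Set (Op H)} {X : Op H} (hX : X ∈ vNa S) {T : Op H}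
    (hT : ∀ s ∈ S, s * T = T * s ∧ star s * T = T * star s) : T * X = X * T :=
  mem_vNa_iff.1 hX T hT

/-- for star-closed generating sets -/
theorem vNa_commute' {M : StarSubalgebra ℂ (Op H)} {X : Op H} (hX : X ∈ vNa (M : Set (Op H)))
    {T : Op H} (hT : ∀ s ∈ M, s * T = T * s) : T * X = X * T :=
  vNa_commute hX fun s hs => ⟨hT s hs, hT _ (star_mem hs)⟩

theorem vNa_le {S S' : Set (Op H)} (h : S ⊆ vNa S') : vNa S ≤ vNa S' := by
  intro X hX
  rw [mem_vNa_iff]
  intro T hT
  refine vNa_commute hX fun s hs => ?_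
  have h1 := vNa_commute (h hs) hT
  have h2 := vNa_commute (star_mem (h hs)) hT
  exact ⟨h1.symm, h2.symm⟩

theorem vNa_mono {S S' : Set (Op H)} (h : S ⊆ S') : vNa S ≤ vNa S' :=
  vNa_le (h.trans (subset_vNa S'))

theorem vNa_vNa (S : Set (Op H)) : vNa ((vNa S : StarSubalgebra ℂ (Op H)) : Set (Op H)) = vNa S :=
  le_antisymm (vNa_le (fun _ h => h)) (subset_vNa _)

theorem le_vNa (M : StarSubalgebra ℂ (Op H)) : M ≤ vNa (M : Set (Op H)) := subset_vNa _

theorem adjoin_le_vNa (S : Set (Op H)) : StarAlgebra.adjoin ℂ S ≤ vNa S :=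
  StarAlgebra.adjoin_le (subset_vNa S)

theorem vNa_adjoin (S : Set (Op H)) :
    vNa ((StarAlgebra.adjoin ℂ S : StarSubalgebra ℂ (Op H)) : Set (Op H)) = vNa S :=
  le_antisymm (vNa_le (adjoin_le_vNa S)) (vNa_mono (StarAlgebra.subset_adjoin ℂ S))

theorem vNa_eq {S S' : Set (Op H)} (h : S ⊆ vNa S') (h' : S' ⊆ vNa S) : vNa S = vNa S' :=
  le_antisymm (vNa_le h) (vNa_le h')

end vn

section ws
variable {V H : Type} [NormedAddCommGroup H] [InnerProductSpace ℂ H] [CompleteSpace H]
  (W : WSys V H)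

theorem WSys.inner_e (x : V) (u v : H) : ⟪u, W.e x v⟫_ℂ = ⟪W.e x u, v⟫_ℂ := by
  rw [inner_op_star, W.sa]

theorem WSys.e_e (x : V) (v : H) : W.e x (W.e x v) = W.e x v := by
  have := congrArg (fun A : Op H => A v) (W.idem x)
  simpa using this

theorem WSys.e_e_ne {x y : V} (h : x ≠ y) (v : H) : W.e x (W.e y v) = 0 := by
  have := congrArg (fun A : Op H => A v) (W.orth x y h)
  simpa using this

theorem WSys.e_ξ_ne {x y : V} (h : x ≠ y) : W.e x (W.ξ y) = 0 := by
  rw [← W.eξ y, W.e_e_ne h]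

theorem WSys.inner_ξ_self (x : V) : ⟪W.ξ x, W.ξ x⟫_ℂ = 1 := by
  rw [inner_self_eq_norm_sq_to_K, W.norm_ξ]; simp

theorem WSys.inner_ξ_ne {x y : V} (h : x ≠ y) : ⟪W.ξ x, W.ξ y⟫_ℂ = 0 := by
  rw [← W.eξ y, W.inner_e, W.e_ξ_ne h.symm, inner_zero_left]

theorem WSys.φ_apply (x : V) (X : Op H) : W.φ x X = ⟪W.ξ x, X (W.ξ x)⟫_ℂ := rfl

theorem WSys.φF_apply (F : Finset V) (X : Op H) :
    W.φF F X = ∑ x ∈ F, ⟪W.ξ x, X (W.ξ x)⟫_ℂ := by
  simp [WSys.φF, WSys.φ, LinearMap.sum_apply]

theorem WSys.φF_singleton (x : V) (X : Op H) : W.φF {x} X = ⟪W.ξ x, X (W.ξ x)⟫_ℂ := by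
  simp [W.φF_apply]

theorem WSys.e_mul_e [DecidableEq V] (x y : V) :
    W.e x * W.e y = if x = y then W.e x else 0 := by
  split_ifs with h
  · subst h; exact W.idem x
  · exact W.orth x y h

theorem WSys.eF_sa (F : Finset V) : star (W.eF F) = W.eF F := by
  simp [WSys.eF, star_sum, W.sa]

theorem WSys.e_mul_eF_mem {x : V} {F : Finset V} (h : x ∈ F) : W.e x * W.eF F = W.e x := by
  classical
  simp [WSys.eF, Finset.mul_sum, W.e_mul_e, h]

theorem WSys.e_mul_eF_not {x : V} {F : Finset V} (h : x ∉ F) : W.e x * W.eF F = 0 := by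
  classical
  simp [WSys.eF, Finset.mul_sum, W.e_mul_e, h]

theorem WSys.eF_mul_e_mem {x : V} {F : Finset V} (h : x ∈ F) : W.eF F * W.e x = W.e x := by
  have := congrArg star (W.e_mul_eF_mem h)
  simpa [W.eF_sa, W.sa] using this

theorem WSys.eF_mul_e_not {x : V} {F : Finset V} (h : x ∉ F) : W.eF F * W.e x = 0 := by
  have := congrArg star (W.e_mul_eF_not h)
  simpa [W.eF_sa, W.sa] using this

theorem WSys.eF_idem (F : Finset V) : W.eF F * W.eF F = W.eF F := by
  conv_lhs => rw [WSys.eF, Finset.sum_mul]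
  rw [WSys.eF]
  refine Finset.sum_congr rfl fun x hx => ?_
  exact W.e_mul_eF_mem hx

theorem WSys.eF_mul_eF_disj {F F' : Finset V} (h : Disjoint F F') : W.eF F * W.eF F' = 0 := by
  conv_lhs => rw [WSys.eF, Finset.sum_mul]
  refine Finset.sum_eq_zero fun x hx => ?_
  exact W.e_mul_eF_not (Finset.disjoint_left.1 h hx)

theorem WSys.eF_singleton (x : V) : W.eF {x} = W.e x := by simp [WSys.eF]

theorem WSys.eF_ξ_mem {x : V} {F : Finset V} (h : x ∈ F) : W.eF F (W.ξ x) = W.ξ x := by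
  have := congrArg (fun A : Op H => A (W.ξ x)) (W.eF_mul_e_mem h)
  simpa [W.eξ] using this

theorem WSys.eF_ξ_not {x : V} {F : Finset V} (h : x ∉ F) : W.eF F (W.ξ x) = 0 := by
  have := congrArg (fun A : Op H => A (W.ξ x)) (W.eF_mul_e_not h)
  simpa [W.eξ] using this

theorem WSys.φF_eF (F : Finset V) : W.φF F (W.eF F) = F.card := by
  rw [W.φF_apply, Finset.sum_congr rfl fun x hx => by rw [W.eF_ξ_mem hx, W.inner_ξ_self]]
  simp

theorem WSys.φF_one (F : Finset V) : W.φF F 1 = F.card := by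
  rw [W.φF_apply, Finset.sum_congr rfl fun x hx => by
    rw [one_apply_eq_self, W.inner_ξ_self]]
  simp

theorem WSys.eF_mem {B : StarSubalgebra ℂ (Op H)} (h : ∀ x, W.e x ∈ B) (F : Finset V) :
    W.eF F ∈ B := sum_mem fun x _ => h x

theorem WSys.norm_eF_sq (F : Finset V) (v : H) : ‖W.eF F v‖ ^ 2 = ∑ x ∈ F, ‖W.e x v‖ ^ 2 := by
  have horth : ∀ x y, x ≠ y → ⟪W.e x v, W.e y v⟫_ℂ = 0 := by
    intro x y h
    rw [← W.inner_e, W.e_e_ne h, inner_zero_right]
  have e1 : W.eF F v = ∑ x ∈ F, W.e x v := by simp [WSys.eF]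
  have e2 : ((‖W.eF F v‖ : ℂ)) ^ 2 = ((∑ x ∈ F, ‖W.e x v‖ ^ 2 : ℝ) : ℂ) := by
    rw [← inner_self_C, e1, sum_inner]
    push_cast
    refine Finset.sum_congr rfl fun x hx => ?_
    rw [inner_sum, Finset.sum_eq_single x]
    · rw [inner_self_C]
    · intro y _ hy; exact horth x y hy.symm
    · intro h; exact absurd hx h
  exact_mod_cast e2

theorem WSys.norm_eF_le (F : Finset V) (v : H) : ‖W.eF F v‖ ≤ ‖v‖ := by
  have h3 : ((‖W.eF F v‖ : ℂ)) ^ 2 = ⟪W.eF F v, v⟫_ℂ := by
    rw [← inner_self_C, inner_op_star, W.eF_sa]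
    congr 1
    have := congrArg (fun A : Op H => A v) (W.eF_idem F)
    simpa using this
  have h4 : ‖((‖W.eF F v‖ : ℂ)) ^ 2‖ ≤ ‖W.eF F v‖ * ‖v‖ := by
    rw [h3]; exact norm_inner_le_norm _ _
  rw [norm_pow, Complex.norm_real, Real.norm_of_nonneg (norm_nonneg _)] at h4
  by_cases h0 : ‖W.eF F v‖ = 0
  · rw [h0]; exact norm_nonneg _
  · have hpos : 0 < ‖W.eF F v‖ := lt_of_le_of_ne (norm_nonneg _) (Ne.symm h0)
    nlinarith

/-- the partition of unity, strongly -/
theorem WSys.hasSum (v : H) : HasSum (fun x => W.e x v) v := by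
  have hsum : Summable (fun x => W.e x v) := by
    have hs2 : Summable (fun x => ‖W.e x v‖ ^ 2) :=
      summable_of_sum_le (c := ‖v‖ ^ 2) (fun x => sq_nonneg _) (fun F => by
        rw [← W.norm_eF_sq]
        have := W.norm_eF_le F v
        gcongr)
    let G : V → Submodule ℂ H := fun x => LinearMap.range (W.e x).toLinearMap
    have hG : OrthogonalFamily ℂ (fun x => G x) (fun x => (G x).subtypeₗᵢ) := by
      intro x y hxy u w
      obtain ⟨u, ⟨u', rfl⟩⟩ := u
      obtain ⟨w, ⟨w', rfl⟩⟩ := w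
      change ⟪W.e x u', W.e y w'⟫_ℂ = 0
      rw [← W.inner_e, W.e_e_ne hxy, inner_zero_right]
    exact (hG.summable_iff_norm_sq_summable (fun x => ⟨W.e x v, ⟨v, rfl⟩⟩)).2 hs2
  obtain ⟨w, hw⟩ := hsum
  have : w = v := by
    rw [← sub_eq_zero]
    apply W.total
    intro x
    have h1 : HasSum (fun y => W.e x (W.e y v)) (W.e x w) := hw.mapL (W.e x)
    have h2 : HasSum (fun y => W.e x (W.e y v)) (W.e x v) := by
      have h3 := hasSum_single (f := fun y => W.e x (W.e y v)) x
        (fun y hy => W.e_e_ne (Ne.symm hy) v)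
      simpa [W.e_e] using h3
    rw [map_sub, h1.unique h2, sub_self]
  rwa [this] at hw

/-- two operators which agree on all corners agree -/
theorem WSys.op_ext {A A' : Op H} (h : ∀ x, A * W.e x = A' * W.e x) : A = A' := by
  ext v
  have h1 := (W.hasSum v).mapL A
  have h2 := (W.hasSum v).mapL A'
  refine h1.unique ?_
  convert h2 using 2 with x
  exact congrArg (fun B : Op H => B v) (h x)

end ws

section letters
variable {V J H : Type} [NormedAddCommGroup H] [InnerProductSpace ℂ H] [CompleteSpace H]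

theorem bar_bar (l : J × Bool) : bar (bar l) = l := by simp [bar]

theorem ltr_true (U : J → Op H) (j : J) : ltr U (j, true) = U j := rfl

theorem ltr_false (U : J → Op H) (j : J) : ltr U (j, false) = star (U j) := rfl

theorem ltr_bar (U : J → Op H) (l : J × Bool) : ltr U (bar l) = star (ltr U l) := by
  obtain ⟨j, s⟩ := l
  cases s <;> simp [ltr, bar]

variable {W : WSys V H} {B : StarSubalgebra ℂ (Op H)} {U : J → Op H} {S T : J → Finset V}

theorem FHS.ne_rt (h : FHS W B U S T) (l : J × Bool) : (rt S T l).Nonempty := by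
  obtain ⟨j, s⟩ := l
  cases s
  · exact h.neT j
  · exact h.neS j

/-- `u* u` is the corner on the right of the letter -/
theorem FHS.star_mul (h : FHS W B U S T) (l : J × Bool) :
    star (ltr U l) * ltr U l = W.eF (rt S T l) := by
  obtain ⟨j, s⟩ := l
  cases s
  · simpa [ltr, rt] using h.iT j
  · simpa [ltr, rt] using h.iS j

theorem FHS.mul_star (h : FHS W B U S T) (l : J × Bool) :
    ltr U l * star (ltr U l) = W.eF (rt S T (bar l)) := by
  have := h.star_mul (bar l)
  rwa [ltr_bar, star_star] at this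

/-- a partial isometry is absorbed by its right corner -/
theorem mul_corner {A p : Op H} (h : star A * A = p) (hp : p * p = p) : A * p = A := by
  have h2 : star (A * p - A) * (A * p - A) = 0 := by
    have hps : star p = p := by rw [← h]; simp
    have e : star (A * p - A) * (A * p - A) =
        p * (star A * A) * p - p * (star A * A) - (star A * A) * p + star A * A := by
      rw [star_sub, star_mul, hps]; noncomm_ring
    rw [e, h, hp]; simp [hp]
  have h3 : ‖A * p - A‖ * ‖A * p - A‖ = 0 := by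
    rw [← CStarRing.norm_star_mul_self, h2, norm_zero]
  exact sub_eq_zero.1 (norm_eq_zero.1 (mul_self_eq_zero.1 h3))

theorem FHS.ltr_mul (h : FHS W B U S T) (l : J × Bool) :
    ltr U l * W.eF (rt S T l) = ltr U l :=
  mul_corner (h.star_mul l) (W.eF_idem _)

theorem FHS.mul_ltr (h : FHS W B U S T) (l : J × Bool) :
    W.eF (rt S T (bar l)) * ltr U l = ltr U l := by
  have := h.ltr_mul (bar l)
  rw [ltr_bar] at this
  have h2 := congrArg star this
  simpa [W.eF_sa] using h2

/-- `u e u* = e'` -/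
theorem FHS.conj_corner (h : FHS W B U S T) (l : J × Bool) :
    ltr U l * W.eF (rt S T l) * ltr U (bar l) = W.eF (rt S T (bar l)) := by
  rw [h.ltr_mul, ltr_bar, h.mul_star]

end letters

end Pool.Agent.MP9a76ab
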