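import Pool.Agent.Lib.MP_9a76ab_an.Defs2

/-! Roots in the circle and the vertex set (module CIRC of MP_9a76ab_an). -/

set_option autoImplicit false

namespace Pool.Agent.MP9a76ab

open scoped InnerProductSpace

section C

namespace CircAX

/-- roots of one -/
theorem roots_one (n : ℕ) (hn : n ≠ 0) :
    {x : Circle | x ^ n = 1}.Finite ∧ {x : Circle | x ^ n = 1}.ncard = n := by
  have : NeZero n := ⟨hn⟩
  have hfin : Finite (rootsOfUnity n Circle) := Finite.of_equiv _ (rootsOfUnityCircleEquiv n).symm.toEquiv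
  have hcard : Nat.card (rootsOfUnity n Circle) = n := by
    rw [Nat.card_congr (rootsOfUnityCircleEquiv n).toEquiv, Complex.card_rootsOfUnity]
  let f : rootsOfUnity n Circle → Circle := fun w => ((w : Circleˣ) : Circle)
  have hinj : Function.Injective f := fun a b hab => Subtype.ext (Units.ext hab)
  have hrange : Set.range f = {x : Circle | x ^ n = 1} := by
    ext x
    constructor
    · rintro ⟨w, rfl⟩
      exact (mem_rootsOfUnity' n _).1 w.2
    · intro hx
      refine ⟨⟨toUnits x, ?_⟩, rfl⟩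
      rw [mem_rootsOfUnity']
      exact hx
  rw [← hrange]
  refine ⟨Set.finite_range f, ?_⟩
  rw [← Set.image_univ, Set.ncard_image_of_injective _ hinj, Set.ncard_univ, hcard]

/-- existence of roots -/
theorem root_exists (n : ℕ) (hn : n ≠ 0) (c : Circle) : ∃ x : Circle, x ^ n = c := by
  refine ⟨Circle.exp (Complex.arg c / n), ?_⟩
  have h : ∀ k : ℕ, Circle.exp (Complex.arg c / n) ^ k = Circle.exp (k * (Complex.arg c / n)) := by
    intro k
    induction k with
    | zero => simp
    | succ k ih => rw [pow_succ, ih, ← Circle.exp_add]; congr 1; push_cast; ring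
  rw [h n, mul_div_cancel₀ _ (by exact_mod_cast hn : (n : ℝ) ≠ 0), Circle.exp_arg]

theorem roots_nat (n : ℕ) (hn : n ≠ 0) (c : Circle) :
    {x : Circle | x ^ n = c}.Finite ∧ {x : Circle | x ^ n = c}.ncard = n := by
  obtain ⟨x0, hx0⟩ := root_exists n hn c
  have h := roots_one n hn
  have him : {x : Circle | x ^ n = c} = (fun y => x0 * y) '' {x : Circle | x ^ n = 1} := by
    ext x
    constructor
    · intro hx
      refine ⟨x0⁻¹ * x, ?_, mul_inv_cancel_left _ _⟩
      have hx' : x ^ n = c := hx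
      show (x0⁻¹ * x) ^ n = 1
      rw [mul_pow, inv_pow, hx0, hx', inv_mul_cancel]
    · rintro ⟨y, hy, rfl⟩
      have hy' : y ^ n = 1 := hy
      show (x0 * y) ^ n = c
      rw [mul_pow, hx0, hy', mul_one]
  rw [him]
  exact ⟨h.1.image _, by rw [Set.ncard_image_of_injective _ (mul_right_injective x0), h.2]⟩

end CircAX

open CircAX

theorem circle_roots (k : ℤ) (hk : k ≠ 0) (c : Circle) :
    {x : Circle | x ^ k = c}.Finite ∧ {x : Circle | x ^ k = c}.ncard = k.natAbs := by
  rcases Int.natAbs_eq k with h | h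
  · have e : {x : Circle | x ^ k = c} = {x : Circle | x ^ k.natAbs = c} := by
      ext x
      show x ^ k = c ↔ x ^ k.natAbs = c
      conv_lhs => rw [h, zpow_natCast]
    rw [e]
    exact roots_nat _ (Int.natAbs_ne_zero.2 hk) c
  · have e : {x : Circle | x ^ k = c} = {x : Circle | x ^ k.natAbs = c⁻¹} := by
      ext x
      show x ^ k = c ↔ x ^ k.natAbs = c⁻¹
      conv_lhs => rw [h, zpow_neg, zpow_natCast, inv_eq_iff_eq_inv]
    rw [e]
    exact roots_nat _ (Int.natAbs_ne_zero.2 hk) c⁻¹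

/-- a root exists -/
theorem circle_root_exists (k : ℤ) (hk : k ≠ 0) (c : Circle) : ∃ x : Circle, x ^ k = c := by
  have h := circle_roots k hk c
  have hpos : 0 < {x : Circle | x ^ k = c}.ncard := by
    rw [h.2]; exact Int.natAbs_pos.2 hk
  obtain ⟨x, hx⟩ := (Set.ncard_pos h.1).1 hpos
  exact ⟨x, hx⟩

theorem vset_S {m n : ℤ} (hn : n ≠ 0) {x y : Circle} (hx : VSet m n x) (h : y ^ m = x ^ m) :
    VSet m n y := by
  obtain ⟨z, hz⟩ := circle_root_exists n hn (x ^ m)
  exact VSet.down z y (VSet.up x z hx hz) (by rw [h, hz])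

theorem vset_T {m n : ℤ} (hm : m ≠ 0) {x y : Circle} (hx : VSet m n x) (h : y ^ n = x ^ n) :
    VSet m n y := by
  obtain ⟨z, hz⟩ := circle_root_exists m hm (x ^ n)
  exact VSet.up z y (VSet.down x z hx hz) (by rw [h, hz])

theorem vset_order {m n : ℤ} (hm : m ≠ 0) (hn : n ≠ 0) {x : Circle} (hx : VSet m n x) :
    ∃ N : ℕ, 0 < N ∧ x ^ N = 1 := by
  have key : ∀ (k l : ℤ) (x y : Circle) (N : ℕ), k ≠ 0 → 0 < N → x ^ N = 1 → y ^ k = x ^ l →
      ∃ N : ℕ, 0 < N ∧ y ^ N = 1 := by
    intro k l x y N hk hN hx h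
    refine ⟨k.natAbs * N, Nat.mul_pos (Int.natAbs_pos.2 hk) hN, ?_⟩
    have e : y ^ (k * (N : ℤ)) = 1 := by
      rw [zpow_mul, h, ← zpow_mul, mul_comm, zpow_mul, zpow_natCast, hx, one_zpow]
    rw [← pow_natAbs_eq_one, Int.natAbs_mul, Int.natAbs_natCast] at e
    exact e
  induction hx with
  | one => exact ⟨1, one_pos, one_pow 1⟩
  | up x y _ h ih =>
    obtain ⟨N, hN, hx⟩ := ih
    exact key n m x y N hn hN hx h
  | down x y _ h ih =>
    obtain ⟨N, hN, hx⟩ := ih
    exact key m n x y N hm hN hx h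

theorem vset_countable {m n : ℤ} (hm : m ≠ 0) (hn : n ≠ 0) : Countable (VT m n) := by
  have hsub : {x : Circle | VSet m n x} ⊆ ⋃ N : ℕ, {x : Circle | x ^ (N + 1) = 1} := by
    intro x hx
    obtain ⟨N, hN, h⟩ := vset_order hm hn hx
    refine Set.mem_iUnion.2 ⟨N - 1, ?_⟩
    show x ^ (N - 1 + 1) = 1
    rw [Nat.sub_add_cancel hN]
    exact h
  have hc : (⋃ N : ℕ, {x : Circle | x ^ (N + 1) = 1}).Countable :=
    Set.countable_iUnion fun N => (roots_one (N + 1) (Nat.succ_ne_zero N)).1.countable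
  exact (hc.mono hsub).to_subtype

theorem vset_infinite {m n : ℤ} (hm : 2 < |m|) (hn : |m| < n) : Infinite (VT m n) := by
  classical
  have hm0 : m ≠ 0 := by rintro rfl; simp at hm
  have hn0 : n ≠ 0 := by rintro rfl; have := abs_nonneg m; omega
  by_contra hinf
  have hfin : Finite (VT m n) := not_infinite_iff_finite.1 hinf
  have hF : {x : Circle | VSet m n x}.Finite := @Set.toFinite Circle {x : Circle | VSet m n x} hfin
  set F : Finset Circle := hF.toFinset with hFdef
  have memF : ∀ x, x ∈ F ↔ VSet m n x := fun x => by rw [hFdef, Set.Finite.mem_toFinset]; rfl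
  -- the two images agree
  have hK : F.image (fun x => x ^ m) = F.image (fun x => x ^ n) := by
    ext κ
    simp only [Finset.mem_image, memF]
    constructor
    · rintro ⟨x, hx, rfl⟩
      obtain ⟨y, hy⟩ := circle_root_exists n hn0 (x ^ m)
      exact ⟨y, VSet.up x y hx hy, hy⟩
    · rintro ⟨x, hx, rfl⟩
      obtain ⟨y, hy⟩ := circle_root_exists m hm0 (x ^ n)
      exact ⟨y, VSet.down x y hx hy, hy⟩
  have fib : ∀ k : ℤ, k ≠ 0 → (∀ x y, VSet m n x → y ^ k = x ^ k → VSet m n y) →
      ∀ κ ∈ F.image (fun x => x ^ k), (F.filter (fun x => x ^ k = κ)).card = k.natAbs := by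
    intro k hk hst κ hκ
    obtain ⟨x, hx, rfl⟩ := Finset.mem_image.1 hκ
    rw [← (circle_roots k hk (x ^ k)).2, ← Set.ncard_coe_finset]
    congr 1
    ext y
    simp only [Finset.coe_filter, Set.mem_ofPred_eq, memF]
    exact ⟨fun h => h.2, fun h => ⟨hst x y ((memF x).1 hx) h, h⟩⟩
  have c1 : F.card = (F.image (fun x => x ^ m)).card * m.natAbs := by
    rw [Finset.card_eq_sum_card_image (fun x => x ^ m) F,
      Finset.sum_congr rfl (fib m hm0 fun x y hx h => vset_S hn0 hx h), Finset.sum_const,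
      smul_eq_mul]
  have c2 : F.card = (F.image (fun x => x ^ n)).card * n.natAbs := by
    rw [Finset.card_eq_sum_card_image (fun x => x ^ n) F,
      Finset.sum_congr rfl (fib n hn0 fun x y hx h => vset_T hm0 hx h), Finset.sum_const,
      smul_eq_mul]
  have hne : 0 < (F.image (fun x => x ^ n)).card := by
    rw [Finset.card_pos]
    exact ⟨_, Finset.mem_image_of_mem _ ((memF 1).2 VSet.one)⟩
  rw [hK] at c1
  have h3 : m.natAbs = n.natAbs := Nat.eq_of_mul_eq_mul_left hne (c1.symm.trans c2)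
  have h4 : |m| = |n| := by rw [Int.abs_eq_natAbs, Int.abs_eq_natAbs, h3]
  have h5 : |n| = n := abs_of_nonneg ((abs_nonneg m).trans hn.le)
  omega

end C

end Pool.Agent.MP9a76ab
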