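import Pool.Agent.Lib.MP_9a76ab_an.CircA

/-! The set `C` of superfluous edges (module CSET of MP_9a76ab_an). -/

set_option autoImplicit false

namespace Pool.Agent.MP9a76ab

open scoped InnerProductSpace

section C

namespace CircBX

/-- the products of an `m`-th and an `n`-th root of one -/
noncomputable def AA (m n : ℤ) : Subgroup Circle :=
  (zpowGroupHom (α := Circle) m).ker ⊔ (zpowGroupHom (α := Circle) n).ker

theorem mem_AA {m n : ℤ} {x : Circle} :
    x ∈ AA m n ↔ ∃ a : Circle, a ^ m = 1 ∧ ∃ b : Circle, b ^ n = 1 ∧ a * b = x := by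
  unfold AA
  rw [Subgroup.mem_sup]
  simp only [MonoidHom.mem_ker, zpowGroupHom_apply]

theorem AA_finite {m n : ℤ} (hm : m ≠ 0) (hn : n ≠ 0) : ((AA m n : Subgroup Circle) : Set Circle).Finite := by
  have h := ((circle_roots m hm 1).1.prod (circle_roots n hn 1).1).image (fun p => p.1 * p.2)
  refine h.subset ?_
  intro x hx
  obtain ⟨a, ha, b, hb, rfl⟩ := mem_AA.1 hx
  exact ⟨(a, b), ⟨ha, hb⟩, rfl⟩

/-- the equivalence relation -/
noncomputable def st (m n : ℤ) : Setoid (VT m n) :=
  Setoid.comap (fun x : VT m n => x.1) (QuotientGroup.leftRel (AA m n))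

theorem st_iff {m n : ℤ} {x y : VT m n} : (st m n).r x y ↔ x.1⁻¹ * y.1 ∈ AA m n := by
  unfold st
  exact QuotientGroup.leftRel_apply

/-- a root of one different from one -/
theorem exists_root_ne_one (k : ℤ) (hk : 2 ≤ k.natAbs) : ∃ a : Circle, a ^ k = 1 ∧ a ≠ 1 := by
  have hk0 : k ≠ 0 := by rintro rfl; simp at hk
  have h := circle_roots k hk0 1
  have h1 : 1 < {x : Circle | x ^ k = 1}.ncard := by rw [h.2]; omega
  obtain ⟨a, ha, hne⟩ := Set.exists_ne_of_one_lt_ncard h1 1
  exact ⟨a, ha, hne⟩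

/-- a root of one different from two given elements -/
theorem exists_root_ne_two (k : ℤ) (hk : 3 ≤ k.natAbs) (c : Circle) :
    ∃ b : Circle, b ^ k = 1 ∧ b ≠ 1 ∧ b ≠ c := by
  have hk0 : k ≠ 0 := by rintro rfl; simp at hk
  have h := circle_roots k hk0 1
  have h1 : ({1, c} : Set Circle).ncard < {x : Circle | x ^ k = 1}.ncard := by
    rw [h.2]
    have h2 : ({1, c} : Set Circle).ncard ≤ 2 := by
      refine (Set.ncard_insert_le _ _).trans ?_
      rw [Set.ncard_singleton]
    omega
  obtain ⟨b, hb, hb'⟩ := Set.exists_mem_notMem_of_ncard_lt_ncard h1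
  simp only [Set.mem_insert_iff, Set.mem_singleton_iff, not_or] at hb'
  exact ⟨b, hb, hb'.1, hb'.2⟩

end CircBX

open CircBX

theorem exists_C {m n : ℤ} (hm : 2 < |m|) (hn : |m| < n) (s r : VT m n → BT m n)
    (hs : ∀ x, (s x).1 = x.1 ^ m) (hr : ∀ x, (r x).1 = x.1 ^ n) :
    ∃ C : Set (VT m n), C.Infinite ∧ (⟨1, VSet.one⟩ : VT m n) ∉ C ∧
      ∀ χ, Relation.EqvGen (fun u v => ∃ x, x ∉ C ∧ s x = u ∧ r x = v) χ (s ⟨1, VSet.one⟩) := by
  classical
  have hm0 : m ≠ 0 := by rintro rfl; simp at hm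
  have hn0 : n ≠ 0 := by rintro rfl; have := abs_nonneg m; omega
  have hma : 2 ≤ m.natAbs := by rw [Int.abs_eq_natAbs] at hm; omega
  have hna : 3 ≤ n.natAbs := by rw [Int.abs_eq_natAbs] at hm hn; omega
  have hinf : Infinite (VT m n) := vset_infinite hm hn
  set q : VT m n → Quotient (st m n) := fun x => Quotient.mk (st m n) x with hq
  have hqeq : ∀ x y, q x = q y ↔ x.1⁻¹ * y.1 ∈ AA m n := by
    intro x y
    rw [← st_iff]
    exact ⟨fun h => Quotient.exact h, fun h => Quotient.sound h⟩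
  have hqout : ∀ c, q (Quotient.out c) = c := fun c => Quotient.out_eq c
  -- the quotient is infinite
  have hqinf : Infinite (Quotient (st m n)) := by
    by_contra hfin
    have hfin' : Finite (Quotient (st m n)) := not_infinite_iff_finite.1 hfin
    refine Set.infinite_univ (α := VT m n) ?_
    refine Set.Finite.of_finite_fibers q (Set.toFinite _) ?_
    rintro _ ⟨x, _, rfl⟩
    have h1 : ((fun y : VT m n => x.1⁻¹ * y.1) ⁻¹' (AA m n : Set Circle)).Finite := by
      refine Set.Finite.preimage ?_ (AA_finite hm0 hn0)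
      intro y _ z _ hyz
      exact Subtype.ext (mul_left_cancel hyz)
    refine h1.subset ?_
    rintro y ⟨_, hy⟩
    have hy' : q y = q x := hy
    exact (hqeq x y).1 hy'.symm
  set o : VT m n := ⟨1, VSet.one⟩ with ho
  set C : Set (VT m n) := Quotient.out '' {c : Quotient (st m n) | c ≠ q o} with hC
  have hCinf : C.Infinite := by
    refine Set.Infinite.image (fun a _ b _ hab => ?_) ?_
    · rw [← hqout a, ← hqout b, hab]
    · have h := (Set.finite_singleton (q o)).infinite_compl
      exact h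
  have hCinj : ∀ x ∈ C, ∀ y ∈ C, q x = q y → x = y := by
    rintro _ ⟨c, _, rfl⟩ _ ⟨d, _, rfl⟩ h
    rw [hqout, hqout] at h
    rw [h]
  have hoC : o ∉ C := by
    rintro ⟨c, hc, h⟩
    exact hc (by rw [← hqout c, h])
  refine ⟨C, hCinf, hoC, ?_⟩
  set R : BT m n → BT m n → Prop := fun u v => ∃ x, x ∉ C ∧ s x = u ∧ r x = v with hR
  -- the claim for one edge
  have star : ∀ x, Relation.EqvGen R (s x) (r x) := by
    intro x
    by_cases hx : x ∈ C
    · obtain ⟨a, ha, ha1⟩ := exists_root_ne_one m hma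
      obtain ⟨b, hb, hb1, hba⟩ := exists_root_ne_two n hna a⁻¹
      have hxa : (x.1 * a) ^ m = x.1 ^ m := by rw [mul_zpow, ha, mul_one]
      have hxb : (x.1 * b) ^ n = x.1 ^ n := by rw [mul_zpow, hb, mul_one]
      set xa : VT m n := ⟨x.1 * a, vset_S hn0 x.2 hxa⟩ with hxadef
      set xb : VT m n := ⟨x.1 * b, vset_T hm0 x.2 hxb⟩ with hxbdef
      have hxab : (x.1 * a * b) ^ n = (x.1 * a) ^ n := by rw [mul_zpow, hb, mul_one]
      have hxab' : (x.1 * a * b) ^ m = (x.1 * b) ^ m := by
        rw [mul_right_comm, mul_zpow, ha, mul_one]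
      set xab : VT m n := ⟨x.1 * a * b, vset_T hm0 xa.2 hxab⟩ with hxabdef
      have hnot : ∀ y : VT m n, x.1⁻¹ * y.1 ∈ AA m n → y.1 ≠ x.1 → y ∉ C := by
        intro y hy hne hyC
        exact hne (congrArg Subtype.val (hCinj x hx y hyC ((hqeq x y).2 hy))).symm
      have na : xa ∉ C := by
        refine hnot xa ?_ ?_
        · rw [hxadef]
          show x.1⁻¹ * (x.1 * a) ∈ AA m n
          rw [inv_mul_cancel_left]
          exact mem_AA.2 ⟨a, ha, 1, one_zpow n, mul_one a⟩
        · intro h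
          exact ha1 (mul_eq_left.1 h)
      have nb : xb ∉ C := by
        refine hnot xb ?_ ?_
        · show x.1⁻¹ * (x.1 * b) ∈ AA m n
          rw [inv_mul_cancel_left]
          exact mem_AA.2 ⟨1, one_zpow m, b, hb, one_mul b⟩
        · intro h
          exact hb1 (mul_eq_left.1 h)
      have nab : xab ∉ C := by
        refine hnot xab ?_ ?_
        · show x.1⁻¹ * (x.1 * a * b) ∈ AA m n
          rw [mul_assoc, inv_mul_cancel_left]
          exact mem_AA.2 ⟨a, ha, b, hb, rfl⟩
        · intro h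
          have h' : x.1 * (a * b) = x.1 := by rw [← mul_assoc]; exact h
          exact hba (eq_inv_of_mul_eq_one_right (mul_eq_left.1 h'))
      have e1 : s xa = s x := Subtype.ext (by rw [hs, hs]; exact hxa)
      have e2 : r xab = r xa := Subtype.ext (by rw [hr, hr]; exact hxab)
      have e3 : s xab = s xb := Subtype.ext (by rw [hs, hs]; exact hxab')
      have e4 : r xb = r x := Subtype.ext (by rw [hr, hr]; exact hxb)
      have E1 : Relation.EqvGen R (s x) (r xa) := Relation.EqvGen.rel _ _ ⟨xa, na, e1, rfl⟩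
      have E2 : Relation.EqvGen R (s xb) (r xa) := Relation.EqvGen.rel _ _ ⟨xab, nab, e3, e2⟩
      have E3 : Relation.EqvGen R (s xb) (r x) := Relation.EqvGen.rel _ _ ⟨xb, nb, rfl, e4⟩
      exact (E1.trans _ _ _ (E2.symm _ _)).trans _ _ _ E3
    · exact Relation.EqvGen.rel _ _ ⟨x, hx, rfl, rfl⟩
  -- connectivity
  have conn : ∀ x : Circle, ∀ hx : VSet m n x, Relation.EqvGen R (s ⟨x, hx⟩) (s o) := by
    intro x hx
    induction hx with
    | one => exact Relation.EqvGen.refl _
    | up x y hx h ih =>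
      have e : r ⟨y, VSet.up x y hx h⟩ = s ⟨x, hx⟩ := Subtype.ext (by rw [hr, hs]; exact h)
      have := star ⟨y, VSet.up x y hx h⟩
      rw [e] at this
      exact this.trans _ _ _ ih
    | down x y hx h ih =>
      have e : s ⟨y, VSet.down x y hx h⟩ = r ⟨x, hx⟩ := Subtype.ext (by rw [hr, hs]; exact h)
      rw [e]
      exact ((star ⟨x, hx⟩).symm _ _).trans _ _ _ ih
  intro χ
  obtain ⟨x, hx, hxχ⟩ := χ.2
  have e : χ = s ⟨x, hx⟩ := Subtype.ext (by rw [hs]; exact hxχ.symm)
  rw [e]
  exact conn x hx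

end C

end Pool.Agent.MP9a76ab
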