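import Pool.Agent.Lib.MP_9a76ab_an.Basic

/-! MP_9a76ab_an, module DENS: the von Neumann density theorem on finitely many vectors. -/

set_option autoImplicit false

namespace Pool.Agent.MP9a76ab

open scoped InnerProductSpace

section A
variable {H : Type} [NormedAddCommGroup H] [InnerProductSpace ℂ H] [CompleteSpace H]

namespace DensX

/-- the finite direct sum of copies of `H` -/
abbrev HF (F : Finset H) : Type := PiLp 2 (fun _ : F => H)

/-- the diagonal operator -/
noncomputable def diag {F : Finset H} (Y : Op H) : HF F →L[ℂ] HF F :=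
  (PiLp.continuousLinearEquiv 2 ℂ (fun _ : F => H)).symm.toContinuousLinearMap ∘L
    (ContinuousLinearMap.pi fun i => Y ∘L PiLp.proj 2 (fun _ : F => H) i)

theorem diag_apply {F : Finset H} (Y : Op H) (x : HF F) (i : F) : diag Y x i = Y (x i) := rfl

open Classical in
/-- inclusion of a summand -/
noncomputable def inc {F : Finset H} (j : F) : H →L[ℂ] HF F :=
  (PiLp.continuousLinearEquiv 2 ℂ (fun _ : F => H)).symm.toContinuousLinearMap ∘L
    (ContinuousLinearMap.single ℂ (fun _ : F => H) j)

open Classical in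
theorem inc_apply {F : Finset H} (j : F) (h : H) (i : F) :
    inc j h i = (Pi.single j h : F → H) i := rfl

theorem sum_inc {F : Finset H} (x : HF F) : ∑ j, inc j (x j) = x := by
  classical
  ext i
  rw [WithLp.ofLp_sum, Finset.sum_apply, Finset.sum_eq_single i]
  · rw [inc_apply]; simp
  · intro j _ hj; rw [inc_apply]; simp [hj.symm]
  · intro h; exact absurd (Finset.mem_univ _) h

theorem diag_inc {F : Finset H} (Y : Op H) (j : F) (h : H) : diag Y (inc j h) = inc j (Y h) := by
  classical
  ext i
  rw [diag_apply, inc_apply, inc_apply]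
  by_cases hi : i = j
  · subst hi; simp
  · simp [hi]

/-- the subspace of the vectors whose components are Y v -/
noncomputable def K (A : StarSubalgebra ℂ (Op H)) (F : Finset H) : Submodule ℂ (HF F) where
  carrier := {x | ∃ Y ∈ A, ∀ v : F, x v = Y v}
  add_mem' := by
    rintro x y ⟨Y, hY, hx⟩ ⟨Z, hZ, hy⟩
    exact ⟨Y + Z, add_mem hY hZ, fun v => by simp [hx v, hy v]⟩
  zero_mem' := ⟨0, zero_mem _, fun v => by simp⟩
  smul_mem' := by
    rintro c x ⟨Y, hY, hx⟩
    exact ⟨c • Y, A.smul_mem hY c, fun v => by simp [hx v]⟩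

theorem diag_mem {A : StarSubalgebra ℂ (Op H)} {F : Finset H} {Y : Op H} (hY : Y ∈ A) {x : HF F}
    (hx : x ∈ (K A F).topologicalClosure) : diag Y x ∈ (K A F).topologicalClosure := by
  have h1 : x ∈ closure (K A F : Set (HF F)) := hx
  have h2 : diag Y x ∈ closure (K A F : Set (HF F)) := by
    refine map_mem_closure (diag Y).continuous h1 ?_
    rintro z ⟨Z, hZ, hz⟩
    exact ⟨Y * Z, mul_mem hY hZ, fun v => by rw [diag_apply, hz v]; rfl⟩
  exact h2

theorem inner_diag {F : Finset H} (Y : Op H) (x y : HF F) :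
    ⟪x, diag Y y⟫_ℂ = ⟪diag (star Y) x, y⟫_ℂ := by
  rw [PiLp.inner_apply, PiLp.inner_apply]
  refine Finset.sum_congr rfl fun i _ => ?_
  rw [diag_apply, diag_apply, inner_op_star]

instance (A : StarSubalgebra ℂ (Op H)) (F : Finset H) :
    CompleteSpace (K A F).topologicalClosure :=
  (Submodule.isClosed_topologicalClosure _).completeSpace_coe

theorem comm {A : StarSubalgebra ℂ (Op H)} {F : Finset H} {Y : Op H} (hY : Y ∈ A) (x : HF F) :
    (K A F).topologicalClosure.starProjection (diag Y x) =
      diag Y ((K A F).topologicalClosure.starProjection x) := by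
  refine (Submodule.eq_starProjection_of_mem_orthogonal
    (diag_mem hY (Submodule.starProjection_apply_mem _ _)) ?_)
  rw [← map_sub, Submodule.mem_orthogonal]
  intro u hu
  rw [inner_diag]
  exact (Submodule.mem_orthogonal _ _).1
    (Submodule.sub_starProjection_mem_orthogonal x) _ (diag_mem (star_mem hY) hu)

end DensX

open DensX in
theorem vNa_density (A : StarSubalgebra ℂ (Op H)) {X : Op H} (hX : X ∈ vNa (A : Set (Op H)))
    (F : Finset H) {ε : ℝ} (hε : 0 < ε) : ∃ Y ∈ A, ∀ v ∈ F, ‖(X - Y) v‖ < ε := by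
  set P : HF F →L[ℂ] HF F := (K A F).topologicalClosure.starProjection with hP
  -- the entries of the projection commute with `X`
  have hT : ∀ (i j : F) (h : H), P (inc j (X h)) i = X (P (inc j h) i) := by
    intro i j h
    set T : Op H := PiLp.proj 2 (fun _ : F => H) i ∘L P ∘L inc j with hT
    have h1 : ∀ s ∈ A, s * T = T * s := by
      intro s hs
      ext h
      change s (P (inc j h) i) = P (inc j (s h)) i
      rw [← diag_inc, hP, comm hs, diag_apply]
    have h2 := vNa_commute' hX h1
    have := congrArg (fun Z : Op H => Z h) h2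
    exact this
  have hcomm : ∀ x : HF F, P (diag X x) = diag X (P x) := by
    intro x
    have h1 : diag X x = ∑ j, inc j (X (x j)) := by
      conv_lhs => rw [← sum_inc x, map_sum]
      exact Finset.sum_congr rfl fun j _ => diag_inc X j _
    have h2 : P x = ∑ j, P (inc j (x j)) := by
      conv_lhs => rw [← sum_inc x, map_sum]
    rw [h1, h2, map_sum, map_sum]
    refine Finset.sum_congr rfl fun j _ => ?_
    ext i
    rw [hT, diag_apply]
  set v0 : HF F := WithLp.toLp 2 (fun v : F => (v : H)) with hv0
  have hv0K : v0 ∈ (K A F).topologicalClosure :=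
    Submodule.le_topologicalClosure _ ⟨1, one_mem _, fun v => by simp [hv0]⟩
  have h3 : P v0 = v0 := Submodule.starProjection_eq_self_iff.2 hv0K
  have h4 : diag X v0 ∈ (K A F).topologicalClosure := by
    rw [← h3, ← hcomm]
    exact Submodule.starProjection_apply_mem _ _
  have h5 : diag X v0 ∈ closure (K A F : Set (HF F)) := h4
  obtain ⟨y, ⟨Y, hY, hy⟩, hd⟩ := Metric.mem_closure_iff.1 h5 ε hε
  refine ⟨Y, hY, fun v hv => ?_⟩
  have h6 : (X - Y) v = (diag X v0 - y) ⟨v, hv⟩ := by
    have : y ⟨v, hv⟩ = Y v := hy ⟨v, hv⟩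
    simp [diag_apply, this, hv0]
  rw [h6]
  refine lt_of_le_of_lt (PiLp.norm_apply_le _ _) ?_
  rwa [← dist_eq_norm]

end A

end Pool.Agent.MP9a76ab
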