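import Pool.Agent.Lib.MP_9a76ab_an.Basic
import Pool.Agent.Lib.MP_9a76ab_an.Dens

set_option autoImplicit false

namespace Pool.Agent.MP9a76ab

open scoped InnerProductSpace

namespace ClosureX

section
variable {H : Type} [NormedAddCommGroup H] [InnerProductSpace ℂ H] [CompleteSpace H]

theorem approx_zero {a : H} {w X : Op H} {v : H}
    (h : ∀ ε : ℝ, 0 < ε → ∃ Y : Op H, ⟪a, w (Y v)⟫_ℂ = 0 ∧ ‖(X - Y) v‖ < ε) :
    ⟪a, w (X v)⟫_ℂ = 0 := by
  by_contra hne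
  have hpos : 0 < ‖⟪a, w (X v)⟫_ℂ‖ := norm_pos_iff.2 hne
  have hD : 0 < ‖a‖ * ‖w‖ + 1 := by positivity
  obtain ⟨Y, hY0, hY⟩ := h (‖⟪a, w (X v)⟫_ℂ‖ / (‖a‖ * ‖w‖ + 1)) (by positivity)
  have e : ⟪a, w (X v)⟫_ℂ = ⟪a, w ((X - Y) v)⟫_ℂ := by
    rw [ContinuousLinearMap.sub_apply, map_sub, inner_sub_right, hY0, sub_zero]
  have h1 : ‖⟪a, w (X v)⟫_ℂ‖ ≤ ‖a‖ * (‖w‖ * ‖(X - Y) v‖) := by
    rw [e]
    refine (norm_inner_le_norm _ _).trans ?_
    gcongr
    exact w.le_opNorm _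
  rw [lt_div_iff₀ hD] at hY
  set N := ‖⟪a, w (X v)⟫_ℂ‖
  set δ := ‖(X - Y) v‖
  have hδ : 0 ≤ δ := norm_nonneg _
  nlinarith [norm_nonneg a, norm_nonneg w]

end

section
variable {V J : Type} {H : Type} [NormedAddCommGroup H] [InnerProductSpace ℂ H] [CompleteSpace H]
variable {W : WSys V H} {B : StarSubalgebra ℂ (Op H)}

theorem approx {X : Op H} (hX : X ∈ vNa (B : Set (Op H))) (v : H) {ε : ℝ} (hε : 0 < ε) :
    ∃ Y ∈ B, ‖(X - Y) v‖ < ε := by
  obtain ⟨Y, hY, h⟩ := vNa_density B hX {v} hε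
  exact ⟨Y, hY, h v (Finset.mem_singleton_self v)⟩

theorem φF_sub (F : Finset V) (X Y : Op H) : W.φF F (X - Y) = W.φF F X - W.φF F Y := map_sub _ _ _

theorem approx_cen (he : ∀ x, W.e x ∈ B) {F : Finset V} (hF : F.Nonempty) {X : Op H}
    (hX : X ∈ vNa (B : Set (Op H))) (hX0 : W.φF F X = 0) (v : H) {ε : ℝ} (hε : 0 < ε) :
    ∃ Y ∈ B, W.φF F Y = 0 ∧ ‖(X - Y) v‖ < ε := by
  classical
  have hc : 0 < (F.card : ℝ) := by exact_mod_cast hF.card_pos
  have hcC : (F.card : ℂ) ≠ 0 := by exact_mod_cast hc.ne'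
  have hD : 0 < 1 + ‖v‖ := by positivity
  set δ := ε / (1 + ‖v‖) with hδ
  have hδ0 : 0 < δ := by positivity
  obtain ⟨Y0, hY0, hY⟩ := vNa_density B hX (insert v (F.image W.ξ)) hδ0
  refine ⟨Y0 - (W.φF F Y0 / F.card) • W.eF F, ?_, ?_, ?_⟩
  · exact sub_mem hY0 (SMulMemClass.smul_mem _ (W.eF_mem he F))
  · rw [φF_sub, map_smul, W.φF_eF, smul_eq_mul, div_mul_cancel₀ _ hcC, sub_self]
  · have h1 : ‖W.φF F Y0‖ ≤ F.card * δ := by
      have e1 : W.φF F Y0 = - W.φF F (X - Y0) := by rw [φF_sub, hX0]; ring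
      rw [e1, norm_neg, W.φF_apply]
      refine (norm_sum_le _ _).trans ?_
      rw [← nsmul_eq_mul]
      refine Finset.sum_le_card_nsmul _ _ _ fun x hx => ?_
      refine (norm_inner_le_norm _ _).trans ?_
      rw [W.norm_ξ, one_mul]
      exact (hY _ (Finset.mem_insert_of_mem (Finset.mem_image_of_mem _ hx))).le
    have h2 : ‖W.φF F Y0 / F.card‖ ≤ δ := by
      rw [norm_div, Complex.norm_natCast, div_le_iff₀ hc, mul_comm]
      exact h1
    have e2 : (X - (Y0 - (W.φF F Y0 / F.card) • W.eF F)) v =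
        (X - Y0) v + (W.φF F Y0 / F.card) • (W.eF F v) := by
      simp only [ContinuousLinearMap.sub_apply, ContinuousLinearMap.smul_apply]
      abel
    rw [e2]
    have h3 : ‖(W.φF F Y0 / F.card) • (W.eF F v)‖ ≤ δ * ‖v‖ := by
      rw [norm_smul]
      exact mul_le_mul h2 (W.norm_eF_le F v) (norm_nonneg _) hδ0.le
    have h4 : ‖(X - Y0) v‖ < δ := hY v (Finset.mem_insert_self _ _)
    calc _ ≤ ‖(X - Y0) v‖ + ‖(W.φF F Y0 / F.card) • (W.eF F v)‖ := norm_add_le _ _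
      _ < δ + δ * ‖v‖ := by linarith
      _ = ε := by rw [hδ]; field_simp

/-- Operators which may precede a reduced word. -/
def Good (W : WSys V H) (B : StarSubalgebra ℂ (Op H)) (U : J → Op H) (S T : J → Finset V)
    (l : J × Bool) (w : Op H) : Prop :=
  ∀ c, Con (B : Set (Op H)) (ltr U) bar (fun l => W.φF (rt S T l)) l c →
    ∀ x y, ⟪W.ξ x, w (c (W.ξ y))⟫_ℂ = 0

variable {U : J → Op H} {S T : J → Finset V}

theorem good_first (h : FHS W B U S T) {b : Op H} (hb : b ∈ vNa (B : Set (Op H)))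
    (l : J × Bool) : Good W B U S T l (b * ltr U l) := by
  intro c hc x y
  change ⟪W.ξ x, b (ltr U l (c (W.ξ y)))⟫_ℂ = 0
  have := approx_zero (a := W.ξ x) (w := 1) (X := b) (v := ltr U l (c (W.ξ y))) (fun ε hε => by
    obtain ⟨Y, hY, h1⟩ := approx hb (ltr U l (c (W.ξ y))) hε
    exact ⟨Y, h.van Y hY l c hc x y, h1⟩)
  exact this

theorem good_step (h : FHS W B U S T) {l l' : J × Bool} {w x : Op H} (hw : Good W B U S T l w)
    (hx : x ∈ vNa (B : Set (Op H))) (h0 : l' = bar l → W.φF (rt S T l) x = 0) :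
    Good W B U S T l' (w * x * ltr U l') := by
  intro c hc a b
  change ⟪W.ξ a, w (x (ltr U l' (c (W.ξ b))))⟫_ℂ = 0
  refine approx_zero fun ε hε => ?_
  by_cases hl : l' = bar l
  · obtain ⟨Y, hY, hY0, h1⟩ := approx_cen h.mem_e (h.ne_rt l) hx (h0 hl)
      (ltr U l' (c (W.ξ b))) hε
    exact ⟨Y, hw _ (Con.step l l' Y c hY (fun _ => hY0) hc) a b, h1⟩
  · obtain ⟨Y, hY, h1⟩ := approx hx (ltr U l' (c (W.ξ b))) hε
    exact ⟨Y, hw _ (Con.step l l' Y c hY (fun h => absurd h hl) hc) a b, h1⟩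

theorem good_all (h : FHS W B U S T) {l : J × Bool} {c : Op H}
    (hc : Con (vNa (B : Set (Op H)) : Set (Op H)) (ltr U) bar (fun l => W.φF (rt S T l)) l c) :
    ∀ w, Good W B U S T l w → ∀ x y, ⟪W.ξ x, w (c (W.ξ y))⟫_ℂ = 0 := by
  induction hc with
  | base l b hb =>
    intro w hw x y
    refine approx_zero fun ε hε => ?_
    obtain ⟨Y, hY, h1⟩ := approx hb (W.ξ y) hε
    exact ⟨Y, hw _ (Con.base l Y hY) x y, h1⟩
  | step l l' b c hb h0 hc ih =>
    intro w hw x y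
    exact ih _ (good_step h hw hb h0) x y

end

end ClosureX

section B
variable {V J : Type} {H : Type} [NormedAddCommGroup H] [InnerProductSpace ℂ H] [CompleteSpace H]
variable {W : WSys V H} {B B1 : StarSubalgebra ℂ (Op H)}

theorem FHS.closure {U : J → Op H} {S T : J → Finset V} (h : FHS W B U S T) :
    FHS W (vNa (B : Set (Op H))) U S T where
  mem_e x := le_vNa B (h.mem_e x)
  neS := h.neS
  neT := h.neT
  iS := h.iS
  iT := h.iT
  van b hb l c hc x y := ClosureX.good_all h hc _ (ClosureX.good_first h hb l) x y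

end B

end Pool.Agent.MP9a76ab
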