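import Pool.Agent.Lib.MP_9a76ab_an.Polar

/-! MP_9a76ab_an, module COMP: comparison of projections by Zorn. -/

set_option autoImplicit false

namespace Pool.Agent.MP9a76ab

open scoped InnerProductSpace

namespace CompX

section
variable {H : Type} [NormedAddCommGroup H] [InnerProductSpace ℂ H] [CompleteSpace H]

theorem hsc {ι : Type} {f g : ι → H} {a : H} (h : ∀ i, f i = g i) (hg : HasSum g a) :
    HasSum f a := by
  have : f = g := funext h
  rw [this]; exact hg

theorem sum_sq_le {ι : Type} (u : ι → Op H) (h1 : ∀ i, u i * star (u i) * u i = u i)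
    (h3 : ∀ i j, i ≠ j → u i * star (u j) = 0) (F : Finset ι) (h : H) :
    ∑ i ∈ F, ‖u i h‖ ^ 2 ≤ ‖h‖ ^ 2 := by
  classical
  set E : Op H := ∑ i ∈ F, star (u i) * u i with hE
  have hEs : star E = E := by
    rw [hE, star_sum]
    refine Finset.sum_congr rfl fun i _ => ?_
    simp
  have hEE : E * E = E := by
    conv_lhs => rw [hE, Finset.sum_mul]
    rw [hE]
    refine Finset.sum_congr rfl fun i hi => ?_
    rw [Finset.mul_sum, Finset.sum_eq_single i]
    · rw [mul_assoc, ← mul_assoc (u i), h1]
    · intro j _ hj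
      rw [mul_assoc, ← mul_assoc (u i), h3 i j hj.symm]
      simp
    · intro h; exact absurd hi h
  set s : ℝ := ∑ i ∈ F, ‖u i h‖ ^ 2 with hs
  have hs0 : 0 ≤ s := Finset.sum_nonneg fun i _ => sq_nonneg _
  have e1 : ⟪h, E h⟫_ℂ = (s : ℂ) := by
    have : E h = ∑ i ∈ F, star (u i) (u i h) := by
      rw [hE, sum_apply]
      rfl
    rw [this, inner_sum, hs]
    push_cast
    refine Finset.sum_congr rfl fun i _ => ?_
    rw [inner_star_op, inner_self_C]
  have e2 : ((‖E h‖ : ℝ) : ℂ) ^ 2 = (s : ℂ) := by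
    rw [← inner_self_C, inner_op_star, hEs, ← e1]
    have e3 : E (E h) = E h := congrArg (fun A : Op H => A h) hEE
    have e4 : ⟪E (E h), h⟫_ℂ = ⟪h, E h⟫_ℂ := by
      rw [e3, inner_op_star E h h, hEs]
    exact e4
  have e5 : ‖E h‖ ^ 2 = s := by exact_mod_cast e2
  have e6 : s ≤ ‖h‖ * ‖E h‖ := by
    have h7 : ‖⟪h, E h⟫_ℂ‖ ≤ ‖h‖ * ‖E h‖ := norm_inner_le_norm _ _
    rw [e1, Complex.norm_real, Real.norm_of_nonneg hs0] at h7
    exact h7
  have e8 : ‖E h‖ ≤ ‖h‖ := by
    by_contra hc
    push Not at hc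
    have : ‖h‖ * ‖E h‖ < ‖E h‖ * ‖E h‖ :=
      mul_lt_mul_of_pos_right hc (lt_of_le_of_lt (norm_nonneg _) hc)
    nlinarith
  rw [← e5]
  exact pow_le_pow_left₀ (norm_nonneg _) e8 2

theorem norm_sum_sq {ι : Type} (u : ι → Op H)
    (h2 : ∀ i j, i ≠ j → star (u i) * u j = 0) (F : Finset ι) (h : H) :
    ‖∑ i ∈ F, u i h‖ ^ 2 = ∑ i ∈ F, ‖u i h‖ ^ 2 := by
  classical
  have horth : ∀ i j, i ≠ j → ⟪u i h, u j h⟫_ℂ = 0 := by
    intro i j hij
    rw [← inner_star_op]
    have := congrArg (fun A : Op H => A h) (h2 i j hij)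
    change star (u i) (u j h) = 0 at this
    rw [this, inner_zero_right]
  have e : ((‖∑ i ∈ F, u i h‖ : ℝ) : ℂ) ^ 2 = ((∑ i ∈ F, ‖u i h‖ ^ 2 : ℝ) : ℂ) := by
    rw [← inner_self_C, sum_inner]
    push_cast
    refine Finset.sum_congr rfl fun i hi => ?_
    rw [inner_sum, Finset.sum_eq_single i]
    · rw [inner_self_C]
    · intro j _ hj; exact horth i j hj.symm
    · intro h; exact absurd hi h
  exact_mod_cast e

theorem strong_sum {ι : Type} (u : ι → Op H) (h1 : ∀ i, u i * star (u i) * u i = u i)
    (h2 : ∀ i j, i ≠ j → star (u i) * u j = 0) (h3 : ∀ i j, i ≠ j → u i * star (u j) = 0) :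
    ∃ v : Op H, ∀ h, HasSum (fun i => u i h) (v h) := by
  classical
  have hsum : ∀ h, Summable (fun i => u i h) := by
    intro h
    have hs2 : Summable (fun i => ‖u i h‖ ^ 2) :=
      summable_of_sum_le (c := ‖h‖ ^ 2) (fun x => sq_nonneg _) (fun F => sum_sq_le u h1 h3 F h)
    let G : ι → Submodule ℂ H := fun i => LinearMap.range (u i).toLinearMap
    have hG : OrthogonalFamily ℂ (fun i => G i) (fun i => (G i).subtypeₗᵢ) := by
      intro i j hij a b
      obtain ⟨a, ⟨a', rfl⟩⟩ := a
      obtain ⟨b, ⟨b', rfl⟩⟩ := b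
      change ⟪u i a', u j b'⟫_ℂ = 0
      rw [← inner_star_op]
      have := congrArg (fun A : Op H => A b') (h2 i j hij)
      change star (u i) (u j b') = 0 at this
      rw [this, inner_zero_right]
    exact (hG.summable_iff_norm_sq_summable (fun i => ⟨u i h, ⟨h, rfl⟩⟩)).2 hs2
  let f : H →ₗ[ℂ] H :=
    { toFun := fun h => ∑' i, u i h
      map_add' := fun x y => by
        have := (hsum x).tsum_add (hsum y)
        rw [← this]
        simp
      map_smul' := fun c x => by
        have := (hsum x).tsum_const_smul c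
        rw [RingHom.id_apply, ← this]
        simp }
  have hf : ∀ h, HasSum (fun i => u i h) (f h) := fun h => (hsum h).hasSum
  refine ⟨f.mkContinuous 1 fun h => ?_, hf⟩
  rw [one_mul]
  have h4 : Filter.Tendsto (fun F : Finset ι => ‖∑ i ∈ F, u i h‖) Filter.atTop (nhds ‖f h‖) :=
    (hf h).norm
  refine le_of_tendsto' h4 fun F => ?_
  have h5 := norm_sum_sq u h2 F h
  have h6 := sum_sq_le u h1 h3 F h
  rw [← h5] at h6
  exact (pow_le_pow_iff_left₀ (norm_nonneg _) (norm_nonneg _) two_ne_zero).1 h6

end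

end CompX

section A
variable {H : Type} [NormedAddCommGroup H] [InnerProductSpace ℂ H] [CompleteSpace H]

theorem comparison (S : Set (Op H × Op H)) (p q : Op H) (hp : p * p = p) (hp' : star p = p)
    (hq : q * q = q) (hq' : star q = q)
    (irr : ∀ v, Itw S v → v * star v * v = v → v * p = v → q * v = v → star v * v ≠ p →
      ∃ X, Itw S X ∧ X ≠ 0 ∧ X = (q - v * star v) * X * (p - star v * v))
    (tr : ∀ v, Itw S v → v * star v * v = v → v * p = v → q * v = v → star v * v = p →
      v * star v = q) :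
    ∃ v, Itw S v ∧ star v * v = p ∧ v * star v = q := by
  classical
  let Good : Set (Op H) → Prop := fun 𝓕 =>
    (∀ w ∈ 𝓕, Itw S w ∧ w * star w * w = w ∧ w * p = w ∧ q * w = w ∧ w ≠ 0) ∧
    (∀ w ∈ 𝓕, ∀ w' ∈ 𝓕, w ≠ w' → star w * w' = 0 ∧ w * star w' = 0)
  obtain ⟨𝓕, hmax⟩ := zorn_subset {𝓕 : Set (Op H) | Good 𝓕} (by
    intro c hc hchain
    refine ⟨⋃₀ c, ⟨?_, ?_⟩, fun s hs => Set.subset_sUnion_of_mem hs⟩
    · rintro w ⟨s, hs, hw⟩
      exact (hc hs).1 w hw
    · rintro w ⟨s, hs, hw⟩ w' ⟨s', hs', hw'⟩ hne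
      rcases hchain.total hs hs' with h | h
      · exact (hc hs').2 w (h hw) w' hw' hne
      · exact (hc hs).2 w hw w' (h hw') hne)
  have hgood : Good 𝓕 := hmax.prop
  obtain ⟨v, hv⟩ := CompX.strong_sum (fun w : 𝓕 => (w : Op H))
    (fun w => (hgood.1 w w.2).2.1)
    (fun w w' hne => (hgood.2 w w.2 w' w'.2 (fun h => hne (Subtype.ext h))).1)
    (fun w w' hne => (hgood.2 w w.2 w' w'.2 (fun h => hne (Subtype.ext h))).2)
  have hvx : ∀ {A B : Op H}, (∀ w ∈ 𝓕, w * A = w * B) → v * A = v * B := by
    intro A B hAB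
    refine ContinuousLinearMap.ext fun h => ?_
    have s1 := hv (A h)
    have s2 := hv (B h)
    exact s1.unique (CompX.hsc (fun w : 𝓕 =>
      congrArg (fun C : Op H => C h) (hAB w w.2)) s2)
  have hva : ∀ w ∈ 𝓕, star w * v = star w * w := by
    intro w hw
    refine ContinuousLinearMap.ext fun h => ?_
    have s1 := (hv h).mapL (star w)
    have s2 := hasSum_single (f := fun w' : 𝓕 => star w ((w' : Op H) h)) ⟨w, hw⟩ (fun w' hne => by
      have h2 := (hgood.2 w hw w' w'.2 (fun h => hne (Subtype.ext h.symm))).1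
      exact congrArg (fun C : Op H => C h) h2)
    exact s1.unique s2
  have hvb : ∀ w ∈ 𝓕, v * star w = w * star w := by
    intro w hw
    refine ContinuousLinearMap.ext fun h => ?_
    have s1 := hv (star w h)
    have s2 := hasSum_single (f := fun w' : 𝓕 => ((w' : Op H) (star w h))) ⟨w, hw⟩
      (fun w' hne => by
      have h2 := (hgood.2 w' w'.2 w hw (fun h => hne (Subtype.ext h))).2
      exact congrArg (fun C : Op H => C h) h2)
    exact s1.unique s2
  have hva' : ∀ w ∈ 𝓕, star v * w = star w * w := by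
    intro w hw
    have := congrArg star (hva w hw)
    simpa using this
  have hvb' : ∀ w ∈ 𝓕, w * star v = w * star w := by
    intro w hw
    have := congrArg star (hvb w hw)
    simpa using this
  have hvv : v * star v * v = v := by
    rw [mul_assoc]
    have := hvx (A := star v * v) (B := 1) (fun w hw => by
      rw [← mul_assoc, hvb' w hw, mul_assoc, hva w hw, ← mul_assoc, (hgood.1 w hw).2.1, mul_one])
    rwa [mul_one] at this
  have hvp : v * p = v := by
    have := hvx (A := p) (B := 1) (fun w hw => by rw [(hgood.1 w hw).2.2.1, mul_one])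
    rwa [mul_one] at this
  have hqv : q * v = v := by
    refine ContinuousLinearMap.ext fun h => ?_
    have s1 := (hv h).mapL q
    exact s1.unique (CompX.hsc (fun w : 𝓕 =>
      congrArg (fun C : Op H => C h) (hgood.1 w w.2).2.2.2.1) (hv h))
  have hItw : ∀ T T' : Op H, (∀ w ∈ 𝓕, T * w = w * T') → T * v = v * T' := by
    intro T T' hT
    refine ContinuousLinearMap.ext fun h => ?_
    have s1 := (hv h).mapL T
    have s2 := hv (T' h)
    exact s1.unique (CompX.hsc (fun w : 𝓕 =>
      congrArg (fun C : Op H => C h) (hT w w.2)) s2)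
  have hvI : Itw S v := fun r hr =>
    ⟨hItw _ _ fun w hw => ((hgood.1 w hw).1 r hr).1, hItw _ _ fun w hw => ((hgood.1 w hw).1 r hr).2⟩
  by_cases hfin : star v * v = p
  · exact ⟨v, hvI, hfin, tr v hvI hvv hvp hqv hfin⟩
  exfalso
  obtain ⟨X, hXI, hX0, hX⟩ := irr v hvI hvv hvp hqv hfin
  obtain ⟨w0, hw1, hw2, -, hw3, hw4⟩ := exists_polar X
  have hright : ∀ Z : Op H, X * Z = 0 → w0 * Z = 0 := by
    intro Z hZ
    refine ContinuousLinearMap.ext fun h => ?_
    change w0 (Z h) = 0
    rw [hw2]
    exact congrArg (fun C : Op H => C h) hZ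
  have hI0 : Itw S w0 := by
    intro r hr
    obtain ⟨r1, r2⟩ := hXI r hr
    constructor
    · refine hw4 _ _ r1 ?_
      have := congrArg star r2
      simpa using this.symm
    · refine hw4 _ _ r2 ?_
      have := congrArg star r1
      simpa using this.symm
  have hw00 : w0 ≠ 0 := by
    intro h0
    apply hX0
    refine ContinuousLinearMap.ext fun h => ?_
    have := (hw2 h).1 (by rw [h0]; rfl)
    exact this
  have hqX : (1 - q) * X = 0 := by
    have e1 : (1 - q) * (q - v * star v) = 0 := by
      have : (1 - q) * (q - v * star v) = q - q * q - v * star v + q * v * star v := by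
        noncomm_ring
      rw [this, hq, hqv]; abel
    rw [hX, ← mul_assoc, ← mul_assoc, e1, zero_mul, zero_mul]
  have hXp : X * (1 - p) = 0 := by
    have e1 : (p - star v * v) * (1 - p) = 0 := by
      have : (p - star v * v) * (1 - p) = p - p * p - star v * v + star v * (v * p) := by
        noncomm_ring
      rw [this, hp, hvp]; abel
    rw [hX, mul_assoc, e1, mul_zero]
  have hqw : q * w0 = w0 := by
    have := hw3 _ hqX
    rw [sub_mul, one_mul, sub_eq_zero] at this
    exact this.symm
  have hwp : w0 * p = w0 := by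
    have := hright _ hXp
    rw [mul_sub, mul_one, sub_eq_zero] at this
    exact this.symm
  have hleft : ∀ w ∈ 𝓕, star w * w0 = 0 := by
    intro w hw
    apply hw3
    have e1 : star w * (q - v * star v) = 0 := by
      have e2 : star w * q = star w := by
        have := congrArg star (hgood.1 w hw).2.2.2.1
        simpa [hq'] using this
      have e3 : star w * w * star w = star w := by
        have := congrArg star (hgood.1 w hw).2.1
        simpa [mul_assoc] using this
      rw [mul_sub, e2, ← mul_assoc, hva w hw, mul_assoc, hvb' w hw, ← mul_assoc, e3, sub_self]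
    rw [hX, ← mul_assoc, ← mul_assoc, e1, zero_mul, zero_mul]
  have hright2 : ∀ w ∈ 𝓕, w0 * star w = 0 := by
    intro w hw
    apply hright
    have e1 : (p - star v * v) * star w = 0 := by
      have e2 : p * star w = star w := by
        have := congrArg star (hgood.1 w hw).2.2.1
        simpa [hp'] using this
      have e3 : star w * w * star w = star w := by
        have := congrArg star (hgood.1 w hw).2.1
        simpa [mul_assoc] using this
      rw [sub_mul, e2, mul_assoc, hvb w hw, ← mul_assoc, hva' w hw, e3, sub_self]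
    rw [hX, mul_assoc, e1, mul_zero]
  have hnot : w0 ∉ 𝓕 := by
    intro h0
    apply hw00
    have := hleft w0 h0
    have h5 : w0 * (star w0 * w0) = 0 := by rw [this, mul_zero]
    rw [← mul_assoc, hw1] at h5
    exact h5
  have hins : Good (insert w0 𝓕) := by
    constructor
    · rintro w (rfl | hw)
      · exact ⟨hI0, hw1, hwp, hqw, hw00⟩
      · exact hgood.1 w hw
    · rintro w (rfl | hw) w' (rfl | hw') hne
      · exact absurd rfl hne
      · refine ⟨?_, hright2 w' hw'⟩
        have := congrArg star (hleft w' hw')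
        simpa using this
      · refine ⟨hleft w hw, ?_⟩
        have := congrArg star (hright2 w hw)
        simpa using this
      · exact hgood.2 w hw w' hw' hne
  have hsub := hmax.le_of_ge hins (Set.subset_insert _ _)
  exact hnot (hsub (Set.mem_insert _ _))

end A

end Pool.Agent.MP9a76ab
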