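import Mathlib

/-! Definitions for MP_9a76ab_an (Hecke von Neumann algebras of Baumslag-Solitar pairs). -/

set_option autoImplicit false

namespace Pool.Agent.MP9a76ab

open scoped InnerProductSpace

noncomputable section

/-- Bounded operators on a complex inner product space. -/
abbrev Op (H : Type) [NormedAddCommGroup H] [InnerProductSpace ℂ H] : Type := H →L[ℂ] H

/-! ### Reduced words in an algebra -/

/-- `Con B u bar cen l c`: the element `c` is (the value of) a reduced word which may follow the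
letter `l`.  Coefficients are in `B`, the letters are `u l`, and a coefficient between `l` and
`bar l` must be killed by `cen l`. -/
inductive Con {A L : Type} [Ring A] [Algebra ℂ A] (B : Set A) (u : L → A) (bar : L → L)
    (cen : L → A →ₗ[ℂ] ℂ) : L → A → Prop
  | base (l : L) (b : A) (hb : b ∈ B) : Con B u bar cen l b
  | step (l l' : L) (b c : A) (hb : b ∈ B) (h : l' = bar l → cen l b = 0)
      (hc : Con B u bar cen l' c) : Con B u bar cen l (b * u l' * c)

/-! ### von Neumann algebras -/

section vn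
variable {H : Type} [NormedAddCommGroup H] [InnerProductSpace ℂ H] [CompleteSpace H]

/-- The von Neumann algebra generated by a set of operators (double commutant of the star-closure). -/
def vNa (S : Set (Op H)) : StarSubalgebra ℂ (Op H) :=
  StarSubalgebra.centralizer ℂ
    ((StarSubalgebra.centralizer ℂ S : StarSubalgebra ℂ (Op H)) : Set (Op H))

/-- The cyclic subspace generated by a vector. -/
def cyc (M : StarSubalgebra ℂ (Op H)) (ξ : H) : Submodule ℂ H :=
  (Submodule.span ℂ {v | ∃ X ∈ M, v = X ξ}).topologicalClosure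

instance (M : StarSubalgebra ℂ (Op H)) (ξ : H) : CompleteSpace (cyc M ξ) :=
  (Submodule.isClosed_topologicalClosure _).completeSpace_coe

end vn

section speq
variable {H H' : Type} [NormedAddCommGroup H] [InnerProductSpace ℂ H] [CompleteSpace H]
  [NormedAddCommGroup H'] [InnerProductSpace ℂ H'] [CompleteSpace H']

/-- The restrictions of `M` and `M'` to the cyclic subspaces of `ξ` and `ξ'` are spatially
isomorphic (formulated through commutants). -/
def SpEq (M : StarSubalgebra ℂ (Op H)) (ξ : H) (M' : StarSubalgebra ℂ (Op H')) (ξ' : H') : Prop :=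
  ∃ U : H →L[ℂ] H',
    (ContinuousLinearMap.adjoint U) ∘L U = (cyc M ξ).starProjection ∧
    U ∘L (ContinuousLinearMap.adjoint U) = (cyc M' ξ').starProjection ∧
    U ξ = ξ' ∧
    (∀ T : Op H, (∀ X ∈ M, T * X = X * T) →
      ∀ X' ∈ M', (U ∘L T ∘L ContinuousLinearMap.adjoint U) * X' =
        X' * (U ∘L T ∘L ContinuousLinearMap.adjoint U)) ∧
    (∀ T' : Op H', (∀ X' ∈ M', T' * X' = X' * T') →
      ∀ X ∈ M, (ContinuousLinearMap.adjoint U ∘L T' ∘L U) * X =
        X * (ContinuousLinearMap.adjoint U ∘L T' ∘L U))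

end speq

/-! ### Weighted systems and free Haar letters -/

/-- A Hilbert space with an orthogonal partition of unity `e x` and unit vectors `ξ x` in the
corners. -/
structure WSys (V H : Type) [NormedAddCommGroup H] [InnerProductSpace ℂ H] [CompleteSpace H] where
  e : V → Op H
  ξ : V → H
  idem : ∀ x, e x * e x = e x
  sa : ∀ x, star (e x) = e x
  orth : ∀ x y, x ≠ y → e x * e y = 0
  total : ∀ v : H, (∀ x, e x v = 0) → v = 0
  eξ : ∀ x, e x (ξ x) = ξ x
  norm_ξ : ∀ x, ‖ξ x‖ = 1

section wsys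
variable {V J H : Type} [NormedAddCommGroup H] [InnerProductSpace ℂ H] [CompleteSpace H]

/-- The vector state of `ξ x`. -/
def WSys.φ (W : WSys V H) (x : V) : Op H →ₗ[ℂ] ℂ where
  toFun X := ⟪W.ξ x, X (W.ξ x)⟫_ℂ
  map_add' X Y := by simp
  map_smul' c X := by simp

/-- Sum of the vector states over a finite set. -/
def WSys.φF (W : WSys V H) (F : Finset V) : Op H →ₗ[ℂ] ℂ := ∑ x ∈ F, W.φ x

/-- The projection belonging to a finite set. -/
def WSys.eF (W : WSys V H) (F : Finset V) : Op H := ∑ x ∈ F, W.e x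

/-- The letter `(j, true)` is `U j`, the letter `(j, false)` is its adjoint. -/
def ltr (U : J → Op H) (l : J × Bool) : Op H := if l.2 then U l.1 else star (U l.1)

/-- The inverse letter. -/
def bar (l : J × Bool) : J × Bool := (l.1, !l.2)

/-- The corner on the right of a letter. -/
def rt (S T : J → Finset V) (l : J × Bool) : Finset V := if l.2 then S l.1 else T l.1

/-- `U j` are partial isometries from the corner `S j` onto the corner `T j`, which are free with
amalgamation and of Haar type over `B`: reduced words vanish. -/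
structure FHS (W : WSys V H) (B : StarSubalgebra ℂ (Op H)) (U : J → Op H) (S T : J → Finset V) :
    Prop where
  mem_e : ∀ x, W.e x ∈ B
  neS : ∀ j, (S j).Nonempty
  neT : ∀ j, (T j).Nonempty
  iS : ∀ j, star (U j) * U j = W.eF (S j)
  iT : ∀ j, U j * star (U j) = W.eF (T j)
  van : ∀ b ∈ B, ∀ (l : J × Bool) (c : Op H),
    Con (B : Set (Op H)) (ltr U) bar (fun l => W.φF (rt S T l)) l c →
    ∀ x y, ⟪W.ξ x, b (ltr U l (c (W.ξ y)))⟫_ℂ = 0

/-- `X` is an analytic element of modular weight `c` (KMS relation for the weight `∑ φ x`). -/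
def KMS (W : WSys V H) (M : StarSubalgebra ℂ (Op H)) (c : ℝ) (X : Op H) : Prop :=
  ∀ Y ∈ M, ∀ x y, ⟪W.ξ y, X (W.e x (Y (W.ξ y)))⟫_ℂ = (c : ℂ) * ⟪W.ξ x, Y (W.e y (X (W.ξ x)))⟫_ℂ

end wsys

/-! ### Fock extensions -/

/-- Creation words applied to the vacuum space. -/
inductive Crea {H F K : Type} [NormedAddCommGroup H] [InnerProductSpace ℂ H] [CompleteSpace H]
    [NormedAddCommGroup F] [InnerProductSpace ℂ F] [CompleteSpace F]
    (π : Op H →⋆ₐ[ℂ] Op F) (ι : H →ₗᵢ[ℂ] F) (ℓ : K → Op F) : ℕ → F → Prop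
  | base (h : H) : Crea π ι ℓ 0 (ι h)
  | step (n : ℕ) (k : K) (b : Op H) (v : F) (hv : Crea π ι ℓ n v) :
      Crea π ι ℓ (n + 1) (π b (ℓ k v))

/-- The full Fock extension of `(Op H, ξ k)`: creation operators `ℓ k` with
`ℓ k* π(b) ℓ k' = δ ⟨ξ k, b ξ k⟩`. -/
structure FockExt (H K : Type) [NormedAddCommGroup H] [InnerProductSpace ℂ H] [CompleteSpace H]
    (ξ : K → H) (F : Type) [NormedAddCommGroup F] [InnerProductSpace ℂ F] [CompleteSpace F] where
  π : Op H →⋆ₐ[ℂ] Op F
  ι : H →ₗᵢ[ℂ] F
  ℓ : K → Op F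
  π_ι : ∀ (b : Op H) (h : H), π b (ι h) = ι (b h)
  rel : ∀ (k : K) (b : Op H), star (ℓ k) * π b * ℓ k = (⟪ξ k, b (ξ k)⟫_ℂ) • (1 : Op F)
  rel0 : ∀ (k k' : K) (b : Op H), k ≠ k' → star (ℓ k) * π b * ℓ k' = 0
  vac : ∀ (k : K) (b : Op H) (h : H), star (ℓ k) (π b (ι h)) = 0
  Y : Type
  j : Y → (H →ₗᵢ[ℂ] F)
  j_π : ∀ (y : Y) (b : Op H) (h : H), π b (j y h) = j y (b h)
  j_dense : (Submodule.span ℂ (⋃ y, Set.range (j y))).topologicalClosure = ⊤
  gen : (Submodule.span ℂ {v : F | ∃ n, Crea π ι ℓ n v}).topologicalClosure = ⊤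

/-- Push a weighted system forward to a Fock extension. -/
def WSys.push {V H K F : Type} [NormedAddCommGroup H] [InnerProductSpace ℂ H] [CompleteSpace H]
    [NormedAddCommGroup F] [InnerProductSpace ℂ F] [CompleteSpace F] {ξ : K → H}
    (W : WSys V H) (E : FockExt H K ξ F) : WSys V F where
  e x := E.π (W.e x)
  ξ x := E.ι (W.ξ x)
  idem x := by rw [← map_mul, W.idem]
  sa x := by rw [← map_star, W.sa]
  orth x y h := by rw [← map_mul, W.orth x y h, map_zero]
  total v hv := by
    have key : ∀ (y : E.Y) (h : H), ⟪E.j y h, v⟫_ℂ = 0 := by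
      intro y h
      set g : H := ContinuousLinearMap.adjoint (E.j y).toContinuousLinearMap v with hg
      have hz : g = 0 := by
        apply W.total
        intro x
        refine ext_inner_left ℂ fun u => ?_
        have h1 : ⟪u, W.e x g⟫_ℂ = ⟪W.e x u, g⟫_ℂ := by
          have := W.sa x
          rw [ContinuousLinearMap.star_eq_adjoint] at this
          rw [← ContinuousLinearMap.adjoint_inner_left, this]
        rw [h1, hg, ContinuousLinearMap.adjoint_inner_right]
        have h2 : (E.j y).toContinuousLinearMap (W.e x u) = E.π (W.e x) (E.j y u) := by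
          simp [E.j_π]
        rw [h2]
        have h3 : star (E.π (W.e x)) = E.π (W.e x) := by rw [← map_star, W.sa]
        rw [ContinuousLinearMap.star_eq_adjoint] at h3
        rw [← h3, ContinuousLinearMap.adjoint_inner_left, hv x]
        simp
      have h4 : ⟪h, g⟫_ℂ = ⟪E.j y h, v⟫_ℂ := by
        rw [hg, ContinuousLinearMap.adjoint_inner_right]; rfl
      rw [← h4, hz, inner_zero_right]
    have h5 : v ∈ (Submodule.span ℂ (⋃ y, Set.range (E.j y)))ᗮ := by
      rw [Submodule.mem_orthogonal]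
      intro u hu
      induction hu using Submodule.span_induction with
      | mem u hu =>
        obtain ⟨y, h, rfl⟩ := Set.mem_iUnion.1 hu
        exact key y h
      | zero => simp
      | add a b _ _ ha hb => rw [inner_add_left, ha, hb, add_zero]
      | smul c a _ ha => rw [inner_smul_left, ha, mul_zero]
    rw [← Submodule.orthogonal_closure, E.j_dense] at h5
    simpa using h5
  eξ x := by rw [E.π_ι, W.eξ]
  norm_ξ x := by rw [E.ι.norm_map, W.norm_ξ]

/-! ### Haar unitaries from semicircular elements -/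

/-- `2 θ - sin 2 θ` for `x = 2 cos θ`. -/
def psi (x : ℝ) : ℝ := 2 * Real.arccos (x / 2) - Real.sin (2 * Real.arccos (x / 2))

/-- `exp (i psi)`: maps the semicircle law to the Haar measure of the circle. -/
def gfun (z : ℂ) : ℂ := Complex.exp (Complex.I * (psi z.re : ℂ))

section fsys
variable {V J F : Type} [NormedAddCommGroup F] [InnerProductSpace ℂ F] [CompleteSpace F]

/-- A family of creation operators in corners which is Fock over `B`. -/
structure FSys (W : WSys V F) (B : StarSubalgebra ℂ (Op F)) (L : J → Op F) (P : J → Finset V) :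
    Prop where
  mem_e : ∀ x, W.e x ∈ B
  ne : ∀ j, (P j).Nonempty
  le_l : ∀ j, W.eF (P j) * L j = L j
  le_r : ∀ j, L j * W.eF (P j) = L j
  rel : ∀ j, ∀ b ∈ B, star (L j) * b * L j = (((P j).card : ℂ)⁻¹ * W.φF (P j) b) • W.eF (P j)
  rel0 : ∀ j j', j ≠ j' → ∀ b ∈ B, star (L j) * b * L j' = 0
  vac : ∀ j, ∀ b ∈ B, ∀ x, star (L j) (b (W.ξ x)) = 0

/-- The Haar unitary of the corner `P j` built from the semicircular element `L j + L j*`. -/
def HH (W : WSys V F) (L : J → Op F) (P : J → Finset V) (j : J) : Op F :=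
  cfc gfun (L j + star (L j)) * W.eF (P j)

end fsys

section blocks
variable {V F F2 K2 : Type} [NormedAddCommGroup F] [InnerProductSpace ℂ F] [CompleteSpace F]
  [NormedAddCommGroup F2] [InnerProductSpace ℂ F2] [CompleteSpace F2]

/-- The modified creation operators of a block: a unitary change of basis such that
`lhat i j + (lhat j i)*` becomes `(s (i,j) + i s (j,i)) / √2` for `i < j`. -/
def lhat {ξ : K2 → F} (E : FockExt F K2 ξ F2) {r : ℕ} (κ : Fin r × Fin r → K2)
    (i j : Fin r) : Op F2 :=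
  if i = j then E.ℓ (κ (i, i))
  else if i < j then ((Real.sqrt 2 : ℝ) : ℂ)⁻¹ • (E.ℓ (κ (i, j)) + Complex.I • E.ℓ (κ (j, i)))
  else ((Real.sqrt 2 : ℝ) : ℂ)⁻¹ • (E.ℓ (κ (j, i)) - Complex.I • E.ℓ (κ (i, j)))

/-- The creation operator of a block of size `r` with vertices `z` and creation operators `κ`. -/
def LB {ξ : K2 → F} (E : FockExt F K2 ξ F2) (v : V → Op F) {r : ℕ} (z : Fin r → V)
    (κ : Fin r × Fin r → K2) : Op F2 :=
  ((Real.sqrt r : ℝ) : ℂ)⁻¹ • ∑ i, ∑ j, E.π (v (z i)) * lhat E κ i j * E.π (star (v (z j)))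

end blocks

/-- The space of intertwiners of a set of pairs of operators. -/
def Itw {H : Type} [NormedAddCommGroup H] [InnerProductSpace ℂ H] [CompleteSpace H]
    (S : Set (Op H × Op H)) (X : Op H) : Prop :=
  ∀ p ∈ S, p.1 * X = X * p.2 ∧ star p.1 * X = X * star p.2

end

end Pool.Agent.MP9a76ab
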