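import Pool.Agent.Lib.MP_9a76ab_an.Basic

/-! Definitions for MP_9a76ab_an, part II: the group, its representation, the model. -/

set_option autoImplicit false

namespace Pool.Agent.MP9a76ab

open scoped InnerProductSpace

noncomputable section

/-! ### The problem -/

/-- The relator of the Baumslag-Solitar group: `t a^m t⁻¹ = a^n` (`false` is `a`, `true` is `t`). -/
def bsRel (m n : ℤ) : Set (FreeGroup Bool) :=
  {FreeGroup.of true * FreeGroup.of false ^ m * (FreeGroup.of true)⁻¹ *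
    (FreeGroup.of false ^ n)⁻¹}

/-- `BS(m,n) = ⟨a, t | t a^m t⁻¹ = a^n⟩`. -/
abbrev BS (m n : ℤ) : Type := PresentedGroup (bsRel m n)

/-- the generator `a` -/
def bsA (m n : ℤ) : BS m n := PresentedGroup.of false

/-- the generator `t` -/
def bsT (m n : ℤ) : BS m n := PresentedGroup.of true

/-- `ℓ²(X)` -/
abbrev l2 (X : Type) : Type := lp (fun _ : X => ℂ) 2

theorem memlp_perm {X : Type} (σ : Equiv.Perm X) (f : l2 X) :
    Memℓp (fun x => (f (σ.symm x) : ℂ)) 2 := by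
  have h := lp.memℓp f
  rw [memℓp_gen_iff (by norm_num)] at h ⊢
  exact (Equiv.summable_iff σ.symm).2 h

/-- The unitary of `ℓ²(X)` induced by a permutation: `(U f)(x) = f (σ⁻¹ x)`. -/
def permOp {X : Type} (σ : Equiv.Perm X) : l2 X →ₗᵢ[ℂ] l2 X where
  toFun f := ⟨fun x => f (σ.symm x), memlp_perm σ f⟩
  map_add' f g := by ext x; rfl
  map_smul' c f := by ext x; rfl
  norm_map' f := by
    rw [lp.norm_eq_tsum_rpow (by norm_num), lp.norm_eq_tsum_rpow (by norm_num)]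
    congr 1
    exact Equiv.tsum_eq σ.symm (fun x => ‖f x‖ ^ (ENNReal.toReal 2))

/-- The quasi-regular representation of `G` on `ℓ²(G/Λ)`: `(λ(g) f)(x) = f(g⁻¹ x)`. -/
def quasiReg {G : Type} [Group G] (Λ : Subgroup G) (g : G) : Op (l2 (G ⧸ Λ)) :=
  (permOp (MulAction.toPerm g)).toContinuousLinearMap

/-- The Hecke von Neumann algebra `L(G//Λ)`: the commutant of the quasi-regular representation. -/
def HeckeVN {G : Type} [Group G] (Λ : Subgroup G) : StarSubalgebra ℂ (Op (l2 (G ⧸ Λ))) :=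
  StarSubalgebra.centralizer ℂ (Set.range (quasiReg Λ))

/-! ### Group theory of `BS(m,n)` -/

/-- `t` or `t⁻¹` -/
def tp {Γ : Type} [Group Γ] (t : Γ) (s : Bool) : Γ := bif s then t else t⁻¹

/-- `GRed a t m n s g`: the group element `g` is a reduced word which may follow the letter
`tp t s`. -/
inductive GRed {Γ : Type} [Group Γ] (a t : Γ) (m n : ℤ) : Bool → Γ → Prop
  | base (s : Bool) (k : ℤ) : GRed a t m n s (a ^ k)
  | step (s s' : Bool) (k : ℤ) (g : Γ) (h : s' ≠ s → ¬ (bif s then m else n) ∣ k)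
      (hg : GRed a t m n s' g) : GRed a t m n s (a ^ k * tp t s' * g)

/-- The facts about `BS(m,n)` which are used. -/
structure IsBS {Γ : Type} [Group Γ] (a t : Γ) (m n : ℤ) : Prop where
  rel : t * a ^ m * t⁻¹ = a ^ n
  gen : Subgroup.closure {a, t} = ⊤
  inf : ∀ k : ℤ, a ^ k = 1 → k = 0
  deg : ∃ d : Γ →* Multiplicative ℤ, d a = 1 ∧ d t = Multiplicative.ofAdd 1
  /-- Britton's lemma -/
  brit : ∀ s g, GRed a t m n s g → tp t s * g ∉ Subgroup.zpowers a
  /-- ping-pong: `Z` is the set of elements whose reduced form begins with `⟨a^m⟩ t⁻¹` -/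
  pp : ∃ Z : Set Γ, (∀ g ∈ Z, ∀ k : ℤ, g * a ^ k ∈ Z) ∧ (∀ k : ℤ, (a ^ m) ^ k ∉ Z) ∧
    (∀ g, g ∉ Subgroup.zpowers (a ^ m) → (g ∈ Z ↔ g * t⁻¹ ∈ Z)) ∧
    (∀ k : ℤ, ¬ m ∣ k → ∀ g ∈ Z, a ^ k * g ∉ Z ∧ a ^ k * g ∉ Subgroup.zpowers (a ^ m)) ∧
    (∀ k : ℤ, ¬ n ∣ k → ∀ g, g ∉ Z → t⁻¹ * a ^ k * t * g ∈ Z)

/-! ### The vertices -/

/-- The component of `1` in the circle for the relations `y^n = x^m`. -/
inductive VSet (m n : ℤ) : Circle → Prop
  | one : VSet m n 1
  | up (x y : Circle) (hx : VSet m n x) (h : y ^ n = x ^ m) : VSet m n y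
  | down (x y : Circle) (hx : VSet m n x) (h : y ^ m = x ^ n) : VSet m n y

/-- the type of vertices -/
def VT (m n : ℤ) : Type := {x : Circle // VSet m n x}

/-- the type of blocks -/
def BT (m n : ℤ) : Type := {χ : Circle // ∃ x, VSet m n x ∧ x ^ m = χ}

/-- A regular hypergraph with an infinite set `C` of superfluous vertices (edges). -/
structure HG (M N : ℕ) where
  V : Type
  K : Type
  s : V → K
  r : V → K
  S : K → Finset V
  T : K → Finset V
  mem_S : ∀ χ x, x ∈ S χ ↔ s x = χ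
  mem_T : ∀ χ x, x ∈ T χ ↔ r x = χ
  card_S : ∀ χ, (S χ).card = M
  card_T : ∀ χ, (T χ).card = N
  o : V
  so : s o = r o
  cV : Countable V
  iV : Infinite V
  C : Set V
  iC : C.Infinite
  oC : o ∉ C
  conn : ∀ χ, Relation.EqvGen (fun a b => ∃ x, x ∉ C ∧ s x = a ∧ r x = b) χ (s o)

/-! ### Representations -/

/-- A representation of `Γ` induced from characters `χ v` of `⟨a⟩`. -/
structure TRep {Γ V : Type} [Group Γ] (a : Γ) (χ : V → Circle) (H : Type)
    [NormedAddCommGroup H] [InnerProductSpace ℂ H] [CompleteSpace H] where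
  π : Γ →* Op H
  star_π : ∀ g, star (π g) = π g⁻¹
  ξ : V → H
  π_a : ∀ x, π a (ξ x) = ((χ x : Circle) : ℂ) • ξ x
  norm_ξ : ∀ x, ‖ξ x‖ = 1
  orth : ∀ (g : Γ) (x y : V), (g ∉ Subgroup.zpowers a ∨ x ≠ y) → ⟪ξ x, π g (ξ y)⟫_ℂ = 0
  total : (Submodule.span ℂ {v | ∃ g x, v = π g (ξ x)}).topologicalClosure = ⊤

/-- The eigenprojection of `A` for the eigenvalue `z`. -/
def eg {H : Type} [NormedAddCommGroup H] [InnerProductSpace ℂ H] [CompleteSpace H]
    (A : Op H) (z : ℂ) : Op H :=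
  (LinearMap.ker ((A - z • (1 : Op H) : Op H) : H →ₗ[ℂ] H)).starProjection

/-- A grading by orthogonal projections compatible with a representation. -/
structure Grad {Γ V H : Type} [Group Γ] [NormedAddCommGroup H] [InnerProductSpace ℂ H]
    [CompleteSpace H] {a : Γ} {χ : V → Circle} (R : TRep a χ H) (d : Γ →* Multiplicative ℤ)
    (P : ℤ → Op H) : Prop where
  idem : ∀ j, P j * P j = P j
  sa : ∀ j, star (P j) = P j
  orth : ∀ j k, j ≠ k → P j * P k = 0
  ξ : ∀ x, P 0 (R.ξ x) = R.ξ x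
  π : ∀ j g, P (j + Multiplicative.toAdd (d g)) * R.π g = R.π g * P j

/-! ### The model -/

/-- The algebraic data on which the proof is based. -/
structure Mdl {M N : ℕ} (G : HG M N) (H : Type) [NormedAddCommGroup H] [InnerProductSpace ℂ H]
    [CompleteSpace H] where
  W : WSys G.V H
  t : Op H
  t1 : star t * t = 1
  t2 : t * star t = 1
  te : ∀ χ, t * W.eF (G.S χ) = W.eF (G.T χ) * t
  P : ℤ → Op H
  P_idem : ∀ j, P j * P j = P j
  P_sa : ∀ j, star (P j) = P j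
  P_e : ∀ j x, P j * W.e x = W.e x * P j
  P_t : ∀ j, P (j + 1) * t = t * P j
  fhs : FHS W (vNa (Set.range W.e)) (fun χ => t * W.eF (G.S χ)) G.S G.T
  kms : ∀ (d : ℤ) (X : Op H), X ∈ vNa (Set.range W.e ∪ {t}) →
    (∀ j, P (j + d) * X = X * P j) →
    KMS W (vNa (Set.range W.e ∪ {t})) (((N : ℝ) / (M : ℝ)) ^ d) X
  sep : ∀ X ∈ vNa (Set.range W.e ∪ {t}), (∀ x, X (W.ξ x) = 0) → X = 0
  node : ∀ (χ : G.K) (X : Op H), X ∈ vNa (Set.range W.e ∪ {t}) →
    W.eF (G.S χ) * X = X → X * W.eF (G.S χ) = X →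
    (∀ x ∈ G.S χ, W.e x * X = X * W.e x) →
    (∀ y ∈ G.T χ, (star t * W.e y * t) * X = X * (star t * W.e y * t)) →
    ∃ c : ℂ, X = c • W.eF (G.S χ)

section mdl
variable {m N : ℕ} {G : HG m N} {H : Type} [NormedAddCommGroup H] [InnerProductSpace ℂ H]
  [CompleteSpace H]

/-- the whole algebra -/
def Mdl.A (D : Mdl G H) : StarSubalgebra ℂ (Op H) := vNa (Set.range D.W.e ∪ {D.t})

/-- the projection `q x = t* e x t` -/
def Mdl.q (D : Mdl G H) (x : G.V) : Op H := star D.t * D.W.e x * D.t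

/-- the edge `g x = t* e x : e x → q x` -/
def Mdl.g (D : Mdl G H) (x : G.V) : Op H := star D.t * D.W.e x

/-- the subalgebra without the edges in `C` -/
def Mdl.R (D : Mdl G H) : StarSubalgebra ℂ (Op H) :=
  vNa (Set.range D.W.e ∪ Set.range D.q ∪ D.g '' G.Cᶜ)

/-- homogeneous operators of degree `d` -/
def Mdl.Hom (D : Mdl G H) (d : ℤ) (X : Op H) : Prop := ∀ j, D.P (j + d) * X = X * D.P j

end mdl

end

end Pool.Agent.MP9a76ab
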