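import Pool.Agent.Lib.MP_9a76ab_an.Defs2

/-! Definitions for MP_9a76ab_an, part III: the standard form. -/

set_option autoImplicit false

namespace Pool.Agent.MP9a76ab

open scoped InnerProductSpace

noncomputable section

section
variable {V F : Type} [NormedAddCommGroup F] [InnerProductSpace ℂ F] [CompleteSpace F]

/-- the first `r` vertices of an enumeration -/
def seg (zz : ℕ ≃ V) (r : ℕ) : Finset V := (Finset.range r).map zz.toEmbedding

/-- Standard data: matrix units `v x * star (v y)`, one Haar letter `U` of size `n1 × m1` and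
countably many Haar unitaries `a i` in the corner of the first vertex. -/
structure Std (m1 n1 : ℕ) (W : WSys V F) (zz : ℕ ≃ V) (v : V → Op F) (U : Op F) (a : ℕ → Op F) :
    Prop where
  v1 : ∀ x, star (v x) * v x = W.e (zz 0)
  v2 : ∀ x, v x * star (v x) = W.e x
  vo : v (zz 0) = W.e (zz 0)
  fhs : FHS W (vNa (Set.range v)) (fun j : Option ℕ => j.elim U a)
    (fun j => j.elim (seg zz m1) (fun _ => {zz 0})) (fun j => j.elim (seg zz n1) (fun _ => {zz 0}))

/-- The algebra of the standard data. -/
def stdAlg (v : V → Op F) (U : Op F) (a : ℕ → Op F) : StarSubalgebra ℂ (Op F) :=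
  vNa (Set.range v ∪ {U} ∪ Set.range a)

end

end

end Pool.Agent.MP9a76ab
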