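import Pool.Agent.Lib.MP_9a76ab_an.Defs2
import Pool.Agent.Lib.MP_9a76ab_an.Comp

/-! MP_9a76ab_an, module EXPI: existence of homogeneous partial isometries. -/

set_option autoImplicit false

namespace Pool.Agent.MP9a76ab

open scoped InnerProductSpace

namespace ModCX

variable {m N : ℕ} {G : HG m N} {H : Type} [NormedAddCommGroup H] [InnerProductSpace ℂ H]
  [CompleteSpace H] (D : Mdl G H)

theorem e_mem_A (x : G.V) : D.W.e x ∈ D.A := subset_vNa _ (Or.inl ⟨x, rfl⟩)

theorem t_mem_A : D.t ∈ D.A := subset_vNa _ (Or.inr rfl)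

theorem e_mem_R (x : G.V) : D.W.e x ∈ D.R := subset_vNa _ (Or.inl (Or.inl ⟨x, rfl⟩))

theorem R_le_A : D.R ≤ D.A := by
  refine vNa_le ?_
  rintro _ ((⟨x, rfl⟩ | ⟨x, rfl⟩) | ⟨x, -, rfl⟩)
  · exact e_mem_A D x
  · exact mul_mem (mul_mem (star_mem (t_mem_A D)) (e_mem_A D x)) (t_mem_A D)
  · exact mul_mem (star_mem (t_mem_A D)) (e_mem_A D x)

variable {D}

theorem hom_mul {d d' : ℤ} {X Y : Op H} (hX : D.Hom d X) (hY : D.Hom d' Y) :
    D.Hom (d + d') (X * Y) := by
  intro j
  have h1 := hX (j + d')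
  have h2 := hY j
  rw [← mul_assoc, show j + (d + d') = j + d' + d by ring, h1, mul_assoc, h2, mul_assoc]

theorem hom_star {d : ℤ} {X : Op H} (hX : D.Hom d X) : D.Hom (-d) (star X) := by
  intro j
  have h1 := congrArg star (hX (j - d))
  rw [star_mul, star_mul, D.P_sa, D.P_sa] at h1
  rw [show j + -d = j - d by ring]
  rw [show j - d + d = j by ring] at h1
  exact h1.symm

theorem hom_sub {d : ℤ} {X Y : Op H} (hX : D.Hom d X) (hY : D.Hom d Y) : D.Hom d (X - Y) := by
  intro j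
  rw [mul_sub, sub_mul, hX j, hY j]

theorem hom_e (x : G.V) : D.Hom 0 (D.W.e x) := by
  intro j
  rw [add_zero, D.P_e]

theorem hom_sum {ι : Type} {d : ℤ} (s : Finset ι) {f : ι → Op H} (h : ∀ i ∈ s, D.Hom d (f i)) :
    D.Hom d (∑ i ∈ s, f i) := by
  intro j
  rw [Finset.mul_sum, Finset.sum_mul]
  exact Finset.sum_congr rfl fun i hi => h i hi j

theorem hom_eF (F : Finset G.V) : D.Hom 0 (D.W.eF F) := hom_sum F fun x _ => hom_e x

/-- the vectors separate: faithfulness on finite corners -/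
theorem faithful {p : Op H} (hp : p ∈ D.A) (p1 : p * p = p) (p2 : star p = p) (F : Finset G.V)
    (pF : D.W.eF F * p = p) (h0 : D.W.φF F p = 0) : p = 0 := by
  have hpF : p * D.W.eF F = p := by
    have := congrArg star pF
    simpa [p2, D.W.eF_sa] using this
  apply D.sep p hp
  have h1 : ∀ x, ⟪D.W.ξ x, p (D.W.ξ x)⟫_ℂ = ((‖p (D.W.ξ x)‖ : ℝ) : ℂ) ^ 2 := by
    intro x
    rw [← inner_self_C]
    conv_lhs => rw [← p1]
    rw [mul_apply_eq_comp, inner_op_star, p2]
  have h2 : ∑ x ∈ F, ‖p (D.W.ξ x)‖ ^ 2 = 0 := by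
    have h3 : ((∑ x ∈ F, ‖p (D.W.ξ x)‖ ^ 2 : ℝ) : ℂ) = 0 := by
      rw [← h0, D.W.φF_apply]
      push_cast
      exact Finset.sum_congr rfl fun x _ => (h1 x).symm
    exact_mod_cast h3
  intro x
  by_cases hx : x ∈ F
  · have h3 := (Finset.sum_eq_zero_iff_of_nonneg (fun y _ => sq_nonneg _)).1 h2 x hx
    have h4 : ‖p (D.W.ξ x)‖ = 0 := by
      exact pow_eq_zero_iff (two_ne_zero) |>.1 h3
    exact norm_eq_zero.1 h4
  · rw [← hpF, mul_apply_eq_comp, D.W.eF_ξ_not hx, map_zero]

/-- the trace relation -/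
theorem trace {d : ℤ} {v p q : Op H} (hv : v ∈ D.A) (hd : D.Hom d v) (p2 : star p = p)
    (vp : v * p = v) (qv : q * v = v) (F F' : Finset G.V) (pF : D.W.eF F * p = p)
    (qF : D.W.eF F' * q = q) :
    D.W.φF F' (v * star v) =
      ((((N : ℝ) / (m : ℝ)) ^ d : ℝ) : ℂ) * D.W.φF F (star v * v) := by
  have k1 := D.kms d v hv hd (star v) (star_mem hv)
  have hvF : v * D.W.eF F = v := by
    have h1 : p * D.W.eF F = p := by
      have := congrArg star pF
      simpa [p2, D.W.eF_sa] using this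
    rw [← vp, mul_assoc, h1]
  have hFv : D.W.eF F' * v = v := by rw [← qv, ← mul_assoc, qF]
  have e1 : D.W.φF F' (v * star v) =
      ∑ y ∈ F', ∑ x ∈ F, ⟪D.W.ξ y, v (D.W.e x ((star v) (D.W.ξ y)))⟫_ℂ := by
    rw [D.W.φF_apply]
    refine Finset.sum_congr rfl fun y _ => ?_
    conv_lhs => rw [← hvF]
    rw [← inner_sum, ← map_sum]
    congr 1
    rw [star_mul, D.W.eF_sa]
    simp only [mul_apply_eq_comp]
    congr 1
    have := congrArg (fun A : Op H => A ((star v) (D.W.ξ y))) (D.W.eF_idem F)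
    simp only [mul_apply_eq_comp] at this
    rw [this]
    simp [WSys.eF]
  have e2 : D.W.φF F (star v * v) =
      ∑ x ∈ F, ∑ y ∈ F', ⟪D.W.ξ x, (star v) (D.W.e y (v (D.W.ξ x)))⟫_ℂ := by
    rw [D.W.φF_apply]
    refine Finset.sum_congr rfl fun x _ => ?_
    conv_lhs => rw [← hFv]
    rw [← inner_sum, ← map_sum]
    congr 1
    rw [star_mul, D.W.eF_sa]
    simp only [mul_apply_eq_comp]
    congr 1
    have := congrArg (fun A : Op H => A (v (D.W.ξ x))) (D.W.eF_idem F')
    simp only [mul_apply_eq_comp] at this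
    rw [this]
    simp [WSys.eF]
  rw [e1, e2, Finset.sum_comm, Finset.mul_sum]
  refine Finset.sum_congr rfl fun x _ => ?_
  rw [Finset.mul_sum]
  exact Finset.sum_congr rfl fun y _ => k1 x y

/-- `exists_pi` from the statement of the module REACH -/
theorem exists_pi_of_reach
    (reach : ∀ (χ χ' : G.K) (d : ℤ) {A B : Op H} (_ : A ∈ D.A) (_ : B ∈ D.A)
      (_ : D.W.eF (G.S χ) * A = A) (_ : B * D.W.eF (G.S χ') = B) (_ : A ≠ 0) (_ : B ≠ 0),
      ∃ Y ∈ D.R, D.Hom d Y ∧ B * Y * A ≠ 0)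
    (hmN : 0 < m ∧ m < N) (d : ℤ) (p q : Op H) (hp : p ∈ D.R) (hq : q ∈ D.R)
    (p1 : p * p = p) (p2 : star p = p) (q1 : q * q = q) (q2 : star q = q)
    (p3 : D.Hom 0 p) (q3 : D.Hom 0 q) (F F' : Finset G.V) (pF : D.W.eF F * p = p)
    (qF : D.W.eF F' * q = q)
    (htr : D.W.φF F' q = ((((N : ℝ) / (m : ℝ)) ^ d : ℝ) : ℂ) * D.W.φF F p) :
    ∃ k ∈ D.R, D.Hom d k ∧ star k * k = p ∧ k * star k = q := by
  classical
  set S : Set (Op H × Op H) :=
    {z | z.1 = z.2 ∧ ∀ Y ∈ D.R, Y * z.1 = z.1 * Y} ∪ {z | ∃ j, z = (D.P (j + d), D.P j)} with hS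
  have hκ : ((((N : ℝ) / (m : ℝ)) ^ d : ℝ) : ℂ) ≠ 0 := by
    have hm : (0 : ℝ) < m := by exact_mod_cast hmN.1
    have hN : (0 : ℝ) < N := by exact_mod_cast (hmN.1.trans hmN.2)
    have : ((N : ℝ) / (m : ℝ)) ^ d ≠ 0 := (zpow_pos (div_pos hN hm) d).ne'
    exact_mod_cast this
  have itw_iff : ∀ X : Op H, Itw S X ↔ X ∈ D.R ∧ D.Hom d X := by
    intro X
    constructor
    · intro h
      constructor
      · have h1 : X ∈ vNa ((D.R : StarSubalgebra ℂ (Op H)) : Set (Op H)) := by
          rw [mem_vNa_iff]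
          intro T hT
          exact (h (T, T) (Or.inl ⟨rfl, fun Y hY => (hT Y hY).1⟩)).1
        have h2 : vNa ((D.R : StarSubalgebra ℂ (Op H)) : Set (Op H)) = D.R := vNa_vNa _
        rwa [h2] at h1
      · intro j
        exact (h (D.P (j + d), D.P j) (Or.inr ⟨j, rfl⟩)).1
    · rintro ⟨hX, hd⟩ ⟨T, T'⟩ (⟨h1, h2⟩ | ⟨j, h1⟩)
      · simp only at h1 h2 ⊢
        subst h1
        refine ⟨(h2 X hX).symm, ?_⟩
        have h3 := congrArg star (h2 (star X) (star_mem hX))
        simpa using h3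
      · obtain ⟨rfl, rfl⟩ := Prod.mk.inj h1
        simp only
        rw [D.P_sa, D.P_sa]
        exact ⟨hd j, hd j⟩
  have RA : ∀ {X : Op H}, X ∈ D.R → X ∈ D.A := fun h => R_le_A D h
  have eFR : ∀ F'' : Finset G.V, D.W.eF F'' ∈ D.R := D.W.eF_mem (e_mem_R D)
  have qfac : ∀ v : Op H, v ∈ D.R → D.Hom d v → v * star v * v = v → v * p = v → q * v = v →
      (q - v * star v) ∈ D.R ∧ (q - v * star v) * (q - v * star v) = q - v * star v ∧
      star (q - v * star v) = q - v * star v ∧ D.Hom 0 (q - v * star v) ∧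
      D.W.eF F' * (q - v * star v) = q - v * star v := by
    intro v hv hd hvv vp qv
    have vq : star v * q = star v := by
      have := congrArg star qv
      simpa [q2] using this
    refine ⟨sub_mem hq (mul_mem hv (star_mem hv)), ?_, ?_, ?_, ?_⟩
    · have e1 : (q - v * star v) * (q - v * star v) =
          q * q - (q * v) * star v - v * (star v * q) + (v * star v * v) * star v := by
        noncomm_ring
      rw [e1, q1, qv, vq, hvv]
      noncomm_ring
    · simp [q2]
    · have := hom_sub q3 (by simpa using hom_mul hd (hom_star hd))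
      exact this
    · rw [mul_sub, qF, ← mul_assoc]
      congr 2
      rw [← qv, ← mul_assoc, qF]
  have pfac : ∀ v : Op H, v ∈ D.R → D.Hom d v → v * star v * v = v → v * p = v → q * v = v →
      (p - star v * v) ∈ D.R ∧ (p - star v * v) * (p - star v * v) = p - star v * v ∧
      star (p - star v * v) = p - star v * v ∧ D.Hom 0 (p - star v * v) ∧
      D.W.eF F * (p - star v * v) = p - star v * v := by
    intro v hv hd hvv vp qv
    have pv : p * star v = star v := by
      have := congrArg star vp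
      simpa [p2] using this
    refine ⟨sub_mem hp (mul_mem (star_mem hv) hv), ?_, ?_, ?_, ?_⟩
    · have e1 : (p - star v * v) * (p - star v * v) =
          p * p - (p * star v) * v - star v * (v * p) + star v * (v * star v * v) := by
        noncomm_ring
      rw [e1, p1, pv, vp, hvv]
      noncomm_ring
    · simp [p2]
    · have := hom_sub p3 (by simpa using hom_mul (hom_star hd) hd)
      exact this
    · rw [mul_sub, pF, ← mul_assoc]
      congr 2
      rw [← pv, ← mul_assoc, pF]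
  suffices hh : ∃ v, Itw S v ∧ star v * v = p ∧ v * star v = q by
    obtain ⟨k, hk, h1, h2⟩ := hh
    exact ⟨k, ((itw_iff k).1 hk).1, ((itw_iff k).1 hk).2, h1, h2⟩
  refine comparison S p q p1 p2 q1 q2 ?_ ?_
  · intro v hv hvv vp qv hne
    obtain ⟨hvR, hvd⟩ := (itw_iff v).1 hv
    obtain ⟨a1, a2, a3, a4, a5⟩ := pfac v hvR hvd hvv vp qv
    obtain ⟨b1, b2, b3, b4, b5⟩ := qfac v hvR hvd hvv vp qv
    have hp0 : p - star v * v ≠ 0 := fun h => hne (sub_eq_zero.1 h).symm
    have hφp : D.W.φF F (p - star v * v) ≠ 0 := fun h =>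
      hp0 (faithful (RA a1) a2 a3 F a5 h)
    have hφq : D.W.φF F' (q - v * star v) ≠ 0 := by
      have h3 := trace (RA hvR) hvd p2 vp qv F F' pF qF
      rw [map_sub, htr, h3, ← mul_sub, ← map_sub]
      exact mul_ne_zero hκ hφp
    have hq0 : q - v * star v ≠ 0 := fun h => hφq (by rw [h, map_zero])
    obtain ⟨x, hx⟩ : ∃ x, D.W.e x * (p - star v * v) ≠ 0 := by
      by_contra hcon
      push Not at hcon
      apply hp0
      rw [← a3]
      have h4 : star (p - star v * v) = 0 := by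
        apply D.W.op_ext
        intro x
        have := congrArg star (hcon x)
        rw [star_mul, D.W.sa, star_zero] at this
        rw [this, zero_mul]
      exact h4
    obtain ⟨y, hy⟩ : ∃ y, (q - v * star v) * D.W.e y ≠ 0 := by
      by_contra hcon
      push Not at hcon
      apply hq0
      apply D.W.op_ext
      intro y
      rw [hcon y, zero_mul]
    have hA0 : D.W.eF (G.S (G.s x)) * (p - star v * v) ≠ 0 := by
      intro h
      apply hx
      rw [← D.W.e_mul_eF_mem ((G.mem_S _ _).2 rfl : x ∈ G.S (G.s x)), mul_assoc, h, mul_zero]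
    have hB0 : (q - v * star v) * D.W.eF (G.S (G.s y)) ≠ 0 := by
      intro h
      apply hy
      rw [← D.W.eF_mul_e_mem ((G.mem_S _ _).2 rfl : y ∈ G.S (G.s y)), ← mul_assoc, h, zero_mul]
    obtain ⟨Y, hY, hYd, hY0⟩ := reach (G.s x) (G.s y) d
      (A := D.W.eF (G.S (G.s x)) * (p - star v * v))
      (B := (q - v * star v) * D.W.eF (G.S (G.s y)))
      (RA (mul_mem (eFR _) a1)) (RA (mul_mem b1 (eFR _)))
      (by rw [← mul_assoc, D.W.eF_idem]) (by rw [mul_assoc, D.W.eF_idem]) hA0 hB0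
    refine ⟨_, (itw_iff _).2 ⟨mul_mem (mul_mem (mul_mem b1 (eFR _)) hY) (mul_mem (eFR _) a1), ?_⟩,
      hY0, ?_⟩
    · have := hom_mul (hom_mul (hom_mul b4 (hom_eF (G.S (G.s y)))) hYd)
        (hom_mul (hom_eF (G.S (G.s x))) a4)
      simpa using this
    · calc (q - v * star v) * D.W.eF (G.S (G.s y)) * Y *
            (D.W.eF (G.S (G.s x)) * (p - star v * v))
          = ((q - v * star v) * (q - v * star v)) * D.W.eF (G.S (G.s y)) * Y *
            (D.W.eF (G.S (G.s x)) * ((p - star v * v) * (p - star v * v))) := by rw [a2, b2]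
        _ = _ := by simp only [mul_assoc]
  · intro v hv hvv vp qv hvp
    obtain ⟨hvR, hvd⟩ := (itw_iff v).1 hv
    obtain ⟨b1, b2, b3, b4, b5⟩ := qfac v hvR hvd hvv vp qv
    have h3 := trace (RA hvR) hvd p2 vp qv F F' pF qF
    have h4 : D.W.φF F' (q - v * star v) = 0 := by
      rw [map_sub, htr, h3, hvp, sub_self]
    exact (sub_eq_zero.1 (faithful (RA b1) b2 b3 F' b5 h4)).symm

end ModCX

end Pool.Agent.MP9a76ab
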