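import Pool.Agent.Lib.MP_9a76ab_an.Defs2

/-!
# MP_9a76ab_an module GBRIT: Britton's lemma in the form needed
-/

set_option autoImplicit false

namespace Pool.Agent.MP9a76ab

open scoped InnerProductSpace

namespace GrpBX

/-- the sign of a letter -/
def sg (s : Bool) : ℤˣ := bif s then 1 else -1

theorem sg_inj {s s' : Bool} (h : sg s = sg s') : s = s' := by
  cases s <;> cases s' <;> simp [sg] at h ⊢

theorem tp_eq {Γ : Type} [Group Γ] (t : Γ) (s : Bool) : tp t s = t ^ ((sg s : ℤˣ) : ℤ) := by
  cases s <;> simp [tp, sg]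

theorem mem_zp {m k : ℤ} (h : Multiplicative.ofAdd k ∈ Subgroup.zpowers (Multiplicative.ofAdd m)) :
    m ∣ k := by
  obtain ⟨j, hj⟩ := Subgroup.mem_zpowers_iff.1 h
  refine ⟨j, ?_⟩
  have h1 := congrArg Multiplicative.toAdd hj
  rw [toAdd_zpow, toAdd_ofAdd, toAdd_ofAdd, smul_eq_mul] at h1
  rw [← h1, mul_comm]

theorem ofAdd_one_zpow (k : ℤ) : (Multiplicative.ofAdd (1 : ℤ)) ^ k = Multiplicative.ofAdd k := by
  apply Multiplicative.toAdd.injective
  rw [toAdd_zpow, toAdd_ofAdd, toAdd_ofAdd, smul_eq_mul, mul_one]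

end GrpBX

open GrpBX

section G

theorem hnn_brit (m n : ℤ) (hm : m ≠ 0) (hn : n ≠ 0)
    (φ : Subgroup.zpowers (Multiplicative.ofAdd m) ≃* Subgroup.zpowers (Multiplicative.ofAdd n))
    (hφ : ∀ k : ℤ, ((φ ⟨(Multiplicative.ofAdd m) ^ k, Subgroup.zpow_mem_zpowers _ k⟩ :
        Subgroup.zpowers (Multiplicative.ofAdd n)) : Multiplicative ℤ) =
          (Multiplicative.ofAdd n) ^ k)
    (a t : HNNExtension (Multiplicative ℤ) (Subgroup.zpowers (Multiplicative.ofAdd m))
      (Subgroup.zpowers (Multiplicative.ofAdd n)) φ)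
    (ha : a = HNNExtension.of (Multiplicative.ofAdd 1)) (ht : t = HNNExtension.t) :
    ∀ s g, GRed a t m n s g → tp t s * g ∉ Subgroup.zpowers a := by
  subst ha ht
  have hof : ∀ k : ℤ, (HNNExtension.of (Multiplicative.ofAdd (1 : ℤ)) :
      HNNExtension (Multiplicative ℤ) (Subgroup.zpowers (Multiplicative.ofAdd m))
      (Subgroup.zpowers (Multiplicative.ofAdd n)) φ) ^ k =
      HNNExtension.of (Multiplicative.ofAdd k) := by
    intro k
    rw [← map_zpow, ofAdd_one_zpow]
  have key : ∀ s g, GRed (HNNExtension.of (Multiplicative.ofAdd 1) :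
      HNNExtension (Multiplicative ℤ) (Subgroup.zpowers (Multiplicative.ofAdd m))
      (Subgroup.zpowers (Multiplicative.ofAdd n)) φ) HNNExtension.t m n s g →
      ∃ (k : ℤ) (l : List (ℤˣ × Multiplicative ℤ)),
        ((sg s, Multiplicative.ofAdd k) :: l).IsChain (fun a b =>
          a.2 ∈ HNNExtension.toSubgroup (Subgroup.zpowers (Multiplicative.ofAdd m))
            (Subgroup.zpowers (Multiplicative.ofAdd n)) a.1 → a.1 = b.1) ∧
        g = HNNExtension.of (Multiplicative.ofAdd k) *
          (l.map (fun x => HNNExtension.t ^ (x.1 : ℤ) * HNNExtension.of x.2)).prod := by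
    intro s g h
    induction h with
    | base s k => exact ⟨k, [], List.isChain_singleton _, by rw [hof]; simp⟩
    | step s s' k g h hg ih =>
      obtain ⟨k1, l1, hc, hg1⟩ := ih
      refine ⟨k, (sg s', Multiplicative.ofAdd k1) :: l1, ?_, ?_⟩
      · rw [List.isChain_cons_cons]
        refine ⟨?_, hc⟩
        intro hmem
        by_cases hs : s' = s
        · rw [hs]
        · exfalso
          apply h hs
          cases s
          · exact mem_zp hmem
          · exact mem_zp hmem
      · rw [List.map_cons, List.prod_cons, hof, tp_eq, hg1]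
        simp only [mul_assoc]
  intro s g hg hmem
  obtain ⟨k, l, hc, rfl⟩ := key s g hg
  let w : HNNExtension.NormalWord.ReducedWord (Multiplicative ℤ)
      (Subgroup.zpowers (Multiplicative.ofAdd m)) (Subgroup.zpowers (Multiplicative.ofAdd n)) :=
    { head := 1
      toList := (sg s, Multiplicative.ofAdd k) :: l
      chain := hc }
  have hw : w.prod φ ∈ (HNNExtension.of.range : Subgroup (HNNExtension (Multiplicative ℤ)
      (Subgroup.zpowers (Multiplicative.ofAdd m)) (Subgroup.zpowers (Multiplicative.ofAdd n)) φ)) := by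
    have h1 : w.prod φ = tp HNNExtension.t s * (HNNExtension.of (Multiplicative.ofAdd k) *
          (l.map (fun x => HNNExtension.t ^ (x.1 : ℤ) * HNNExtension.of x.2)).prod) := by
      simp only [HNNExtension.NormalWord.ReducedWord.prod, w, List.map_cons, List.prod_cons,
        map_one, one_mul, tp_eq, mul_assoc]
    rw [h1]
    obtain ⟨j, hj⟩ := Subgroup.mem_zpowers_iff.1 hmem
    rw [← hj, hof]
    exact ⟨_, rfl⟩
  have := HNNExtension.ReducedWord.toList_eq_nil_of_mem_of_range φ w hw
  simp [w] at this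

end G

end Pool.Agent.MP9a76ab
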