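import Pool.Agent.Lib.MP_9a76ab_an.Defs2

/-! MP_9a76ab_an: the ping-pong set for the HNN extension. -/

set_option autoImplicit false

namespace Pool.Agent.MP9a76ab

open scoped InnerProductSpace

namespace GrpCX

open HNNExtension HNNExtension.NormalWord

section gen
variable {G : Type} [Group G] {A B : Subgroup G} (φ : A ≃* B)

/-- the ping-pong set -/
def ZZ (φ : A ≃* B) : Set (HNNExtension G A B φ) :=
  {g | ∃ w : ReducedWord G A B, w.prod φ = g ∧ w.toList.head?.map Prod.fst = some (-1) ∧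
    w.head ∈ A}

theorem exists_word (g : HNNExtension G A B φ) : ∃ w : ReducedWord G A B, w.prod φ = g := by
  obtain ⟨d⟩ := TransversalPair.nonempty G A B
  refine ⟨(NormalWord.equiv φ d g).toReducedWord, ?_⟩
  exact (NormalWord.equiv φ d).symm_apply_apply g

theorem ZZ_iff (w : ReducedWord G A B) :
    w.prod φ ∈ ZZ φ ↔ (w.toList.head?.map Prod.fst = some (-1) ∧ w.head ∈ A) := by
  constructor
  · rintro ⟨w', h1, h2, h3⟩
    obtain ⟨h4, h5⟩ := ReducedWord.map_fst_eq_and_of_prod_eq φ h1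
    have h6 : w.toList.head?.map Prod.fst = some (-1) := by
      rw [← List.head?_map, ← h4, List.head?_map]; exact h2
    refine ⟨h6, ?_⟩
    have h7 := h5 (-1) h2
    have h8 : w'.head⁻¹ * w.head ∈ A := by simpa using h7
    have h9 := A.mul_mem h3 h8
    simpa using h9
  · rintro ⟨h1, h2⟩
    exact ⟨w, rfl, h1, h2⟩

/-- the product of a list -/
def lp (φ : A ≃* B) (l : List (ℤˣ × G)) : HNNExtension G A B φ :=
  (l.map (fun x => (t : HNNExtension G A B φ) ^ (x.1 : ℤ) * of x.2)).prod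

theorem prod_mk (h : G) (l : List (ℤˣ × G)) (c) :
    (ReducedWord.mk h l c : ReducedWord G A B).prod φ = of h * lp φ l := rfl

theorem lp_nil : lp φ ([] : List (ℤˣ × G)) = 1 := rfl

theorem lp_cons (a : ℤˣ × G) (l : List (ℤˣ × G)) :
    lp φ (a :: l) = (t : HNNExtension G A B φ) ^ (a.1 : ℤ) * of a.2 * lp φ l := by
  simp [lp]

theorem lp_append (l l' : List (ℤˣ × G)) : lp φ (l ++ l') = lp φ l * lp φ l' := by
  simp [lp]

theorem chain_last (l : List (ℤˣ × G)) (u : ℤˣ) (x y : G)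
    (h : (l ++ [(u, x)]).IsChain (fun a b => a.2 ∈ toSubgroup A B a.1 → a.1 = b.1)) :
    (l ++ [(u, y)]).IsChain (fun a b => a.2 ∈ toSubgroup A B a.1 → a.1 = b.1) := by
  rw [List.isChain_append] at h ⊢
  refine ⟨h.1, List.isChain_singleton _, ?_⟩
  intro p hp q hq
  have hq' : q = (u, y) := by simpa using hq.symm
  subst hq'
  exact h.2.2 p hp (u, x) (by simp)

theorem ZZ_mul_of (g : HNNExtension G A B φ) (hg : g ∈ ZZ φ) (y : G) : g * of y ∈ ZZ φ := by
  obtain ⟨⟨h, l, c⟩, h1, h2, h3⟩ := hg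
  rcases List.eq_nil_or_concat l with rfl | ⟨l', ⟨u, x⟩, rfl⟩
  · simp at h2
  · simp only [List.concat_eq_append] at c h1 h2
    refine ⟨⟨h, l' ++ [(u, x * y)], chain_last l' u x _ c⟩, ?_, ?_, h3⟩
    · rw [← h1, prod_mk, prod_mk, lp_append, lp_append, lp_cons, lp_cons, lp_nil]
      simp [mul_assoc]
    · show (l' ++ [(u, x * y)]).head?.map Prod.fst = some (-1)
      have h2' : (l' ++ [(u, x)]).head?.map Prod.fst = some (-1) := h2
      rw [← h2']
      cases l' <;> simp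

theorem of_notMem_ZZ (h : G) : (of h : HNNExtension G A B φ) ∉ ZZ φ := by
  have h1 : (of h : HNNExtension G A B φ) =
      (ReducedWord.mk h [] List.isChain_nil : ReducedWord G A B).prod φ := by
    rw [prod_mk, lp_nil, mul_one]
  rw [h1, ZZ_iff]
  simp

theorem ZZ_tinv (g : HNNExtension G A B φ) (hg : ∀ x ∈ A, g ≠ of x) :
    g ∈ ZZ φ ↔ g * t⁻¹ ∈ ZZ φ := by
  obtain ⟨⟨h, l, c⟩, rfl⟩ := exists_word φ g
  rcases List.eq_nil_or_concat l with rfl | ⟨l', ⟨u, x⟩, rfl⟩
  · have hh : h ∉ A := by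
      intro hA
      apply hg h hA
      rw [prod_mk, lp_nil, mul_one]
    have h1 : (ReducedWord.mk h [] c : ReducedWord G A B).prod φ * t⁻¹ =
        (ReducedWord.mk h [((-1 : ℤˣ), (1 : G))] (List.isChain_singleton _) :
          ReducedWord G A B).prod φ := by
      rw [prod_mk, prod_mk, lp_cons, lp_nil]; simp
    rw [h1, ZZ_iff, ZZ_iff]
    simp [hh]
  · by_cases hu : u = 1 ∧ x ∈ A
    · obtain ⟨rfl, hx⟩ := hu
      rcases List.eq_nil_or_concat l' with rfl | ⟨l'', ⟨v, y⟩, rfl⟩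
      · have h1 : (ReducedWord.mk h (([] : List (ℤˣ × G)).concat (1, x)) c :
            ReducedWord G A B).prod φ * t⁻¹ = of (h * φ ⟨x, hx⟩) := by
          rw [prod_mk, List.concat_eq_append, List.nil_append, lp_cons, lp_nil, map_mul,
            equiv_eq_conj]
          simp [mul_assoc]
        rw [h1, ZZ_iff]
        constructor
        · rintro ⟨h2, -⟩
          simp at h2
        · intro h2
          exact absurd h2 (of_notMem_ZZ φ _)
      · simp only [List.concat_eq_append] at c ⊢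
        have c1 : (l'' ++ [(v, y)]).IsChain
            (fun a b => a.2 ∈ toSubgroup A B a.1 → a.1 = b.1) :=
          (List.isChain_append.1 c).1
        have c2 := chain_last l'' v y (y * φ ⟨x, hx⟩) c1
        have h1 : (ReducedWord.mk h (l'' ++ [(v, y)] ++ [(1, x)]) c :
            ReducedWord G A B).prod φ * t⁻¹ =
            (ReducedWord.mk h (l'' ++ [(v, y * φ ⟨x, hx⟩)]) c2 : ReducedWord G A B).prod φ := by
          rw [prod_mk, prod_mk, lp_append, lp_append, lp_append, lp_cons, lp_cons, lp_cons,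
            lp_nil]
          simp only [map_mul]
          rw [equiv_eq_conj]
          simp [mul_assoc]
        rw [h1, ZZ_iff, ZZ_iff]
        cases l'' <;> simp
    · simp only [List.concat_eq_append] at c ⊢
      have c2 : (l' ++ [(u, x)] ++ [((-1 : ℤˣ), (1 : G))]).IsChain
            (fun a b => a.2 ∈ toSubgroup A B a.1 → a.1 = b.1) := by
        rw [List.isChain_append]
        refine ⟨c, List.isChain_singleton _, ?_⟩
        intro p hp q hq
        have hp' : p = (u, x) := by simpa using hp.symm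
        have hq' : q = (-1, 1) := by simpa using hq.symm
        subst hp' hq'
        intro h3
        rcases Int.units_eq_one_or u with rfl | rfl
        · exact absurd ⟨rfl, h3⟩ hu
        · rfl
      have h1 : (ReducedWord.mk h (l' ++ [(u, x)]) c :
            ReducedWord G A B).prod φ * t⁻¹ =
            (ReducedWord.mk h (l' ++ [(u, x)] ++ [((-1 : ℤˣ), (1 : G))]) c2 :
              ReducedWord G A B).prod φ := by
        rw [prod_mk, prod_mk, lp_append, lp_append, lp_append, lp_cons, lp_cons, lp_nil]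
        simp [mul_assoc]
      rw [h1, ZZ_iff, ZZ_iff]
      cases l' <;> simp

theorem of_mul_ZZ (y : G) (hy : y ∉ A) (g : HNNExtension G A B φ) (hg : g ∈ ZZ φ) :
    of y * g ∉ ZZ φ ∧ ∀ x, of y * g ≠ of x := by
  obtain ⟨⟨h, l, c⟩, h1, h2, h3⟩ := hg
  have h4 : of y * g = (ReducedWord.mk (y * h) l c : ReducedWord G A B).prod φ := by
    rw [← h1, prod_mk, prod_mk, map_mul, mul_assoc]
  constructor
  · rw [h4, ZZ_iff]
    rintro ⟨-, h5⟩
    apply hy
    have h3' : h ∈ A := h3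
    have h5' : y * h ∈ A := h5
    exact (Subgroup.mul_mem_cancel_right A h3').1 h5'
  · intro x hx
    have h5 := ReducedWord.toList_eq_nil_of_mem_of_range φ
      (ReducedWord.mk (y * h) l c : ReducedWord G A B) ⟨x, by rw [← hx, h4]⟩
    have h6 : l = [] := h5
    subst h6
    simp at h2

theorem tinv_ZZ (y : G) (hy : y ∉ B) (g : HNNExtension G A B φ) (hg : g ∉ ZZ φ) :
    t⁻¹ * of y * t * g ∈ ZZ φ := by
  obtain ⟨⟨h, l, c⟩, rfl⟩ := exists_word φ g
  rw [ZZ_iff] at hg
  have c2 : (((-1 : ℤˣ), y) :: ((1 : ℤˣ), h) :: l).IsChain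
      (fun a b => a.2 ∈ toSubgroup A B a.1 → a.1 = b.1) := by
    rw [List.isChain_cons_cons, List.isChain_cons]
    refine ⟨fun h1 => absurd h1 hy, ?_, c⟩
    rintro ⟨v, z⟩ hv h1
    rcases Int.units_eq_one_or v with rfl | rfl
    · rfl
    · exfalso
      apply hg
      refine ⟨?_, h1⟩
      have hv' : l.head? = some (-1, z) := hv
      show l.head?.map Prod.fst = some (-1)
      rw [hv']; rfl
  have h1 : t⁻¹ * of y * t * (ReducedWord.mk h l c : ReducedWord G A B).prod φ =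
      (ReducedWord.mk 1 (((-1 : ℤˣ), y) :: ((1 : ℤˣ), h) :: l) c2 :
        ReducedWord G A B).prod φ := by
    rw [prod_mk, prod_mk, lp_cons, lp_cons]
    simp [mul_assoc]
  rw [h1, ZZ_iff]
  simp [A.one_mem]

end gen

end GrpCX

open GrpCX in
theorem hnn_pp (m n : ℤ) (hm : m ≠ 0) (hn : n ≠ 0)
    (φ : Subgroup.zpowers (Multiplicative.ofAdd m) ≃* Subgroup.zpowers (Multiplicative.ofAdd n))
    (hφ : ∀ k : ℤ, ((φ ⟨(Multiplicative.ofAdd m) ^ k, Subgroup.zpow_mem_zpowers _ k⟩ :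
        Subgroup.zpowers (Multiplicative.ofAdd n)) : Multiplicative ℤ) =
          (Multiplicative.ofAdd n) ^ k)
    (a t : HNNExtension (Multiplicative ℤ) (Subgroup.zpowers (Multiplicative.ofAdd m))
      (Subgroup.zpowers (Multiplicative.ofAdd n)) φ)
    (ha : a = HNNExtension.of (Multiplicative.ofAdd 1)) (ht : t = HNNExtension.t) :
    ∃ Z : Set (HNNExtension (Multiplicative ℤ) (Subgroup.zpowers (Multiplicative.ofAdd m))
      (Subgroup.zpowers (Multiplicative.ofAdd n)) φ),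
    (∀ g ∈ Z, ∀ k : ℤ, g * a ^ k ∈ Z) ∧ (∀ k : ℤ, (a ^ m) ^ k ∉ Z) ∧
    (∀ g, g ∉ Subgroup.zpowers (a ^ m) → (g ∈ Z ↔ g * t⁻¹ ∈ Z)) ∧
    (∀ k : ℤ, ¬ m ∣ k → ∀ g ∈ Z, a ^ k * g ∉ Z ∧ a ^ k * g ∉ Subgroup.zpowers (a ^ m)) ∧
    (∀ k : ℤ, ¬ n ∣ k → ∀ g, g ∉ Z → t⁻¹ * a ^ k * t * g ∈ Z) := by
  have hak : ∀ k : ℤ, a ^ k = HNNExtension.of (Multiplicative.ofAdd k) := by
    intro k
    rw [ha, ← map_zpow, ← ofAdd_zsmul]
    simp
  have hmem : ∀ r k : ℤ, Multiplicative.ofAdd k ∈ Subgroup.zpowers (Multiplicative.ofAdd r) →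
      r ∣ k := by
    intro r k hk
    obtain ⟨j, hj⟩ := Subgroup.mem_zpowers_iff.1 hk
    rw [← ofAdd_zsmul] at hj
    have := Multiplicative.ofAdd.injective hj
    exact ⟨j, by rw [← this]; simp [mul_comm]⟩
  subst ht
  refine ⟨ZZ φ, ?_, ?_, ?_, ?_, ?_⟩
  · intro g hg k
    rw [hak]
    exact ZZ_mul_of φ g hg _
  · intro k
    rw [← zpow_mul, hak]
    exact of_notMem_ZZ φ _
  · intro g hg
    apply ZZ_tinv
    intro x hx hgx
    apply hg
    obtain ⟨j, hj⟩ := Subgroup.mem_zpowers_iff.1 hx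
    rw [hgx, ← hj, ← ofAdd_zsmul, ← hak]
    rw [Subgroup.mem_zpowers_iff]
    exact ⟨j, by rw [← zpow_mul, smul_eq_mul, mul_comm]⟩
  · intro k hk g hg
    rw [hak]
    obtain ⟨h1, h2⟩ := of_mul_ZZ φ (Multiplicative.ofAdd k) (fun h => hk (hmem _ _ h)) g hg
    refine ⟨h1, ?_⟩
    intro h3
    obtain ⟨j, hj⟩ := Subgroup.mem_zpowers_iff.1 h3
    rw [← zpow_mul, hak] at hj
    exact h2 _ hj.symm
  · intro k hk g hg
    rw [hak]
    exact tinv_ZZ φ _ (fun h => hk (hmem _ _ h)) g hg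

end Pool.Agent.MP9a76ab
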