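import Pool.Agent.Lib.MP_9a76ab_an.Defs2
import Pool.Agent.Lib.MP_9a76ab_an.GrpB
import Pool.Agent.Lib.MP_9a76ab_an.GrpC

/-! `BS(m,n)` as an HNN extension; assembly of `IsBS` (MP_9a76ab_an). -/

set_option autoImplicit false

namespace Pool.Agent.MP9a76ab

open scoped InnerProductSpace

namespace GrpAX

theorem order_zero {m : ℤ} (hm : m ≠ 0) : orderOf (Multiplicative.ofAdd m) = 0 := by
  rw [orderOf_eq_zero_iff']
  intro k hk h
  have h1 : (k : ℤ) * m = 0 := by
    have h2 := congrArg Multiplicative.toAdd h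
    rw [toAdd_pow, toAdd_ofAdd, toAdd_one, nsmul_eq_mul] at h2
    exact h2
  rcases mul_eq_zero.1 h1 with h3 | h3
  · exact hk.ne' (by exact_mod_cast h3)
  · exact hm h3

theorem tp_map {Γ Γ' : Type} [Group Γ] [Group Γ'] (f : Γ →* Γ') (t : Γ) (s : Bool) :
    f (tp t s) = tp (f t) s := by
  cases s <;> simp [tp]

theorem gred_map {Γ Γ' : Type} [Group Γ] [Group Γ'] (f : Γ →* Γ') {a t : Γ} {m n : ℤ} {s : Bool}
    {g : Γ} (h : GRed a t m n s g) : GRed (f a) (f t) m n s (f g) := by
  induction h with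
  | base s k =>
    rw [map_zpow]
    exact GRed.base s k
  | step s s' k g h _ ih =>
    rw [map_mul, map_mul, map_zpow, tp_map]
    exact GRed.step s s' k _ h ih

end GrpAX

open GrpAX

section G

theorem exists_phi (m n : ℤ) (hm : m ≠ 0) (hn : n ≠ 0) :
    ∃ φ : Subgroup.zpowers (Multiplicative.ofAdd m) ≃* Subgroup.zpowers (Multiplicative.ofAdd n),
      ∀ k : ℤ, ((φ ⟨(Multiplicative.ofAdd m) ^ k, Subgroup.zpow_mem_zpowers _ k⟩ :
        Subgroup.zpowers (Multiplicative.ofAdd n)) : Multiplicative ℤ) =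
          (Multiplicative.ofAdd n) ^ k := by
  let g : Subgroup.zpowers (Multiplicative.ofAdd m) :=
    ⟨Multiplicative.ofAdd m, Subgroup.mem_zpowers _⟩
  let g' : Subgroup.zpowers (Multiplicative.ofAdd n) :=
    ⟨Multiplicative.ofAdd n, Subgroup.mem_zpowers _⟩
  have hg : ∀ x, x ∈ Subgroup.zpowers g := by
    rintro ⟨x, hx⟩
    obtain ⟨k, rfl⟩ := Subgroup.mem_zpowers_iff.1 hx
    exact Subgroup.mem_zpowers_iff.2 ⟨k, Subtype.ext rfl⟩
  have hg' : ∀ x, x ∈ Subgroup.zpowers g' := by
    rintro ⟨x, hx⟩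
    obtain ⟨k, rfl⟩ := Subgroup.mem_zpowers_iff.1 hx
    exact Subgroup.mem_zpowers_iff.2 ⟨k, Subtype.ext rfl⟩
  have h : orderOf g = orderOf g' := by
    rw [← Subgroup.orderOf_coe, ← Subgroup.orderOf_coe]
    change orderOf (Multiplicative.ofAdd m) = orderOf (Multiplicative.ofAdd n)
    rw [order_zero hm, order_zero hn]
  refine ⟨mulEquivOfOrderOfEq hg hg' h, fun k => ?_⟩
  have e : (⟨(Multiplicative.ofAdd m) ^ k, Subgroup.zpow_mem_zpowers _ k⟩ :
      Subgroup.zpowers (Multiplicative.ofAdd m)) = g ^ k := Subtype.ext rfl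
  rw [e, map_zpow, mulEquivOfOrderOfEq_apply_gen]
  rfl

theorem isBS (m n : ℤ) (hm : 2 < |m|) (hn : |m| < n) : IsBS (bsA m n) (bsT m n) m n := by
  have hm0 : m ≠ 0 := by
    rintro rfl
    simp at hm
  have hn0 : n ≠ 0 := by
    rintro rfl
    have := abs_nonneg m
    omega
  -- the relation
  have hrel : bsT m n * bsA m n ^ m * (bsT m n)⁻¹ = bsA m n ^ n := by
    have h1 := PresentedGroup.one_of_mem (rels := bsRel m n)
      (x := FreeGroup.of true * FreeGroup.of false ^ m * (FreeGroup.of true)⁻¹ *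
        (FreeGroup.of false ^ n)⁻¹) rfl
    rw [map_mul, map_mul, map_mul, map_inv, map_inv, map_zpow, map_zpow] at h1
    exact mul_inv_eq_one.1 h1
  obtain ⟨φ, hφ⟩ := exists_phi m n hm0 hn0
  set G' : Type := HNNExtension (Multiplicative ℤ) (Subgroup.zpowers (Multiplicative.ofAdd m))
      (Subgroup.zpowers (Multiplicative.ofAdd n)) φ with hG'
  set a' : G' := HNNExtension.of (Multiplicative.ofAdd 1) with ha'
  set t' : G' := HNNExtension.t with ht'
  have hpow : ∀ k : ℤ, a' ^ k = HNNExtension.of (Multiplicative.ofAdd k) := by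
    intro k
    rw [ha', ← map_zpow, ← ofAdd_zsmul, smul_eq_mul, mul_one]
  have hrel' : t' * a' ^ m * t'⁻¹ = a' ^ n := by
    have h1 := HNNExtension.equiv_eq_conj (φ := φ)
      ⟨(Multiplicative.ofAdd m) ^ (1 : ℤ), Subgroup.zpow_mem_zpowers _ 1⟩
    rw [hφ 1] at h1
    dsimp only at h1
    rw [zpow_one, zpow_one] at h1
    rw [hpow, hpow]
    exact h1.symm
  -- the homomorphism to the HNN extension
  have hf0 : ∀ r ∈ bsRel m n, FreeGroup.lift (fun b : Bool => if b then t' else a') r = 1 := by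
    intro r hr
    rw [bsRel, Set.mem_singleton_iff] at hr
    subst hr
    simp only [map_mul, map_inv, map_zpow, FreeGroup.lift_apply_of, if_true, Bool.false_eq_true,
      if_false]
    rw [hrel', mul_inv_cancel]
  set f : BS m n →* G' := PresentedGroup.toGroup hf0 with hf
  have hfa : f (bsA m n) = a' := by
    rw [hf, bsA, PresentedGroup.toGroup.of]
    simp
  have hft : f (bsT m n) = t' := by
    rw [hf, bsT, PresentedGroup.toGroup.of]
    simp
  -- the inverse
  have hcond : ∀ x : Subgroup.zpowers (Multiplicative.ofAdd m),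
      bsT m n * (zpowersHom (BS m n) (bsA m n)) (x : Multiplicative ℤ) =
        (zpowersHom (BS m n) (bsA m n)) ((φ x : Subgroup.zpowers (Multiplicative.ofAdd n)) :
          Multiplicative ℤ) * bsT m n := by
    rintro ⟨x, hx⟩
    obtain ⟨k, rfl⟩ := Subgroup.mem_zpowers_iff.1 hx
    rw [hφ k]
    simp only [map_zpow, zpowersHom_apply, toAdd_ofAdd]
    rw [← hrel]
    have h2 : (bsT m n * bsA m n ^ m * (bsT m n)⁻¹) ^ k =
        bsT m n * (bsA m n ^ m) ^ k * (bsT m n)⁻¹ := by
      rw [conj_zpow]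
    rw [h2]
    group
  set h : G' →* BS m n := HNNExtension.lift (zpowersHom (BS m n) (bsA m n)) (bsT m n) hcond with hh
  have hha : h a' = bsA m n := by
    rw [hh, ha', HNNExtension.lift_of]
    simp
  have hht : h t' = bsT m n := by
    rw [hh, ht', HNNExtension.lift_t]
  have hleft : h.comp f = MonoidHom.id _ := by
    refine PresentedGroup.ext fun x => ?_
    cases x
    · change h (f (bsA m n)) = bsA m n
      rw [hfa, hha]
    · change h (f (bsT m n)) = bsT m n
      rw [hft, hht]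
  have hinj : Function.Injective f := by
    intro x y hxy
    have h1 : h (f x) = h (f y) := by rw [hxy]
    have h2 : ∀ z, h (f z) = z := fun z => congrArg (fun F : BS m n →* BS m n => F z) hleft
    rwa [h2, h2] at h1
  refine ⟨hrel, ?_, ?_, ?_, ?_, ?_⟩
  · rw [eq_top_iff, ← PresentedGroup.closure_range_of (bsRel m n)]
    refine Subgroup.closure_mono ?_
    rintro _ ⟨x, rfl⟩
    cases x
    · left
      rfl
    · right
      rfl
  · intro k hk
    have h1 := congrArg f hk
    rw [map_zpow, hfa, map_one, hpow, ← map_one (HNNExtension.of (φ := φ))] at h1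
    have h2 := HNNExtension.of_injective φ h1
    exact h2
  · have hd0 : ∀ r ∈ bsRel m n,
        FreeGroup.lift (fun b : Bool => if b then Multiplicative.ofAdd (1 : ℤ) else 1) r = 1 := by
      intro r hr
      rw [bsRel, Set.mem_singleton_iff] at hr
      subst hr
      simp
    refine ⟨PresentedGroup.toGroup hd0, ?_, ?_⟩
    · rw [bsA, PresentedGroup.toGroup.of]
      simp
    · rw [bsT, PresentedGroup.toGroup.of]
      simp
  · intro s g hg hmem
    obtain ⟨k, hk⟩ := Subgroup.mem_zpowers_iff.1 hmem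
    have h1 := gred_map f hg
    rw [hfa, hft] at h1
    refine hnn_brit m n hm0 hn0 φ hφ a' t' ha' ht' s (f g) h1 (Subgroup.mem_zpowers_iff.2 ⟨k, ?_⟩)
    have h2 := congrArg f hk
    rwa [map_zpow, map_mul, tp_map, hfa, hft] at h2
  · obtain ⟨Z, z1, z2, z3, z4, z5⟩ := hnn_pp m n hm0 hn0 φ hφ a' t' ha' ht'
    have hpm : f (bsA m n ^ m) = a' ^ m := by rw [map_zpow, hfa]
    refine ⟨f ⁻¹' Z, ?_, ?_, ?_, ?_, ?_⟩
    · intro g hg k
      rw [Set.mem_preimage, map_mul, map_zpow, hfa]
      exact z1 _ hg k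
    · intro k
      rw [Set.mem_preimage, map_zpow, hpm]
      exact z2 k
    · intro g hg
      rw [Set.mem_preimage, Set.mem_preimage, map_mul, map_inv, hft]
      refine z3 _ fun hmem => hg ?_
      obtain ⟨k, hk⟩ := Subgroup.mem_zpowers_iff.1 hmem
      refine Subgroup.mem_zpowers_iff.2 ⟨k, hinj ?_⟩
      rw [map_zpow, hpm, hk]
    · intro k hk g hg
      obtain ⟨h1, h2⟩ := z4 k hk _ hg
      constructor
      · rw [Set.mem_preimage, map_mul, map_zpow, hfa]
        exact h1
      · intro hmem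
        obtain ⟨i, hi⟩ := Subgroup.mem_zpowers_iff.1 hmem
        refine h2 (Subgroup.mem_zpowers_iff.2 ⟨i, ?_⟩)
        have h3 := congrArg f hi
        rwa [map_zpow, hpm, map_mul, map_zpow, hfa] at h3
    · intro k hk g hg
      rw [Set.mem_preimage, map_mul, map_mul, map_mul, map_inv, map_zpow, hfa, hft]
      exact z5 k hk _ hg

end G

end Pool.Agent.MP9a76ab
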