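import Pool.Agent.Lib.MP_9a76ab_an.Defs2

/-! The induced representation; eigenprojections (module TREP). -/

set_option autoImplicit false

namespace Pool.Agent.MP9a76ab

open scoped InnerProductSpace

namespace RepAX

section constr
variable {Γ V : Type} [Group Γ] (a : Γ)

theorem mem_out (g : Γ) (c : Γ ⧸ Subgroup.zpowers a) :
    (Quotient.out (g • c))⁻¹ * (g * Quotient.out c) ∈ Subgroup.zpowers a := by
  rw [← QuotientGroup.eq, QuotientGroup.out_eq']
  have : g • c = g • ((Quotient.out c : Γ) : Γ ⧸ Subgroup.zpowers a) := by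
    rw [QuotientGroup.out_eq']
  rw [this]
  rfl

/-- the cocycle -/
noncomputable def kap (g : Γ) (c : Γ ⧸ Subgroup.zpowers a) : ℤ :=
  Classical.choose (Subgroup.mem_zpowers_iff.1 (mem_out a g c))

theorem kap_spec (g : Γ) (c : Γ ⧸ Subgroup.zpowers a) :
    a ^ kap a g c = (Quotient.out (g • c))⁻¹ * (g * Quotient.out c) :=
  Classical.choose_spec (Subgroup.mem_zpowers_iff.1 (mem_out a g c))

variable (hinf : ∀ k : ℤ, a ^ k = 1 → k = 0)

include hinf

theorem zp_inj {k l : ℤ} (h : a ^ k = a ^ l) : k = l := by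
  have := hinf (k - l) (by rw [zpow_sub, h, mul_inv_cancel])
  omega

theorem kap_one (c : Γ ⧸ Subgroup.zpowers a) : kap a 1 c = 0 := by
  apply zp_inj a hinf
  rw [kap_spec]
  simp

theorem kap_mul (g h : Γ) (c : Γ ⧸ Subgroup.zpowers a) :
    kap a (g * h) c = kap a g (h • c) + kap a h c := by
  apply zp_inj a hinf
  rw [zpow_add, kap_spec, kap_spec, kap_spec, mul_smul]
  group

theorem kap_a : kap a a ((1 : Γ) : Γ ⧸ Subgroup.zpowers a) = 1 := by
  apply zp_inj a hinf
  rw [kap_spec]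
  have h1 : a • ((1 : Γ) : Γ ⧸ Subgroup.zpowers a) = ((1 : Γ) : Γ ⧸ Subgroup.zpowers a) := by
    change ((a * 1 : Γ) : Γ ⧸ Subgroup.zpowers a) = _
    rw [QuotientGroup.eq]
    simp
  rw [h1]
  have h2 : (Quotient.out ((1 : Γ) : Γ ⧸ Subgroup.zpowers a) : Γ) ∈ Subgroup.zpowers a := by
    have h3 := QuotientGroup.out_eq' ((1 : Γ) : Γ ⧸ Subgroup.zpowers a)
    rw [eq_comm, QuotientGroup.eq] at h3
    simpa using h3
  obtain ⟨k, hk⟩ := Subgroup.mem_zpowers_iff.1 h2
  rw [← hk, ← mul_assoc]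
  group

omit hinf

theorem memlp_mul {X : Type} (w : X → Circle) (f : l2 X) :
    Memℓp (fun x => ((w x : ℂ) * f x : ℂ)) 2 := by
  have h := lp.memℓp f
  rw [memℓp_gen_iff (by norm_num)] at h ⊢
  simpa only [norm_mul, Circle.norm_coe, one_mul] using h

/-- multiplication by a unimodular function -/
noncomputable def mulOp {X : Type} (w : X → Circle) : l2 X →ₗᵢ[ℂ] l2 X where
  toFun f := ⟨fun x => (w x : ℂ) * f x, memlp_mul w f⟩
  map_add' f g := by ext x; exact mul_add _ _ _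
  map_smul' c f := by
    ext x
    change (w x : ℂ) * (c * f x) = c * ((w x : ℂ) * f x)
    ring
  norm_map' f := by
    rw [lp.norm_eq_tsum_rpow (by norm_num), lp.norm_eq_tsum_rpow (by norm_num)]
    congr 1
    refine tsum_congr fun x => ?_
    change ‖(w x : ℂ) * f x‖ ^ _ = _
    rw [norm_mul, Circle.norm_coe, one_mul]

/-- the permutation -/
def sig (V : Type) (g : Γ) : Equiv.Perm (V × (Γ ⧸ Subgroup.zpowers a)) :=
  Equiv.prodCongr (Equiv.refl V) (MulAction.toPerm g)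

/-- the representation -/
noncomputable def rep (χ : V → Circle) (g : Γ) : Op (l2 (V × (Γ ⧸ Subgroup.zpowers a))) :=
  ((mulOp fun p : V × (Γ ⧸ Subgroup.zpowers a) => χ p.1 ^ kap a g (g⁻¹ • p.2)).comp
    (permOp (sig a V g))).toContinuousLinearMap

theorem rep_apply (χ : V → Circle) (g : Γ) (f : l2 (V × (Γ ⧸ Subgroup.zpowers a)))
    (p : V × (Γ ⧸ Subgroup.zpowers a)) :
    (rep a χ g f : l2 _) p = ((χ p.1 ^ kap a g (g⁻¹ • p.2) : Circle) : ℂ) *
      f (p.1, g⁻¹ • p.2) := rfl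

theorem rep_norm (χ : V → Circle) (g : Γ) (f : l2 (V × (Γ ⧸ Subgroup.zpowers a))) :
    ‖rep a χ g f‖ = ‖f‖ := LinearIsometry.norm_map _ _

theorem rep_inner (χ : V → Circle) (g : Γ) (f f' : l2 (V × (Γ ⧸ Subgroup.zpowers a))) :
    ⟪rep a χ g f, rep a χ g f'⟫_ℂ = ⟪f, f'⟫_ℂ := LinearIsometry.inner_map_map _ _ _

include hinf

theorem rep_one (χ : V → Circle) : rep a χ 1 = 1 := by
  ext f p
  rw [rep_apply, kap_one a hinf]
  simp

theorem rep_mul (χ : V → Circle) (g h : Γ) : rep a χ (g * h) = rep a χ g * rep a χ h := by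
  ext f p
  change (rep a χ (g * h) f : l2 _) p = (rep a χ g (rep a χ h f) : l2 _) p
  rw [rep_apply, rep_apply, rep_apply, kap_mul a hinf]
  simp only [mul_inv_rev, mul_smul, smul_inv_smul]
  rw [zpow_add, Circle.coe_mul, mul_assoc]

theorem rep_star (χ : V → Circle) (g : Γ) : star (rep a χ g) = rep a χ g⁻¹ := by
  ext1 f
  refine ext_inner_left ℂ fun u => ?_
  rw [inner_star_op]
  rw [← rep_inner a χ g u (rep a χ g⁻¹ f)]
  congr 1
  have : rep a χ g * rep a χ g⁻¹ = 1 := by rw [← rep_mul a hinf, mul_inv_cancel, rep_one a hinf]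
  have h2 := congrArg (fun A : Op (l2 (V × (Γ ⧸ Subgroup.zpowers a))) => A f) this
  exact h2.symm

omit hinf

open Classical in
theorem rep_single (χ : V → Circle) (g : Γ) (x : V) (c : Γ ⧸ Subgroup.zpowers a) :
    rep a χ g (lp.single 2 (x, c) (1 : ℂ)) =
      ((χ x ^ kap a g c : Circle) : ℂ) • lp.single 2 (x, g • c) (1 : ℂ) := by
  ext p
  rw [rep_apply]
  rw [lp.coeFn_smul, Pi.smul_apply, lp.single_apply, lp.single_apply]
  by_cases hp : p = (x, g • c)
  · subst hp
    simp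
  · have h2 : ((p.1, g⁻¹ • p.2) : V × (Γ ⧸ Subgroup.zpowers a)) ≠ (x, c) := by
      intro h
      apply hp
      rw [Prod.mk.injEq] at h
      refine Prod.ext h.1 ?_
      rw [← h.2, smul_inv_smul]
    rw [Pi.single_eq_of_ne h2, Pi.single_eq_of_ne hp]
    simp

theorem smul_one_coset (g : Γ) : g • ((1 : Γ) : Γ ⧸ Subgroup.zpowers a) =
    ((g : Γ) : Γ ⧸ Subgroup.zpowers a) := by
  change ((g * 1 : Γ) : Γ ⧸ Subgroup.zpowers a) = _
  rw [mul_one]

end constr

section
variable {Γ H : Type} [Group Γ] [NormedAddCommGroup H] [InnerProductSpace ℂ H]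

theorem mem_ker_iff (A : Op H) (z : ℂ) (v : H) :
    v ∈ LinearMap.ker ((A - z • (1 : Op H) : Op H) : H →ₗ[ℂ] H) ↔ A v = z • v := by
  rw [LinearMap.mem_ker]
  change A v - z • v = 0 ↔ _
  rw [sub_eq_zero]

theorem eig (π : Γ →* Op H) (b : Γ) (x : Circle) (v : H) (h : π b v = (x : ℂ) • v) (j : ℤ) :
    π (b ^ j) v = ((x ^ j : Circle) : ℂ) • v := by
  induction j using Int.induction_on with
  | zero => simp
  | succ i ih =>
    rw [zpow_add_one, map_mul]
    change π (b ^ (i : ℤ)) (π b v) = _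
    rw [h, map_smul, ih, smul_smul, ← Circle.coe_mul, ← zpow_one_add, add_comm]
  | pred i ih =>
    have h2 : π b⁻¹ v = ((x⁻¹ : Circle) : ℂ) • v := by
      have h3 : π b⁻¹ (π b v) = v := by
        have : π b⁻¹ * π b = 1 := by rw [← map_mul, inv_mul_cancel, map_one]
        exact congrArg (fun C : Op H => C v) this
      rw [h, map_smul] at h3
      conv_rhs => rw [← h3, smul_smul, ← Circle.coe_mul, inv_mul_cancel]
      simp
    rw [zpow_sub_one, map_mul]
    change π (b ^ (-(i : ℤ))) (π b⁻¹ v) = _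
    rw [h2, map_smul, ih, smul_smul, ← Circle.coe_mul, zpow_sub_one, mul_comm]

end

end RepAX

section H
variable {Γ H : Type} [Group Γ] [NormedAddCommGroup H] [InnerProductSpace ℂ H] [CompleteSpace H]

open Classical in
theorem exists_TRep {V : Type} (a : Γ) (hinf : ∀ k : ℤ, a ^ k = 1 → k = 0) (χ : V → Circle) :
    ∃ (H : Type) (_ : NormedAddCommGroup H) (_ : InnerProductSpace ℂ H) (_ : CompleteSpace H),
      Nonempty (TRep a χ H) := by
  refine ⟨l2 (V × (Γ ⧸ Subgroup.zpowers a)), inferInstance, inferInstance, inferInstance, ⟨?_⟩⟩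
  refine
    { π := { toFun := RepAX.rep a χ, map_one' := RepAX.rep_one a hinf χ,
             map_mul' := RepAX.rep_mul a hinf χ }
      star_π := RepAX.rep_star a hinf χ
      ξ := fun x => lp.single 2 (x, ((1 : Γ) : Γ ⧸ Subgroup.zpowers a)) (1 : ℂ)
      π_a := ?_
      norm_ξ := ?_
      orth := ?_
      total := ?_ }
  · intro x
    change RepAX.rep a χ a _ = _
    rw [RepAX.rep_single, RepAX.kap_a a hinf, RepAX.smul_one_coset, zpow_one]
    have : ((a : Γ) : Γ ⧸ Subgroup.zpowers a) = ((1 : Γ) : Γ ⧸ Subgroup.zpowers a) := by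
      rw [eq_comm, QuotientGroup.eq]
      simp
    rw [this]
  · intro x
    rw [lp.norm_single (by norm_num)]
    simp
  · intro g x y h
    change ⟪_, RepAX.rep a χ g _⟫_ℂ = 0
    rw [RepAX.rep_single, inner_smul_right, lp.inner_single_left, lp.single_apply,
      RepAX.smul_one_coset]
    have h2 : ((x, ((1 : Γ) : Γ ⧸ Subgroup.zpowers a)) : V × (Γ ⧸ Subgroup.zpowers a)) ≠
        (y, ((g : Γ) : Γ ⧸ Subgroup.zpowers a)) := by
      intro h3
      rw [Prod.mk.injEq, QuotientGroup.eq] at h3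
      rcases h with h | h
      · apply h; simpa using h3.2
      · exact h h3.1
    rw [Pi.single_eq_of_ne h2]
    simp
  · rw [eq_top_iff]
    intro f _
    have h1 := lp.hasSum_single (p := 2) (by norm_num) f
    refine mem_closure_of_tendsto h1 (Filter.Eventually.of_forall fun s => ?_)
    refine Submodule.sum_mem _ fun p _ => ?_
    obtain ⟨x, c⟩ := p
    obtain ⟨g, rfl⟩ := QuotientGroup.mk_surjective c
    have h2 := RepAX.rep_single a χ g x ((1 : Γ) : Γ ⧸ Subgroup.zpowers a)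
    rw [RepAX.smul_one_coset] at h2
    have h3 : lp.single 2 ((x, ((g : Γ) : Γ ⧸ Subgroup.zpowers a)) : V × (Γ ⧸ Subgroup.zpowers a))
        (f (x, ((g : Γ) : Γ ⧸ Subgroup.zpowers a))) =
        (f (x, ((g : Γ) : Γ ⧸ Subgroup.zpowers a)) *
          (((χ x ^ RepAX.kap a g ((1 : Γ) : Γ ⧸ Subgroup.zpowers a))⁻¹ : Circle) : ℂ)) •
        RepAX.rep a χ g (lp.single 2 (x, ((1 : Γ) : Γ ⧸ Subgroup.zpowers a)) (1 : ℂ)) := by
      rw [h2, smul_smul, mul_assoc, ← Circle.coe_mul, inv_mul_cancel, Circle.coe_one, mul_one]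
      ext p
      rw [lp.coeFn_smul, Pi.smul_apply, lp.single_apply, lp.single_apply]
      by_cases hp : p = (x, ((g : Γ) : Γ ⧸ Subgroup.zpowers a))
      · subst hp; simp
      · rw [Pi.single_eq_of_ne hp, Pi.single_eq_of_ne hp]; simp
    rw [h3]
    exact Submodule.smul_mem _ _ (Submodule.subset_span ⟨g, x, rfl⟩)

theorem eg_comm {A T : Op H} (h1 : T * A = A * T) (h2 : star T * A = A * star T) (z : ℂ) :
    T * eg A z = eg A z * T := by
  have key : ∀ (B : Op H), B * A = A * B → ∀ v ∈ LinearMap.ker ((A - z • (1 : Op H) : Op H) :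
      H →ₗ[ℂ] H), B v ∈ LinearMap.ker ((A - z • (1 : Op H) : Op H) : H →ₗ[ℂ] H) := by
    intro B hB v hv
    rw [RepAX.mem_ker_iff] at hv ⊢
    have h3 : A (B v) = B (A v) := (congrArg (fun C : Op H => C v) hB).symm
    rw [h3, hv, map_smul]
  ext1 v
  unfold eg
  symm
  change (LinearMap.ker ((A - z • (1 : Op H) : Op H) : H →ₗ[ℂ] H)).starProjection (T v) =
    T ((LinearMap.ker ((A - z • (1 : Op H) : Op H) : H →ₗ[ℂ] H)).starProjection v)
  refine Submodule.eq_starProjection_of_mem_of_inner_eq_zero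
    (key T h1 _ (Submodule.starProjection_apply_mem _ v)) ?_
  intro w hw
  rw [← map_sub]
  have h4 : ⟪T (v - (LinearMap.ker ((A - z • (1 : Op H) : Op H) : H →ₗ[ℂ] H)).starProjection v),
      w⟫_ℂ = ⟪v - (LinearMap.ker ((A - z • (1 : Op H) : Op H) : H →ₗ[ℂ] H)).starProjection v,
      star T w⟫_ℂ := (inner_star_op T _ _).symm
  rw [h4]
  exact Submodule.starProjection_inner_eq_zero v _ (key _ h2 w hw)

theorem eg_apply {V : Type} {a : Γ} {χ : V → Circle} (R : TRep a χ H) {k : ℤ} (hk : k ≠ 0)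
    (c x : Circle) {u : H} (hu : R.π (a ^ k) u = (c : ℂ) • u) :
    (x ^ k = c → eg (R.π a) (x : ℂ) u = ((k.natAbs : ℕ) : ℂ)⁻¹ •
      ∑ j ∈ Finset.range k.natAbs, (((x ^ j)⁻¹ : Circle) : ℂ) • R.π (a ^ j) u) ∧
    (x ^ k ≠ c → eg (R.π a) (x : ℂ) u = 0) := by
  have hN : ((k.natAbs : ℕ) : ℂ) ≠ 0 := by
    rw [Ne, Nat.cast_eq_zero, Int.natAbs_eq_zero]; exact hk
  have hin : ∀ (g : Γ) (v w : H), ⟪R.π g v, w⟫_ℂ = ⟪v, R.π g⁻¹ w⟫_ℂ := by
    intro g v w
    rw [← R.star_π, inner_star_op]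
  refine ⟨fun hx => ?_, fun hx => ?_⟩
  · have hu2 : R.π (a ^ k.natAbs) u = ((x ^ k.natAbs : Circle) : ℂ) • u := by
      have h1 := RepAX.eig R.π (a ^ k) c u hu (Int.sign k)
      rw [← zpow_mul, mul_comm, Int.sign_mul_self_eq_natAbs, zpow_natCast] at h1
      rw [h1, ← hx, ← zpow_mul, mul_comm, Int.sign_mul_self_eq_natAbs, zpow_natCast]
    refine Submodule.eq_starProjection_of_mem_of_inner_eq_zero ?_ ?_
    · rw [RepAX.mem_ker_iff, map_smul, smul_comm]
      congr 1
      rw [map_sum]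
      have h2 : ∀ j ∈ Finset.range k.natAbs, R.π a ((((x ^ j)⁻¹ : Circle) : ℂ) • R.π (a ^ j) u) =
          (x : ℂ) • ((((x ^ (j + 1))⁻¹ : Circle) : ℂ) • R.π (a ^ (j + 1)) u) := by
        intro j _
        rw [map_smul, smul_smul, ← Circle.coe_mul]
        have h3 : R.π a (R.π (a ^ j) u) = R.π (a ^ (j + 1)) u := by
          rw [pow_succ', map_mul]; rfl
        rw [h3]
        have h3' : (x ^ j)⁻¹ = x * (x ^ (j + 1))⁻¹ := by
          rw [pow_succ', mul_inv, mul_inv_cancel_left]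
        rw [← h3']
      rw [Finset.sum_congr rfl h2, ← Finset.smul_sum]
      congr 1
      have h4 := Finset.sum_range_succ
        (fun j => (((x ^ j)⁻¹ : Circle) : ℂ) • R.π (a ^ j) u) k.natAbs
      rw [Finset.sum_range_succ'] at h4
      have h5 : (((x ^ k.natAbs)⁻¹ : Circle) : ℂ) • R.π (a ^ k.natAbs) u =
          (((x ^ 0)⁻¹ : Circle) : ℂ) • R.π (a ^ 0) u := by
        rw [hu2, smul_smul, ← Circle.coe_mul, inv_mul_cancel]
        simp
      rw [h5] at h4
      exact add_right_cancel h4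
    · intro v hv
      rw [RepAX.mem_ker_iff] at hv
      rw [inner_sub_left, sub_eq_zero, inner_smul_left, sum_inner]
      have h6 : ∀ j ∈ Finset.range k.natAbs,
          ⟪(((x ^ j)⁻¹ : Circle) : ℂ) • R.π (a ^ j) u, v⟫_ℂ = ⟪u, v⟫_ℂ := by
        intro j _
        have h7 : (a ^ j)⁻¹ = a ^ (-(j : ℤ)) := by rw [zpow_neg, zpow_natCast]
        rw [inner_smul_left, hin, h7,
          RepAX.eig R.π a x v hv, inner_smul_right, ← mul_assoc, ← Circle.coe_inv_eq_conj,
          ← Circle.coe_mul]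
        simp
      rw [Finset.sum_congr rfl h6, Finset.sum_const, Finset.card_range, nsmul_eq_mul, ← mul_assoc]
      rw [map_inv₀, map_natCast, inv_mul_cancel₀ hN, one_mul]
  · refine Submodule.eq_starProjection_of_mem_of_inner_eq_zero (Submodule.zero_mem _) ?_
    intro v hv
    rw [RepAX.mem_ker_iff] at hv
    rw [sub_zero]
    have h1 := hin (a ^ k) u (R.π (a ^ k) v)
    have h2 : R.π (a ^ k)⁻¹ (R.π (a ^ k) v) = v := by
      have : R.π (a ^ k)⁻¹ * R.π (a ^ k) = 1 := by rw [← map_mul, inv_mul_cancel, map_one]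
      exact congrArg (fun C : Op H => C v) this
    rw [h2, hu, RepAX.eig R.π a x v hv, inner_smul_left, inner_smul_right, ← mul_assoc,
      ← Circle.coe_inv_eq_conj, ← Circle.coe_mul] at h1
    by_contra hne
    apply hx
    have h3 : ((c⁻¹ * x ^ k : Circle) : ℂ) = 1 := by
      have h4 : (((c⁻¹ * x ^ k : Circle) : ℂ) - 1) * ⟪u, v⟫_ℂ = 0 := by
        rw [sub_mul, h1, one_mul, sub_self]
      rcases mul_eq_zero.1 h4 with h5 | h5
      · exact sub_eq_zero.1 h5
      · exact absurd h5 hne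
    have h6 : c⁻¹ * x ^ k = 1 := Circle.coe_eq_one.1 h3
    exact (inv_mul_eq_one.1 h6).symm

end H

end Pool.Agent.MP9a76ab
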