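import Pool.Agent.Lib.MP_9a76ab_an.Defs2
import Pool.Agent.Lib.MP_9a76ab_an.Dens

/-! MP_9a76ab_an, module KHOM: homogeneous elements satisfy the KMS relation; the vectors
separate. -/

set_option autoImplicit false

namespace Pool.Agent.MP9a76ab

open scoped InnerProductSpace

namespace RepFX

section aux
variable {H : Type} [NormedAddCommGroup H] [InnerProductSpace ℂ H] [CompleteSpace H]

theorem proj_comm (K : Submodule ℂ H) [K.HasOrthogonalProjection] (T : Op H)
    (h1 : ∀ v ∈ K, T v ∈ K) (h2 : ∀ v ∈ K, (star T) v ∈ K) :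
    T * K.starProjection = K.starProjection * T := by
  ext v
  change T (K.starProjection v) = K.starProjection (T v)
  symm
  refine Submodule.eq_starProjection_of_mem_orthogonal
    (h1 _ (Submodule.starProjection_apply_mem _ _)) ?_
  rw [← map_sub, Submodule.mem_orthogonal]
  intro u hu
  rw [inner_op_star]
  have h3 : v - K.starProjection v ∈ Kᗮ := K.sub_starProjection_mem_orthogonal v
  exact (Submodule.mem_orthogonal K _).1 h3 _ (h2 u hu)

theorem eg_comm' {A T : Op H} (h1 : T * A = A * T) (h2 : star T * A = A * star T) (z : ℂ) :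
    T * eg A z = eg A z * T := by
  have key : ∀ S : Op H, S * A = A * S → ∀ v ∈ LinearMap.ker ((A - z • (1 : Op H) : Op H) : H →ₗ[ℂ] H),
      S v ∈ LinearMap.ker ((A - z • (1 : Op H) : Op H) : H →ₗ[ℂ] H) := by
    intro S hS v hv
    rw [LinearMap.mem_ker] at hv ⊢
    have h3 : A v - z • v = 0 := hv
    change A (S v) - z • S v = 0
    have h4 : A (S v) = S (A v) := by
      have := congrArg (fun B : Op H => B v) hS
      exact this.symm
    rw [h4, ← map_smul, ← map_sub, h3, map_zero]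
  exact proj_comm _ T (key T h1) (key _ h2)

theorem eg_sa (A : Op H) (z : ℂ) : star (eg A z) = eg A z := by
  have h := isSelfAdjoint_starProjection
    (LinearMap.ker ((A - z • (1 : Op H) : Op H) : H →ₗ[ℂ] H))
  exact h

end aux

section rep
variable {Γ V H : Type} [Group Γ] [NormedAddCommGroup H] [InnerProductSpace ℂ H] [CompleteSpace H]
  {a : Γ} {χ : V → Circle}

theorem π_mul_apply (R : TRep a χ H) (g h : Γ) (v : H) : R.π g (R.π h v) = R.π (g * h) v := by
  rw [map_mul]; rfl

theorem inner_π (R : TRep a χ H) (g : Γ) (u v : H) : ⟪u, R.π g v⟫_ℂ = ⟪R.π g⁻¹ u, v⟫_ℂ := by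
  rw [inner_op_star, R.star_π]

theorem span_of_adjoin (R : TRep a χ H) {Y : Op H}
    (hY : Y ∈ StarAlgebra.adjoin ℂ (Set.range R.π)) : Y ∈ Submodule.span ℂ (Set.range R.π) := by
  induction hY using StarAlgebra.adjoin_induction with
  | mem x hx => exact Submodule.subset_span hx
  | algebraMap r =>
    rw [Algebra.algebraMap_eq_smul_one]
    exact Submodule.smul_mem _ _ (Submodule.subset_span ⟨1, map_one _⟩)
  | add x y _ _ hx hy => exact add_mem hx hy
  | mul x y _ _ hx hy =>
    have h := Submodule.mul_mem_mul hx hy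
    rw [Submodule.span_mul_span] at h
    refine Submodule.span_mono ?_ h
    rintro z ⟨p, ⟨g, rfl⟩, q, ⟨h', rfl⟩, rfl⟩
    exact ⟨g * h', map_mul _ _ _⟩
  | star x hx0 hx =>
    clear hx0
    induction hx using Submodule.span_induction with
    | mem u hu =>
      obtain ⟨g, rfl⟩ := hu
      rw [R.star_π]
      exact Submodule.subset_span ⟨_, rfl⟩
    | zero => simp
    | add u v _ _ hu hv => rw [star_add]; exact add_mem hu hv
    | smul c u _ hu => rw [star_smul]; exact Submodule.smul_mem _ _ hu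

theorem density_pair (R : TRep a χ H) {Y : Op H} (hY : Y ∈ vNa (Set.range R.π))
    (u1 v1 u2 v2 : H) (c : ℂ) (h : ∀ g, ⟪u1, R.π g v1⟫_ℂ = c * ⟪u2, R.π g v2⟫_ℂ) :
    ⟪u1, Y v1⟫_ℂ = c * ⟪u2, Y v2⟫_ℂ := by
  classical
  have hspan : ∀ Z ∈ Submodule.span ℂ (Set.range R.π), ⟪u1, Z v1⟫_ℂ = c * ⟪u2, Z v2⟫_ℂ := by
    intro Z hZ
    induction hZ using Submodule.span_induction with
    | mem u hu => obtain ⟨g, rfl⟩ := hu; exact h g
    | zero => simp
    | add u v _ _ hu hv =>
      rw [add_apply, add_apply, inner_add_right,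
        inner_add_right, hu, hv, mul_add]
    | smul d u _ hu =>
      rw [smul_apply, smul_apply, inner_smul_right,
        inner_smul_right, hu]
      ring
  by_contra hne
  set δ : ℝ := ‖⟪u1, Y v1⟫_ℂ - c * ⟪u2, Y v2⟫_ℂ‖ with hδ
  have hδ0 : 0 < δ := norm_pos_iff.2 (sub_ne_zero.2 hne)
  set K : ℝ := ‖u1‖ + ‖c‖ * ‖u2‖ with hK
  have hK0 : 0 ≤ K := by positivity
  have hY' : Y ∈ vNa ((StarAlgebra.adjoin ℂ (Set.range R.π) : StarSubalgebra ℂ (Op H)) :
      Set (Op H)) := by
    rw [vNa_adjoin]; exact hY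
  obtain ⟨Z, hZ, hZ2⟩ := vNa_density _ hY' {v1, v2} (ε := δ / (K + 1)) (by positivity)
  have e1 := hZ2 v1 (by simp)
  have e2 := hZ2 v2 (by simp)
  have e3 := hspan Z (span_of_adjoin R hZ)
  have e4 : ⟪u1, Y v1⟫_ℂ - c * ⟪u2, Y v2⟫_ℂ =
      ⟪u1, (Y - Z) v1⟫_ℂ - c * ⟪u2, (Y - Z) v2⟫_ℂ := by
    rw [sub_apply, sub_apply, inner_sub_right,
      inner_sub_right, e3]
    ring
  have e5 : δ ≤ K * (δ / (K + 1)) := by
    rw [hδ, e4]
    refine (norm_sub_le _ _).trans ?_
    rw [norm_mul]
    have f1 : ‖⟪u1, (Y - Z) v1⟫_ℂ‖ ≤ ‖u1‖ * (δ / (K + 1)) :=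
      (norm_inner_le_norm _ _).trans (mul_le_mul_of_nonneg_left e1.le (norm_nonneg _))
    have f2 : ‖⟪u2, (Y - Z) v2⟫_ℂ‖ ≤ ‖u2‖ * (δ / (K + 1)) :=
      (norm_inner_le_norm _ _).trans (mul_le_mul_of_nonneg_left e2.le (norm_nonneg _))
    have f3 := mul_le_mul_of_nonneg_left f2 (norm_nonneg c)
    rw [hK, ← e4, ← hδ]
    rw [hK] at f1 f2 f3
    nlinarith
  have e6 : K * (δ / (K + 1)) < δ := by
    rw [mul_div_assoc', div_lt_iff₀ (by positivity)]
    nlinarith
  linarith

theorem total_ortho (R : TRep a χ H) {v : H} (h : ∀ g x, ⟪R.π g (R.ξ x), v⟫_ℂ = 0) : v = 0 := by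
  have h5 : v ∈ (Submodule.span ℂ {v | ∃ g x, v = R.π g (R.ξ x)})ᗮ := by
    rw [Submodule.mem_orthogonal]
    intro u hu
    induction hu using Submodule.span_induction with
    | mem u hu => obtain ⟨g, x, rfl⟩ := hu; exact h g x
    | zero => simp
    | add a b _ _ ha hb => rw [inner_add_left, ha, hb, add_zero]
    | smul c a _ ha => rw [inner_smul_left, ha, mul_zero]
  rw [← Submodule.orthogonal_closure, R.total] at h5
  simpa using h5

theorem total_ext (R : TRep a χ H) {X : Op H} (h : ∀ g x, X (R.π g (R.ξ x)) = 0) : X = 0 := by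
  have h1 : star X = 0 := by
    ext v
    refine total_ortho R fun g x => ?_
    rw [inner_star_op, h, inner_zero_left]
  have := congrArg star h1
  simpa using this

end rep

end RepFX

open RepFX

section H
variable {Γ H : Type} [Group Γ] [NormedAddCommGroup H] [InnerProductSpace ℂ H] [CompleteSpace H]

variable {a t : Γ} {m n : ℤ}

theorem kms_hom (hm : 2 < |m|) (hn : |m| < n)
    (R : TRep a (fun x : VT m n => x.1) H) (W : WSys (VT m n) H)
    (hWe : ∀ x, W.e x = eg (R.π a) ((x.1 : Circle) : ℂ)) (hWξ : ∀ x, W.ξ x = R.ξ x)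
    (d : Γ →* Multiplicative ℤ) (da : d a = 1)
    (hk : ∀ g, KMS W (vNa (Set.range R.π))
      (((n : ℝ) / |(m : ℝ)|) ^ (Multiplicative.toAdd (d g))) (R.π g))
    (P : ℤ → Op H) (hP : Grad R d P) (k : ℤ) (X : Op H) (hX : X ∈ vNa (Set.range R.π))
    (hXk : ∀ j, P (j + k) * X = X * P j) :
    KMS W (vNa (Set.range R.π)) (((n : ℝ) / |(m : ℝ)|) ^ k) X := by
  intro Y hY x y
  have hκ : 0 < (n : ℝ) / |(m : ℝ)| := by
    have h1 : 0 < |(m : ℝ)| := by
      have : (0 : ℤ) < |m| := by linarith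
      exact_mod_cast this
    have h2 : (0 : ℝ) < n := by
      have : (0 : ℤ) < n := by linarith
      exact_mod_cast this
    positivity
  -- the projections commute with the corners
  have hPe : ∀ j x, P j * W.e x = W.e x * P j := by
    intro j x
    rw [hWe]
    have h1 : P j * R.π a = R.π a * P j := by
      have := hP.π j a
      rw [da] at this
      simpa using this
    exact eg_comm' h1 (by rw [hP.sa]; exact h1) _
  have ap : ∀ {A B : Op H} (_ : A = B) (v : H), A v = B v := fun h v => by rw [h]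
  have hPe' : ∀ j x v, P j (W.e x v) = W.e x (P j v) := fun j x v => ap (hPe j x) v
  have hXk' : ∀ j v, P (j + k) (X v) = X (P j v) := fun j v => ap (hXk j) v
  have hPπ : ∀ j g v, P (j + Multiplicative.toAdd (d g)) (R.π g v) = R.π g (P j v) :=
    fun j g v => ap (hP.π j g) v
  have hPξ : ∀ x, P 0 (W.ξ x) = W.ξ x := fun x => by rw [hWξ]; exact hP.ξ x
  have hPin : ∀ j u v, ⟪u, P j v⟫_ℂ = ⟪P j u, v⟫_ℂ := fun j u v => by
    rw [inner_op_star, hP.sa]
  have hP0 : ∀ j k v, j ≠ k → P j (P k v) = 0 := fun j k v h => by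
    have := ap (hP.orth j k h) v
    simpa using this
  -- the general fact for group elements
  have key : ∀ g, ⟪W.e x ((star X) (W.ξ y)), R.π g (W.ξ y)⟫_ℂ =
      (((((n : ℝ) / |(m : ℝ)|) ^ k : ℝ) : ℂ)) * ⟪W.ξ x, R.π g (W.e y (X (W.ξ x)))⟫_ℂ := by
    intro g
    have e1 : ⟪W.e x ((star X) (W.ξ y)), R.π g (W.ξ y)⟫_ℂ =
        ⟪W.ξ y, X (W.e x (R.π g (W.ξ y)))⟫_ℂ := by
      rw [← W.inner_e, ← inner_op_star]
    rw [e1]
    by_cases he : Multiplicative.toAdd (d g) = -k
    · have h1 := hk g X hX y x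
      rw [h1, he, ← mul_assoc, ← Complex.ofReal_mul, ← zpow_add₀ hκ.ne', add_neg_cancel, zpow_zero,
        Complex.ofReal_one, one_mul]
    · have h1 : X (W.e x (R.π g (W.ξ y))) =
          P (Multiplicative.toAdd (d g) + k) (X (W.e x (R.π g (W.ξ y)))) := by
        rw [hXk', hPe']
        congr 2
        have := hPπ 0 g (W.ξ y)
        rw [zero_add, hPξ] at this
        exact this.symm
      have h2 : ⟪W.ξ y, X (W.e x (R.π g (W.ξ y)))⟫_ℂ = 0 := by
        rw [h1, ← hPξ y, ← hPin, hP0 0 _ _ (fun h => he (by linarith)), inner_zero_right]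
      have h3 : R.π g (W.e y (X (W.ξ x))) =
          P (k + Multiplicative.toAdd (d g)) (R.π g (W.e y (X (W.ξ x)))) := by
        rw [hPπ, hPe']
        congr 2
        have := hXk' 0 (W.ξ x)
        rw [zero_add, hPξ] at this
        exact this.symm
      have h4 : ⟪W.ξ x, R.π g (W.e y (X (W.ξ x)))⟫_ℂ = 0 := by
        rw [h3]
        nth_rw 1 [← hPξ x]
        rw [← hPin, hP0 0 _ _ (fun h => he (by linarith)), inner_zero_right]
      rw [h2, h4, mul_zero]
  have h5 := density_pair R hY _ _ _ _ _ key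
  rw [← h5, ← W.inner_e, ← inner_op_star]

theorem sep_rep (hm : 2 < |m|) (hn : |m| < n)
    (R : TRep a (fun x : VT m n => x.1) H) (W : WSys (VT m n) H)
    (hWe : ∀ x, W.e x = eg (R.π a) ((x.1 : Circle) : ℂ)) (hWξ : ∀ x, W.ξ x = R.ξ x)
    (d : Γ →* Multiplicative ℤ)
    (hk : ∀ g, KMS W (vNa (Set.range R.π))
      (((n : ℝ) / |(m : ℝ)|) ^ (Multiplicative.toAdd (d g))) (R.π g))
    (X : Op H) (hX : X ∈ vNa (Set.range R.π)) (h0 : ∀ x, X (W.ξ x) = 0) : X = 0 := by
  have hκ : 0 < (n : ℝ) / |(m : ℝ)| := by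
    have h1 : 0 < |(m : ℝ)| := by
      have : (0 : ℤ) < |m| := by linarith
      exact_mod_cast this
    have h2 : (0 : ℝ) < n := by
      have : (0 : ℤ) < n := by linarith
      exact_mod_cast this
    positivity
  refine total_ext R fun h y => ?_
  refine total_ortho R fun g y' => ?_
  by_cases hy : y' = y
  · subst hy
    set Y : Op H := R.π g⁻¹ * X with hY
    have hYM : Y ∈ vNa (Set.range R.π) := mul_mem (subset_vNa _ ⟨_, rfl⟩) hX
    have e1 : ⟪R.π g (R.ξ y'), X (R.π h (R.ξ y'))⟫_ℂ = ⟪W.ξ y', Y (R.π h (W.ξ y'))⟫_ℂ := by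
      rw [hWξ, hY]
      change _ = ⟪R.ξ y', R.π g⁻¹ (X (R.π h (R.ξ y')))⟫_ℂ
      rw [inner_π, inv_inv]
    rw [e1]
    have h1 : HasSum (fun x => ⟪W.ξ y', Y (W.e x (R.π h (W.ξ y')))⟫_ℂ)
        ⟪W.ξ y', Y (R.π h (W.ξ y'))⟫_ℂ := by
      have h2 := ((W.hasSum (R.π h (W.ξ y'))).mapL Y).mapL (innerSL ℂ (W.ξ y'))
      simpa using h2
    have h2 : ∀ x, ⟪W.ξ y', Y (W.e x (R.π h (W.ξ y')))⟫_ℂ = 0 := by
      intro x
      have h3 := hk h Y hYM y' x
      have h4 : Y (W.ξ x) = 0 := by
        rw [hY]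
        change R.π g⁻¹ (X (W.ξ x)) = 0
        rw [h0, map_zero]
      rw [h4, map_zero, map_zero, inner_zero_right] at h3
      have h5 : (((((n : ℝ) / |(m : ℝ)|) ^ (Multiplicative.toAdd (d h)) : ℝ) : ℂ)) ≠ 0 := by
        exact_mod_cast (zpow_pos hκ _).ne'
      exact (mul_eq_zero.1 h3.symm).resolve_left h5
    have h3 : HasSum (fun x => ⟪W.ξ y', Y (W.e x (R.π h (W.ξ y')))⟫_ℂ) 0 := by
      simp only [h2]
      exact hasSum_zero
    exact h1.unique h3
  · set K : Submodule ℂ H := (Submodule.span ℂ {v | ∃ g, v = R.π g (R.ξ y)}).topologicalClosure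
      with hKdef
    have : CompleteSpace K := (Submodule.isClosed_topologicalClosure _).completeSpace_coe
    have hinv : ∀ g, ∀ v ∈ K, R.π g v ∈ K := by
      intro g v hv
      have h1 : v ∈ closure (Submodule.span ℂ {v | ∃ g, v = R.π g (R.ξ y)} : Set H) := hv
      have h2 : R.π g v ∈ closure (Submodule.span ℂ {v | ∃ g, v = R.π g (R.ξ y)} : Set H) := by
        refine map_mem_closure (R.π g).continuous h1 ?_
        intro z hz
        have hz' : z ∈ Submodule.span ℂ {v | ∃ g, v = R.π g (R.ξ y)} := hz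
        change R.π g z ∈ Submodule.span ℂ {v | ∃ g, v = R.π g (R.ξ y)}
        induction hz' using Submodule.span_induction with
        | mem u hu =>
          obtain ⟨g', rfl⟩ := hu
          rw [π_mul_apply]
          exact Submodule.subset_span ⟨_, rfl⟩
        | zero => simp
        | add u v _ _ hu hv => rw [map_add]; exact add_mem (hu (by assumption)) (hv (by assumption))
        | smul c u _ hu => rw [map_smul]; exact Submodule.smul_mem _ _ (hu (by assumption))
      exact h2
    have hcomm : K.starProjection * X = X * K.starProjection := by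
      refine vNa_commute hX ?_
      rintro s ⟨g, rfl⟩
      rw [R.star_π]
      have hA : ∀ g, R.π g * K.starProjection = K.starProjection * R.π g := fun g =>
        proj_comm K (R.π g) (hinv g) (by rw [R.star_π]; exact hinv _)
      exact ⟨hA _, hA _⟩
    have hmem : R.π h (R.ξ y) ∈ K :=
      Submodule.le_topologicalClosure _ (Submodule.subset_span ⟨h, rfl⟩)
    have e1 : X (R.π h (R.ξ y)) = K.starProjection (X (R.π h (R.ξ y))) := by
      have e2 := congrArg (fun B : Op H => B (R.π h (R.ξ y))) hcomm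
      change K.starProjection (X (R.π h (R.ξ y))) = X (K.starProjection (R.π h (R.ξ y))) at e2
      rw [Submodule.starProjection_eq_self_iff.2 hmem] at e2
      exact e2.symm
    have hort : R.π g (R.ξ y') ∈ Kᗮ := by
      rw [hKdef, Submodule.orthogonal_closure, Submodule.mem_orthogonal]
      intro u hu
      induction hu using Submodule.span_induction with
      | mem u hu =>
        obtain ⟨g', rfl⟩ := hu
        rw [inner_π, π_mul_apply]
        have h6 := R.orth (g⁻¹ * g') y' y (Or.inr hy)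
        rw [← inner_conj_symm, h6, map_zero]
      | zero => simp
      | add a b _ _ ha hb => rw [inner_add_left, ha, hb, add_zero]
      | smul c a _ ha => rw [inner_smul_left, ha, mul_zero]
    rw [e1]
    exact Submodule.inner_left_of_mem_orthogonal (Submodule.starProjection_apply_mem _ _) hort

end H

end Pool.Agent.MP9a76ab
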