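import Pool.Agent.Lib.MP_9a76ab_an.Defs2
import Pool.Agent.Lib.MP_9a76ab_an.CircA
import Pool.Agent.Lib.MP_9a76ab_an.RepA
import Pool.Agent.Lib.MP_9a76ab_an.RepF

/-! MP_9a76ab_an, module WSYS: the eigenprojections form a partition of unity. -/

set_option autoImplicit false

namespace Pool.Agent.MP9a76ab

open scoped InnerProductSpace

namespace RepBX

/-- a primitive root in the circle -/
theorem exists_prim (N : ℕ) (hN : N ≠ 0) : ∃ ζ : Circle, ζ ^ N = 1 ∧ ∀ j, 0 < j → j < N → ζ ^ j ≠ 1 := by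
  have h := Complex.isPrimitiveRoot_exp N hN
  refine ⟨Circle.exp (2 * Real.pi / N), ?_, ?_⟩
  · apply Circle.ext
    rw [Circle.coe_pow, Circle.coe_exp, Circle.coe_one]
    have h1 := h.pow_eq_one
    rw [← h1]
    congr 2
    push_cast
    ring
  · intro j hj hjN hc
    have h2 := congrArg (fun z : Circle => (z : ℂ)) hc
    simp only [Circle.coe_pow, Circle.coe_exp, Circle.coe_one] at h2
    refine h.pow_ne_one_of_pos_of_lt (by omega) hjN ?_
    rw [← h2]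
    congr 2
    push_cast
    ring

theorem sum_roots {k : ℤ} (hk : k ≠ 0) (c : Circle) (F : Finset Circle)
    (hF : ∀ x, x ∈ F ↔ x ^ k = c) (j : ℕ) (hj : 0 < j) (hj2 : j < k.natAbs) :
    ∑ x ∈ F, (((x ^ j)⁻¹ : Circle) : ℂ) = 0 := by
  obtain ⟨ζ, h1, h2⟩ := exists_prim k.natAbs (Int.natAbs_ne_zero.2 hk)
  have hζ : ζ ^ k = 1 := by
    rw [← pow_natAbs_eq_one]; exact h1
  have h3 : ∑ x ∈ F, (((x ^ j)⁻¹ : Circle) : ℂ) = ∑ x ∈ F, ((((ζ * x) ^ j)⁻¹ : Circle) : ℂ) := by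
    refine (Finset.sum_bij (fun x _ => ζ * x) ?_ ?_ ?_ ?_).symm
    · intro x hx
      rw [hF] at hx ⊢
      rw [mul_zpow, hζ, one_mul, hx]
    · intro x _ y _ h
      exact mul_left_cancel h
    · intro x hx
      refine ⟨ζ⁻¹ * x, ?_, by simp⟩
      rw [hF] at hx ⊢
      rw [mul_zpow, inv_zpow, hζ, inv_one, one_mul, hx]
    · intro x _
      rfl
  have h4 : ∑ x ∈ F, ((((ζ * x) ^ j)⁻¹ : Circle) : ℂ) =
      (((ζ ^ j)⁻¹ : Circle) : ℂ) * ∑ x ∈ F, (((x ^ j)⁻¹ : Circle) : ℂ) := by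
    rw [Finset.mul_sum]
    refine Finset.sum_congr rfl fun x _ => ?_
    rw [← Circle.coe_mul, mul_pow, mul_inv]
  rw [h4] at h3
  have h5 : ((((ζ ^ j)⁻¹ : Circle) : ℂ) - 1) * ∑ x ∈ F, (((x ^ j)⁻¹ : Circle) : ℂ) = 0 := by
    rw [sub_mul, one_mul, ← h3, sub_self]
  rcases mul_eq_zero.1 h5 with h6 | h6
  · exfalso
    apply h2 j hj hj2
    have h7 : (ζ ^ j)⁻¹ = 1 := Circle.coe_eq_one.1 (sub_eq_zero.1 h6)
    exact inv_eq_one.1 h7
  · exact h6

variable {Γ V H : Type} [Group Γ] [NormedAddCommGroup H] [InnerProductSpace ℂ H] [CompleteSpace H]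
  {a t : Γ} {χ : V → Circle}

theorem sum_eg (R : TRep a χ H) {k : ℤ} (hk : k ≠ 0) (c : Circle) {u : H}
    (hu : R.π (a ^ k) u = (c : ℂ) • u) (F : Finset Circle) (hF : ∀ x, x ∈ F ↔ x ^ k = c) :
    ∑ x ∈ F, eg (R.π a) (x : ℂ) u = u := by
  have hN : ((k.natAbs : ℕ) : ℂ) ≠ 0 := by
    rw [Ne, Nat.cast_eq_zero, Int.natAbs_eq_zero]; exact hk
  have hcard : F.card = k.natAbs := by
    rw [← (circle_roots k hk c).2, ← Set.ncard_coe_finset]
    congr 1
    ext x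
    exact hF x
  rw [Finset.sum_congr rfl fun x hx => (eg_apply R hk c x hu).1 ((hF x).1 hx), ← Finset.smul_sum,
    Finset.sum_comm]
  rw [Finset.sum_eq_single 0]
  · have h0 : ∑ x ∈ F, (((x ^ 0)⁻¹ : Circle) : ℂ) = ((k.natAbs : ℕ) : ℂ) := by
      simp only [pow_zero, inv_one, Circle.coe_one, Finset.sum_const, hcard, nsmul_eq_mul, mul_one]
    rw [← Finset.sum_smul, h0, smul_smul, inv_mul_cancel₀ hN, one_smul, pow_zero, map_one]
    rfl
  · intro j hj hj0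
    rw [← Finset.sum_smul, sum_roots hk c F hF j (Nat.pos_of_ne_zero hj0) (Finset.mem_range.1 hj),
      zero_smul]
  · intro h
    exfalso
    apply h
    rw [Finset.mem_range]
    exact Int.natAbs_pos.2 hk

theorem eg_mem (A : Op H) (z : ℂ) (v : H) : A (eg A z v) = z • eg A z v :=
  (RepAX.mem_ker_iff A z _).1 (Submodule.starProjection_apply_mem _ v)

theorem eg_self {A : Op H} {z : ℂ} {v : H} (h : A v = z • v) : eg A z v = v :=
  Submodule.starProjection_eq_self_iff.2 ((RepAX.mem_ker_iff A z v).2 h)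

theorem eg_idem (A : Op H) (z : ℂ) : eg A z * eg A z = eg A z := by
  ext v
  exact eg_self (eg_mem A z v)

theorem inner_eg (A : Op H) (z : ℂ) (u v : H) : ⟪u, eg A z v⟫_ℂ = ⟪eg A z u, v⟫_ℂ := by
  rw [inner_op_star, RepFX.eg_sa]

theorem eg_orth (R : TRep a χ H) {x y : Circle} (h : x ≠ y) :
    eg (R.π a) (x : ℂ) * eg (R.π a) (y : ℂ) = 0 := by
  ext v
  change eg (R.π a) (x : ℂ) (eg (R.π a) (y : ℂ) v) = 0
  set w := eg (R.π a) (y : ℂ) v with hw
  have hw1 : R.π a w = (y : ℂ) • w := eg_mem _ _ _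
  set u := eg (R.π a) (x : ℂ) w with hu
  have hu1 : R.π a u = (x : ℂ) • u := eg_mem _ _ _
  have h1 : ⟪u, w⟫_ℂ = ⟪R.π a u, R.π a w⟫_ℂ := by
    rw [RepFX.inner_π, RepFX.π_mul_apply, inv_mul_cancel, map_one]; rfl
  rw [hu1, hw1, inner_smul_left, inner_smul_right, ← Circle.coe_inv_eq_conj, ← mul_assoc,
    ← Circle.coe_mul] at h1
  have h2 : ⟪u, w⟫_ℂ = 0 := by
    by_contra hne
    apply h
    have h4 : (((x⁻¹ * y : Circle) : ℂ) - 1) * ⟪u, w⟫_ℂ = 0 := by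
      rw [sub_mul, ← h1, one_mul, sub_self]
    rcases mul_eq_zero.1 h4 with h5 | h5
    · exact (inv_mul_eq_one.1 (Circle.coe_eq_one.1 (sub_eq_zero.1 h5)))
    · exact absurd h5 hne
  have h4 : eg (R.π a) (x : ℂ) u = u := eg_self hu1
  have h3 : ⟪u, u⟫_ℂ = 0 := by
    calc ⟪u, u⟫_ℂ = ⟪u, eg (R.π a) (x : ℂ) w⟫_ℂ := by rw [← hu]
      _ = 0 := by rw [inner_eg, h4, h2]
  exact inner_self_eq_zero.1 h3

/-- the relation, in the form used for `π t` -/
theorem rel_up {m n : ℤ} (hrel : t * a ^ m * t⁻¹ = a ^ n) : a ^ n * t = t * a ^ m := by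
  rw [← hrel]; group

theorem rel_down {m n : ℤ} (hrel : t * a ^ m * t⁻¹ = a ^ n) : a ^ m * t⁻¹ = t⁻¹ * a ^ n := by
  rw [← hrel]; group

theorem move (R : TRep a χ H) {g : Γ} {k l : ℤ} (h : a ^ k * g = g * a ^ l) {c : Circle} {u : H}
    (hu : R.π (a ^ l) u = (c : ℂ) • u) : R.π (a ^ k) (R.π g u) = (c : ℂ) • R.π g u := by
  rw [RepFX.π_mul_apply, h, ← RepFX.π_mul_apply, hu, map_smul]

/-- the vectors killed by all eigenprojections of vertices -/
def Nul {m n : ℤ} (R : TRep a (fun x : VT m n => x.1) H) (w : H) : Prop :=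
  ∀ x : VT m n, eg (R.π a) ((x.1 : Circle) : ℂ) w = 0

theorem nul_inner {m n : ℤ} {R : TRep a (fun x : VT m n => x.1) H} {w : H} (hw : Nul R w)
    (y : Circle) (hy : VSet m n y) {g : Γ} {k l : ℤ} (hk : k ≠ 0) (h : a ^ k * g = g * a ^ l)
    (hV : ∀ x : Circle, x ^ k = y ^ l → VSet m n x) :
    eg (R.π a) (y : ℂ) (R.π g⁻¹ w) = 0 := by
  set u := eg (R.π a) (y : ℂ) (R.π g⁻¹ w) with hu
  have hu1 : R.π a u = (y : ℂ) • u := eg_mem _ _ _
  have hu2 : R.π (a ^ l) u = ((y ^ l : Circle) : ℂ) • u := RepAX.eig R.π a y u hu1 l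
  have hu3 := move R h hu2
  have hfin := (circle_roots k hk (y ^ l)).1
  have hs := sum_eg R hk (y ^ l) hu3 hfin.toFinset (fun x => by simp)
  have h4 : eg (R.π a) (y : ℂ) u = u := eg_self hu1
  have h5 : ⟪u, u⟫_ℂ = 0 := by
    calc ⟪u, u⟫_ℂ = ⟪u, eg (R.π a) (y : ℂ) (R.π g⁻¹ w)⟫_ℂ := by rw [← hu]
      _ = ⟪R.π g u, w⟫_ℂ := by rw [inner_eg, h4, RepFX.inner_π, inv_inv]
      _ = 0 := by
        rw [← hs, sum_inner]
        refine Finset.sum_eq_zero fun x hx => ?_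
        have hx' : x ^ k = y ^ l := by simpa using hx
        rw [← inner_eg, hw ⟨x, hV x hx'⟩, inner_zero_right]
  exact inner_self_eq_zero.1 h5

theorem nul_all {m n : ℤ} (hB : IsBS a t m n) (hm : m ≠ 0) (hn : n ≠ 0)
    {R : TRep a (fun x : VT m n => x.1) H} (g : Γ) : ∀ w, Nul R w → Nul R (R.π g w) := by
  have hg : g ∈ Subgroup.closure {a, t} := by rw [hB.gen]; trivial
  have hcomm : ∀ (k : ℤ) (w : H), Nul R w → Nul R (R.π (a ^ k) w) := by
    intro k w hw x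
    have h1 : ∀ k : ℤ, R.π (a ^ k) * R.π a = R.π a * R.π (a ^ k) := fun k => by
      rw [← map_mul, ← map_mul]
      congr 1
      rw [← zpow_add_one, ← zpow_one_add, add_comm]
    have h2 := eg_comm (h1 k) (by rw [R.star_π, ← zpow_neg]; exact h1 _) ((x.1 : Circle) : ℂ)
    have h3 := congrArg (fun A : Op H => A w) h2
    change R.π (a ^ k) (eg (R.π a) ((x.1 : Circle) : ℂ) w) =
      eg (R.π a) ((x.1 : Circle) : ℂ) (R.π (a ^ k) w) at h3
    rw [← h3, hw x, map_zero]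
  induction hg using Subgroup.closure_induction'' with
  | mem x hx =>
    intro w hw
    rcases hx with rfl | hx
    · simpa using hcomm 1 w hw
    · rw [Set.mem_singleton_iff] at hx
      subst hx
      intro y
      have h1 := nul_inner hw y.1 y.2 (g := x⁻¹) hm (rel_down hB.rel)
        (fun z hz => VSet.down y.1 z y.2 hz)
      rwa [inv_inv] at h1
  | inv_mem x hx =>
    intro w hw
    rcases hx with rfl | hx
    · simpa using hcomm (-1) w hw
    · rw [Set.mem_singleton_iff] at hx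
      subst hx
      intro y
      exact nul_inner hw y.1 y.2 (g := x) hn (rel_up hB.rel)
        (fun z hz => VSet.up y.1 z y.2 hz)
  | one => intro w hw; simpa using hw
  | mul x y _ _ ihx ihy =>
    intro w hw
    rw [← RepFX.π_mul_apply]
    exact ihx _ (ihy _ hw)

theorem nul_zero {m n : ℤ} (hB : IsBS a t m n) (hm : m ≠ 0) (hn : n ≠ 0)
    {R : TRep a (fun x : VT m n => x.1) H} {w : H} (hw : Nul R w) : w = 0 := by
  refine RepFX.total_ortho R fun g x => ?_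
  have h1 : ⟪R.π g (R.ξ x), w⟫_ℂ = ⟪R.ξ x, R.π g⁻¹ w⟫_ℂ := by rw [RepFX.inner_π, inv_inv]
  have h2 : eg (R.π a) ((x.1 : Circle) : ℂ) (R.ξ x) = R.ξ x := eg_self (R.π_a x)
  rw [h1, ← h2, ← inner_eg, nul_all hB hm hn g⁻¹ w hw x, inner_zero_right]

theorem eF_eig {m n : ℤ} (R : TRep a (fun x : VT m n => x.1) H) (W : WSys (VT m n) H)
    (hWe : ∀ x, W.e x = eg (R.π a) ((x.1 : Circle) : ℂ)) {k : ℤ} (c : Circle)
    (G : Finset (VT m n)) (hG : ∀ x ∈ G, x.1 ^ k = c) (v : H) :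
    R.π (a ^ k) (W.eF G v) = (c : ℂ) • W.eF G v := by
  have h1 : W.eF G v = ∑ x ∈ G, W.e x v := by simp [WSys.eF]
  rw [h1, map_sum, Finset.smul_sum]
  refine Finset.sum_congr rfl fun x hx => ?_
  rw [hWe, RepAX.eig R.π a x.1 _ (eg_mem _ _ _) k, hG x hx]

theorem eF_fix {m n : ℤ} (R : TRep a (fun x : VT m n => x.1) H) (W : WSys (VT m n) H)
    (hWe : ∀ x, W.e x = eg (R.π a) ((x.1 : Circle) : ℂ)) {k : ℤ} (hk : k ≠ 0) (c : Circle)
    (G : Finset (VT m n)) (hG : ∀ x, x ∈ G ↔ x.1 ^ k = c)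
    (hV : ∀ y : Circle, y ^ k = c → VSet m n y) {w : H} (hw : R.π (a ^ k) w = (c : ℂ) • w) :
    W.eF G w = w := by
  have h1 : W.eF G w = ∑ x ∈ G, W.e x w := by simp [WSys.eF]
  have h2 := sum_eg R hk c hw (G.map ⟨fun x : VT m n => x.1, fun x y h => Subtype.ext h⟩) (by
    intro y
    rw [Finset.mem_map]
    constructor
    · rintro ⟨x, hx, rfl⟩
      exact (hG x).1 hx
    · intro hy
      exact ⟨⟨y, hV y hy⟩, (hG _).2 hy, rfl⟩)
  rw [Finset.sum_map] at h2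
  rw [h1]
  rw [Finset.sum_congr rfl fun x _ => by rw [hWe]]
  exact h2

end RepBX

open RepBX

section H
variable {Γ H : Type} [Group Γ] [NormedAddCommGroup H] [InnerProductSpace ℂ H] [CompleteSpace H]

variable {a t : Γ} {m n : ℤ}

theorem exists_WSys (hB : IsBS a t m n) (hm : 2 < |m|) (hn : |m| < n)
    (R : TRep a (fun x : VT m n => x.1) H) :
    ∃ W : WSys (VT m n) H, (∀ x, W.e x = eg (R.π a) ((x.1 : Circle) : ℂ)) ∧
      (∀ x, W.ξ x = R.ξ x) := by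
  have hm0 : m ≠ 0 := by
    rintro rfl
    simp at hm
  have hn0 : n ≠ 0 := by
    intro h
    have := abs_nonneg m
    omega
  refine ⟨{ e := fun x => eg (R.π a) ((x.1 : Circle) : ℂ)
            ξ := R.ξ
            idem := fun x => eg_idem _ _
            sa := fun x => RepFX.eg_sa _ _
            orth := fun x y h => eg_orth R (fun h2 => h (Subtype.ext h2))
            total := fun v hv => nul_zero hB hm0 hn0 hv
            eξ := fun x => eg_self (R.π_a x)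
            norm_ξ := R.norm_ξ }, fun _ => rfl, fun _ => rfl⟩

theorem pi_t_e (hB : IsBS a t m n) (hm : 2 < |m|) (hn : |m| < n)
    (R : TRep a (fun x : VT m n => x.1) H) (W : WSys (VT m n) H)
    (hWe : ∀ x, W.e x = eg (R.π a) ((x.1 : Circle) : ℂ)) (S T : BT m n → Finset (VT m n))
    (hS : ∀ χ x, x ∈ S χ ↔ x.1 ^ m = χ.1) (hT : ∀ χ x, x ∈ T χ ↔ x.1 ^ n = χ.1) (χ : BT m n) :
    R.π t * W.eF (S χ) = W.eF (T χ) * R.π t := by
  have hm0 : m ≠ 0 := by
    rintro rfl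
    simp at hm
  have hn0 : n ≠ 0 := by
    intro h
    have := abs_nonneg m
    omega
  obtain ⟨x0, hx0, hx1⟩ := χ.2
  have e1 : W.eF (T χ) * (R.π t * W.eF (S χ)) = R.π t * W.eF (S χ) := by
    ext v
    refine eF_fix R W hWe hn0 χ.1 (T χ) (hT χ) (fun y hy => VSet.up x0 y hx0 (by rw [hy, hx1]))
      (w := R.π t (W.eF (S χ) v)) ?_
    exact move R (rel_up hB.rel) (eF_eig R W hWe χ.1 (S χ) (fun x hx => (hS χ x).1 hx) v)
  have e2 : W.eF (S χ) * (R.π t⁻¹ * W.eF (T χ)) = R.π t⁻¹ * W.eF (T χ) := by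
    ext v
    refine eF_fix R W hWe hm0 χ.1 (S χ) (hS χ) (fun y hy => vset_S hn0 hx0 (by rw [hy, hx1]))
      (w := R.π t⁻¹ (W.eF (T χ) v)) ?_
    exact move R (rel_down hB.rel) (eF_eig R W hWe χ.1 (T χ) (fun x hx => (hT χ x).1 hx) v)
  have e3 := congrArg star e2
  rw [star_mul, star_mul, W.eF_sa, W.eF_sa, R.star_π, inv_inv] at e3
  rw [← e1, ← mul_assoc, e3]

end H

end Pool.Agent.MP9a76ab
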