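import Pool.Agent.Lib.MP_9a76ab_an.Defs2

/-! MP_9a76ab_an: the grading of the representation, and the algebra generated by it. -/

set_option autoImplicit false

namespace Pool.Agent.MP9a76ab

open scoped InnerProductSpace

namespace RepCX

variable {Γ H : Type} [Group Γ] [NormedAddCommGroup H] [InnerProductSpace ℂ H] [CompleteSpace H]

/-- the homogeneous subspaces -/
def KK {V : Type} {a : Γ} {χ : V → Circle} (R : TRep a χ H) (d : Γ →* Multiplicative ℤ) (j : ℤ) :
    Submodule ℂ H :=
  (Submodule.span ℂ {v | ∃ g x, Multiplicative.toAdd (d g) = j ∧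
    v = R.π g (R.ξ x)}).topologicalClosure

instance {V : Type} {a : Γ} {χ : V → Circle} (R : TRep a χ H) (d : Γ →* Multiplicative ℤ)
    (j : ℤ) : CompleteSpace (KK R d j) :=
  (Submodule.isClosed_topologicalClosure _).completeSpace_coe

variable {V : Type} {a : Γ} {χ : V → Circle} (R : TRep a χ H) (d : Γ →* Multiplicative ℤ)

theorem map_KK (g : Γ) {j k : ℤ} (hk : k = j + Multiplicative.toAdd (d g)) {v : H}
    (hv : v ∈ KK R d j) : R.π g v ∈ KK R d k := by
  have h1 : KK R d j ≤ (KK R d k).comap (R.π g : H →ₗ[ℂ] H) := by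
    apply Submodule.topologicalClosure_minimal
    · rw [Submodule.span_le]
      rintro _ ⟨h, x, hh, rfl⟩
      show R.π g (R.π h (R.ξ x)) ∈ KK R d k
      apply Submodule.le_topologicalClosure
      apply Submodule.subset_span
      refine ⟨g * h, x, ?_, ?_⟩
      · rw [map_mul, toAdd_mul, hh, hk, add_comm]
      · rw [map_mul]; rfl
    · have hc : IsClosed ((KK R d k : Submodule ℂ H) : Set H) :=
        Submodule.isClosed_topologicalClosure _
      exact hc.preimage (R.π g).continuous
  exact h1 hv

theorem orth_KK (hd : d a = 1) {j k : ℤ} (hjk : j ≠ k) : KK R d j ⟂ KK R d k := by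
  have key : ∀ g x h y, Multiplicative.toAdd (d g) = j → Multiplicative.toAdd (d h) = k →
      ⟪R.π g (R.ξ x), R.π h (R.ξ y)⟫_ℂ = 0 := by
    intro g x h y hg hh
    rw [← star_star (R.π g), ← inner_op_star (A := star (R.π g)), R.star_π]
    have h1 : R.π g⁻¹ (R.π h (R.ξ y)) = R.π (g⁻¹ * h) (R.ξ y) := by rw [map_mul]; rfl
    rw [h1]
    apply R.orth
    left
    intro hm
    obtain ⟨r, hr⟩ := Subgroup.mem_zpowers_iff.1 hm
    have h2 := congrArg d hr
    rw [map_zpow, hd, one_zpow, map_mul, map_inv] at h2
    apply hjk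
    have h3 : d g = d h := by
      exact (inv_mul_eq_one.1 h2.symm)
    rw [← hg, ← hh, h3]
  unfold KK
  rw [Submodule.isOrtho_iff_le, Submodule.orthogonal_closure]
  apply Submodule.topologicalClosure_minimal
  · rw [← Submodule.isOrtho_iff_le, Submodule.isOrtho_span]
    rintro _ ⟨g, x, hg, rfl⟩ _ ⟨h, y, hh, rfl⟩
    exact key g x h y hg hh
  · exact Submodule.isClosed_orthogonal _

theorem comm_proj {K : Submodule ℂ H} [K.HasOrthogonalProjection] {T : Op H}
    (h1 : ∀ v ∈ K, T v ∈ K) (h2 : ∀ v ∈ K, star T v ∈ K) :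
    T * K.starProjection = K.starProjection * T := by
  ext v
  show T (K.starProjection v) = K.starProjection (T v)
  symm
  apply Submodule.eq_starProjection_of_mem_of_inner_eq_zero
  · exact h1 _ (Submodule.starProjection_apply_mem _ _)
  · intro w hw
    rw [← map_sub, ← star_star T, ← inner_star_op, star_star]
    exact Submodule.starProjection_inner_eq_zero _ _ (h2 w hw)

theorem eg_comm {A T : Op H} (h1 : T * A = A * T) (h2 : star T * A = A * star T) (z : ℂ) :
    T * eg A z = eg A z * T := by
  have key : ∀ S : Op H, S * A = A * S →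
      ∀ v ∈ LinearMap.ker ((A - z • (1 : Op H) : Op H) : H →ₗ[ℂ] H),
        S v ∈ LinearMap.ker ((A - z • (1 : Op H) : Op H) : H →ₗ[ℂ] H) := by
    intro S hS v hv
    rw [LinearMap.mem_ker] at hv ⊢
    have h3 : (A - z • (1 : Op H)) v = 0 := hv
    show (A - z • (1 : Op H)) (S v) = 0
    have h4 : (A - z • (1 : Op H)) * S = S * (A - z • (1 : Op H)) := by
      rw [sub_mul, mul_sub, hS]; simp
    have h5 := congrArg (fun B : Op H => B v) h4
    have h6 : (A - z • (1 : Op H)) (S v) = S ((A - z • (1 : Op H)) v) := h5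
    rw [h6, h3, map_zero]
  exact comm_proj (key T h1) (key (star T) h2)

theorem eg_mem (A : Op H) (z : ℂ) (v : H) : A (eg A z v) = z • eg A z v := by
  have h1 : eg A z v ∈ LinearMap.ker ((A - z • (1 : Op H) : Op H) : H →ₗ[ℂ] H) :=
    Submodule.starProjection_apply_mem _ _
  have h2 : (A - z • (1 : Op H)) (eg A z v) = 0 := h1
  have h3 : A (eg A z v) - z • eg A z v = 0 := h2
  exact sub_eq_zero.1 h3

end RepCX

section H
variable {Γ H : Type} [Group Γ] [NormedAddCommGroup H] [InnerProductSpace ℂ H] [CompleteSpace H]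
variable {a t : Γ} {m n : ℤ}

open RepCX in
theorem exists_grad {V : Type} {χ : V → Circle} (R : TRep a χ H) (d : Γ →* Multiplicative ℤ)
    (hd : d a = 1) : ∃ P : ℤ → Op H, Grad R d P := by
  refine ⟨fun j => (KK R d j).starProjection, ?_, ?_, ?_, ?_, ?_⟩
  · intro j
    exact (KK R d j).isIdempotentElem_starProjection
  · intro j
    exact (isSelfAdjoint_starProjection (KK R d j)).star_eq
  · intro j k hjk
    exact (orth_KK R d hd hjk).starProjection_comp_starProjection
  · intro x
    apply Submodule.starProjection_eq_self_iff.2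
    apply Submodule.le_topologicalClosure
    apply Submodule.subset_span
    refine ⟨1, x, by simp, by simp⟩
  · intro j g
    ext v
    show (KK R d (j + Multiplicative.toAdd (d g))).starProjection (R.π g v) =
      R.π g ((KK R d j).starProjection v)
    apply Submodule.eq_starProjection_of_mem_of_inner_eq_zero
    · exact map_KK R d g rfl (Submodule.starProjection_apply_mem _ _)
    · intro w hw
      rw [← map_sub, ← star_star (R.π g), ← inner_star_op, star_star, R.star_π]
      apply Submodule.starProjection_inner_eq_zero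
      exact map_KK R d g⁻¹ (by simp) hw

open RepCX in
theorem vNa_eq_rep (hB : IsBS a t m n) (R : TRep a (fun x : VT m n => x.1) H)
    (W : WSys (VT m n) H) (hWe : ∀ x, W.e x = eg (R.π a) ((x.1 : Circle) : ℂ)) :
    vNa (Set.range W.e ∪ {R.π t}) = vNa (Set.range R.π) := by
  apply vNa_eq
  · rintro _ (⟨x, rfl⟩ | h)
    · rw [SetLike.mem_coe, mem_vNa_iff]
      intro T hT
      have h1 := hT (R.π a) ⟨a, rfl⟩
      rw [hWe]
      apply eg_comm h1.1.symm
      have h2 := congrArg star h1.2
      rw [star_mul, star_mul, star_star] at h2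
      exact h2
    · rw [Set.mem_singleton_iff] at h
      rw [h]
      exact subset_vNa _ ⟨t, rfl⟩
  · have ha : R.π a ∈ vNa (Set.range W.e ∪ {R.π t}) := by
      rw [mem_vNa_iff]
      intro T hT
      have h1 : ∀ x, W.e x * T = T * W.e x := fun x => (hT _ (Or.inl ⟨x, rfl⟩)).1
      have h2 : ∀ x v, R.π a (W.e x v) = ((x.1 : Circle) : ℂ) • W.e x v := by
        intro x v
        rw [hWe]; exact eg_mem _ _ _
      ext v
      have h3 := ((W.hasSum v).mapL (R.π a)).mapL T
      have h4 := (W.hasSum (T v)).mapL (R.π a)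
      have h7 : (fun x => T (R.π a (W.e x v))) = fun x => R.π a (W.e x (T v)) := by
        funext x
        have h5 := congrArg (fun B : Op H => B v) (h1 x)
        have h6 : W.e x (T v) = T (W.e x v) := h5
        rw [h2, h2, map_smul, h6]
      show T (R.π a v) = R.π a (T v)
      exact h3.unique (h7 ▸ h4)
    have ht : R.π t ∈ vNa (Set.range W.e ∪ {R.π t}) := subset_vNa _ (Or.inr rfl)
    rintro _ ⟨g, rfl⟩
    have hg : g ∈ Subgroup.closure {a, t} := by rw [hB.gen]; trivial
    rw [SetLike.mem_coe]
    induction hg using Subgroup.closure_induction with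
    | mem x hx =>
      rcases hx with rfl | hx
      · exact ha
      · rw [Set.mem_singleton_iff] at hx
        rw [hx]; exact ht
    | one => rw [map_one]; exact one_mem _
    | mul x y _ _ hx hy => rw [map_mul]; exact mul_mem hx hy
    | inv x _ hx => rw [← R.star_π]; exact star_mem hx

end H

end Pool.Agent.MP9a76ab
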