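import Pool.Agent.Lib.MP_9a76ab_an.CircA
import Pool.Agent.Lib.MP_9a76ab_an.RepA
import Pool.Agent.Lib.MP_9a76ab_an.Defs2

/-! The base letters are free (Britton). -/

set_option autoImplicit false

namespace Pool.Agent.MP9a76ab

open scoped InnerProductSpace

namespace RepDX

section ws
variable {V H : Type} [NormedAddCommGroup H] [InnerProductSpace ℂ H] [CompleteSpace H]
  (W : WSys V H)

/-- Elements of the diagonal algebra commute with everything in the corners. -/
theorem corner_comm {b : Op H} (hb : b ∈ vNa (Set.range W.e)) (x : V) (T : Op H) :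
    (W.e x * T * W.e x) * b = b * (W.e x * T * W.e x) := by
  classical
  refine vNa_commute hb ?_
  rintro _ ⟨y, rfl⟩
  rw [W.sa]
  have key : W.e y * (W.e x * T * W.e x) = (W.e x * T * W.e x) * W.e y := by
    rw [← mul_assoc, ← mul_assoc, W.e_mul_e, mul_assoc (W.e x * T) (W.e x) (W.e y), W.e_mul_e]
    by_cases h : y = x
    · rw [if_pos h, if_pos h.symm, h]
    · rw [if_neg h, if_neg (Ne.symm h)]
      simp
  exact ⟨key, key⟩

theorem b_e {b : Op H} (hb : b ∈ vNa (Set.range W.e)) (x : V) (u : H) :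
    b (W.e x u) = W.φ x b • W.e x u := by
  have h1 := corner_comm W hb x ((innerSL ℂ (W.ξ x)).smulRight u)
  have h2 := congrArg (fun A : Op H => A (W.ξ x)) h1
  simp only [mul_apply_eq_comp, W.eξ, ContinuousLinearMap.smulRight_apply,
    innerSL_apply_apply, W.inner_ξ_self, one_smul] at h2
  rw [← h2, W.inner_e, W.eξ, map_smul, W.φ_apply]

theorem e_b {b : Op H} (hb : b ∈ vNa (Set.range W.e)) (x : V) (u : H) :
    W.e x (b u) = W.φ x b • W.e x u := by
  have h1 := corner_comm W hb x 1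
  rw [mul_one, W.idem] at h1
  have h2 := congrArg (fun A : Op H => A u) h1
  simp only [mul_apply_eq_comp] at h2
  rw [h2, b_e W hb]

theorem b_ξ {b : Op H} (hb : b ∈ vNa (Set.range W.e)) (x : V) :
    b (W.ξ x) = W.φ x b • W.ξ x := by
  have := b_e W hb x (W.ξ x)
  rwa [W.eξ] at this

theorem inner_b {b : Op H} (hb : b ∈ vNa (Set.range W.e)) (x : V) (v : H) :
    ⟪W.ξ x, b v⟫_ℂ = W.φ x b * ⟪W.ξ x, v⟫_ℂ := by
  have h1 : ⟪W.ξ x, b v⟫_ℂ = ⟪W.ξ x, W.e x (b v)⟫_ℂ := by rw [W.inner_e, W.eξ]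
  rw [h1, e_b W hb, inner_smul_right, W.inner_e, W.eξ]

theorem eF_b {b : Op H} (hb : b ∈ vNa (Set.range W.e)) (F : Finset V) (v : H) :
    W.eF F (b v) = ∑ x ∈ F, W.φ x b • W.e x v := by
  have h1 : W.eF F (b v) = ∑ x ∈ F, W.e x (b v) := by
    simp [WSys.eF]
  rw [h1]
  exact Finset.sum_congr rfl fun x _ => e_b W hb x v

end ws

section rep
variable {Γ H V : Type} [Group Γ] [NormedAddCommGroup H] [InnerProductSpace ℂ H] [CompleteSpace H]
variable {a : Γ} {χ : V → Circle} (R : TRep a χ H)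

theorem π_mul (g h : Γ) (v : H) : R.π (g * h) v = R.π g (R.π h v) := by
  rw [map_mul]; rfl

theorem π_one (v : H) : R.π 1 v = v := by
  rw [map_one]; rfl

theorem π_inv (g : Γ) (v : H) : R.π g⁻¹ (R.π g v) = v := by
  rw [← π_mul, inv_mul_cancel, π_one]

theorem π_inv' (g : Γ) (v : H) : R.π g (R.π g⁻¹ v) = v := by
  rw [← π_mul, mul_inv_cancel, π_one]

/-- The stabiliser of a vector. -/
def St (v : H) : Subgroup Γ where
  carrier := {g | R.π g v = v}
  one_mem' := π_one R v
  mul_mem' := by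
    intro g h hg hh
    change R.π (g * h) v = v
    rw [π_mul, show R.π h v = v from hh]
    exact hg
  inv_mem' := by
    intro g hg
    change R.π g⁻¹ v = v
    conv_lhs => rw [← show R.π g v = v from hg]
    exact π_inv R g v

theorem mem_St {v : H} {g : Γ} : g ∈ St R v ↔ R.π g v = v := Iff.rfl

/-- Vectors fixed by a power of `a`. -/
def Per (v : H) : Prop := ∃ K : ℤ, K ≠ 0 ∧ a ^ K ∈ St R v

variable {R}

theorem St_mul {v : H} {K : ℤ} (h : a ^ K ∈ St R v) (j : ℤ) : a ^ (K * j) ∈ St R v := by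
  rw [zpow_mul]
  exact zpow_mem h j

theorem Per.zero : Per R (0 : H) := ⟨1, one_ne_zero, by rw [mem_St, map_zero]⟩

theorem Per.add {u v : H} (hu : Per R u) (hv : Per R v) : Per R (u + v) := by
  obtain ⟨K, hK, h1⟩ := hu
  obtain ⟨K', hK', h2⟩ := hv
  refine ⟨K * K', mul_ne_zero hK hK', ?_⟩
  have h3 := St_mul h1 K'
  have h4 := St_mul h2 K
  rw [mul_comm K' K] at h4
  rw [mem_St] at h3 h4 ⊢
  rw [map_add, h3, h4]

theorem Per.smul {v : H} (hv : Per R v) (c : ℂ) : Per R (c • v) := by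
  obtain ⟨K, hK, h1⟩ := hv
  refine ⟨K, hK, ?_⟩
  rw [mem_St] at h1 ⊢
  rw [map_smul, h1]

end rep

section bs
variable {Γ H : Type} [Group Γ] [NormedAddCommGroup H] [InnerProductSpace ℂ H] [CompleteSpace H]
variable {a t : Γ} {m n : ℤ} {R : TRep a (fun x : VT m n => x.1) H}

/-- The relation for all powers. -/
theorem rel_pow (hB : IsBS a t m n) (K : ℤ) : a ^ (n * K) * t = t * a ^ (m * K) := by
  have h1 : t * a ^ (m * K) * t⁻¹ = a ^ (n * K) := by
    rw [zpow_mul, zpow_mul, ← hB.rel, ← conj_zpow]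
  rw [← h1]
  group

theorem per_t (hB : IsBS a t m n) (K : ℤ) (v : H) :
    a ^ (n * K) ∈ St R (R.π t v) ↔ a ^ (m * K) ∈ St R v := by
  rw [mem_St, mem_St, ← π_mul, rel_pow hB, π_mul]
  constructor
  · intro h
    have h2 := congrArg (R.π t⁻¹) h
    rwa [π_inv, π_inv] at h2
  · intro h
    rw [h]

theorem per_π (hB : IsBS a t m n) (hm : m ≠ 0) (hn : n ≠ 0) (g : Γ) (v : H) :
    Per R v ↔ Per R (R.π g v) := by
  have hg : g ∈ Subgroup.closure {a, t} := by
    rw [hB.gen]
    exact Subgroup.mem_top g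
  induction hg using Subgroup.closure_induction generalizing v with
  | mem g hg =>
    rcases hg with hg | hg
    · rw [hg]
      have key : ∀ K : ℤ, a ^ K ∈ St R (R.π a v) ↔ a ^ K ∈ St R v := by
        intro K
        have e : a ^ K * a = a * a ^ K := (Commute.self_zpow a K).symm.eq
        rw [mem_St, mem_St, ← π_mul, e, π_mul]
        constructor
        · intro h
          have h2 := congrArg (R.π a⁻¹) h
          rwa [π_inv, π_inv] at h2
        · intro h
          rw [h]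
      constructor
      · rintro ⟨K, hK, h⟩
        exact ⟨K, hK, (key K).2 h⟩
      · rintro ⟨K, hK, h⟩
        exact ⟨K, hK, (key K).1 h⟩
    · rw [Set.mem_singleton_iff.1 hg]
      constructor
      · rintro ⟨K, hK, h⟩
        refine ⟨n * K, mul_ne_zero hn hK, (per_t hB K v).2 ?_⟩
        rw [mul_comm]
        exact St_mul h m
      · rintro ⟨K, hK, h⟩
        refine ⟨m * K, mul_ne_zero hm hK, (per_t hB K v).1 ?_⟩
        rw [mul_comm]
        exact St_mul h n
  | one => rw [π_one]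
  | mul g h _ _ hg hh =>
    rw [π_mul]
    exact (hh v).trans (hg _)
  | inv g _ hg =>
    have h1 := hg (R.π g⁻¹ v)
    rw [π_inv'] at h1
    exact h1.symm

theorem per_ξ (hm : m ≠ 0) (hn : n ≠ 0) (y : VT m n) : Per R (R.ξ y) := by
  obtain ⟨N, hN, h1⟩ := vset_order hm hn y.2
  refine ⟨N, by exact_mod_cast hN.ne', ?_⟩
  rw [mem_St, zpow_natCast]
  have key : ∀ k : ℕ, R.π (a ^ k) (R.ξ y) = (((y.1 ^ k : Circle)) : ℂ) • R.ξ y := by
    intro k
    induction k with
    | zero => simp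
    | succ k ih =>
      rw [pow_succ, π_mul, R.π_a, map_smul, ih, smul_smul, pow_succ]
      congr 1
      push_cast
      ring
  rw [key, h1]
  simp

/-- The span of the reduced vectors. -/
def Gs (R : TRep a (fun x : VT m n => x.1) H) (t : Γ) (s : Bool) (y : VT m n) : Submodule ℂ H :=
  Submodule.span ℂ {v | ∃ g, GRed a t m n s g ∧ v = R.π g (R.ξ y)}

theorem per_Gs (hB : IsBS a t m n) (hm : m ≠ 0) (hn : n ≠ 0) {s : Bool} {y : VT m n} {v : H}
    (hv : v ∈ Gs R t s y) : Per R v := by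
  induction hv using Submodule.span_induction with
  | mem v hv =>
    obtain ⟨g, _, rfl⟩ := hv
    exact (per_π hB hm hn g _).1 (per_ξ hm hn y)
  | zero => exact Per.zero
  | add u v _ _ hu hv => exact hu.add hv
  | smul c v _ hv => exact hv.smul c

/-- A common period. -/
theorem exists_K (hm : m ≠ 0) (hn : n ≠ 0) (F : Finset (VT m n)) {v : H} (hv : Per R v) :
    ∃ K : ℤ, K ≠ 0 ∧ a ^ K ∈ St R v ∧ ∀ x ∈ F, x.1 ^ K = 1 := by
  classical
  induction F using Finset.induction_on with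
  | empty =>
    obtain ⟨K, hK, h⟩ := hv
    exact ⟨K, hK, h, by simp⟩
  | insert x F _ ih =>
    obtain ⟨K, hK, h1, h2⟩ := ih
    obtain ⟨N, hN, h3⟩ := vset_order hm hn x.2
    refine ⟨K * N, mul_ne_zero hK (by exact_mod_cast hN.ne'), St_mul h1 N, ?_⟩
    intro x' hx'
    rcases Finset.mem_insert.1 hx' with h | h
    · rw [h, mul_comm, zpow_mul, zpow_natCast, h3, one_zpow]
    · rw [zpow_mul, h2 x' h, one_zpow]

/-- Averages. -/
theorem avg (W : WSys (VT m n) H)
    (hWe : ∀ x, W.e x = eg (R.π a) ((x.1 : Circle) : ℂ)) {b : Op H}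
    (hb : b ∈ vNa (Set.range W.e)) (F : Finset (VT m n)) {v : H} {K : ℤ} (hK : K ≠ 0)
    (hv : a ^ K ∈ St R v) (hF : ∀ x ∈ F, x.1 ^ K = 1) :
    W.eF F (b v) = ∑ j ∈ Finset.range K.natAbs,
      (((K.natAbs : ℕ) : ℂ)⁻¹ * ∑ x ∈ F, W.φ x b * (((x.1 ^ j)⁻¹ : Circle) : ℂ)) •
        R.π (a ^ j) v := by
  have h1 : ∀ x ∈ F, W.e x v = ((K.natAbs : ℕ) : ℂ)⁻¹ •
      ∑ j ∈ Finset.range K.natAbs, (((x.1 ^ j)⁻¹ : Circle) : ℂ) • R.π (a ^ j) v := by
    intro x hx
    rw [hWe]
    refine (eg_apply R hK 1 x.1 ?_).1 (hF x hx)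
    rw [mem_St] at hv
    rw [hv]
    simp
  rw [eF_b W hb]
  calc ∑ x ∈ F, W.φ x b • W.e x v = ∑ x ∈ F, ∑ j ∈ Finset.range K.natAbs,
        (((K.natAbs : ℕ) : ℂ)⁻¹ * (W.φ x b * (((x.1 ^ j)⁻¹ : Circle) : ℂ))) •
          R.π (a ^ j) v := by
        refine Finset.sum_congr rfl fun x hx => ?_
        rw [h1 x hx, smul_smul, Finset.smul_sum]
        refine Finset.sum_congr rfl fun j _ => ?_
        rw [smul_smul]
        congr 1
        ring
    _ = _ := by
        rw [Finset.sum_comm]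
        refine Finset.sum_congr rfl fun j _ => ?_
        rw [← Finset.sum_smul, Finset.mul_sum]

section fin
variable (W : WSys (VT m n) H) {S T : BT m n → Finset (VT m n)}

theorem ltr_eq (hte : ∀ χ, R.π t * W.eF (S χ) = W.eF (T χ) * R.π t) (l : BT m n × Bool) :
    ltr (fun χ => R.π t * W.eF (S χ)) l = R.π (tp t l.2) * W.eF (rt S T l) := by
  obtain ⟨χ, s⟩ := l
  cases s
  · show star (R.π t * W.eF (S χ)) = R.π t⁻¹ * W.eF (T χ)
    rw [star_mul, W.eF_sa, R.star_π]
    have h1 : R.π t⁻¹ * R.π t = 1 := by rw [← map_mul, inv_mul_cancel, map_one]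
    have h2 : R.π t * R.π t⁻¹ = 1 := by rw [← map_mul, mul_inv_cancel, map_one]
    calc W.eF (S χ) * R.π t⁻¹ = (R.π t⁻¹ * R.π t) * W.eF (S χ) * R.π t⁻¹ := by rw [h1, one_mul]
      _ = R.π t⁻¹ * (R.π t * W.eF (S χ)) * R.π t⁻¹ := by noncomm_ring
      _ = R.π t⁻¹ * (W.eF (T χ) * R.π t) * R.π t⁻¹ := by rw [hte]
      _ = R.π t⁻¹ * W.eF (T χ) * (R.π t * R.π t⁻¹) := by noncomm_ring
      _ = _ := by rw [h2, mul_one]
  · rfl

theorem eF_ltr (hte : ∀ χ, R.π t * W.eF (S χ) = W.eF (T χ) * R.π t) (l : BT m n × Bool) :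
    W.eF (rt S T (bar l)) * ltr (fun χ => R.π t * W.eF (S χ)) l =
      ltr (fun χ => R.π t * W.eF (S χ)) l := by
  obtain ⟨χ, s⟩ := l
  cases s
  · show W.eF (S χ) * star (R.π t * W.eF (S χ)) = star (R.π t * W.eF (S χ))
    rw [star_mul, W.eF_sa, ← mul_assoc, W.eF_idem]
  · show W.eF (T χ) * (R.π t * W.eF (S χ)) = R.π t * W.eF (S χ)
    rw [hte, ← mul_assoc, W.eF_idem]

theorem claim (hB : IsBS a t m n) (hm : m ≠ 0) (hn : n ≠ 0)
    (hWe : ∀ x, W.e x = eg (R.π a) ((x.1 : Circle) : ℂ)) (hWξ : ∀ x, W.ξ x = R.ξ x)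
    (hS : ∀ χ x, x ∈ S χ ↔ x.1 ^ m = χ.1) (hT : ∀ χ x, x ∈ T χ ↔ x.1 ^ n = χ.1)
    (hte : ∀ χ, R.π t * W.eF (S χ) = W.eF (T χ) * R.π t) {l : BT m n × Bool} {c : Op H}
    (hc : Con ((vNa (Set.range W.e) : StarSubalgebra ℂ (Op H)) : Set (Op H))
      (ltr fun χ => R.π t * W.eF (S χ)) bar (fun l => W.φF (rt S T l)) l c) (y : VT m n) :
    W.eF (rt S T l) (c (W.ξ y)) ∈ Gs R t l.2 y := by
  classical
  induction hc with
  | base l b hb =>
    rw [b_ξ W hb, map_smul]
    apply Submodule.smul_mem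
    by_cases hy : y ∈ rt S T l
    · rw [W.eF_ξ_mem hy, hWξ]
      apply Submodule.subset_span
      refine ⟨a ^ (0 : ℤ), GRed.base _ 0, ?_⟩
      rw [zpow_zero, π_one]
    · rw [W.eF_ξ_not hy]
      exact Submodule.zero_mem _
  | step l l' b c hb hk _ ih =>
    set w := W.eF (rt S T l') (c (W.ξ y)) with hw
    set v := ltr (fun χ => R.π t * W.eF (S χ)) l' (c (W.ξ y)) with hv
    have e1 : (b * ltr (fun χ => R.π t * W.eF (S χ)) l' * c) (W.ξ y) = b v := rfl
    have e2 : v = R.π (tp t l'.2) w := by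
      rw [hv, ltr_eq W hte]
      rfl
    have hvper : Per R v := by
      rw [e2]
      exact (per_π hB hm hn _ _).1 (per_Gs hB hm hn ih)
    rw [e1]
    -- membership of the translates
    have hmem : ∀ j : ℕ, (l'.2 ≠ l.2 → ¬ (bif l.2 then m else n) ∣ (j : ℤ)) →
        R.π (a ^ j) v ∈ Gs R t l.2 y := by
      intro j hj
      rw [e2]
      clear_value w
      clear hw hv e1 e2 hvper
      induction ih using Submodule.span_induction with
      | mem w hw =>
        obtain ⟨g, hg, rfl⟩ := hw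
        apply Submodule.subset_span
        refine ⟨a ^ (j : ℤ) * tp t l'.2 * g, GRed.step _ _ _ _ hj hg, ?_⟩
        rw [π_mul, π_mul, zpow_natCast]
      | zero => rw [map_zero, map_zero]; exact Submodule.zero_mem _
      | add u w _ _ hu hw => rw [map_add, map_add]; exact Submodule.add_mem _ hu hw
      | smul r u _ hu => rw [map_smul, map_smul]; exact Submodule.smul_mem _ _ hu
    by_cases hs : l'.2 = l.2
    · obtain ⟨K, hK, h1, h2⟩ := exists_K hm hn (rt S T l) hvper
      rw [avg W hWe hb _ hK h1 h2]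
      refine Submodule.sum_mem _ fun j _ => Submodule.smul_mem _ _ (hmem j fun h => absurd hs h)
    · have hs' : l.2 = !l'.2 := by
        cases h1 : l.2 <;> cases h2 : l'.2 <;> simp_all
      by_cases hχ : l'.1 = l.1
      · have hbar : l' = bar l := by
          refine Prod.ext hχ ?_
          show l'.2 = !l.2
          rw [hs', Bool.not_not]
        have hφ := hk hbar
        rw [W.φF_apply] at hφ
        obtain ⟨K, hK, h1, h2⟩ := exists_K hm hn (rt S T l) hvper
        rw [avg W hWe hb _ hK h1 h2]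
        refine Submodule.sum_mem _ fun j _ => ?_
        by_cases hj : (bif l.2 then m else n) ∣ (j : ℤ)
        · obtain ⟨q, hq⟩ := hj
          have hx : ∀ x ∈ rt S T l, x.1 ^ j = l.1.1 ^ q := by
            intro x hx
            have hμ : x.1 ^ (bif l.2 then m else n) = l.1.1 := by
              obtain ⟨χ, s⟩ := l
              cases s
              · exact (hT χ x).1 hx
              · exact (hS χ x).1 hx
            rw [← hμ, ← zpow_mul, ← hq, zpow_natCast]
          have hzero : ∑ x ∈ rt S T l, W.φ x b * (((x.1 ^ j)⁻¹ : Circle) : ℂ) = 0 := by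
            have : ∑ x ∈ rt S T l, W.φ x b * (((x.1 ^ j)⁻¹ : Circle) : ℂ) =
                (∑ x ∈ rt S T l, ⟪W.ξ x, b (W.ξ x)⟫_ℂ) * (((l.1.1 ^ q)⁻¹ : Circle) : ℂ) := by
              rw [Finset.sum_mul]
              refine Finset.sum_congr rfl fun x hx' => ?_
              rw [hx x hx', W.φ_apply]
            rw [this, hφ, zero_mul]
          rw [hzero, mul_zero, zero_smul]
          exact Submodule.zero_mem _
        · exact Submodule.smul_mem _ _ (hmem j fun _ => hj)
      · -- disjoint corners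
        have hdisj : Disjoint (rt S T l) (rt S T (bar l')) := by
          rw [Finset.disjoint_left]
          intro x hx hx'
          apply hχ
          obtain ⟨χ, s⟩ := l
          obtain ⟨χ', s'⟩ := l'
          have hs2 : s = !s' := hs'
          subst hs2
          cases s'
          · have h1 := (hS χ x).1 hx
            have h2 := (hS χ' x).1 hx'
            exact Subtype.ext (h2.symm.trans h1)
          · have h1 := (hT χ x).1 hx
            have h2 := (hT χ' x).1 hx'
            exact Subtype.ext (h2.symm.trans h1)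
        have hv2 : v = W.eF (rt S T (bar l')) v := by
          have h3 := congrArg (fun A : Op H => A (c (W.ξ y))) (eF_ltr W hte l')
          exact h3.symm
        have hz : ∀ x ∈ rt S T l, W.e x v = 0 := by
          intro x hx
          rw [hv2]
          have h3 := W.e_mul_eF_not (Finset.disjoint_left.1 hdisj hx)
          exact congrArg (fun A : Op H => A v) h3
        rw [eF_b W hb, Finset.sum_eq_zero fun x hx => by rw [hz x hx, smul_zero]]
        exact Submodule.zero_mem _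

end fin

end bs

/-- Roots in the circle. -/
theorem exists_root {n : ℤ} (hn : n ≠ 0) (c : Circle) : ∃ y : Circle, y ^ n = c := by
  have h := (circle_roots n hn c).2
  have h2 : {x : Circle | x ^ n = c}.ncard ≠ 0 := by
    rw [h]
    exact Int.natAbs_ne_zero.2 hn
  by_contra hcon
  push Not at hcon
  apply h2
  have : {x : Circle | x ^ n = c} = ∅ := by
    ext x
    simpa using hcon x
  rw [this, Set.ncard_empty]

end RepDX

section H
variable {Γ H : Type} [Group Γ] [NormedAddCommGroup H] [InnerProductSpace ℂ H] [CompleteSpace H]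
variable {a t : Γ} {m n : ℤ}

open RepDX in
theorem fhs_base (hB : IsBS a t m n) (hm : 2 < |m|) (hn : |m| < n)
    (R : TRep a (fun x : VT m n => x.1) H) (W : WSys (VT m n) H)
    (hWe : ∀ x, W.e x = eg (R.π a) ((x.1 : Circle) : ℂ)) (hWξ : ∀ x, W.ξ x = R.ξ x)
    (S T : BT m n → Finset (VT m n))
    (hS : ∀ χ x, x ∈ S χ ↔ x.1 ^ m = χ.1) (hT : ∀ χ x, x ∈ T χ ↔ x.1 ^ n = χ.1)
    (hte : ∀ χ, R.π t * W.eF (S χ) = W.eF (T χ) * R.π t) :
    FHS W (vNa (Set.range W.e)) (fun χ => R.π t * W.eF (S χ)) S T := by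
  have hm0 : m ≠ 0 := by
    rintro rfl
    simp at hm
  have hn0 : n ≠ 0 := by
    have := abs_nonneg m
    omega
  have h1 : R.π t⁻¹ * R.π t = 1 := by rw [← map_mul, inv_mul_cancel, map_one]
  have h2 : R.π t * R.π t⁻¹ = 1 := by rw [← map_mul, mul_inv_cancel, map_one]
  refine ⟨fun x => subset_vNa _ ⟨x, rfl⟩, ?_, ?_, ?_, ?_, ?_⟩
  · intro χ
    obtain ⟨c, x, hx, hxc⟩ := χ
    exact ⟨⟨x, hx⟩, (hS _ _).2 hxc⟩
  · intro χ
    obtain ⟨c, x, hx, hxc⟩ := χ
    obtain ⟨y, hy⟩ := exists_root hn0 c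
    exact ⟨⟨y, VSet.up x y hx (hy.trans hxc.symm)⟩, (hT _ _).2 hy⟩
  · intro χ
    rw [star_mul, W.eF_sa, R.star_π]
    calc W.eF (S χ) * R.π t⁻¹ * (R.π t * W.eF (S χ))
        = W.eF (S χ) * (R.π t⁻¹ * R.π t) * W.eF (S χ) := by noncomm_ring
      _ = _ := by rw [h1, mul_one, W.eF_idem]
  · intro χ
    rw [star_mul, W.eF_sa, R.star_π]
    calc R.π t * W.eF (S χ) * (W.eF (S χ) * R.π t⁻¹)
        = R.π t * (W.eF (S χ) * W.eF (S χ)) * R.π t⁻¹ := by noncomm_ring
      _ = W.eF (T χ) * (R.π t * R.π t⁻¹) := by rw [W.eF_idem, hte]; noncomm_ring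
      _ = _ := by rw [h2, mul_one]
  · intro b hb l c hc x y
    rw [inner_b W hb, ltr_eq W hte]
    have hmem := claim W hB hm0 hn0 hWe hWξ hS hT hte hc y
    have key : ∀ w ∈ Gs R t l.2 y, ⟪W.ξ x, R.π (tp t l.2) w⟫_ℂ = 0 := by
      intro w hw
      induction hw using Submodule.span_induction with
      | mem w hw =>
        obtain ⟨g, hg, rfl⟩ := hw
        rw [← π_mul, hWξ]
        exact R.orth _ x y (Or.inl (hB.brit _ _ hg))
      | zero => rw [map_zero, inner_zero_right]
      | add u v _ _ hu hv => rw [map_add, inner_add_right, hu, hv, add_zero]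
      | smul r u _ hu => rw [map_smul, inner_smul_right, hu, mul_zero]
    have h3 := key _ hmem
    have e : (R.π (tp t l.2) * W.eF (rt S T l)) (c (W.ξ y)) =
        R.π (tp t l.2) (W.eF (rt S T l) (c (W.ξ y))) := rfl
    rw [e, h3, mul_zero]

end H

end Pool.Agent.MP9a76ab
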