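import Pool.Agent.Lib.MP_9a76ab_an.Basic

/-! The algebra of analytic elements (KMS relation). -/

set_option autoImplicit false

namespace Pool.Agent.MP9a76ab

open scoped InnerProductSpace

section K
variable {V : Type} {H : Type} [NormedAddCommGroup H] [InnerProductSpace ℂ H] [CompleteSpace H]
variable {W : WSys V H} {M : StarSubalgebra ℂ (Op H)}

theorem KmsAlgX.hasSum_inner (W : WSys V H) (A : Op H) (u v : H) :
    HasSum (fun z => ⟪u, A (W.e z v)⟫_ℂ) ⟪u, A v⟫_ℂ := by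
  have h1 := ((W.hasSum v).mapL A).mapL (innerSL ℂ u)
  simpa using h1

theorem KMS.mul (hM : ∀ x, W.e x ∈ M) {c c' : ℝ} {X X' : Op H} (hX : X ∈ M) (hX' : X' ∈ M)
    (h : KMS W M c X) (h' : KMS W M c' X') : KMS W M (c * c') (X * X') := by
  intro Y hY x y
  have h1 : HasSum (fun z => ⟪W.ξ y, X (W.e z (X' (W.e x (Y (W.ξ y)))))⟫_ℂ)
      ⟪W.ξ y, X (X' (W.e x (Y (W.ξ y))))⟫_ℂ := KmsAlgX.hasSum_inner W X _ _
  have h2 : HasSum (fun z => ((c : ℂ) * c') *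
      ⟪W.ξ x, (Y * W.e y * X) (W.e z (X' (W.ξ x)))⟫_ℂ)
      (((c : ℂ) * c') * ⟪W.ξ x, (Y * W.e y * X) (X' (W.ξ x))⟫_ℂ) :=
    (KmsAlgX.hasSum_inner W (Y * W.e y * X) _ _).mul_left _
  have h3 : (fun z => ⟪W.ξ y, X (W.e z (X' (W.e x (Y (W.ξ y)))))⟫_ℂ) =
      fun z => ((c : ℂ) * c') * ⟪W.ξ x, (Y * W.e y * X) (W.e z (X' (W.ξ x)))⟫_ℂ := by
    funext z
    have h4 := h (X' * W.e x * Y) (mul_mem (mul_mem hX' (hM x)) hY) z y
    have h5 := h' (Y * W.e y * X) (mul_mem (mul_mem hY (hM y)) hX) x z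
    have h6 : ⟪W.ξ y, X (W.e z (X' (W.e x (Y (W.ξ y)))))⟫_ℂ =
        (c : ℂ) * ⟪W.ξ z, X' (W.e x ((Y * W.e y * X) (W.ξ z)))⟫_ℂ := h4
    rw [h6, h5]
    ring
  rw [h3] at h1
  have h7 := h1.unique h2
  push_cast
  exact h7

theorem KMS.conj (hM : ∀ x, W.e x ∈ M) {c : ℝ} (hc : c ≠ 0) {X : Op H} (hX : X ∈ M)
    (h : KMS W M c X) : KMS W M c⁻¹ (star X) := by
  intro Y hY x y
  have h1 := h (star Y) (star_mem hY) y x
  have h2 := congrArg (starRingEnd ℂ) h1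
  rw [map_mul, inner_conj_symm, inner_conj_symm, Complex.conj_ofReal] at h2
  have h3 : ⟪X (W.e y (star Y (W.ξ x))), W.ξ x⟫_ℂ = ⟪W.ξ x, Y (W.e y (star X (W.ξ x)))⟫_ℂ := by
    rw [← inner_star_op, ← W.inner_e, ← inner_op_star]
  have h4 : ⟪star Y (W.e x (X (W.ξ y))), W.ξ y⟫_ℂ = ⟪W.ξ y, star X (W.e x (Y (W.ξ y)))⟫_ℂ := by
    rw [← inner_op_star, ← W.inner_e, ← inner_star_op]
  rw [h3, h4] at h2
  have hc' : (c : ℂ) ≠ 0 := by exact_mod_cast hc
  rw [h2]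
  push_cast
  rw [← mul_assoc, inv_mul_cancel₀ hc', one_mul]

theorem KMS.add {c : ℝ} {X X' : Op H} (h : KMS W M c X) (h' : KMS W M c X') :
    KMS W M c (X + X') := by
  intro Y hY x y
  have h1 := h Y hY x y
  have h2 := h' Y hY x y
  simp only [add_apply, inner_add_right, map_add, h1, h2, mul_add]

theorem KMS.smul {c : ℝ} {X : Op H} (a : ℂ) (h : KMS W M c X) : KMS W M c (a • X) := by
  intro Y hY x y
  have h1 := h Y hY x y
  simp only [smul_apply, inner_smul_right, map_smul, h1]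
  ring

theorem KMS.eproj (hM : ∀ x, W.e x ∈ M) (x : V) : KMS W M 1 (W.e x) := by
  intro Y hY z y
  push_cast
  rw [one_mul]
  by_cases h1 : x = z
  · subst h1
    by_cases h2 : x = y
    · subst h2
      rw [W.e_e, W.inner_e, W.eξ, W.eξ]
    · rw [W.inner_e, W.e_ξ_ne h2, inner_zero_left, W.e_e_ne (Ne.symm h2), map_zero,
        inner_zero_right]
  · rw [W.e_e_ne h1, inner_zero_right, W.e_ξ_ne h1, map_zero, map_zero, inner_zero_right]

theorem KMS.scale (hM : ∀ x, W.e x ∈ M) {c : ℝ} {X : Op H} (hX : X ∈ M) (h : KMS W M c X)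
    {S' S : Finset V} (h1 : star X * X = W.eF S') (h2 : X * star X = W.eF S) {b : Op H}
    (hb : b ∈ M) : W.φF S (X * b * star X) = (c : ℂ) * W.φF S' b := by
  have hXe : X * W.eF S' = X := mul_corner h1 (W.eF_idem _)
  have hXs : star X * W.eF S = star X :=
    mul_corner (by rw [star_star]; exact h2) (W.eF_idem _)
  rw [W.φF_apply, W.φF_apply, Finset.mul_sum]
  have h3 : ∀ y, ⟪W.ξ y, (X * b * star X) (W.ξ y)⟫_ℂ =
      ∑ x ∈ S', (c : ℂ) * ⟪W.ξ x, (b * star X) (W.e y (X (W.ξ x)))⟫_ℂ := by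
    intro y
    have h4 : (X * b * star X) (W.ξ y) = ∑ x ∈ S', X (W.e x ((b * star X) (W.ξ y))) := by
      have h6 : (X * b * star X) (W.ξ y) = (X * W.eF S') ((b * star X) (W.ξ y)) := by
        rw [hXe]
        rfl
      rw [h6]
      unfold WSys.eF
      simp [Finset.mul_sum]
    rw [h4, inner_sum]
    exact Finset.sum_congr rfl fun x _ => h (b * star X) (mul_mem hb (star_mem hX)) x y
  rw [Finset.sum_congr rfl fun y _ => h3 y, Finset.sum_comm]
  refine Finset.sum_congr rfl fun x hx => ?_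
  rw [← Finset.mul_sum, ← inner_sum]
  congr 2
  have h5 : ∑ y ∈ S, (b * star X) (W.e y (X (W.ξ x))) = (b * (star X * W.eF S) * X) (W.ξ x) := by
    unfold WSys.eF
    simp [Finset.mul_sum, Finset.sum_mul]
  rw [h5, hXs, mul_assoc, h1, mul_apply_eq_comp, W.eF_ξ_mem hx]

end K

end Pool.Agent.MP9a76ab
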