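import Pool.Agent.Lib.MP_9a76ab_an.Basic
import Pool.Agent.Lib.MP_9a76ab_an.Dens
import Pool.Agent.Lib.MP_9a76ab_an.Span

/-! KMS relation for free Haar letters (MP_9a76ab_an). -/

set_option autoImplicit false

namespace Pool.Agent.MP9a76ab

open scoped InnerProductSpace

section B
variable {V J : Type} {H : Type} [NormedAddCommGroup H] [InnerProductSpace ℂ H] [CompleteSpace H]
variable {W : WSys V H} {B B1 : StarSubalgebra ℂ (Op H)}

namespace KmsExtX

/-- Continuations of the letter `l`. -/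
abbrev CC (W : WSys V H) (B : StarSubalgebra ℂ (Op H)) (U : J → Op H) (S T : J → Finset V)
    (l : J × Bool) (c : Op H) : Prop :=
  Con (B : Set (Op H)) (ltr U) bar (fun l => W.φF (rt S T l)) l c

variable {U : J → Op H} {S T : J → Finset V}

theorem con_mul_right {l : J × Bool} {c : Op H} (hc : CC W B U S T l c) {b' : Op H}
    (hb' : b' ∈ B) : CC W B U S T l (c * b') := by
  induction hc with
  | base l b hb => exact Con.base l _ (mul_mem hb hb')
  | step l l' b c hb h _ ih =>
    have e : b * ltr U l' * c * b' = b * ltr U l' * (c * b') := by simp only [mul_assoc]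
    rw [e]
    exact Con.step l l' b _ hb h ih

/-- the defect of the KMS relation, as a linear functional -/
noncomputable def dfc (W : WSys V H) (c : ℝ) (X : Op H) (x y : V) : Op H →ₗ[ℂ] ℂ where
  toFun Y := ⟪W.ξ y, X (W.e x (Y (W.ξ y)))⟫_ℂ - (c : ℂ) * ⟪W.ξ x, Y (W.e y (X (W.ξ x)))⟫_ℂ
  map_add' Y Z := by
    simp only [add_apply, map_add, inner_add_right]
    ring
  map_smul' a Y := by
    simp only [smul_apply, map_smul, inner_smul_right, RingHom.id_apply, smul_eq_mul]
    ring

theorem dfc_apply (c : ℝ) (X : Op H) (x y : V) (Y : Op H) : dfc W c X x y Y =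
    ⟪W.ξ y, X (W.e x (Y (W.ξ y)))⟫_ℂ - (c : ℂ) * ⟪W.ξ x, Y (W.e y (X (W.ξ x)))⟫_ℂ := rfl

theorem dfc_bound (c : ℝ) (X : Op H) (x y : V) (Y : Op H) {ε : ℝ}
    (h1 : ‖Y (W.ξ y)‖ < ε) (h2 : ‖Y (W.e y (X (W.ξ x)))‖ < ε) :
    ‖dfc W c X x y Y‖ ≤ (‖X‖ * ‖W.e x‖ + |c|) * ε := by
  rw [dfc_apply]
  have a1 : ‖⟪W.ξ y, X (W.e x (Y (W.ξ y)))⟫_ℂ‖ ≤ ‖X‖ * ‖W.e x‖ * ε := by
    calc ‖⟪W.ξ y, X (W.e x (Y (W.ξ y)))⟫_ℂ‖ ≤ ‖W.ξ y‖ * ‖X (W.e x (Y (W.ξ y)))‖ :=
          norm_inner_le_norm _ _
      _ = ‖X (W.e x (Y (W.ξ y)))‖ := by rw [W.norm_ξ, one_mul]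
      _ ≤ ‖X‖ * ‖W.e x (Y (W.ξ y))‖ := X.le_opNorm _
      _ ≤ ‖X‖ * (‖W.e x‖ * ‖Y (W.ξ y)‖) := by
          gcongr
          exact (W.e x).le_opNorm _
      _ ≤ ‖X‖ * (‖W.e x‖ * ε) := by gcongr
      _ = ‖X‖ * ‖W.e x‖ * ε := by ring
  have a2 : ‖⟪W.ξ x, Y (W.e y (X (W.ξ x)))⟫_ℂ‖ ≤ ε := by
    calc ‖⟪W.ξ x, Y (W.e y (X (W.ξ x)))⟫_ℂ‖ ≤ ‖W.ξ x‖ * ‖Y (W.e y (X (W.ξ x)))‖ :=
          norm_inner_le_norm _ _
      _ = ‖Y (W.e y (X (W.ξ x)))‖ := by rw [W.norm_ξ, one_mul]
      _ ≤ ε := h2.le
  calc ‖⟪W.ξ y, X (W.e x (Y (W.ξ y)))⟫_ℂ - (c : ℂ) * ⟪W.ξ x, Y (W.e y (X (W.ξ x)))⟫_ℂ‖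
      ≤ ‖⟪W.ξ y, X (W.e x (Y (W.ξ y)))⟫_ℂ‖ +
          ‖(c : ℂ) * ⟪W.ξ x, Y (W.e y (X (W.ξ x)))⟫_ℂ‖ := norm_sub_le _ _
    _ ≤ ‖X‖ * ‖W.e x‖ * ε + |c| * ε := by
        rw [norm_mul, Complex.norm_real, Real.norm_eq_abs]
        gcongr
    _ = (‖X‖ * ‖W.e x‖ + |c|) * ε := by ring

/-- The corner identities in the form needed for the reduction of words. -/
theorem hc_letters (h : FHS W B U S T) (l : J × Bool) : ∃ c ∈ B.toSubalgebra,
    (W.φF (rt S T l)) c = 1 ∧ ltr U l * c * ltr U (bar l) ∈ B.toSubalgebra := by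
  have hcard : ((rt S T l).card : ℂ) ≠ 0 := by
    have := Finset.card_ne_zero.2 (h.ne_rt l)
    exact_mod_cast this
  refine ⟨((rt S T l).card : ℂ)⁻¹ • W.eF (rt S T l), ?_, ?_, ?_⟩
  · exact B.toSubalgebra.smul_mem (W.eF_mem h.mem_e _) _
  · rw [map_smul, W.φF_eF, smul_eq_mul, inv_mul_cancel₀ hcard]
  · rw [mul_smul_comm, smul_mul_assoc, h.conj_corner]
    exact B.toSubalgebra.smul_mem (W.eF_mem h.mem_e _) _

/-- The star algebra generated by the letters is spanned by reduced words. -/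
theorem mem_span (h : FHS W B U S T) {Y : Op H}
    (hY : Y ∈ StarAlgebra.adjoin ℂ ((B : Set (Op H)) ∪ Set.range U)) :
    Y ∈ Submodule.span ℂ ((B.toSubalgebra : Set (Op H)) ∪
        {x | ∃ b ∈ B.toSubalgebra, ∃ l c, Con (B.toSubalgebra : Set (Op H)) (ltr U) bar
          (fun l => W.φF (rt S T l)) l c ∧ x = b * ltr U l * c}) := by
  refine adjoin_subset_span B.toSubalgebra (ltr U) bar (fun l => W.φF (rt S T l))
    (hc_letters h) Y ?_
  have hY' : Y ∈ Algebra.adjoin ℂ (((B : Set (Op H)) ∪ Set.range U) ∪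
      star ((B : Set (Op H)) ∪ Set.range U)) := by
    rw [← StarAlgebra.adjoin_toSubalgebra]
    exact hY
  have hsub : ((B : Set (Op H)) ∪ Set.range U) ∪ star ((B : Set (Op H)) ∪ Set.range U) ⊆
      (B.toSubalgebra : Set (Op H)) ∪ Set.range (ltr U) := by
    rintro Z ((hZ | ⟨j, rfl⟩) | hZ)
    · exact Or.inl hZ
    · exact Or.inr ⟨(j, true), rfl⟩
    · rw [Set.mem_star] at hZ
      rcases hZ with hZ | ⟨j, hj⟩
      · left
        have h2 : star (star Z) ∈ B := star_mem hZ
        rwa [star_star] at h2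
      · right
        refine ⟨(j, false), ?_⟩
        rw [ltr_false, hj, star_star]
  exact Algebra.adjoin_mono hsub hY'

/-- It is enough to check the KMS relation on reduced words. -/
theorem kms_of_words (h : FHS W B U S T) {X : Op H} {c : ℝ}
    (h1 : ∀ Y ∈ B, ∀ x y, dfc W c X x y Y = 0)
    (h2 : ∀ b ∈ B, ∀ l d, CC W B U S T l d → ∀ x y, dfc W c X x y (b * ltr U l * d) = 0) :
    KMS W (vNa ((B : Set (Op H)) ∪ Set.range U)) c X := by
  intro Y hY x y
  have halg : ∀ Z ∈ StarAlgebra.adjoin ℂ ((B : Set (Op H)) ∪ Set.range U),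
      dfc W c X x y Z = 0 := by
    intro Z hZ
    have hZ' := mem_span h hZ
    clear hZ
    induction hZ' using Submodule.span_induction with
    | mem Z hZ =>
      rcases hZ with hZ | ⟨b, hb, l, d, hd, rfl⟩
      · exact h1 Z hZ x y
      · exact h2 b hb l d hd x y
    | zero => rw [map_zero]
    | add a b _ _ ha hb => rw [map_add, ha, hb, add_zero]
    | smul a b _ hb => rw [map_smul, hb, smul_zero]
  rw [← vNa_adjoin] at hY
  rw [← sub_eq_zero, ← dfc_apply]
  by_contra hne
  have hpos : 0 < ‖dfc W c X x y Y‖ := norm_pos_iff.2 hne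
  set Q : ℝ := ‖X‖ * ‖W.e x‖ + |c| + 1 with hQ
  have hQ0 : 0 < Q := by positivity
  classical
  obtain ⟨Z, hZ, hZv⟩ := vNa_density _ hY {W.ξ y, W.e y (X (W.ξ x))}
    (ε := ‖dfc W c X x y Y‖ / (2 * Q)) (by positivity)
  have b1 := dfc_bound (W := W) c X x y (Y - Z) (hZv _ (by simp)) (hZv _ (by simp))
  rw [map_sub, halg Z hZ, sub_zero] at b1
  have b2 : (‖X‖ * ‖W.e x‖ + |c|) * (‖dfc W c X x y Y‖ / (2 * Q)) ≤
      Q * (‖dfc W c X x y Y‖ / (2 * Q)) := by
    gcongr
    linarith
  have b3 : Q * (‖dfc W c X x y Y‖ / (2 * Q)) = ‖dfc W c X x y Y‖ / 2 := by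
    field_simp
  linarith

end KmsExtX

open KmsExtX

theorem FHS.kms_extend {U : J → Op H} {S T : J → Finset V} (h : FHS W B U S T) {X : Op H} {c : ℝ}
    (hX : X ∈ B) (hK : KMS W B c X) :
    KMS W (vNa ((B : Set (Op H)) ∪ Set.range U)) c X := by
  refine kms_of_words h ?_ ?_
  · intro Y hY x y
    rw [dfc_apply, hK Y hY x y, sub_self]
  · intro b hb l d hd x y
    rw [dfc_apply]
    have e1 := h.van (X * W.e x * b) (mul_mem (mul_mem hX (h.mem_e x)) hb) l d hd y y
    have e2 := h.van b hb l (d * (W.e y * X)) (con_mul_right hd (mul_mem (h.mem_e y) hX)) x x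
    have e1' : ⟪W.ξ y, X (W.e x ((b * ltr U l * d) (W.ξ y)))⟫_ℂ = 0 := e1
    have e2' : ⟪W.ξ x, (b * ltr U l * d) (W.e y (X (W.ξ x)))⟫_ℂ = 0 := e2
    rw [e1', e2', mul_zero, sub_zero]

namespace KmsExtX

variable {U : J → Op H} {S T : J → Finset V}

/-- The span of the words starting with the letter `l`. -/
def PP (W : WSys V H) (B : StarSubalgebra ℂ (Op H)) (U : J → Op H) (S T : J → Finset V)
    (l : J × Bool) : Submodule ℂ (Op H) :=
  Submodule.span ℂ {x | ∃ c, CC W B U S T l c ∧ x = ltr U l * c}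

theorem pp_mem {l : J × Bool} {c : Op H} (hc : CC W B U S T l c) :
    ltr U l * c ∈ PP W B U S T l := Submodule.subset_span ⟨c, hc, rfl⟩

theorem pp_van (h : FHS W B U S T) {l : J × Bool} {z : Op H} (hz : z ∈ PP W B U S T l)
    {b : Op H} (hb : b ∈ B) (x y : V) : ⟪W.ξ x, b (z (W.ξ y))⟫_ℂ = 0 := by
  unfold PP at hz
  induction hz using Submodule.span_induction with
  | mem z hz =>
    obtain ⟨c, hc, rfl⟩ := hz
    exact h.van b hb l c hc x y
  | zero => simp
  | add a c _ _ ha hc => rw [add_apply, map_add, inner_add_right, ha, hc, add_zero]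
  | smul a c _ hc => rw [smul_apply, map_smul, inner_smul_right, hc, mul_zero]

theorem pp_step {l l' : J × Bool} {b : Op H} (hb : b ∈ B)
    (hcen : l' = bar l → W.φF (rt S T l) b = 0) {z : Op H}
    (hz : z ∈ PP W B U S T l' ⊔ B.toSubalgebra.toSubmodule) :
    ltr U l * b * z ∈ PP W B U S T l := by
  obtain ⟨p, hp, β, hβ, rfl⟩ := Submodule.mem_sup.1 hz
  rw [mul_add]
  refine add_mem ?_ ?_
  · clear hz
    unfold PP at hp
    induction hp using Submodule.span_induction with
    | mem z hz =>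
      obtain ⟨c, hc, rfl⟩ := hz
      have e : ltr U l * b * (ltr U l' * c) = ltr U l * (b * ltr U l' * c) := by
        simp only [mul_assoc]
      rw [e]
      exact pp_mem (Con.step l l' b c hb hcen hc)
    | zero =>
      rw [mul_zero]
      exact zero_mem _
    | add a c _ _ ha hc =>
      rw [mul_add]
      exact add_mem ha hc
    | smul a c _ hc =>
      rw [mul_smul_comm]
      exact Submodule.smul_mem _ _ hc
  · rw [mul_assoc]
    exact pp_mem (Con.base l _ (mul_mem hb hβ))

/-- Appending a letter to a word. -/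
theorem append (h : FHS W B U S T) {l : J × Bool} {c : Op H} (hc : CC W B U S T l c)
    {b' : Op H} (hb' : b' ∈ B) (m : J × Bool) :
    ltr U l * c * b' * ltr U m ∈ PP W B U S T l ⊔ B.toSubalgebra.toSubmodule := by
  induction hc with
  | base l b hb =>
    have hbb : b * b' ∈ B := mul_mem hb hb'
    by_cases hm : m = bar l
    · subst hm
      obtain ⟨c0, hc0, hcen, hd⟩ := hc_letters h l
      set a : ℂ := W.φF (rt S T l) (b * b') with ha
      have e : ltr U l * b * b' * ltr U (bar l) =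
          ltr U l * ((b * b' - a • c0) * ltr U (bar l) * 1) +
            a • (ltr U l * c0 * ltr U (bar l)) := by
        simp only [mul_assoc, sub_mul, mul_sub, smul_mul_assoc, mul_smul_comm, mul_one]
        abel
      rw [e]
      refine Submodule.add_mem_sup (pp_mem (Con.step l (bar l) _ _ ?_ ?_ (Con.base _ _ ?_))) ?_
      · exact sub_mem hbb (B.toSubalgebra.smul_mem hc0 a)
      · intro _
        rw [map_sub, map_smul, hcen, smul_eq_mul, mul_one, ← ha, sub_self]
      · exact one_mem B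
      · exact Submodule.smul_mem _ _ hd
    · have e : ltr U l * b * b' * ltr U m = ltr U l * ((b * b') * ltr U m * 1) := by
        simp only [mul_assoc, mul_one]
      rw [e]
      refine Submodule.mem_sup_left (pp_mem (Con.step l m _ _ hbb (fun hm' => absurd hm' hm)
        (Con.base _ _ (one_mem B))))
  | step l l' b c hb hcen _ ih =>
    have e : ltr U l * (b * ltr U l' * c) * b' * ltr U m =
        ltr U l * b * (ltr U l' * c * b' * ltr U m) := by
      simp only [mul_assoc]
    rw [e]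
    exact Submodule.mem_sup_left (pp_step hb hcen ih)

end KmsExtX

theorem FHS.kms_letter {U : J → Op H} {S T : J → Finset V} (h : FHS W B U S T) (j : J) :
    KMS W (vNa ((B : Set (Op H)) ∪ Set.range U)) (((T j).card : ℝ) / ((S j).card : ℝ)) (U j) := by
  have hSc : ((S j).card : ℂ) ≠ 0 := by
    have := Finset.card_ne_zero.2 (h.neS j)
    exact_mod_cast this
  have hTc : ((T j).card : ℂ) ≠ 0 := by
    have := Finset.card_ne_zero.2 (h.neT j)
    exact_mod_cast this
  have hUS : U j * W.eF (S j) = U j := h.ltr_mul (j, true)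
  have hTU : W.eF (T j) * U j = U j := h.mul_ltr (j, true)
  have hUS' : ∀ v, U j (W.eF (S j) v) = U j v := fun v =>
    congrArg (fun A : Op H => A v) hUS
  have hTU' : ∀ v, W.eF (T j) (U j v) = U j v := fun v =>
    congrArg (fun A : Op H => A v) hTU
  have hinn : ∀ (F : Finset V) (u v : H), ⟪u, W.eF F v⟫_ℂ = ⟪W.eF F u, v⟫_ℂ := fun F u v => by
    rw [inner_op_star, W.eF_sa]
  -- points outside the corners
  have hout : ∀ x y, (x ∉ S j ∨ y ∉ T j) → ∀ Y, dfc W (((T j).card : ℝ) / ((S j).card : ℝ))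
      (U j) x y Y = 0 := by
    intro x y hxy Y
    rw [dfc_apply]
    rcases hxy with hx | hy
    · have e1 : U j (W.e x (Y (W.ξ y))) = 0 := by
        rw [← hUS']
        have := congrArg (fun A : Op H => A (Y (W.ξ y))) (W.eF_mul_e_not hx)
        have h2 : W.eF (S j) (W.e x (Y (W.ξ y))) = 0 := this
        rw [h2, map_zero]
      have e2 : U j (W.ξ x) = 0 := by rw [← hUS', W.eF_ξ_not hx, map_zero]
      rw [e1, e2]
      simp
    · have e1 : ⟪W.ξ y, U j (W.e x (Y (W.ξ y)))⟫_ℂ = 0 := by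
        rw [← hTU', hinn, W.eF_ξ_not hy, inner_zero_left]
      have e2 : W.e y (U j (W.ξ x)) = 0 := by
        rw [← hTU']
        exact congrArg (fun A : Op H => A (U j (W.ξ x))) (W.e_mul_eF_not hy)
      rw [e1, e2]
      simp
  refine kms_of_words h ?_ ?_
  · intro Y hY x y
    by_cases hxy : x ∉ S j ∨ y ∉ T j
    · exact hout x y hxy Y
    rw [dfc_apply]
    have e1 := h.van 1 (one_mem B) (j, true) (W.e x * Y)
      (Con.base _ _ (mul_mem (h.mem_e x) hY)) y y
    have e2 := h.van (Y * W.e y) (mul_mem hY (h.mem_e y)) (j, true) 1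
      (Con.base _ _ (one_mem B)) x x
    have e1' : ⟪W.ξ y, U j (W.e x (Y (W.ξ y)))⟫_ℂ = 0 := e1
    have e2' : ⟪W.ξ x, Y (W.e y (U j (W.ξ x)))⟫_ℂ = 0 := e2
    rw [e1', e2', mul_zero, sub_zero]
  · intro b hb l d hd x y
    by_cases hxy : x ∉ S j ∨ y ∉ T j
    · exact hout x y hxy _
    push Not at hxy
    obtain ⟨hx, hy⟩ := hxy
    rw [dfc_apply]
    -- the right hand side vanishes when the appended word is reduced
    have hR : ltr U l * d * W.e y * ltr U (j, true) ∈ PP W B U S T l →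
        ⟪W.ξ x, (b * ltr U l * d) (W.e y (U j (W.ξ x)))⟫_ℂ = 0 := by
      intro hm
      exact pp_van h hm hb x x
    by_cases hl : l = (j, false)
    · subst hl
      -- the left hand side
      have hφ : W.φF (S j) (W.e x * b) = ⟪W.ξ x, b (W.ξ x)⟫_ℂ := by
        rw [W.φF_apply, Finset.sum_eq_single x]
        · have : (W.e x * b) (W.ξ x) = W.e x (b (W.ξ x)) := rfl
          rw [this, W.inner_e, W.eξ]
        · intro x' _ hx'
          have : (W.e x * b) (W.ξ x') = W.e x (b (W.ξ x')) := rfl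
          rw [this, W.inner_e, W.e_ξ_ne (Ne.symm hx'), inner_zero_left]
        · intro hx'
          exact absurd hx hx'
      set a : ℂ := ⟪W.ξ x, b (W.ξ x)⟫_ℂ with ha
      have hL : ⟪W.ξ y, U j (W.e x ((b * ltr U (j, false) * d) (W.ξ y)))⟫_ℂ =
          a / (S j).card * ⟪W.ξ y, d (W.ξ y)⟫_ℂ := by
        have hβ : W.e x * b - (a / (S j).card) • W.eF (S j) ∈ B :=
          sub_mem (mul_mem (h.mem_e x) hb) (B.toSubalgebra.smul_mem (W.eF_mem h.mem_e _) _)
        have hv := h.van 1 (one_mem B) (j, true)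
          ((W.e x * b - (a / (S j).card) • W.eF (S j)) * ltr U (j, false) * d)
          (Con.step (j, true) (j, false) _ d hβ (fun _ => by
            change W.φF (S j) (W.e x * b - (a / (S j).card) • W.eF (S j)) = 0
            rw [map_sub, map_smul, hφ, W.φF_eF, smul_eq_mul, div_mul_cancel₀ _ hSc, sub_self])
            hd) y y
        have hv' : ⟪W.ξ y, U j ((W.e x * b - (a / (S j).card) • W.eF (S j))
            (ltr U (j, false) (d (W.ξ y))))⟫_ℂ = 0 := hv
        have hT : U j (W.eF (S j) (ltr U (j, false) (d (W.ξ y)))) = W.eF (T j) (d (W.ξ y)) := by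
          have := congrArg (fun A : Op H => A (d (W.ξ y))) (h.conj_corner (j, true))
          exact this
        rw [sub_apply, smul_apply, map_sub, map_smul, hT, inner_sub_right,
          inner_smul_right, sub_eq_zero, hinn, W.eF_ξ_mem hy] at hv'
        exact hv'
      rw [hL]
      -- the right hand side
      have hd' := hd
      cases hd' with
      | base _ _ hdB =>
        have hφ' : W.φF (T j) (d * W.e y) = ⟪W.ξ y, d (W.ξ y)⟫_ℂ := by
          rw [W.φF_apply, Finset.sum_eq_single y]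
          · have : (d * W.e y) (W.ξ y) = d (W.e y (W.ξ y)) := rfl
            rw [this, W.eξ]
          · intro y' _ hy'
            have : (d * W.e y) (W.ξ y') = d (W.e y (W.ξ y')) := rfl
            rw [this, W.e_ξ_ne (Ne.symm hy'), map_zero, inner_zero_right]
          · intro hy'
            exact absurd hy hy'
        set a' : ℂ := ⟪W.ξ y, d (W.ξ y)⟫_ℂ with ha'
        have hγ : d * W.e y - (a' / (T j).card) • W.eF (T j) ∈ B :=
          sub_mem (mul_mem hdB (h.mem_e y)) (B.toSubalgebra.smul_mem (W.eF_mem h.mem_e _) _)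
        have hv := h.van b hb (j, false)
          ((d * W.e y - (a' / (T j).card) • W.eF (T j)) * ltr U (j, true) * 1)
          (Con.step (j, false) (j, true) _ 1 hγ (fun _ => by
            change W.φF (T j) (d * W.e y - (a' / (T j).card) • W.eF (T j)) = 0
            rw [map_sub, map_smul, hφ', W.φF_eF, smul_eq_mul, div_mul_cancel₀ _ hTc, sub_self])
            (Con.base _ _ (one_mem B))) x x
        have hv' : ⟪W.ξ x, b (ltr U (j, false) ((d * W.e y - (a' / (T j).card) • W.eF (T j))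
            (U j (W.ξ x))))⟫_ℂ = 0 := hv
        have hS : ltr U (j, false) (W.eF (T j) (U j (W.ξ x))) = W.ξ x := by
          have h3 := congrArg (fun A : Op H => A (W.ξ x)) (h.conj_corner (j, false))
          have h4 : ltr U (j, false) (W.eF (T j) (U j (W.ξ x))) = W.eF (S j) (W.ξ x) := h3
          rw [h4, W.eF_ξ_mem hx]
        rw [sub_apply, smul_apply, map_sub, map_smul, map_sub, map_smul, hS,
          inner_sub_right, inner_smul_right, sub_eq_zero] at hv'
        have e3 : ⟪W.ξ x, (b * ltr U (j, false) * d) (W.e y (U j (W.ξ x)))⟫_ℂ =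
            a' / (T j).card * a := hv'
        rw [e3]
        push_cast
        field_simp
        ring
      | step _ l' b1 c1 hb1 hcen hc1 =>
        have e4 : ⟪W.ξ y, (b1 * ltr U l' * c1) (W.ξ y)⟫_ℂ = 0 := h.van b1 hb1 l' c1 hc1 y y
        rw [e4, mul_zero]
        have hm : ltr U (j, false) * (b1 * ltr U l' * c1) * W.e y * ltr U (j, true) ∈
            PP W B U S T (j, false) := by
          have e : ltr U (j, false) * (b1 * ltr U l' * c1) * W.e y * ltr U (j, true) =
              ltr U (j, false) * b1 * (ltr U l' * c1 * W.e y * ltr U (j, true)) := by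
            simp only [mul_assoc]
          rw [e]
          exact pp_step hb1 hcen (append h hc1 (h.mem_e y) (j, true))
        rw [hR hm, mul_zero, sub_zero]
    · -- both sides vanish
      have hl' : (j, true) ≠ bar l := by
        intro h1
        apply hl
        have := congrArg bar h1
        rw [bar_bar] at this
        exact this.symm
      have hl'' : l ≠ bar (j, true) := hl
      have hL := h.van 1 (one_mem B) (j, true) (W.e x * b * ltr U l * d)
        (Con.step (j, true) l _ d (mul_mem (h.mem_e x) hb) (fun h1 => absurd h1 hl'') hd) y y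
      have hL' : ⟪W.ξ y, U j (W.e x ((b * ltr U l * d) (W.ξ y)))⟫_ℂ = 0 := hL
      have hm : ltr U l * d * W.e y * ltr U (j, true) ∈ PP W B U S T l := by
        have hd' := hd
        cases hd' with
        | base _ _ hdB =>
          have e : ltr U l * d * W.e y * ltr U (j, true) =
              ltr U l * ((d * W.e y) * ltr U (j, true) * 1) := by
            simp only [mul_assoc, mul_one]
          rw [e]
          exact pp_mem (Con.step l (j, true) _ _ (mul_mem hdB (h.mem_e y))
            (fun h1 => absurd h1 hl') (Con.base _ _ (one_mem B)))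
        | step _ l' b1 c1 hb1 hcen hc1 =>
          have e : ltr U l * (b1 * ltr U l' * c1) * W.e y * ltr U (j, true) =
              ltr U l * b1 * (ltr U l' * c1 * W.e y * ltr U (j, true)) := by
            simp only [mul_assoc]
          rw [e]
          exact pp_step hb1 hcen (append h hc1 (h.mem_e y) (j, true))
      rw [hL', hR hm, mul_zero, sub_zero]

end B

end Pool.Agent.MP9a76ab
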