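import Pool.Agent.Lib.MP_9a76ab_an.Defs2
import Pool.Agent.Lib.MP_9a76ab_an.KmsAlg
import Pool.Agent.Lib.MP_9a76ab_an.RepA
import Pool.Agent.Lib.MP_9a76ab_an.KmsExt

/-! KMS relation for group elements (module KPI of MP_9a76ab_an). -/

set_option autoImplicit false

namespace Pool.Agent.MP9a76ab

open scoped InnerProductSpace

section H
variable {Γ H : Type} [Group Γ] [NormedAddCommGroup H] [InnerProductSpace ℂ H] [CompleteSpace H]

namespace RepEX

section gen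
variable {V : Type} {a : Γ} {χ : V → Circle}

theorem pi_mul (R : TRep a χ H) (g h : Γ) (v : H) : R.π (g * h) v = R.π g (R.π h v) := by
  rw [map_mul]; rfl

theorem pi_one (R : TRep a χ H) (v : H) : R.π 1 v = v := by
  rw [map_one]; rfl

theorem pi_inv_a (R : TRep a χ H) (x : V) :
    R.π a⁻¹ (R.ξ x) = (((χ x)⁻¹ : Circle) : ℂ) • R.ξ x := by
  have h1 : R.π a⁻¹ (R.π a (R.ξ x)) = R.ξ x := by
    rw [← pi_mul, inv_mul_cancel, pi_one]
  rw [R.π_a, map_smul] at h1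
  rw [← h1, smul_smul, ← Circle.coe_mul]
  rw [h1]
  simp

theorem pi_zpow (R : TRep a χ H) (x : V) (k : ℤ) :
    R.π (a ^ k) (R.ξ x) = (((χ x) ^ k : Circle) : ℂ) • R.ξ x := by
  induction k with
  | zero => simp
  | succ k ih =>
    rw [zpow_add_one, pi_mul, R.π_a, map_smul, ih, smul_smul, zpow_add_one, Circle.coe_mul, mul_comm]
  | pred k ih =>
    rw [zpow_sub_one, pi_mul, pi_inv_a, map_smul, ih, smul_smul, zpow_sub_one, Circle.coe_mul, mul_comm]

theorem phi_a (R : TRep a χ H) (x : V) (k : ℤ) :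
    ⟪R.ξ x, R.π (a ^ k) (R.ξ x)⟫_ℂ = (((χ x) ^ k : Circle) : ℂ) := by
  rw [pi_zpow, inner_smul_right, inner_self_eq_norm_sq_to_K, R.norm_ξ]
  simp

theorem phi_not (R : TRep a χ H) (x : V) {g : Γ} (hg : g ∉ Subgroup.zpowers a) :
    ⟪R.ξ x, R.π g (R.ξ x)⟫_ℂ = 0 := R.orth g x x (Or.inl hg)

theorem inner_pi (R : TRep a χ H) (g : Γ) (u v : H) : ⟪R.π g u, v⟫_ℂ = ⟪u, R.π g⁻¹ v⟫_ℂ := by
  rw [← R.star_π, inner_star_op]

theorem eg_mem (R : TRep a χ H) (z : ℂ) : eg (R.π a) z ∈ vNa (Set.range R.π) := by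
  rw [mem_vNa_iff]
  intro T hT
  obtain ⟨h1, h2⟩ := hT _ ⟨a, rfl⟩
  refine eg_comm h1.symm ?_ z
  have := congrArg star h2
  simpa using this

theorem star_eg (A : Op H) (z : ℂ) : star (eg A z) = eg A z := by
  unfold eg
  exact (isSelfAdjoint_starProjection _).star_eq

theorem A_eg (A : Op H) (z : ℂ) (v : H) : A (eg A z v) = z • eg A z v := by
  have h : eg A z v ∈ LinearMap.ker ((A - z • (1 : Op H) : Op H) : H →ₗ[ℂ] H) := by
    unfold eg
    exact Submodule.starProjection_apply_mem _ _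
  rw [LinearMap.mem_ker] at h
  have h2 : A (eg A z v) - z • eg A z v = 0 := by simpa using h
  exact sub_eq_zero.1 h2

/-- the algebra generated by a representation is its linear span -/
theorem mem_span (R : TRep a χ H) {Y : Op H} (hY : Y ∈ StarAlgebra.adjoin ℂ (Set.range R.π)) :
    Y ∈ Submodule.span ℂ (Set.range R.π) := by
  induction hY using StarAlgebra.adjoin_induction with
  | mem x hx => exact Submodule.subset_span hx
  | algebraMap r =>
    rw [Algebra.algebraMap_eq_smul_one]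
    exact Submodule.smul_mem _ _ (Submodule.subset_span ⟨1, map_one _⟩)
  | add x y _ _ hx hy => exact add_mem hx hy
  | mul x y _ _ hx hy =>
    have h1 : x * y ∈ Submodule.span ℂ (Set.range R.π) * Submodule.span ℂ (Set.range R.π) :=
      Submodule.mul_mem_mul hx hy
    rw [Submodule.span_mul_span] at h1
    refine Submodule.span_mono ?_ h1
    rintro _ ⟨_, ⟨g, rfl⟩, _, ⟨h, rfl⟩, rfl⟩
    exact ⟨g * h, map_mul _ _ _⟩
  | star x hx' hx =>
    clear hx'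
    induction hx using Submodule.span_induction with
    | mem x hx =>
      obtain ⟨g, rfl⟩ := hx
      exact Submodule.subset_span ⟨g⁻¹, (R.star_π g).symm⟩
    | zero => simp
    | add x y _ _ hx hy => rw [star_add]; exact add_mem hx hy
    | smul c x _ hx => rw [star_smul]; exact Submodule.smul_mem _ _ hx

open KmsExtX in
/-- it is enough to check the KMS relation on the group -/
theorem kms_of_group {W : WSys V H} (R : TRep a χ H) {X : Op H} {c : ℝ}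
    (h : ∀ g x y, ⟪W.ξ y, X (W.e x (R.π g (W.ξ y)))⟫_ℂ =
      (c : ℂ) * ⟪W.ξ x, R.π g (W.e y (X (W.ξ x)))⟫_ℂ) :
    KMS W (vNa (Set.range R.π)) c X := by
  intro Y hY x y
  have halg : ∀ Z ∈ StarAlgebra.adjoin ℂ (Set.range R.π), dfc W c X x y Z = 0 := by
    intro Z hZ
    have hZ' := mem_span R hZ
    clear hZ
    induction hZ' using Submodule.span_induction with
    | mem Z hZ =>
      obtain ⟨g, rfl⟩ := hZ
      rw [dfc_apply, h, sub_self]
    | zero => rw [map_zero]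
    | add a b _ _ ha hb => rw [map_add, ha, hb, add_zero]
    | smul a b _ hb => rw [map_smul, hb, smul_zero]
  rw [← vNa_adjoin] at hY
  rw [← sub_eq_zero, ← dfc_apply]
  by_contra hne
  have hpos : 0 < ‖dfc W c X x y Y‖ := norm_pos_iff.2 hne
  set Q : ℝ := ‖X‖ * ‖W.e x‖ + |c| + 1 with hQ
  have hQ0 : 0 < Q := by positivity
  classical
  obtain ⟨Z, hZ, hZv⟩ := vNa_density _ hY {W.ξ y, W.e y (X (W.ξ x))}
    (ε := ‖dfc W c X x y Y‖ / (2 * Q)) (by positivity)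
  have b1 := dfc_bound (W := W) c X x y (Y - Z) (hZv _ (by simp)) (hZv _ (by simp))
  rw [map_sub, halg Z hZ, sub_zero] at b1
  have b2 : (‖X‖ * ‖W.e x‖ + |c|) * (‖dfc W c X x y Y‖ / (2 * Q)) ≤
      Q * (‖dfc W c X x y Y‖ / (2 * Q)) := by
    gcongr
    linarith
  have b3 : Q * (‖dfc W c X x y Y‖ / (2 * Q)) = ‖dfc W c X x y Y‖ / 2 := by
    field_simp
  linarith

end gen

section bs
variable {a t : Γ} {m n : ℤ}

theorem conj1 (hB : IsBS a t m n) (l : ℤ) : t * a ^ (m * l) * t⁻¹ = a ^ (n * l) := by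
  rw [zpow_mul, ← conj_zpow, hB.rel, ← zpow_mul]

theorem conj2 (hB : IsBS a t m n) (l : ℤ) : t⁻¹ * a ^ (n * l) * t = a ^ (m * l) := by
  rw [← conj1 hB l]; group

theorem not1 (hB : IsBS a t m n) {r : ℤ} (hr : ¬ m ∣ r) (q : ℤ) :
    t * a ^ r * t⁻¹ * a ^ q ∉ Subgroup.zpowers a := by
  have := hB.brit true (a ^ r * tp t false * a ^ q)
    (GRed.step true false r _ (fun _ => hr) (GRed.base false q))
  simpa [tp, mul_assoc] using this

theorem not2 (hB : IsBS a t m n) {r : ℤ} (hr : ¬ n ∣ r) :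
    t⁻¹ * a ^ r * t ∉ Subgroup.zpowers a := by
  have := hB.brit false (a ^ r * tp t true * a ^ (0 : ℤ))
    (GRed.step false true r _ (fun _ => hr) (GRed.base true 0))
  simpa [tp, mul_assoc] using this

theorem uniq_idx {d : ℤ} (hd : d ≠ 0) (p : ℤ) {j : ℕ} (hj : j ∈ Finset.range d.natAbs) :
    d ∣ p - j ↔ j = (p % d).toNat := by
  have h1 : 0 ≤ p % d := Int.emod_nonneg p hd
  have h2 : p % d < |d| := Int.emod_lt_abs p hd
  have h3 : (j : ℤ) < |d| := by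
    have := Finset.mem_range.1 hj
    rw [Int.abs_eq_natAbs]
    omega
  have h4 : p = d * (p / d) + p % d := (Int.mul_ediv_add_emod p d).symm
  constructor
  · intro h
    have h5 : d ∣ p % d - j := by
      have : p % d - j = (p - j) - d * (p / d) := by linarith
      rw [this]
      exact dvd_sub h (dvd_mul_right _ _)
    have h6 : |d| ∣ p % d - j := (abs_dvd _ _).2 h5
    have h7 : p % d - j = 0 := by
      refine Int.eq_zero_of_abs_lt_dvd h6 ?_
      rw [abs_lt]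
      constructor <;> omega
    omega
  · intro h
    have : (j : ℤ) = p % d := by omega
    rw [this]
    exact ⟨p / d, by linarith⟩

theorem idx_mem {d : ℤ} (hd : d ≠ 0) (p : ℤ) : (p % d).toNat ∈ Finset.range d.natAbs := by
  have h1 : 0 ≤ p % d := Int.emod_nonneg p hd
  have h2 : p % d < |d| := Int.emod_lt_abs p hd
  rw [Int.abs_eq_natAbs] at h2
  rw [Finset.mem_range]
  omega

variable {R : TRep a (fun x : VT m n => x.1) H}

theorem sum1 (hB : IsBS a t m n) (hm : m ≠ 0) (x y : VT m n) (hxy : x.1 ^ m = y.1 ^ n) (p q : ℤ) :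
    ∑ j ∈ Finset.range m.natAbs, ((x.1 ^ j : Circle) : ℂ) *
      ⟪R.ξ y, R.π (t * a ^ (-(j : ℤ)) * (a ^ p * t⁻¹ * a ^ q)) (R.ξ y)⟫_ℂ =
    ((x.1 ^ p * y.1 ^ q : Circle) : ℂ) := by
  rw [Finset.sum_eq_single_of_mem (p % m).toNat (idx_mem hm p)]
  · have h1 : 0 ≤ p % m := Int.emod_nonneg p hm
    have h2 : (((p % m).toNat : ℕ) : ℤ) = p % m := Int.toNat_of_nonneg h1
    have h4 : p = m * (p / m) + p % m := (Int.mul_ediv_add_emod p m).symm
    have e : t * a ^ (-(((p % m).toNat : ℕ) : ℤ)) * (a ^ p * t⁻¹ * a ^ q) =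
        a ^ (n * (p / m) + q) := by
      have e2 : t * a ^ (-(((p % m).toNat : ℕ) : ℤ)) * (a ^ p * t⁻¹ * a ^ q) =
          (t * a ^ (m * (p / m)) * t⁻¹) * a ^ q := by
        have e3 : m * (p / m) = -(((p % m).toNat : ℕ) : ℤ) + p := by rw [h2]; linarith
        rw [e3, zpow_add]; group
      rw [e2, conj1 hB, ← zpow_add]
    rw [e, phi_a, ← Circle.coe_mul]
    congr 1
    have e5 : x.1 ^ (p % m).toNat = x.1 ^ (p % m) := by
      rw [← zpow_natCast, h2]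
    change x.1 ^ (p % m).toNat * y.1 ^ (n * (p / m) + q) = x.1 ^ p * y.1 ^ q
    rw [e5, zpow_add, zpow_mul, ← hxy, ← zpow_mul, ← mul_assoc, ← zpow_add]
    congr 2
    linarith
  · intro j hj hne
    have h3 : ¬ m ∣ p - j := fun h => hne ((uniq_idx hm p hj).1 h)
    have e : t * a ^ (-(j : ℤ)) * (a ^ p * t⁻¹ * a ^ q) = t * a ^ (p - j) * t⁻¹ * a ^ q := by
      have e3 : p - (j : ℤ) = -(j : ℤ) + p := by ring
      rw [e3, zpow_add]; group
    rw [e, phi_not R y (not1 hB h3 q), mul_zero]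

theorem sum2 (hB : IsBS a t m n) (hn : n ≠ 0) (x y : VT m n) (hxy : x.1 ^ m = y.1 ^ n) (p q : ℤ) :
    ∑ i ∈ Finset.range n.natAbs, (((y.1 ^ i)⁻¹ : Circle) : ℂ) *
      ⟪R.ξ x, R.π ((a ^ p * t⁻¹ * a ^ q) * a ^ (i : ℤ) * t) (R.ξ x)⟫_ℂ =
    ((x.1 ^ p * y.1 ^ q : Circle) : ℂ) := by
  rw [Finset.sum_eq_single_of_mem ((-q) % n).toNat (idx_mem hn (-q))]
  · have h1 : 0 ≤ (-q) % n := Int.emod_nonneg _ hn
    have h2 : ((((-q) % n).toNat : ℕ) : ℤ) = (-q) % n := Int.toNat_of_nonneg h1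
    have h4 : -q = n * ((-q) / n) + (-q) % n := (Int.mul_ediv_add_emod (-q) n).symm
    have h5 : q + (-q) % n = n * (-((-q) / n)) := by linarith
    have e : (a ^ p * t⁻¹ * a ^ q) * a ^ ((((-q) % n).toNat : ℕ) : ℤ) * t =
        a ^ (p + m * (-((-q) / n))) := by
      rw [h2]
      have e2 : (a ^ p * t⁻¹ * a ^ q) * a ^ ((-q) % n) * t =
          a ^ p * (t⁻¹ * a ^ (q + (-q) % n) * t) := by
        rw [zpow_add]; group
      rw [e2, h5, conj2 hB, ← zpow_add]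
    rw [e, phi_a, ← Circle.coe_mul]
    congr 1
    have e5 : y.1 ^ ((-q) % n).toNat = y.1 ^ ((-q) % n) := by
      rw [← zpow_natCast, h2]
    change (y.1 ^ ((-q) % n).toNat)⁻¹ * x.1 ^ (p + m * (-((-q) / n))) = x.1 ^ p * y.1 ^ q
    rw [e5, zpow_add, zpow_mul, hxy, ← zpow_mul, ← h5, mul_comm, mul_assoc, ← zpow_neg, ← zpow_add]
    congr 2
    ring
  · intro j hj hne
    have h3 : ¬ n ∣ q + j := fun h => hne ((uniq_idx hn (-q) hj).1 (by
      have := (dvd_neg (α := ℤ)).2 h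
      have e : -q - (j : ℤ) = -(q + j) := by ring
      rwa [e]))
    have e : (a ^ p * t⁻¹ * a ^ q) * a ^ (j : ℤ) * t = a ^ p * (t⁻¹ * a ^ (q + j) * t) := by
      rw [zpow_add]; group
    have h6 : a ^ p * (t⁻¹ * a ^ (q + j) * t) ∉ Subgroup.zpowers a := fun h =>
      not2 hB h3 ((Subgroup.mul_mem_cancel_left _ (Subgroup.zpow_mem_zpowers a p)).1 h)
    rw [e, phi_not R x h6, mul_zero]

/-- the two sums agree for every group element -/
theorem sums (hB : IsBS a t m n) (hm : m ≠ 0) (hn : n ≠ 0) (x y : VT m n)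
    (hxy : x.1 ^ m = y.1 ^ n) (h : Γ) :
    ∑ j ∈ Finset.range m.natAbs, ((x.1 ^ j : Circle) : ℂ) *
      ⟪R.ξ y, R.π (t * a ^ (-(j : ℤ)) * h) (R.ξ y)⟫_ℂ =
    ∑ i ∈ Finset.range n.natAbs, (((y.1 ^ i)⁻¹ : Circle) : ℂ) *
      ⟪R.ξ x, R.π (h * a ^ (i : ℤ) * t) (R.ξ x)⟫_ℂ := by
  by_cases hh : ∃ p q : ℤ, h = a ^ p * t⁻¹ * a ^ q
  · obtain ⟨p, q, rfl⟩ := hh
    rw [sum1 hB hm x y hxy, sum2 hB hn x y hxy]
  · rw [Finset.sum_eq_zero, Finset.sum_eq_zero]
    · intro i _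
      rw [phi_not, mul_zero]
      rintro ⟨k, hk⟩
      refine hh ⟨k, -i, ?_⟩
      change a ^ k = h * a ^ (i : ℤ) * t at hk
      rw [hk]; group
    · intro j _
      rw [phi_not, mul_zero]
      rintro ⟨k, hk⟩
      refine hh ⟨j, k, ?_⟩
      change a ^ k = t * a ^ (-(j : ℤ)) * h at hk
      rw [hk]; group

omit [CompleteSpace H] in
theorem coe_zpow_smul {c : Circle} {j : ℕ} (u v : H) (g : Γ) (A : Γ → Op H)
    (hA : ∀ g u v, ⟪A g u, v⟫_ℂ = ⟪u, A g⁻¹ v⟫_ℂ) :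
    ⟪(((c ^ j)⁻¹ : Circle) : ℂ) • A g u, v⟫_ℂ = ((c ^ j : Circle) : ℂ) * ⟪u, A g⁻¹ v⟫_ℂ := by
  rw [inner_smul_left, hA, Circle.coe_inv_eq_conj, Complex.conj_conj]

/-- the KMS relation for the stable letter and group elements -/
theorem kms_t (hB : IsBS a t m n) (hm : 2 < |m|) (hn : |m| < n) (W : WSys (VT m n) H)
    (hWe : ∀ x, W.e x = eg (R.π a) ((x.1 : Circle) : ℂ)) (hWξ : ∀ x, W.ξ x = R.ξ x) (h : Γ)
    (x y : VT m n) :
    ⟪W.ξ y, R.π t (W.e x (R.π h (W.ξ y)))⟫_ℂ =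
      ((((n : ℝ) / |(m : ℝ)|) : ℝ) : ℂ) * ⟪W.ξ x, R.π h (W.e y (R.π t (W.ξ x)))⟫_ℂ := by
  have hm0 : m ≠ 0 := by rintro rfl; simp at hm
  have hn0 : 0 < n := by have := abs_nonneg m; omega
  have hn0' : n ≠ 0 := hn0.ne'
  have e1 : ⟪W.ξ y, R.π t (W.e x (R.π h (W.ξ y)))⟫_ℂ =
      ⟪W.e x (R.π t⁻¹ (W.ξ y)), R.π h (W.ξ y)⟫_ℂ := by
    rw [← W.inner_e, inner_pi, inv_inv]
  have hu1 : R.π (a ^ m) (R.π t⁻¹ (R.ξ y)) = ((y.1 ^ n : Circle) : ℂ) • R.π t⁻¹ (R.ξ y) := by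
    rw [← pi_mul]
    have : a ^ m * t⁻¹ = t⁻¹ * a ^ n := by rw [← hB.rel]; group
    rw [this, pi_mul, pi_zpow, map_smul]
  have hu2 : R.π (a ^ n) (R.π t (R.ξ x)) = ((x.1 ^ m : Circle) : ℂ) • R.π t (R.ξ x) := by
    rw [← pi_mul]
    have : a ^ n * t = t * a ^ m := by rw [← hB.rel]; group
    rw [this, pi_mul, pi_zpow, map_smul]
  have g1 := eg_apply R hm0 (y.1 ^ n) x.1 hu1
  have g2 := eg_apply R hn0' (x.1 ^ m) y.1 hu2
  rw [e1]
  simp only [hWξ, hWe]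
  by_cases hxy : x.1 ^ m = y.1 ^ n
  · rw [g1.1 hxy, g2.1 hxy.symm]
    rw [inner_smul_left, sum_inner]
    simp only [map_smul, map_sum, inner_smul_right, inner_sum]
    have e2 : ∀ j ∈ Finset.range m.natAbs,
        ⟪(((x.1 ^ j)⁻¹ : Circle) : ℂ) • R.π (a ^ j) (R.π t⁻¹ (R.ξ y)), R.π h (R.ξ y)⟫_ℂ =
        ((x.1 ^ j : Circle) : ℂ) * ⟪R.ξ y, R.π (t * a ^ (-(j : ℤ)) * h) (R.ξ y)⟫_ℂ := by
      intro j _
      rw [← pi_mul, coe_zpow_smul (R.ξ y) (R.π h (R.ξ y)) (a ^ j * t⁻¹) R.π (inner_pi R), ← pi_mul]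
      congr 4
      group
    have e3 : ∀ i ∈ Finset.range n.natAbs,
        (((y.1 ^ i)⁻¹ : Circle) : ℂ) * ⟪R.ξ x, R.π h (R.π (a ^ i) (R.π t (R.ξ x)))⟫_ℂ =
        (((y.1 ^ i)⁻¹ : Circle) : ℂ) * ⟪R.ξ x, R.π (h * a ^ (i : ℤ) * t) (R.ξ x)⟫_ℂ := by
      intro i _
      rw [zpow_natCast, pi_mul, pi_mul]
    rw [Finset.sum_congr rfl e2, Finset.sum_congr rfl e3, sums hB hm0 hn0' x y hxy h]
    rw [← mul_assoc]
    congr 1
    have c1 : ((m.natAbs : ℕ) : ℝ) = |(m : ℝ)| := by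
      rw [← Int.cast_abs, Int.abs_eq_natAbs]; simp
    have c2 : ((n.natAbs : ℕ) : ℝ) = (n : ℝ) := by
      have : ((n.natAbs : ℕ) : ℤ) = n := Int.natAbs_of_nonneg hn0.le
      calc ((n.natAbs : ℕ) : ℝ) = (((n.natAbs : ℕ) : ℤ) : ℝ) := (Int.cast_natCast _).symm
        _ = (n : ℝ) := by rw [this]
    have c1' : ((m.natAbs : ℕ) : ℂ) = ((|(m : ℝ)| : ℝ) : ℂ) := by rw [← c1, Complex.ofReal_natCast]
    have c2' : ((n.natAbs : ℕ) : ℂ) = (((n : ℝ) : ℝ) : ℂ) := by rw [← c2, Complex.ofReal_natCast]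
    rw [c1', c2', map_inv₀, Complex.conj_ofReal]
    have d1 : (n : ℝ) ≠ 0 := by exact_mod_cast hn0'
    have d2 : |(m : ℝ)| ≠ 0 := by
      rw [abs_ne_zero]; exact_mod_cast hm0
    rw [← Complex.ofReal_inv, ← Complex.ofReal_inv, ← Complex.ofReal_mul]
    congr 1
    field_simp
  · rw [g1.2 hxy, g2.2 (Ne.symm hxy)]
    simp

end bs

end RepEX

variable {a t : Γ} {m n : ℤ}

open RepEX in
theorem kms_pi (hB : IsBS a t m n) (hm : 2 < |m|) (hn : |m| < n)
    (R : TRep a (fun x : VT m n => x.1) H) (W : WSys (VT m n) H)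
    (hWe : ∀ x, W.e x = eg (R.π a) ((x.1 : Circle) : ℂ)) (hWξ : ∀ x, W.ξ x = R.ξ x)
    (d : Γ →* Multiplicative ℤ) (da : d a = 1) (dt : d t = Multiplicative.ofAdd 1) (g : Γ) :
    KMS W (vNa (Set.range R.π)) (((n : ℝ) / |(m : ℝ)|) ^ (Multiplicative.toAdd (d g))) (R.π g) := by
  have hm0 : m ≠ 0 := by rintro rfl; simp at hm
  have hn0 : 0 < n := by have := abs_nonneg m; omega
  have hκ : (n : ℝ) / |(m : ℝ)| ≠ 0 := by
    have d1 : (n : ℝ) ≠ 0 := by exact_mod_cast hn0.ne'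
    have d2 : |(m : ℝ)| ≠ 0 := by
      rw [abs_ne_zero]; exact_mod_cast hm0
    positivity
  have hM : ∀ x, W.e x ∈ vNa (Set.range R.π) := fun x => by rw [hWe]; exact eg_mem R _
  have hπ : ∀ g, R.π g ∈ vNa (Set.range R.π) := fun g => subset_vNa _ ⟨g, rfl⟩
  have hg : g ∈ Subgroup.closure {a, t} := by rw [hB.gen]; exact Subgroup.mem_top g
  induction hg using Subgroup.closure_induction with
  | mem g hg =>
    rcases hg with rfl | hg
    · rw [da]
      intro Y hY x y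
      have e1 : ∀ v, R.π g (W.e x v) = ((x.1 : Circle) : ℂ) • W.e x v := by
        intro v; rw [hWe]; exact A_eg _ _ v
      rw [e1, inner_smul_right, W.inner_e, hWξ x, R.π_a, map_smul, map_smul, inner_smul_right]
      simp only [toAdd_one, zpow_zero, Complex.ofReal_one, one_mul]
      congr 1
      rw [← hWξ x]
      by_cases hxy : x = y
      · subst hxy
        rw [W.eξ]
      · rw [W.e_ξ_ne hxy, W.e_ξ_ne (Ne.symm hxy), inner_zero_left, map_zero, inner_zero_right]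
    · rw [Set.mem_singleton_iff] at hg
      subst hg
      rw [dt]
      have : ((n : ℝ) / |(m : ℝ)|) ^ (Multiplicative.toAdd (Multiplicative.ofAdd (1 : ℤ))) =
          (n : ℝ) / |(m : ℝ)| := by simp
      rw [this]
      exact kms_of_group R fun h x y => kms_t hB hm hn W hWe hWξ h x y
  | one =>
    rw [map_one d, map_one R.π]
    intro Y hY x y
    simp only [toAdd_one, zpow_zero, Complex.ofReal_one, one_mul, one_apply_eq_self]
    rw [W.inner_e]
    by_cases hxy : x = y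
    · subst hxy
      rw [W.eξ]
    · rw [W.e_ξ_ne hxy, W.e_ξ_ne (Ne.symm hxy), inner_zero_left, map_zero, inner_zero_right]
  | mul g h _ _ hg hh =>
    rw [map_mul d, map_mul R.π, toAdd_mul, zpow_add₀ hκ]
    exact KMS.mul hM (hπ g) (hπ h) hg hh
  | inv g _ hg =>
    rw [← R.star_π, map_inv d, toAdd_inv, zpow_neg]
    exact KMS.conj hM (zpow_ne_zero _ hκ) (hπ g) hg

end H

end Pool.Agent.MP9a76ab
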