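import Pool.Agent.Lib.MP_9a76ab_an.Defs2
import Pool.Agent.Lib.MP_9a76ab_an.Dens

/-! MP_9a76ab_an, module NODE: the node algebras are factors (ping-pong). -/

set_option autoImplicit false

namespace Pool.Agent.MP9a76ab

open scoped InnerProductSpace

section H
variable {Γ H : Type} [Group Γ] [NormedAddCommGroup H] [InnerProductSpace ℂ H] [CompleteSpace H]

namespace RepGX

theorem inner_pi {V : Type} {a : Γ} {χ : V → Circle} (R : TRep a χ H) (g h : Γ) (u v : H) :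
    ⟪R.π g u, R.π h v⟫_ℂ = ⟪u, R.π (g⁻¹ * h) v⟫_ℂ := by
  rw [map_mul, ← R.star_π]
  change _ = ⟪u, star (R.π g) (R.π h v)⟫_ℂ
  rw [inner_star_op]

theorem pi_inv_mul {V : Type} {a : Γ} {χ : V → Circle} (R : TRep a χ H) (g : Γ) :
    R.π g⁻¹ * R.π g = 1 := by rw [← map_mul, inv_mul_cancel, map_one]

theorem pi_mul_inv {V : Type} {a : Γ} {χ : V → Circle} (R : TRep a χ H) (g : Γ) :
    R.π g * R.π g⁻¹ = 1 := by rw [← map_mul, mul_inv_cancel, map_one]

theorem star_span {V : Type} {a : Γ} {χ : V → Circle} (R : TRep a χ H) {x : Op H}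
    (hx : x ∈ Submodule.span ℂ (Set.range R.π)) : star x ∈ Submodule.span ℂ (Set.range R.π) := by
  induction hx using Submodule.span_induction with
  | mem x hx =>
    obtain ⟨g, rfl⟩ := hx
    rw [R.star_π]
    exact Submodule.subset_span ⟨_, rfl⟩
  | zero => rw [star_zero]; exact Submodule.zero_mem _
  | add x y _ _ hx hy => rw [star_add]; exact Submodule.add_mem _ hx hy
  | smul c x _ hx => rw [star_smul]; exact Submodule.smul_mem _ _ hx

theorem span_of_adjoin {V : Type} {a : Γ} {χ : V → Circle} (R : TRep a χ H) {Y : Op H}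
    (hY : Y ∈ StarAlgebra.adjoin ℂ (Set.range R.π)) : Y ∈ Submodule.span ℂ (Set.range R.π) := by
  induction hY using StarAlgebra.adjoin_induction with
  | mem x hx => exact Submodule.subset_span hx
  | algebraMap r =>
    rw [Algebra.algebraMap_eq_smul_one, ← map_one R.π]
    exact Submodule.smul_mem _ _ (Submodule.subset_span ⟨1, rfl⟩)
  | add x y _ _ hx hy => exact Submodule.add_mem _ hx hy
  | mul x y _ _ hx hy =>
    have h1 : x * y ∈ Submodule.span ℂ (Set.range R.π) * Submodule.span ℂ (Set.range R.π) :=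
      Submodule.mul_mem_mul hx hy
    rw [Submodule.span_mul_span] at h1
    refine Submodule.span_mono ?_ h1
    rintro _ ⟨_, ⟨g, rfl⟩, _, ⟨h, rfl⟩, rfl⟩
    exact ⟨g * h, map_mul _ _ _⟩
  | star x _ hx => exact star_span R hx

/-- two matrix coefficients which agree on the group agree on the von Neumann algebra -/
theorem dens_ext {V : Type} {a : Γ} {χ : V → Circle} (R : TRep a χ H) {X : Op H}
    (hX : X ∈ vNa (Set.range R.π)) (u1 v1 u2 v2 : H)
    (h : ∀ g, ⟪u1, R.π g v1⟫_ℂ = ⟪u2, R.π g v2⟫_ℂ) : ⟪u1, X v1⟫_ℂ = ⟪u2, X v2⟫_ℂ := by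
  classical
  have hs : ∀ Y ∈ Submodule.span ℂ (Set.range R.π), ⟪u1, Y v1⟫_ℂ = ⟪u2, Y v2⟫_ℂ := by
    intro Y hY
    induction hY using Submodule.span_induction with
    | mem x hx => obtain ⟨g, rfl⟩ := hx; exact h g
    | zero => simp
    | add x y _ _ hx hy =>
      change ⟪u1, x v1 + y v1⟫_ℂ = ⟪u2, x v2 + y v2⟫_ℂ
      rw [inner_add_right, inner_add_right, hx, hy]
    | smul c x _ hx =>
      change ⟪u1, c • x v1⟫_ℂ = ⟪u2, c • x v2⟫_ℂ
      rw [inner_smul_right, inner_smul_right, hx]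
  rw [← vNa_adjoin] at hX
  have hle : ∀ ε > 0, ‖⟪u1, X v1⟫_ℂ - ⟪u2, X v2⟫_ℂ‖ ≤ (‖u1‖ + ‖u2‖) * ε := by
    intro ε hε
    obtain ⟨Y, hY, hYF⟩ := vNa_density _ hX {v1, v2} hε
    have h1 := hYF v1 (by simp)
    have h2 := hYF v2 (by simp)
    have h3 := hs Y (span_of_adjoin R hY)
    have h4 : ⟪u1, X v1⟫_ℂ - ⟪u2, X v2⟫_ℂ = ⟪u1, (X - Y) v1⟫_ℂ - ⟪u2, (X - Y) v2⟫_ℂ := by
      simp only [sub_apply, inner_sub_right]
      rw [h3]; ring
    rw [h4]
    refine (norm_sub_le _ _).trans ?_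
    have h5 := norm_inner_le_norm (𝕜 := ℂ) u1 ((X - Y) v1)
    have h6 := norm_inner_le_norm (𝕜 := ℂ) u2 ((X - Y) v2)
    have h7 := mul_le_mul_of_nonneg_left h1.le (norm_nonneg u1)
    have h8 := mul_le_mul_of_nonneg_left h2.le (norm_nonneg u2)
    linarith
  have h0 : ‖⟪u1, X v1⟫_ℂ - ⟪u2, X v2⟫_ℂ‖ ≤ 0 := by
    refine le_of_forall_pos_le_add fun ε hε => ?_
    have hpos : 0 < ‖u1‖ + ‖u2‖ + 1 := by positivity
    have := hle (ε / (‖u1‖ + ‖u2‖ + 1)) (by positivity)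
    refine this.trans ?_
    rw [zero_add, mul_div_assoc', div_le_iff₀ hpos]
    nlinarith [norm_nonneg u1, norm_nonneg u2]
  exact sub_eq_zero.1 (norm_eq_zero.1 (le_antisymm h0 (norm_nonneg _)))

/-- the vectors `X η` are in the cyclic space of the group -/
theorem orth_zero {V : Type} {a : Γ} {χ : V → Circle} (R : TRep a χ H) {X : Op H}
    (hX : X ∈ vNa (Set.range R.π)) (η : H) (c : ℂ)
    (h : ∀ g, ⟪R.π g η, X η - c • η⟫_ℂ = 0) : X η = c • η := by
  have h1 : ∀ w, (∀ g, ⟪w, R.π g η⟫_ℂ = 0) → ⟪w, X η⟫_ℂ = 0 := by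
    intro w hw
    have := dens_ext R hX w η 0 η (fun g => by rw [hw g, inner_zero_left])
    rw [this, inner_zero_left]
  have h2 : ∀ g, ⟪X η - c • η, R.π g η⟫_ℂ = 0 := fun g => by
    rw [← inner_conj_symm, h g, map_zero]
  have h3 := h1 _ h2
  have h4 : ⟪X η - c • η, η⟫_ℂ = 0 := by
    have := h2 1
    rwa [map_one] at this
  have h5 : ⟪X η - c • η, X η - c • η⟫_ℂ = 0 := by
    rw [inner_sub_right, h3, inner_smul_right, h4, mul_zero, sub_zero]
  exact sub_eq_zero.1 (inner_self_eq_zero.1 h5)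

/-- an abstract ping-pong -/
theorem pingpong {𝒳 : Type} (F : 𝒳 → ENNReal) (hF : ∑' q, F q ≠ ⊤)
    (κ₀ κ : Equiv.Perm 𝒳) (P M : Set 𝒳) (hd : ∀ q, q ∈ P → q ∉ M)
    (h0F : ∀ q, F (κ₀ q) = F q) (h1F : ∀ q, F (κ q) = F q)
    (h0 : ∀ q ∈ M, κ₀ q ∈ P) (h1 : ∀ q ∈ P, κ q ∈ M) (h2 : ∀ q ∈ P, κ (κ q) ∈ M)
    (q : 𝒳) (hq : q ∈ P ∨ q ∈ M) : F q = 0 := by
  classical
  set SP := ∑' q, P.indicator F q with hSP
  set SM := ∑' q, M.indicator F q with hSM
  have hSPf : SP ≠ ⊤ :=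
    ne_top_of_le_ne_top hF (ENNReal.tsum_le_tsum fun q => Set.indicator_le_self _ _ _)
  have e1 : SM ≤ SP := by
    rw [hSP, ← Equiv.tsum_eq κ₀ (fun q => P.indicator F q), hSM]
    refine ENNReal.tsum_le_tsum fun q => ?_
    by_cases hq : q ∈ M
    · rw [Set.indicator_of_mem hq, Set.indicator_of_mem (h0 q hq), h0F]
    · rw [Set.indicator_of_notMem hq]; exact zero_le
  have e2 : ∀ κ' : Equiv.Perm 𝒳, (∀ q, F (κ' q) = F q) →
      ∑' q, P.indicator F (κ'.symm q) = SP := fun κ' hκ' =>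
    Equiv.tsum_eq κ'.symm (fun q => P.indicator F q)
  have e3 : SP + SP ≤ SM := by
    have f1 := e2 κ h1F
    have f2 := e2 (κ.trans κ) (fun q => by simp [h1F])
    calc SP + SP = ∑' q, (P.indicator F (κ.symm q) + P.indicator F ((κ.trans κ).symm q)) := by
          rw [ENNReal.tsum_add, f1, f2]
      _ ≤ SM := by
          refine ENNReal.tsum_le_tsum fun q => ?_
          have g1 : ∀ q, F (κ.symm q) = F q := fun q => by
            rw [← h1F (κ.symm q), Equiv.apply_symm_apply]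
          by_cases hq1 : κ.symm q ∈ P
          · have hqM : q ∈ M := by have := h1 _ hq1; rwa [Equiv.apply_symm_apply] at this
            have hq2 : (κ.trans κ).symm q ∉ P := by
              intro hc
              have := h1 _ hc
              simp only [Equiv.symm_trans_apply, Equiv.apply_symm_apply] at this
              exact hd _ hq1 this
            rw [Set.indicator_of_mem hq1, Set.indicator_of_notMem hq2, add_zero,
              Set.indicator_of_mem hqM, g1]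
          · rw [Set.indicator_of_notMem hq1, zero_add]
            by_cases hq2 : (κ.trans κ).symm q ∈ P
            · have hqM : q ∈ M := by
                have := h2 _ hq2
                simpa using this
              rw [Set.indicator_of_mem hq2, Set.indicator_of_mem hqM]
              simp only [Equiv.symm_trans_apply]
              rw [g1, g1]
            · rw [Set.indicator_of_notMem hq2]; exact zero_le
  have e4 : SP = 0 := by
    have h := e3.trans e1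
    by_contra hne
    have h3 : SP < SP + SP := ENNReal.lt_add_right hSPf hne
    exact absurd h (not_le.2 h3)
  have e5 : SM = 0 := le_antisymm (e1.trans e4.le) zero_le
  rcases hq with hq | hq
  · have := (ENNReal.tsum_eq_zero.1 e4) q
    rwa [Set.indicator_of_mem hq] at this
  · have := (ENNReal.tsum_eq_zero.1 e5) q
    rwa [Set.indicator_of_mem hq] at this

/-- conjugation on the cosets of a subgroup by an element centralising it -/
def cj (K : Subgroup Γ) (δ : Γ) (hδ : ∀ k ∈ K, δ * k = k * δ) : Equiv.Perm (Γ ⧸ K) where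
  toFun := Quotient.map' (fun g => δ * g * δ⁻¹) (fun g h hgh => by
    rw [QuotientGroup.leftRel_apply] at hgh ⊢
    have e : (δ * g * δ⁻¹)⁻¹ * (δ * h * δ⁻¹) = δ * (g⁻¹ * h) * δ⁻¹ := by group
    rw [e, hδ _ hgh, mul_inv_cancel_right]
    exact hgh)
  invFun := Quotient.map' (fun g => δ⁻¹ * g * δ) (fun g h hgh => by
    rw [QuotientGroup.leftRel_apply] at hgh ⊢
    have e : (δ⁻¹ * g * δ)⁻¹ * (δ⁻¹ * h * δ) = δ⁻¹ * ((g⁻¹ * h) * δ) := by group
    rw [e, ← hδ _ hgh, inv_mul_cancel_left]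
    exact hgh)
  left_inv := by
    rintro ⟨g⟩
    change (QuotientGroup.mk (δ⁻¹ * (δ * g * δ⁻¹) * δ) : Γ ⧸ K) = QuotientGroup.mk g
    congr 1; group
  right_inv := by
    rintro ⟨g⟩
    change (QuotientGroup.mk (δ * (δ⁻¹ * g * δ) * δ⁻¹) : Γ ⧸ K) = QuotientGroup.mk g
    congr 1; group

theorem cj_mk (K : Subgroup Γ) (δ : Γ) (hδ : ∀ k ∈ K, δ * k = k * δ) (g : Γ) :
    cj K δ hδ (QuotientGroup.mk g) = QuotientGroup.mk (δ * g * δ⁻¹) := rfl

theorem key {V : Type} {a : Γ} {χ : V → Circle} (R : TRep a χ H) {X : Op H}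
    (hX : X ∈ vNa (Set.range R.π)) (K : Subgroup Γ) (η : H) (hη : ‖η‖ = 1)
    (h0 : ∀ k, k ∉ K → ⟪η, R.π k η⟫_ℂ = 0)
    (hK : ∀ k ∈ K, ∃ z : ℂ, ‖z‖ = 1 ∧ R.π k η = z • η)
    (α β : Γ) (hα : ∀ k ∈ K, α * k = k * α) (hβ : ∀ k ∈ K, β * k = k * β)
    (Xα : X * R.π α = R.π α * X) (Xβ : X * R.π β = R.π β * X)
    (Z : Set Γ) (hZK : ∀ g ∈ Z, ∀ k ∈ K, g * k ∈ Z)
    (hza : ∀ g ∈ Z, α * g * α⁻¹ ∉ Z ∧ α * g * α⁻¹ ∉ K)
    (hzb : ∀ g, g ∉ Z → g ∉ K → β * g * β⁻¹ ∈ Z ∧ β * (β * g * β⁻¹) * β⁻¹ ∈ Z) :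
    ∃ c : ℂ, X η = c • η := by
  classical
  refine ⟨⟪η, X η⟫_ℂ, orth_zero R hX η _ fun g => ?_⟩
  have hηη : ⟪η, η⟫_ℂ = 1 := by rw [inner_self_eq_norm_sq_to_K, hη]; simp
  by_cases hgK : g ∈ K
  · obtain ⟨z, -, hz⟩ := hK g hgK
    rw [hz, inner_smul_left, inner_sub_right, inner_smul_right, hηη, mul_one, sub_self, mul_zero]
  rw [inner_sub_right, inner_smul_right]
  have e0 : ⟪R.π g η, η⟫_ℂ = 0 := by rw [← inner_conj_symm, h0 g hgK, map_zero]
  rw [e0, mul_zero, sub_zero]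
  -- the matrix coefficient
  set C : Γ → ℂ := fun g => ⟪R.π g η, X η⟫_ℂ with hC
  change C g = 0
  -- invariance under conjugation
  have hconj : ∀ δ : Γ, (∀ k ∈ K, δ * k = k * δ) → X * R.π δ = R.π δ * X →
      ∀ g, C (δ * g * δ⁻¹) = C g := by
    intro δ hδ hXδ g
    have hXδ' : R.π δ⁻¹ * X = X * R.π δ⁻¹ := by
      calc R.π δ⁻¹ * X = R.π δ⁻¹ * X * (R.π δ * R.π δ⁻¹) := by rw [pi_mul_inv, mul_one]
        _ = R.π δ⁻¹ * (X * R.π δ) * R.π δ⁻¹ := by noncomm_ring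
        _ = (R.π δ⁻¹ * R.π δ) * X * R.π δ⁻¹ := by rw [hXδ]; noncomm_ring
        _ = X * R.π δ⁻¹ := by rw [pi_inv_mul, one_mul]
    have hΦ : ∀ k, ⟪η, R.π (δ * k * δ⁻¹) η⟫_ℂ = ⟪η, R.π k η⟫_ℂ := by
      intro k
      by_cases hk : k ∈ K
      · rw [hδ k hk, mul_inv_cancel_right]
      · rw [h0 k hk, h0]
        intro hc
        apply hk
        have h1 := hδ _ hc
        have h2 : δ * (δ * k * δ⁻¹) * δ⁻¹ = δ * k * δ⁻¹ := by rw [h1, mul_inv_cancel_right]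
        have h3 : δ * k * δ⁻¹ = k := by
          have : δ⁻¹ * (δ * (δ * k * δ⁻¹) * δ⁻¹) * δ = δ⁻¹ * (δ * k * δ⁻¹) * δ := by rw [h2]
          have h4 : δ⁻¹ * (δ * (δ * k * δ⁻¹) * δ⁻¹) * δ = δ * k * δ⁻¹ := by group
          have h5 : δ⁻¹ * (δ * k * δ⁻¹) * δ = k := by group
          rw [h4, h5] at this
          exact this
        rwa [h3] at hc
    have e1 : C (δ * g * δ⁻¹) = ⟪R.π (g * δ⁻¹) η, X (R.π δ⁻¹ η)⟫_ℂ := by
      have h1 : R.π (δ * g * δ⁻¹) η = R.π δ (R.π (g * δ⁻¹) η) := by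
        rw [mul_assoc, map_mul]; rfl
      have h2 : ⟪R.π δ (R.π (g * δ⁻¹) η), X η⟫_ℂ = ⟪R.π (g * δ⁻¹) η, R.π δ⁻¹ (X η)⟫_ℂ := by
        rw [← R.star_π, inner_star_op]
      have h3 : R.π δ⁻¹ (X η) = X (R.π δ⁻¹ η) := congrArg (fun A : Op H => A η) hXδ'
      rw [hC]
      simp only
      rw [h1, h2, h3]
    rw [e1]
    refine dens_ext R hX _ _ _ _ fun h => ?_
    have h1 : R.π h (R.π δ⁻¹ η) = R.π (h * δ⁻¹) η := by rw [map_mul]; rfl
    rw [h1, inner_pi, inner_pi, ← hΦ (g⁻¹ * h)]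
    congr 3
    group
  -- the function on the cosets
  have hCK : ∀ g, ∀ k ∈ K, ‖C (g * k)‖ = ‖C g‖ := by
    intro g k hk
    obtain ⟨z, hz1, hz⟩ := hK k hk
    have h1 : R.π (g * k) η = z • R.π g η := by
      rw [map_mul]; change R.π g (R.π k η) = _; rw [hz, map_smul]
    simp only [hC]
    rw [h1, inner_smul_left, norm_mul, RCLike.norm_conj, hz1, one_mul]
  set F : Γ ⧸ K → ENNReal := fun q => ENNReal.ofReal (‖C q.out‖ ^ 2) with hF
  have hFmk : ∀ g, F (QuotientGroup.mk g) = ENNReal.ofReal (‖C g‖ ^ 2) := by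
    intro g
    obtain ⟨k, hk⟩ := QuotientGroup.mk_out_eq_mul K g
    simp only [hF]
    rw [hk, hCK g _ k.2]
  have hon : Orthonormal ℂ (fun q : Γ ⧸ K => R.π q.out η) := by
    refine ⟨fun q => ?_, fun q q' hqq' => ?_⟩
    · have h1 : ⟪R.π q.out η, R.π q.out η⟫_ℂ = 1 := by
        rw [inner_pi, inv_mul_cancel, map_one]; exact hηη
      rw [inner_self_C] at h1
      have h2 : ‖R.π q.out η‖ ^ 2 = 1 := by exact_mod_cast h1
      nlinarith [norm_nonneg (R.π q.out η)]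
    · change ⟪R.π q.out η, R.π q'.out η⟫_ℂ = 0
      rw [inner_pi]
      apply h0
      intro hc
      apply hqq'
      rw [← QuotientGroup.out_eq' q, ← QuotientGroup.out_eq' q']
      exact QuotientGroup.eq.2 hc
  have hFs : ∑' q, F q ≠ ⊤ := by
    have h1 := hon.inner_products_summable (x := X η)
    have h2 := ENNReal.ofReal_tsum_of_nonneg (fun q : Γ ⧸ K => sq_nonneg ‖⟪R.π q.out η, X η⟫_ℂ‖) h1
    change ∑' q : Γ ⧸ K, ENNReal.ofReal (‖⟪R.π q.out η, X η⟫_ℂ‖ ^ 2) ≠ ⊤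
    rw [← h2]
    exact ENNReal.ofReal_ne_top
  set M : Set (Γ ⧸ K) := {q | ∃ g ∈ Z, (QuotientGroup.mk g : Γ ⧸ K) = q} with hM
  have hMmk : ∀ g, (QuotientGroup.mk g : Γ ⧸ K) ∈ M ↔ g ∈ Z := by
    intro g
    constructor
    · rintro ⟨g', hg', he⟩
      have h1 := QuotientGroup.eq.1 he
      have h2 := hZK g' hg' _ h1
      rwa [mul_inv_cancel_left] at h2
    · exact fun hg => ⟨g, hg, rfl⟩
  set P : Set (Γ ⧸ K) := {q | q ∉ M ∧ q ≠ QuotientGroup.mk 1} with hP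
  have hPmk : ∀ g, (QuotientGroup.mk g : Γ ⧸ K) ∈ P ↔ g ∉ Z ∧ g ∉ K := by
    intro g
    have h1 : (QuotientGroup.mk g : Γ ⧸ K) = QuotientGroup.mk 1 ↔ g ∈ K := by
      rw [eq_comm, QuotientGroup.eq]; simp
    change (_ ∉ M ∧ _ ≠ _) ↔ _
    rw [hMmk, Ne, h1]
  have hinv : ∀ δ : Γ, ∀ hδ : (∀ k ∈ K, δ * k = k * δ), X * R.π δ = R.π δ * X →
      ∀ q, F (cj K δ hδ q) = F q := by
    rintro δ hδ hXδ ⟨g⟩
    change F (QuotientGroup.mk (δ * g * δ⁻¹)) = F (QuotientGroup.mk g)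
    rw [hFmk, hFmk, hconj δ hδ hXδ]
  have hpp := pingpong F hFs (cj K α hα) (cj K β hβ) P M (fun q hq => hq.1)
    (hinv α hα Xα) (hinv β hβ Xβ)
    (by
      rintro ⟨g⟩ hg
      change (QuotientGroup.mk (α * g * α⁻¹) : Γ ⧸ K) ∈ P
      exact (hPmk _).2 (hza g ((hMmk g).1 hg)))
    (by
      rintro ⟨g⟩ hg
      change (QuotientGroup.mk (β * g * β⁻¹) : Γ ⧸ K) ∈ M
      obtain ⟨g1, g2⟩ := (hPmk g).1 hg
      exact (hMmk _).2 (hzb g g1 g2).1)
    (by
      rintro ⟨g⟩ hg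
      change (QuotientGroup.mk (β * (β * g * β⁻¹) * β⁻¹) : Γ ⧸ K) ∈ M
      obtain ⟨g1, g2⟩ := (hPmk g).1 hg
      exact (hMmk _).2 (hzb g g1 g2).2)
    (QuotientGroup.mk g) (by
      by_cases hg : g ∈ Z
      · exact Or.inr ((hMmk g).2 hg)
      · exact Or.inl ((hPmk g).2 ⟨hg, hgK⟩))
  rw [hFmk, ENNReal.ofReal_eq_zero] at hpp
  have h1 : ‖C g‖ = 0 := by nlinarith [norm_nonneg (C g)]
  exact norm_eq_zero.1 h1

/-! ### the circle -/

theorem circle_root {n : ℤ} (hn : n ≠ 0) (c : Circle) : ∃ z : Circle, z ^ n = c := by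
  refine ⟨Circle.exp (Complex.arg c / n), ?_⟩
  rw [← Circle.exp_intCast_mul, mul_div_cancel₀ _ (by exact_mod_cast hn), Circle.exp_arg]

theorem circle_prim {m : ℤ} (hm : m ≠ 0) :
    ∃ ζ : Circle, ζ ^ m = 1 ∧ ∀ j : ℤ, ζ ^ j = 1 → m ∣ j := by
  have hm' : (m : ℝ) ≠ 0 := by exact_mod_cast hm
  refine ⟨Circle.exp (2 * Real.pi / m), ?_, fun j hj => ?_⟩
  · rw [← Circle.exp_intCast_mul, mul_div_cancel₀ _ hm', Circle.exp_two_pi]
  · rw [← Circle.exp_intCast_mul, Circle.exp_eq_one] at hj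
    obtain ⟨k, hk⟩ := hj
    refine ⟨k, ?_⟩
    have hpi : (2 * Real.pi : ℝ) ≠ 0 := by positivity
    have h1 : (j : ℝ) * (2 * Real.pi) = m * k * (2 * Real.pi) := by
      field_simp at hk
      rw [hk]
    have h2 := mul_right_cancel₀ hpi h1
    exact_mod_cast h2

theorem vset_same {m n : ℤ} (hn : n ≠ 0) {x y : Circle} (hx : VSet m n x) (h : y ^ m = x ^ m) :
    VSet m n y := by
  obtain ⟨z, hz⟩ := circle_root hn (x ^ m)
  exact VSet.down z y (VSet.up x z hx hz) (h.trans hz.symm)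

theorem sum_zero {m n : ℤ} (hm : m ≠ 0) (hn : n ≠ 0) (c : Circle) (S : Finset (VT m n))
    (hS : ∀ x, x ∈ S ↔ x.1 ^ m = c) {j : ℤ} (hj : ¬ m ∣ j) :
    ∑ x ∈ S, ((x.1 ^ j : Circle) : ℂ) = 0 := by
  obtain ⟨ζ, h1, h2⟩ := circle_prim hm
  have hmem : ∀ (w : Circle), w ^ m = 1 → ∀ x : VT m n, VSet m n (w * x.1) := fun w hw x =>
    vset_same hn x.2 (by rw [mul_zpow, hw, one_mul])
  have hζ' : ζ⁻¹ ^ m = 1 := by rw [inv_zpow, h1, inv_one]
  have e : ∑ x ∈ S, ((x.1 ^ j : Circle) : ℂ) =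
      ∑ x ∈ S, (((ζ * x.1) ^ j : Circle) : ℂ) := by
    symm
    refine Finset.sum_nbij' (fun x => (⟨ζ * x.1, hmem ζ h1 x⟩ : VT m n))
      (fun x => (⟨ζ⁻¹ * x.1, hmem _ hζ' x⟩ : VT m n)) ?_ ?_ ?_ ?_ ?_
    · intro x hx
      rw [hS] at hx ⊢
      rw [mul_zpow, h1, one_mul, hx]
    · intro x hx
      rw [hS] at hx ⊢
      rw [mul_zpow, hζ', one_mul, hx]
    · intro x _
      exact Subtype.ext (inv_mul_cancel_left _ _)
    · intro x _
      exact Subtype.ext (mul_inv_cancel_left _ _)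
    · intro x _
      rfl
  have e2 : ∑ x ∈ S, (((ζ * x.1) ^ j : Circle) : ℂ) =
      ((ζ ^ j : Circle) : ℂ) * ∑ x ∈ S, ((x.1 ^ j : Circle) : ℂ) := by
    rw [Finset.mul_sum]
    refine Finset.sum_congr rfl fun x _ => ?_
    rw [mul_zpow, Circle.coe_mul]
  rw [e2] at e
  have e3 : (1 - ((ζ ^ j : Circle) : ℂ)) * ∑ x ∈ S, ((x.1 ^ j : Circle) : ℂ) = 0 := by
    rw [sub_mul, one_mul, ← e, sub_self]
  rcases mul_eq_zero.1 e3 with h | h
  · exfalso
    apply hj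
    apply h2
    have h3 : ((ζ ^ j : Circle) : ℂ) = 1 := (sub_eq_zero.1 h).symm
    exact Circle.ext (by rw [h3]; rfl)
  · exact h

/-! ### eigenprojections -/

theorem mul_eg (A : Op H) (z : ℂ) : A * eg A z = z • eg A z := by
  ext v
  have h : eg A z v ∈ LinearMap.ker ((A - z • (1 : Op H) : Op H) : H →ₗ[ℂ] H) :=
    Submodule.starProjection_apply_mem _ _
  have h2 : (A - z • (1 : Op H)) (eg A z v) = 0 := h
  have h3 : A (eg A z v) - z • eg A z v = 0 := h2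
  exact sub_eq_zero.1 h3

theorem eg_comm' {A T : Op H} (h1 : T * A = A * T) (h2 : star T * A = A * star T) (z : ℂ) :
    T * eg A z = eg A z * T := by
  set K := LinearMap.ker ((A - z • (1 : Op H) : Op H) : H →ₗ[ℂ] H) with hK
  have hmem : ∀ T' : Op H, T' * A = A * T' → ∀ u ∈ K, T' u ∈ K := by
    intro T' hT' u hu
    have h3 : A u - z • u = 0 := hu
    change A (T' u) - z • T' u = 0
    have h4 : A (T' u) = T' (A u) := (congrArg (fun B : Op H => B u) hT').symm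
    rw [h4, ← map_smul, ← map_sub, h3, map_zero]
  ext v
  change T (K.starProjection v) = K.starProjection (T v)
  refine (Submodule.eq_starProjection_of_mem_orthogonal
    (hmem T h1 _ (Submodule.starProjection_apply_mem _ _)) ?_).symm
  rw [← map_sub, Submodule.mem_orthogonal]
  intro u hu
  rw [inner_op_star]
  exact (Submodule.mem_orthogonal _ _).1
    (Submodule.sub_starProjection_mem_orthogonal v) _ (hmem _ h2 u hu)

theorem eigen_zpow {V : Type} {a : Γ} {χ : V → Circle} (R : TRep a χ H) (g : Γ) (z : Circle)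
    (u : H) (h : R.π g u = (z : ℂ) • u) (j : ℤ) : R.π (g ^ j) u = ((z ^ j : Circle) : ℂ) • u := by
  have hinv : R.π g⁻¹ u = ((z⁻¹ : Circle) : ℂ) • u := by
    have h1 : R.π g⁻¹ (R.π g u) = u := congrArg (fun A : Op H => A u) (pi_inv_mul R g)
    rw [h, map_smul] at h1
    have h2 : ((z⁻¹ : Circle) : ℂ) • ((z : ℂ) • R.π g⁻¹ u) = ((z⁻¹ : Circle) : ℂ) • u := by rw [h1]
    rw [smul_smul, ← Circle.coe_mul, inv_mul_cancel, Circle.coe_one, one_smul] at h2
    exact h2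
  induction j using Int.induction_on with
  | zero => rw [zpow_zero, zpow_zero, map_one, Circle.coe_one, one_smul]; rfl
  | succ i ih =>
    rw [zpow_add_one, zpow_add_one, map_mul]
    change R.π (g ^ (i : ℤ)) (R.π g u) = _
    rw [h, map_smul, ih, smul_smul, Circle.coe_mul, mul_comm]
  | pred i ih =>
    rw [zpow_sub_one, zpow_sub_one, map_mul]
    change R.π (g ^ (-(i : ℤ))) (R.π g⁻¹ u) = _
    rw [hinv, map_smul, ih, smul_smul, Circle.coe_mul, mul_comm]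

end RepGX

variable {a t : Γ} {m n : ℤ}

open RepGX in
theorem node_rep (hB : IsBS a t m n) (hm : 2 < |m|) (hn : |m| < n)
    (R : TRep a (fun x : VT m n => x.1) H) (W : WSys (VT m n) H)
    (hWe : ∀ x, W.e x = eg (R.π a) ((x.1 : Circle) : ℂ)) (hWξ : ∀ x, W.ξ x = R.ξ x)
    (S T : BT m n → Finset (VT m n))
    (hS : ∀ χ x, x ∈ S χ ↔ x.1 ^ m = χ.1) (hT : ∀ χ x, x ∈ T χ ↔ x.1 ^ n = χ.1)
    (hte : ∀ χ, R.π t * W.eF (S χ) = W.eF (T χ) * R.π t)
    (hsep : ∀ X ∈ vNa (Set.range R.π), (∀ x, X (W.ξ x) = 0) → X = 0)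
    (χ : BT m n) (X : Op H) (hX : X ∈ vNa (Set.range R.π)) (h1 : W.eF (S χ) * X = X)
    (h2 : X * W.eF (S χ) = X) (h3 : ∀ x ∈ S χ, W.e x * X = X * W.e x)
    (h4 : ∀ y ∈ T χ, (star (R.π t) * W.e y * R.π t) * X = X * (star (R.π t) * W.e y * R.π t)) :
    ∃ c : ℂ, X = c • W.eF (S χ) := by
  classical
  have hm0 : m ≠ 0 := by rintro rfl; simp at hm
  have hn3 : 3 < n := by omega
  have hn0 : n ≠ 0 := by omega
  set e := W.eF (S χ) with he
  set f := W.eF (T χ) with hf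
  -- the generator on the eigenprojections
  have hAe : ∀ x, R.π a * W.e x = ((x.1 : Circle) : ℂ) • W.e x := fun x => by
    rw [hWe]; exact mul_eg _ _
  have heA : ∀ x, W.e x * R.π a = ((x.1 : Circle) : ℂ) • W.e x := by
    intro x
    have g1 : W.e x = ((x.1 : Circle) : ℂ) • (R.π a⁻¹ * W.e x) := by
      rw [← mul_smul_comm, ← hAe, ← mul_assoc, pi_inv_mul, one_mul]
    have g2 := congrArg star g1
    rw [star_smul, star_mul, R.star_π, inv_inv, W.sa] at g2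
    have g3 : ((x.1 : Circle) : ℂ) * star ((x.1 : Circle) : ℂ) = 1 := by
      rw [Complex.star_def, Complex.mul_conj, Circle.normSq_coe]; simp
    conv_rhs => rw [g2, smul_smul, g3, one_smul]
  have hAeF : ∀ F : Finset (VT m n), R.π a * W.eF F = ∑ x ∈ F, ((x.1 : Circle) : ℂ) • W.e x :=
    fun F => by
      rw [WSys.eF, Finset.mul_sum]
      exact Finset.sum_congr rfl fun x _ => hAe x
  have heFA : ∀ F : Finset (VT m n), W.eF F * R.π a = ∑ x ∈ F, ((x.1 : Circle) : ℂ) • W.e x :=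
    fun F => by
      rw [WSys.eF, Finset.sum_mul]
      exact Finset.sum_congr rfl fun x _ => heA x
  -- X commutes with a
  have Xa : X * R.π a = R.π a * X := by
    have g1 : (∑ x ∈ S χ, ((x.1 : Circle) : ℂ) • W.e x) * X =
        X * ∑ x ∈ S χ, ((x.1 : Circle) : ℂ) • W.e x := by
      rw [Finset.sum_mul, Finset.mul_sum]
      refine Finset.sum_congr rfl fun x hx => ?_
      rw [smul_mul_assoc, mul_smul_comm, h3 x hx]
    calc X * R.π a = X * (e * R.π a) := by rw [← mul_assoc, h2]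
      _ = X * ∑ x ∈ S χ, ((x.1 : Circle) : ℂ) • W.e x := by rw [he, heFA]
      _ = (R.π a * e) * X := by rw [← g1, he, hAeF]
      _ = R.π a * X := by rw [mul_assoc, h1]
  -- X commutes with t⁻¹ a t
  have hte' : e * R.π t⁻¹ = R.π t⁻¹ * f := by
    have g1 := congrArg star (hte χ)
    rw [star_mul, star_mul, R.star_π, W.eF_sa, W.eF_sa] at g1
    exact g1
  have Xb : X * R.π (t⁻¹ * a * t) = R.π (t⁻¹ * a * t) * X := by
    have g0 : R.π (t⁻¹ * a * t) = R.π t⁻¹ * R.π a * R.π t := by rw [map_mul, map_mul]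
    have g1 : e * R.π (t⁻¹ * a * t) =
        ∑ y ∈ T χ, ((y.1 : Circle) : ℂ) • (star (R.π t) * W.e y * R.π t) := by
      calc e * R.π (t⁻¹ * a * t) = (e * R.π t⁻¹) * R.π a * R.π t := by rw [g0]; noncomm_ring
        _ = R.π t⁻¹ * (f * R.π a) * R.π t := by rw [hte']; noncomm_ring
        _ = _ := by
            rw [hf, heFA, Finset.mul_sum, Finset.sum_mul]
            refine Finset.sum_congr rfl fun y _ => ?_
            rw [R.star_π, mul_smul_comm, smul_mul_assoc]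
    have g2 : R.π (t⁻¹ * a * t) * e =
        ∑ y ∈ T χ, ((y.1 : Circle) : ℂ) • (star (R.π t) * W.e y * R.π t) := by
      calc R.π (t⁻¹ * a * t) * e = R.π t⁻¹ * R.π a * (R.π t * e) := by rw [g0]; noncomm_ring
        _ = R.π t⁻¹ * (R.π a * f) * R.π t := by rw [he, hte χ]; noncomm_ring
        _ = _ := by
            rw [hf, hAeF, Finset.mul_sum, Finset.sum_mul]
            refine Finset.sum_congr rfl fun y _ => ?_
            rw [R.star_π, mul_smul_comm, smul_mul_assoc]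
    have g3 : (∑ y ∈ T χ, ((y.1 : Circle) : ℂ) • (star (R.π t) * W.e y * R.π t)) * X =
        X * ∑ y ∈ T χ, ((y.1 : Circle) : ℂ) • (star (R.π t) * W.e y * R.π t) := by
      rw [Finset.sum_mul, Finset.mul_sum]
      refine Finset.sum_congr rfl fun y hy => ?_
      rw [smul_mul_assoc, mul_smul_comm, h4 y hy]
    calc X * R.π (t⁻¹ * a * t) = X * (e * R.π (t⁻¹ * a * t)) := by rw [← mul_assoc, h2]
      _ = (R.π (t⁻¹ * a * t) * e) * X := by rw [g1, ← g3, ← g2]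
      _ = R.π (t⁻¹ * a * t) * X := by rw [mul_assoc, h1]
  -- the vector
  set ξ : H := ∑ x ∈ S χ, W.ξ x with hξ
  have heξ : ∀ x ∈ S χ, W.e x ξ = W.ξ x := by
    intro x hx
    rw [hξ, map_sum, Finset.sum_eq_single x]
    · exact W.eξ x
    · intro y _ hy; exact W.e_ξ_ne (Ne.symm hy)
    · intro h; exact absurd hx h
  obtain ⟨x0, hx0V, hx0⟩ := χ.2
  have hx0S : (⟨x0, hx0V⟩ : VT m n) ∈ S χ := (hS χ _).2 hx0
  have hξ0 : ξ ≠ 0 := by
    intro h0
    have g1 := heξ _ hx0S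
    rw [h0, map_zero] at g1
    have g2 := W.norm_ξ ⟨x0, hx0V⟩
    rw [← g1, norm_zero] at g2
    exact zero_ne_one g2
  have hnξ : ‖ξ‖ ≠ 0 := norm_ne_zero_iff.2 hξ0
  -- the matrix coefficients of ξ
  have hπξ : ∀ (j : ℤ) (x : VT m n), R.π (a ^ j) (W.ξ x) = ((x.1 ^ j : Circle) : ℂ) • W.ξ x :=
    fun j x => by
      have g1 : R.π a (W.ξ x) = ((x.1 : Circle) : ℂ) • W.ξ x := by rw [hWξ]; exact R.π_a x
      exact eigen_zpow R a x.1 _ g1 j
  have hcoef : ∀ k, k ∉ Subgroup.zpowers (a ^ m) → ⟪ξ, R.π k ξ⟫_ℂ = 0 := by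
    intro k hk
    by_cases hka : k ∈ Subgroup.zpowers a
    · obtain ⟨j, rfl⟩ := Subgroup.mem_zpowers_iff.1 hka
      have hj : ¬ m ∣ j := by
        rintro ⟨l, rfl⟩
        exact hk (Subgroup.mem_zpowers_iff.2 ⟨l, by rw [zpow_mul]⟩)
      rw [← sum_zero hm0 hn0 χ.1 (S χ) (hS χ) hj]
      rw [hξ, map_sum, sum_inner]
      refine Finset.sum_congr rfl fun x hx => ?_
      rw [inner_sum, Finset.sum_eq_single x]
      · rw [hπξ, inner_smul_right, W.inner_ξ_self, mul_one]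
      · intro y _ hy
        rw [hπξ, inner_smul_right, W.inner_ξ_ne (Ne.symm hy), mul_zero]
      · intro h; exact absurd hx h
    · rw [hξ, map_sum, sum_inner]
      refine Finset.sum_eq_zero fun x _ => ?_
      rw [inner_sum]
      refine Finset.sum_eq_zero fun y _ => ?_
      rw [hWξ, hWξ]
      exact R.orth k x y (Or.inl hka)
  have hKξ : ∀ k ∈ Subgroup.zpowers (a ^ m), ∃ z : ℂ, ‖z‖ = 1 ∧ R.π k ξ = z • ξ := by
    intro k hk
    obtain ⟨l, rfl⟩ := Subgroup.mem_zpowers_iff.1 hk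
    refine ⟨((χ.1 ^ l : Circle) : ℂ), Circle.norm_coe _, ?_⟩
    refine eigen_zpow R (a ^ m) χ.1 ξ ?_ l
    rw [hξ, map_sum, Finset.smul_sum]
    refine Finset.sum_congr rfl fun x hx => ?_
    rw [hπξ, (hS χ x).1 hx]
  -- the normalised vector
  set η : H := ((‖ξ‖⁻¹ : ℝ) : ℂ) • ξ with hη
  have hη1 : ‖η‖ = 1 := by
    rw [hη, norm_smul, Complex.norm_real, norm_inv, norm_norm, inv_mul_cancel₀ hnξ]
  -- group theory
  have hβm : ∀ l : ℤ, (t⁻¹ * a * t) * (a ^ m) ^ l = (a ^ m) ^ l * (t⁻¹ * a * t) := by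
    have g1 : a ^ m = t⁻¹ * a ^ n * t := by
      rw [← hB.rel]; group
    have g2 : Commute (t⁻¹ * a * t) (a ^ m) := by
      change _ * _ = _ * _
      rw [g1]
      have e1 : (t⁻¹ * a * t) * (t⁻¹ * a ^ n * t) = t⁻¹ * (a * a ^ n) * t := by group
      have e2 : (t⁻¹ * a ^ n * t) * (t⁻¹ * a * t) = t⁻¹ * (a ^ n * a) * t := by group
      rw [e1, e2, (Commute.self_zpow a n).eq]
    exact fun l => (g2.zpow_right l).eq
  obtain ⟨Z, z1, z2, z3, z4, z5⟩ := hB.pp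
  have hconj : ∀ g, g ∉ Subgroup.zpowers (a ^ m) →
      (t⁻¹ * a * t) * g * (t⁻¹ * a * t)⁻¹ ∉ Subgroup.zpowers (a ^ m) := by
    intro g hg hc
    apply hg
    obtain ⟨l, hl⟩ := Subgroup.mem_zpowers_iff.1 hc
    refine Subgroup.mem_zpowers_iff.2 ⟨l, ?_⟩
    have e1 : g = (t⁻¹ * a * t)⁻¹ * ((t⁻¹ * a * t) * g * (t⁻¹ * a * t)⁻¹) * (t⁻¹ * a * t) := by
      group
    rw [e1, ← hl, mul_assoc, ← hβm l, inv_mul_cancel_left]
  have hstep : ∀ (i : ℤ) (g : Γ), ¬ n ∣ i → g ∉ Z → g ∉ Subgroup.zpowers (a ^ m) →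
      (t⁻¹ * a ^ i * t) * g * (t⁻¹ * a ^ i * t)⁻¹ ∉ Subgroup.zpowers (a ^ m) →
      (t⁻¹ * a ^ i * t) * g * (t⁻¹ * a ^ i * t)⁻¹ ∈ Z := by
    intro i g hi hgZ hgK hgK'
    rw [z3 _ hgK']
    have g1 : g * t⁻¹ ∉ Z := fun hc => hgZ ((z3 g hgK).2 hc)
    have g2 := z1 _ (z5 i hi _ g1) (-i)
    have e1 : (t⁻¹ * a ^ i * t) * g * (t⁻¹ * a ^ i * t)⁻¹ * t⁻¹ =
        t⁻¹ * a ^ i * t * (g * t⁻¹) * a ^ (-i) := by
      rw [zpow_neg]; group
    rw [e1]
    exact g2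
  obtain ⟨c, hc⟩ := key R hX (Subgroup.zpowers (a ^ m)) η hη1
    (fun k hk => by
      rw [hη, map_smul, inner_smul_left, inner_smul_right, hcoef k hk, mul_zero, mul_zero])
    (fun k hk => by
      obtain ⟨z, hz1, hz⟩ := hKξ k hk
      exact ⟨z, hz1, by rw [hη, map_smul, hz, smul_comm]⟩)
    a (t⁻¹ * a * t)
    (fun k hk => by
      obtain ⟨l, rfl⟩ := Subgroup.mem_zpowers_iff.1 hk
      exact ((Commute.refl a).zpow_right m |>.zpow_right l).eq)
    (fun k hk => by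
      obtain ⟨l, rfl⟩ := Subgroup.mem_zpowers_iff.1 hk
      exact hβm l)
    Xa Xb Z
    (fun g hg k hk => by
      obtain ⟨l, rfl⟩ := Subgroup.mem_zpowers_iff.1 hk
      rw [← zpow_mul]
      exact z1 g hg _)
    (fun g hg => by
      have g1 := z1 g hg (-1)
      have hm1 : ¬ m ∣ 1 := by
        intro hd
        have := Int.isUnit_iff.1 (isUnit_of_dvd_one hd)
        rcases this with rfl | rfl <;> simp at hm
      have g2 := z4 1 hm1 _ g1
      have e1 : a ^ (1 : ℤ) * (g * a ^ (-1 : ℤ)) = a * g * a⁻¹ := by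
        rw [zpow_one, zpow_neg_one, mul_assoc]
      rwa [e1] at g2)
    (fun g hgZ hgK => by
      have hd1 : ¬ n ∣ 1 := fun hd => by
        have := Int.le_of_dvd one_pos hd; omega
      have hd2 : ¬ n ∣ 2 := fun hd => by
        have := Int.le_of_dvd two_pos hd; omega
      have k1 := hconj g hgK
      have k2 := hconj _ k1
      have g1 := hstep 1 g hd1 hgZ hgK (by rw [zpow_one]; exact k1)
      rw [zpow_one] at g1
      have e2 : (t⁻¹ * a ^ (2 : ℤ) * t) * g * (t⁻¹ * a ^ (2 : ℤ) * t)⁻¹ =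
          (t⁻¹ * a * t) * ((t⁻¹ * a * t) * g * (t⁻¹ * a * t)⁻¹) * (t⁻¹ * a * t)⁻¹ := by
        have e3 : a ^ (2 : ℤ) = a * a := zpow_two a
        rw [e3]
        simp only [mul_inv_rev, inv_inv, mul_assoc, mul_inv_cancel_left]
      have g2 := hstep 2 g hd2 hgZ hgK (by rw [e2]; exact k2)
      rw [e2] at g2
      exact ⟨g1, g2⟩)
  -- back to ξ
  have hXξ : X ξ = c • ξ := by
    have g1 : ((‖ξ‖⁻¹ : ℝ) : ℂ) • X ξ = ((‖ξ‖⁻¹ : ℝ) : ℂ) • (c • ξ) := by
      rw [← map_smul, ← hη, hc, hη, smul_comm]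
    have g2 : ((‖ξ‖⁻¹ : ℝ) : ℂ) ≠ 0 := by
      exact_mod_cast inv_ne_zero hnξ
    exact smul_right_injective H g2 g1
  refine ⟨c, ?_⟩
  have hemem : e ∈ vNa (Set.range R.π) := by
    refine sum_mem fun x _ => ?_
    rw [mem_vNa_iff]
    intro A hA
    rw [hWe]
    have g1 : A * R.π a = R.π a * A := (hA _ ⟨a, rfl⟩).1.symm
    have g2 : star A * R.π a = R.π a * star A := by
      have := (hA _ ⟨a, rfl⟩).2
      have h5 := congrArg star this
      simpa using h5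
    exact eg_comm' g1 g2 _
  have hfin := hsep (X - c • e) (sub_mem hX ((vNa (Set.range R.π)).smul_mem hemem c)) (fun x => by
    by_cases hx : x ∈ S χ
    · have g1 : X (W.ξ x) = c • W.ξ x := by
        have g2 : X (W.e x ξ) = W.e x (X ξ) := (congrArg (fun A : Op H => A ξ) (h3 x hx)).symm
        rw [heξ x hx, hXξ, map_smul, heξ x hx] at g2
        exact g2
      change X (W.ξ x) - c • e (W.ξ x) = 0
      rw [he, W.eF_ξ_mem hx, g1, sub_self]
    · have g1 : X (W.ξ x) = 0 := by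
        have g2 : X (e (W.ξ x)) = X (W.ξ x) := congrArg (fun A : Op H => A (W.ξ x)) h2
        rw [← g2, he, W.eF_ξ_not hx, map_zero]
      change X (W.ξ x) - c • e (W.ξ x) = 0
      rw [he, W.eF_ξ_not hx, g1, smul_zero, sub_self])
  exact sub_eq_zero.1 hfin

end H

end Pool.Agent.MP9a76ab
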