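import Pool.Agent.Lib.MP_9a76ab_an.Defs3
import Pool.Agent.Lib.MP_9a76ab_an.GrpA
import Pool.Agent.Lib.MP_9a76ab_an.CircA
import Pool.Agent.Lib.MP_9a76ab_an.CircB
import Pool.Agent.Lib.MP_9a76ab_an.RepA
import Pool.Agent.Lib.MP_9a76ab_an.RepB
import Pool.Agent.Lib.MP_9a76ab_an.RepC
import Pool.Agent.Lib.MP_9a76ab_an.RepD
import Pool.Agent.Lib.MP_9a76ab_an.RepE
import Pool.Agent.Lib.MP_9a76ab_an.RepF
import Pool.Agent.Lib.MP_9a76ab_an.RepG
import Pool.Agent.Lib.MP_9a76ab_an.RepH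

/-! Assembly of the model for `MP_9a76ab_an`: the hypergraph of the vertices, the representation
induced from the characters, and all the data of the structure `Mdl`. -/

set_option autoImplicit false

namespace Pool.Agent.MP9a76ab

open scoped InnerProductSpace

namespace ModelX

theorem m_ne {m : ℤ} (hm : 2 < |m|) : m ≠ 0 := by
  rintro rfl
  simp at hm

theorem n_ne {m n : ℤ} (hn : |m| < n) : n ≠ 0 := by
  have := abs_nonneg m
  omega

theorem image_S {m n : ℤ} (hn0 : n ≠ 0) (χ : BT m n) :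
    Subtype.val '' {x : {x : Circle // VSet m n x} | x.1 ^ m = χ.1} =
      {x : Circle | x ^ m = χ.1} := by
  ext x
  constructor
  · rintro ⟨y, hy, rfl⟩
    exact hy
  · intro hx
    obtain ⟨x0, hx0, hx1⟩ := χ.2
    exact ⟨⟨x, vset_S hn0 hx0 (by rw [hx1]; exact hx)⟩, hx, rfl⟩

theorem image_T {m n : ℤ} (χ : BT m n) :
    Subtype.val '' {x : {x : Circle // VSet m n x} | x.1 ^ n = χ.1} =
      {x : Circle | x ^ n = χ.1} := by
  ext x
  constructor
  · rintro ⟨y, hy, rfl⟩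
    exact hy
  · intro hx
    obtain ⟨x0, hx0, hx1⟩ := χ.2
    exact ⟨⟨x, VSet.up x0 x hx0 (by rw [hx1]; exact hx)⟩, hx, rfl⟩

theorem fin_S {m n : ℤ} (hm0 : m ≠ 0) (hn0 : n ≠ 0) (χ : BT m n) :
    {x : VT m n | x.1 ^ m = χ.1}.Finite ∧ {x : VT m n | x.1 ^ m = χ.1}.ncard = m.natAbs := by
  have h := circle_roots m hm0 χ.1
  rw [← image_S hn0 χ] at h
  refine ⟨Set.Finite.of_finite_image h.1 Subtype.val_injective.injOn, ?_⟩
  rw [← h.2]
  exact (Set.ncard_image_of_injective _ Subtype.val_injective).symm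

theorem fin_T {m n : ℤ} (hn0 : n ≠ 0) (χ : BT m n) :
    {x : VT m n | x.1 ^ n = χ.1}.Finite ∧ {x : VT m n | x.1 ^ n = χ.1}.ncard = n.natAbs := by
  have h := circle_roots n hn0 χ.1
  rw [← image_T χ] at h
  refine ⟨Set.Finite.of_finite_image h.1 Subtype.val_injective.injOn, ?_⟩
  rw [← h.2]
  exact (Set.ncard_image_of_injective _ Subtype.val_injective).symm

/-- the block of the characters with the same `m`-th power -/
noncomputable def ss (m n : ℤ) (x : VT m n) : BT m n := ⟨x.1 ^ m, x.1, x.2, rfl⟩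

theorem rr_ex {m n : ℤ} (hm0 : m ≠ 0) (x : VT m n) : ∃ y, VSet m n y ∧ y ^ m = x.1 ^ n := by
  obtain ⟨y, hy⟩ := circle_root_exists m hm0 (x.1 ^ n)
  exact ⟨y, VSet.down x.1 y x.2 hy, hy⟩

/-- the block of the characters with the same `n`-th power -/
noncomputable def rr {m n : ℤ} (hm0 : m ≠ 0) (x : VT m n) : BT m n := ⟨x.1 ^ n, rr_ex hm0 x⟩

/-- the hypergraph -/
noncomputable def theG (m n : ℤ) (hm : 2 < |m|) (hn : |m| < n) : HG m.natAbs n.natAbs where
  V := VT m n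
  K := BT m n
  s := ss m n
  r := rr (m_ne hm)
  S χ := (fin_S (m_ne hm) (n_ne hn) χ).1.toFinset
  T χ := (fin_T (n_ne hn) χ).1.toFinset
  mem_S χ x := by
    rw [Set.Finite.mem_toFinset]
    exact (Subtype.ext_iff (a1 := ss m n x) (a2 := χ)).symm
  mem_T χ x := by
    rw [Set.Finite.mem_toFinset]
    exact (Subtype.ext_iff (a1 := rr (m_ne hm) x) (a2 := χ)).symm
  card_S χ := by
    rw [← Set.ncard_eq_toFinset_card _ (fin_S (m_ne hm) (n_ne hn) χ).1]
    exact (fin_S (m_ne hm) (n_ne hn) χ).2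
  card_T χ := by
    rw [← Set.ncard_eq_toFinset_card _ (fin_T (n_ne hn) χ).1]
    exact (fin_T (n_ne hn) χ).2
  o := ⟨1, VSet.one⟩
  so := Subtype.ext (by show (1 : Circle) ^ m = (1 : Circle) ^ n; rw [one_zpow, one_zpow])
  cV := vset_countable (m_ne hm) (n_ne hn)
  iV := vset_infinite hm hn
  C := (exists_C hm hn (ss m n) (rr (m_ne hm)) (fun _ => rfl) (fun _ => rfl)).choose
  iC := (exists_C hm hn (ss m n) (rr (m_ne hm)) (fun _ => rfl) (fun _ => rfl)).choose_spec.1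
  oC := (exists_C hm hn (ss m n) (rr (m_ne hm)) (fun _ => rfl) (fun _ => rfl)).choose_spec.2.1
  conn := (exists_C hm hn (ss m n) (rr (m_ne hm)) (fun _ => rfl) (fun _ => rfl)).choose_spec.2.2

theorem theG_S {m n : ℤ} (hm : 2 < |m|) (hn : |m| < n) (χ : BT m n) (x : VT m n) :
    x ∈ (theG m n hm hn).S χ ↔ x.1 ^ m = χ.1 :=
  Set.Finite.mem_toFinset _

theorem theG_T {m n : ℤ} (hm : 2 < |m|) (hn : |m| < n) (χ : BT m n) (x : VT m n) :
    x ∈ (theG m n hm hn).T χ ↔ x.1 ^ n = χ.1 :=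
  Set.Finite.mem_toFinset _

theorem kap_eq {m n : ℤ} (hn : |m| < n) :
    ((n.natAbs : ℝ) / (m.natAbs : ℝ)) = (n : ℝ) / |(m : ℝ)| := by
  have h1 : ((n.natAbs : ℕ) : ℝ) = (n : ℝ) := by
    rw [Nat.cast_natAbs, Int.cast_abs, abs_of_nonneg]
    have := abs_nonneg m
    have h : (0 : ℤ) ≤ n := by omega
    exact_mod_cast h
  have h2 : ((m.natAbs : ℕ) : ℝ) = |(m : ℝ)| := by
    rw [Nat.cast_natAbs, Int.cast_abs]
  rw [h1, h2]

end ModelX

open ModelX in
theorem exists_model (m n : ℤ) (hm : 2 < |m|) (hn : |m| < n) :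
    ∃ (G : HG m.natAbs n.natAbs) (H : Type) (_ : NormedAddCommGroup H)
      (_ : InnerProductSpace ℂ H) (_ : CompleteSpace H) (D : Mdl G H)
      (ι1 : l2 (BS m n ⧸ Subgroup.zpowers (bsA m n)) →ₗᵢ[ℂ] H),
      LinearMap.range ι1.toLinearMap = cyc D.A (D.W.ξ G.o) ∧
      ∀ T : Op (l2 (BS m n ⧸ Subgroup.zpowers (bsA m n))),
        T ∈ HeckeVN (Subgroup.zpowers (bsA m n)) ↔
        ∀ X ∈ D.A,
          (ι1.toContinuousLinearMap ∘L T ∘L ContinuousLinearMap.adjoint ι1.toContinuousLinearMap) * X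
            = X * (ι1.toContinuousLinearMap ∘L T ∘L
              ContinuousLinearMap.adjoint ι1.toContinuousLinearMap) := by
  have hB := isBS m n hm hn
  obtain ⟨H, i1, i2, i3, ⟨R⟩⟩ := exists_TRep (bsA m n) hB.inf (fun x : VT m n => x.1)
  obtain ⟨W, hWe, hWξ⟩ := exists_WSys hB hm hn R
  obtain ⟨d, da, dt⟩ := hB.deg
  obtain ⟨P, hP⟩ := exists_grad R d da
  obtain ⟨ι1, hr, hT⟩ := hecke_link R (⟨1, VSet.one⟩ : VT m n) rfl
  have hA := vNa_eq_rep hB R W hWe
  have hSm := theG_S hm hn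
  have hTm := theG_T hm hn
  have hte := pi_t_e hB hm hn R W hWe (theG m n hm hn).S (theG m n hm hn).T hSm hTm
  have hk := kms_pi hB hm hn R W hWe hWξ d da dt
  have hsep := sep_rep hm hn R W hWe hWξ d hk
  have hfhs := fhs_base hB hm hn R W hWe hWξ (theG m n hm hn).S (theG m n hm hn).T hSm hTm hte
  have hPπ : ∀ g, d g = 1 → ∀ j, P j * R.π g = R.π g * P j := by
    intro g hg j
    have h := hP.π j g
    rw [hg] at h
    simpa using h
  have hPe : ∀ j x, P j * W.e x = W.e x * P j := by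
    intro j x
    rw [hWe]
    refine eg_comm (hPπ _ da j) ?_ _
    rw [hP.sa]
    exact hPπ _ da j
  have hPt : ∀ j, P (j + 1) * R.π (bsT m n) = R.π (bsT m n) * P j := by
    intro j
    have h := hP.π j (bsT m n)
    rw [dt, toAdd_ofAdd] at h
    exact h
  let D : Mdl (theG m n hm hn) H :=
    { W := W
      t := R.π (bsT m n)
      t1 := by rw [R.star_π, ← map_mul, inv_mul_cancel, map_one]
      t2 := by rw [R.star_π, ← map_mul, mul_inv_cancel, map_one]
      te := hte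
      P := P
      P_idem := hP.idem
      P_sa := hP.sa
      P_e := hPe
      P_t := hPt
      fhs := hfhs
      kms := by
        intro k X hX hXk
        have h := kms_hom hm hn R W hWe hWξ d da hk P hP k X (by rw [← hA]; exact hX) hXk
        rw [← hA, ← kap_eq hn] at h
        exact h
      sep := fun X hX h0 => hsep X (by rw [← hA]; exact hX) h0
      node := fun χ X hX h1 h2 h3 h4 => node_rep hB hm hn R W hWe hWξ (theG m n hm hn).S
        (theG m n hm hn).T hSm hTm hte hsep χ X (by rw [← hA]; exact hX) h1 h2 h3 h4 }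
  have hDA : D.A = vNa (Set.range R.π) := hA
  refine ⟨theG m n hm hn, H, i1, i2, i3, D, ι1, ?_, ?_⟩
  · rw [hDA, hr]
    have : D.W.ξ (theG m n hm hn).o = R.ξ (⟨1, VSet.one⟩ : VT m n) := hWξ _
    rw [this]
  · rw [hDA]
    exact hT

end Pool.Agent.MP9a76ab
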