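import Pool.Agent.Lib.MP_9a76ab_an.Defs3

/-! MP_9a76ab_an: from spatial equivalence to a unitary conjugation of commutants. -/

set_option autoImplicit false

namespace Pool.Agent.MP9a76ab

open scoped InnerProductSpace

namespace SpUnitX

section
variable {Q H : Type} [NormedAddCommGroup Q] [InnerProductSpace ℂ Q] [CompleteSpace Q]
  [NormedAddCommGroup H] [InnerProductSpace ℂ H] [CompleteSpace H]

theorem adj_comp (ι : Q →ₗᵢ[ℂ] H) :
    ContinuousLinearMap.adjoint ι.toContinuousLinearMap ∘L ι.toContinuousLinearMap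
      = ContinuousLinearMap.id ℂ Q := by
  ext x
  refine ext_inner_left ℂ fun y => ?_
  rw [ContinuousLinearMap.comp_apply, ContinuousLinearMap.adjoint_inner_right]
  simp

theorem comp_adj (ι : Q →ₗᵢ[ℂ] H) (K : Submodule ℂ H) [K.HasOrthogonalProjection]
    (hr : LinearMap.range ι.toLinearMap = K) :
    ι.toContinuousLinearMap ∘L ContinuousLinearMap.adjoint ι.toContinuousLinearMap
      = K.starProjection := by
  ext v
  have h1 : K.starProjection v ∈ K := Submodule.starProjection_apply_mem K v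
  have h1' : K.starProjection v ∈ LinearMap.range ι.toLinearMap := hr.symm ▸ h1
  obtain ⟨q, hq⟩ := h1'
  have hq' : ι q = K.starProjection v := hq
  have h2 : ContinuousLinearMap.adjoint ι.toContinuousLinearMap v = q := by
    refine ext_inner_left ℂ fun y => ?_
    rw [ContinuousLinearMap.adjoint_inner_right]
    have hy : ι y ∈ K := by rw [← hr]; exact ⟨y, rfl⟩
    have h3 : ⟪ι y, v - K.starProjection v⟫_ℂ = 0 :=
      Submodule.sub_starProjection_mem_orthogonal v _ hy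
    rw [inner_sub_right, sub_eq_zero] at h3
    have h4 : ι.toContinuousLinearMap y = ι y := rfl
    rw [h4, h3, ← hq', ι.inner_map_map]
  rw [ContinuousLinearMap.comp_apply, h2]
  exact hq'

end

end SpUnitX

theorem unitary_of_speq {Q Q' H H' : Type}
    [NormedAddCommGroup Q] [InnerProductSpace ℂ Q] [CompleteSpace Q]
    [NormedAddCommGroup Q'] [InnerProductSpace ℂ Q'] [CompleteSpace Q']
    [NormedAddCommGroup H] [InnerProductSpace ℂ H] [CompleteSpace H]
    [NormedAddCommGroup H'] [InnerProductSpace ℂ H'] [CompleteSpace H']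
    {M : StarSubalgebra ℂ (Op H)} {ξ : H} {M' : StarSubalgebra ℂ (Op H')} {ξ' : H'}
    (h : SpEq M ξ M' ξ') (N : StarSubalgebra ℂ (Op Q)) (N' : StarSubalgebra ℂ (Op Q'))
    (ι : Q →ₗᵢ[ℂ] H) (ι' : Q' →ₗᵢ[ℂ] H')
    (hr : LinearMap.range ι.toLinearMap = cyc M ξ) (hr' : LinearMap.range ι'.toLinearMap = cyc M' ξ')
    (hN : ∀ T : Op Q, T ∈ N ↔ ∀ X ∈ M, (ι.toContinuousLinearMap ∘L T ∘L
      ContinuousLinearMap.adjoint ι.toContinuousLinearMap) * X = X * (ι.toContinuousLinearMap ∘L T ∘L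
      ContinuousLinearMap.adjoint ι.toContinuousLinearMap))
    (hN' : ∀ T : Op Q', T ∈ N' ↔ ∀ X ∈ M', (ι'.toContinuousLinearMap ∘L T ∘L
      ContinuousLinearMap.adjoint ι'.toContinuousLinearMap) * X =
        X * (ι'.toContinuousLinearMap ∘L T ∘L
      ContinuousLinearMap.adjoint ι'.toContinuousLinearMap)) :
    ∃ U : Q ≃ₗᵢ[ℂ] Q', ∀ T : Op Q, T ∈ N ↔
      U.toLinearIsometry.toContinuousLinearMap ∘L T ∘L
        U.symm.toLinearIsometry.toContinuousLinearMap ∈ N' := by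
  obtain ⟨U0, hU1, hU2, -, hC, hC'⟩ := h
  have hJJ := SpUnitX.adj_comp ι
  have hJJ' := SpUnitX.adj_comp ι'
  have hP := SpUnitX.comp_adj ι (cyc M ξ) hr
  have hP' := SpUnitX.comp_adj ι' (cyc M' ξ') hr'
  rw [← hP] at hU1
  rw [← hP'] at hU2
  set J := ι.toContinuousLinearMap with hJ
  set J' := ι'.toContinuousLinearMap with hJ'
  set Js := ContinuousLinearMap.adjoint J with hJs
  set Js' := ContinuousLinearMap.adjoint J' with hJs'
  set Us := ContinuousLinearMap.adjoint U0 with hUs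
  -- pointwise forms
  have e1 : ∀ x, Js (J x) = x := fun x => by
    have := congrArg (fun A : Q →L[ℂ] Q => A x) hJJ; simpa using this
  have e1' : ∀ x, Js' (J' x) = x := fun x => by
    have := congrArg (fun A : Q' →L[ℂ] Q' => A x) hJJ'; simpa using this
  have e2 : ∀ x, Us (U0 x) = J (Js x) := fun x => by
    have := congrArg (fun A : H →L[ℂ] H => A x) hU1; simpa using this
  have e2' : ∀ x, U0 (Us x) = J' (Js' x) := fun x => by
    have := congrArg (fun A : H' →L[ℂ] H' => A x) hU2; simpa using this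
  -- J' U = U0 J
  have e3 : ∀ x, J' (Js' (U0 (J x))) = U0 (J x) := fun x => by
    rw [← e2', e2, e1]
  have e4 : ∀ x, J (Js (Us (J' x))) = Us (J' x) := fun x => by
    rw [← e2, e2', e1']
  -- J'* U0 = U J* and J* U0* = V J'*
  have e5 : ∀ x, Js' (U0 (J (Js x))) = Js' (U0 x) := fun x => by
    rw [← e2, e2', e1']
  have e6 : ∀ x, Js (Us (J' (Js' x))) = Js (Us x) := fun x => by
    rw [← e2', e2, e1]
  let UU : Q →L[ℂ] Q' := Js' ∘L U0 ∘L J
  let VV : Q' →L[ℂ] Q := Js ∘L Us ∘L J'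
  have hVU : ∀ x, VV (UU x) = x := fun x => by
    change Js (Us (J' (Js' (U0 (J x))))) = x
    rw [e3, e2, e1, e1]
  have hUV : ∀ x, UU (VV x) = x := fun x => by
    change Js' (U0 (J (Js (Us (J' x))))) = x
    rw [e4, e2', e1', e1']
  have hnorm : ∀ x, ‖UU x‖ = ‖x‖ := fun x => by
    have h1 : ‖UU x‖ = ‖U0 (J x)‖ := by
      have := ι'.norm_map (UU x)
      rw [← this]
      change ‖J' (Js' (U0 (J x)))‖ = _
      rw [e3]
    have h2 : ‖U0 (J x)‖ ^ 2 = ‖J x‖ ^ 2 := by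
      have h3 : ⟪U0 (J x), U0 (J x)⟫_ℂ = ⟪J x, J x⟫_ℂ := by
        rw [← ContinuousLinearMap.adjoint_inner_right, ← hUs, e2, e1]
      rw [inner_self_eq_norm_sq_to_K, inner_self_eq_norm_sq_to_K] at h3
      exact_mod_cast h3
    have h4 : ‖U0 (J x)‖ = ‖J x‖ := by
      have := congrArg Real.sqrt h2
      rwa [Real.sqrt_sq (norm_nonneg _), Real.sqrt_sq (norm_nonneg _)] at this
    rw [h1, h4]
    exact ι.norm_map x
  let e : Q ≃ₗ[ℂ] Q' := LinearEquiv.ofLinearMap UU.toLinearMap VV.toLinearMap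
    (by ext x; exact hUV x) (by ext x; exact hVU x)
  refine ⟨⟨e, hnorm⟩, fun T => ?_⟩
  have hA : (⟨e, hnorm⟩ : Q ≃ₗᵢ[ℂ] Q').toLinearIsometry.toContinuousLinearMap = UU := rfl
  have hB : (⟨e, hnorm⟩ : Q ≃ₗᵢ[ℂ] Q').symm.toLinearIsometry.toContinuousLinearMap = VV := rfl
  rw [hA, hB, hN, hN']
  constructor
  · intro hT X' hX'
    have h1 := hC (J ∘L T ∘L Js) (fun X hX => hT X hX) X' hX'
    have h2 : U0 ∘L (J ∘L T ∘L Js) ∘L Us = J' ∘L (UU ∘L T ∘L VV) ∘L Js' := by
      ext y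
      change U0 (J (T (Js (Us y)))) = J' (Js' (U0 (J (T (Js (Us (J' (Js' y))))))))
      rw [e3, e6]
    rwa [h2] at h1
  · intro hT X hX
    have h1 := hC' (J' ∘L (UU ∘L T ∘L VV) ∘L Js') (fun X' hX' => hT X' hX') X hX
    have h2 : Us ∘L (J' ∘L (UU ∘L T ∘L VV) ∘L Js') ∘L U0 = J ∘L T ∘L Js := by
      ext y
      change Us (J' (Js' (U0 (J (T (Js (Us (J' (Js' (U0 y)))))))))) = J (T (Js y))
      rw [e6, e3, e2, e1, e2, e1]
    rwa [h2] at h1

end Pool.Agent.MP9a76ab
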