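import Pool.Agent.Lib.MP_9a76ab_an.Basic

/-!
# Normality of the representation of a Fock extension, the first Fock system (module NORM)
-/

set_option autoImplicit false

namespace Pool.Agent.MP9a76ab

open scoped InnerProductSpace

namespace FockNormX

section
variable {K H F : Type} [NormedAddCommGroup H] [InnerProductSpace ℂ H] [CompleteSpace H]
  [NormedAddCommGroup F] [InnerProductSpace ℂ F] [CompleteSpace F]

/-- The matrix coefficient of an operator. -/
noncomputable def coef {ξ : K → H} (E : FockExt H K ξ F) (T : Op F) (y y' : E.Y) : Op H :=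
  (ContinuousLinearMap.adjoint (E.j y).toContinuousLinearMap) ∘L T ∘L
    (E.j y').toContinuousLinearMap

theorem inner_coef {ξ : K → H} (E : FockExt H K ξ F) (T : Op F) (y y' : E.Y) (u h : H) :
    ⟪u, coef E T y y' h⟫_ℂ = ⟪E.j y u, T (E.j y' h)⟫_ℂ := by
  unfold coef
  rw [ContinuousLinearMap.comp_apply, ContinuousLinearMap.adjoint_inner_right]
  rfl

/-- The matrix coefficient of `π b T`. -/
theorem inner_left {ξ : K → H} (E : FockExt H K ξ F) (T : Op F) (y y' : E.Y) (b : Op H)
    (u h : H) : ⟪E.j y u, E.π b (T (E.j y' h))⟫_ℂ = ⟪u, b (coef E T y y' h)⟫_ℂ := by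
  rw [inner_op_star, ← map_star, E.j_π, ← inner_coef, ← inner_op_star]

/-- The matrix coefficient of `T π b`. -/
theorem inner_right {ξ : K → H} (E : FockExt H K ξ F) (T : Op F) (y y' : E.Y) (b : Op H)
    (u h : H) : ⟪E.j y u, T (E.π b (E.j y' h))⟫_ℂ = ⟪u, coef E T y y' (b h)⟫_ℂ := by
  rw [E.j_π, ← inner_coef]

theorem coef_comm {ξ : K → H} (E : FockExt H K ξ F) (T : Op F) (y y' : E.Y) (s : Op H)
    (hs : E.π s * T = T * E.π s) : s * coef E T y y' = coef E T y y' * s := by
  ext h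
  refine ext_inner_left ℂ fun u => ?_
  change ⟪u, s (coef E T y y' h)⟫_ℂ = ⟪u, coef E T y y' (s h)⟫_ℂ
  rw [← inner_left, ← inner_right]
  have := congrArg (fun A : Op F => A (E.j y' h)) hs
  congr 1

/-- An operator with vanishing matrix coefficients vanishes. -/
theorem eq_zero {ξ : K → H} (E : FockExt H K ξ F) (D : Op F)
    (hD : ∀ (y y' : E.Y) (u h : H), ⟪E.j y u, D (E.j y' h)⟫_ℂ = 0) : D = 0 := by
  have h1 : ∀ (y' : E.Y) (h : H), D (E.j y' h) = 0 := by
    intro y' h
    have h5 : D (E.j y' h) ∈ (Submodule.span ℂ (⋃ y, Set.range (E.j y)))ᗮ := by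
      rw [Submodule.mem_orthogonal]
      intro u hu
      induction hu using Submodule.span_induction with
      | mem u hu =>
        obtain ⟨y, g, rfl⟩ := Set.mem_iUnion.1 hu
        exact hD y y' g h
      | zero => simp
      | add a b _ _ ha hb => rw [inner_add_left, ha, hb, add_zero]
      | smul c a _ ha => rw [inner_smul_left, ha, mul_zero]
    rw [← Submodule.orthogonal_closure, E.j_dense] at h5
    simpa using h5
  have h2 : (Submodule.span ℂ (⋃ y, Set.range (E.j y))).topologicalClosure ≤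
      LinearMap.ker D.toLinearMap := by
    apply Submodule.topologicalClosure_minimal
    · rw [Submodule.span_le]
      intro v hv
      obtain ⟨y, g, rfl⟩ := Set.mem_iUnion.1 hv
      exact h1 y g
    · exact D.isClosed_ker
  rw [E.j_dense] at h2
  ext v
  exact h2 (Submodule.mem_top : v ∈ ⊤)

end

end FockNormX

section F
variable {V J K H F : Type} [NormedAddCommGroup H] [InnerProductSpace ℂ H] [CompleteSpace H]
  [NormedAddCommGroup F] [InnerProductSpace ℂ F] [CompleteSpace F]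

open FockNormX in
theorem FockExt.normal {ξ : K → H} (E : FockExt H K ξ F) (S : Set (Op H)) {b : Op H}
    (hb : b ∈ vNa S) : E.π b ∈ vNa (E.π '' S) := by
  rw [mem_vNa_iff]
  intro T hT
  rw [← sub_eq_zero]
  apply eq_zero E
  intro y y' u h
  have h1 : coef E T y y' * b = b * coef E T y y' := by
    refine vNa_commute hb fun s hs => ?_
    have h2 := hT (E.π s) ⟨s, hs, rfl⟩
    refine ⟨coef_comm E T y y' s h2.1, ?_⟩
    refine coef_comm E T y y' (star s) ?_
    rw [map_star]
    exact h2.2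
  change ⟪E.j y u, T (E.π b (E.j y' h)) - E.π b (T (E.j y' h))⟫_ℂ = 0
  rw [inner_sub_right, inner_left, inner_right, sub_eq_zero]
  have := congrArg (fun A : Op H => A h) h1
  congr 1

namespace FockNormX

theorem e_ℓ {W : WSys V H} (E : FockExt H V W.ξ F) (x : V) :
    E.π (W.e x) * E.ℓ x = E.ℓ x := by
  have h1 : star (E.ℓ x - E.π (W.e x) * E.ℓ x) * (E.ℓ x - E.π (W.e x) * E.ℓ x) = 0 := by
    have h2 : E.ℓ x - E.π (W.e x) * E.ℓ x = E.π (1 - W.e x) * E.ℓ x := by
      rw [map_sub, map_one, sub_mul, one_mul]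
    have h3 : star (1 - W.e x) * (1 - W.e x) = 1 - W.e x := by
      rw [star_sub, star_one, W.sa, mul_sub, mul_one, sub_mul, one_mul, W.idem, sub_self, sub_zero]
    rw [h2, star_mul, ← map_star]
    calc star (E.ℓ x) * E.π (star (1 - W.e x)) * (E.π (1 - W.e x) * E.ℓ x)
        = star (E.ℓ x) * E.π (star (1 - W.e x) * (1 - W.e x)) * E.ℓ x := by
          rw [map_mul]
          simp only [mul_assoc]
      _ = 0 := by
          rw [h3, E.rel, ContinuousLinearMap.sub_apply, W.eξ]
          simp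
  have h3 : ‖E.ℓ x - E.π (W.e x) * E.ℓ x‖ * ‖E.ℓ x - E.π (W.e x) * E.ℓ x‖ = 0 := by
    rw [← CStarRing.norm_star_mul_self, h1, norm_zero]
  exact (sub_eq_zero.1 (norm_eq_zero.1 (mul_self_eq_zero.1 h3))).symm

end FockNormX

theorem FSys.first {W : WSys V H} (E : FockExt H V W.ξ F) :
    FSys (W.push E) E.π.range (fun x => E.ℓ x * E.π (W.e x)) (fun x => {x}) where
  mem_e x := ⟨W.e x, rfl⟩
  ne x := Finset.singleton_nonempty x
  le_l x := by
    rw [WSys.eF_singleton, ← mul_assoc]
    change E.π (W.e x) * E.ℓ x * E.π (W.e x) = _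
    rw [FockNormX.e_ℓ]
  le_r x := by
    rw [WSys.eF_singleton, mul_assoc]
    change E.ℓ x * (E.π (W.e x) * E.π (W.e x)) = _
    rw [← map_mul, W.idem]
  rel x b hb := by
    obtain ⟨b', rfl⟩ := hb
    rw [WSys.eF_singleton, WSys.φF_singleton]
    change star (E.ℓ x * E.π (W.e x)) * E.π b' * (E.ℓ x * E.π (W.e x)) =
      (((({x} : Finset V).card : ℕ) : ℂ)⁻¹ * ⟪E.ι (W.ξ x), E.π b' (E.ι (W.ξ x))⟫_ℂ) •
        E.π (W.e x)
    rw [E.π_ι, E.ι.inner_map_map, star_mul, ← map_star, W.sa]
    calc E.π (W.e x) * star (E.ℓ x) * E.π b' * (E.ℓ x * E.π (W.e x))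
        = E.π (W.e x) * (star (E.ℓ x) * E.π b' * E.ℓ x) * E.π (W.e x) := by
          simp only [mul_assoc]
      _ = (((({x} : Finset V).card : ℕ) : ℂ)⁻¹ * ⟪W.ξ x, b' (W.ξ x)⟫_ℂ) • E.π (W.e x) := by
          rw [E.rel, mul_smul_comm, mul_one, smul_mul_assoc, ← map_mul, W.idem]
          simp
  rel0 x y hxy b hb := by
    obtain ⟨b', rfl⟩ := hb
    change star (E.ℓ x * E.π (W.e x)) * E.π b' * (E.ℓ y * E.π (W.e y)) = 0
    rw [star_mul, ← map_star, W.sa]
    calc E.π (W.e x) * star (E.ℓ x) * E.π b' * (E.ℓ y * E.π (W.e y))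
        = E.π (W.e x) * (star (E.ℓ x) * E.π b' * E.ℓ y) * E.π (W.e y) := by
          simp only [mul_assoc]
      _ = 0 := by
          rw [E.rel0 x y b' hxy]
          simp
  vac x b hb y := by
    obtain ⟨b', rfl⟩ := hb
    change star (E.ℓ x * E.π (W.e x)) (E.π b' (E.ι (W.ξ y))) = 0
    rw [star_mul]
    change star (E.π (W.e x)) (star (E.ℓ x) (E.π b' (E.ι (W.ξ y)))) = 0
    rw [E.vac, map_zero]

end F

end Pool.Agent.MP9a76ab
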