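import Pool.Agent.Lib.MP_9a76ab_an.Basic

/-! GNS uniqueness: equal moments give spatial isomorphism. -/

set_option autoImplicit false

namespace Pool.Agent.MP9a76ab

open scoped InnerProductSpace

namespace SpEqMX

variable {H H' : Type} [NormedAddCommGroup H] [InnerProductSpace ℂ H] [CompleteSpace H]
  [NormedAddCommGroup H'] [InnerProductSpace ℂ H'] [CompleteSpace H']

theorem commute_proj (K : Submodule ℂ H) [K.HasOrthogonalProjection] (A : Op H)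
    (h1 : ∀ k ∈ K, A k ∈ K) (h2 : ∀ k ∈ K, star A k ∈ K) :
    K.starProjection * A = A * K.starProjection := by
  ext x
  show K.starProjection (A x) = A (K.starProjection x)
  refine Submodule.eq_starProjection_of_mem_of_inner_eq_zero
    (h1 _ (Submodule.starProjection_apply_mem _ _)) fun w hw => ?_
  rw [← map_sub, ← inner_conj_symm, inner_op_star, ← inner_conj_symm,
    Submodule.starProjection_inner_eq_zero x _ (h2 w hw)]
  simp

theorem proj_idem (K : Submodule ℂ H) [K.HasOrthogonalProjection] :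
    K.starProjection ∘L K.starProjection = K.starProjection := by
  ext x
  exact Submodule.starProjection_eq_self_iff.2 (Submodule.starProjection_apply_mem _ _)

theorem mem_cyc (M : StarSubalgebra ℂ (Op H)) (ξ : H) : ξ ∈ cyc M ξ := by
  refine Submodule.le_topologicalClosure _ (Submodule.subset_span ⟨1, one_mem _, by simp⟩)

section main

variable (𝔖 : StarSubalgebra ℂ (Op H × Op H')) (ξ : H) (ξ' : H')

/-- the map `p ↦ p.1 ξ` -/
noncomputable def f1 : 𝔖 →ₗ[ℂ] H where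
  toFun p := p.1.1 ξ
  map_add' p q := by simp
  map_smul' c p := by simp

/-- the map `p ↦ p.2 ξ'` -/
noncomputable def f2 : 𝔖 →ₗ[ℂ] H' where
  toFun p := p.1.2 ξ'
  map_add' p q := by simp
  map_smul' c p := by simp

/-- closure of the range of `f1` -/
noncomputable def K1 : Submodule ℂ H := (LinearMap.range (f1 𝔖 ξ)).topologicalClosure

/-- closure of the range of `f2` -/
noncomputable def K2 : Submodule ℂ H' := (LinearMap.range (f2 𝔖 ξ')).topologicalClosure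

noncomputable instance : CompleteSpace (K1 𝔖 ξ) :=
  (Submodule.isClosed_topologicalClosure _).completeSpace_coe

noncomputable instance : CompleteSpace (K2 𝔖 ξ') :=
  (Submodule.isClosed_topologicalClosure _).completeSpace_coe

theorem f1_mem (p : 𝔖) : f1 𝔖 ξ p ∈ K1 𝔖 ξ :=
  Submodule.le_topologicalClosure _ ⟨p, rfl⟩

theorem f2_mem (p : 𝔖) : f2 𝔖 ξ' p ∈ K2 𝔖 ξ' :=
  Submodule.le_topologicalClosure _ ⟨p, rfl⟩

theorem K1_induction {P : H → Prop} (hc : IsClosed {x | P x}) (h : ∀ p : 𝔖, P (f1 𝔖 ξ p)) :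
    ∀ x ∈ K1 𝔖 ξ, P x := by
  intro x hx
  have hx' : x ∈ closure (LinearMap.range (f1 𝔖 ξ) : Set H) := by
    rw [← Submodule.topologicalClosure_coe]; exact hx
  refine closure_minimal ?_ hc hx'
  rintro _ ⟨p, rfl⟩
  exact h p

theorem K2_induction {P : H' → Prop} (hc : IsClosed {x | P x}) (h : ∀ p : 𝔖, P (f2 𝔖 ξ' p)) :
    ∀ x ∈ K2 𝔖 ξ', P x := by
  intro x hx
  have hx' : x ∈ closure (LinearMap.range (f2 𝔖 ξ') : Set H') := by
    rw [← Submodule.topologicalClosure_coe]; exact hx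
  refine closure_minimal ?_ hc hx'
  rintro _ ⟨p, rfl⟩
  exact h p

theorem K1_inv (p : 𝔖) : ∀ x ∈ K1 𝔖 ξ, p.1.1 x ∈ K1 𝔖 ξ := by
  refine K1_induction 𝔖 ξ ?_ fun q => ?_
  · exact (Submodule.isClosed_topologicalClosure _).preimage p.1.1.continuous
  · exact f1_mem 𝔖 ξ (p * q)

theorem K2_inv (p : 𝔖) : ∀ x ∈ K2 𝔖 ξ', p.1.2 x ∈ K2 𝔖 ξ' := by
  refine K2_induction 𝔖 ξ' ?_ fun q => ?_
  · exact (Submodule.isClosed_topologicalClosure _).preimage p.1.2.continuous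
  · exact f2_mem 𝔖 ξ' (p * q)

theorem K1_comm (p : 𝔖) :
    (K1 𝔖 ξ).starProjection * p.1.1 = p.1.1 * (K1 𝔖 ξ).starProjection :=
  commute_proj _ _ (K1_inv 𝔖 ξ p) (K1_inv 𝔖 ξ (star p))

theorem K2_comm (p : 𝔖) :
    (K2 𝔖 ξ').starProjection * p.1.2 = p.1.2 * (K2 𝔖 ξ').starProjection :=
  commute_proj _ _ (K2_inv 𝔖 ξ' p) (K2_inv 𝔖 ξ' (star p))

theorem cyc_eq1 : cyc (vNa (Prod.fst '' (𝔖 : Set (Op H × Op H')))) ξ = K1 𝔖 ξ := by
  apply le_antisymm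
  · refine Submodule.topologicalClosure_minimal _ ?_ (Submodule.isClosed_topologicalClosure _)
    rw [Submodule.span_le]
    rintro _ ⟨X, hX, rfl⟩
    have hcomm : (K1 𝔖 ξ).starProjection * X = X * (K1 𝔖 ξ).starProjection := by
      refine vNa_commute hX ?_
      rintro _ ⟨p, hp, rfl⟩
      exact ⟨(K1_comm 𝔖 ξ ⟨p, hp⟩).symm, (K1_comm 𝔖 ξ (star ⟨p, hp⟩)).symm⟩
    have hξ : ξ ∈ K1 𝔖 ξ := by
      have := f1_mem 𝔖 ξ 1
      simpa [f1] using this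
    have h1 : (K1 𝔖 ξ).starProjection (X ξ) = X ((K1 𝔖 ξ).starProjection ξ) :=
      congrArg (fun A : Op H => A ξ) hcomm
    rw [Submodule.starProjection_eq_self_iff.2 hξ] at h1
    exact Submodule.starProjection_eq_self_iff.1 h1
  · refine Submodule.topologicalClosure_mono ?_
    rintro _ ⟨p, rfl⟩
    exact Submodule.subset_span ⟨p.1.1, subset_vNa _ ⟨p.1, p.2, rfl⟩, rfl⟩

theorem cyc_eq2 : cyc (vNa (Prod.snd '' (𝔖 : Set (Op H × Op H')))) ξ' = K2 𝔖 ξ' := by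
  apply le_antisymm
  · refine Submodule.topologicalClosure_minimal _ ?_ (Submodule.isClosed_topologicalClosure _)
    rw [Submodule.span_le]
    rintro _ ⟨X, hX, rfl⟩
    have hcomm : (K2 𝔖 ξ').starProjection * X = X * (K2 𝔖 ξ').starProjection := by
      refine vNa_commute hX ?_
      rintro _ ⟨p, hp, rfl⟩
      exact ⟨(K2_comm 𝔖 ξ' ⟨p, hp⟩).symm, (K2_comm 𝔖 ξ' (star ⟨p, hp⟩)).symm⟩
    have hξ : ξ' ∈ K2 𝔖 ξ' := by
      have := f2_mem 𝔖 ξ' 1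
      simpa [f2] using this
    have h1 : (K2 𝔖 ξ').starProjection (X ξ') = X ((K2 𝔖 ξ').starProjection ξ') :=
      congrArg (fun A : Op H' => A ξ') hcomm
    rw [Submodule.starProjection_eq_self_iff.2 hξ] at h1
    exact Submodule.starProjection_eq_self_iff.1 h1
  · refine Submodule.topologicalClosure_mono ?_
    rintro _ ⟨p, rfl⟩
    exact Submodule.subset_span ⟨p.1.2, subset_vNa _ ⟨p.1, p.2, rfl⟩, rfl⟩

/-- `f1` with values in `K1` -/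
noncomputable def e1 : 𝔖 →ₗ[ℂ] K1 𝔖 ξ := (f1 𝔖 ξ).codRestrict _ (f1_mem 𝔖 ξ)

/-- `f2` with values in `K2` -/
noncomputable def e2 : 𝔖 →ₗ[ℂ] K2 𝔖 ξ' := (f2 𝔖 ξ').codRestrict _ (f2_mem 𝔖 ξ')

theorem dense1 : DenseRange (e1 𝔖 ξ) := by
  intro x
  rw [closure_subtype]
  have h : (Subtype.val '' Set.range (e1 𝔖 ξ) : Set H) = LinearMap.range (f1 𝔖 ξ) := by
    ext y
    constructor
    · rintro ⟨_, ⟨p, rfl⟩, rfl⟩
      exact ⟨p, rfl⟩
    · rintro ⟨p, rfl⟩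
      exact ⟨_, ⟨p, rfl⟩, rfl⟩
  rw [h, ← Submodule.topologicalClosure_coe]
  exact x.2

theorem dense2 : DenseRange (e2 𝔖 ξ') := by
  intro x
  rw [closure_subtype]
  have h : (Subtype.val '' Set.range (e2 𝔖 ξ') : Set H') = LinearMap.range (f2 𝔖 ξ') := by
    ext y
    constructor
    · rintro ⟨_, ⟨p, rfl⟩, rfl⟩
      exact ⟨p, rfl⟩
    · rintro ⟨p, rfl⟩
      exact ⟨_, ⟨p, rfl⟩, rfl⟩
  rw [h, ← Submodule.topologicalClosure_coe]
  exact x.2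

variable {𝔖 ξ ξ'}

theorem norm_eq (h : ∀ p ∈ 𝔖, ⟪ξ, p.1 ξ⟫_ℂ = ⟪ξ', p.2 ξ'⟫_ℂ) (p : 𝔖) :
    ‖e2 𝔖 ξ' p‖ = ‖e1 𝔖 ξ p‖ := by
  have h1 := h _ (star p * p).2
  have e1' : ⟪ξ, (star p * p : 𝔖).1.1 ξ⟫_ℂ = ⟪p.1.1 ξ, p.1.1 ξ⟫_ℂ :=
    inner_star_op p.1.1 ξ (p.1.1 ξ)
  have e2' : ⟪ξ', (star p * p : 𝔖).1.2 ξ'⟫_ℂ = ⟪p.1.2 ξ', p.1.2 ξ'⟫_ℂ :=
    inner_star_op p.1.2 ξ' (p.1.2 ξ')
  rw [e1', e2', inner_self_C, inner_self_C] at h1
  have h2 : ‖p.1.1 ξ‖ ^ 2 = ‖p.1.2 ξ'‖ ^ 2 := by exact_mod_cast h1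
  have h3 : ‖p.1.1 ξ‖ = ‖p.1.2 ξ'‖ :=
    (pow_left_inj₀ (norm_nonneg _) (norm_nonneg _) two_ne_zero).1 h2
  exact h3.symm

end main

end SpEqMX

section SP
variable {H H' H'' : Type} [NormedAddCommGroup H] [InnerProductSpace ℂ H] [CompleteSpace H]
  [NormedAddCommGroup H'] [InnerProductSpace ℂ H'] [CompleteSpace H']
  [NormedAddCommGroup H''] [InnerProductSpace ℂ H''] [CompleteSpace H'']

open SpEqMX ContinuousLinearMap

theorem SpEq.symm {M : StarSubalgebra ℂ (Op H)} {ξ : H} {M' : StarSubalgebra ℂ (Op H')} {ξ' : H'}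
    (h : SpEq M ξ M' ξ') : SpEq M' ξ' M ξ := by
  obtain ⟨U, h1, h2, h3, h4, h5⟩ := h
  refine ⟨adjoint U, by rw [adjoint_adjoint]; exact h2, by rw [adjoint_adjoint]; exact h1, ?_,
    ?_, ?_⟩
  · rw [← h3]
    have := congrArg (fun A : Op H => A ξ) h1
    simp only [ContinuousLinearMap.comp_apply] at this
    rw [this]
    exact Submodule.starProjection_eq_self_iff.2 (mem_cyc M ξ)
  · rw [adjoint_adjoint]
    exact h5
  · rw [adjoint_adjoint]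
    exact h4

theorem SpEq.trans {M : StarSubalgebra ℂ (Op H)} {ξ : H} {M' : StarSubalgebra ℂ (Op H')} {ξ' : H'}
    {M'' : StarSubalgebra ℂ (Op H'')} {ξ'' : H''}
    (h : SpEq M ξ M' ξ') (h' : SpEq M' ξ' M'' ξ'') : SpEq M ξ M'' ξ'' := by
  obtain ⟨U, h1, h2, h3, h4, h5⟩ := h
  obtain ⟨V, k1, k2, k3, k4, k5⟩ := h'
  have hadj : adjoint (V ∘L U) = adjoint U ∘L adjoint V := adjoint_comp V U
  refine ⟨V ∘L U, ?_, ?_, ?_, ?_, ?_⟩
  · rw [hadj]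
    calc (adjoint U ∘L adjoint V) ∘L (V ∘L U) = adjoint U ∘L (adjoint V ∘L V) ∘L U := rfl
      _ = adjoint U ∘L (U ∘L adjoint U) ∘L U := by rw [k1, h2]
      _ = (adjoint U ∘L U) ∘L (adjoint U ∘L U) := rfl
      _ = _ := by rw [h1, proj_idem]
  · rw [hadj]
    calc (V ∘L U) ∘L (adjoint U ∘L adjoint V) = V ∘L (U ∘L adjoint U) ∘L adjoint V := rfl
      _ = V ∘L (adjoint V ∘L V) ∘L adjoint V := by rw [k1, h2]
      _ = (V ∘L adjoint V) ∘L (V ∘L adjoint V) := rfl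
      _ = _ := by rw [k2, proj_idem]
  · rw [ContinuousLinearMap.comp_apply, h3, k3]
  · intro T hT X hX
    have e : (V ∘L U) ∘L T ∘L adjoint (V ∘L U) = V ∘L (U ∘L T ∘L adjoint U) ∘L adjoint V := by
      rw [hadj]; rfl
    rw [e]
    exact k4 _ (h4 T hT) X hX
  · intro T hT X hX
    have e : adjoint (V ∘L U) ∘L T ∘L (V ∘L U) = adjoint U ∘L (adjoint V ∘L T ∘L V) ∘L U := by
      rw [hadj]; rfl
    rw [e]
    exact h5 _ (k5 T hT) X hX

theorem SpEq.of_moments (𝔖 : StarSubalgebra ℂ (Op H × Op H')) (ξ : H) (ξ' : H')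
    (h : ∀ p ∈ 𝔖, ⟪ξ, p.1 ξ⟫_ℂ = ⟪ξ', p.2 ξ'⟫_ℂ) :
    SpEq (vNa (Prod.fst '' (𝔖 : Set (Op H × Op H')))) ξ
      (vNa (Prod.snd '' (𝔖 : Set (Op H × Op H')))) ξ' := by
  set W : K1 𝔖 ξ ≃ₗᵢ[ℂ] K2 𝔖 ξ' := (LinearEquiv.refl ℂ 𝔖).extendOfIsometry (e1 𝔖 ξ) (e2 𝔖 ξ')
    (dense1 𝔖 ξ) (dense2 𝔖 ξ') (norm_eq h) with hW
  have hWe : ∀ p : 𝔖, W (e1 𝔖 ξ p) = e2 𝔖 ξ' p := fun p =>
    LinearEquiv.extendOfIsometry_eq (LinearEquiv.refl ℂ 𝔖) (e1 𝔖 ξ) (e2 𝔖 ξ') (dense1 𝔖 ξ)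
      (dense2 𝔖 ξ') (norm_eq h) p
  set P1 := (K1 𝔖 ξ).orthogonalProjectionOnto with hP1
  set P2 := (K2 𝔖 ξ').orthogonalProjectionOnto with hP2
  let U : H →L[ℂ] H' := (K2 𝔖 ξ').subtypeL ∘L
    ((W : K1 𝔖 ξ ≃L[ℂ] K2 𝔖 ξ') : K1 𝔖 ξ →L[ℂ] K2 𝔖 ξ') ∘L P1
  let V : H' →L[ℂ] H := (K1 𝔖 ξ).subtypeL ∘L
    ((W.symm : K2 𝔖 ξ' ≃L[ℂ] K1 𝔖 ξ) : K2 𝔖 ξ' →L[ℂ] K1 𝔖 ξ) ∘L P2
  have hUx : ∀ x, U x = (W (P1 x) : H') := fun x => rfl
  have hVx : ∀ y, V y = (W.symm (P2 y) : H) := fun y => rfl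
  have hUV : V = adjoint U := by
    rw [eq_adjoint_iff]
    intro x y
    rw [hVx, hUx]
    have a1 : ⟪((W.symm (P2 x) : K1 𝔖 ξ) : H), y⟫_ℂ = ⟪W.symm (P2 x), P1 y⟫_ℂ :=
      (Submodule.inner_orthogonalProjectionOnto_eq_of_mem_left (W.symm (P2 x)) y).symm
    have a2 : ⟪x, ((W (P1 y) : K2 𝔖 ξ') : H')⟫_ℂ = ⟪P2 x, W (P1 y)⟫_ℂ :=
      (Submodule.inner_orthogonalProjectionOnto_eq_of_mem_right (W (P1 y)) x).symm
    rw [a1, a2, ← LinearIsometryEquiv.inner_map_map W, LinearIsometryEquiv.apply_symm_apply]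
  have hP1K : ∀ k : K1 𝔖 ξ, P1 (k : H) = k := fun k =>
    Submodule.orthogonalProjectionOnto_mem_subspace_eq_self k
  have hP2K : ∀ k : K2 𝔖 ξ', P2 (k : H') = k := fun k =>
    Submodule.orthogonalProjectionOnto_mem_subspace_eq_self k
  have hVU : V ∘L U = (K1 𝔖 ξ).starProjection := by
    ext x
    rw [ContinuousLinearMap.comp_apply, hVx, hUx, hP2K, LinearIsometryEquiv.symm_apply_apply]
    rfl
  have hUV' : U ∘L V = (K2 𝔖 ξ').starProjection := by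
    ext x
    rw [ContinuousLinearMap.comp_apply, hUx, hVx, hP1K, LinearIsometryEquiv.apply_symm_apply]
    rfl
  have hUf : ∀ p : 𝔖, U (f1 𝔖 ξ p) = f2 𝔖 ξ' p := by
    intro p
    rw [hUx]
    have : P1 (f1 𝔖 ξ p) = e1 𝔖 ξ p := hP1K (e1 𝔖 ξ p)
    rw [this, hWe]
    rfl
  have hUξ : U ξ = ξ' := by
    have h1 := hUf 1
    simpa [f1, f2] using h1
  -- intertwining
  have hUP : ∀ x, U ((K1 𝔖 ξ).starProjection x) = U x := by
    intro x
    rw [← hVU]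
    have : U ((V ∘L U) x) = (U ∘L V) (U x) := rfl
    rw [this, hUV']
    exact Submodule.starProjection_eq_self_iff.2 (by rw [hUx]; exact Subtype.mem _)
  have hint : ∀ p : 𝔖, U ∘L p.1.1 = p.1.2 ∘L U := by
    intro p
    have hK : ∀ x ∈ K1 𝔖 ξ, U (p.1.1 x) = p.1.2 (U x) := by
      refine K1_induction 𝔖 ξ ?_ fun q => ?_
      · exact isClosed_eq (U.continuous.comp p.1.1.continuous) (p.1.2.continuous.comp U.continuous)
      · have h1 := hUf (p * q)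
        rw [hUf q]
        exact h1
    ext x
    show U (p.1.1 x) = p.1.2 (U x)
    have h1 : (K1 𝔖 ξ).starProjection (p.1.1 x) = p.1.1 ((K1 𝔖 ξ).starProjection x) :=
      congrArg (fun A : Op H => A x) (K1_comm 𝔖 ξ p)
    rw [← hUP (p.1.1 x), h1, hK _ (Submodule.starProjection_apply_mem _ _), hUP]
  have hint' : ∀ p : 𝔖, V ∘L p.1.2 = p.1.1 ∘L V := by
    intro p
    have h1 : adjoint (U ∘L (star p : 𝔖).1.1) = adjoint ((star p : 𝔖).1.2 ∘L U) :=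
      congrArg adjoint (hint (star p))
    rw [adjoint_comp U (star p : 𝔖).1.1, adjoint_comp (star p : 𝔖).1.2 U, ← hUV] at h1
    have e1 : adjoint (star p : 𝔖).1.1 = p.1.1 := by
      show adjoint (star p.1.1) = p.1.1
      rw [star_eq_adjoint, adjoint_adjoint]
    have e2 : adjoint (star p : 𝔖).1.2 = p.1.2 := by
      show adjoint (star p.1.2) = p.1.2
      rw [star_eq_adjoint, adjoint_adjoint]
    rw [e1, e2] at h1
    exact h1.symm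
  have hc1 : (cyc (vNa (Prod.fst '' (𝔖 : Set (Op H × Op H')))) ξ).starProjection =
      (K1 𝔖 ξ).starProjection := by
    congr 1
    exact cyc_eq1 𝔖 ξ
  have hc2 : (cyc (vNa (Prod.snd '' (𝔖 : Set (Op H × Op H')))) ξ').starProjection =
      (K2 𝔖 ξ').starProjection := by
    congr 1
    exact cyc_eq2 𝔖 ξ'
  refine ⟨U, by rw [← hUV, hVU, hc1], by rw [← hUV, hUV', hc2], hUξ, ?_, ?_⟩
  · intro T hT X' hX'
    rw [← hUV]
    have key : ∀ p : 𝔖, p.1.2 * (U ∘L T ∘L V) = (U ∘L T ∘L V) * p.1.2 := by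
      intro p
      have hTp : T * p.1.1 = p.1.1 * T := hT _ (subset_vNa _ ⟨p.1, p.2, rfl⟩)
      calc p.1.2 * (U ∘L T ∘L V) = (p.1.2 ∘L U) ∘L T ∘L V := rfl
        _ = U ∘L (p.1.1 * T) ∘L V := by rw [← hint]; rfl
        _ = U ∘L T ∘L (p.1.1 ∘L V) := by rw [← hTp]; rfl
        _ = (U ∘L T ∘L V) * p.1.2 := by rw [← hint']; rfl
    refine vNa_commute hX' ?_
    rintro _ ⟨p, hp, rfl⟩
    exact ⟨key ⟨p, hp⟩, key (star ⟨p, hp⟩)⟩
  · intro T hT X hX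
    rw [← hUV]
    have key : ∀ p : 𝔖, p.1.1 * (V ∘L T ∘L U) = (V ∘L T ∘L U) * p.1.1 := by
      intro p
      have hTp : T * p.1.2 = p.1.2 * T := hT _ (subset_vNa _ ⟨p.1, p.2, rfl⟩)
      calc p.1.1 * (V ∘L T ∘L U) = (p.1.1 ∘L V) ∘L T ∘L U := rfl
        _ = V ∘L (p.1.2 * T) ∘L U := by rw [← hint']; rfl
        _ = V ∘L T ∘L (p.1.2 ∘L U) := by rw [← hTp]; rfl
        _ = (V ∘L T ∘L U) * p.1.1 := by rw [← hint]; rfl
    refine vNa_commute hX ?_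
    rintro _ ⟨p, hp, rfl⟩
    exact ⟨key ⟨p, hp⟩, key (star ⟨p, hp⟩)⟩

end SP

end Pool.Agent.MP9a76ab
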