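import Pool.Agent.Lib.MP_9a76ab_an.Assoc
import Pool.Agent.Lib.MP_9a76ab_an.AssocInv
import Pool.Agent.Lib.MP_9a76ab_an.Closure
import Pool.Agent.Lib.MP_9a76ab_an.KmsExt
import Pool.Agent.Lib.MP_9a76ab_an.KmsAlg
import Pool.Agent.Lib.MP_9a76ab_an.SpEqM
import Pool.Agent.Lib.MP_9a76ab_an.FockNorm

/-! Utilities for the assembly of MP_9a76ab_an. -/

set_option autoImplicit false

namespace Pool.Agent.MP9a76ab

open scoped InnerProductSpace

section diag
variable {H : Type} [NormedAddCommGroup H] [InnerProductSpace ℂ H] [CompleteSpace H]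

/-- the diagonal homomorphism -/
noncomputable def diagHom (H : Type) [NormedAddCommGroup H] [InnerProductSpace ℂ H]
    [CompleteSpace H] : Op H →⋆ₐ[ℂ] (Op H × Op H) :=
  StarAlgHom.prod (StarAlgHom.id ℂ (Op H)) (StarAlgHom.id ℂ (Op H))

theorem diagHom_apply (X : Op H) : diagHom H X = (X, X) := rfl

theorem mem_map_diag {B : StarSubalgebra ℂ (Op H)} {p : Op H × Op H} :
    p ∈ B.map (diagHom H) ↔ p.1 ∈ B ∧ p.1 = p.2 := by
  rw [StarSubalgebra.mem_map]
  constructor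
  · rintro ⟨x, hx, rfl⟩
    exact ⟨hx, rfl⟩
  · rintro ⟨h1, h2⟩
    exact ⟨p.1, h1, Prod.ext rfl h2⟩

end diag

section push
variable {V J H K F : Type} [NormedAddCommGroup H] [InnerProductSpace ℂ H] [CompleteSpace H]
  [NormedAddCommGroup F] [InnerProductSpace ℂ F] [CompleteSpace F] {ξ : K → H}
  (W : WSys V H) (E : FockExt H K ξ F)

theorem push_inner (X : Op H) (u v : H) : ⟪E.ι u, E.π X (E.ι v)⟫_ℂ = ⟪u, X v⟫_ℂ := by
  rw [E.π_ι, E.ι.inner_map_map]

theorem push_φF (S : Finset V) (b : Op H) : (W.push E).φF S (E.π b) = W.φF S b := by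
  rw [WSys.φF_apply, WSys.φF_apply]
  exact Finset.sum_congr rfl fun x _ => push_inner E b _ _

theorem push_eF (S : Finset V) : (W.push E).eF S = E.π (W.eF S) := by
  simp only [WSys.eF, map_sum]; rfl

theorem push_ltr (U : J → Op H) (l : J × Bool) :
    ltr (fun j => E.π (U j)) l = E.π (ltr U l) := by
  obtain ⟨j, s⟩ := l
  cases s <;> simp [ltr, map_star]

theorem FHS.push {W : WSys V H} {B : StarSubalgebra ℂ (Op H)} {U : J → Op H}
    {S T : J → Finset V} (h : FHS W B U S T) (E : FockExt H K ξ F) :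
    FHS (W.push E) (B.map E.π) (fun j => E.π (U j)) S T where
  mem_e x := StarSubalgebra.mem_map.2 ⟨_, h.mem_e x, rfl⟩
  neS := h.neS
  neT := h.neT
  iS j := by rw [← map_star, ← map_mul, h.iS, push_eF]
  iT j := by rw [← map_star, ← map_mul, h.iT, push_eF]
  van := by
    intro b hb l c hc x y
    have key : ∀ (l : J × Bool) (c : Op F),
        Con ((B.map E.π : StarSubalgebra ℂ (Op F)) : Set (Op F)) (ltr fun j => E.π (U j)) bar
          (fun l => (W.push E).φF (rt S T l)) l c →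
        ∃ c0, Con (B : Set (Op H)) (ltr U) bar (fun l => W.φF (rt S T l)) l c0 ∧ c = E.π c0 := by
      intro l c hc
      induction hc with
      | base l b hb =>
        obtain ⟨b0, hb0, rfl⟩ := StarSubalgebra.mem_map.1 hb
        exact ⟨b0, Con.base l b0 hb0, rfl⟩
      | step l l' b c hb h' _ ih =>
        obtain ⟨b0, hb0, rfl⟩ := StarSubalgebra.mem_map.1 hb
        obtain ⟨c0, hc0, rfl⟩ := ih
        refine ⟨b0 * ltr U l' * c0, Con.step l l' b0 c0 hb0 (fun e => ?_) hc0, ?_⟩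
        · have := h' e
          rwa [push_φF] at this
        · rw [push_ltr, map_mul, map_mul]
    obtain ⟨b0, hb0, rfl⟩ := StarSubalgebra.mem_map.1 hb
    obtain ⟨c0, hc0, rfl⟩ := key l c hc
    rw [push_ltr]
    have := h.van b0 hb0 l c0 hc0 x y
    rw [← this, ← push_inner E b0]
    change ⟪E.ι (W.ξ x), E.π b0 (E.π (ltr U l) (E.π c0 (E.ι (W.ξ y))))⟫_ℂ = _
    simp only [E.π_ι]

theorem KMS.push {W : WSys V H} {B : StarSubalgebra ℂ (Op H)} {c : ℝ} {X : Op H}
    (h : KMS W B c X) (E : FockExt H K ξ F) : KMS (W.push E) (B.map E.π) c (E.π X) := by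
  intro Y hY x y
  obtain ⟨Y0, hY0, rfl⟩ := StarSubalgebra.mem_map.1 hY
  have := h Y0 hY0 x y
  change ⟪E.ι (W.ξ y), E.π X (E.π (W.e x) (E.π Y0 (E.ι (W.ξ y))))⟫_ℂ =
    c * ⟪E.ι (W.ξ x), E.π Y0 (E.π (W.e y) (E.π X (E.ι (W.ξ x))))⟫_ℂ
  simpa only [E.π_ι, E.ι.inner_map_map] using this

/-- normality for images of subalgebras -/
theorem map_vNa_le (E : FockExt H K ξ F) (S : Set (Op H)) :
    (vNa S).map E.π ≤ vNa (E.π '' S) := by
  intro X hX
  obtain ⟨b, hb, rfl⟩ := StarSubalgebra.mem_map.1 hX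
  exact E.normal S hb

end push

section calcu
variable {V J J' H : Type} [NormedAddCommGroup H] [InnerProductSpace ℂ H] [CompleteSpace H]
variable {W : WSys V H} {B B' : StarSubalgebra ℂ (Op H)}

theorem FHS.le {U : J → Op H} {S T : J → Finset V} (h : FHS W B U S T) (hB : B' ≤ B)
    (he : ∀ x, W.e x ∈ B') : FHS W B' U S T :=
  h.mono hB he id Function.injective_id

theorem FHS.reidx {U : J → Op H} {S T : J → Finset V} (h : FHS W B U S T) (f : J' → J)
    (hf : Function.Injective f) {U' : J' → Op H} {S' T' : J' → Finset V}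
    (hU : ∀ j, U' j = U (f j)) (hS : ∀ j, S' j = S (f j)) (hT : ∀ j, T' j = T (f j)) :
    FHS W B U' S' T' := by
  have := h.mono le_rfl h.mem_e f hf
  convert this using 1
  · exact funext hU
  · exact funext hS
  · exact funext hT

theorem FHS.swap {J1 J2 : Type} {U1 : J1 → Op H} {S1 T1 : J1 → Finset V}
    {U2 : J2 → Op H} {S2 T2 : J2 → Finset V}
    (h : FHS W B (Sum.elim U1 U2) (Sum.elim S1 S2) (Sum.elim T1 T2)) :
    FHS W B (Sum.elim U2 U1) (Sum.elim S2 S1) (Sum.elim T2 T1) := by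
  refine h.reidx Sum.swap ?_ ?_ ?_ ?_
  · exact Sum.swap_leftInverse.injective
  all_goals rintro (j | j) <;> rfl

theorem FHS.inl {J1 J2 : Type} {U1 : J1 → Op H} {S1 T1 : J1 → Finset V}
    {U2 : J2 → Op H} {S2 T2 : J2 → Finset V}
    (h : FHS W B (Sum.elim U1 U2) (Sum.elim S1 S2) (Sum.elim T1 T2)) :
    FHS W B U1 S1 T1 :=
  h.reidx Sum.inl Sum.inl_injective (fun _ => rfl) (fun _ => rfl) (fun _ => rfl)

theorem FHS.inr {J1 J2 : Type} {U1 : J1 → Op H} {S1 T1 : J1 → Finset V}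
    {U2 : J2 → Op H} {S2 T2 : J2 → Finset V}
    (h : FHS W B (Sum.elim U1 U2) (Sum.elim S1 S2) (Sum.elim T1 T2)) :
    FHS W B U2 S2 T2 :=
  h.reidx Sum.inr Sum.inr_injective (fun _ => rfl) (fun _ => rfl) (fun _ => rfl)

/-- associativity with the generated von Neumann algebra -/
theorem FHS.assocV {J1 J2 : Type} {U1 : J1 → Op H} {S1 T1 : J1 → Finset V}
    {U2 : J2 → Op H} {S2 T2 : J2 → Finset V}
    (h : FHS W B (Sum.elim U1 U2) (Sum.elim S1 S2) (Sum.elim T1 T2)) :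
    FHS W (vNa ((B : Set (Op H)) ∪ Set.range U1)) U2 S2 T2 := by
  have := h.assoc.closure
  rwa [vNa_adjoin] at this

end calcu

section speq
variable {H H' : Type} [NormedAddCommGroup H] [InnerProductSpace ℂ H] [CompleteSpace H]
  [NormedAddCommGroup H'] [InnerProductSpace ℂ H'] [CompleteSpace H']

theorem SpEq.of_gens (X : Set (Op H × Op H')) (ξ : H) (ξ' : H')
    (h : ∀ p ∈ StarAlgebra.adjoin ℂ X, ⟪ξ, p.1 ξ⟫_ℂ = ⟪ξ', p.2 ξ'⟫_ℂ) :
    SpEq (vNa (Prod.fst '' X)) ξ (vNa (Prod.snd '' X)) ξ' := by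
  have h1 := SpEq.of_moments (StarAlgebra.adjoin ℂ X) ξ ξ' h
  have e1 : Prod.fst '' ((StarAlgebra.adjoin ℂ X : StarSubalgebra ℂ (Op H × Op H')) :
      Set (Op H × Op H')) =
      ((StarAlgebra.adjoin ℂ (Prod.fst '' X) : StarSubalgebra ℂ (Op H)) : Set (Op H)) := by
    have := StarAlgHom.map_adjoin (StarAlgHom.fst ℂ (Op H) (Op H')) X
    have h2 := congrArg (fun S : StarSubalgebra ℂ (Op H) => (S : Set (Op H))) this
    simpa using h2
  have e2 : Prod.snd '' ((StarAlgebra.adjoin ℂ X : StarSubalgebra ℂ (Op H × Op H')) :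
      Set (Op H × Op H')) =
      ((StarAlgebra.adjoin ℂ (Prod.snd '' X) : StarSubalgebra ℂ (Op H')) : Set (Op H')) := by
    have := StarAlgHom.map_adjoin (StarAlgHom.snd ℂ (Op H) (Op H')) X
    have h2 := congrArg (fun S : StarSubalgebra ℂ (Op H') => (S : Set (Op H'))) this
    simpa using h2
  rw [e1, e2, vNa_adjoin, vNa_adjoin] at h1
  exact h1

end speq

end Pool.Agent.MP9a76ab
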