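import Pool.Agent.Lib.MP_9a76ab_an.Defs3
import Pool.Agent.Lib.MP_9a76ab_an.Basic
import Pool.Agent.Lib.MP_9a76ab_an.Util
import Pool.Agent.Lib.MP_9a76ab_an.Span

/-!
# Two standard data with the same (m1, n1) are spatially equivalent (module STD)
-/

set_option autoImplicit false

namespace Pool.Agent.MP9a76ab

open scoped InnerProductSpace

namespace StdEqX

/-- a star algebra generated by partial isometries with a common initial projection `g 0` and
orthogonal ranges is spanned by `1` and the matrix units -/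
theorem adjoin_subset {A : Type} [Ring A] [StarRing A] [Algebra ℂ A] [StarModule ℂ A] (g : ℕ → A)
    (ha : ∀ i, g i * g 0 = g i) (hb : ∀ i k, k ≠ 0 → g i * g k = 0)
    (hc : ∀ i k, i ≠ k → star (g i) * g k = 0) (hd : ∀ i, star (g i) * g i = g 0)
    (he : star (g 0) = g 0) :
    ∀ x ∈ StarAlgebra.adjoin ℂ (Set.range g),
      x ∈ Submodule.span ℂ ({1} ∪ {x : A | ∃ k l, x = g k * star (g l)}) := by
  obtain ⟨P, hP⟩ : ∃ P, P = Submodule.span ℂ ({1} ∪ {x : A | ∃ k l, x = g k * star (g l)}) :=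
    ⟨_, rfl⟩
  rw [← hP]
  have h1 : (1 : A) ∈ P := by rw [hP]; exact Submodule.subset_span (Or.inl rfl)
  have hE : ∀ k l, g k * star (g l) ∈ P := fun k l => by
    rw [hP]; exact Submodule.subset_span (Or.inr ⟨k, l, rfl⟩)
  have hg : ∀ i, ∀ y ∈ P, g i * y ∈ P := by
    intro i y hy
    rw [hP] at hy
    induction hy using Submodule.span_induction with
    | mem y hy =>
      rcases hy with hy | ⟨k, l, rfl⟩
      · rw [Set.mem_singleton_iff.1 hy, mul_one]
        have := hE i 0
        rwa [he, ha] at this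
      · by_cases hk : k = 0
        · subst hk
          rw [← mul_assoc, ha]
          exact hE i l
        · rw [← mul_assoc, hb i k hk, zero_mul]
          exact P.zero_mem
    | zero => rw [mul_zero]; exact P.zero_mem
    | add y y' _ _ h h' => rw [mul_add]; exact P.add_mem h h'
    | smul a y _ h => rw [mul_smul_comm]; exact P.smul_mem _ h
  have hg' : ∀ i, ∀ y ∈ P, star (g i) * y ∈ P := by
    intro i y hy
    rw [hP] at hy
    induction hy using Submodule.span_induction with
    | mem y hy =>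
      rcases hy with hy | ⟨k, l, rfl⟩
      · rw [Set.mem_singleton_iff.1 hy, mul_one]
        have h2 := hE 0 i
        have h3 : g 0 * star (g i) = star (g i) := by
          have := congrArg star (ha i)
          rwa [star_mul, he] at this
        rwa [h3] at h2
      · by_cases hk : i = k
        · subst hk
          rw [← mul_assoc, hd]
          exact hE 0 l
        · rw [← mul_assoc, hc i k hk, zero_mul]
          exact P.zero_mem
    | zero => rw [mul_zero]; exact P.zero_mem
    | add y y' _ _ h h' => rw [mul_add]; exact P.add_mem h h'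
    | smul a y _ h => rw [mul_smul_comm]; exact P.smul_mem _ h
  intro x hx
  have key : (∀ y ∈ P, x * y ∈ P) ∧ (∀ y ∈ P, star x * y ∈ P) := by
    induction hx using StarAlgebra.adjoin_induction with
    | mem x hx =>
      obtain ⟨i, rfl⟩ := hx
      exact ⟨hg i, hg' i⟩
    | algebraMap r =>
      refine ⟨fun y hy => ?_, fun y hy => ?_⟩
      · rw [← Algebra.smul_def]
        exact P.smul_mem _ hy
      · rw [← algebraMap_star_comm, ← Algebra.smul_def]
        exact P.smul_mem _ hy
    | add x x' _ _ h h' =>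
      refine ⟨fun y hy => ?_, fun y hy => ?_⟩
      · rw [add_mul]
        exact P.add_mem (h.1 y hy) (h'.1 y hy)
      · rw [star_add, add_mul]
        exact P.add_mem (h.2 y hy) (h'.2 y hy)
    | mul x x' _ _ h h' =>
      refine ⟨fun y hy => ?_, fun y hy => ?_⟩
      · rw [mul_assoc]
        exact h.1 _ (h'.1 y hy)
      · rw [star_mul, mul_assoc]
        exact h'.2 _ (h.2 y hy)
    | star x _ h =>
      refine ⟨h.2, fun y hy => ?_⟩
      rw [star_star]
      exact h.1 y hy
  have h2 := key.1 1 h1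
  rwa [mul_one] at h2

section one
variable {V F : Type} [NormedAddCommGroup F] [InnerProductSpace ℂ F] [CompleteSpace F]
  {m1 n1 : ℕ} {W : WSys V F} {zz : ℕ ≃ V} {v : V → Op F} {U : Op F} {a : ℕ → Op F}

theorem v_e0 (h : Std m1 n1 W zz v U a) (x : V) : v x * W.e (zz 0) = v x :=
  mul_corner (h.v1 x) (W.idem _)

theorem star_v_e (h : Std m1 n1 W zz v U a) (x : V) : star (v x) * W.e x = star (v x) :=
  mul_corner (by rw [star_star]; exact h.v2 x) (W.idem _)

theorem e_v (h : Std m1 n1 W zz v U a) (x : V) : W.e x * v x = v x := by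
  have := congrArg star (star_v_e h x)
  rwa [star_mul, star_star, W.sa] at this

theorem e_v_ne (h : Std m1 n1 W zz v U a) {x y : V} (hxy : x ≠ y) : W.e x * v y = 0 := by
  rw [← e_v h y, ← mul_assoc, W.orth x y hxy, zero_mul]

theorem star_v_v_ne (h : Std m1 n1 W zz v U a) {x y : V} (hxy : x ≠ y) :
    star (v x) * v y = 0 := by
  rw [← star_v_e h x, mul_assoc, e_v_ne h hxy, mul_zero]

theorem v_v_ne (h : Std m1 n1 W zz v U a) (x : V) {y : V} (hy : y ≠ zz 0) : v x * v y = 0 := by
  rw [← v_e0 h x, mul_assoc, e_v_ne h (Ne.symm hy), mul_zero]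

theorem star_v_ξ_ne (h : Std m1 n1 W zz v U a) {x y : V} (hxy : x ≠ y) :
    star (v x) (W.ξ y) = 0 := by
  rw [← star_v_e h x]
  change star (v x) (W.e x (W.ξ y)) = 0
  rw [W.e_ξ_ne hxy, map_zero]

theorem φ_unit (h : Std m1 n1 W zz v U a) (i k l : ℕ) :
    W.φ (zz i) (v (zz k) * star (v (zz l))) = if k = i ∧ l = i then 1 else 0 := by
  rw [W.φ_apply]
  change ⟪W.ξ (zz i), v (zz k) (star (v (zz l)) (W.ξ (zz i)))⟫_ℂ = _
  by_cases hl : l = i
  · by_cases hk : k = i
    · subst hl
      subst hk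
      rw [if_pos ⟨rfl, rfl⟩]
      have h2 := congrArg (fun A : Op F => A (W.ξ (zz k))) (h.v2 (zz k))
      have h3 : v (zz k) (star (v (zz k)) (W.ξ (zz k))) = W.ξ (zz k) := by
        rw [← W.eξ (zz k)]
        simpa [W.eξ] using h2
      rw [h3, W.inner_ξ_self]
    · rw [if_neg (fun hh => hk hh.1), inner_op_star,
        star_v_ξ_ne h (fun hh => hk (zz.injective hh)), inner_zero_left]
  · rw [if_neg (fun hh => hl hh.2), star_v_ξ_ne h (fun hh => hl (zz.injective hh)), map_zero,
      inner_zero_right]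

theorem φF_seg (W : WSys V F) (zz : ℕ ≃ V) (r : ℕ) (X : Op F) :
    W.φF (seg zz r) X = ∑ i ∈ Finset.range r, W.φ (zz i) X := by
  rw [W.φF_apply, seg, Finset.sum_map]
  rfl

theorem eF_seg (W : WSys V F) (zz : ℕ ≃ V) (r : ℕ) :
    W.eF (seg zz r) = ∑ i ∈ Finset.range r, W.e (zz i) := by
  rw [WSys.eF, seg, Finset.sum_map]
  rfl

omit [CompleteSpace F] in
theorem range_fix (zz : ℕ ≃ V) (v : V → Op F) (U : Op F) (a : ℕ → Op F) :
    Set.range (fun i : ℕ => v (zz i)) ∪ Set.range (fun j : Option ℕ => j.elim U a) =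
      Set.range v ∪ {U} ∪ Set.range a := by
  ext X
  simp only [Set.mem_union, Set.mem_range, Set.mem_singleton_iff]
  constructor
  · rintro (⟨i, rfl⟩ | ⟨j, rfl⟩)
    · exact Or.inl (Or.inl ⟨_, rfl⟩)
    · rcases j with _ | j
      · exact Or.inl (Or.inr rfl)
      · exact Or.inr ⟨j, rfl⟩
  · rintro ((⟨x, rfl⟩ | rfl) | ⟨j, rfl⟩)
    · exact Or.inl ⟨zz.symm x, by simp⟩
    · exact Or.inr ⟨none, rfl⟩
    · exact Or.inr ⟨some j, rfl⟩

end one

end StdEqX

open StdEqX in
theorem Std.spEq {V V' F F' : Type} [NormedAddCommGroup F] [InnerProductSpace ℂ F]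
    [CompleteSpace F] [NormedAddCommGroup F'] [InnerProductSpace ℂ F'] [CompleteSpace F']
    {m1 n1 : ℕ} {W : WSys V F} {zz : ℕ ≃ V} {v : V → Op F} {U : Op F} {a : ℕ → Op F}
    {W' : WSys V' F'} {zz' : ℕ ≃ V'} {v' : V' → Op F'} {U' : Op F'} {a' : ℕ → Op F'}
    (h : Std m1 n1 W zz v U a) (h' : Std m1 n1 W' zz' v' U' a') :
    SpEq (stdAlg v U a) (W.ξ (zz 0)) (stdAlg v' U' a') (W'.ξ (zz' 0)) := by
  obtain ⟨g, hg⟩ : ∃ g : ℕ → Op F × Op F', g = fun i => (v (zz i), v' (zz' i)) := ⟨_, rfl⟩
  have hg1 : ∀ i, (g i).1 = v (zz i) := fun i => by rw [hg]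
  have hg2 : ∀ i, (g i).2 = v' (zz' i) := fun i => by rw [hg]
  obtain ⟨BB, hBB⟩ : ∃ BB, BB = StarAlgebra.adjoin ℂ (Set.range g) := ⟨_, rfl⟩
  have hgB : ∀ i, g i ∈ BB := fun i => by
    rw [hBB]; exact StarAlgebra.subset_adjoin ℂ _ ⟨i, rfl⟩
  have hne : ∀ {k : ℕ}, k ≠ 0 → zz k ≠ zz 0 := fun hk hh => hk (zz.injective hh)
  have hne' : ∀ {k : ℕ}, k ≠ 0 → zz' k ≠ zz' 0 := fun hk hh => hk (zz'.injective hh)
  have hspan : ∀ p ∈ BB, p ∈ Submodule.span ℂ
      ({1} ∪ {x : Op F × Op F' | ∃ k l, x = g k * star (g l)}) := by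
    rw [hBB]
    apply adjoin_subset
    · intro i
      apply Prod.ext
      · rw [Prod.fst_mul, hg1, hg1, h.vo, v_e0 h]
      · rw [Prod.snd_mul, hg2, hg2, h'.vo, v_e0 h']
    · intro i k hk
      apply Prod.ext
      · rw [Prod.fst_mul, hg1, hg1, v_v_ne h _ (hne hk)]; rfl
      · rw [Prod.snd_mul, hg2, hg2, v_v_ne h' _ (hne' hk)]; rfl
    · intro i k hk
      apply Prod.ext
      · rw [Prod.fst_mul, Prod.fst_star, hg1, hg1,
          star_v_v_ne h (fun hh => hk (zz.injective hh))]; rfl
      · rw [Prod.snd_mul, Prod.snd_star, hg2, hg2,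
          star_v_v_ne h' (fun hh => hk (zz'.injective hh))]; rfl
    · intro i
      apply Prod.ext
      · rw [Prod.fst_mul, Prod.fst_star, hg1, hg1, h.v1, h.vo]
      · rw [Prod.snd_mul, Prod.snd_star, hg2, hg2, h'.v1, h'.vo]
    · apply Prod.ext
      · rw [Prod.fst_star, hg1, h.vo, W.sa]
      · rw [Prod.snd_star, hg2, h'.vo, W'.sa]
  have hφ : ∀ p ∈ BB, ∀ i, W.φ (zz i) p.1 = W'.φ (zz' i) p.2 := by
    intro p hp i
    have hp' := hspan p hp
    clear hp
    induction hp' using Submodule.span_induction with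
    | mem p hp =>
      rcases hp with hp | ⟨k, l, rfl⟩
      · rw [Set.mem_singleton_iff.1 hp]
        change ⟪W.ξ (zz i), (1 : Op F) (W.ξ (zz i))⟫_ℂ =
          ⟪W'.ξ (zz' i), (1 : Op F') (W'.ξ (zz' i))⟫_ℂ
        rw [one_apply_eq_self, one_apply_eq_self, W.inner_ξ_self, W'.inner_ξ_self]
      · rw [Prod.fst_mul, Prod.snd_mul, Prod.fst_star, Prod.snd_star, hg1, hg1, hg2, hg2,
          φ_unit h, φ_unit h']
    | zero => simp
    | add p q _ _ hp hq => rw [Prod.fst_add, Prod.snd_add, map_add, map_add, hp, hq]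
    | smul c p _ hp => rw [Prod.smul_fst, Prod.smul_snd, map_smul, map_smul, hp]
  have hseg : ∀ r, ∀ p ∈ BB, W.φF (seg zz r) p.1 = W'.φF (seg zz' r) p.2 := by
    intro r p hp
    rw [φF_seg, φF_seg]
    exact Finset.sum_congr rfl fun i _ => hφ p hp i
  have hone : ∀ p ∈ BB, W.φF {zz 0} p.1 = W'.φF {zz' 0} p.2 := by
    intro p hp
    rw [W.φF_singleton, W'.φF_singleton]
    exact hφ p hp 0
  have eseg : ∀ r, (W.eF (seg zz r), W'.eF (seg zz' r)) ∈ BB := by
    intro r
    have e1 : (W.eF (seg zz r), W'.eF (seg zz' r)) =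
        ∑ i ∈ Finset.range r, g i * star (g i) := by
      apply Prod.ext
      · rw [Prod.fst_sum]
        change W.eF (seg zz r) = _
        rw [eF_seg]
        refine Finset.sum_congr rfl fun i _ => ?_
        rw [Prod.fst_mul, Prod.fst_star, hg1, h.v2]
      · rw [Prod.snd_sum]
        change W'.eF (seg zz' r) = _
        rw [eF_seg]
        refine Finset.sum_congr rfl fun i _ => ?_
        rw [Prod.snd_mul, Prod.snd_star, hg2, h'.v2]
    rw [e1]
    exact sum_mem fun i _ => mul_mem (hgB i) (star_mem (hgB i))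
  have eone : (W.eF {zz 0}, W'.eF {zz' 0}) ∈ BB := by
    have e1 : (W.eF {zz 0}, W'.eF {zz' 0}) = g 0 := by
      apply Prod.ext
      · rw [hg1, h.vo, W.eF_singleton]
      · rw [hg2, h'.vo, W'.eF_singleton]
    rw [e1]
    exact hgB 0
  have hB1 : ∀ p ∈ BB, p.1 ∈ vNa (Set.range v) := by
    intro p hp
    rw [hBB] at hp
    induction hp using StarAlgebra.adjoin_induction with
    | mem x hx =>
      obtain ⟨i, rfl⟩ := hx
      rw [hg1]
      exact subset_vNa _ ⟨_, rfl⟩
    | algebraMap r => exact algebraMap_mem _ r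
    | add x x' _ _ h h' => exact add_mem h h'
    | mul x x' _ _ h h' => exact mul_mem h h'
    | star x _ h => exact star_mem h
  have hB2 : ∀ p ∈ BB, p.2 ∈ vNa (Set.range v') := by
    intro p hp
    rw [hBB] at hp
    induction hp using StarAlgebra.adjoin_induction with
    | mem x hx =>
      obtain ⟨i, rfl⟩ := hx
      rw [hg2]
      exact subset_vNa _ ⟨_, rfl⟩
    | algebraMap r => exact algebraMap_mem _ r
    | add x x' _ _ h h' => exact add_mem h h'
    | mul x x' _ _ h h' => exact mul_mem h h'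
    | star x _ h => exact star_mem h
  have cseg : ∀ r, (seg zz r).card = (seg zz' r).card := by
    intro r
    rw [seg, seg, Finset.card_map, Finset.card_map]
  have hmom := h.fhs.moments h'.fhs BB hB1 hB2 (zz 0) (zz 0) (zz' 0) (zz' 0)
    (by
      rintro p hp (_ | j)
      · exact hseg m1 p hp
      · exact hone p hp)
    (by
      rintro p hp (_ | j)
      · exact hseg n1 p hp
      · exact hone p hp)
    (fun p hp => hφ p hp 0)
    (by
      rintro (_ | j)
      · exact eseg m1
      · exact eone)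
    (by
      rintro (_ | j)
      · exact eseg n1
      · exact eone)
    (by
      rintro (_ | j)
      · exact cseg m1
      · rfl)
    (by
      rintro (_ | j)
      · exact cseg n1
      · rfl)
  have hfin := SpEq.of_gens
    (Set.range g ∪ Set.range (fun j : Option ℕ => (j.elim U a, j.elim U' a')))
    (W.ξ (zz 0)) (W'.ξ (zz' 0)) (by
      intro p hp
      refine hmom p ?_
      refine StarAlgebra.adjoin_mono ?_ hp
      rintro q (⟨i, rfl⟩ | ⟨j, rfl⟩)
      · exact Or.inl (hgB i)
      · exact Or.inr ⟨j, rfl⟩)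
  have e1 : Prod.fst '' (Set.range g ∪
      Set.range (fun j : Option ℕ => (j.elim U a, j.elim U' a'))) =
      Set.range v ∪ {U} ∪ Set.range a := by
    rw [← range_fix zz v U a, Set.image_union, ← Set.range_comp, ← Set.range_comp]
    congr 1
    · exact congrArg Set.range (funext hg1)
  have e2 : Prod.snd '' (Set.range g ∪
      Set.range (fun j : Option ℕ => (j.elim U a, j.elim U' a'))) =
      Set.range v' ∪ {U'} ∪ Set.range a' := by
    rw [← range_fix zz' v' U' a', Set.image_union, ← Set.range_comp, ← Set.range_comp]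
    congr 1
    · exact congrArg Set.range (funext hg2)
  rw [e1, e2] at hfin
  exact hfin

end Pool.Agent.MP9a76ab
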