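import Pool.Agent.Lib.MP_9a76ab_an.PartE
import Pool.Agent.Lib.MP_9a76ab_an.Model
import Pool.Agent.Lib.MP_9a76ab_an.StdEq
import Pool.Agent.Lib.MP_9a76ab_an.SpUnit

/-! Final assembly for MP_9a76ab_an, Q1. -/

set_option autoImplicit false

namespace Pool.Agent.MP9a76ab

noncomputable section

/-- common lowest terms -/
theorem lowest (M N M' N' : ℕ) (hM : 0 < M) (hM' : 0 < M')
    (h : M * N' = M' * N) :
    ∃ m1 n1 k k' : ℕ, M = k * m1 ∧ N = k * n1 ∧ M' = k' * m1 ∧ N' = k' * n1 := by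
  obtain ⟨m1, n1, hc, e1, e2⟩ := Nat.exists_coprime M N
  obtain ⟨m1', n1', hc', e1', e2'⟩ := Nat.exists_coprime M' N'
  have hk : 0 < Nat.gcd M N := Nat.gcd_pos_of_pos_left _ hM
  have hk' : 0 < Nat.gcd M' N' := Nat.gcd_pos_of_pos_left _ hM'
  have hm1 : 0 < m1 := Nat.pos_of_ne_zero fun h => by subst h; omega
  have e3 : m1 * n1' = m1' * n1 := by
    have h2 : (m1 * n1') * (Nat.gcd M N * Nat.gcd M' N') =
        (m1' * n1) * (Nat.gcd M N * Nat.gcd M' N') := by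
      calc (m1 * n1') * (Nat.gcd M N * Nat.gcd M' N')
          = (m1 * Nat.gcd M N) * (n1' * Nat.gcd M' N') := by ring
        _ = M * N' := by rw [← e1, ← e2']
        _ = M' * N := h
        _ = (m1' * Nat.gcd M' N') * (n1 * Nat.gcd M N) := by rw [← e1', ← e2]
        _ = _ := by ring
    exact Nat.eq_of_mul_eq_mul_right (Nat.mul_pos hk hk') h2
  have d1 : m1 ∣ m1' := hc.dvd_of_dvd_mul_right (Dvd.intro _ e3)
  have d2 : m1' ∣ m1 := hc'.dvd_of_dvd_mul_right (Dvd.intro _ e3.symm)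
  have e4 : m1 = m1' := Nat.dvd_antisymm d1 d2
  subst e4
  have e5 : n1' = n1 := Nat.eq_of_mul_eq_mul_left hm1 e3
  subst e5
  exact ⟨m1, n1', Nat.gcd M N, Nat.gcd M' N', by rw [mul_comm]; exact e1,
    by rw [mul_comm]; exact e2, by rw [mul_comm]; exact e1', by rw [mul_comm]; exact e2'⟩

theorem lift_iso {Q Q' : Type} [NormedAddCommGroup Q] [InnerProductSpace ℂ Q] [CompleteSpace Q]
    [NormedAddCommGroup Q'] [InnerProductSpace ℂ Q'] [CompleteSpace Q']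
    (N : StarSubalgebra ℂ (Q →L[ℂ] Q)) (N' : StarSubalgebra ℂ (Q' →L[ℂ] Q')) (U : Q ≃ₗᵢ[ℂ] Q')
    (hU : ∀ T, T ∈ N ↔ U.conjStarAlgEquiv T ∈ N') :
    ∃ Φ : N ≃⋆ₐ[ℂ] N', ∀ T : N, (Φ T : Q' →L[ℂ] Q') = U.conjStarAlgEquiv T :=
  ⟨{ toFun := fun T => ⟨U.conjStarAlgEquiv T, (hU T).1 T.2⟩
     invFun := fun S => ⟨U.conjStarAlgEquiv.symm S, by
        rw [hU, StarAlgEquiv.apply_symm_apply]; exact S.2⟩
     left_inv := fun T => Subtype.ext (U.conjStarAlgEquiv.symm_apply_apply _)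
     right_inv := fun S => Subtype.ext (U.conjStarAlgEquiv.apply_symm_apply _)
     map_mul' := fun S T => Subtype.ext (map_mul U.conjStarAlgEquiv _ _)
     map_add' := fun S T => Subtype.ext (map_add U.conjStarAlgEquiv _ _)
     map_star' := fun T => Subtype.ext (map_star U.conjStarAlgEquiv _)
     map_smul' := fun c T => Subtype.ext (map_smul U.conjStarAlgEquiv c _) }, fun T => rfl⟩

theorem ratio_only (m n m' n' : ℤ) (hm : 2 < |m|) (hn : |m| < n) (hm' : 2 < |m'|) (hn' : |m'| < n')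
    (h : (|m| : ℝ) / (n : ℝ) = (|m'| : ℝ) / (n' : ℝ)) :
    ∃ (U : l2 (BS m n ⧸ Subgroup.zpowers (bsA m n)) ≃ₗᵢ[ℂ]
      l2 (BS m' n' ⧸ Subgroup.zpowers (bsA m' n'))),
      ∀ T, T ∈ HeckeVN (Subgroup.zpowers (bsA m n)) ↔
        U.conjStarAlgEquiv T ∈ HeckeVN (Subgroup.zpowers (bsA m' n')) := by
  have am := Int.abs_eq_natAbs m
  have am' := Int.abs_eq_natAbs m'
  have hM : 0 < m.natAbs := by omega
  have hN : 0 < n.natAbs := by omega
  have hM' : 0 < m'.natAbs := by omega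
  have hN' : 0 < n'.natAbs := by omega
  have hMN : m.natAbs < n.natAbs := by omega
  have hMN' : m'.natAbs < n'.natAbs := by omega
  have hr : m.natAbs * n'.natAbs = m'.natAbs * n.natAbs := by
    have h1 : (0 : ℝ) < n := by exact_mod_cast (abs_nonneg m).trans_lt hn
    have h2 : (0 : ℝ) < n' := by exact_mod_cast (abs_nonneg m').trans_lt hn'
    rw [div_eq_div_iff h1.ne' h2.ne'] at h
    have h3 : |m| * n' = |m'| * n := by exact_mod_cast h
    have h4 : ((m.natAbs : ℤ)) * (n'.natAbs : ℤ) = (m'.natAbs : ℤ) * (n.natAbs : ℤ) := by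
      rw [Int.natCast_natAbs, Int.natCast_natAbs, Int.natCast_natAbs, Int.natCast_natAbs,
        abs_of_pos (show (0 : ℤ) < n' by omega), abs_of_pos (show (0 : ℤ) < n by omega)]
      exact h3
    exact_mod_cast h4
  obtain ⟨m1, n1, k, k', e1, e2, e3, e4⟩ := lowest _ _ _ _ hM hM' hr
  obtain ⟨G, H, _, _, _, D, ι, hι, hcom⟩ := exists_model m n hm hn
  obtain ⟨G', H', _, _, _, D', ι', hι', hcom'⟩ := exists_model m' n' hm' hn'
  obtain ⟨F, _, _, _, W, zz, v, V, a, hS, hE⟩ := D.spEq_std ⟨hM, hMN⟩ e1 e2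
  obtain ⟨F', _, _, _, W', zz', v', V', a', hS', hE'⟩ := D'.spEq_std ⟨hM', hMN'⟩ e3 e4
  have hT := (hE.trans (hS.spEq hS')).trans hE'.symm
  obtain ⟨U, hU⟩ := unitary_of_speq hT (HeckeVN _) (HeckeVN _) ι ι' hι hι' hcom hcom'
  exact ⟨U, fun T => hU T⟩

end

end Pool.Agent.MP9a76ab
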