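import Mathlib
import Pool.Agent.Lib.MP_9a76ab_an.Basic

/-! Existence of the Fock extension (MP_9a76ab_an). -/

set_option autoImplicit false

namespace Pool.Agent.MP9a76ab

open scoped InnerProductSpace

namespace FockX

section comp
variable {H Y : Type} [NormedAddCommGroup H] [InnerProductSpace ℂ H] [CompleteSpace H]

theorem two_toReal : (0 : ℝ) < (2 : ENNReal).toReal := by norm_num

theorem mem_comp (b : Op H) (f : lp (fun _ : Y => H) 2) : Memℓp (fun y => b (f y)) 2 := by
  refine memℓp_gen ?_
  have h := (lp.memℓp f).summable two_toReal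
  refine Summable.of_nonneg_of_le (fun y => by positivity) (fun y => ?_)
    (h.mul_left (‖b‖ ^ (2 : ENNReal).toReal))
  rw [← Real.mul_rpow (norm_nonneg _) (norm_nonneg _)]
  exact Real.rpow_le_rpow (norm_nonneg _) (b.le_opNorm _) two_toReal.le

/-- componentwise application of an operator -/
noncomputable def piOp (b : Op H) : Op (lp (fun _ : Y => H) 2) :=
  LinearMap.mkContinuous
    { toFun := fun f => (⟨fun y => b (f y), mem_comp b f⟩ : lp (fun _ : Y => H) 2)
      map_add' := fun f g => by
        ext y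
        exact map_add b _ _
      map_smul' := fun c f => by
        ext y
        exact map_smul b _ _ } ‖b‖ (fun f => by
      refine lp.norm_le_of_forall_sum_le two_toReal (by positivity) fun s => ?_
      rw [Real.mul_rpow (norm_nonneg _) (norm_nonneg _)]
      refine le_trans ?_ (mul_le_mul_of_nonneg_left (lp.sum_rpow_le_norm_rpow two_toReal f s)
        (by positivity))
      rw [Finset.mul_sum]
      refine Finset.sum_le_sum fun y _ => ?_
      rw [← Real.mul_rpow (norm_nonneg _) (norm_nonneg _)]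
      exact Real.rpow_le_rpow (norm_nonneg _) (b.le_opNorm _) two_toReal.le)

theorem piOp_apply (b : Op H) (f : lp (fun _ : Y => H) 2) (y : Y) :
    (piOp b f : Y → H) y = b (f y) := rfl

/-- the star homomorphism `b ↦ piOp b` -/
noncomputable def piHom (H Y : Type) [NormedAddCommGroup H] [InnerProductSpace ℂ H]
    [CompleteSpace H] : Op H →⋆ₐ[ℂ] Op (lp (fun _ : Y => H) 2) where
  toFun := piOp
  map_one' := by
    ext f y
    rw [piOp_apply]
    rfl
  map_mul' a b := by
    ext f y
    rw [piOp_apply]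
    rfl
  map_zero' := by
    ext f y
    rw [piOp_apply]
    rfl
  map_add' a b := by
    ext f y
    rw [piOp_apply]
    rfl
  commutes' c := by
    ext f y
    rw [piOp_apply]
    rfl
  map_star' b := by
    rw [ContinuousLinearMap.star_eq_adjoint, ContinuousLinearMap.star_eq_adjoint,
      ContinuousLinearMap.eq_adjoint_iff]
    intro f g
    rw [lp.inner_eq_tsum, lp.inner_eq_tsum]
    refine tsum_congr fun y => ?_
    rw [piOp_apply, piOp_apply, ContinuousLinearMap.adjoint_inner_left]

theorem piHom_apply (b : Op H) (f : lp (fun _ : Y => H) 2) (y : Y) :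
    (piHom H Y b f : Y → H) y = b (f y) := rfl

open scoped Classical in
/-- the embedding of `H` as the component `y` -/
noncomputable def jn (y : Y) : H →ₗᵢ[ℂ] lp (fun _ : Y => H) 2 where
  toFun := fun h => lp.single (E := fun _ : Y => H) 2 y h
  map_add' := fun a b => lp.single_add (E := fun _ : Y => H) 2 y a b
  map_smul' := fun c a => lp.single_smul (E := fun _ : Y => H) 2 y c a
  norm_map' := fun h => by
    have := lp.norm_single (E := fun _ : Y => H) (p := 2) (by norm_num) y h
    exact this

theorem jn_self (y : Y) (h : H) : (jn y h : Y → H) y = h := by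
  classical
  exact lp.single_apply_self (E := fun _ : Y => H) 2 y h

theorem jn_ne {y y' : Y} (hy : y' ≠ y) (h : H) : (jn y h : Y → H) y' = 0 := by
  classical
  exact lp.single_apply_ne (E := fun _ : Y => H) 2 y h hy

theorem inner_jn (y : Y) (h : H) (f : lp (fun _ : Y => H) 2) :
    ⟪jn y h, f⟫_ℂ = ⟪h, f y⟫_ℂ := by
  classical
  exact lp.inner_single_left (𝕜 := ℂ) (G := fun _ : Y => H) y h f

theorem inner_jn_jn (y : Y) (h h' : H) : ⟪jn y h, jn y h'⟫_ℂ = ⟪h, h'⟫_ℂ := by
  rw [inner_jn, jn_self]

theorem inner_jn_ne {y y' : Y} (hy : y ≠ y') (h h' : H) : ⟪jn y h, jn y' h'⟫_ℂ = 0 := by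
  rw [inner_jn, jn_ne hy, inner_zero_right]

theorem piHom_jn (b : Op H) (y : Y) (h : H) : piHom H Y b (jn y h) = jn y (b h) := by
  ext y'
  rw [piHom_apply]
  by_cases hy : y' = y
  · subst hy
    rw [jn_self, jn_self]
  · rw [jn_ne hy, jn_ne hy, map_zero]

theorem jn_dense : (Submodule.span ℂ (⋃ y : Y, Set.range (jn (H := H) y))).topologicalClosure
    = ⊤ := by
  classical
  rw [eq_top_iff]
  intro f _
  have h := lp.hasSum_single (E := fun _ : Y => H) (p := 2) (by norm_num) f
  refine (Submodule.isClosed_topologicalClosure _).mem_of_tendsto h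
    (Filter.Eventually.of_forall fun s => ?_)
  refine Submodule.sum_mem _ fun y _ => Submodule.le_topologicalClosure _ ?_
  refine Submodule.subset_span (Set.mem_iUnion.2 ⟨y, f y, ?_⟩)
  change lp.single (E := fun _ : Y => H) 2 y (f y) = _
  congr!

end comp

section ext
variable {F ι : Type} [NormedAddCommGroup F] [InnerProductSpace ℂ F] [CompleteSpace F]

theorem vec_ext (B : HilbertBasis ι ℂ F) {v v' : F} (h : ∀ p, ⟪B p, v⟫_ℂ = ⟪B p, v'⟫_ℂ) :
    v = v' := by
  apply B.repr.injective
  ext p
  rw [B.repr_apply_apply, B.repr_apply_apply, h p]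

theorem op_ext (B : HilbertBasis ι ℂ F) {A A' : Op F}
    (h : ∀ p p', ⟪B p, A (B p')⟫_ℂ = ⟪B p, A' (B p')⟫_ℂ) : A = A' := by
  have hd : Dense ((Submodule.span ℂ (Set.range B) : Submodule ℂ F) : Set F) := by
    rw [Submodule.dense_iff_topologicalClosure_eq_top]
    exact B.dense_span
  refine ContinuousLinearMap.ext_on hd ?_
  rintro _ ⟨p', rfl⟩
  exact vec_ext B fun p => h p p'

/-- the isometry which maps a Hilbert basis to an orthonormal family -/
theorem exists_iso (B : HilbertBasis ι ℂ F) {C : ι → F} (hC : Orthonormal ℂ C) :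
    ∃ T : Op F, ∀ p, T (B p) = C p := by
  classical
  refine ⟨((hC.orthogonalFamily.linearIsometry).comp B.repr.toLinearIsometry).toContinuousLinearMap,
    fun p => ?_⟩
  have h1 : B.repr (B p) = lp.single 2 p (1 : ℂ) := B.repr_self p
  change hC.orthogonalFamily.linearIsometry (B.repr (B p)) = C p
  rw [h1, OrthogonalFamily.linearIsometry_apply_single]
  simp

end ext

end FockX

open FockX in
theorem exists_fockExt (H K : Type) [NormedAddCommGroup H] [InnerProductSpace ℂ H]
    [CompleteSpace H] (ξ : K → H) (hξ : ∀ k, ‖ξ k‖ = 1) :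
    ∃ (F : Type) (_ : NormedAddCommGroup F) (_ : InnerProductSpace ℂ F) (_ : CompleteSpace F),
      Nonempty (FockExt H K ξ F) := by
  classical
  obtain ⟨w, b, hb⟩ := exists_hilbertBasis ℂ H
  set Y : Type := List (K × w) with hY
  -- the basis of F
  let v : Y × w → lp (fun _ : Y => H) 2 := fun p => jn p.1 (b p.2)
  have hv : Orthonormal ℂ v := by
    rw [orthonormal_iff_ite]
    rintro ⟨y, i⟩ ⟨y', i'⟩
    change ⟪jn y (b i), jn y' (b i')⟫_ℂ = _
    by_cases hy : y = y'
    · subst hy
      rw [inner_jn_jn, orthonormal_iff_ite.1 b.orthonormal]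
      simp
    · rw [inner_jn_ne hy, if_neg]
      simp [hy]
  have hsp : (Submodule.span ℂ (Set.range v))ᗮ = ⊥ := by
    rw [Submodule.eq_bot_iff]
    intro f hf
    rw [Submodule.mem_orthogonal] at hf
    ext y
    refine vec_ext b fun i => ?_
    have h1 := hf (v (y, i)) (Submodule.subset_span ⟨_, rfl⟩)
    change ⟪jn y (b i), f⟫_ℂ = 0 at h1
    rw [inner_jn] at h1
    rw [h1]
    simp
  let B : HilbertBasis (Y × w) ℂ (lp (fun _ : Y => H) 2) :=
    HilbertBasis.mkOfOrthogonalEqBot hv hsp
  have hB : ∀ p, B p = jn p.1 (b p.2) := by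
    intro p
    have : ⇑B = v := HilbertBasis.coe_mkOfOrthogonalEqBot hv hsp
    rw [this]
  -- the target family
  have hC : ∀ k : K, Orthonormal ℂ (fun p : Y × w => jn ((k, p.2) :: p.1) (ξ k)) := by
    intro k
    rw [orthonormal_iff_ite]
    rintro ⟨y, i⟩ ⟨y', i'⟩
    by_cases h : (⟨y, i⟩ : Y × w) = ⟨y', i'⟩
    · rw [if_pos h]
      cases h
      rw [inner_jn_jn, inner_self_eq_norm_sq_to_K, hξ]
      simp
    · rw [if_neg h, inner_jn_ne]
      intro h'
      apply h
      simp only [List.cons.injEq, Prod.mk.injEq, true_and] at h'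
      rw [h'.1, h'.2]
  choose ℓ hℓ using fun k => exists_iso B (hC k)
  have hℓB : ∀ k y i, ℓ k (jn y (b i)) = jn ((k, i) :: y) (ξ k) := by
    intro k y i
    have := hℓ k (y, i)
    rwa [hB] at this
  have hrel : ∀ (k k' : K) (a : Op H) (p p' : Y × w),
      ⟪B p, (star (ℓ k) * piHom H Y a * ℓ k') (B p')⟫_ℂ =
        ⟪jn ((k, p.2) :: p.1) (ξ k), jn ((k', p'.2) :: p'.1) (a (ξ k'))⟫_ℂ := by
    intro k k' a p p'
    change ⟪B p, star (ℓ k) (piHom H Y a (ℓ k' (B p')))⟫_ℂ = _
    rw [inner_star_op, hℓ, hℓ, piHom_jn]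
  refine ⟨lp (fun _ : Y => H) 2, inferInstance, inferInstance, inferInstance, ⟨?_⟩⟩
  refine
    { π := piHom H Y
      ι := jn []
      ℓ := ℓ
      π_ι := fun a h => piHom_jn a [] h
      rel := ?_
      rel0 := ?_
      vac := ?_
      Y := Y
      j := jn
      j_π := fun y a h => piHom_jn a y h
      j_dense := jn_dense
      gen := ?_ }
  · intro k a
    refine op_ext B fun p p' => ?_
    rw [hrel]
    obtain ⟨y, i⟩ := p
    obtain ⟨y', i'⟩ := p'
    rw [smul_apply, inner_smul_right]
    change _ = _ * ⟪B (y, i), B (y', i')⟫_ℂ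
    rw [orthonormal_iff_ite.1 B.orthonormal]
    by_cases h : (⟨y, i⟩ : Y × w) = ⟨y', i'⟩
    · rw [if_pos h]
      cases h
      rw [inner_jn_jn, mul_one]
    · rw [if_neg h, mul_zero, inner_jn_ne]
      intro h'
      apply h
      simp only [List.cons.injEq, Prod.mk.injEq, true_and] at h'
      rw [h'.1, h'.2]
  · intro k k' a hk
    refine op_ext B fun p p' => ?_
    rw [hrel, inner_jn_ne]
    · simp
    · intro h'
      simp only [List.cons.injEq, Prod.mk.injEq] at h'
      exact hk h'.1.1
  · intro k a h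
    refine vec_ext B fun p => ?_
    rw [inner_star_op, hℓ, piHom_jn, inner_jn_ne (by simp), inner_zero_right]
  · have hcrea : ∀ (y : Y) (h : H), ∃ n, Crea (piHom H Y) (jn []) ℓ n (jn y h) := by
      intro y
      induction y with
      | nil => exact fun h => ⟨0, Crea.base h⟩
      | cons p y ih =>
        intro h
        obtain ⟨k, i⟩ := p
        obtain ⟨n, hn⟩ := ih (b i)
        refine ⟨n + 1, ?_⟩
        have h1 := Crea.step n k ((innerSL ℂ (ξ k)).smulRight h) _ hn
        rw [hℓB, piHom_jn] at h1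
        have h2 : ((innerSL ℂ (ξ k)).smulRight h : Op H) (ξ k) = h := by
          rw [ContinuousLinearMap.smulRight_apply, innerSL_apply_apply,
            inner_self_eq_norm_sq_to_K, hξ]
          simp
        rwa [h2] at h1
    have h3 : Submodule.span ℂ (⋃ y : Y, Set.range (jn (H := H) y)) ≤
        Submodule.span ℂ {v | ∃ n, Crea (piHom H Y) (jn []) ℓ n v} := by
      rw [Submodule.span_le]
      rintro _ ⟨_, ⟨y, rfl⟩, ⟨h, rfl⟩⟩
      exact Submodule.subset_span (hcrea y h)
    rw [eq_top_iff, ← jn_dense]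
    exact Submodule.topologicalClosure_mono h3

end Pool.Agent.MP9a76ab
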