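import Pool.Agent.Lib.MP_9a76ab_an.Basic

/-! Blocks of creation operators form a Fock system. -/

set_option autoImplicit false

namespace Pool.Agent.MP9a76ab

open scoped InnerProductSpace

namespace FockBlkX

section
variable {F F2 K2 : Type} [NormedAddCommGroup F] [InnerProductSpace ℂ F] [CompleteSpace F]
  [NormedAddCommGroup F2] [InnerProductSpace ℂ F2] [CompleteSpace F2]

/-- coefficient of the creation operator with index `(i, j)` -/
noncomputable def ca {r : ℕ} (i j : Fin r) : ℂ :=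
  if i = j then 1 else if i < j then ((Real.sqrt 2 : ℝ) : ℂ)⁻¹
  else -(Complex.I * ((Real.sqrt 2 : ℝ) : ℂ)⁻¹)

/-- coefficient of the creation operator with index `(j, i)` -/
noncomputable def cb {r : ℕ} (i j : Fin r) : ℂ :=
  if i = j then 0 else if i < j then Complex.I * ((Real.sqrt 2 : ℝ) : ℂ)⁻¹
  else ((Real.sqrt 2 : ℝ) : ℂ)⁻¹

theorem lhat_eq {ξ : K2 → F} (E : FockExt F K2 ξ F2) {r : ℕ} (κ : Fin r × Fin r → K2)
    (i j : Fin r) :
    lhat E κ i j = ca i j • E.ℓ (κ (i, j)) + cb i j • E.ℓ (κ (j, i)) := by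
  unfold lhat ca cb
  split_ifs with h1 h2
  · subst h1; simp
  · rw [smul_add, smul_smul, mul_comm]
  · rw [smul_sub, smul_smul, mul_comm, sub_eq_add_neg, ← neg_smul, add_comm]

theorem sq2 : (((Real.sqrt 2 : ℝ) : ℂ)⁻¹) * (((Real.sqrt 2 : ℝ) : ℂ)⁻¹) = 1 / 2 := by
  rw [← mul_inv, ← Complex.ofReal_mul, Real.mul_self_sqrt (by norm_num)]
  norm_num

theorem conj_s : (starRingEnd ℂ) (((Real.sqrt 2 : ℝ) : ℂ)⁻¹) = ((Real.sqrt 2 : ℝ) : ℂ)⁻¹ := by
  rw [map_inv₀, Complex.conj_ofReal]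

theorem norm_one {r : ℕ} (i j : Fin r) (h : i ≠ j) :
    (starRingEnd ℂ) (ca i j) * ca i j + (starRingEnd ℂ) (cb i j) * cb i j = 1 := by
  unfold ca cb
  rw [if_neg h, if_neg h]
  split_ifs with h2
  · rw [map_mul, conj_s, Complex.conj_I]
    have := sq2
    linear_combination 2 * this - (((Real.sqrt 2 : ℝ) : ℂ)⁻¹) * (((Real.sqrt 2 : ℝ) : ℂ)⁻¹) *
      (Complex.I_mul_I)
  · rw [map_neg, map_mul, conj_s, Complex.conj_I]
    have := sq2
    linear_combination 2 * this - (((Real.sqrt 2 : ℝ) : ℂ)⁻¹) * (((Real.sqrt 2 : ℝ) : ℂ)⁻¹) *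
      (Complex.I_mul_I)

theorem cross_zero {r : ℕ} (i j : Fin r) (h : i ≠ j) :
    (starRingEnd ℂ) (ca i j) * cb j i + (starRingEnd ℂ) (cb i j) * ca j i = 0 := by
  unfold ca cb
  rw [if_neg h, if_neg h, if_neg h.symm, if_neg h.symm]
  rcases lt_or_gt_of_ne h with h2 | h2
  · rw [if_pos h2, if_pos h2, if_neg (not_lt.2 h2.le), if_neg (not_lt.2 h2.le), map_mul, conj_s,
      Complex.conj_I]
    linear_combination (((Real.sqrt 2 : ℝ) : ℂ)⁻¹) * (((Real.sqrt 2 : ℝ) : ℂ)⁻¹) *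
      (Complex.I_mul_I)
  · rw [if_pos h2, if_pos h2, if_neg (not_lt.2 h2.le), if_neg (not_lt.2 h2.le), map_neg, map_mul,
      conj_s, Complex.conj_I]
    linear_combination (((Real.sqrt 2 : ℝ) : ℂ)⁻¹) * (((Real.sqrt 2 : ℝ) : ℂ)⁻¹) *
      (Complex.I_mul_I)

open Classical in
theorem ell_rel {w : F} (E : FockExt F K2 (fun _ => w) F2) (k k' : K2) (c : Op F) :
    star (E.ℓ k) * E.π c * E.ℓ k' = (if k = k' then ⟪w, c w⟫_ℂ else 0) • (1 : Op F2) := by
  split_ifs with h
  · subst h; exact E.rel k c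
  · rw [E.rel0 k k' c h, zero_smul]

theorem lhat_star {ξ : K2 → F} (E : FockExt F K2 ξ F2) {r : ℕ} (κ : Fin r × Fin r → K2)
    (i j : Fin r) :
    star (lhat E κ i j) = (starRingEnd ℂ) (ca i j) • star (E.ℓ (κ (i, j))) +
      (starRingEnd ℂ) (cb i j) • star (E.ℓ (κ (j, i))) := by
  rw [lhat_eq, star_add, star_smul, star_smul]
  rfl

theorem expand {w : F} (E : FockExt F K2 (fun _ => w) F2) {r r' : ℕ}
    (κ : Fin r × Fin r → K2) (κ' : Fin r' × Fin r' → K2) (i j : Fin r) (i' j' : Fin r')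
    (c : Op F) :
    star (lhat E κ i j) * E.π c * lhat E κ' i' j' =
      ((starRingEnd ℂ) (ca i j) * ca i' j') • (star (E.ℓ (κ (i, j))) * E.π c * E.ℓ (κ' (i', j'))) +
      ((starRingEnd ℂ) (ca i j) * cb i' j') • (star (E.ℓ (κ (i, j))) * E.π c * E.ℓ (κ' (j', i'))) +
      ((starRingEnd ℂ) (cb i j) * ca i' j') • (star (E.ℓ (κ (j, i))) * E.π c * E.ℓ (κ' (i', j'))) +
      ((starRingEnd ℂ) (cb i j) * cb i' j') •
        (star (E.ℓ (κ (j, i))) * E.π c * E.ℓ (κ' (j', i'))) := by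
  rw [lhat_star, lhat_eq]
  simp only [add_mul, mul_add, smul_mul_assoc, mul_smul_comm, smul_add, smul_smul]
  rw [mul_comm (ca i' j'), mul_comm (cb i' j'), mul_comm (ca i' j'), mul_comm (cb i' j')]
  abel

open Classical in
theorem lhat_rel {w : F} (E : FockExt F K2 (fun _ => w) F2) {r : ℕ} (κ : Fin r × Fin r → K2)
    (hκ : Function.Injective κ) (i j i' j' : Fin r) (c : Op F) :
    star (lhat E κ i j) * E.π c * lhat E κ i' j' =
      (if i = i' ∧ j = j' then ⟪w, c w⟫_ℂ else 0) • (1 : Op F2) := by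
  rw [expand, ell_rel, ell_rel, ell_rel, ell_rel]
  simp only [smul_smul, ← add_smul, hκ.eq_iff, Prod.mk.injEq]
  congr 1
  by_cases h : i = i' ∧ j = j'
  · obtain ⟨rfl, rfl⟩ := h
    by_cases hij : i = j
    · subst hij
      simp [ca, cb]
    · have := norm_one i j hij
      have h1 : ¬ (i = j ∧ j = i) := fun h => hij h.1
      have h2 : ¬ (j = i ∧ i = j) := fun h => hij h.2
      rw [if_pos ⟨rfl, rfl⟩, if_neg h1, if_neg h2, if_pos ⟨rfl, rfl⟩]
      linear_combination ⟪w, c w⟫_ℂ * this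
  · rw [if_neg h]
    by_cases h2 : i = j' ∧ j = i'
    · obtain ⟨rfl, rfl⟩ := h2
      have hij : i ≠ j := fun e => h ⟨e, e.symm⟩
      have := cross_zero i j hij
      have h3 : ¬ (j = i ∧ i = j) := fun e => hij e.2
      rw [if_pos ⟨rfl, rfl⟩, if_neg h3, if_pos ⟨rfl, rfl⟩]
      linear_combination ⟪w, c w⟫_ℂ * this
    · have h3 : ¬ (j = i' ∧ i = j') := fun e => h2 ⟨e.2, e.1⟩
      have h4 : ¬ (j = j' ∧ i = i') := fun e => h ⟨e.2, e.1⟩
      rw [if_neg h2, if_neg h3, if_neg h4]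
      simp

theorem lhat_rel0 {w : F} (E : FockExt F K2 (fun _ => w) F2) {r r' : ℕ}
    (κ : Fin r × Fin r → K2) (κ' : Fin r' × Fin r' → K2) (h : ∀ p p', κ p ≠ κ' p')
    (i j : Fin r) (i' j' : Fin r') (c : Op F) :
    star (lhat E κ i j) * E.π c * lhat E κ' i' j' = 0 := by
  classical
  rw [expand, ell_rel, ell_rel, ell_rel, ell_rel]
  simp [h]

theorem lhat_vac {w : F} (E : FockExt F K2 (fun _ => w) F2) {r : ℕ}
    (κ : Fin r × Fin r → K2) (i j : Fin r) (c : Op F) (u : F) :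
    star (lhat E κ i j) (E.π c (E.ι u)) = 0 := by
  rw [lhat_star, add_apply, smul_apply, smul_apply, E.vac, E.vac]
  simp

variable {V : Type}

theorem LB_star {ξ : K2 → F} (E : FockExt F K2 ξ F2) (v : V → Op F) {r : ℕ} (z : Fin r → V)
    (κ : Fin r × Fin r → K2) :
    star (LB E v z κ) = ((Real.sqrt r : ℝ) : ℂ)⁻¹ • ∑ i, ∑ j,
      E.π (v (z j)) * star (lhat E κ i j) * E.π (star (v (z i))) := by
  unfold LB
  rw [star_smul, star_sum]
  congr 1
  · simp
  · refine Finset.sum_congr rfl fun i _ => ?_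
    rw [star_sum]
    refine Finset.sum_congr rfl fun j _ => ?_
    rw [star_mul, star_mul, ← map_star, ← map_star, star_star, mul_assoc]

theorem LB_mul {ξ : K2 → F} (E : FockExt F K2 ξ F2) (v : V → Op F) {r r' : ℕ} (z : Fin r → V)
    (z' : Fin r' → V) (κ : Fin r × Fin r → K2) (κ' : Fin r' × Fin r' → K2) (b : Op F) :
    star (LB E v z κ) * E.π b * LB E v z' κ' =
      (((Real.sqrt r : ℝ) : ℂ)⁻¹ * ((Real.sqrt r' : ℝ) : ℂ)⁻¹) • ∑ i, ∑ j, ∑ k, ∑ l,
        E.π (v (z j)) * (star (lhat E κ i j) * E.π (star (v (z i)) * b * v (z' k)) *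
          lhat E κ' k l) * E.π (star (v (z' l))) := by
  rw [LB_star]
  unfold LB
  rw [smul_mul_assoc, smul_mul_assoc, mul_smul_comm, smul_smul]
  congr 1
  rw [Finset.sum_mul, Finset.sum_mul]
  refine Finset.sum_congr rfl fun i _ => ?_
  rw [Finset.sum_mul, Finset.sum_mul]
  refine Finset.sum_congr rfl fun j _ => ?_
  rw [Finset.mul_sum]
  refine Finset.sum_congr rfl fun k _ => ?_
  rw [Finset.mul_sum]
  refine Finset.sum_congr rfl fun l _ => ?_
  rw [map_mul, map_mul]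
  simp only [mul_assoc]

end

end FockBlkX

open FockBlkX

section F
variable {V J K H F : Type} [NormedAddCommGroup H] [InnerProductSpace ℂ H] [CompleteSpace H]
  [NormedAddCommGroup F] [InnerProductSpace ℂ F] [CompleteSpace F]

variable {W : WSys V F} {B : StarSubalgebra ℂ (Op F)} {L : J → Op F} {P : J → Finset V}

variable {F2 K2 : Type} [NormedAddCommGroup F2] [InnerProductSpace ℂ F2] [CompleteSpace F2]

theorem FockBlkX.push_eF {W : WSys V F} {ξ : K2 → F} (E : FockExt F K2 ξ F2) (P : Finset V) :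
    (W.push E).eF P = E.π (W.eF P) := by
  simp [WSys.eF, WSys.push, map_sum]

theorem FockBlkX.push_φF {W : WSys V F} {ξ : K2 → F} (E : FockExt F K2 ξ F2) (P : Finset V)
    (b : Op F) : (W.push E).φF P (E.π b) = W.φF P b := by
  rw [WSys.φF_apply, WSys.φF_apply]
  refine Finset.sum_congr rfl fun x _ => ?_
  change ⟪E.ι (W.ξ x), E.π b (E.ι (W.ξ x))⟫_ℂ = _
  rw [E.π_ι, E.ι.inner_map_map]

theorem FSys.blocks {W : WSys V F} {o : V} (E : FockExt F K2 (fun _ => W.ξ o) F2)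
    (B : StarSubalgebra ℂ (Op F)) (hB : ∀ x, W.e x ∈ B) (v : V → Op F) (hv : ∀ x, v x ∈ B)
    (v1 : ∀ x, star (v x) * v x = W.e o) (v2 : ∀ x, v x * star (v x) = W.e x)
    (vk : ∀ x, KMS W B 1 (v x)) (r : J → ℕ) (hr : ∀ j, 0 < r j) (z : ∀ j, Fin (r j) → V)
    (hz : ∀ j, Function.Injective (z j)) (κ : ∀ j, Fin (r j) × Fin (r j) → K2)
    (hκ : Function.Injective (fun p : Σ j, Fin (r j) × Fin (r j) => κ p.1 p.2)) :
    FSys (W.push E) (B.map E.π) (fun j => LB E v (z j) (κ j))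
      (fun j => Finset.univ.map ⟨z j, hz j⟩) := by
  classical
  have veo : ∀ x, v x * W.e o = v x := fun x => mul_corner (v1 x) (W.idem o)
  have vex : ∀ x, W.e x * v x = v x := by
    intro x
    have h1 : star (star (v x)) * star (v x) = W.e x := by rw [star_star]; exact v2 x
    have h2 := congrArg star (mul_corner h1 (W.idem x))
    simpa [W.sa] using h2
  have φv : ∀ x, ∀ b ∈ B, ⟪W.ξ o, (star (v x) * b * v x) (W.ξ o)⟫_ℂ = ⟪W.ξ x, b (W.ξ x)⟫_ℂ := by
    intro x b hb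
    have h1 := vk x (star (v x) * b) (mul_mem (star_mem (hv x)) hb) o x
    have h2 : ⟪W.ξ x, v x (W.e o ((star (v x) * b) (W.ξ x)))⟫_ℂ = ⟪W.ξ x, b (W.ξ x)⟫_ℂ := by
      have e1 : v x (W.e o ((star (v x) * b) (W.ξ x))) = (v x * W.e o * (star (v x) * b)) (W.ξ x) :=
        rfl
      have e2 : v x * W.e o * (star (v x) * b) = W.e x * b := by
        rw [veo, ← mul_assoc, v2]
      rw [e1, e2]
      change ⟪W.ξ x, W.e x (b (W.ξ x))⟫_ℂ = _
      rw [W.inner_e, W.eξ]
    have h3 : ⟪W.ξ o, (star (v x) * b) (W.e x (v x (W.ξ o)))⟫_ℂ =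
        ⟪W.ξ o, (star (v x) * b * v x) (W.ξ o)⟫_ℂ := by
      have e1 : (star (v x) * b) (W.e x (v x (W.ξ o))) =
          (star (v x) * b * (W.e x * v x)) (W.ξ o) := rfl
      rw [e1, vex]
    rw [h2, h3] at h1
    rw [h1]
    simp
  have hκj : ∀ j, Function.Injective (κ j) := by
    intro j p p' h
    have := @hκ ⟨j, p⟩ ⟨j, p'⟩ h
    simpa using this
  have hκjj : ∀ j j', j ≠ j' → ∀ p p', κ j p ≠ κ j' p' := by
    intro j j' hjj p p' h
    have := @hκ ⟨j, p⟩ ⟨j', p'⟩ h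
    exact hjj (congrArg Sigma.fst this)
  have hmem : ∀ j (i : Fin (r j)), z j i ∈ Finset.univ.map ⟨z j, hz j⟩ := by
    intro j i
    rw [Finset.mem_map]
    exact ⟨i, Finset.mem_univ i, rfl⟩
  have hl : ∀ j (i : Fin (r j)), W.eF (Finset.univ.map ⟨z j, hz j⟩) * v (z j i) = v (z j i) := by
    intro j i
    conv_lhs => rw [← vex (z j i), ← mul_assoc, W.eF_mul_e_mem (hmem j i)]
    exact vex _
  refine ⟨?_, ?_, ?_, ?_, ?_, ?_, ?_⟩
  · intro x
    rw [StarSubalgebra.mem_map]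
    exact ⟨W.e x, hB x, rfl⟩
  · intro j
    exact ⟨z j ⟨0, hr j⟩, hmem j _⟩
  · intro j
    rw [push_eF]
    unfold LB
    rw [mul_smul_comm, Finset.mul_sum]
    congr 1
    refine Finset.sum_congr rfl fun i _ => ?_
    rw [Finset.mul_sum]
    refine Finset.sum_congr rfl fun i' _ => ?_
    rw [← mul_assoc, ← mul_assoc, ← map_mul, hl]
  · intro j
    rw [push_eF]
    unfold LB
    rw [smul_mul_assoc, Finset.sum_mul]
    congr 1
    refine Finset.sum_congr rfl fun i _ => ?_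
    rw [Finset.sum_mul]
    refine Finset.sum_congr rfl fun i' _ => ?_
    have h1 := congrArg star (hl j i')
    rw [star_mul, W.eF_sa] at h1
    rw [mul_assoc, ← map_mul, h1]
  · intro j b hb
    obtain ⟨b, hb0, rfl⟩ := StarSubalgebra.mem_map.1 hb
    rw [push_eF]
    change star (LB E v (z j) (κ j)) * E.π b * LB E v (z j) (κ j) =
      ((((Finset.univ.map ⟨z j, hz j⟩ : Finset V).card : ℂ))⁻¹ * (W.push E).φF _ (E.π b)) • _
    rw [LB_mul, push_φF, W.φF_apply]
    have hcard : ((Finset.univ.map ⟨z j, hz j⟩ : Finset V).card : ℂ) = (r j : ℂ) := by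
      rw [Finset.card_map, Finset.card_univ, Fintype.card_fin]
    rw [hcard]
    have hrr : (((Real.sqrt (r j) : ℝ) : ℂ)⁻¹ * ((Real.sqrt (r j) : ℝ) : ℂ)⁻¹) =
        ((r j : ℂ))⁻¹ := by
      rw [← mul_inv, ← Complex.ofReal_mul, Real.mul_self_sqrt (by positivity)]
      simp
    rw [hrr, mul_smul]
    congr 1
    have hterm : ∀ i i' : Fin (r j), ∑ k, ∑ l,
        E.π (v (z j i')) * (star (lhat E (κ j) i i') *
          E.π (star (v (z j i)) * b * v (z j k)) * lhat E (κ j) k l) *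
          E.π (star (v (z j l))) = ⟪W.ξ (z j i), b (W.ξ (z j i))⟫_ℂ • E.π (W.e (z j i')) := by
      intro i i'
      rw [Finset.sum_eq_single i]
      · rw [Finset.sum_eq_single i']
        · rw [lhat_rel E (κ j) (hκj j), if_pos ⟨rfl, rfl⟩, φv _ b hb0, mul_smul_comm, mul_one,
            smul_mul_assoc, ← map_mul, v2]
        · intro l _ hl'
          rw [lhat_rel E (κ j) (hκj j), if_neg (fun h => hl' h.2.symm), zero_smul, mul_zero,
            zero_mul]
        · intro h; exact absurd (Finset.mem_univ _) h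
      · intro k _ hk
        refine Finset.sum_eq_zero fun l _ => ?_
        rw [lhat_rel E (κ j) (hκj j), if_neg (fun h => hk h.1.symm), zero_smul, mul_zero,
            zero_mul]
      · intro h; exact absurd (Finset.mem_univ _) h
    rw [Finset.sum_congr rfl fun i _ => Finset.sum_congr rfl fun i' _ => hterm i i']
    have hsum : W.eF (Finset.univ.map ⟨z j, hz j⟩) = ∑ i, W.e (z j i) := by
      rw [WSys.eF, Finset.sum_map]
      rfl
    rw [hsum, map_sum, Finset.sum_map, Finset.sum_smul]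
    refine Finset.sum_congr rfl fun i _ => ?_
    rw [Finset.smul_sum]
    rfl
  · intro j j' hjj b hb
    obtain ⟨b, hb0, rfl⟩ := StarSubalgebra.mem_map.1 hb
    change star (LB E v (z j) (κ j)) * E.π b * LB E v (z j') (κ j') = 0
    rw [LB_mul]
    have : ∑ i, ∑ i', ∑ k, ∑ l,
        E.π (v (z j i')) * (star (lhat E (κ j) i i') *
          E.π (star (v (z j i)) * b * v (z j' k)) * lhat E (κ j') k l) *
          E.π (star (v (z j' l))) = 0 := by
      refine Finset.sum_eq_zero fun i _ => Finset.sum_eq_zero fun i' _ =>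
        Finset.sum_eq_zero fun k _ => Finset.sum_eq_zero fun l _ => ?_
      rw [lhat_rel0 E (κ j) (κ j') (hκjj j j' hjj), mul_zero, zero_mul]
    rw [this, smul_zero]
  · intro j b hb x
    obtain ⟨b, hb0, rfl⟩ := StarSubalgebra.mem_map.1 hb
    change star (LB E v (z j) (κ j)) (E.π b (E.ι (W.ξ x))) = 0
    rw [LB_star, smul_apply]
    have : (∑ i, ∑ i', E.π (v (z j i')) * star (lhat E (κ j) i i') *
        E.π (star (v (z j i)))) (E.π b (E.ι (W.ξ x))) = 0 := by
      rw [sum_apply]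
      refine Finset.sum_eq_zero fun i _ => ?_
      rw [sum_apply]
      refine Finset.sum_eq_zero fun i' _ => ?_
      change E.π (v (z j i')) (star (lhat E (κ j) i i') (E.π (star (v (z j i)))
        (E.π b (E.ι (W.ξ x))))) = 0
      have e1 : E.π (star (v (z j i))) (E.π b (E.ι (W.ξ x))) =
          E.π (star (v (z j i)) * b) (E.ι (W.ξ x)) := by
        rw [map_mul]; rfl
      rw [e1, lhat_vac, map_zero]
    rw [this, smul_zero]

end F

end Pool.Agent.MP9a76ab
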