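import Pool.Agent.Lib.MP_9a76ab_an.Basic

/-!
# `2 cos θ` is an `L²(sin²θ dθ)` limit of Laurent polynomials in `g` (module IDAPX)
-/

set_option autoImplicit false

namespace Pool.Agent.MP9a76ab

open scoped InnerProductSpace

namespace IdApproxX

open Real MeasureTheory

/-- The angle function. -/
noncomputable def w (θ : ℝ) : ℝ := 2 * θ - Real.sin (2 * θ)

theorem abs_sin_lt {t : ℝ} (ht : 0 < t) : |Real.sin t| < t := by
  rcases le_or_gt t Real.pi with h | h
  · rw [abs_of_nonneg (Real.sin_nonneg_of_nonneg_of_le_pi ht.le h)]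
    exact Real.sin_lt ht
  · have h1 : |Real.sin t| ≤ 1 := Real.abs_sin_le_one t
    have h2 : (3 : ℝ) < Real.pi := Real.pi_gt_three
    linarith

theorem w_strictMono : StrictMono w := by
  intro x y hxy
  have h1 : Real.sin (2 * y) - Real.sin (2 * x) =
      2 * Real.sin (y - x) * Real.cos (y + x) := by
    rw [Real.sin_sub_sin]
    congr 2 <;> ring_nf
  have h2 : 2 * Real.sin (y - x) * Real.cos (y + x) < 2 * (y - x) := by
    have h3 := abs_sin_lt (sub_pos.mpr hxy)
    have h4 : |Real.cos (y + x)| ≤ 1 := Real.abs_cos_le_one _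
    have h5 : |Real.sin (y - x) * Real.cos (y + x)| ≤ |Real.sin (y - x)| := by
      rw [abs_mul]
      exact mul_le_of_le_one_right (abs_nonneg _) h4
    have h6 := le_abs_self (Real.sin (y - x) * Real.cos (y + x))
    nlinarith
  unfold w
  linarith

theorem w_continuous : Continuous w := by
  unfold w
  fun_prop

theorem w_surjective : Function.Surjective w := by
  apply w_continuous.surjective
  · have h1 : Filter.Tendsto (fun θ : ℝ => 2 * θ - 1) Filter.atTop Filter.atTop :=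
      Filter.tendsto_atTop_add_const_right _ (-1)
        (Filter.tendsto_id.const_mul_atTop (by norm_num : (0 : ℝ) < 2))
    refine Filter.tendsto_atTop_mono (fun θ => ?_) h1
    unfold w
    have := Real.sin_le_one (2 * θ)
    linarith
  · have h1 : Filter.Tendsto (fun θ : ℝ => 2 * θ + 1) Filter.atBot Filter.atBot :=
      Filter.tendsto_atBot_add_const_right _ 1
        (Filter.tendsto_id.const_mul_atBot (by norm_num : (0 : ℝ) < 2))
    refine Filter.tendsto_atBot_mono (fun θ => ?_) h1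
    unfold w
    have := Real.neg_one_le_sin (2 * θ)
    linarith

/-- The inverse of the angle function. -/
noncomputable def wi : ℝ ≃o ℝ := (w_strictMono.orderIsoOfSurjective w w_surjective).symm

theorem wi_w (θ : ℝ) : wi (w θ) = θ :=
  (w_strictMono.orderIsoOfSurjective w w_surjective).symm_apply_apply θ

theorem wi_continuous : Continuous wi := wi.continuous

theorem w_zero : w 0 = 0 := by simp [w]

theorem w_pi : w Real.pi = 2 * Real.pi := by
  unfold w
  rw [Real.sin_two_pi, sub_zero]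

theorem w_hasDerivAt (θ : ℝ) : HasDerivAt w (4 * Real.sin θ ^ 2) θ := by
  have h1 : HasDerivAt (fun θ : ℝ => 2 * θ) 2 θ := by
    simpa using (hasDerivAt_id θ).const_mul 2
  have h2 : HasDerivAt (fun θ : ℝ => Real.sin (2 * θ)) (Real.cos (2 * θ) * 2) θ := h1.sin
  have h3 := h1.sub h2
  have h4 : 2 - Real.cos (2 * θ) * 2 = 4 * Real.sin θ ^ 2 := by
    rw [Real.cos_two_mul, Real.sin_sq]
    ring
  rw [h4] at h3
  exact h3

/-- `∫ (w/2π)^n sin² = π / (2 (n+1))`. -/
theorem integral_wn (n : ℕ) : ∫ θ in (0 : ℝ)..Real.pi,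
    (w θ / (2 * Real.pi)) ^ n * Real.sin θ ^ 2 = Real.pi / (2 * (n + 1)) := by
  have h1 : ∫ θ in (0 : ℝ)..Real.pi, ((fun s => (s / (2 * Real.pi)) ^ n) ∘ w) θ *
      (4 * Real.sin θ ^ 2) = ∫ s in w 0..w Real.pi, (s / (2 * Real.pi)) ^ n :=
    intervalIntegral.integral_comp_mul_deriv (fun θ _ => w_hasDerivAt θ) (by fun_prop)
      (by fun_prop)
  rw [w_zero, w_pi] at h1
  have h2 : ∫ s in (0 : ℝ)..2 * Real.pi, (s / (2 * Real.pi)) ^ n = 2 * Real.pi / (n + 1) := by
    simp only [div_pow]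
    rw [intervalIntegral.integral_div, integral_pow]
    have : (Real.pi : ℝ) ≠ 0 := Real.pi_ne_zero
    rw [zero_pow (Nat.succ_ne_zero n), sub_zero, pow_succ]
    field_simp
  have h3 : ∫ θ in (0 : ℝ)..Real.pi, ((fun s => (s / (2 * Real.pi)) ^ n) ∘ w) θ *
      (4 * Real.sin θ ^ 2) = 4 * ∫ θ in (0 : ℝ)..Real.pi,
        (w θ / (2 * Real.pi)) ^ n * Real.sin θ ^ 2 := by
    rw [← intervalIntegral.integral_const_mul]
    refine intervalIntegral.integral_congr fun θ _ => ?_
    simp only [Function.comp_apply]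
    ring
  rw [h3, h2] at h1
  have h4 : (2 * Real.pi / ((n : ℝ) + 1)) = 4 * (Real.pi / (2 * (n + 1))) := by
    field_simp
    norm_num
  rw [h4] at h1
  linarith

theorem gfun_eq {θ : ℝ} (hθ : θ ∈ Set.Icc (0 : ℝ) Real.pi) :
    gfun (2 * Real.cos θ : ℝ) = Complex.exp (Complex.I * (w θ : ℂ)) := by
  unfold gfun psi w
  rw [Complex.ofReal_re]
  have h1 : 2 * Real.cos θ / 2 = Real.cos θ := by ring
  rw [h1, Real.arccos_cos hθ.1 hθ.2]

theorem w_mem {θ : ℝ} (hθ : θ ∈ Set.Icc (0 : ℝ) Real.pi) :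
    w θ ∈ Set.Icc (0 : ℝ) (2 * Real.pi) := by
  constructor
  · rw [← w_zero]
    exact w_strictMono.monotone hθ.1
  · rw [← w_pi]
    exact w_strictMono.monotone hθ.2

/-- The modified function, periodic with period `2π`. -/
noncomputable def G (n : ℕ) (s : ℝ) : ℝ :=
  2 * Real.cos (wi s) * (1 - (s / (2 * Real.pi)) ^ n) + 2 * (s / (2 * Real.pi)) ^ n

theorem G_continuous (n : ℕ) : Continuous (G n) := by
  unfold G
  have := wi_continuous
  fun_prop

theorem G_zero {n : ℕ} (hn : n ≠ 0) : G n 0 = 2 := by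
  have h1 : wi 0 = 0 := by
    have := wi_w 0
    rwa [w_zero] at this
  unfold G
  rw [h1, zero_div, zero_pow hn, Real.cos_zero]
  ring

theorem G_two_pi (n : ℕ) : G n (2 * Real.pi) = 2 := by
  unfold G
  rw [div_self (by positivity), one_pow]
  ring

/-- Uniform approximation on the circle. -/
theorem approx_circle {n : ℕ} (hn : n ≠ 0) {δ : ℝ} (hδ : 0 < δ) :
    ∃ (N : ℕ) (α : ℤ → ℂ), ∀ θ ∈ Set.Icc (0 : ℝ) Real.pi,
      ‖((G n (w θ) : ℝ) : ℂ) - ∑ k ∈ Finset.Icc (-(N : ℤ)) N,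
        α k * Complex.exp (Complex.I * (w θ : ℂ)) ^ k‖ < δ := by
  have : Fact (0 < 2 * Real.pi) := ⟨Real.two_pi_pos⟩
  have hcont : Continuous (AddCircle.liftIco (2 * Real.pi) 0 (fun s => ((G n s : ℝ) : ℂ))) := by
    apply AddCircle.liftIco_continuous
    · rw [zero_add, G_zero hn, G_two_pi]
    · exact (Complex.continuous_ofReal.comp (G_continuous n)).continuousOn
  set Fc : C(AddCircle (2 * Real.pi), ℂ) := ⟨_, hcont⟩ with hFc
  have hcl : Fc ∈ (Submodule.span ℂ (Set.range (fourier (T := 2 * Real.pi)))).topologicalClosure := by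
    rw [span_fourier_closure_eq_top]
    exact Submodule.mem_top
  rw [← SetLike.mem_coe, Submodule.topologicalClosure_coe, Metric.mem_closure_iff] at hcl
  obtain ⟨q, hq, hdist⟩ := hcl δ hδ
  rw [SetLike.mem_coe, Finsupp.mem_span_range_iff_exists_finsupp] at hq
  obtain ⟨c, hc⟩ := hq
  refine ⟨c.support.sup Int.natAbs, fun k => c k, fun θ hθ => ?_⟩
  have h1 : Fc ((w θ : ℝ) : AddCircle (2 * Real.pi)) = ((G n (w θ) : ℝ) : ℂ) := by
    have hw := w_mem hθ
    rcases lt_or_eq_of_le hw.2 with h | h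
    · exact AddCircle.liftIco_coe_apply (p := 2 * Real.pi) (a := 0)
        (f := fun s => ((G n s : ℝ) : ℂ)) ⟨hw.1, by rwa [zero_add]⟩
    · rw [h, G_two_pi]
      have h2 : ((2 * Real.pi : ℝ) : AddCircle (2 * Real.pi)) = ((0 : ℝ) : AddCircle _) := by
        rw [AddCircle.coe_period]
        rfl
      rw [h2]
      have h3 : Fc ((0 : ℝ) : AddCircle (2 * Real.pi)) = ((G n 0 : ℝ) : ℂ) :=
        AddCircle.liftIco_coe_apply (p := 2 * Real.pi) (a := 0)
          (f := fun s => ((G n s : ℝ) : ℂ)) ⟨le_rfl, by rw [zero_add]; exact Real.two_pi_pos⟩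
      rw [h3, G_zero hn]
  have h2 : q ((w θ : ℝ) : AddCircle (2 * Real.pi)) =
      ∑ k ∈ Finset.Icc (-((c.support.sup Int.natAbs : ℕ) : ℤ)) (c.support.sup Int.natAbs : ℕ),
        c k * Complex.exp (Complex.I * (w θ : ℂ)) ^ k := by
    rw [← hc, Finsupp.sum, ContinuousMap.sum_apply]
    have h3 : c.support ⊆ Finset.Icc (-((c.support.sup Int.natAbs : ℕ) : ℤ))
        (c.support.sup Int.natAbs : ℕ) := by
      intro k hk
      have h4 : Int.natAbs k ≤ c.support.sup Int.natAbs := Finset.le_sup hk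
      rw [Finset.mem_Icc]
      omega
    rw [← Finset.sum_subset h3]
    · refine Finset.sum_congr rfl fun k _ => ?_
      rw [ContinuousMap.smul_apply, fourier_coe_apply, smul_eq_mul, ← Complex.exp_int_mul]
      congr 2
      have : (Real.pi : ℂ) ≠ 0 := by exact_mod_cast Real.pi_ne_zero
      push_cast
      field_simp
    · intro k _ hk
      rw [Finsupp.notMem_support_iff.mp hk, zero_mul]
  rw [← h1, ← h2]
  calc ‖Fc ((w θ : ℝ) : AddCircle (2 * Real.pi)) - q ((w θ : ℝ) : AddCircle (2 * Real.pi))‖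
      = ‖(Fc - q) ((w θ : ℝ) : AddCircle (2 * Real.pi))‖ := rfl
    _ ≤ ‖Fc - q‖ := ContinuousMap.norm_coe_le_norm _ _
    _ < δ := by rwa [← dist_eq_norm]

end IdApproxX

section F
variable {V J K H F : Type} [NormedAddCommGroup H] [InnerProductSpace ℂ H] [CompleteSpace H]
  [NormedAddCommGroup F] [InnerProductSpace ℂ F] [CompleteSpace F]

open IdApproxX in
/-- analysis: `x` is an `L²` (semicircle law) limit of Laurent polynomials in `g`. -/
theorem id_approx {ε : ℝ} (hε : 0 < ε) :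
    ∃ (N : ℕ) (α : ℤ → ℂ),
      (∫ θ in (0 : ℝ)..Real.pi, ‖((2 * Real.cos θ : ℝ) : ℂ) -
        ∑ k ∈ Finset.Icc (-(N : ℤ)) N, α k * (gfun (2 * Real.cos θ : ℝ)) ^ k‖ ^ 2
          * Real.sin θ ^ 2) < ε := by
  obtain ⟨n, hn⟩ := exists_nat_gt (32 * Real.pi / ε)
  have hpi : 0 < Real.pi := Real.pi_pos
  have hn0 : (0 : ℝ) < n := lt_of_le_of_lt (by positivity) hn
  have hn0' : n ≠ 0 := by
    rintro rfl
    simp at hn0
  set δ := Real.sqrt (ε / (8 * Real.pi)) with hδ
  have hδ0 : 0 < δ := Real.sqrt_pos.mpr (by positivity)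
  have hδ2 : δ ^ 2 = ε / (8 * Real.pi) := Real.sq_sqrt (by positivity)
  obtain ⟨N, α, hα⟩ := approx_circle hn0' hδ0
  refine ⟨N, α, ?_⟩
  have h1 : ∫ θ in (0 : ℝ)..Real.pi, ‖((2 * Real.cos θ : ℝ) : ℂ) -
        ∑ k ∈ Finset.Icc (-(N : ℤ)) N, α k * (gfun (2 * Real.cos θ : ℝ)) ^ k‖ ^ 2
          * Real.sin θ ^ 2 =
      ∫ θ in (0 : ℝ)..Real.pi, ‖((2 * Real.cos θ : ℝ) : ℂ) -
        ∑ k ∈ Finset.Icc (-(N : ℤ)) N, α k * Complex.exp (Complex.I * (w θ : ℂ)) ^ k‖ ^ 2
          * Real.sin θ ^ 2 := by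
    refine intervalIntegral.integral_congr fun θ hθ => ?_
    rw [Set.uIcc_of_le hpi.le] at hθ
    simp only [gfun_eq hθ]
  rw [h1]
  have hwc : Continuous fun θ : ℝ => (w θ : ℂ) := Complex.continuous_ofReal.comp w_continuous
  have hexp : ∀ k : ℤ, Continuous fun θ : ℝ => Complex.exp (Complex.I * (w θ : ℂ)) ^ k := by
    intro k
    have h2 : (fun θ : ℝ => Complex.exp (Complex.I * (w θ : ℂ)) ^ k) =
        fun θ : ℝ => Complex.exp (k * (Complex.I * (w θ : ℂ))) := by
      funext θ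
      rw [Complex.exp_int_mul]
    rw [h2]
    exact Complex.continuous_exp.comp (continuous_const.mul (continuous_const.mul hwc))
  have hc1 : Continuous fun θ : ℝ => ‖((2 * Real.cos θ : ℝ) : ℂ) -
        ∑ k ∈ Finset.Icc (-(N : ℤ)) N, α k * Complex.exp (Complex.I * (w θ : ℂ)) ^ k‖ ^ 2
          * Real.sin θ ^ 2 := by
    refine Continuous.mul (Continuous.pow (Continuous.norm (Continuous.sub ?_ ?_)) 2)
      (Real.continuous_sin.pow 2)
    · exact Complex.continuous_ofReal.comp (continuous_const.mul Real.continuous_cos)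
    · exact continuous_finsetSum _ fun k _ => continuous_const.mul (hexp k)
  have hc2 : Continuous fun θ : ℝ => 32 * ((w θ / (2 * Real.pi)) ^ n * Real.sin θ ^ 2) +
      2 * δ ^ 2 := by
    have := w_continuous
    fun_prop
  have h2 : ∀ θ ∈ Set.Icc (0 : ℝ) Real.pi, ‖((2 * Real.cos θ : ℝ) : ℂ) -
        ∑ k ∈ Finset.Icc (-(N : ℤ)) N, α k * Complex.exp (Complex.I * (w θ : ℂ)) ^ k‖ ^ 2
          * Real.sin θ ^ 2 ≤
      32 * ((w θ / (2 * Real.pi)) ^ n * Real.sin θ ^ 2) + 2 * δ ^ 2 := by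
    intro θ hθ
    set S := ∑ k ∈ Finset.Icc (-(N : ℤ)) N, α k * Complex.exp (Complex.I * (w θ : ℂ)) ^ k with hS
    have h3 := hα θ hθ
    rw [← hS] at h3
    have hw := w_mem hθ
    set c := (w θ / (2 * Real.pi)) ^ n with hc
    have hc0 : 0 ≤ c := pow_nonneg (div_nonneg hw.1 (by positivity)) n
    have hc1' : c ≤ 1 := pow_le_one₀ (div_nonneg hw.1 (by positivity))
      (div_le_one_of_le₀ hw.2 (by positivity))
    have h4 : ‖((2 * Real.cos θ : ℝ) : ℂ) - ((G n (w θ) : ℝ) : ℂ)‖ ≤ 4 * c := by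
      rw [← Complex.ofReal_sub, Complex.norm_real, Real.norm_eq_abs]
      have h5 : 2 * Real.cos θ - G n (w θ) = 2 * c * (Real.cos θ - 1) := by
        unfold G
        rw [wi_w, ← hc]
        ring
      rw [h5, abs_mul, abs_of_nonneg (by positivity)]
      have h6 : |Real.cos θ - 1| ≤ 2 := by
        rw [abs_le]
        constructor <;> linarith [Real.neg_one_le_cos θ, Real.cos_le_one θ]
      nlinarith
    have h5 : ‖((2 * Real.cos θ : ℝ) : ℂ) - S‖ ≤ 4 * c + δ := by
      calc ‖((2 * Real.cos θ : ℝ) : ℂ) - S‖ = ‖(((2 * Real.cos θ : ℝ) : ℂ) -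
            ((G n (w θ) : ℝ) : ℂ)) + (((G n (w θ) : ℝ) : ℂ) - S)‖ := by
            congr 1
            ring
        _ ≤ _ := (norm_add_le _ _).trans (add_le_add h4 h3.le)
    have h6 : ‖((2 * Real.cos θ : ℝ) : ℂ) - S‖ ^ 2 ≤ 32 * c + 2 * δ ^ 2 := by
      calc ‖((2 * Real.cos θ : ℝ) : ℂ) - S‖ ^ 2 ≤ (4 * c + δ) ^ 2 :=
            pow_le_pow_left₀ (norm_nonneg _) h5 2
        _ ≤ 32 * c + 2 * δ ^ 2 := by nlinarith [sq_nonneg (4 * c - δ)]
    have h7 : 0 ≤ Real.sin θ ^ 2 := sq_nonneg _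
    have h8 : Real.sin θ ^ 2 ≤ 1 := Real.sin_sq_le_one θ
    have h9 : 0 ≤ δ ^ 2 := sq_nonneg _
    nlinarith [mul_le_mul_of_nonneg_right h6 h7]
  refine lt_of_le_of_lt (intervalIntegral.integral_mono_on hpi.le (hc1.intervalIntegrable _ _)
    (hc2.intervalIntegrable _ _) h2) ?_
  have hc3 : Continuous fun θ : ℝ => 32 * ((w θ / (2 * Real.pi)) ^ n * Real.sin θ ^ 2) := by
    have := w_continuous
    fun_prop
  rw [intervalIntegral.integral_add (hc3.intervalIntegrable _ _)
    (continuous_const.intervalIntegrable _ _), intervalIntegral.integral_const_mul,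
    integral_wn, intervalIntegral.integral_const, sub_zero, smul_eq_mul, hδ2]
  have h3 : 32 * (Real.pi / (2 * ((n : ℝ) + 1))) < ε / 2 := by
    rw [div_lt_iff₀ hε] at hn
    have h4 : 32 * (Real.pi / (2 * ((n : ℝ) + 1))) = 16 * Real.pi / (n + 1) := by
      field_simp
      norm_num
    rw [h4, div_lt_iff₀ (by positivity)]
    nlinarith
  have h4 : Real.pi * (2 * (ε / (8 * Real.pi))) = ε / 4 := by
    field_simp
    norm_num
  rw [h4]
  linarith

end F

end Pool.Agent.MP9a76ab
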