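import Pool.Agent.Lib.MP_9a76ab_an.Basic
import Pool.Agent.Lib.MP_9a76ab_an.IdApprox

/-! The Haar unitary of a corner generates the semicircular element (module FGEN). -/

set_option autoImplicit false

namespace Pool.Agent.MP9a76ab

open scoped InnerProductSpace

namespace FockGenX

section abstract
variable {F : Type} [NormedAddCommGroup F] [InnerProductSpace ℂ F] [CompleteSpace F]

/-- the semicircle integral of `|f|^2` -/
noncomputable def I2 (f : ℂ → ℂ) : ℝ :=
  ∫ θ in (0 : ℝ)..Real.pi, ‖f ((2 * Real.cos θ : ℝ) : ℂ)‖ ^ 2 * Real.sin θ ^ 2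

theorem I2_nonneg (f : ℂ → ℂ) : 0 ≤ I2 f := by
  unfold I2
  refine intervalIntegral.integral_nonneg Real.pi_pos.le fun θ _ => by positivity

theorem int_sin_sin (k : ℕ) :
    ∫ θ in (0 : ℝ)..Real.pi, Real.sin ((k + 1 : ℕ) * θ) * Real.sin θ =
      if k = 0 then Real.pi / 2 else 0 := by
  split_ifs with hk
  · subst hk
    have : ∀ θ : ℝ, Real.sin (((0 + 1 : ℕ) : ℝ) * θ) * Real.sin θ = Real.sin θ ^ 2 := by
      intro θ; simp [sq]
    simp_rw [this]
    rw [integral_sin_sq]
    simp
  · have h1 : ∀ θ : ℝ, Real.sin (((k + 1 : ℕ) : ℝ) * θ) * Real.sin θ =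
        (1 / 2) * Real.cos ((k : ℝ) * θ) - (1 / 2) * Real.cos (((k : ℝ) + 2) * θ) := by
      intro θ
      have e1 : (k : ℝ) * θ = ((k + 1 : ℕ) : ℝ) * θ - θ := by push_cast; ring
      have e2 : ((k : ℝ) + 2) * θ = ((k + 1 : ℕ) : ℝ) * θ + θ := by push_cast; ring
      rw [e1, e2, Real.cos_sub, Real.cos_add]
      ring
    simp_rw [h1]
    have hk' : (k : ℝ) ≠ 0 := Nat.cast_ne_zero.2 hk
    have hk2 : (k : ℝ) + 2 ≠ 0 := by positivity
    rw [intervalIntegral.integral_sub, intervalIntegral.integral_const_mul,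
      intervalIntegral.integral_const_mul, intervalIntegral.integral_comp_mul_left (fun x => Real.cos x) hk',
      intervalIntegral.integral_comp_mul_left (fun x => Real.cos x) hk2, integral_cos, integral_cos]
    · have s1 : Real.sin ((k : ℝ) * Real.pi) = 0 := Real.sin_nat_mul_pi k
      have s2 : Real.sin (((k : ℝ) + 2) * Real.pi) = 0 := by
        have := Real.sin_nat_mul_pi (k + 2)
        push_cast at this
        exact this
      rw [s1, s2]
      simp
    · exact (Continuous.intervalIntegrable (by fun_prop) _ _)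
    · exact (Continuous.intervalIntegrable (by fun_prop) _ _)

variable {L p : Op F}

/-- the data of a creation operator in a corner -/
structure Data (p L : Op F) : Prop where
  hp : p * p = p
  hps : star p = p
  pL : p * L = L
  Lp : L * p = L
  LL : star L * L = p

theorem Data.sLp (d : Data p L) : star L * p = star L := by
  have := congrArg star d.pL
  simpa [d.hps] using this

theorem Data.psL (d : Data p L) : p * star L = star L := by
  have := congrArg star d.Lp
  simpa [d.hps] using this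

theorem Data.Sp (d : Data p L) : (L + star L) * p = L + star L := by
  rw [add_mul, d.Lp, d.sLp]

theorem Data.pS (d : Data p L) : p * (L + star L) = L + star L := by
  rw [mul_add, d.pL, d.psL]

theorem sa (L : Op F) : IsSelfAdjoint (L + star L) := IsSelfAdjoint.add_star_self L

theorem Data.norm_p (d : Data p L) : ‖p‖ ≤ 1 := by
  have h1 : ‖p‖ * ‖p‖ = ‖p‖ := by
    rw [← CStarRing.norm_star_mul_self, d.hps, d.hp]
  by_contra h
  push Not at h
  nlinarith

theorem Data.norm_L (d : Data p L) : ‖L‖ ≤ 1 := by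
  have h1 : ‖L‖ * ‖L‖ = ‖p‖ := by
    rw [← CStarRing.norm_star_mul_self, d.LL]
  have := d.norm_p
  by_contra h
  push Not at h
  nlinarith

theorem Data.norm_S (d : Data p L) : ‖L + star L‖ ≤ 2 := by
  calc ‖L + star L‖ ≤ ‖L‖ + ‖star L‖ := norm_add_le _ _
    _ ≤ 1 + 1 := by rw [norm_star]; exact add_le_add d.norm_L d.norm_L
    _ = 2 := by norm_num

theorem Data.spec (d : Data p L) {z : ℂ} (hz : z ∈ spectrum ℂ (L + star L)) :
    ∃ x ∈ Set.Icc (-2 : ℝ) 2, z = (x : ℂ) := by
  have h1 : z = (z.re : ℂ) := (sa L).mem_spectrum_eq_re hz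
  have h2 : ‖z‖ ≤ ‖L + star L‖ * ‖(1 : Op F)‖ := spectrum.norm_le_norm_mul_of_mem hz
  have h3 : ‖(1 : Op F)‖ ≤ 1 := ContinuousLinearMap.norm_id_le
  have h4 : ‖z‖ ≤ 2 := by
    have := d.norm_S
    nlinarith [norm_nonneg (L + star L), norm_nonneg (1 : Op F)]
  refine ⟨z.re, ?_, h1⟩
  have h5 := (Complex.abs_re_le_norm z).trans h4
  exact abs_le.1 h5

theorem LsL (d : Data p L) {v : F} (hv : p v = v) : star L (L v) = v := by
  have := congrArg (fun A : Op F => A v) d.LL
  simpa [hv] using this

theorem p_L (d : Data p L) (v : F) : p (L v) = L v := by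
  have := congrArg (fun A : Op F => A v) d.pL
  simpa using this

theorem p_sL (d : Data p L) (v : F) : p (star L v) = star L v := by
  have := congrArg (fun A : Op F => A v) d.psL
  simpa using this

theorem L_p (d : Data p L) (v : F) : L (p v) = L v := by
  have := congrArg (fun A : Op F => A v) d.Lp
  simpa using this

theorem sL_p (d : Data p L) (v : F) : star L (p v) = star L v := by
  have := congrArg (fun A : Op F => A v) d.sLp
  simpa using this

theorem p_powL (d : Data p L) {η : F} (h1 : p η = η) (k : ℕ) : p ((L ^ k) η) = (L ^ k) η := by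
  cases k with
  | zero => simpa using h1
  | succ k => rw [pow_succ', mul_apply_eq_comp, p_L d]

/-- the moments of the semicircular element -/
theorem moment (d : Data p L) {η : F} (h1 : p η = η) (h2 : star L η = 0) (m : ℕ) : ∀ k : ℕ,
    ⟪(L ^ k) η, ((L + star L) ^ m) η⟫_ℂ = ((‖η‖ ^ 2 * (2 / Real.pi) *
      ∫ θ in (0 : ℝ)..Real.pi, (2 * Real.cos θ) ^ m *
        (Real.sin ((k + 1 : ℕ) * θ) * Real.sin θ) : ℝ) : ℂ) := by
  induction m with
  | zero =>
    intro k
    simp only [pow_zero, one_mul]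
    rw [int_sin_sin]
    cases k with
    | zero =>
      simp only [pow_zero, if_true]
      have : ‖η‖ ^ 2 * (2 / Real.pi) * (Real.pi / 2) = ‖η‖ ^ 2 := by
        have := Real.pi_ne_zero
        field_simp
      rw [this]
      change ⟪η, η⟫_ℂ = _
      rw [inner_self_C]
      push_cast
      rfl
    | succ k =>
      rw [pow_succ', mul_apply_eq_comp]
      change ⟪L ((L ^ k) η), η⟫_ℂ = _
      have h3 : ⟪L ((L ^ k) η), η⟫_ℂ = ⟪(L ^ k) η, star L η⟫_ℂ := by
        rw [inner_star_op]
      rw [h3, h2, inner_zero_right]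
      simp
  | succ m ih =>
    intro k
    have e0 : ⟪(L ^ k) η, ((L + star L) ^ (m + 1)) η⟫_ℂ =
        ⟪(L ^ (k + 1)) η, ((L + star L) ^ m) η⟫_ℂ + ⟪star L ((L ^ k) η), ((L + star L) ^ m) η⟫_ℂ := by
      rw [pow_succ', mul_apply_eq_comp, inner_op_star, (sa L).star_eq,
        add_apply, inner_add_left, pow_succ', mul_apply_eq_comp]
    rw [e0, ih (k + 1)]
    have hint : ∀ n : ℕ, ∀ q : ℝ, IntervalIntegrable
        (fun θ : ℝ => (2 * Real.cos θ) ^ n * (Real.sin (q * θ) * Real.sin θ))
        MeasureTheory.volume 0 Real.pi := fun n q =>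
      (Continuous.intervalIntegrable (by fun_prop) _ _)
    cases k with
    | zero =>
      have e1 : star L ((L ^ 0) η) = 0 := by simpa using h2
      rw [e1, inner_zero_left, add_zero]
      congr 2
      refine intervalIntegral.integral_congr fun θ _ => ?_
      have e2 : Real.sin (((0 + 1 + 1 : ℕ) : ℝ) * θ) = 2 * Real.cos θ * Real.sin (((0 + 1 : ℕ) : ℝ) * θ) := by
        have := Real.sin_two_mul θ
        norm_num
        rw [this]; ring
      simp only [e2]
      ring
    | succ k =>
      have e1 : star L ((L ^ (k + 1)) η) = (L ^ k) η := by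
        rw [pow_succ', mul_apply_eq_comp, LsL d (p_powL d h1 k)]
      rw [e1, ih k, ← Complex.ofReal_add, ← mul_add, ← intervalIntegral.integral_add (hint _ _) (hint _ _)]
      congr 2
      refine intervalIntegral.integral_congr fun θ _ => ?_
      have e2 : Real.sin (((k + 1 + 1 + 1 : ℕ) : ℝ) * θ) + Real.sin (((k + 1 : ℕ) : ℝ) * θ) =
          2 * Real.cos θ * Real.sin (((k + 1 + 1 : ℕ) : ℝ) * θ) := by
        have a1 : ((k + 1 + 1 + 1 : ℕ) : ℝ) * θ = ((k + 1 + 1 : ℕ) : ℝ) * θ + θ := by push_cast; ring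
        have a2 : ((k + 1 : ℕ) : ℝ) * θ = ((k + 1 + 1 : ℕ) : ℝ) * θ - θ := by push_cast; ring
        rw [a1, a2, Real.sin_add, Real.sin_sub]
        ring
      have e3 : (2 * Real.cos θ) ^ (m + 1) * (Real.sin (((k + 1 + 1 : ℕ) : ℝ) * θ) * Real.sin θ) =
          (2 * Real.cos θ) ^ m * ((Real.sin (((k + 1 + 1 + 1 : ℕ) : ℝ) * θ) +
            Real.sin (((k + 1 : ℕ) : ℝ) * θ)) * Real.sin θ) := by
        rw [e2]; ring
      simp only [e3]
      ring

/-- polynomial moments -/
theorem moment_poly (d : Data p L) {η : F} (h1 : p η = η) (h2 : star L η = 0) (q : Polynomial ℝ) :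
    ⟪η, (Polynomial.aeval (L + star L) (q.map (algebraMap ℝ ℂ))) η⟫_ℂ =
      ((‖η‖ ^ 2 * (2 / Real.pi) *
      ∫ θ in (0 : ℝ)..Real.pi, q.eval (2 * Real.cos θ) * Real.sin θ ^ 2 : ℝ) : ℂ) := by
  induction q using Polynomial.induction_on' with
  | add a b ha hb =>
    rw [Polynomial.map_add, map_add, add_apply, inner_add_right, ha, hb,
      ← Complex.ofReal_add, ← mul_add, ← intervalIntegral.integral_add]
    · congr 2
      refine intervalIntegral.integral_congr fun θ _ => ?_
      simp only [Polynomial.eval_add]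
      ring
    · exact (Continuous.intervalIntegrable (by fun_prop) _ _)
    · exact (Continuous.intervalIntegrable (by fun_prop) _ _)
  | monomial n a =>
    rw [Polynomial.map_monomial, Polynomial.aeval_monomial]
    have e1 : ((algebraMap ℂ (Op F)) ((algebraMap ℝ ℂ) a) * (L + star L) ^ n) η =
        (a : ℂ) • ((L + star L) ^ n) η := by
      rw [← Algebra.smul_def]
      rfl
    rw [e1, inner_smul_right]
    have := moment d h1 h2 n 0
    have e2 : (L ^ 0) η = η := by simp
    rw [e2] at this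
    rw [this, ← Complex.ofReal_mul]
    congr 1
    have e3 : ∀ θ : ℝ, (Polynomial.monomial n a).eval (2 * Real.cos θ) * Real.sin θ ^ 2 =
        a * ((2 * Real.cos θ) ^ n * (Real.sin (((0 + 1 : ℕ) : ℝ) * θ) * Real.sin θ)) := by
      intro θ
      simp [Polynomial.eval_monomial]
      ring
    simp_rw [e3, intervalIntegral.integral_const_mul]
    ring

theorem Data.cfc_close (d : Data p L) {f g : ℂ → ℂ} (hf : Continuous f) (hg : Continuous g) {ε : ℝ}
    (hε : 0 ≤ ε) (h : ∀ x ∈ Set.Icc (-2 : ℝ) 2, ‖f (x : ℂ) - g (x : ℂ)‖ ≤ ε) :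
    ‖cfc f (L + star L) - cfc g (L + star L)‖ ≤ ε := by
  have hs : IsStarNormal (L + star L) := (sa L).isStarNormal
  rw [← cfc_sub f g (L + star L) hf.continuousOn hg.continuousOn]
  refine norm_cfc_le hε fun z hz => ?_
  obtain ⟨x, hx, rfl⟩ := d.spec hz
  exact h x hx

/-- the second moment bound for a vacuum vector -/
theorem vac_bound (d : Data p L) {η : F} (h1 : p η = η) (h2 : star L η = 0) {f : ℂ → ℂ}
    (hf : Continuous f) :
    ‖cfc f (L + star L) η‖ ^ 2 ≤ ‖η‖ ^ 2 * (2 / Real.pi) * I2 f := by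
  have hs : IsStarNormal (L + star L) := (sa L).isStarNormal
  set S : Op F := L + star L with hS
  let g : ℝ → ℝ := fun x => ‖f (x : ℂ)‖ ^ 2
  have hg : Continuous g := by fun_prop
  have hG : Continuous (fun z : ℂ => ((g z.re : ℝ) : ℂ)) :=
    Complex.continuous_ofReal.comp (hg.comp Complex.continuous_re)
  have key : ∀ ε : ℝ, 0 < ε → ‖cfc f S η‖ ^ 2 ≤
      ‖η‖ ^ 2 * (2 / Real.pi) * I2 f + ε * (3 * ‖η‖ ^ 2) := by
    intro ε hε
    obtain ⟨q, hq⟩ := exists_polynomial_near_of_continuousOn (-2) 2 g hg.continuousOn ε hε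
    have e1 : ((‖cfc f S η‖ ^ 2 : ℝ) : ℂ) = ⟪η, cfc (fun z : ℂ => ((g z.re : ℝ) : ℂ)) S η⟫_ℂ := by
      push_cast
      rw [← inner_self_C]
      have e2 : cfc (fun z : ℂ => ((g z.re : ℝ) : ℂ)) S = star (cfc f S) * cfc f S := by
        rw [← cfc_star, ← cfc_mul (fun z => star (f z)) f S
          (by fun_prop) hf.continuousOn]
        refine cfc_congr fun z hz => ?_
        obtain ⟨x, hx, rfl⟩ := d.spec hz
        change ((‖f (((x : ℂ).re : ℝ) : ℂ)‖ ^ 2 : ℝ) : ℂ) = star (f x) * f x
        rw [Complex.ofReal_re, Complex.star_def, ← Complex.normSq_eq_conj_mul_self,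
          Complex.normSq_eq_norm_sq]
      rw [e2, mul_apply_eq_comp]
      change _ = ⟪η, star (cfc f S) (cfc f S η)⟫_ℂ
      rw [inner_star_op]
    have e3 : ‖cfc (fun z : ℂ => ((g z.re : ℝ) : ℂ)) S -
        Polynomial.aeval S (q.map (algebraMap ℝ ℂ))‖ ≤ ε := by
      rw [← cfc_polynomial (q.map (algebraMap ℝ ℂ)) S]
      refine d.cfc_close hG (Polynomial.continuous _) hε.le fun x hx => ?_
      have e4 : (q.map (algebraMap ℝ ℂ)).eval ((x : ℝ) : ℂ) = ((q.eval x : ℝ) : ℂ) := by
        have := Polynomial.eval_map_algebraMap q (x : ℂ)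
        rw [this]
        exact (Polynomial.aeval_algebraMap_apply ℂ x q)
      rw [e4, Complex.ofReal_re, ← Complex.ofReal_sub, Complex.norm_real, Real.norm_eq_abs, abs_sub_comm]
      exact (hq x hx).le
    have e5 := moment_poly d h1 h2 q
    rw [← hS] at e5
    have e6 : ‖⟪η, cfc (fun z : ℂ => ((g z.re : ℝ) : ℂ)) S η⟫_ℂ -
        ⟪η, (Polynomial.aeval S (q.map (algebraMap ℝ ℂ))) η⟫_ℂ‖ ≤ ε * ‖η‖ ^ 2 := by
      rw [← inner_sub_right]
      calc _ ≤ ‖η‖ * ‖cfc (fun z : ℂ => ((g z.re : ℝ) : ℂ)) S η -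
            (Polynomial.aeval S (q.map (algebraMap ℝ ℂ))) η‖ := norm_inner_le_norm _ _
        _ ≤ ‖η‖ * (ε * ‖η‖) := by
          gcongr
          exact (ContinuousLinearMap.le_opNorm (cfc (fun z : ℂ => ((g z.re : ℝ) : ℂ)) S -
            Polynomial.aeval S (q.map (algebraMap ℝ ℂ))) η).trans (by gcongr)
        _ = ε * ‖η‖ ^ 2 := by ring
    rw [← e1, e5, ← Complex.ofReal_sub, Complex.norm_real, Real.norm_eq_abs] at e6
    have e7 : ∫ θ in (0 : ℝ)..Real.pi, q.eval (2 * Real.cos θ) * Real.sin θ ^ 2 ≤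
        I2 f + ε * Real.pi := by
      have : I2 f + ε * Real.pi = ∫ θ in (0 : ℝ)..Real.pi,
          (‖f ((2 * Real.cos θ : ℝ) : ℂ)‖ ^ 2 * Real.sin θ ^ 2 + ε) := by
        rw [intervalIntegral.integral_add]
        · simp [I2, mul_comm]
        · exact (Continuous.intervalIntegrable (by fun_prop) _ _)
        · exact (Continuous.intervalIntegrable (by fun_prop) _ _)
      rw [this]
      refine intervalIntegral.integral_mono_on Real.pi_pos.le
        (Continuous.intervalIntegrable (by fun_prop) _ _)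
        (Continuous.intervalIntegrable (by fun_prop) _ _) fun θ _ => ?_
      have hx : 2 * Real.cos θ ∈ Set.Icc (-2 : ℝ) 2 := by
        constructor <;> nlinarith [Real.neg_one_le_cos θ, Real.cos_le_one θ]
      have h3 := (abs_lt.1 (hq _ hx)).2
      have h4 : Real.sin θ ^ 2 ≤ 1 := Real.sin_sq_le_one θ
      have h5 : 0 ≤ Real.sin θ ^ 2 := sq_nonneg _
      have h6 : q.eval (2 * Real.cos θ) ≤ ‖f ((2 * Real.cos θ : ℝ) : ℂ)‖ ^ 2 + ε := by
        have : g (2 * Real.cos θ) = ‖f ((2 * Real.cos θ : ℝ) : ℂ)‖ ^ 2 := rfl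
        linarith
      nlinarith
    have h8 := (abs_le.1 e6).2
    have h9 : ‖η‖ ^ 2 * (2 / Real.pi) * (∫ θ in (0 : ℝ)..Real.pi,
        q.eval (2 * Real.cos θ) * Real.sin θ ^ 2) ≤
        ‖η‖ ^ 2 * (2 / Real.pi) * (I2 f + ε * Real.pi) := by
      have : 0 ≤ ‖η‖ ^ 2 * (2 / Real.pi) := by positivity
      exact mul_le_mul_of_nonneg_left e7 this
    have h10 : ‖η‖ ^ 2 * (2 / Real.pi) * (I2 f + ε * Real.pi) =
        ‖η‖ ^ 2 * (2 / Real.pi) * I2 f + 2 * ε * ‖η‖ ^ 2 := by
      have := Real.pi_ne_zero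
      field_simp
    linarith
  refine le_of_forall_pos_le_add fun δ hδ => ?_
  have h1 := key (δ / (3 * ‖η‖ ^ 2 + 1)) (by positivity)
  have h2 : δ / (3 * ‖η‖ ^ 2 + 1) * (3 * ‖η‖ ^ 2) ≤ δ := by
    rw [div_mul_eq_mul_div, div_le_iff₀ (by positivity)]
    nlinarith [sq_nonneg ‖η‖]
  linarith

/-- good vectors -/
def Good (L : Op F) (v : F) : Prop :=
  ∃ C : ℝ, 0 ≤ C ∧ ∀ f : ℂ → ℂ, Continuous f → ‖cfc f (L + star L) v‖ ^ 2 ≤ C * I2 f

theorem Good.zero : Good L (0 : F) := ⟨0, le_rfl, fun f _ => by simp⟩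

theorem Good.add {v w : F} (hv : Good L v) (hw : Good L w) : Good L (v + w) := by
  obtain ⟨C, hC, h⟩ := hv
  obtain ⟨C', hC', h'⟩ := hw
  refine ⟨2 * C + 2 * C', by positivity, fun f hf => ?_⟩
  rw [map_add]
  have h1 := norm_add_le (cfc f (L + star L) v) (cfc f (L + star L) w)
  have h2 := h f hf
  have h3 := h' f hf
  have h4 : 0 ≤ ‖cfc f (L + star L) v + cfc f (L + star L) w‖ := norm_nonneg _
  nlinarith [sq_nonneg (‖cfc f (L + star L) v‖ - ‖cfc f (L + star L) w‖)]

theorem Good.neg {v : F} (hv : Good L v) : Good L (-v) := by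
  obtain ⟨C, hC, h⟩ := hv
  exact ⟨C, hC, fun f hf => by rw [map_neg, norm_neg]; exact h f hf⟩

theorem Good.sub {v w : F} (hv : Good L v) (hw : Good L w) : Good L (v - w) := by
  rw [sub_eq_add_neg]; exact hv.add hw.neg

theorem Good.S (d : Data p L) {v : F} (hv : Good L v) : Good L ((L + star L) v) := by
  obtain ⟨C, hC, h⟩ := hv
  refine ⟨4 * C, by positivity, fun f hf => ?_⟩
  have hs : IsStarNormal (L + star L) := (sa L).isStarNormal
  have e1 : cfc f (L + star L) ((L + star L) v) = (L + star L) (cfc f (L + star L) v) := by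
    have h3 : Commute (cfc f (L + star L)) (L + star L) :=
      (sa L).commute_cfc (Commute.refl _) f
    have := congrArg (fun A : Op F => A v) h3.eq
    simpa using this
  rw [e1]
  have h4 : ‖(L + star L) (cfc f (L + star L) v)‖ ≤ 2 * ‖cfc f (L + star L) v‖ :=
    (ContinuousLinearMap.le_opNorm _ _).trans (by gcongr; exact d.norm_S)
  have h5 := h f hf
  calc ‖(L + star L) (cfc f (L + star L) v)‖ ^ 2 ≤ (2 * ‖cfc f (L + star L) v‖) ^ 2 := by gcongr
    _ = 4 * ‖cfc f (L + star L) v‖ ^ 2 := by ring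
    _ ≤ 4 * (C * I2 f) := by gcongr
    _ = 4 * C * I2 f := by ring

theorem good_of_nilp (d : Data p L) (n : ℕ) : ∀ v : F, p v = v → ((star L) ^ n) v = 0 →
    Good L v := by
  induction n with
  | zero =>
    intro v _ h
    have : v = 0 := by simpa using h
    rw [this]; exact Good.zero
  | succ n ih =>
    intro v hv h
    have w1 : Good L (star L v) := by
      refine ih _ (p_sL d v) ?_
      rw [pow_succ, mul_apply_eq_comp] at h
      exact h
    have w2 : Good L (star L (star L v)) := by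
      refine ih _ (p_sL d _) ?_
      have e1 : ((star L) ^ n) (star L (star L v)) = star L (((star L) ^ (n + 1)) v) := by
        have : (star L) ^ n * (star L * star L) = star L * (star L) ^ (n + 1) := by
          rw [← pow_succ', ← mul_assoc, ← pow_succ, ← pow_succ]
        have := congrArg (fun A : Op F => A v) this
        simpa using this
      rw [e1, h, map_zero]
    have w3 : Good L (L (star L v)) := by
      have : L (star L v) = (L + star L) (star L v) - star L (star L v) := by
        rw [add_apply]; abel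
      rw [this]
      exact (w1.S d).sub w2
    have w4 : Good L (v - L (star L v)) := by
      have a1 : p (v - L (star L v)) = v - L (star L v) := by rw [map_sub, hv, p_L d]
      have a2 : star L (v - L (star L v)) = 0 := by
        rw [map_sub, LsL d (p_sL d v), sub_self]
      exact ⟨‖v - L (star L v)‖ ^ 2 * (2 / Real.pi), by positivity, fun f hf => vac_bound d a1 a2 hf⟩
    have : v = (v - L (star L v)) + L (star L v) := by abel
    rw [this]
    exact w4.add w3

theorem continuous_psi : Continuous psi := by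
  unfold psi
  have : Continuous Real.arccos := Real.continuous_arccos
  fun_prop

theorem continuous_gfun : Continuous gfun := by
  unfold gfun
  have := continuous_psi
  fun_prop

theorem norm_gfun (z : ℂ) : ‖gfun z‖ = 1 := by
  unfold gfun
  rw [mul_comm, Complex.norm_exp_ofReal_mul_I]

theorem gfun_ne (z : ℂ) : gfun z ≠ 0 := by
  rw [← norm_pos_iff, norm_gfun]; exact one_pos

theorem star_mul_gfun (z : ℂ) : star (gfun z) * gfun z = 1 := by
  rw [Complex.star_def, ← Complex.normSq_eq_conj_mul_self, Complex.normSq_eq_norm_sq, norm_gfun]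
  simp

theorem star_gfun (z : ℂ) : star (gfun z) = (gfun z)⁻¹ :=
  eq_inv_of_mul_eq_one_left (star_mul_gfun z)

omit [CompleteSpace F] in
theorem pow_corner {T X p : Op F} (hp : p * p = p) (hX : X * p = p * X)
    (h1 : (X * p) * T = T * (X * p)) (h2 : p * T = T * p) (n : ℕ) :
    (X ^ n * p) * T = T * (X ^ n * p) := by
  induction n with
  | zero => simpa using h2
  | succ n ih =>
    have e : X ^ (n + 1) * p = (X ^ n * p) * (X * p) := by
      rw [pow_succ, mul_assoc, mul_assoc, ← mul_assoc p X p, ← hX, mul_assoc, hp]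
    rw [e, mul_assoc, h1, ← mul_assoc, ih, mul_assoc]

theorem Data.commp (d : Data p L) (f : ℂ → ℂ) : cfc f (L + star L) * p = p * cfc f (L + star L) := by
  have h1 : Commute (L + star L) p := by
    change (L + star L) * p = p * (L + star L)
    rw [d.Sp, d.pS]
  exact ((sa L).commute_cfc h1 f).eq

theorem comm_zpow (d : Data p L) {T : Op F}
    (h1 : (cfc gfun (L + star L) * p) * T = T * (cfc gfun (L + star L) * p))
    (h2 : star (cfc gfun (L + star L) * p) * T = T * star (cfc gfun (L + star L) * p)) (k : ℤ) :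
    (cfc (fun z => gfun z ^ k) (L + star L) * p) * T =
      T * (cfc (fun z => gfun z ^ k) (L + star L) * p) := by
  have hs : IsStarNormal (L + star L) := (sa L).isStarNormal
  have hc := continuous_gfun
  set G : Op F := cfc gfun (L + star L) with hG
  have hGG : star G * G = 1 := by
    rw [hG, ← cfc_star, ← cfc_mul (fun z => star (gfun z)) gfun _ (by fun_prop) hc.continuousOn]
    simp_rw [star_mul_gfun]
    exact cfc_const_one ℂ _
  have hGp : G * p = p * G := d.commp gfun
  have hsG : star G * p = p * star G := by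
    have := congrArg star hGp
    rw [star_mul, star_mul, d.hps] at this
    exact this.symm
  have hstar : star (G * p) = star G * p := by rw [star_mul, d.hps, hsG]
  have hpp : p * T = T * p := by
    have e : p = star (G * p) * (G * p) := by
      rw [star_mul, d.hps, mul_assoc, ← mul_assoc (star G) G p, hGG, one_mul, d.hp]
    rw [e, mul_assoc, h1, ← mul_assoc, h2, mul_assoc]
  rw [hstar] at h2
  obtain ⟨n, rfl | rfl⟩ := k.eq_nat_or_neg
  · have e : cfc (fun z => gfun z ^ (n : ℤ)) (L + star L) = G ^ n := by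
      simp_rw [zpow_natCast]
      exact cfc_pow gfun n _ hc.continuousOn
    rw [e]
    exact pow_corner d.hp hGp h1 hpp n
  · have e : cfc (fun z => gfun z ^ (-(n : ℤ))) (L + star L) = (star G) ^ n := by
      have e1 : ∀ z, gfun z ^ (-(n : ℤ)) = (star (gfun z)) ^ n := by
        intro z
        rw [star_gfun, zpow_neg, zpow_natCast, inv_pow]
      simp_rw [e1]
      rw [cfc_pow (fun z => star (gfun z)) n (L + star L) (by fun_prop), cfc_star]
    rw [e]
    exact pow_corner d.hp hsG h2 hpp n

/-- a Laurent polynomial in the Haar unitary commutes with `T` -/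
theorem comm_laurent (d : Data p L) {T : Op F}
    (h1 : (cfc gfun (L + star L) * p) * T = T * (cfc gfun (L + star L) * p))
    (h2 : star (cfc gfun (L + star L) * p) * T = T * star (cfc gfun (L + star L) * p))
    (s : Finset ℤ) (α : ℤ → ℂ) :
    (cfc (fun z => ∑ k ∈ s, α k * gfun z ^ k) (L + star L) * p) * T =
      T * (cfc (fun z => ∑ k ∈ s, α k * gfun z ^ k) (L + star L) * p) := by
  have hs : IsStarNormal (L + star L) := (sa L).isStarNormal
  have hc : ∀ k : ℤ, Continuous (fun z => gfun z ^ k) := fun k =>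
    continuous_gfun.zpow₀ k fun z => Or.inl (gfun_ne z)
  have e : cfc (fun z => ∑ k ∈ s, α k * gfun z ^ k) (L + star L) =
      ∑ k ∈ s, α k • cfc (fun z => gfun z ^ k) (L + star L) := by
    have e1 : (fun z => ∑ k ∈ s, α k * gfun z ^ k) = ∑ k ∈ s, fun z => α k * gfun z ^ k := by
      ext z; simp
    rw [e1, cfc_sum (fun k z => α k * gfun z ^ k) _ s fun k _ =>
      ((hc k).const_smul (α k)).continuousOn]
    refine Finset.sum_congr rfl fun k _ => ?_
    exact cfc_const_mul (α k) _ _ (hc k).continuousOn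
  rw [e, Finset.sum_mul, Finset.sum_mul, Finset.mul_sum]
  refine Finset.sum_congr rfl fun k _ => ?_
  rw [smul_mul_assoc, smul_mul_assoc, comm_zpow d h1 h2 k, mul_smul_comm]

theorem I2_star (f : ℂ → ℂ) : I2 (fun z => star (f z)) = I2 f := by
  unfold I2
  simp

theorem approx_vec (d : Data p L) {v : F} {C : ℝ}
    (hC : ∀ f : ℂ → ℂ, Continuous f → ‖cfc f (L + star L) (p v)‖ ^ 2 ≤ C * I2 f)
    {a : ℂ → ℂ} (ha : Continuous a) :
    ‖(L + star L - cfc a (L + star L) * p) v‖ ^ 2 ≤ C * I2 (fun z => z - a z) ∧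
    ‖(L + star L - star (cfc a (L + star L) * p)) v‖ ^ 2 ≤ C * I2 (fun z => z - a z) := by
  have hs : IsStarNormal (L + star L) := (sa L).isStarNormal
  have h0 : (L + star L) v = cfc (fun z : ℂ => z) (L + star L) (p v) := by
    rw [cfc_id' ℂ (L + star L)]
    have := congrArg (fun A : Op F => A v) d.Sp
    simpa using this.symm
  have h0' : (L + star L) v = cfc (fun z : ℂ => star z) (L + star L) (p v) := by
    have e : cfc (fun z : ℂ => star z) (L + star L) = cfc (fun z : ℂ => z) (L + star L) := by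
      rw [cfc_star, cfc_id' ℂ (L + star L), (sa L).star_eq]
    rw [e, h0]
  constructor
  · have e : (L + star L - cfc a (L + star L) * p) v =
        cfc (fun z => z - a z) (L + star L) (p v) := by
      rw [cfc_sub (fun z => z) a _ (by fun_prop) ha.continuousOn, sub_apply, h0]
      rfl
    rw [e]
    exact hC _ (by fun_prop)
  · have e : (L + star L - star (cfc a (L + star L) * p)) v =
        cfc (fun z => star (z - a z)) (L + star L) (p v) := by
      simp_rw [star_sub]
      rw [cfc_sub (fun z => star z) (fun z => star (a z)) _ (by fun_prop) (by fun_prop), sub_apply,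
        h0', star_mul, d.hps, ← cfc_star, ← d.commp]
      rfl
    rw [e, ← I2_star]
    exact hC _ (by fun_prop)

theorem main (d : Data p L)
    (hid : ∀ ε : ℝ, 0 < ε → ∃ (s : Finset ℤ) (α : ℤ → ℂ),
      I2 (fun z => z - ∑ k ∈ s, α k * gfun z ^ k) < ε)
    (hd : Dense {v : F | ∃ n, ((star L) ^ n) v = 0}) {T : Op F}
    (h1 : (cfc gfun (L + star L) * p) * T = T * (cfc gfun (L + star L) * p))
    (h2 : star (cfc gfun (L + star L) * p) * T = T * star (cfc gfun (L + star L) * p)) :
    T * (L + star L) = (L + star L) * T := by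
  have hc : ∀ k : ℤ, Continuous (fun z => gfun z ^ k) := fun k =>
    continuous_gfun.zpow₀ k fun z => Or.inl (gfun_ne z)
  have good : ∀ v ∈ {v : F | ∃ n, ((star L) ^ n) v = 0}, Good L (p v) := by
    rintro v ⟨n, hn⟩
    refine good_of_nilp d (n + 1) _ ?_ ?_
    · have := congrArg (fun A : Op F => A v) d.hp
      simpa using this
    · rw [pow_succ, mul_apply_eq_comp, sL_p d, ← mul_apply_eq_comp, ← pow_succ, pow_succ',
        mul_apply_eq_comp, hn, map_zero]
  set S : Op F := L + star L with hS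
  have key : ∀ v ∈ {v : F | ∃ n, ((star L) ^ n) v = 0}, ∀ v' ∈ {v : F | ∃ n, ((star L) ^ n) v = 0},
      ⟪v', (T * S - S * T) v⟫_ℂ = 0 := by
    intro v hv v' hv'
    obtain ⟨C, hC0, hC⟩ := good v hv
    obtain ⟨C', hC0', hC'⟩ := good v' hv'
    set M : ℝ := ‖star T v'‖ * Real.sqrt C + Real.sqrt C' * ‖T v‖ with hM
    have hM0 : 0 ≤ M := by positivity
    have hb : ∀ ε : ℝ, 0 < ε → ‖⟪v', (T * S - S * T) v⟫_ℂ‖ ≤ M * ε := by
      intro ε hε
      obtain ⟨s, α, hα⟩ := hid (ε ^ 2) (by positivity)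
      set a : ℂ → ℂ := fun z => ∑ k ∈ s, α k * gfun z ^ k with ha
      have hac : Continuous a := by
        rw [ha]
        exact continuous_finsetSum _ fun k _ => continuous_const.mul (hc k)
      set A : Op F := cfc a S * p with hA
      have hTA : A * T = T * A := comm_laurent d h1 h2 s α
      have b1 := (approx_vec d hC hac).1
      have b2 := (approx_vec d hC' hac).2
      rw [← hS, ← hA] at b1 b2
      have c1 : ‖(S - A) v‖ ≤ Real.sqrt C * ε := by
        have : ‖(S - A) v‖ ^ 2 ≤ (Real.sqrt C * ε) ^ 2 := by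
          rw [mul_pow, Real.sq_sqrt hC0]
          exact b1.trans (by gcongr)
        exact le_of_sq_le_sq this (by positivity)
      have c2 : ‖(S - star A) v'‖ ≤ Real.sqrt C' * ε := by
        have : ‖(S - star A) v'‖ ^ 2 ≤ (Real.sqrt C' * ε) ^ 2 := by
          rw [mul_pow, Real.sq_sqrt hC0']
          exact b2.trans (by gcongr)
        exact le_of_sq_le_sq this (by positivity)
      have e1 : ⟪v', (T * S - S * T) v⟫_ℂ = ⟪star T v', (S - A) v⟫_ℂ - ⟪(S - star A) v', T v⟫_ℂ := by
        have e2 : T * S - S * T = T * (S - A) - (S - A) * T := by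
          rw [mul_sub, sub_mul, hTA]; abel
        have e3 : star (S - A) = S - star A := by
          rw [star_sub, hS, (sa L).star_eq]
        rw [e2, sub_apply, inner_sub_right, mul_apply_eq_comp, mul_apply_eq_comp,
          inner_op_star T v' ((S - A) v), inner_op_star (S - A) v' (T v), e3]
      rw [e1]
      calc ‖⟪star T v', (S - A) v⟫_ℂ - ⟪(S - star A) v', T v⟫_ℂ‖
          ≤ ‖⟪star T v', (S - A) v⟫_ℂ‖ + ‖⟪(S - star A) v', T v⟫_ℂ‖ := norm_sub_le _ _
        _ ≤ ‖star T v'‖ * ‖(S - A) v‖ + ‖(S - star A) v'‖ * ‖T v‖ :=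
          add_le_add (norm_inner_le_norm _ _) (norm_inner_le_norm _ _)
        _ ≤ ‖star T v'‖ * (Real.sqrt C * ε) + (Real.sqrt C' * ε) * ‖T v‖ := by gcongr
        _ = M * ε := by rw [hM]; ring
    have : ‖⟪v', (T * S - S * T) v⟫_ℂ‖ ≤ 0 := by
      refine le_of_forall_pos_le_add fun δ hδ => ?_
      have h3 := hb (δ / (M + 1)) (by positivity)
      have h4 : M * (δ / (M + 1)) ≤ δ := by
        rw [mul_div_assoc', div_le_iff₀ (by positivity)]
        nlinarith
      linarith
    exact norm_le_zero_iff.1 this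
  have key2 : ∀ v ∈ {v : F | ∃ n, ((star L) ^ n) v = 0}, (T * S - S * T) v = 0 := by
    intro v hv
    have h3 : (fun v' : F => ⟪v', (T * S - S * T) v⟫_ℂ) = fun _ => 0 :=
      Continuous.ext_on hd (by fun_prop) continuous_const fun v' hv' => key v hv v' hv'
    have h4 := congrFun h3 ((T * S - S * T) v)
    simpa using h4
  have h5 : (fun v : F => (T * S - S * T) v) = fun _ => 0 :=
    Continuous.ext_on hd (T * S - S * T).continuous continuous_const fun v hv => key2 v hv
  have h6 : T * S - S * T = 0 := by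
    ext v
    exact congrFun h5 v
  exact sub_eq_zero.1 h6

end abstract

section final
variable {V J F : Type} [NormedAddCommGroup F] [InnerProductSpace ℂ F] [CompleteSpace F]
variable {W : WSys V F} {B : StarSubalgebra ℂ (Op F)} {L : J → Op F} {P : J → Finset V}

theorem data (h : FSys W B L P) (j : J) : Data (W.eF (P j)) (L j) where
  hp := W.eF_idem _
  hps := W.eF_sa _
  pL := h.le_l j
  Lp := h.le_r j
  LL := by
    have h1 := h.rel j (W.eF (P j)) (W.eF_mem h.mem_e _)
    rw [mul_assoc, h.le_l] at h1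
    have h2 : ((P j).card : ℂ) ≠ 0 := Nat.cast_ne_zero.2 (Finset.card_ne_zero.2 (h.ne j))
    rw [h1, W.φF_eF, inv_mul_cancel₀ h2, one_smul]

end final

end FockGenX

section F
variable {V J K H F : Type} [NormedAddCommGroup H] [InnerProductSpace ℂ H] [CompleteSpace H]
  [NormedAddCommGroup F] [InnerProductSpace ℂ F] [CompleteSpace F]
variable {W : WSys V F} {B : StarSubalgebra ℂ (Op F)} {L : J → Op F} {P : J → Finset V}

theorem FSys.gen (h : FSys W B L P) (j : J) (hp : Dense {v : F | ∃ n, ((star (L j)) ^ n) v = 0}) :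
    L j + star (L j) ∈ vNa {HH W L P j} := by
  rw [mem_vNa_iff]
  intro T hT
  obtain ⟨h1, h2⟩ := hT _ (Set.mem_singleton _)
  refine FockGenX.main (FockGenX.data h j) (fun ε hε => ?_) hp h1 h2
  obtain ⟨N, α, hα⟩ := id_approx hε
  exact ⟨Finset.Icc (-(N : ℤ)) N, α, hα⟩

end F

end Pool.Agent.MP9a76ab
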