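import Pool.Agent.Lib.MP_9a76ab_an.Basic

/-!
# MP_9a76ab_an, module GAPX: Chebyshev approximation of the powers of `exp (i psi)`
-/

set_option autoImplicit false

namespace Pool.Agent.MP9a76ab

open scoped InnerProductSpace

namespace GApproxX

open Polynomial MeasureTheory intervalIntegral

/-- `U_n (x / 2)` as a function -/
noncomputable def uf (n : ℕ) (x : ℝ) : ℝ := (Chebyshev.U ℝ (n : ℤ)).eval (x / 2)

theorem uf_zero (x : ℝ) : uf 0 x = 1 := by simp [uf]

theorem x_mul_uf_zero (x : ℝ) : x * uf 0 x = uf 1 x := by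
  simp [uf]
  ring

theorem x_mul_uf_succ (n : ℕ) (x : ℝ) : x * uf (n + 1) x = uf (n + 2) x + uf n x := by
  unfold uf
  have h := Chebyshev.U_add_two ℝ (n : ℤ)
  push_cast
  rw [h]
  simp only [eval_sub, eval_mul, eval_ofNat, eval_X]
  ring

theorem mem_span (p : ℝ[X]) :
    (fun x : ℝ => p.eval x) ∈ Submodule.span ℝ (Set.range uf) := by
  have hX : ∀ f ∈ Submodule.span ℝ (Set.range uf),
      (fun x : ℝ => x * f x) ∈ Submodule.span ℝ (Set.range uf) := by
    intro f hf
    induction hf using Submodule.span_induction with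
    | mem f hf =>
      obtain ⟨n, rfl⟩ := hf
      rcases n with _ | n
      · rw [show (fun x : ℝ => x * uf 0 x) = uf 1 from funext x_mul_uf_zero]
        exact Submodule.subset_span ⟨1, rfl⟩
      · rw [show (fun x : ℝ => x * uf (n + 1) x) = uf (n + 2) + uf n from
          funext fun x => x_mul_uf_succ n x]
        exact add_mem (Submodule.subset_span ⟨_, rfl⟩) (Submodule.subset_span ⟨_, rfl⟩)
    | zero =>
      rw [show (fun x : ℝ => x * (0 : ℝ → ℝ) x) = 0 from funext fun x => by simp]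
      exact zero_mem _
    | add f g _ _ hf hg =>
      rw [show (fun x : ℝ => x * (f + g) x) = (fun x => x * f x) + fun x => x * g x from
        funext fun x => by simp [mul_add]]
      exact add_mem hf hg
    | smul c f _ hf =>
      rw [show (fun x : ℝ => x * (c • f) x) = c • (fun x => x * f x) from
        funext fun x => by simp [mul_left_comm]]
      exact Submodule.smul_mem _ c hf
  induction p using Polynomial.induction_on with
  | C a =>
    rw [show (fun x : ℝ => (C a).eval x) = a • uf 0 from funext fun x => by simp [uf_zero]]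
    exact Submodule.smul_mem _ a (Submodule.subset_span ⟨0, rfl⟩)
  | add p q hp hq =>
    rw [show (fun x : ℝ => (p + q).eval x) = (fun x => p.eval x) + fun x => q.eval x from
      funext fun x => by simp]
    exact add_mem hp hq
  | monomial n a h =>
    have h2 : (fun x : ℝ => eval x (C a * X ^ (n + 1))) =
        (fun x : ℝ => x * eval x (C a * X ^ n)) := funext fun x => by
      simp only [eval_mul, eval_C, eval_pow, eval_X, pow_succ]
      ring
    rw [h2]
    exact hX _ h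

theorem expand (p : ℝ[X]) : ∃ (N : ℕ) (a : ℕ → ℝ), ∀ M, N ≤ M → ∀ x : ℝ,
    p.eval x = ∑ n ∈ Finset.range M, a n * uf n x := by
  obtain ⟨c, hc⟩ := Finsupp.mem_span_range_iff_exists_finsupp.1 (mem_span p)
  refine ⟨c.support.sup id + 1, c, fun M hM x => ?_⟩
  have h1 := congrFun hc x
  rw [← h1, Finsupp.sum, Finset.sum_apply]
  simp only [Pi.smul_apply, smul_eq_mul]
  refine Finset.sum_subset (fun n hn => ?_) fun n _ hn => ?_
  · rw [Finset.mem_range]
    have : n ≤ c.support.sup id := Finset.le_sup (f := id) hn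
    omega
  · rw [Finsupp.notMem_support_iff.1 hn, zero_mul]

theorem uf_cos (n : ℕ) (θ : ℝ) :
    uf n (2 * Real.cos θ) * Real.sin θ ^ 2 = Real.sin ((n + 1) * θ) * Real.sin θ := by
  have h := Chebyshev.U_real_cos θ (n : ℤ)
  rw [uf, mul_div_cancel_left₀ _ (two_ne_zero), sq, ← mul_assoc, h]
  push_cast
  rfl

theorem int_sin (n : ℕ) : ∫ θ in (0 : ℝ)..Real.pi, Real.sin ((n + 1 + 1) * θ) * Real.sin θ = 0 := by
  have h1 : ∀ θ ∈ Set.uIcc (0 : ℝ) Real.pi, HasDerivAt (fun θ : ℝ =>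
      Real.sin ((n + 1) * θ) / (2 * (n + 1)) - Real.sin ((n + 3) * θ) / (2 * (n + 3)))
      (Real.sin ((n + 1 + 1) * θ) * Real.sin θ) θ := by
    intro θ _
    have e1 : HasDerivAt (fun θ : ℝ => ((n : ℝ) + 1) * θ) ((n : ℝ) + 1) θ := by
      simpa using (hasDerivAt_id θ).const_mul ((n : ℝ) + 1)
    have e2 : HasDerivAt (fun θ : ℝ => ((n : ℝ) + 3) * θ) ((n : ℝ) + 3) θ := by
      simpa using (hasDerivAt_id θ).const_mul ((n : ℝ) + 3)
    have h := (e1.sin.div_const (2 * ((n : ℝ) + 1))).sub (e2.sin.div_const (2 * ((n : ℝ) + 3)))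
    refine h.congr_deriv ?_
    have a1 : (n : ℝ) + 1 ≠ 0 := by positivity
    have a2 : (n : ℝ) + 3 ≠ 0 := by positivity
    have h3 : Real.sin (((n : ℝ) + 1 + 1) * θ) * Real.sin θ =
        (Real.cos (((n : ℝ) + 1) * θ) - Real.cos (((n : ℝ) + 3) * θ)) / 2 := by
      have h4 : ((n : ℝ) + 1) * θ = ((n : ℝ) + 1 + 1) * θ - θ := by ring
      have h5 : ((n : ℝ) + 3) * θ = ((n : ℝ) + 1 + 1) * θ + θ := by ring
      rw [h4, h5, Real.cos_sub, Real.cos_add]
      ring
    rw [h3]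
    field_simp
  rw [integral_eq_sub_of_hasDerivAt h1 (Continuous.intervalIntegrable (by fun_prop) _ _)]
  have h2 : Real.sin (((n : ℝ) + 1) * Real.pi) = 0 := by
    have := Real.sin_nat_mul_pi (n + 1)
    push_cast at this
    exact this
  have h3 : Real.sin (((n : ℝ) + 3) * Real.pi) = 0 := by
    have := Real.sin_nat_mul_pi (n + 3)
    push_cast at this
    exact this
  simp [h2, h3]

theorem int_uf (n : ℕ) : ∫ θ in (0 : ℝ)..Real.pi, uf n (2 * Real.cos θ) * Real.sin θ ^ 2 =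
    if n = 0 then Real.pi / 2 else 0 := by
  rcases n with _ | n
  · simp only [uf_zero, one_mul, if_true]
    rw [integral_sin_sq]
    simp
  · rw [if_neg (Nat.succ_ne_zero n)]
    simp only [uf_cos]
    push_cast
    exact int_sin n

theorem gfun_cos (k : ℤ) {θ : ℝ} (hθ : θ ∈ Set.Icc 0 Real.pi) :
    gfun ((2 * Real.cos θ : ℝ) : ℂ) ^ k =
      Complex.exp (Complex.I * k * (2 * θ - Real.sin (2 * θ) : ℝ)) := by
  rw [gfun, ← Complex.exp_int_mul, Complex.ofReal_re, psi, mul_div_cancel_left₀ _ two_ne_zero,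
    Real.arccos_cos hθ.1 hθ.2]
  congr 1
  push_cast
  ring

theorem int_gfun (k : ℤ) (hk : k ≠ 0) : ∫ θ in (0 : ℝ)..Real.pi,
    gfun ((2 * Real.cos θ : ℝ) : ℂ) ^ k * ((Real.sin θ ^ 2 : ℝ) : ℂ) = 0 := by
  have h0 : ∫ θ in (0 : ℝ)..Real.pi, gfun ((2 * Real.cos θ : ℝ) : ℂ) ^ k *
      ((Real.sin θ ^ 2 : ℝ) : ℂ) = ∫ θ in (0 : ℝ)..Real.pi,
      Complex.exp (Complex.I * k * (2 * θ - Real.sin (2 * θ) : ℝ)) *
      ((Real.sin θ ^ 2 : ℝ) : ℂ) := by
    apply intervalIntegral.integral_congr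
    intro θ hθ
    rw [Set.uIcc_of_le Real.pi_pos.le] at hθ
    simp only
    rw [gfun_cos k hθ]
  have hk' : (k : ℂ) ≠ 0 := by exact_mod_cast hk
  have h1 : ∀ θ ∈ Set.uIcc (0 : ℝ) Real.pi, HasDerivAt (fun θ : ℝ =>
      Complex.exp (Complex.I * k * (2 * θ - Real.sin (2 * θ) : ℝ)) / (4 * Complex.I * k))
      (Complex.exp (Complex.I * k * (2 * θ - Real.sin (2 * θ) : ℝ)) *
      ((Real.sin θ ^ 2 : ℝ) : ℂ)) θ := by
    intro θ _
    have e0 : HasDerivAt (fun θ : ℝ => 2 * θ) 2 θ := by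
      simpa using (hasDerivAt_id θ).const_mul (2 : ℝ)
    have e1 : HasDerivAt (fun θ : ℝ => 2 * θ - Real.sin (2 * θ))
        (2 - Real.cos (2 * θ) * 2) θ := e0.sub e0.sin
    have e2 := ((e1.ofReal_comp.const_mul (Complex.I * k)).cexp).div_const (4 * Complex.I * k)
    refine e2.congr_deriv ?_
    rw [Real.cos_two_mul, Real.cos_sq']
    push_cast
    field_simp
    ring
  rw [h0, integral_eq_sub_of_hasDerivAt h1 (Continuous.intervalIntegrable (by fun_prop) _ _)]
  have h2 : Complex.exp (Complex.I * k * ((2 * Real.pi - Real.sin (2 * Real.pi) : ℝ) : ℂ)) = 1 := by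
    rw [Real.sin_two_pi, sub_zero]
    rw [show Complex.I * k * ((2 * Real.pi : ℝ) : ℂ) = k * (2 * Real.pi * Complex.I) by
      push_cast; ring]
    exact Complex.exp_int_mul_two_pi_mul_I k
  rw [h2]
  simp

theorem continuous_gfun (k : ℤ) : Continuous fun x : ℝ => gfun (x : ℂ) ^ k := by
  have h1 : Continuous fun x : ℝ => gfun (x : ℂ) := by
    unfold gfun psi
    simp only [Complex.ofReal_re]
    have := Real.continuous_arccos
    fun_prop
  exact h1.zpow₀ k fun x => Or.inl (Complex.exp_ne_zero _)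

end GApproxX

open GApproxX MeasureTheory in
theorem gfun_approx (k : ℤ) (hk : k ≠ 0) {ε : ℝ} (hε : 0 < ε) :
    ∃ (N : ℕ) (α : ℕ → ℂ), ∀ x ∈ Set.Icc (-2 : ℝ) 2,
      ‖(gfun x) ^ k - ∑ n ∈ Finset.range N,
        α n * (((Polynomial.Chebyshev.U ℝ ((n : ℤ) + 1)).eval (x / 2) : ℝ) : ℂ)‖ < ε := by
  have hc := continuous_gfun k
  obtain ⟨p, hp⟩ := exists_polynomial_near_of_continuousOn (-2) 2
    (fun x : ℝ => (gfun (x : ℂ) ^ k).re) (Complex.continuous_re.comp hc).continuousOn (ε / 6)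
    (by positivity)
  obtain ⟨q, hq⟩ := exists_polynomial_near_of_continuousOn (-2) 2
    (fun x : ℝ => (gfun (x : ℂ) ^ k).im) (Complex.continuous_im.comp hc).continuousOn (ε / 6)
    (by positivity)
  obtain ⟨N₁, a, ha⟩ := expand p
  obtain ⟨N₂, b, hb⟩ := expand q
  set N := max N₁ N₂ with hN
  set γ : ℕ → ℂ := fun n => a n + b n * Complex.I with hγ
  set P : ℝ → ℂ := fun x => ∑ n ∈ Finset.range (N + 1), γ n * (uf n x : ℂ) with hP
  have hPx : ∀ x, P x = ((p.eval x : ℝ) : ℂ) + ((q.eval x : ℝ) : ℂ) * Complex.I := by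
    intro x
    rw [ha (N + 1) (by omega) x, hb (N + 1) (by omega) x]
    push_cast
    rw [Finset.sum_mul, ← Finset.sum_add_distrib]
    refine Finset.sum_congr rfl fun n _ => ?_
    rw [hγ]
    ring
  have h1 : ∀ x ∈ Set.Icc (-2 : ℝ) 2, ‖P x - gfun (x : ℂ) ^ k‖ < ε / 3 := by
    intro x hx
    have h2 := hp x hx
    have h3 := hq x hx
    have h4 : P x - gfun (x : ℂ) ^ k = ((p.eval x - (gfun (x : ℂ) ^ k).re : ℝ) : ℂ) +
        ((q.eval x - (gfun (x : ℂ) ^ k).im : ℝ) : ℂ) * Complex.I := by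
      rw [hPx]
      conv_lhs => rw [← Complex.re_add_im (gfun (x : ℂ) ^ k)]
      push_cast
      ring
    rw [h4]
    refine (norm_add_le _ _).trans_lt ?_
    rw [norm_mul, Complex.norm_I, mul_one, Complex.norm_real, Complex.norm_real,
      Real.norm_eq_abs, Real.norm_eq_abs]
    linarith
  have h0 : γ 0 * ((Real.pi / 2 : ℝ) : ℂ) = ∫ θ in (0 : ℝ)..Real.pi,
      (P (2 * Real.cos θ) - gfun ((2 * Real.cos θ : ℝ) : ℂ) ^ k) * ((Real.sin θ ^ 2 : ℝ) : ℂ) := by
    have i0 : ∀ n, Continuous fun θ : ℝ => uf n (2 * Real.cos θ) := fun n => by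
      unfold uf
      exact (Polynomial.continuous _).comp (by fun_prop)
    have i1 : Continuous fun θ : ℝ => P (2 * Real.cos θ) * ((Real.sin θ ^ 2 : ℝ) : ℂ) := by
      rw [hP]
      refine Continuous.mul (continuous_finsetSum _ fun n _ => continuous_const.mul
        (Complex.continuous_ofReal.comp (i0 n))) (by fun_prop)
    have i2 : Continuous fun θ : ℝ => gfun ((2 * Real.cos θ : ℝ) : ℂ) ^ k *
        ((Real.sin θ ^ 2 : ℝ) : ℂ) :=
      (hc.comp (show Continuous fun θ : ℝ => 2 * Real.cos θ by fun_prop)).mul (by fun_prop)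
    simp only [sub_mul]
    rw [intervalIntegral.integral_sub (i1.intervalIntegrable _ _) (i2.intervalIntegrable _ _),
      int_gfun k hk, sub_zero]
    have e1 : ∀ θ : ℝ, P (2 * Real.cos θ) * ((Real.sin θ ^ 2 : ℝ) : ℂ) =
        ∑ n ∈ Finset.range (N + 1), γ n *
          ((uf n (2 * Real.cos θ) * Real.sin θ ^ 2 : ℝ) : ℂ) := fun θ => by
      rw [hP]
      simp only
      rw [Finset.sum_mul]
      refine Finset.sum_congr rfl fun n _ => ?_
      push_cast
      ring
    simp only [e1]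
    have e3 : ∀ n ∈ Finset.range (N + 1), IntervalIntegrable (fun θ : ℝ => γ n *
        ((uf n (2 * Real.cos θ) * Real.sin θ ^ 2 : ℝ) : ℂ)) volume 0 Real.pi := fun n _ => by
      have e4 : Continuous fun θ : ℝ => uf n (2 * Real.cos θ) * Real.sin θ ^ 2 :=
        (i0 n).mul (by fun_prop)
      exact (continuous_const.mul (Complex.continuous_ofReal.comp e4)).intervalIntegrable _ _
    rw [intervalIntegral.integral_finsetSum e3]
    have e2 : ∀ n ∈ Finset.range (N + 1), (∫ θ in (0 : ℝ)..Real.pi, γ n *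
        ((uf n (2 * Real.cos θ) * Real.sin θ ^ 2 : ℝ) : ℂ)) =
        if n = 0 then γ 0 * ((Real.pi / 2 : ℝ) : ℂ) else 0 := fun n _ => by
      rw [intervalIntegral.integral_const_mul, intervalIntegral.integral_ofReal, int_uf]
      split
      · next h => rw [h]
      · simp
    rw [Finset.sum_congr rfl e2, Finset.sum_ite_eq' (Finset.range (N + 1)) 0,
      if_pos (Finset.mem_range.2 (Nat.succ_pos N))]
  have h5 : ‖γ 0‖ ≤ 2 * (ε / 3) := by
    have h6 : ‖∫ θ in (0 : ℝ)..Real.pi, (P (2 * Real.cos θ) -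
        gfun ((2 * Real.cos θ : ℝ) : ℂ) ^ k) * ((Real.sin θ ^ 2 : ℝ) : ℂ)‖ ≤
        (ε / 3) * |Real.pi - 0| := by
      apply intervalIntegral.norm_integral_le_of_norm_le_const
      intro θ _
      have h7 := (h1 (2 * Real.cos θ) ⟨by linarith [Real.neg_one_le_cos θ],
        by linarith [Real.cos_le_one θ]⟩).le
      rw [norm_mul, Complex.norm_real, Real.norm_eq_abs, abs_of_nonneg (sq_nonneg _)]
      have h8 : Real.sin θ ^ 2 ≤ 1 := Real.sin_sq_le_one θ
      calc ‖P (2 * Real.cos θ) - gfun ((2 * Real.cos θ : ℝ) : ℂ) ^ k‖ * Real.sin θ ^ 2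
          ≤ (ε / 3) * 1 := mul_le_mul h7 h8 (sq_nonneg _) (by positivity)
        _ = ε / 3 := mul_one _
    rw [← h0, norm_mul, Complex.norm_real, Real.norm_eq_abs, sub_zero, abs_of_pos Real.pi_pos,
      abs_of_pos (by positivity : (0 : ℝ) < Real.pi / 2)] at h6
    have h9 := Real.pi_pos
    have h10 : (‖γ 0‖ - 2 * (ε / 3)) * Real.pi ≤ 0 := by linarith
    by_contra hcon
    push Not at hcon
    have := mul_pos (show 0 < ‖γ 0‖ - 2 * (ε / 3) by linarith) h9
    linarith
  refine ⟨N, fun n => γ (n + 1), fun x hx => ?_⟩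
  have h6 : P x = (∑ n ∈ Finset.range N, γ (n + 1) *
      (((Polynomial.Chebyshev.U ℝ ((n : ℤ) + 1)).eval (x / 2) : ℝ) : ℂ)) + γ 0 := by
    rw [hP]
    simp only
    rw [Finset.sum_range_succ']
    simp [uf]
  have h7 : gfun (x : ℂ) ^ k - ∑ n ∈ Finset.range N, γ (n + 1) *
      (((Polynomial.Chebyshev.U ℝ ((n : ℤ) + 1)).eval (x / 2) : ℝ) : ℂ) =
      γ 0 - (P x - gfun (x : ℂ) ^ k) := by
    rw [h6]
    ring
  rw [h7]
  refine (norm_sub_le _ _).trans_lt ?_
  linarith [h1 x hx]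

end Pool.Agent.MP9a76ab
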