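import Pool.Agent.Lib.MP_9a76ab_an.Basic
import Pool.Agent.Lib.MP_9a76ab_an.GApprox

/-!
# Haar unitaries from a Fock system (MP_9a76ab_an, module FFHS)
-/

set_option autoImplicit false

namespace Pool.Agent.MP9a76ab

open scoped InnerProductSpace

namespace FockHaarX

noncomputable section

variable {V J F : Type} [NormedAddCommGroup F] [InnerProductSpace ℂ F] [CompleteSpace F]
variable {W : WSys V F} {B : StarSubalgebra ℂ (Op F)} {L : J → Op F} {P : J → Finset V}

/-- the semicircular element -/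
def SS (L : J → Op F) (j : J) : Op F := L j + star (L j)

/-- the Chebyshev elements -/
def VV (W : WSys V F) (L : J → Op F) (P : J → Finset V) (j : J) : ℕ → Op F
  | 0 => W.eF (P j)
  | 1 => SS L j
  | (n + 2) => SS L j * VV W L P j (n + 1) - VV W L P j n

theorem SS_sa (j : J) : star (SS L j) = SS L j := by
  unfold SS; rw [star_add, star_star, add_comm]

theorem star_le_l (h : FSys W B L P) (j : J) : star (L j) * W.eF (P j) = star (L j) := by
  have := congrArg star (h.le_l j)
  rwa [star_mul, W.eF_sa] at this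

theorem star_le_r (h : FSys W B L P) (j : J) : W.eF (P j) * star (L j) = star (L j) := by
  have := congrArg star (h.le_r j)
  rwa [star_mul, W.eF_sa] at this

theorem SS_mul_p (h : FSys W B L P) (j : J) : SS L j * W.eF (P j) = SS L j := by
  unfold SS; rw [add_mul, h.le_r, star_le_l h]

theorem p_mul_SS (h : FSys W B L P) (j : J) : W.eF (P j) * SS L j = SS L j := by
  unfold SS; rw [mul_add, h.le_l, star_le_r h]

theorem card_ne (h : FSys W B L P) (j : J) : ((P j).card : ℂ) ≠ 0 := by
  have := (h.ne j).card_pos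
  exact_mod_cast this.ne'

theorem star_mul_L (h : FSys W B L P) (j : J) : star (L j) * L j = W.eF (P j) := by
  have h1 := h.rel j 1 (one_mem B)
  rw [mul_one, W.φF_one, inv_mul_cancel₀ (card_ne h j), one_smul] at h1
  exact h1

theorem norm_eF (W : WSys V F) (Q : Finset V) : ‖W.eF Q‖ ≤ 1 :=
  ContinuousLinearMap.opNorm_le_bound _ zero_le_one (fun v => by
    rw [one_mul]; exact W.norm_eF_le Q v)

theorem norm_L (h : FSys W B L P) (j : J) : ‖L j‖ ≤ 1 := by
  have h1 : ‖L j‖ * ‖L j‖ ≤ 1 := by
    rw [← CStarRing.norm_star_mul_self, star_mul_L h]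
    exact norm_eF W _
  nlinarith [norm_nonneg (L j)]

theorem norm_SS (h : FSys W B L P) (j : J) : ‖SS L j‖ ≤ 2 := by
  unfold SS
  refine (norm_add_le _ _).trans ?_
  rw [norm_star]
  have := norm_L h j
  linarith

/-- powers -/
theorem p_mul_pow (h : FSys W B L P) (j : J) (n : ℕ) :
    W.eF (P j) * ((L j) ^ n * W.eF (P j)) = (L j) ^ n * W.eF (P j) := by
  cases n with
  | zero => rw [pow_zero, one_mul, W.eF_idem]
  | succ n => rw [pow_succ', mul_assoc, ← mul_assoc, h.le_l]

theorem pow_succ_p (h : FSys W B L P) (j : J) (n : ℕ) :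
    (L j) ^ (n + 1) * W.eF (P j) = (L j) ^ (n + 1) := by
  rw [pow_succ, mul_assoc, h.le_r]

/-- action on vectors killed by `L*` -/
theorem VV_apply (h : FSys W B L P) (j : J) (w : F) (hw : star (L j) w = 0) :
    ∀ n, VV W L P j n w = ((L j) ^ n * W.eF (P j)) w ∧
      VV W L P j (n + 1) w = ((L j) ^ (n + 1) * W.eF (P j)) w := by
  intro n
  induction n with
  | zero =>
    constructor
    · simp [VV]
    · rw [pow_succ_p h]
      simp only [VV, SS, zero_add, pow_one]
      rw [add_apply, hw, add_zero]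
  | succ n ih =>
    refine ⟨ih.2, ?_⟩
    have e : VV W L P j (n + 1 + 1) w = SS L j (VV W L P j (n + 1) w) - VV W L P j n w := rfl
    rw [e, ih.1, ih.2]
    unfold SS
    have e2 : star (L j) (((L j) ^ (n + 1) * W.eF (P j)) w) = ((L j) ^ n * W.eF (P j)) w := by
      have : star (L j) * ((L j) ^ (n + 1) * W.eF (P j)) = (L j) ^ n * W.eF (P j) := by
        rw [pow_succ', mul_assoc, ← mul_assoc, star_mul_L h, p_mul_pow h]
      exact congrArg (fun A : Op F => A w) this
    have e3 : L j (((L j) ^ (n + 1) * W.eF (P j)) w) = ((L j) ^ (n + 1 + 1) * W.eF (P j)) w := by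
      have : L j * ((L j) ^ (n + 1) * W.eF (P j)) = (L j) ^ (n + 1 + 1) * W.eF (P j) := by
        rw [← mul_assoc, ← pow_succ']
      exact congrArg (fun A : Op F => A w) this
    rw [add_apply, e2, e3, add_sub_cancel_right]

theorem VV_succ_apply (h : FSys W B L P) (j : J) (w : F) (hw : star (L j) w = 0) (n : ℕ) :
    VV W L P j (n + 1) w = L j (((L j) ^ n) w) := by
  rw [(VV_apply h j w hw n).2, pow_succ_p h, pow_succ']
  rfl

/-- the closed span of the Chebyshev elements of positive degree -/
def CC (W : WSys V F) (L : J → Op F) (P : J → Finset V) (j : J) : Submodule ℂ (Op F) :=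
  (Submodule.span ℂ (Set.range fun n => VV W L P j (n + 1))).topologicalClosure

/-- closed linear conditions are checked on Chebyshev elements -/
theorem CC_induction {j : J} {h : Op F} (hh : h ∈ CC W L P j) (f : Op F →L[ℂ] ℂ)
    (hf : ∀ n, f (VV W L P j (n + 1)) = 0) : f h = 0 := by
  have h1 : CC W L P j ≤ LinearMap.ker f.toLinearMap := by
    refine Submodule.topologicalClosure_minimal _ ?_ ?_
    · rw [Submodule.span_le]
      rintro _ ⟨n, rfl⟩
      exact hf n
    · exact ContinuousLinearMap.isClosed_ker f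
  exact h1 hh

theorem CC_induction' {j : J} {h : Op F} (hh : h ∈ CC W L P j) (f : Op F →L[ℂ] F)
    (hf : ∀ n, f (VV W L P j (n + 1)) = 0) : f h = 0 := by
  have h1 : CC W L P j ≤ LinearMap.ker f.toLinearMap := by
    refine Submodule.topologicalClosure_minimal _ ?_ ?_
    · rw [Submodule.span_le]
      rintro _ ⟨n, rfl⟩
      exact hf n
    · exact ContinuousLinearMap.isClosed_ker f
  exact h1 hh

/-- alternating words -/
inductive AC (W : WSys V F) (B : StarSubalgebra ℂ (Op F)) (L : J → Op F) (P : J → Finset V) :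
    J → Op F → Prop
  | base (j : J) (b : Op F) (hb : b ∈ B) : AC W B L P j b
  | step (j j' : J) (b h c : Op F) (hb : b ∈ B) (hh : h ∈ CC W L P j')
      (hcen : j' = j → W.φF (P j) b = 0) (hc : AC W B L P j' c) : AC W B L P j (b * (h * c))

theorem lemma1 (h : FSys W B L P) {j : J} {c : Op F} (hc : AC W B L P j c) (y : V) :
    star (L j) (c (W.ξ y)) = 0 := by
  induction hc with
  | base j b hb => exact h.vac j b hb y
  | step j j' b g c hb hh hcen hc ih =>
    set w := c (W.ξ y) with hw
    have h1 := CC_induction' hh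
      ((star (L j) * b).comp (ContinuousLinearMap.apply ℂ F w)) (fun n => by
        show (star (L j) * b) (VV W L P j' (n + 1) w) = 0
        rw [VV_succ_apply h j' w ih]
        have h2 : star (L j) * b * L j' = 0 := by
          by_cases hjj : j' = j
          · subst hjj
            rw [h.rel j' b hb, hcen rfl, mul_zero, zero_smul]
          · exact h.rel0 j j' (fun h' => hjj h'.symm) b hb
        have h3 := congrArg (fun A : Op F => A (((L j') ^ n) w)) h2
        exact h3)
    exact h1

theorem lemma2 (h : FSys W B L P) {j : J} {b g c : Op F} (hb : b ∈ B) (hg : g ∈ CC W L P j)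
    (hc : AC W B L P j c) (x y : V) : ⟪W.ξ x, b (g (c (W.ξ y)))⟫_ℂ = 0 := by
  set w := c (W.ξ y) with hw
  have ih := lemma1 h hc y
  have h1 := CC_induction hg
    ((innerSL ℂ (W.ξ x)).comp (b.comp (ContinuousLinearMap.apply ℂ F w))) (fun n => by
      show ⟪W.ξ x, b (VV W L P j (n + 1) w)⟫_ℂ = 0
      rw [VV_succ_apply h j w ih, inner_op_star, inner_op_star, h.vac j _ (star_mem hb) x,
        inner_zero_left])
  exact h1

/-! ### Functional calculus -/

theorem SS_isSA (j : J) : IsSelfAdjoint (SS L j) := SS_sa j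

theorem SS_normal (j : J) : IsStarNormal (SS L j) := (SS_isSA j).isStarNormal

theorem gfun_continuous : Continuous gfun := by
  unfold gfun psi
  fun_prop

theorem gfun_norm (z : ℂ) : ‖gfun z‖ = 1 := by
  unfold gfun
  rw [mul_comm]
  exact Complex.norm_exp_ofReal_mul_I _

theorem gfun_star_mul (z : ℂ) : star (gfun z) * gfun z = 1 := by
  have h : star (gfun z) * gfun z = ((‖gfun z‖ ^ 2 : ℝ) : ℂ) := by
    rw [Complex.star_def, ← Complex.normSq_eq_conj_mul_self, Complex.normSq_eq_norm_sq]
  rw [h, gfun_norm]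
  simp

theorem gfun_ne (z : ℂ) : gfun z ≠ 0 := by
  intro h
  have := gfun_norm z
  rw [h] at this
  simp at this

theorem gfun_star (z : ℂ) : star (gfun z) = (gfun z)⁻¹ :=
  eq_inv_of_mul_eq_one_left (gfun_star_mul z)

/-- the unitary -/
def GG (L : J → Op F) (j : J) : Op F := cfc gfun (SS L j)

theorem GG_star_mul (j : J) : star (GG L j) * GG L j = 1 := by
  have hn := SS_normal (L := L) j
  have hc := gfun_continuous
  have hc' : Continuous (fun x => star (gfun x)) := by fun_prop
  unfold GG
  rw [← cfc_star, ← cfc_mul _ _ _ hc'.continuousOn hc.continuousOn]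
  rw [show (fun x => star (gfun x) * gfun x) = fun _ => (1 : ℂ) from funext gfun_star_mul]
  exact cfc_const_one ℂ (SS L j)

theorem GG_mul_star (j : J) : GG L j * star (GG L j) = 1 := by
  have hn := SS_normal (L := L) j
  have hc := gfun_continuous
  have hc' : Continuous (fun x => star (gfun x)) := by fun_prop
  unfold GG
  rw [← cfc_star, ← cfc_mul _ _ _ hc.continuousOn hc'.continuousOn]
  rw [show (fun x => gfun x * star (gfun x)) = fun _ => (1 : ℂ) from
    funext fun z => by rw [mul_comm]; exact gfun_star_mul z]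
  exact cfc_const_one ℂ (SS L j)

theorem GG_comm (j : J) {T : Op F} (hT : SS L j * T = T * SS L j) : GG L j * T = T * GG L j :=
  (SS_isSA j).commute_cfc hT gfun

theorem GG_comm_p (h : FSys W B L P) (j : J) :
    GG L j * W.eF (P j) = W.eF (P j) * GG L j :=
  GG_comm j (by rw [SS_mul_p h, p_mul_SS h])

theorem starGG_comm_p (h : FSys W B L P) (j : J) :
    star (GG L j) * W.eF (P j) = W.eF (P j) * star (GG L j) := by
  have := congrArg star (GG_comm_p h j)
  rw [star_mul, star_mul, W.eF_sa] at this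
  exact this.symm

theorem HH_eq (j : J) : HH W L P j = GG L j * W.eF (P j) := rfl

theorem star_HH_eq (h : FSys W B L P) (j : J) :
    star (HH W L P j) = star (GG L j) * W.eF (P j) := by
  rw [HH_eq, star_mul, W.eF_sa, starGG_comm_p h]

omit [CompleteSpace F] in
theorem pow_mul_p {G p : Op F} (hp : p * p = p) (hc : G * p = p * G) (k : ℕ) :
    (G * p) ^ (k + 1) = G ^ (k + 1) * p := by
  have h1 : Commute G p := hc
  rw [h1.mul_pow]
  congr 1
  induction k with
  | zero => simp
  | succ k ih => rw [pow_succ, ih, hp]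

/-- the polynomials `U_n (x / 2)` -/
def qq (n : ℕ) : Polynomial ℂ :=
  (Polynomial.Chebyshev.U ℂ (n : ℤ)).comp (Polynomial.C (2 : ℂ)⁻¹ * Polynomial.X)

theorem two_X_comp : ((2 : Polynomial ℂ) * Polynomial.X).comp
    (Polynomial.C (2 : ℂ)⁻¹ * Polynomial.X) = Polynomial.X := by
  rw [show (2 : Polynomial ℂ) = Polynomial.C 2 from (map_ofNat Polynomial.C 2).symm,
    Polynomial.mul_comp, Polynomial.C_comp, Polynomial.X_comp, ← mul_assoc, ← Polynomial.C_mul]
  norm_num

theorem qq_zero : qq 0 = 1 := by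
  unfold qq
  simp

theorem qq_one : qq 1 = Polynomial.X := by
  unfold qq
  simp only [Nat.cast_one, Polynomial.Chebyshev.U_one]
  rw [two_X_comp]

theorem qq_add_two (n : ℕ) : qq (n + 2) = Polynomial.X * qq (n + 1) - qq n := by
  unfold qq
  push_cast
  rw [Polynomial.Chebyshev.U_add_two, Polynomial.sub_comp, Polynomial.mul_comp, two_X_comp]

theorem VV_eq (h : FSys W B L P) (j : J) : ∀ n,
    VV W L P j n = Polynomial.aeval (SS L j) (qq n) * W.eF (P j) ∧
    VV W L P j (n + 1) = Polynomial.aeval (SS L j) (qq (n + 1)) * W.eF (P j) := by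
  intro n
  induction n with
  | zero =>
    rw [zero_add, qq_zero, qq_one]
    constructor
    · simp [VV]
    · rw [Polynomial.aeval_X, SS_mul_p h]
      rfl
  | succ n ih =>
    refine ⟨ih.2, ?_⟩
    rw [qq_add_two, map_sub, map_mul, Polynomial.aeval_X, sub_mul, mul_assoc, ← ih.1, ← ih.2]
    rfl

theorem spec (h : FSys W B L P) (j : J) {z : ℂ} (hz : z ∈ spectrum ℂ (SS L j)) :
    z = ((z.re : ℝ) : ℂ) ∧ z.re ∈ Set.Icc (-2 : ℝ) 2 := by
  have h1 := (SS_isSA (L := L) j).mem_spectrum_eq_re hz
  refine ⟨h1, ?_⟩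
  have h2 : ‖z‖ ≤ ‖SS L j‖ * ‖(1 : Op F)‖ := spectrum.norm_le_norm_mul_of_mem hz
  have h3 : ‖(1 : Op F)‖ ≤ 1 := ContinuousLinearMap.norm_id_le
  have h4 := norm_SS h j
  have h5 : ‖z‖ ≤ 2 := by
    refine h2.trans ?_
    nlinarith [norm_nonneg (SS L j), norm_nonneg (1 : Op F)]
  have h6 := (Complex.abs_re_le_norm z).trans h5
  rw [abs_le] at h6
  exact h6

/-- the statement of `gfun_approx` -/
def GApx : Prop := ∀ (k : ℤ) (_ : k ≠ 0) {ε : ℝ} (_ : 0 < ε),
    ∃ (N : ℕ) (α : ℕ → ℂ), ∀ x ∈ Set.Icc (-2 : ℝ) 2,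
      ‖(gfun x) ^ k - ∑ n ∈ Finset.range N,
        α n * (((Polynomial.Chebyshev.U ℝ ((n : ℤ) + 1)).eval (x / 2) : ℝ) : ℂ)‖ < ε

theorem qq_eval (n : ℕ) (x : ℝ) : (qq (n + 1)).eval (x : ℂ) =
    (((Polynomial.Chebyshev.U ℝ ((n : ℤ) + 1)).eval (x / 2) : ℝ) : ℂ) := by
  rw [Polynomial.Chebyshev.complex_ofReal_eval_U]
  unfold qq
  rw [Polynomial.eval_comp, Polynomial.eval_mul, Polynomial.eval_C, Polynomial.eval_X]
  push_cast
  congr 1
  ring

/-- powers of the Haar unitary are limits of Chebyshev elements -/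
theorem cfc_mem (ga : GApx) (h : FSys W B L P) (j : J) (f : ℂ → ℂ) (hf : Continuous f)
    (k : ℤ) (hk : k ≠ 0) (hfk : ∀ z, f z = gfun z ^ k) :
    cfc f (SS L j) * W.eF (P j) ∈ CC W L P j := by
  have hn := SS_normal (L := L) j
  unfold CC
  rw [← SetLike.mem_coe, Submodule.topologicalClosure_coe, Metric.mem_closure_iff]
  intro ε hε
  obtain ⟨N, α, hα⟩ := ga k hk (half_pos hε)
  refine ⟨∑ n ∈ Finset.range N, α n • VV W L P j (n + 1), ?_, ?_⟩
  · exact Submodule.sum_mem _ fun n _ => Submodule.smul_mem _ _ (Submodule.subset_span ⟨n, rfl⟩)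
  · have e1 : ∑ n ∈ Finset.range N, α n • VV W L P j (n + 1) =
        cfc (fun z => (∑ n ∈ Finset.range N, Polynomial.C (α n) * qq (n + 1)).eval z) (SS L j) *
          W.eF (P j) := by
      rw [cfc_polynomial _ _ hn, map_sum, Finset.sum_mul]
      refine Finset.sum_congr rfl fun n _ => ?_
      rw [(VV_eq h j n).2, map_mul, Polynomial.aeval_C, mul_assoc, Algebra.algebraMap_eq_smul_one,
        smul_mul_assoc, one_mul]
    rw [e1, dist_eq_norm, ← sub_mul]
    have hc : Continuous (fun z : ℂ =>
        (∑ n ∈ Finset.range N, Polynomial.C (α n) * qq (n + 1)).eval z) :=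
      Polynomial.continuous _
    rw [← cfc_sub _ _ _ hf.continuousOn hc.continuousOn]
    have h1 : ‖cfc (fun z => f z -
        (∑ n ∈ Finset.range N, Polynomial.C (α n) * qq (n + 1)).eval z) (SS L j)‖ ≤ ε / 2 := by
      refine norm_cfc_le (half_pos hε).le fun z hz => ?_
      obtain ⟨hz1, hz2⟩ := spec h j hz
      have h2 := (hα _ hz2).le
      have h4 : (∑ n ∈ Finset.range N, Polynomial.C (α n) * qq (n + 1)).eval z =
          ∑ n ∈ Finset.range N, α n *
            (((Polynomial.Chebyshev.U ℝ ((n : ℤ) + 1)).eval (z.re / 2) : ℝ) : ℂ) := by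
        rw [Polynomial.eval_finsetSum]
        refine Finset.sum_congr rfl fun n _ => ?_
        rw [Polynomial.eval_mul, Polynomial.eval_C, ← qq_eval, ← hz1]
      rw [← hz1] at h2
      rw [hfk, h4]
      exact h2
    have h3 := norm_eF W (P j)
    calc _ ≤ _ := norm_mul_le _ _
      _ ≤ ε / 2 * 1 := mul_le_mul h1 h3 (norm_nonneg _) (half_pos hε).le
      _ < ε := by linarith

/-- the powers of the letters -/
theorem letter_pow (ga : GApx) (h : FSys W B L P) (l : J × Bool) (k : ℕ) :
    (ltr (HH W L P) l) ^ (k + 1) ∈ CC W L P l.1 := by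
  obtain ⟨j, s⟩ := l
  have hn := SS_normal (L := L) j
  have hgc := gfun_continuous
  cases s
  · show (star (HH W L P j)) ^ (k + 1) ∈ CC W L P j
    rw [star_HH_eq h, pow_mul_p (W.eF_idem _) (starGG_comm_p h j)]
    have hc : Continuous (fun z => star (gfun z)) := by fun_prop
    have hc' : Continuous (fun z => star (gfun z) ^ (k + 1)) := by fun_prop
    unfold GG
    rw [← cfc_star, ← cfc_pow _ _ _ hc.continuousOn hn]
    refine cfc_mem ga h j _ hc' (-((k : ℤ) + 1)) (by omega) (fun z => ?_)
    rw [gfun_star, zpow_neg, inv_pow]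
    norm_cast
  · show (HH W L P j) ^ (k + 1) ∈ CC W L P j
    rw [HH_eq, pow_mul_p (W.eF_idem _) (GG_comm_p h j)]
    have hc' : Continuous (fun z => (gfun z) ^ (k + 1)) := by fun_prop
    unfold GG
    rw [← cfc_pow _ _ _ hgc.continuousOn hn]
    refine cfc_mem ga h j _ hc' ((k : ℤ) + 1) (by omega) (fun z => ?_)
    norm_cast

theorem star_mul_HH (h : FSys W B L P) (j : J) :
    star (HH W L P j) * HH W L P j = W.eF (P j) := by
  rw [star_HH_eq h, HH_eq, GG_comm_p h, mul_assoc, ← mul_assoc (W.eF (P j)), W.eF_idem,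
    ← GG_comm_p h, ← mul_assoc, GG_star_mul, one_mul]

theorem mul_star_HH (h : FSys W B L P) (j : J) :
    HH W L P j * star (HH W L P j) = W.eF (P j) := by
  rw [star_HH_eq h, HH_eq, starGG_comm_p h, mul_assoc, ← mul_assoc (W.eF (P j)), W.eF_idem,
    ← starGG_comm_p h, ← mul_assoc, GG_mul_star, one_mul]

/-- the letters are absorbed by the corner -/
theorem p_mul_ltr (h : FSys W B L P) (l : J × Bool) :
    W.eF (P l.1) * ltr (HH W L P) l = ltr (HH W L P) l := by
  obtain ⟨j, s⟩ := l
  cases s
  · show W.eF (P j) * star (HH W L P j) = star (HH W L P j)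
    rw [star_HH_eq h, starGG_comm_p h, ← mul_assoc, W.eF_idem]
  · show W.eF (P j) * HH W L P j = HH W L P j
    rw [HH_eq, GG_comm_p h, ← mul_assoc, W.eF_idem]

theorem rt_PP (P : J → Finset V) (l : J × Bool) : rt P P l = P l.1 := by
  unfold rt
  split_ifs <;> rfl

/-- the span of the alternating words starting with the colour `j` -/
def TT (W : WSys V F) (B : StarSubalgebra ℂ (Op F)) (L : J → Op F) (P : J → Finset V) (j : J) :
    Submodule ℂ (Op F) :=
  Submodule.span ℂ {X | ∃ g ∈ CC W L P j, ∃ c, AC W B L P j c ∧ X = g * c}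

theorem TT_step {j j' : J} {g b X : Op F} (hg : g ∈ CC W L P j) (hb : b ∈ B)
    (hcen : j' = j → W.φF (P j) b = 0) (hX : X ∈ TT W B L P j') :
    g * (b * X) ∈ TT W B L P j := by
  unfold TT at hX
  induction hX using Submodule.span_induction with
  | mem X hX =>
    obtain ⟨g', hg', c, hc, rfl⟩ := hX
    exact Submodule.subset_span ⟨g, hg, b * (g' * c), AC.step j j' b g' c hb hg' hcen hc, rfl⟩
  | zero => rw [mul_zero, mul_zero]; exact Submodule.zero_mem _
  | add X Y _ _ hX hY => rw [mul_add, mul_add]; exact Submodule.add_mem _ hX hY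
  | smul a X _ hX =>
    rw [mul_smul_comm, mul_smul_comm]; exact Submodule.smul_mem _ _ hX

theorem claim (ga : GApx) (h : FSys W B L P) {l : J × Bool} {c : Op F}
    (hc : Con (B : Set (Op F)) (ltr (HH W L P)) bar (fun l => W.φF (rt P P l)) l c) :
    ∀ k : ℕ, (ltr (HH W L P) l) ^ (k + 1) * c ∈ TT W B L P l.1 := by
  induction hc with
  | base l b hb =>
    intro k
    exact Submodule.subset_span ⟨_, letter_pow ga h l k, b, AC.base _ _ hb, rfl⟩
  | step l l' b c hb hcen hc ih =>
    intro k
    have hpow := letter_pow ga h l k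
    by_cases hj : l'.1 = l.1
    · by_cases hs : l' = l
      · subst hs
        -- split off the mean
        set p := W.eF (P l'.1) with hp
        set θ : ℂ := ((P l'.1).card : ℂ)⁻¹ * W.φF (P l'.1) b with hθ
        have hcen0 : W.φF (P l'.1) (b - θ • p) = 0 := by
          rw [map_sub, map_smul, hp, W.φF_eF, smul_eq_mul, hθ]
          have := card_ne h l'.1
          field_simp
          ring
        have hpB : p ∈ B := W.eF_mem h.mem_e _
        have e : (ltr (HH W L P) l') ^ (k + 1) * (b * ltr (HH W L P) l' * c) =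
            (ltr (HH W L P) l') ^ (k + 1) * ((b - θ • p) * ((ltr (HH W L P) l') ^ (0 + 1) * c)) +
            θ • ((ltr (HH W L P) l') ^ (k + 1 + 1) * c) := by
          have e1 : (ltr (HH W L P) l') ^ (k + 1 + 1) =
              (ltr (HH W L P) l') ^ (k + 1) * (p * ltr (HH W L P) l') := by
            rw [hp, p_mul_ltr h, pow_succ]
          rw [e1, zero_add, pow_one, sub_mul, mul_sub, smul_mul_assoc, mul_smul_comm]
          simp only [mul_assoc]
          abel
        rw [e]
        refine Submodule.add_mem _ ?_ (Submodule.smul_mem _ _ (ih (k + 1)))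
        exact TT_step hpow (B.sub_mem hb (B.smul_mem hpB θ)) (fun _ => hcen0) (ih 0)
      · have hbar : l' = bar l := by
          obtain ⟨j, s⟩ := l
          obtain ⟨j', s'⟩ := l'
          simp only at hj
          subst hj
          have hne : s' ≠ s := fun h => hs (by rw [h])
          cases s <;> cases s' <;> first | rfl | exact absurd rfl hne
        have h1 := hcen hbar
        simp only [rt_PP] at h1
        rw [mul_assoc]
        have h2 := ih 0
        rw [zero_add, pow_one] at h2
        exact TT_step hpow hb (fun _ => h1) h2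
    · rw [mul_assoc]
      have h2 := ih 0
      rw [zero_add, pow_one] at h2
      exact TT_step hpow hb (fun h' => absurd h' hj) h2

theorem TT_vac (h : FSys W B L P) {j : J} {b X : Op F} (hb : b ∈ B) (hX : X ∈ TT W B L P j)
    (x y : V) : ⟪W.ξ x, b (X (W.ξ y))⟫_ℂ = 0 := by
  unfold TT at hX
  induction hX using Submodule.span_induction with
  | mem X hX =>
    obtain ⟨g, hg, c, hc, rfl⟩ := hX
    exact lemma2 h hb hg hc x y
  | zero => simp
  | add X Y _ _ hX hY =>
    rw [add_apply, map_add, inner_add_right, hX, hY, add_zero]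
  | smul a X _ hX =>
    rw [smul_apply, map_smul, inner_smul_right, hX, mul_zero]

theorem fhs' (ga : GApx) (h : FSys W B L P) : FHS W B (HH W L P) P P where
  mem_e := h.mem_e
  neS := h.ne
  neT := h.ne
  iS := star_mul_HH h
  iT := mul_star_HH h
  van := by
    intro b hb l c hc x y
    have h1 := claim ga h hc 0
    rw [zero_add, pow_one] at h1
    exact TT_vac h hb h1 x y

end

end FockHaarX

/-- `FSys.fhs`, given `gfun_approx` (module GAPX) -/
theorem FSys.fhs_of_approx {V J F : Type} [NormedAddCommGroup F] [InnerProductSpace ℂ F]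
    [CompleteSpace F] {W : WSys V F} {B : StarSubalgebra ℂ (Op F)} {L : J → Op F}
    {P : J → Finset V}
    (ga : ∀ (k : ℤ) (_ : k ≠ 0) {ε : ℝ} (_ : 0 < ε),
      ∃ (N : ℕ) (α : ℕ → ℂ), ∀ x ∈ Set.Icc (-2 : ℝ) 2,
        ‖(gfun x) ^ k - ∑ n ∈ Finset.range N,
          α n * (((Polynomial.Chebyshev.U ℝ ((n : ℤ) + 1)).eval (x / 2) : ℝ) : ℂ)‖ < ε)
    (h : FSys W B L P) : FHS W B (HH W L P) P P :=
  FockHaarX.fhs' ga h

theorem HH_mem {V J F : Type} [NormedAddCommGroup F] [InnerProductSpace ℂ F] [CompleteSpace F]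
    {W : WSys V F} {B : StarSubalgebra ℂ (Op F)} {L : J → Op F} {P : J → Finset V}
    (_h : FSys W B L P) (j : J) : HH W L P j ∈ vNa {L j + star (L j), W.eF (P j)} := by
  rw [mem_vNa_iff]
  intro T hT
  have h1 := (hT (L j + star (L j)) (by simp)).1
  have h2 := (hT (W.eF (P j)) (by simp)).1
  have h3 := FockHaarX.GG_comm (L := L) j (T := T) h1
  rw [FockHaarX.HH_eq, mul_assoc, h2, ← mul_assoc, ← mul_assoc, h3]

/-- **Module FFHS.** A Fock system gives a Haar system. -/
theorem FSys.fhs {V J F : Type} [NormedAddCommGroup F] [InnerProductSpace ℂ F]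
    [CompleteSpace F] {W : WSys V F} {B : StarSubalgebra ℂ (Op F)} {L : J → Op F}
    {P : J → Finset V} (h : FSys W B L P) : FHS W B (HH W L P) P P :=
  FSys.fhs_of_approx gfun_approx h

end Pool.Agent.MP9a76ab
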