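import Pool.Agent.Lib.MP_9a76ab_an.Basic

/-! Block operators of creation operators: purity and generation. -/

set_option autoImplicit false

namespace Pool.Agent.MP9a76ab

open scoped InnerProductSpace

namespace FockLBX

section
variable {K2 F F2 : Type} [NormedAddCommGroup F] [InnerProductSpace ℂ F] [CompleteSpace F]
  [NormedAddCommGroup F2] [InnerProductSpace ℂ F2] [CompleteSpace F2]

/-- span of the creation words of order `n` -/
def Cr {ξ : K2 → F} (E : FockExt F K2 ξ F2) (n : ℕ) : Submodule ℂ F2 :=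
  Submodule.span ℂ {u | Crea E.π E.ι E.ℓ n u}

theorem π_Cr {ξ : K2 → F} (E : FockExt F K2 ξ F2) (b : Op F) (n : ℕ) {u : F2} (hu : u ∈ Cr E n) :
    E.π b u ∈ Cr E n := by
  unfold Cr at hu ⊢
  induction hu using Submodule.span_induction with
  | mem u hu =>
    cases hu with
    | base h =>
      rw [E.π_ι]
      exact Submodule.subset_span (Crea.base _)
    | step n k b' v hv =>
      have : E.π b (E.π b' (E.ℓ k v)) = E.π (b * b') (E.ℓ k v) := by
        rw [map_mul]; rfl
      rw [this]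
      exact Submodule.subset_span (Crea.step n k _ v hv)
  | zero => simp
  | add a b _ _ ha hb => rw [map_add]; exact add_mem ha hb
  | smul c a _ ha => rw [map_smul]; exact Submodule.smul_mem _ _ ha

/-- `T` lowers the order of creation words -/
def Low {ξ : K2 → F} (E : FockExt F K2 ξ F2) (T : Op F2) : Prop :=
  (∀ n, ∀ u ∈ Cr E (n + 1), T u ∈ Cr E n) ∧ ∀ u ∈ Cr E 0, T u = 0

theorem Low.add {ξ : K2 → F} {E : FockExt F K2 ξ F2} {T T' : Op F2} (h : Low E T) (h' : Low E T') :
    Low E (T + T') := by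
  refine ⟨fun n u hu => ?_, fun u hu => ?_⟩
  · exact add_mem (h.1 n u hu) (h'.1 n u hu)
  · change T u + T' u = 0
    rw [h.2 u hu, h'.2 u hu, add_zero]

theorem Low.smul {ξ : K2 → F} {E : FockExt F K2 ξ F2} {T : Op F2} (c : ℂ) (h : Low E T) :
    Low E (c • T) := by
  refine ⟨fun n u hu => ?_, fun u hu => ?_⟩
  · exact Submodule.smul_mem _ c (h.1 n u hu)
  · change c • T u = 0
    rw [h.2 u hu, smul_zero]

theorem Low.zero {ξ : K2 → F} {E : FockExt F K2 ξ F2} : Low E 0 := by
  refine ⟨fun n u _ => ?_, fun u _ => ?_⟩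
  · change (0 : F2) ∈ _
    exact zero_mem _
  · rfl

theorem Low.sum {ξ : K2 → F} {E : FockExt F K2 ξ F2} {I : Type} (s : Finset I) (f : I → Op F2)
    (h : ∀ i ∈ s, Low E (f i)) : Low E (∑ i ∈ s, f i) := by
  classical
  induction s using Finset.induction_on with
  | empty => simpa using Low.zero
  | insert a s ha ih =>
    rw [Finset.sum_insert ha]
    exact (h a (Finset.mem_insert_self _ _)).add
      (ih fun i hi => h i (Finset.mem_insert_of_mem hi))

theorem Low.mul_left {ξ : K2 → F} {E : FockExt F K2 ξ F2} {T : Op F2} (b : Op F) (h : Low E T) :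
    Low E (E.π b * T) := by
  refine ⟨fun n u hu => ?_, fun u hu => ?_⟩
  · exact π_Cr E b n (h.1 n u hu)
  · change E.π b (T u) = 0
    rw [h.2 u hu, map_zero]

theorem Low.star_ℓ {ξ : K2 → F} (E : FockExt F K2 ξ F2) (k : K2) : Low E (star (E.ℓ k)) := by
  classical
  refine ⟨fun n u hu => ?_, fun u hu => ?_⟩
  · unfold Cr at hu
    induction hu using Submodule.span_induction with
    | mem u hu =>
      cases hu with
      | step n k' b v hv =>
        by_cases hk : k = k'
        · subst hk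
          have := congrArg (fun A : Op F2 => A v) (E.rel k b)
          have h2 : star (E.ℓ k) (E.π b (E.ℓ k v)) = (⟪ξ k, b (ξ k)⟫_ℂ) • v := this
          rw [h2]
          exact Submodule.smul_mem _ _ (Submodule.subset_span hv)
        · have := congrArg (fun A : Op F2 => A v) (E.rel0 k k' b hk)
          have h2 : star (E.ℓ k) (E.π b (E.ℓ k' v)) = 0 := this
          rw [h2]
          exact zero_mem _
    | zero => simp
    | add a b _ _ ha hb => rw [map_add]; exact add_mem ha hb
    | smul c a _ ha => rw [map_smul]; exact Submodule.smul_mem _ _ ha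
  · unfold Cr at hu
    induction hu using Submodule.span_induction with
    | mem u hu =>
      cases hu with
      | base h =>
        have := E.vac k 1 h
        rwa [map_one] at this
    | zero => simp
    | add a b _ _ ha hb => rw [map_add, ha, hb, add_zero]
    | smul c a _ ha => rw [map_smul, ha, smul_zero]

theorem Low.mul_right {ξ : K2 → F} {E : FockExt F K2 ξ F2} {T : Op F2} (b : Op F) (h : Low E T) :
    Low E (T * E.π b) := by
  refine ⟨fun n u hu => ?_, fun u hu => ?_⟩
  · exact h.1 n _ (π_Cr E b _ hu)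
  · exact h.2 _ (π_Cr E b _ hu)

theorem Low.star_lhat {ξ : K2 → F} (E : FockExt F K2 ξ F2) {r : ℕ} (κ : Fin r × Fin r → K2)
    (i j : Fin r) : Low E (star (lhat E κ i j)) := by
  unfold lhat
  split_ifs
  · exact Low.star_ℓ E _
  · rw [star_smul, star_add, star_smul]
    exact ((Low.star_ℓ E _).add ((Low.star_ℓ E _).smul _)).smul _
  · rw [star_smul, star_sub, star_smul, sub_eq_add_neg, ← neg_smul]
    exact ((Low.star_ℓ E _).add ((Low.star_ℓ E _).smul _)).smul _

theorem Low.star_LB {V : Type} {ξ : K2 → F} (E : FockExt F K2 ξ F2) (v : V → Op F) {r : ℕ}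
    (z : Fin r → V) (κ : Fin r × Fin r → K2) : Low E (star (LB E v z κ)) := by
  unfold LB
  rw [star_smul, star_sum]
  refine Low.smul _ (Low.sum _ _ fun i _ => ?_)
  rw [star_sum]
  refine Low.sum _ _ fun j _ => ?_
  rw [StarMul.star_mul, StarMul.star_mul, ← map_star, ← map_star, star_star]
  exact ((Low.star_lhat E κ i j).mul_right _).mul_left _

theorem Low.pow_zero {ξ : K2 → F} {E : FockExt F K2 ξ F2} {T : Op F2} (h : Low E T) (n : ℕ) :
    ∀ u ∈ Cr E n, (T ^ (n + 1)) u = 0 := by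
  induction n with
  | zero =>
    intro u hu
    rw [zero_add, pow_one]
    exact h.2 u hu
  | succ n ih =>
    intro u hu
    have : (T ^ (n + 1 + 1)) u = (T ^ (n + 1)) (T u) := by
      rw [pow_succ]; rfl
    rw [this]
    exact ih _ (h.1 n u hu)

/-- the vectors killed by a power of an operator -/
def kerInf (T : Op F2) : Submodule ℂ F2 where
  carrier := {u : F2 | ∃ n, (T ^ n) u = 0}
  add_mem' := by
    rintro a b ⟨n, hn⟩ ⟨m, hm⟩
    refine ⟨n + m, ?_⟩
    have h1 : (T ^ (n + m)) a = (T ^ m) ((T ^ n) a) := by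
      rw [add_comm, pow_add]; rfl
    have h2 : (T ^ (n + m)) b = (T ^ n) ((T ^ m) b) := by
      rw [pow_add]; rfl
    rw [map_add, h1, h2, hn, hm, map_zero, map_zero, add_zero]
  zero_mem' := ⟨0, by simp⟩
  smul_mem' := by
    rintro c a ⟨n, hn⟩
    exact ⟨n, by rw [map_smul, hn, smul_zero]⟩

theorem Low.dense {ξ : K2 → F} {E : FockExt F K2 ξ F2} {T : Op F2} (h : Low E T) :
    Dense {u : F2 | ∃ n, (T ^ n) u = 0} := by
  have h1 : Submodule.span ℂ {v : F2 | ∃ n, Crea E.π E.ι E.ℓ n v} ≤ kerInf T := by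
    rw [Submodule.span_le]
    rintro u ⟨n, hn⟩
    exact ⟨n + 1, h.pow_zero n u (Submodule.subset_span hn)⟩
  have h2 : Dense ((Submodule.span ℂ {v : F2 | ∃ n, Crea E.π E.ι E.ℓ n v} : Submodule ℂ F2) :
      Set F2) := Submodule.dense_iff_topologicalClosure_eq_top.2 E.gen
  exact h2.mono h1

end

section
variable {V K2 F F2 : Type} [NormedAddCommGroup F] [InnerProductSpace ℂ F] [CompleteSpace F]
  [NormedAddCommGroup F2] [InnerProductSpace ℂ F2] [CompleteSpace F2]

theorem e_ℓ {W : WSys V F} {o : V} (E : FockExt F K2 (fun _ => W.ξ o) F2) (k : K2) :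
    E.π (W.e o) * E.ℓ k = E.ℓ k := by
  have h1 : star (E.π (1 - W.e o) * E.ℓ k) * (E.π (1 - W.e o) * E.ℓ k) = 0 := by
    have h2 : star (E.π (1 - W.e o) * E.ℓ k) * (E.π (1 - W.e o) * E.ℓ k) =
        star (E.ℓ k) * E.π (star (1 - W.e o) * (1 - W.e o)) * E.ℓ k := by
      rw [StarMul.star_mul, map_mul, map_star]
      simp only [mul_assoc]
    rw [h2, E.rel]
    have h3 : (star (1 - W.e o) * (1 - W.e o)) (W.ξ o) = 0 := by
      change (star (1 - W.e o)) ((1 - W.e o) (W.ξ o)) = 0
      have : (1 - W.e o) (W.ξ o) = 0 := by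
        change W.ξ o - W.e o (W.ξ o) = 0
        rw [W.eξ, sub_self]
      rw [this, map_zero]
    rw [h3, inner_zero_right, zero_smul]
  have h4 : E.π (1 - W.e o) * E.ℓ k = 0 := by
    have h5 : ‖E.π (1 - W.e o) * E.ℓ k‖ * ‖E.π (1 - W.e o) * E.ℓ k‖ = 0 := by
      rw [← CStarRing.norm_star_mul_self, h1, norm_zero]
    exact norm_eq_zero.1 (mul_self_eq_zero.1 h5)
  rw [map_sub, map_one, sub_mul, one_mul] at h4
  exact (sub_eq_zero.1 h4).symm

/-- the semicircular elements -/
noncomputable def sk (W : WSys V F) (o : V) (E : FockExt F K2 (fun _ => W.ξ o) F2) (k : K2) :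
    Op F2 :=
  E.ℓ k * E.π (W.e o) + star (E.ℓ k * E.π (W.e o))

theorem star_πe {W : WSys V F} {o : V} (E : FockExt F K2 (fun _ => W.ξ o) F2) :
    star (E.π (W.e o)) = E.π (W.e o) := by rw [← map_star, W.sa]

theorem πe_idem {W : WSys V F} {o : V} (E : FockExt F K2 (fun _ => W.ξ o) F2) :
    E.π (W.e o) * E.π (W.e o) = E.π (W.e o) := by rw [← map_mul, W.idem]

theorem star_ℓ_e {W : WSys V F} {o : V} (E : FockExt F K2 (fun _ => W.ξ o) F2) (k : K2) :
    star (E.ℓ k) * E.π (W.e o) = star (E.ℓ k) := by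
  have := congrArg star (e_ℓ E k)
  rwa [StarMul.star_mul, star_πe] at this

theorem sk_eq {W : WSys V F} {o : V} (E : FockExt F K2 (fun _ => W.ξ o) F2) (k : K2) :
    sk W o E k = E.ℓ k * E.π (W.e o) + E.π (W.e o) * star (E.ℓ k) := by
  unfold sk
  rw [StarMul.star_mul, star_πe]

theorem corner_sk {W : WSys V F} {o : V} (E : FockExt F K2 (fun _ => W.ξ o) F2) (k : K2) :
    E.π (W.e o) * sk W o E k * E.π (W.e o) = sk W o E k := by
  rw [sk_eq, mul_add, add_mul]
  congr 1
  · rw [← mul_assoc, e_ℓ, mul_assoc, πe_idem]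
  · rw [← mul_assoc, πe_idem, mul_assoc, star_ℓ_e]

/-- the entries of the block -/
noncomputable def bk (W : WSys V F) (o : V) (E : FockExt F K2 (fun _ => W.ξ o) F2) {r : ℕ}
    (κ : Fin r × Fin r → K2) (i j : Fin r) : Op F2 :=
  if i = j then sk W o E (κ (i, i))
  else if i < j then ((Real.sqrt 2 : ℝ) : ℂ)⁻¹ •
    (sk W o E (κ (i, j)) + Complex.I • sk W o E (κ (j, i)))
  else ((Real.sqrt 2 : ℝ) : ℂ)⁻¹ • (sk W o E (κ (j, i)) - Complex.I • sk W o E (κ (i, j)))

theorem corner_bk {W : WSys V F} {o : V} (E : FockExt F K2 (fun _ => W.ξ o) F2) {r : ℕ}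
    (κ : Fin r × Fin r → K2) (i j : Fin r) :
    E.π (W.e o) * bk W o E κ i j * E.π (W.e o) = bk W o E κ i j := by
  unfold bk
  split_ifs
  · exact corner_sk E _
  · rw [mul_smul_comm, smul_mul_assoc, mul_add, add_mul, mul_smul_comm, smul_mul_assoc,
      corner_sk, corner_sk]
  · rw [mul_smul_comm, smul_mul_assoc, mul_sub, sub_mul, mul_smul_comm, smul_mul_assoc,
      corner_sk, corner_sk]

theorem corner_ℓ {W : WSys V F} {o : V} (E : FockExt F K2 (fun _ => W.ξ o) F2) (k : K2) :
    E.π (W.e o) * E.ℓ k * E.π (W.e o) = E.ℓ k * E.π (W.e o) := by rw [e_ℓ]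

theorem corner_star_ℓ {W : WSys V F} {o : V} (E : FockExt F K2 (fun _ => W.ξ o) F2) (k : K2) :
    E.π (W.e o) * star (E.ℓ k) * E.π (W.e o) = E.π (W.e o) * star (E.ℓ k) := by
  rw [mul_assoc, star_ℓ_e]

theorem corner_lhat {W : WSys V F} {o : V} (E : FockExt F K2 (fun _ => W.ξ o) F2) {r : ℕ}
    (κ : Fin r × Fin r → K2) (i j : Fin r) :
    E.π (W.e o) * (lhat E κ i j + star (lhat E κ j i)) * E.π (W.e o) = bk W o E κ i j := by
  unfold lhat bk
  rcases lt_trichotomy i j with h | h | h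
  · rw [if_neg h.ne, if_pos h, if_neg h.ne, if_pos h, if_neg h.ne', if_neg (not_lt.2 h.le)]
    rw [star_smul, star_sub, star_smul]
    have h1 : star (((Real.sqrt 2 : ℝ) : ℂ)⁻¹) = ((Real.sqrt 2 : ℝ) : ℂ)⁻¹ := by simp
    have h2 : star Complex.I = -Complex.I := by simp
    rw [h1, h2, mul_add, add_mul, sk_eq, sk_eq]
    simp only [mul_smul_comm, smul_mul_assoc, mul_add, add_mul, mul_sub, sub_mul, corner_ℓ,
      corner_star_ℓ, smul_add, smul_sub, neg_smul, mul_neg, neg_mul, smul_neg, sub_neg_eq_add]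
    abel
  · subst h
    rw [if_pos rfl, if_pos rfl, mul_add, add_mul, corner_ℓ, corner_star_ℓ, sk_eq]
  · rw [if_neg h.ne', if_neg (not_lt.2 h.le), if_neg h.ne', if_neg (not_lt.2 h.le), if_neg h.ne,
      if_pos h]
    rw [star_smul, star_add, star_smul]
    have h1 : star (((Real.sqrt 2 : ℝ) : ℂ)⁻¹) = ((Real.sqrt 2 : ℝ) : ℂ)⁻¹ := by simp
    have h2 : star Complex.I = -Complex.I := by simp
    rw [h1, h2, mul_add, add_mul, sk_eq, sk_eq]
    simp only [mul_smul_comm, smul_mul_assoc, mul_add, add_mul, mul_sub, sub_mul, corner_ℓ,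
      corner_star_ℓ, smul_add, smul_sub, neg_smul, mul_neg, neg_mul, smul_neg, sub_neg_eq_add]
    abel

theorem v_e {W : WSys V F} {o : V} {v : V → Op F} (v1 : ∀ x, star (v x) * v x = W.e o) (x : V) :
    v x * W.e o = v x := mul_corner (v1 x) (W.idem o)

theorem e_star_v {W : WSys V F} {o : V} {v : V → Op F} (v1 : ∀ x, star (v x) * v x = W.e o)
    (x : V) : W.e o * star (v x) = star (v x) := by
  have := congrArg star (v_e v1 x)
  rwa [StarMul.star_mul, W.sa] at this

theorem star_v_v {W : WSys V F} {v : V → Op F}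
    (v2 : ∀ x, v x * star (v x) = W.e x) {x y : V} (h : x ≠ y) : star (v x) * v y = 0 := by
  have h1 : star (v x) * W.e x = star (v x) := by
    refine mul_corner ?_ (W.idem x)
    rw [star_star, v2]
  have h2 : W.e y * v y = v y := by
    have h3 : star (v y) * W.e y = star (v y) := by
      refine mul_corner ?_ (W.idem y)
      rw [star_star, v2]
    have := congrArg star h3
    rwa [StarMul.star_mul, W.sa, star_star] at this
  rw [← h1, ← h2, mul_assoc, ← mul_assoc (W.e x), W.orth x y h, zero_mul, mul_zero]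

theorem LB_add_star {W : WSys V F} {o : V} (E : FockExt F K2 (fun _ => W.ξ o) F2)
    (v : V → Op F) (v1 : ∀ x, star (v x) * v x = W.e o)
    {r : ℕ} (z : Fin r → V) (κ : Fin r × Fin r → K2) :
    LB E v z κ + star (LB E v z κ) = ((Real.sqrt r : ℝ) : ℂ)⁻¹ •
      ∑ i, ∑ j, E.π (v (z i)) * bk W o E κ i j * star (E.π (v (z j))) := by
  have h1 : star (LB E v z κ) = ((Real.sqrt r : ℝ) : ℂ)⁻¹ •
      ∑ i, ∑ j, E.π (v (z i)) * star (lhat E κ j i) * star (E.π (v (z j))) := by
    unfold LB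
    rw [star_smul]
    have h1 : star (((Real.sqrt r : ℝ) : ℂ)⁻¹) = ((Real.sqrt r : ℝ) : ℂ)⁻¹ := by simp
    rw [h1, star_sum]
    simp_rw [star_sum]
    rw [Finset.sum_comm]
    congr 1
    refine Finset.sum_congr rfl fun i _ => Finset.sum_congr rfl fun j _ => ?_
    rw [StarMul.star_mul, StarMul.star_mul, map_star, star_star, mul_assoc]
  rw [h1]
  unfold LB
  rw [← smul_add, ← Finset.sum_add_distrib]
  congr 1
  refine Finset.sum_congr rfl fun i _ => ?_
  rw [← Finset.sum_add_distrib]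
  refine Finset.sum_congr rfl fun j _ => ?_
  have h2 : E.π (v (z i)) = E.π (v (z i)) * E.π (W.e o) := by rw [← map_mul, v_e v1]
  have h3 : star (E.π (v (z j))) = E.π (W.e o) * star (E.π (v (z j))) := by
    rw [← map_star, ← map_mul, e_star_v v1]
  rw [map_star, ← add_mul, ← mul_add, ← corner_lhat]
  conv_lhs => rw [h2, h3]
  simp only [mul_assoc]

theorem corner_extract {W : WSys V F} {o : V} (E : FockExt F K2 (fun _ => W.ξ o) F2)
    (v : V → Op F) (v1 : ∀ x, star (v x) * v x = W.e o) (v2 : ∀ x, v x * star (v x) = W.e x)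
    {r : ℕ} (z : Fin r → V) (hz : Function.Injective z) (κ : Fin r × Fin r → K2) (i j : Fin r) :
    star (E.π (v (z i))) * (LB E v z κ + star (LB E v z κ)) * E.π (v (z j)) =
      ((Real.sqrt r : ℝ) : ℂ)⁻¹ • bk W o E κ i j := by
  rw [LB_add_star E v v1 z κ, mul_smul_comm, smul_mul_assoc]
  congr 1
  have hne : ∀ a b : Fin r, a ≠ b → star (E.π (v (z a))) * E.π (v (z b)) = 0 := by
    intro a b hab
    rw [← map_star, ← map_mul, star_v_v v2 (fun h => hab (hz h)), map_zero]
  have heq : ∀ a : Fin r, star (E.π (v (z a))) * E.π (v (z a)) = E.π (W.e o) := by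
    intro a
    rw [← map_star, ← map_mul, v1]
  rw [Finset.mul_sum, Finset.sum_mul, Finset.sum_eq_single i]
  · rw [Finset.mul_sum, Finset.sum_mul, Finset.sum_eq_single j]
    · have : star (E.π (v (z i))) * (E.π (v (z i)) * bk W o E κ i j * star (E.π (v (z j)))) *
          E.π (v (z j)) = (star (E.π (v (z i))) * E.π (v (z i))) * bk W o E κ i j *
          (star (E.π (v (z j))) * E.π (v (z j))) := by simp only [mul_assoc]
      rw [this, heq, heq, corner_bk]
    · intro b _ hb
      have : star (E.π (v (z i))) * (E.π (v (z i)) * bk W o E κ i b * star (E.π (v (z b)))) *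
          E.π (v (z j)) = (star (E.π (v (z i))) * E.π (v (z i))) * bk W o E κ i b *
          (star (E.π (v (z b))) * E.π (v (z j))) := by simp only [mul_assoc]
      rw [this, hne b j hb, mul_zero]
    · intro h
      exact absurd (Finset.mem_univ j) h
  · intro b _ hb
    rw [Finset.mul_sum, Finset.sum_mul]
    refine Finset.sum_eq_zero fun c _ => ?_
    have : star (E.π (v (z i))) * (E.π (v (z b)) * bk W o E κ b c * star (E.π (v (z c)))) *
        E.π (v (z j)) = (star (E.π (v (z i))) * E.π (v (z b))) * bk W o E κ b c *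
        (star (E.π (v (z c))) * E.π (v (z j))) := by simp only [mul_assoc]
    rw [this, hne i b (Ne.symm hb), zero_mul, zero_mul]
  · intro h
    exact absurd (Finset.mem_univ i) h

end

end FockLBX

section F
variable {V J K H F : Type} [NormedAddCommGroup H] [InnerProductSpace ℂ H] [CompleteSpace H]
  [NormedAddCommGroup F] [InnerProductSpace ℂ F] [CompleteSpace F]
variable {F2 K2 : Type} [NormedAddCommGroup F2] [InnerProductSpace ℂ F2] [CompleteSpace F2]

theorem LB_pure {W : WSys V F} {o : V} (E : FockExt F K2 (fun _ => W.ξ o) F2)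
    (v : V → Op F) {r : ℕ} (z : Fin r → V) (κ : Fin r × Fin r → K2) :
    Dense {u : F2 | ∃ n, ((star (LB E v z κ)) ^ n) u = 0} :=
  (FockLBX.Low.star_LB E v z κ).dense

theorem LB_gen1 {W : WSys V F} {o : V} (E : FockExt F K2 (fun _ => W.ξ o) F2)
    (v : V → Op F) (v1 : ∀ x, star (v x) * v x = W.e o) (v2 : ∀ x, v x * star (v x) = W.e x)
    {r : ℕ} (z : Fin r → V) (κ : Fin r × Fin r → K2) :
    LB E v z κ + star (LB E v z κ) ∈ vNa (Set.range (fun x => E.π (v x)) ∪
      Set.range (fun p => E.ℓ (κ p) * E.π (W.e o) + star (E.ℓ (κ p) * E.π (W.e o)))) := by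
  rw [FockLBX.LB_add_star E v v1 z κ]
  set S : Set (Op F2) := Set.range (fun x => E.π (v x)) ∪
      Set.range (fun p => E.ℓ (κ p) * E.π (W.e o) + star (E.ℓ (κ p) * E.π (W.e o))) with hS
  have hv : ∀ x, E.π (v x) ∈ vNa S := fun x => subset_vNa S (Or.inl ⟨x, rfl⟩)
  have hs : ∀ p, FockLBX.sk W o E (κ p) ∈ vNa S := fun p => subset_vNa S (Or.inr ⟨p, rfl⟩)
  have hb : ∀ i j, FockLBX.bk W o E κ i j ∈ vNa S := by
    intro i j
    unfold FockLBX.bk
    split_ifs
    · exact hs _
    · exact SMulMemClass.smul_mem _ (add_mem (hs _) (SMulMemClass.smul_mem _ (hs _)))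
    · exact SMulMemClass.smul_mem _ (sub_mem (hs _) (SMulMemClass.smul_mem _ (hs _)))
  refine SMulMemClass.smul_mem _ (sum_mem fun i _ => sum_mem fun j _ => ?_)
  exact mul_mem (mul_mem (hv _) (hb i j)) (star_mem (hv _))

theorem LB_gen2 {W : WSys V F} {o : V} (E : FockExt F K2 (fun _ => W.ξ o) F2)
    (v : V → Op F) (v1 : ∀ x, star (v x) * v x = W.e o) (v2 : ∀ x, v x * star (v x) = W.e x)
    {r : ℕ} (hr : 0 < r) (z : Fin r → V) (hz : Function.Injective z) (κ : Fin r × Fin r → K2)
    (p : Fin r × Fin r) :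
    E.ℓ (κ p) * E.π (W.e o) + star (E.ℓ (κ p) * E.π (W.e o)) ∈
      vNa (Set.range (fun x => E.π (v x)) ∪ {LB E v z κ + star (LB E v z κ)}) := by
  set S : Set (Op F2) := Set.range (fun x => E.π (v x)) ∪ {LB E v z κ + star (LB E v z κ)} with hS
  have hv : ∀ x, E.π (v x) ∈ vNa S := fun x => subset_vNa S (Or.inl ⟨x, rfl⟩)
  have hL : LB E v z κ + star (LB E v z κ) ∈ vNa S := subset_vNa S (Or.inr rfl)
  have hr0 : ((Real.sqrt r : ℝ) : ℂ) ≠ 0 := by
    have : (0 : ℝ) < Real.sqrt r := Real.sqrt_pos.2 (by exact_mod_cast hr)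
    exact_mod_cast this.ne'
  have h20 : ((Real.sqrt 2 : ℝ) : ℂ) ≠ 0 := by
    have : (0 : ℝ) < Real.sqrt 2 := Real.sqrt_pos.2 (by norm_num)
    exact_mod_cast this.ne'
  have hb : ∀ i j, FockLBX.bk W o E κ i j ∈ vNa S := by
    intro i j
    have h1 := FockLBX.corner_extract E v v1 v2 z hz κ i j
    have h2 : FockLBX.bk W o E κ i j = ((Real.sqrt r : ℝ) : ℂ) •
        (star (E.π (v (z i))) * (LB E v z κ + star (LB E v z κ)) * E.π (v (z j))) := by
      rw [h1, smul_smul, mul_inv_cancel₀ hr0, one_smul]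
    rw [h2]
    exact SMulMemClass.smul_mem _ (mul_mem (mul_mem (star_mem (hv _)) hL) (hv _))
  have key : ∀ i j : Fin r, i < j → FockLBX.sk W o E (κ (i, j)) ∈ vNa S ∧
      FockLBX.sk W o E (κ (j, i)) ∈ vNa S := by
    intro i j hij
    have e1 : FockLBX.bk W o E κ i j = ((Real.sqrt 2 : ℝ) : ℂ)⁻¹ •
        (FockLBX.sk W o E (κ (i, j)) + Complex.I • FockLBX.sk W o E (κ (j, i))) := by
      unfold FockLBX.bk
      rw [if_neg hij.ne, if_pos hij]
    have e2 : FockLBX.bk W o E κ j i = ((Real.sqrt 2 : ℝ) : ℂ)⁻¹ •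
        (FockLBX.sk W o E (κ (i, j)) - Complex.I • FockLBX.sk W o E (κ (j, i))) := by
      unfold FockLBX.bk
      rw [if_neg hij.ne', if_neg (not_lt.2 hij.le)]
    constructor
    · have : FockLBX.sk W o E (κ (i, j)) = (((Real.sqrt 2 : ℝ) : ℂ) / 2) •
          (FockLBX.bk W o E κ i j + FockLBX.bk W o E κ j i) := by
        rw [e1, e2, ← smul_add, smul_smul, add_add_sub_cancel, ← two_smul ℂ, smul_smul]
        have : ((Real.sqrt 2 : ℝ) : ℂ) / 2 * ((Real.sqrt 2 : ℝ) : ℂ)⁻¹ * 2 = 1 := by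
          field_simp
        rw [this, one_smul]
      rw [this]
      exact SMulMemClass.smul_mem _ (add_mem (hb _ _) (hb _ _))
    · have : FockLBX.sk W o E (κ (j, i)) = (((Real.sqrt 2 : ℝ) : ℂ) / (2 * Complex.I)) •
          (FockLBX.bk W o E κ i j - FockLBX.bk W o E κ j i) := by
        rw [e1, e2, ← smul_sub, smul_smul, add_sub_sub_cancel, ← two_smul ℂ, smul_smul, smul_smul]
        have : ((Real.sqrt 2 : ℝ) : ℂ) / (2 * Complex.I) * ((Real.sqrt 2 : ℝ) : ℂ)⁻¹ * 2 *
            Complex.I = 1 := by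
          field_simp
        rw [this, one_smul]
      rw [this]
      exact SMulMemClass.smul_mem _ (sub_mem (hb _ _) (hb _ _))
  obtain ⟨i, j⟩ := p
  rcases lt_trichotomy i j with h | h | h
  · exact (key i j h).1
  · subst h
    have e1 : FockLBX.bk W o E κ i i = FockLBX.sk W o E (κ (i, i)) := by
      unfold FockLBX.bk
      rw [if_pos rfl]
    have := hb i i
    rw [e1] at this
    exact this
  · exact (key j i h).2

end F

end Pool.Agent.MP9a76ab
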