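import Pool.Agent.Lib.MP_9a76ab_an.Defs2

/-!
# MP_9a76ab_an module IRR: irreducibility of the node algebras
-/

set_option autoImplicit false

namespace Pool.Agent.MP9a76ab

open scoped InnerProductSpace

namespace ModAX

section proj
variable {H : Type} [NormedAddCommGroup H] [InnerProductSpace ℂ H] [CompleteSpace H]

/-- the projection onto a subspace invariant under `T` and `T*` commutes with `T` -/
theorem comm_of_inv (Z : Submodule ℂ H) [CompleteSpace Z] (T : Op H)
    (h1 : ∀ v ∈ Z, T v ∈ Z) (h2 : ∀ v ∈ Z, star T v ∈ Z) :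
    T * Z.starProjection = Z.starProjection * T := by
  have key : ∀ T : Op H, (∀ v ∈ Z, T v ∈ Z) →
      Z.starProjection * T * Z.starProjection = T * Z.starProjection := by
    intro T hT
    ext v
    show Z.starProjection (T (Z.starProjection v)) = T (Z.starProjection v)
    exact Submodule.starProjection_eq_self_iff.2 (hT _ (Submodule.starProjection_apply_mem _ _))
  have hs : star (Z.starProjection : Op H) = Z.starProjection := by
    have := isSelfAdjoint_starProjection Z
    exact this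
  have k1 := key T h1
  have k2 := congrArg star (key (star T) h2)
  rw [star_mul, star_mul, star_mul, star_star, hs] at k2
  rw [← k1, mul_assoc]
  exact k2

end proj

section mdl
variable {m N : ℕ} {G : HG m N} {H : Type} [NormedAddCommGroup H] [InnerProductSpace ℂ H]
  [CompleteSpace H] (D : Mdl G H)

theorem e_mem_A (x : G.V) : D.W.e x ∈ D.A := subset_vNa _ (Or.inl ⟨x, rfl⟩)

theorem t_mem_A : D.t ∈ D.A := subset_vNa _ (Or.inr rfl)

theorem e_mem_R (x : G.V) : D.W.e x ∈ D.R := subset_vNa _ (Or.inl (Or.inl ⟨x, rfl⟩))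

theorem q_mem_R (x : G.V) : D.q x ∈ D.R := subset_vNa _ (Or.inl (Or.inr ⟨x, rfl⟩))

theorem hom_e (x : G.V) : D.Hom 0 (D.W.e x) := fun j => by rw [add_zero]; exact D.P_e j x

theorem P_ts (j : ℤ) : D.P j * star D.t = star D.t * D.P (j + 1) := by
  have h := congrArg star (D.P_t j)
  rw [star_mul, star_mul, D.P_sa, D.P_sa] at h
  exact h.symm

theorem hom_q (x : G.V) : D.Hom 0 (D.q x) := fun j => by
  rw [add_zero]
  unfold Mdl.q
  calc D.P j * (star D.t * D.W.e x * D.t) = (D.P j * star D.t) * D.W.e x * D.t := by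
        simp only [mul_assoc]
    _ = star D.t * (D.P (j + 1) * D.W.e x) * D.t := by rw [P_ts]; simp only [mul_assoc]
    _ = star D.t * D.W.e x * (D.P (j + 1) * D.t) := by rw [D.P_e]; simp only [mul_assoc]
    _ = star D.t * D.W.e x * D.t * D.P j := by rw [D.P_t]; simp only [mul_assoc]

/-- the homogeneous elements of degree `0` of `R` -/
def R0 : StarSubalgebra ℂ (Op H) where
  carrier := {Y | Y ∈ D.R ∧ D.Hom 0 Y}
  mul_mem' := by
    rintro X Y ⟨hX, hX'⟩ ⟨hY, hY'⟩
    refine ⟨mul_mem hX hY, fun j => ?_⟩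
    rw [← mul_assoc, hX' j, mul_assoc, mul_assoc]
    have := hY' j
    rw [add_zero] at this
    rw [this]
  add_mem' := by
    rintro X Y ⟨hX, hX'⟩ ⟨hY, hY'⟩
    refine ⟨add_mem hX hY, fun j => ?_⟩
    rw [mul_add, add_mul, hX' j, hY' j]
  algebraMap_mem' := by
    intro r
    refine ⟨D.R.algebraMap_mem r, fun j => ?_⟩
    rw [add_zero]
    exact (Algebra.commutes r _).symm
  star_mem' := by
    rintro X ⟨hX, hX'⟩
    refine ⟨star_mem hX, fun j => ?_⟩
    have h := congrArg star (hX' j)
    rw [add_zero, star_mul, star_mul, D.P_sa] at h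
    rw [add_zero]
    exact h.symm

theorem mem_R0 {Y : Op H} : Y ∈ R0 D ↔ Y ∈ D.R ∧ D.Hom 0 Y := Iff.rfl

end mdl

end ModAX

open ModAX

section E
variable {m N : ℕ} {G : HG m N} {H : Type} [NormedAddCommGroup H] [InnerProductSpace ℂ H]
  [CompleteSpace H] (D : Mdl G H)

theorem Mdl.R_le_A : D.R ≤ D.A := by
  refine vNa_le ?_
  rintro s ((⟨x, rfl⟩ | ⟨x, rfl⟩) | ⟨x, -, rfl⟩)
  · exact e_mem_A D x
  · exact mul_mem (mul_mem (star_mem (t_mem_A D)) (e_mem_A D x)) (t_mem_A D)
  · exact mul_mem (star_mem (t_mem_A D)) (e_mem_A D x)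

theorem Mdl.node_irred (χ : G.K) {A B : Op H} (hA : A ∈ D.A) (hB : B ∈ D.A)
    (hA' : D.W.eF (G.S χ) * A = A) (hB' : B * D.W.eF (G.S χ) = B) (hA0 : A ≠ 0) (hB0 : B ≠ 0) :
    ∃ Y ∈ D.R, D.Hom 0 Y ∧ B * Y * A ≠ 0 := by
  by_contra hcon
  push Not at hcon
  set e := D.W.eF (G.S χ) with he
  let Z0 : Submodule ℂ H := Submodule.span ℂ {v | ∃ Y ∈ R0 D, ∃ w : H, v = Y (A w)}
  let Z : Submodule ℂ H := Z0.topologicalClosure
  have hZc : IsClosed (Z : Set H) := Submodule.isClosed_topologicalClosure _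
  have : CompleteSpace Z := hZc.completeSpace_coe
  have hle : Z0 ≤ Z := Submodule.le_topologicalClosure _
  -- an operator which maps the generators into Z maps Z into Z
  have hinv : ∀ T : Op H, (∀ Y ∈ R0 D, ∀ w : H, T (Y (A w)) ∈ Z) → ∀ v ∈ Z, T v ∈ Z := by
    intro T hT v hv
    have h1 : Z0 ≤ Z.comap (T : H →ₗ[ℂ] H) := by
      refine Submodule.span_le.2 ?_
      rintro v ⟨Y, hY, w, rfl⟩
      exact hT Y hY w
    have h2 : IsClosed ((Z.comap (T : H →ₗ[ℂ] H) : Submodule ℂ H) : Set H) :=
      hZc.preimage T.continuous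
    exact Submodule.topologicalClosure_minimal _ h1 h2 hv
  let z : Op H := Z.starProjection
  have hz0 : ∀ Y ∈ R0 D, Y * z = z * Y := by
    intro Y hY
    refine comm_of_inv Z Y ?_ ?_
    · refine hinv Y fun Y' hY' w => hle (Submodule.subset_span ⟨Y * Y', mul_mem hY hY', w, rfl⟩)
    · refine hinv (star Y) fun Y' hY' w =>
        hle (Submodule.subset_span ⟨star Y * Y', mul_mem (star_mem hY) hY', w, rfl⟩)
  have hR0A : ∀ Y ∈ R0 D, Y ∈ D.A := fun Y hY => D.R_le_A hY.1
  have hzA : z ∈ D.A := by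
    unfold Mdl.A
    rw [mem_vNa_iff]
    intro T hT
    have hTs : ∀ s ∈ Set.range D.W.e ∪ {D.t}, s * star T = star T * s ∧
        star s * star T = star T * star s := by
      intro s hs
      have h3 := hT s hs
      constructor
      · have := congrArg star h3.2; simpa using this.symm
      · have := congrArg star h3.1; simpa using this.symm
    have comm : ∀ T : Op H, (∀ s ∈ Set.range D.W.e ∪ {D.t}, s * T = T * s ∧
        star s * T = T * star s) → ∀ v ∈ Z, T v ∈ Z := by
      intro T hT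
      refine hinv T fun Y hY w => ?_
      have h1 : T * Y = Y * T := vNa_commute (hR0A Y hY) hT
      have h2 : T * A = A * T := vNa_commute hA hT
      have h3 : T (Y (A w)) = Y (A (T w)) := by
        have e1 : T (Y (A w)) = (T * Y) (A w) := rfl
        have e2 : Y (T (A w)) = Y ((T * A) w) := rfl
        rw [e1, h1]
        show Y (T (A w)) = _
        rw [e2, h2]
        rfl
      rw [h3]
      exact hle (Submodule.subset_span ⟨Y, hY, T w, rfl⟩)
    exact comm_of_inv Z T (comm T hT) (comm (star T) hTs)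
  have heR : ∀ x, D.W.e x ∈ R0 D := fun x => ⟨e_mem_R D x, hom_e D x⟩
  have hqR : ∀ x, D.q x ∈ R0 D := fun x => ⟨q_mem_R D x, hom_q D x⟩
  have heR0 : e ∈ R0 D := D.W.eF_mem heR _
  have hee : e * e = e := D.W.eF_idem _
  have hze : e * z = z * e := hz0 e heR0
  have hX : z * e ∈ D.A := mul_mem hzA (hR0A e heR0)
  obtain ⟨c, hc⟩ := D.node χ (z * e) hX
    (by rw [← he, ← mul_assoc, hze, mul_assoc, hee])
    (by rw [← he, mul_assoc, hee])
    (by
      intro x hx
      have h1 : D.W.e x * e = D.W.e x := D.W.e_mul_eF_mem hx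
      have h2 : e * D.W.e x = D.W.e x := D.W.eF_mul_e_mem hx
      rw [← mul_assoc, hz0 _ (heR x), mul_assoc, h1, mul_assoc, h2])
    (by
      intro y hy
      have h1 : star D.t * D.W.e y * D.t * e = star D.t * D.W.e y * D.t := by
        rw [mul_assoc, he, D.te χ, ← mul_assoc, mul_assoc (star D.t), D.W.e_mul_eF_mem hy]
      have h2 : e * (star D.t * D.W.e y * D.t) = star D.t * D.W.e y * D.t := by
        have h3 : e * star D.t = star D.t * D.W.eF (G.T χ) := by
          have := congrArg star (D.te χ)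
          rw [star_mul, star_mul, D.W.eF_sa, D.W.eF_sa] at this
          rw [he]
          exact this
        rw [← mul_assoc, ← mul_assoc, h3, mul_assoc (star D.t), D.W.eF_mul_e_mem hy]
      have h4 : (star D.t * D.W.e y * D.t) * z = z * (star D.t * D.W.e y * D.t) := hz0 _ (hqR y)
      generalize star D.t * D.W.e y * D.t = Q at h1 h2 h4 ⊢
      calc Q * (z * e) = (Q * z) * e := (mul_assoc _ _ _).symm
        _ = z * (Q * e) := by rw [h4, mul_assoc]
        _ = z * (e * Q) := by rw [h1, h2]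
        _ = (z * e) * Q := (mul_assoc _ _ _).symm)
  -- c = 1
  have hzA1 : z * A = A := by
    ext v
    show Z.starProjection (A v) = A v
    refine Submodule.starProjection_eq_self_iff.2 (hle (Submodule.subset_span ⟨1, one_mem _, v, ?_⟩))
    rfl
  have hc1 : c = 1 := by
    have h1 : z * e * A = c • A := by rw [hc, smul_mul_assoc, ← he, hA']
    rw [mul_assoc, hA', hzA1] at h1
    have h2 : (c - 1) • A = 0 := by rw [sub_smul, one_smul, ← h1, sub_self]
    rcases smul_eq_zero.1 h2 with h3 | h3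
    · exact sub_eq_zero.1 h3
    · exact absurd h3 hA0
  rw [hc1, one_smul, ← he] at hc
  -- B z = 0
  have hBz : B * z = 0 := by
    have h1 : Z0 ≤ LinearMap.ker (B : H →ₗ[ℂ] H) := by
      refine Submodule.span_le.2 ?_
      rintro v ⟨Y, hY, w, rfl⟩
      have h2 := hcon Y hY.1 hY.2
      have h3 := congrArg (fun T : Op H => T w) h2
      exact h3
    have h2 : Z ≤ LinearMap.ker (B : H →ₗ[ℂ] H) :=
      Submodule.topologicalClosure_minimal _ h1 (isClosed_singleton.preimage B.continuous)
    ext v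
    exact h2 (Submodule.starProjection_apply_mem _ _)
  apply hB0
  rw [← hB', ← hc, ← mul_assoc, hBz, zero_mul]

end E

end Pool.Agent.MP9a76ab
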