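import Pool.Agent.Lib.MP_9a76ab_an.Defs2
import Pool.Agent.Lib.MP_9a76ab_an.ModA

/-! Irreducibility across nodes in every degree (MP_9a76ab_an). -/

set_option autoImplicit false

namespace Pool.Agent.MP9a76ab

open scoped InnerProductSpace

namespace ModBX

section
variable {m N : ℕ} {G : HG m N} {H : Type} [NormedAddCommGroup H] [InnerProductSpace ℂ H]
  [CompleteSpace H] (D : Mdl G H)

/-- the statement to be proved, as a relation between nodes -/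
def Rel (χ χ' : G.K) (d : ℤ) : Prop :=
  ∀ A B : Op H, A ∈ D.A → B ∈ D.A → D.W.eF (G.S χ) * A = A → B * D.W.eF (G.S χ') = B →
    A ≠ 0 → B ≠ 0 → ∃ Y ∈ D.R, D.Hom d Y ∧ B * Y * A ≠ 0

theorem e_mem_R (x : G.V) : D.W.e x ∈ D.R :=
  subset_vNa _ (Or.inl (Or.inl ⟨x, rfl⟩))

theorem g_mem_R {x : G.V} (hx : x ∉ G.C) : D.g x ∈ D.R :=
  subset_vNa _ (Or.inr ⟨x, hx, rfl⟩)

theorem star_g (x : G.V) : star (D.g x) = D.W.e x * D.t := by
  unfold Mdl.g
  rw [star_mul, star_star, D.W.sa]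

theorem sg_mem_R {x : G.V} (hx : x ∉ G.C) : D.W.e x * D.t ∈ D.R := by
  rw [← star_g]
  exact star_mem (g_mem_R D hx)

theorem eF_mem_R (F : Finset G.V) : D.W.eF F ∈ D.R := D.W.eF_mem (e_mem_R D) F

theorem e_mem_A (x : G.V) : D.W.e x ∈ D.A := D.R_le_A (e_mem_R D x)

theorem t_mem_A : D.t ∈ D.A := subset_vNa _ (Or.inr rfl)

theorem q_mem_A (x : G.V) : D.q x ∈ D.A :=
  mul_mem (mul_mem (star_mem (t_mem_A D)) (e_mem_A D x)) (t_mem_A D)

theorem e_ne (x : G.V) : D.W.e x ≠ 0 := by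
  intro h
  have h1 := D.W.eξ x
  rw [h] at h1
  have h2 := D.W.norm_ξ x
  rw [← h1] at h2
  simp at h2

theorem S_ne (χ : G.K) : (G.S χ).Nonempty := by
  have h1 : 0 < (G.S (G.s G.o)).card :=
    Finset.card_pos.2 ⟨G.o, (G.mem_S _ _).2 rfl⟩
  rw [G.card_S] at h1
  rw [← Finset.card_pos, G.card_S]
  exact h1

theorem eF_ne (χ : G.K) : D.W.eF (G.S χ) ≠ 0 := by
  obtain ⟨x, hx⟩ := S_ne χ
  intro h
  have h1 := D.W.e_mul_eF_mem hx
  rw [h, mul_zero] at h1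
  exact e_ne D x h1.symm

theorem mem_Ss (x : G.V) : x ∈ G.S (G.s x) := (G.mem_S _ _).2 rfl

theorem mem_Tr (x : G.V) : x ∈ G.T (G.r x) := (G.mem_T _ _).2 rfl

theorem ts_eF (χ : G.K) : D.W.eF (G.S χ) * star D.t = star D.t * D.W.eF (G.T χ) := by
  have h := D.te χ
  calc D.W.eF (G.S χ) * star D.t = star D.t * D.t * (D.W.eF (G.S χ)) * star D.t := by
        rw [D.t1, one_mul]
    _ = star D.t * (D.t * D.W.eF (G.S χ)) * star D.t := by simp only [mul_assoc]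
    _ = star D.t * (D.W.eF (G.T χ) * D.t) * star D.t := by rw [h]
    _ = star D.t * D.W.eF (G.T χ) * (D.t * star D.t) := by simp only [mul_assoc]
    _ = star D.t * D.W.eF (G.T χ) := by rw [D.t2, mul_one]

theorem P_ts (j : ℤ) : D.P j * star D.t = star D.t * D.P (j + 1) := by
  have h := congrArg star (D.P_t j)
  rw [star_mul, star_mul, D.P_sa, D.P_sa] at h
  exact h.symm

theorem hom_e (x : G.V) : D.Hom 0 (D.W.e x) := fun j => by rw [add_zero]; exact D.P_e j x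

theorem hom_eF (F : Finset G.V) : D.Hom 0 (D.W.eF F) := fun j => by
  rw [add_zero, WSys.eF, Finset.mul_sum, Finset.sum_mul]
  exact Finset.sum_congr rfl fun x _ => D.P_e j x

theorem hom_mul {d d' : ℤ} {X Y : Op H} (hX : D.Hom d X) (hY : D.Hom d' Y) :
    D.Hom (d' + d) (X * Y) := fun j => by
  rw [← mul_assoc, ← add_assoc, hX (j + d'), mul_assoc, hY j, mul_assoc]

theorem hom_g (x : G.V) : D.Hom (-1) (D.g x) := fun j => by
  unfold Mdl.g
  rw [← mul_assoc, P_ts, mul_assoc, D.P_e, mul_assoc]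
  congr 3
  ring

theorem hom_sg (x : G.V) : D.Hom 1 (D.W.e x * D.t) := fun j => by
  rw [← mul_assoc, D.P_e, mul_assoc, D.P_t, mul_assoc]

theorem rel_refl (χ : G.K) : Rel D χ χ 0 := fun _ _ hA hB hA' hB' hA0 hB0 =>
  D.node_irred χ hA hB hA' hB' hA0 hB0

theorem rel_trans {χ χ' χ'' : G.K} {d d' : ℤ} (h : Rel D χ χ' d) (h' : Rel D χ' χ'' d') :
    Rel D χ χ'' (d + d') := by
  intro A B hA hB hA' hB' hA0 hB0
  have heA : D.W.eF (G.S χ') ∈ D.A := D.R_le_A (eF_mem_R D _)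
  obtain ⟨Y1, hY1, hh1, hn1⟩ := h A (D.W.eF (G.S χ')) hA heA hA' (D.W.eF_idem _) hA0 (eF_ne D χ')
  obtain ⟨Y2, hY2, hh2, hn2⟩ := h' (D.W.eF (G.S χ') * Y1 * A) B
    (mul_mem (mul_mem heA (D.R_le_A hY1)) hA) hB
    (by rw [← mul_assoc, ← mul_assoc, D.W.eF_idem]) hB' hn1 hB0
  refine ⟨Y2 * D.W.eF (G.S χ') * Y1, mul_mem (mul_mem hY2 (eF_mem_R D _)) hY1, ?_, ?_⟩
  · have := hom_mul D (hom_mul D hh2 (hom_eF D (G.S χ'))) hh1
    rwa [zero_add] at this
  · have e : B * (Y2 * D.W.eF (G.S χ') * Y1) * A = B * Y2 * (D.W.eF (G.S χ') * Y1 * A) := by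
      simp only [mul_assoc]
    rw [e]
    exact hn2

theorem rel_edge {x : G.V} (hx : x ∉ G.C) : Rel D (G.s x) (G.r x) (-1) := by
  intro A B hA hB hA' hB' hA0 hB0
  obtain ⟨Y1, hY1, hh1, hn1⟩ := D.node_irred (G.s x) hA (e_mem_A D x) hA'
    (D.W.e_mul_eF_mem (mem_Ss x)) hA0 (e_ne D x)
  have hA2 : D.g x * Y1 * A ∈ D.A :=
    mul_mem (mul_mem (D.R_le_A (g_mem_R D hx)) (D.R_le_A hY1)) hA
  have hn : D.g x * Y1 * A ≠ 0 := by
    intro h0
    apply hn1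
    have e : D.W.e x * Y1 * A = D.t * (D.g x * Y1 * A) := by
      unfold Mdl.g
      calc D.W.e x * Y1 * A = (D.t * star D.t) * (D.W.e x * Y1 * A) := by rw [D.t2, one_mul]
        _ = D.t * (star D.t * D.W.e x * Y1 * A) := by simp only [mul_assoc]
    rw [e, h0, mul_zero]
  have he : D.W.eF (G.S (G.r x)) * (D.g x * Y1 * A) = D.g x * Y1 * A := by
    have e : D.W.eF (G.S (G.r x)) * D.g x = D.g x := by
      unfold Mdl.g
      rw [← mul_assoc, ts_eF, mul_assoc, D.W.eF_mul_e_mem (mem_Tr x)]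
    rw [← mul_assoc, ← mul_assoc, e]
  obtain ⟨Y2, hY2, hh2, hn2⟩ := D.node_irred (G.r x) hA2 hB he hB' hn hB0
  refine ⟨Y2 * D.g x * Y1, mul_mem (mul_mem hY2 (g_mem_R D hx)) hY1, ?_, ?_⟩
  · have := hom_mul D (hom_mul D hh2 (hom_g D x)) hh1
    simpa using this
  · have e : B * (Y2 * D.g x * Y1) * A = B * Y2 * (D.g x * Y1 * A) := by
      simp only [mul_assoc]
    rw [e]
    exact hn2

theorem rel_edge' {x : G.V} (hx : x ∉ G.C) : Rel D (G.r x) (G.s x) 1 := by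
  intro A B hA hB hA' hB' hA0 hB0
  have hq : D.q x * D.W.eF (G.S (G.r x)) = D.q x := by
    unfold Mdl.q
    rw [mul_assoc, D.te, ← mul_assoc, mul_assoc (star D.t), D.W.e_mul_eF_mem (mem_Tr x)]
  have hq0 : D.q x ≠ 0 := by
    intro h0
    apply e_ne D x
    have e : D.W.e x = D.t * D.q x * star D.t := by
      unfold Mdl.q
      calc D.W.e x = (D.t * star D.t) * D.W.e x * (D.t * star D.t) := by
            rw [D.t2, one_mul, mul_one]
        _ = D.t * (star D.t * D.W.e x * D.t) * star D.t := by simp only [mul_assoc]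
    rw [e, h0, mul_zero, zero_mul]
  obtain ⟨Y1, hY1, hh1, hn1⟩ := D.node_irred (G.r x) hA (q_mem_A D x) hA' hq hA0 hq0
  have hA2 : D.W.e x * D.t * Y1 * A ∈ D.A :=
    mul_mem (mul_mem (D.R_le_A (sg_mem_R D hx)) (D.R_le_A hY1)) hA
  have hn : D.W.e x * D.t * Y1 * A ≠ 0 := by
    intro h0
    apply hn1
    have e : D.q x * Y1 * A = star D.t * (D.W.e x * D.t * Y1 * A) := by
      unfold Mdl.q
      simp only [mul_assoc]
    rw [e, h0, mul_zero]
  have he : D.W.eF (G.S (G.s x)) * (D.W.e x * D.t * Y1 * A) = D.W.e x * D.t * Y1 * A := by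
    rw [← mul_assoc, ← mul_assoc, ← mul_assoc, D.W.eF_mul_e_mem (mem_Ss x)]
  obtain ⟨Y2, hY2, hh2, hn2⟩ := D.node_irred (G.s x) hA2 hB he hB' hn hB0
  refine ⟨Y2 * (D.W.e x * D.t) * Y1, mul_mem (mul_mem hY2 (sg_mem_R D hx)) hY1, ?_, ?_⟩
  · have := hom_mul D (hom_mul D hh2 (hom_sg D x)) hh1
    simpa using this
  · have e : B * (Y2 * (D.W.e x * D.t) * Y1) * A = B * Y2 * (D.W.e x * D.t * Y1 * A) := by
      simp only [mul_assoc]
    rw [e]
    exact hn2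

theorem rel_loop (d : ℤ) : Rel D (G.s G.o) (G.s G.o) d := by
  have h1 : Rel D (G.s G.o) (G.s G.o) (-1) := by
    have := rel_edge D G.oC
    rwa [← G.so] at this
  have h2 : Rel D (G.s G.o) (G.s G.o) 1 := by
    have := rel_edge' D G.oC
    rwa [← G.so] at this
  induction d with
  | zero => exact rel_refl D _
  | succ i ih => exact rel_trans D ih h2
  | pred i ih => exact rel_trans D ih h1

theorem rel_conn {χ χ' : G.K}
    (h : Relation.EqvGen (fun a b => ∃ x, x ∉ G.C ∧ G.s x = a ∧ G.r x = b) χ χ') :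
    ∃ d : ℤ, Rel D χ χ' d ∧ Rel D χ' χ (-d) := by
  induction h with
  | rel a b h =>
    obtain ⟨x, hx, rfl, rfl⟩ := h
    exact ⟨-1, rel_edge D hx, by rw [neg_neg]; exact rel_edge' D hx⟩
  | refl a => exact ⟨0, rel_refl D a, by rw [neg_zero]; exact rel_refl D a⟩
  | symm a b _ ih =>
    obtain ⟨d, h1, h2⟩ := ih
    exact ⟨-d, h2, by rw [neg_neg]; exact h1⟩
  | trans a b c _ _ ih1 ih2 =>
    obtain ⟨d1, h1, h2⟩ := ih1
    obtain ⟨d2, h3, h4⟩ := ih2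
    refine ⟨d1 + d2, rel_trans D h1 h3, ?_⟩
    have := rel_trans D h4 h2
    have e : -(d1 + d2) = -d2 + -d1 := by ring
    rwa [e]

end

end ModBX

open ModBX

section E
variable {m N : ℕ} {G : HG m N} {H : Type} [NormedAddCommGroup H] [InnerProductSpace ℂ H]
  [CompleteSpace H] (D : Mdl G H)

theorem Mdl.reach (χ χ' : G.K) (d : ℤ) {A B : Op H} (hA : A ∈ D.A) (hB : B ∈ D.A)
    (hA' : D.W.eF (G.S χ) * A = A) (hB' : B * D.W.eF (G.S χ') = B) (hA0 : A ≠ 0) (hB0 : B ≠ 0) :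
    ∃ Y ∈ D.R, D.Hom d Y ∧ B * Y * A ≠ 0 := by
  obtain ⟨d1, h1, -⟩ := rel_conn D (G.conn χ)
  obtain ⟨d2, -, h2⟩ := rel_conn D (G.conn χ')
  have h3 := rel_trans D (rel_trans D h1 (rel_loop D (d - d1 + d2))) h2
  have e : d1 + (d - d1 + d2) + -d2 = d := by ring
  rw [e] at h3
  exact h3 A B hA hB hA' hB' hA0 hB0

end E

end Pool.Agent.MP9a76ab
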