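import Pool.Agent.Lib.MP_9a76ab_an.ExpiAux
import Pool.Agent.Lib.MP_9a76ab_an.ModB

/-! MP_9a76ab_an, module EXPI: existence of homogeneous partial isometries. -/

set_option autoImplicit false

namespace Pool.Agent.MP9a76ab

open scoped InnerProductSpace

section E
variable {m N : ℕ} {G : HG m N} {H : Type} [NormedAddCommGroup H] [InnerProductSpace ℂ H]
  [CompleteSpace H] (D : Mdl G H)

theorem Mdl.exists_pi (hmN : 0 < m ∧ m < N) (d : ℤ) (p q : Op H) (hp : p ∈ D.R) (hq : q ∈ D.R)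
    (p1 : p * p = p) (p2 : star p = p) (q1 : q * q = q) (q2 : star q = q)
    (p3 : D.Hom 0 p) (q3 : D.Hom 0 q) (F F' : Finset G.V) (pF : D.W.eF F * p = p)
    (qF : D.W.eF F' * q = q)
    (htr : D.W.φF F' q = ((((N : ℝ) / (m : ℝ)) ^ d : ℝ) : ℂ) * D.W.φF F p) :
    ∃ k ∈ D.R, D.Hom d k ∧ star k * k = p ∧ k * star k = q :=
  ModCX.exists_pi_of_reach (fun χ χ' d A B hA hB hA' hB' hA0 hB0 =>
      D.reach χ χ' d hA hB hA' hB' hA0 hB0)
    hmN d p q hp hq p1 p2 q1 q2 p3 q3 F F' pF qF htr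

end E

end Pool.Agent.MP9a76ab
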