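import Pool.Agent.Lib.MP_9a76ab_an.Util
import Pool.Agent.Lib.MP_9a76ab_an.Fock
import Pool.Agent.Lib.MP_9a76ab_an.FockHaar
import Pool.Agent.Lib.MP_9a76ab_an.Dens
import Pool.Agent.Lib.MP_9a76ab_an.GApprox
import Pool.Agent.Lib.MP_9a76ab_an.Defs2

/-! The edges in `C` are free Haar unitaries over the rest (step R1). -/

set_option autoImplicit false

namespace Pool.Agent.MP9a76ab

open scoped InnerProductSpace

section sums
variable {V I H : Type} [NormedAddCommGroup H] [InnerProductSpace ℂ H] [CompleteSpace H]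
  (W : WSys V H)

theorem WSys.le_left {A : Op H} {x : V} (h : A * star A = W.e x) : W.e x * A = A := by
  have h1 : star (star A) * star A = W.e x := by rw [star_star, h]
  have h2 := mul_corner h1 (W.idem x)
  have := congrArg star h2
  simpa [W.sa] using this

theorem WSys.le_right {A : Op H} {x : V} (h : star A * A = W.e x) : A * W.e x = A :=
  mul_corner h (W.idem x)

theorem WSys.leF_left {A : Op H} {F : Finset V} (h : A * star A = W.eF F) : W.eF F * A = A := by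
  have h1 : star (star A) * star A = W.eF F := by rw [star_star, h]
  have h2 := mul_corner h1 (W.eF_idem F)
  have := congrArg star h2
  simpa [W.eF_sa] using this

theorem WSys.leF_right {A : Op H} {F : Finset V} (h : star A * A = W.eF F) : A * W.eF F = A :=
  mul_corner h (W.eF_idem F)

theorem WSys.sum_iso1 (F : Finset I) (A : I → Op H) (s t : I ↪ V)
    (h1 : ∀ i, star (A i) * A i = W.e (s i)) (h2 : ∀ i, A i * star (A i) = W.e (t i)) :
    star (∑ i ∈ F, A i) * (∑ i ∈ F, A i) = W.eF (F.map s) := by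
  rw [star_sum, Finset.sum_mul, WSys.eF, Finset.sum_map]
  refine Finset.sum_congr rfl fun i hi => ?_
  rw [Finset.mul_sum, Finset.sum_eq_single i]
  · exact h1 i
  · intro j _ hj
    rw [← W.le_left (h2 j), ← W.le_left (h2 i), star_mul, W.sa, mul_assoc, ← mul_assoc (W.e (t i)),
      W.orth _ _ (fun e => hj (t.injective e).symm), zero_mul, mul_zero]
  · intro h; exact absurd hi h

theorem WSys.sum_iso2 (F : Finset I) (A : I → Op H) (s t : I ↪ V)
    (h1 : ∀ i, star (A i) * A i = W.e (s i)) (h2 : ∀ i, A i * star (A i) = W.e (t i)) :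
    (∑ i ∈ F, A i) * star (∑ i ∈ F, A i) = W.eF (F.map t) := by
  have := W.sum_iso1 F (fun i => star (A i)) t s (fun i => by simpa using h2 i)
    (fun i => by simpa using h1 i)
  rw [← star_sum, star_star] at this
  exact this

end sums

section A
variable {m N : ℕ} {G : HG m N} {H : Type} [NormedAddCommGroup H] [InnerProductSpace ℂ H]
  [CompleteSpace H] (D : Mdl G H)

theorem Mdl.e_mem_A (x : G.V) : D.W.e x ∈ D.A := subset_vNa _ (Or.inl ⟨x, rfl⟩)

theorem Mdl.t_mem_A : D.t ∈ D.A := subset_vNa _ (Or.inr rfl)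

theorem Mdl.e_mem_R (x : G.V) : D.W.e x ∈ D.R := subset_vNa _ (Or.inl (Or.inl ⟨x, rfl⟩))

theorem Mdl.q_mem_R (x : G.V) : D.q x ∈ D.R := subset_vNa _ (Or.inl (Or.inr ⟨x, rfl⟩))

theorem Mdl.g_mem_R {x : G.V} (hx : x ∉ G.C) : D.g x ∈ D.R := subset_vNa _ (Or.inr ⟨x, hx, rfl⟩)

theorem Mdl.q_mem_A (x : G.V) : D.q x ∈ D.A :=
  mul_mem (mul_mem (star_mem D.t_mem_A) (D.e_mem_A x)) D.t_mem_A

theorem Mdl.g_mem_A (x : G.V) : D.g x ∈ D.A := mul_mem (star_mem D.t_mem_A) (D.e_mem_A x)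

theorem Mdl.R_le_A' : D.R ≤ D.A := by
  apply vNa_le
  rintro X ((⟨x, rfl⟩ | ⟨x, rfl⟩) | ⟨x, _, rfl⟩)
  · exact D.e_mem_A x
  · exact D.q_mem_A x
  · exact D.g_mem_A x

theorem Mdl.u_mem_A (χ : G.K) : D.t * D.W.eF (G.S χ) ∈ D.A :=
  mul_mem D.t_mem_A (D.W.eF_mem D.e_mem_A _)

theorem Mdl.Dg_le_A : vNa (Set.range D.W.e) ≤ D.A := vNa_mono (Set.subset_union_left)

theorem Mdl.g_star_g (x : G.V) : star (D.g x) * D.g x = D.W.e x := by
  unfold Mdl.g
  rw [star_mul, star_star, D.W.sa, mul_assoc, ← mul_assoc D.t, D.t2, one_mul, D.W.idem]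

theorem Mdl.g_g_star (x : G.V) : D.g x * star (D.g x) = D.q x := by
  unfold Mdl.g Mdl.q
  rw [star_mul, star_star, D.W.sa, mul_assoc, ← mul_assoc (D.W.e x), D.W.idem, mul_assoc]

theorem Mdl.hom_g (x : G.V) : D.Hom (-1) (D.g x) := by
  intro j
  have h := D.P_t (j - 1)
  have h2 := congrArg star h
  rw [star_mul, star_mul, D.P_sa, D.P_sa, sub_add_cancel] at h2
  unfold Mdl.g
  rw [show j + -1 = j - 1 by ring, ← mul_assoc, ← h2, mul_assoc, D.P_e, ← mul_assoc]

theorem Mdl.Hom.mul {D : Mdl G H} {d d' : ℤ} {X Y : Op H} (hX : D.Hom d X) (hY : D.Hom d' Y) :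
    D.Hom (d + d') (X * Y) := by
  intro j
  rw [show j + (d + d') = (j + d') + d by ring, ← mul_assoc, hX, mul_assoc, hY, mul_assoc]

theorem Mdl.Hom.star {D : Mdl G H} {d : ℤ} {X : Op H} (hX : D.Hom d X) :
    D.Hom (-d) (star X) := by
  intro j
  have h := congrArg Star.star (hX (j + -d))
  rw [star_mul, star_mul, D.P_sa, D.P_sa, neg_add_cancel_right] at h
  exact h.symm

/-- `g x = u* e x` -/
theorem Mdl.g_eq (x : G.V) : D.g x = Star.star (D.t * D.W.eF (G.S (G.r x))) * D.W.e x := by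
  have h := congrArg Star.star (D.te (G.r x))
  rw [D.te, star_mul, D.W.eF_sa, mul_assoc, D.W.eF_mul_e_mem ((G.mem_T _ _).2 rfl)]
  rfl


theorem FSys.fhsA {V J F : Type} [NormedAddCommGroup F] [InnerProductSpace ℂ F]
    [CompleteSpace F] {W : WSys V F} {B : StarSubalgebra ℂ (Op F)} {L : J → Op F}
    {P : J → Finset V} (h : FSys W B L P) : FHS W B (HH W L P) P P :=
  FSys.fhs_of_approx gfun_approx h

/-- transfer of a moment identity from the algebraic coefficients to the weak closure -/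
theorem transfer {F : Type} [NormedAddCommGroup F] [InnerProductSpace ℂ F] [CompleteSpace F]
    {B0 : StarSubalgebra ℂ (Op F)} {𝔖 : Set (Op F × Op F)} (hm : ∀ p ∈ 𝔖, ∀ r ∈ 𝔖, p * r ∈ 𝔖)
    (h1 : (1 : Op F × Op F) ∈ 𝔖) (hB : ∀ r ∈ B0, (r, r) ∈ 𝔖) {u v : F}
    (h : ∀ p ∈ 𝔖, ⟪u, p.1 v⟫_ℂ = ⟪u, p.2 v⟫_ℂ) :
    ∀ p ∈ Submonoid.closure (𝔖 ∪ {p | p.1 = p.2 ∧ p.1 ∈ vNa (B0 : Set (Op F))}),
      ⟪u, p.1 v⟫_ℂ = ⟪u, p.2 v⟫_ℂ := by
  intro p hp
  -- good prefixes
  have key : ∀ p ∈ Submonoid.closure (𝔖 ∪ {p | p.1 = p.2 ∧ p.1 ∈ vNa (B0 : Set (Op F))}),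
      ∀ a ∈ 𝔖, ⟪u, (p * a).1 v⟫_ℂ = ⟪u, (p * a).2 v⟫_ℂ := by
    intro p hp
    induction hp using Submonoid.closure_induction_right with
    | one => intro a ha; rw [one_mul]; exact h a ha
    | mul_right x hx y hy ih =>
      intro a ha
      rcases hy with hy | ⟨hy1, hy2⟩
      · rw [mul_assoc]; exact ih _ (hm _ hy _ ha)
      · -- approximation
        rw [← sub_eq_zero]
        by_contra hne
        set δ := ‖⟪u, (x * y * a).1 v⟫_ℂ - ⟪u, (x * y * a).2 v⟫_ℂ‖ with hδ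
        have hδ0 : 0 < δ := norm_pos_iff.2 hne
        set M : ℝ := ‖u‖ * ‖x.1‖ + ‖u‖ * ‖x.2‖ + 1 with hM
        have hM0 : 0 < M := by positivity
        classical
        obtain ⟨Y, hY, hY2⟩ := vNa_density B0 hy2 {a.1 v, a.2 v} (ε := δ / M) (by positivity)
        have e1 : ‖(y.1 - Y) (a.1 v)‖ < δ / M := hY2 _ (by simp)
        have e2 : ‖(y.1 - Y) (a.2 v)‖ < δ / M := hY2 _ (by simp)
        have e3 := ih ((Y, Y) * a) (hm _ (hB Y hY) _ ha)
        have f1 : ‖⟪u, (x * y * a).1 v⟫_ℂ - ⟪u, (x * ((Y, Y) * a)).1 v⟫_ℂ‖ ≤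
            ‖u‖ * ‖x.1‖ * (δ / M) := by
          rw [← inner_sub_right]
          have : (x * y * a).1 v - (x * ((Y, Y) * a)).1 v = x.1 ((y.1 - Y) (a.1 v)) := by
            simp [mul_assoc]
          rw [this]
          calc _ ≤ ‖u‖ * ‖x.1 ((y.1 - Y) (a.1 v))‖ := norm_inner_le_norm _ _
            _ ≤ ‖u‖ * (‖x.1‖ * ‖(y.1 - Y) (a.1 v)‖) := by gcongr; exact x.1.le_opNorm _
            _ ≤ ‖u‖ * (‖x.1‖ * (δ / M)) := by gcongr
            _ = _ := by ring
        have f2 : ‖⟪u, (x * y * a).2 v⟫_ℂ - ⟪u, (x * ((Y, Y) * a)).2 v⟫_ℂ‖ ≤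
            ‖u‖ * ‖x.2‖ * (δ / M) := by
          rw [← inner_sub_right]
          have : (x * y * a).2 v - (x * ((Y, Y) * a)).2 v = x.2 ((y.1 - Y) (a.2 v)) := by
            simp [mul_assoc, hy1]
          rw [this]
          calc _ ≤ ‖u‖ * ‖x.2 ((y.1 - Y) (a.2 v))‖ := norm_inner_le_norm _ _
            _ ≤ ‖u‖ * (‖x.2‖ * ‖(y.1 - Y) (a.2 v)‖) := by gcongr; exact x.2.le_opNorm _
            _ ≤ ‖u‖ * (‖x.2‖ * (δ / M)) := by gcongr
            _ = _ := by ring
        have f3 : δ ≤ (‖u‖ * ‖x.1‖ + ‖u‖ * ‖x.2‖) * (δ / M) := by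
          have : ⟪u, (x * y * a).1 v⟫_ℂ - ⟪u, (x * y * a).2 v⟫_ℂ =
            (⟪u, (x * y * a).1 v⟫_ℂ - ⟪u, (x * ((Y, Y) * a)).1 v⟫_ℂ) -
            (⟪u, (x * y * a).2 v⟫_ℂ - ⟪u, (x * ((Y, Y) * a)).2 v⟫_ℂ) := by
            rw [e3]; ring
          have h8 : δ ≤ ‖⟪u, (x * y * a).1 v⟫_ℂ - ⟪u, (x * ((Y, Y) * a)).1 v⟫_ℂ‖ +
              ‖⟪u, (x * y * a).2 v⟫_ℂ - ⟪u, (x * ((Y, Y) * a)).2 v⟫_ℂ‖ := by
            rw [hδ, this]; exact norm_sub_le _ _
          calc δ ≤ _ := h8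
            _ ≤ _ := by rw [add_mul]; exact add_le_add f1 f2
        have f4 : (‖u‖ * ‖x.1‖ + ‖u‖ * ‖x.2‖) * (δ / M) < δ := by
          have : (‖u‖ * ‖x.1‖ + ‖u‖ * ‖x.2‖) * (δ / M) < M * (δ / M) := by
            have : ‖u‖ * ‖x.1‖ + ‖u‖ * ‖x.2‖ < M := by rw [hM]; linarith
            have h5 : 0 < δ / M := by positivity
            exact mul_lt_mul_of_pos_right this h5
          rwa [mul_div_cancel₀ _ hM0.ne'] at this
        exact absurd f4 (not_lt.2 f3)
  have := key p hp 1 h1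
  simpa using this


/-- Step R1. -/
theorem Mdl.fhs_R1 (w k : G.V → Op H)
    (hw : ∀ x, w x ∈ D.R) (w0 : ∀ x, D.Hom 0 (w x)) (w1 : ∀ x, star (w x) * w x = D.W.e G.o)
    (w2 : ∀ x, w x * star (w x) = D.W.e x)
    (hk : ∀ x, k x ∈ D.R) (k0 : ∀ x, D.Hom (-1) (k x)) (k1 : ∀ x, star (k x) * k x = D.W.e x)
    (k2 : ∀ x, k x * star (k x) = D.q x) :
    FHS D.W D.R (fun x : G.C => star (w x) * (star (k x) * D.g x) * w x)
      (fun _ => {G.o}) (fun _ => {G.o}) := by
  classical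
  obtain ⟨F, _, _, _, ⟨E⟩⟩ := exists_fockExt H G.V D.W.ξ D.W.norm_ξ
  set W1 := D.W.push E with hW1
  have hW1e : ∀ x, W1.e x = E.π (D.W.e x) := fun _ => rfl
  set f : G.V → Op F := HH W1 (fun x => E.ℓ x * E.π (D.W.e x)) (fun x => {x}) with hf
  have hf0 : FHS W1 E.π.range f (fun x => {x}) (fun x => {x}) := (FSys.first E).fhsA
  set u : G.K → Op H := fun χ => D.t * D.W.eF (G.S χ) with hu
  -- f over A
  have hAr : D.A.map E.π ≤ E.π.range := by
    intro X hX
    obtain ⟨b, _, rfl⟩ := StarSubalgebra.mem_map.1 hX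
    exact ⟨b, rfl⟩
  have hmem : ∀ {B : StarSubalgebra ℂ (Op H)} {X : Op H}, X ∈ B → E.π X ∈ B.map E.π :=
    fun h => StarSubalgebra.mem_map.2 ⟨_, h, rfl⟩
  have hfA : FHS W1 (D.A.map E.π) f (fun x => {x}) (fun x => {x}) :=
    hf0.le hAr (fun x => hmem (D.e_mem_A x))
  have hu1 : FHS W1 ((vNa (Set.range D.W.e)).map E.π) (fun χ => E.π (u χ)) G.S G.T := D.fhs.push E
  have hDA : (vNa (Set.range D.W.e)).map E.π ≤ D.A.map E.π := StarSubalgebra.map_mono D.Dg_le_A
  have h1 := hu1.assoc_inv hfA hDA (fun χ => hmem (D.u_mem_A χ))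
  have h2 := h1.swap.assocV
  set Bf := vNa (((vNa (Set.range D.W.e)).map E.π : Set (Op F)) ∪ Set.range f) with hBf
  have hfB : ∀ y, f y ∈ Bf := fun y => subset_vNa _ (Or.inr ⟨y, rfl⟩)
  have heB : ∀ y, W1.e y ∈ Bf := fun y =>
    subset_vNa _ (Or.inl (hmem (subset_vNa _ ⟨y, rfl⟩)))
  have hfD : FHS W1 ((vNa (Set.range D.W.e)).map E.π) f (fun x => {x}) (fun x => {x}) :=
    hfA.le hDA (fun x => hmem (subset_vNa _ ⟨x, rfl⟩))
  have hfk : ∀ y, KMS W1 Bf 1 (f y) := by
    intro y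
    have := hfD.kms_letter y
    simp only [Finset.card_singleton, Nat.cast_one, div_one] at this
    exact this
  have f1 : ∀ y, star (f y) * f y = W1.e y := fun y => by
    have := hf0.iS y; rwa [W1.eF_singleton] at this
  have f2 : ∀ y, f y * star (f y) = W1.e y := fun y => by
    have := hf0.iT y; rwa [W1.eF_singleton] at this
  -- the multiplier
  set h : G.V → Op F := fun y => if y ∈ G.C then star (f y) else W1.e y with hh
  have hh1 : ∀ y, star (h y) * h y = W1.e y := by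
    intro y
    by_cases hy : y ∈ G.C
    · simp [hh, hy, f2]
    · simp [hh, hy, W1.sa, W1.idem]
  have hh2 : ∀ y, h y * star (h y) = W1.e y := by
    intro y
    by_cases hy : y ∈ G.C
    · simp [hh, hy, f1]
    · simp [hh, hy, W1.sa, W1.idem]
  have hhB : ∀ y, h y ∈ Bf := by
    intro y
    by_cases hy : y ∈ G.C
    · simp only [hh, hy, if_true]; exact star_mem (hfB y)
    · simp only [hh, hy, if_false]; exact heB y
  set gg : G.K → Op F := fun χ => ∑ y ∈ G.T χ, h y with hgg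
  have gg1 : ∀ χ, star (gg χ) * gg χ = W1.eF (G.T χ) := fun χ => by
    have := W1.sum_iso1 (G.T χ) h (Function.Embedding.refl _) (Function.Embedding.refl _) hh1 hh2
    rw [Finset.map_refl] at this
    exact this
  have gg2 : ∀ χ, gg χ * star (gg χ) = W1.eF (G.T χ) := fun χ => by
    have := W1.sum_iso2 (G.T χ) h (Function.Embedding.refl _) (Function.Embedding.refl _) hh1 hh2
    rw [Finset.map_refl] at this
    exact this
  have gge : ∀ χ, ∀ x ∈ G.T χ, W1.e x * gg χ = h x := by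
    intro χ x hx
    rw [hgg, Finset.mul_sum, Finset.sum_eq_single x]
    · exact W1.le_left (hh2 x)
    · intro y _ hy
      rw [← W1.le_left (hh2 y), ← mul_assoc, W1.orth _ _ (Ne.symm hy), zero_mul]
    · intro hx'; exact absurd hx hx'
  have gge' : ∀ χ, ∀ x ∈ G.T χ, gg χ * W1.e x = h x := by
    intro χ x hx
    rw [hgg, Finset.sum_mul, Finset.sum_eq_single x]
    · exact W1.le_right (hh1 x)
    · intro y _ hy
      rw [← W1.le_right (hh1 y), mul_assoc, W1.orth _ _ hy, mul_zero]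
    · intro hx'; exact absurd hx hx'
  have h3 := h2.abs gg (fun χ => W1.eF (G.S χ)) (fun χ => sum_mem fun y _ => hhB y)
    (fun χ => W1.eF_mem heB _) G.S G.T h2.neS h2.neT
    (fun χ => by rw [W1.eF_sa, W1.eF_idem]) (fun χ => by rw [W1.eF_sa, W1.eF_idem]) gg1 gg2
    (fun χ b hb hb0 => by
      rw [W1.eF_sa, W1.φF_apply]
      rw [W1.φF_apply] at hb0
      rw [← hb0]
      refine Finset.sum_congr rfl fun x hx => ?_
      change ⟪W1.ξ x, W1.eF (G.S χ) (b (W1.eF (G.S χ) (W1.ξ x)))⟫_ℂ = _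
      rw [W1.eF_ξ_mem hx, inner_op_star, W1.eF_sa, W1.eF_ξ_mem hx])
    (fun χ b hb hb0 => by
      rw [← hb0, W1.φF_apply, W1.φF_apply]
      refine Finset.sum_congr rfl fun x hx => ?_
      have e1 : gg χ (W1.ξ x) = h x (W1.ξ x) := by
        conv_lhs => rw [← W1.eξ x]
        exact congrArg (fun A : Op F => A (W1.ξ x)) (gge' χ x hx)
      change ⟪W1.ξ x, star (gg χ) (b (gg χ (W1.ξ x)))⟫_ℂ = _
      rw [inner_star_op, e1]
      by_cases hy : x ∈ G.C
      · simp only [hh, hy, if_true]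
        have h5 := KMS.scale (W := W1) (M := Bf) heB (hfB x) (hfk x) (S' := {x}) (S := {x})
          (by rw [f1, W1.eF_singleton]) (by rw [f2, W1.eF_singleton]) hb
        rw [W1.φF_singleton, W1.φF_singleton] at h5
        simp only [Complex.ofReal_one, one_mul] at h5
        rw [← h5]
        exact (inner_op_star (f x) (W1.ξ x) _).symm
      · simp only [hh, hy, if_false]
        rw [W1.eξ])
  set U2 : G.K → Op F := fun χ => gg χ * E.π (u χ) * W1.eF (G.S χ) with hU2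
  have hDB : (vNa (Set.range D.W.e)).map E.π ≤ Bf := fun X hX => subset_vNa _ (Or.inl hX)
  have h3' : FHS W1 ((vNa (Set.range D.W.e)).map E.π) U2 G.S G.T := h3.le hDB hu1.mem_e
  -- moments
  set 𝔖 : StarSubalgebra ℂ (Op F × Op F) := StarAlgebra.adjoin ℂ
    (((((vNa (Set.range D.W.e)).map E.π).map (diagHom F) : StarSubalgebra ℂ (Op F × Op F)) :
      Set (Op F × Op F)) ∪ Set.range (fun j => (E.π (u j), U2 j))) with h𝔖
  have hmom : ∀ x y, ∀ p ∈ 𝔖, ⟪W1.ξ x, p.1 (W1.ξ y)⟫_ℂ = ⟪W1.ξ x, p.2 (W1.ξ y)⟫_ℂ := by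
    intro x y
    refine hu1.moments h3' (((vNa (Set.range D.W.e)).map E.π).map (diagHom F))
      (fun p hp => (mem_map_diag.1 hp).1) (fun p hp => (mem_map_diag.1 hp).2 ▸ (mem_map_diag.1 hp).1)
      x y x y (fun p hp j => by rw [(mem_map_diag.1 hp).2])
      (fun p hp j => by rw [(mem_map_diag.1 hp).2]) (fun p hp => by rw [(mem_map_diag.1 hp).2])
      (fun j => mem_map_diag.2 ⟨W1.eF_mem hu1.mem_e _, rfl⟩)
      (fun j => mem_map_diag.2 ⟨W1.eF_mem hu1.mem_e _, rfl⟩) (fun _ => rfl) (fun _ => rfl)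
  have he𝔖 : ∀ x, (W1.e x, W1.e x) ∈ 𝔖 := fun x =>
    StarAlgebra.subset_adjoin ℂ _ (Or.inl (mem_map_diag.2 ⟨hu1.mem_e x, rfl⟩))
  have hu𝔖 : ∀ χ, (E.π (u χ), U2 χ) ∈ 𝔖 := fun χ =>
    StarAlgebra.subset_adjoin ℂ _ (Or.inr ⟨χ, rfl⟩)
  have A1 : ∀ x, star (E.π (u (G.r x))) * W1.e x = E.π (D.g x) := fun x => by
    rw [D.g_eq x, map_mul E.π (star (D.t * D.W.eF (G.S (G.r x)))) (D.W.e x), map_star]
    rfl
  have A2 : ∀ x, star (U2 (G.r x)) * W1.e x = E.π (D.g x) * star (h x) := by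
    intro x
    have hx : x ∈ G.T (G.r x) := (G.mem_T _ _).2 rfl
    have e1 : star (gg (G.r x)) * W1.e x = star (h x) := by
      rw [← gge _ x hx, star_mul, W1.sa]
    have e2 : star (h x) = W1.e x * star (h x) := by
      conv_lhs => rw [← W1.le_right (hh1 x), star_mul, W1.sa]
    have e3 : W1.eF (G.S (G.r x)) * E.π (D.g x) = E.π (D.g x) := by
      have := D.te (G.r x)
      have h5 := congrArg star this
      rw [star_mul, star_mul, D.W.eF_sa, D.W.eF_sa] at h5
      rw [push_eF, ← map_mul]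
      unfold Mdl.g
      rw [← mul_assoc, h5, mul_assoc, D.W.eF_mul_e_mem hx]
    rw [hU2]
    simp only
    rw [star_mul, star_mul, W1.eF_sa, mul_assoc, mul_assoc, e1, e2, ← mul_assoc (star (E.π _)), A1,
      ← mul_assoc, e3, ← e2]
  have hg𝔖 : ∀ x, (E.π (D.g x), E.π (D.g x) * star (h x)) ∈ 𝔖 := by
    intro x
    have := mul_mem (star_mem (hu𝔖 (G.r x))) (he𝔖 x)
    have e : star (E.π (u (G.r x)), U2 (G.r x)) * (W1.e x, W1.e x) =
        (star (E.π (u (G.r x))) * W1.e x, star (U2 (G.r x)) * W1.e x) := rfl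
    rw [e, A1, A2] at this
    exact this
  have hgnc : ∀ x, x ∉ G.C → (E.π (D.g x), E.π (D.g x)) ∈ 𝔖 := by
    intro x hx
    have := hg𝔖 x
    have e : E.π (D.g x) * star (h x) = E.π (D.g x) := by
      simp only [hh, hx, if_false, hW1e]
      rw [← map_star, D.W.sa, ← map_mul]
      unfold Mdl.g
      rw [mul_assoc, D.W.idem]
    rwa [e] at this
  have hgc : ∀ x, x ∈ G.C → (E.π (D.g x), E.π (D.g x) * f x) ∈ 𝔖 := by
    intro x hx
    have := hg𝔖 x
    simpa only [hh, hx, if_true, star_star] using this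
  have hq𝔖 : ∀ x, (E.π (D.q x), E.π (D.q x)) ∈ 𝔖 := by
    intro x
    have := mul_mem (hg𝔖 x) (star_mem (hg𝔖 x))
    have e : (E.π (D.g x), E.π (D.g x) * star (h x)) * star (E.π (D.g x), E.π (D.g x) * star (h x))
        = (E.π (D.g x) * star (E.π (D.g x)),
          (E.π (D.g x) * star (h x)) * star (E.π (D.g x) * star (h x))) := rfl
    have e1 : E.π (D.g x) * star (E.π (D.g x)) = E.π (D.q x) := by
      rw [← map_star, ← map_mul, D.g_g_star]
    have e2 : (E.π (D.g x) * star (h x)) * star (E.π (D.g x) * star (h x)) = E.π (D.q x) := by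
      rw [star_mul, star_star, mul_assoc, ← mul_assoc (star (h x)), hh1, hW1e, ← map_star,
        ← map_mul, ← map_mul]
      congr 1
      unfold Mdl.g Mdl.q
      rw [star_mul, star_star, D.W.sa, mul_assoc, ← mul_assoc (D.W.e x), D.W.idem,
        ← mul_assoc (D.W.e x), D.W.idem, mul_assoc]
    rw [e, e1, e2] at this
    exact this
  set B0 : StarSubalgebra ℂ (Op F) := (StarAlgebra.adjoin ℂ
    (Set.range D.W.e ∪ Set.range D.q ∪ D.g '' G.Cᶜ)).map E.π with hB0
  have hB0𝔖 : ∀ r ∈ B0, (r, r) ∈ 𝔖 := by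
    intro r hr
    have h5 : B0.map (diagHom F) ≤ 𝔖 := by
      rw [hB0, StarAlgHom.map_adjoin, StarAlgHom.map_adjoin]
      apply StarAlgebra.adjoin_le
      rintro _ ⟨_, ⟨_, ((⟨x, rfl⟩ | ⟨x, rfl⟩) | ⟨x, hx, rfl⟩), rfl⟩, rfl⟩
      · exact he𝔖 x
      · exact hq𝔖 x
      · exact hgnc x hx
    exact h5 (mem_map_diag.2 ⟨hr, rfl⟩)
  have hRB : ∀ r ∈ D.R, E.π r ∈ vNa (B0 : Set (Op F)) := by
    intro r hr
    have h5 := E.normal _ hr
    refine vNa_mono ?_ h5
    rintro _ ⟨X, hX, rfl⟩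
    exact StarSubalgebra.mem_map.2 ⟨X, StarAlgebra.subset_adjoin ℂ _ hX, rfl⟩
  -- the free letters over A
  set X : G.C → Op H := fun x => star (w x) * (star (k x) * D.g x) with hX
  have hXA : ∀ x, X x ∈ D.A := fun x =>
    mul_mem (star_mem (D.R_le_A' (hw _))) (mul_mem (star_mem (D.R_le_A' (hk _))) (D.g_mem_A _))
  have hX1 : ∀ x : G.C, star (X x) * X x = D.W.e x := by
    intro x
    have e1 : D.W.e x * star (k x) = star (k x) := by
      have := congrArg star (D.W.le_right (k1 x))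
      simpa [D.W.sa] using this
    rw [hX]
    simp only [star_mul, star_star]
    calc star (D.g x) * k x * w x * (star (w x) * (star (k x) * D.g x))
        = star (D.g x) * k x * (w x * star (w x)) * star (k x) * D.g x := by noncomm_ring
      _ = star (D.g x) * (k x * star (k x)) * D.g x := by
          rw [w2, mul_assoc _ (D.W.e x), e1]; noncomm_ring
      _ = (star (D.g x) * D.g x) * (star (D.g x) * D.g x) := by
          rw [k2, ← D.g_g_star]; noncomm_ring
      _ = D.W.e x := by rw [D.g_star_g, D.W.idem]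
  have hX2 : ∀ x : G.C, X x * star (X x) = D.W.e G.o := by
    intro x
    have e1 : D.W.e x * w x = w x := D.W.le_left (w2 x)
    rw [hX]
    simp only [star_mul, star_star]
    calc star (w x) * (star (k x) * D.g x) * (star (D.g x) * k x * w x)
        = star (w x) * (star (k x) * (D.g x * star (D.g x)) * k x) * w x := by noncomm_ring
      _ = star (w x) * ((star (k x) * k x) * (star (k x) * k x)) * w x := by
          rw [D.g_g_star, ← k2]; noncomm_ring
      _ = star (w x) * (D.W.e x * w x) := by rw [k1, D.W.idem]; noncomm_ring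
      _ = D.W.e G.o := by rw [e1, w1]
  have hX0 : ∀ x, D.Hom 0 (X x) := by
    intro x
    have := ((w0 x).star).mul (((k0 x).star).mul (D.hom_g x))
    simpa using this
  have hkA : ∀ {Y : Op H}, Y ∈ D.A → D.Hom 0 Y → KMS W1 (D.A.map E.π) 1 (E.π Y) := by
    intro Y hY h0
    have := (D.kms 0 Y hY h0).push E
    rw [zpow_zero] at this
    exact this
  have hfC : FHS W1 (D.A.map E.π) (fun x : G.C => f x) (fun x => {(x : G.V)})
      (fun x => {(x : G.V)}) :=
    hfA.reidx Subtype.val Subtype.val_injective (fun _ => rfl) (fun _ => rfl) (fun _ => rfl)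
  have h6 := hfC.abs (fun x => E.π (X x)) (fun x => E.π (w x)) (fun x => hmem (hXA x))
    (fun x => hmem (D.R_le_A' (hw x))) (fun _ => {G.o}) (fun _ => {G.o})
    (fun _ => Finset.singleton_nonempty _) (fun _ => Finset.singleton_nonempty _)
    (fun x => by rw [← map_star, ← map_mul, w1, W1.eF_singleton, hW1e])
    (fun x => by rw [← map_star, ← map_mul, w2, W1.eF_singleton, hW1e])
    (fun x => by rw [← map_star, ← map_mul, hX1, W1.eF_singleton, hW1e])
    (fun x => by rw [← map_star, ← map_mul, hX2, W1.eF_singleton, hW1e])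
    (fun x b hb hb0 => by
      have h5 := KMS.scale (W := W1) (M := D.A.map E.π) hfA.mem_e (hmem (D.R_le_A' (hw x)))
        (hkA (D.R_le_A' (hw x)) (w0 x)) (S' := {G.o}) (S := {(x : G.V)})
        (by rw [← map_star, ← map_mul, w1, W1.eF_singleton, hW1e])
        (by rw [← map_star, ← map_mul, w2, W1.eF_singleton, hW1e]) hb
      rw [h5, hb0, mul_zero])
    (fun x b hb hb0 => by
      have hk' : KMS W1 (D.A.map E.π) 1 (star (E.π (X x))) := by
        rw [← map_star]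
        exact hkA (star_mem (hXA x)) (by simpa using (hX0 x).star)
      have h5 := KMS.scale (W := W1) (M := D.A.map E.π) hfA.mem_e (star_mem (hmem (hXA x)))
        hk' (S' := {G.o}) (S := {(x : G.V)})
        (by rw [star_star, ← map_star, ← map_mul, hX2, W1.eF_singleton, hW1e])
        (by rw [star_star, ← map_star, ← map_mul, hX1, W1.eF_singleton, hW1e]) hb
      rw [star_star] at h5
      rw [h5, hb0, mul_zero])
  set G2 : G.C → Op F := fun x => E.π (X x) * f x * E.π (w x) with hG2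
  set G1 : G.C → Op H := fun x => star (w x) * (star (k x) * D.g x) * w x with hG1
  set 𝔗 := Submonoid.closure ((𝔖 : Set (Op F × Op F)) ∪
    {p | p.1 = p.2 ∧ p.1 ∈ vNa (B0 : Set (Op F))}) with h𝔗
  have htr : ∀ x y, ∀ p ∈ 𝔗, ⟪W1.ξ x, p.1 (W1.ξ y)⟫_ℂ = ⟪W1.ξ x, p.2 (W1.ξ y)⟫_ℂ := by
    intro x y
    exact transfer (fun p hp r hr => mul_mem hp hr) (one_mem 𝔖) hB0𝔖 (hmom x y)
  have hR𝔗 : ∀ r ∈ D.R, (E.π r, E.π r) ∈ 𝔗 := fun r hr =>
    Submonoid.subset_closure (Or.inr ⟨rfl, hRB r hr⟩)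
  have hS𝔗 : ∀ p ∈ 𝔖, p ∈ 𝔗 := fun p hp => Submonoid.subset_closure (Or.inl hp)
  have hL𝔗 : ∀ l : G.C × Bool, (E.π (ltr G1 l), ltr G2 l) ∈ 𝔗 := by
    rintro ⟨x, s⟩
    have a1 := hR𝔗 _ (star_mem (hw x))
    have a2 := hR𝔗 _ (star_mem (hk x))
    have a3 := hR𝔗 _ (hw x)
    have a4 := hR𝔗 _ (hk x)
    have a5 := hS𝔗 _ (hgc x x.2)
    have a6 := hS𝔗 _ (star_mem (hgc x x.2))
    cases s
    · have := mul_mem (mul_mem (mul_mem a1 a6) a4) a3
      convert this using 1
      refine Prod.ext ?_ ?_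
      · change E.π (star (G1 x)) = E.π (star (w x)) * star (E.π (D.g x)) * E.π (k x) * E.π (w x)
        rw [← map_star, ← map_mul, ← map_mul, ← map_mul, hG1]
        simp only [star_mul, star_star]
        noncomm_ring
      · change star (G2 x) = E.π (star (w x)) * star (E.π (D.g x) * f x) * E.π (k x) * E.π (w x)
        rw [hG2, hX]
        simp only [star_mul, star_star, map_mul, map_star]
        noncomm_ring
    · have := mul_mem (mul_mem (mul_mem a1 a2) a5) a3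
      convert this using 1
      refine Prod.ext ?_ ?_
      · change E.π (G1 x) = E.π (star (w x)) * E.π (star (k x)) * E.π (D.g x) * E.π (w x)
        rw [← map_mul, ← map_mul, ← map_mul, hG1]
        noncomm_ring
      · change G2 x = E.π (star (w x)) * E.π (star (k x)) * (E.π (D.g x) * f x) * E.π (w x)
        rw [hG2, hX]
        simp only [map_mul]
        noncomm_ring
  have hG1s : ∀ x : G.C, star (G1 x) * G1 x = D.W.e G.o := by
    intro x
    have e1 : G1 x = X x * w x := by rw [hG1, hX]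
    rw [e1, star_mul, mul_assoc, ← mul_assoc (star (X x)), hX1, D.W.le_left (w2 x), w1]
  have hG1t : ∀ x : G.C, G1 x * star (G1 x) = D.W.e G.o := by
    intro x
    have e1 : G1 x = X x * w x := by rw [hG1, hX]
    rw [e1, star_mul, mul_assoc, ← mul_assoc (w x), w2, ← mul_assoc, D.W.le_right (hX1 x), hX2]
  refine ⟨D.e_mem_R, fun _ => Finset.singleton_nonempty _, fun _ => Finset.singleton_nonempty _,
    fun x => by rw [D.W.eF_singleton]; exact hG1s x,
    fun x => by rw [D.W.eF_singleton]; exact hG1t x, ?_⟩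
  intro b hb l c hc x y
  have key : ∀ (l : G.C × Bool) (c : Op H),
      Con (D.R : Set (Op H)) (ltr G1) bar
        (fun l => D.W.φF (rt (fun _ : G.C => {G.o}) (fun _ : G.C => {G.o}) l)) l c →
      ∃ c', Con ((D.A.map E.π : StarSubalgebra ℂ (Op F)) : Set (Op F)) (ltr G2) bar
        (fun l => W1.φF (rt (fun _ : G.C => {G.o}) (fun _ : G.C => {G.o}) l)) l c' ∧
        (E.π c, c') ∈ 𝔗 := by
    intro l c hc
    induction hc with
    | base l b hb => exact ⟨E.π b, Con.base l _ (hmem (D.R_le_A' hb)), hR𝔗 b hb⟩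
    | step l l' b c hb h' _ ih =>
      obtain ⟨c', hc', hcT⟩ := ih
      refine ⟨E.π b * ltr G2 l' * c', Con.step l l' _ _ (hmem (D.R_le_A' hb)) (fun e => ?_) hc', ?_⟩
      · have := h' e
        rw [← this]
        exact push_φF D.W E _ _
      · have := mul_mem (mul_mem (hR𝔗 b hb) (hL𝔗 l')) hcT
        convert this using 1
        refine Prod.ext ?_ rfl
        change E.π (b * ltr G1 l' * c) = E.π b * E.π (ltr G1 l') * E.π c
        rw [map_mul, map_mul]
  obtain ⟨c', hc', hcT⟩ := key l c hc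
  have h7 := h6.van (E.π b) (hmem (D.R_le_A' hb)) l c' hc' x y
  have h8 := htr x y _ (mul_mem (mul_mem (hR𝔗 b hb) (hL𝔗 l)) hcT)
  have h9 : ⟪D.W.ξ x, b (ltr G1 l (c (D.W.ξ y)))⟫_ℂ =
      ⟪W1.ξ x, (E.π b * E.π (ltr G1 l) * E.π c) (W1.ξ y)⟫_ℂ := by
    rw [← map_mul, ← map_mul]
    exact (push_inner E (b * ltr G1 l * c) (D.W.ξ x) (D.W.ξ y)).symm
  rw [h9]
  exact h8.trans h7

end A

end Pool.Agent.MP9a76ab
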