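import Pool.Agent.Lib.MP_9a76ab_an.PartA
import Pool.Agent.Lib.MP_9a76ab_an.ModC
import Pool.Agent.Lib.MP_9a76ab_an.Defs3

/-! Assembly, part B: homogeneous partial isometries; the first Fock extension. -/

set_option autoImplicit false

namespace Pool.Agent.MP9a76ab

open scoped InnerProductSpace

section pis
variable {m N : ℕ} {G : HG m N} {H : Type} [NormedAddCommGroup H] [InnerProductSpace ℂ H]
  [CompleteSpace H] (D : Mdl G H)

theorem WSys.φF_e_mem {V H : Type} [NormedAddCommGroup H] [InnerProductSpace ℂ H]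
    [CompleteSpace H] (W : WSys V H) {F : Finset V} {x : V} (hx : x ∈ F) :
    W.φF F (W.e x) = 1 := by
  rw [W.φF_apply, Finset.sum_eq_single x]
  · rw [W.eξ, W.inner_ξ_self]
  · intro y _ hy
    rw [W.e_ξ_ne hy.symm, inner_zero_right]
  · intro h; exact absurd hx h

theorem Mdl.hom_e (x : G.V) : D.Hom 0 (D.W.e x) := fun j => by rw [add_zero]; exact D.P_e j x

theorem Mdl.hom_eF (F : Finset G.V) : D.Hom 0 (D.W.eF F) := fun j => by
  rw [add_zero]
  simp only [WSys.eF, Finset.mul_sum, Finset.sum_mul, D.P_e]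

theorem Mdl.hom_t : D.Hom 1 D.t := fun j => D.P_t j

theorem Mdl.hom_u (χ : G.K) : D.Hom 1 (D.t * D.W.eF (G.S χ)) := by
  have := D.hom_t.mul (D.hom_eF (G.S χ))
  simpa using this

theorem Mdl.q_eq (x : G.V) : D.q x = Star.star (D.t * D.W.eF (G.S (G.r x))) * D.W.e x *
    (D.t * D.W.eF (G.S (G.r x))) := by
  have hx : x ∈ G.T (G.r x) := (G.mem_T _ _).2 rfl
  rw [D.te, star_mul, D.W.eF_sa, mul_assoc (star D.t), D.W.eF_mul_e_mem hx, mul_assoc,
    ← mul_assoc (D.W.e x), D.W.e_mul_eF_mem hx, ← mul_assoc]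
  rfl

theorem Mdl.hom_q (x : G.V) : D.Hom 0 (D.q x) := by
  have := (D.hom_t.star.mul (D.hom_e x)).mul D.hom_t
  simpa [Mdl.q] using this

theorem Mdl.kms_u (χ : G.K) :
    KMS D.W D.A ((N : ℝ) / (m : ℝ)) (D.t * D.W.eF (G.S χ)) := by
  have := D.kms 1 _ (D.u_mem_A χ) (D.hom_u χ)
  rwa [zpow_one] at this

theorem Mdl.φ_q (hmN : 0 < m ∧ m < N) (x : G.V) :
    D.W.φF (G.S (G.r x)) (D.q x) = ((((N : ℝ) / (m : ℝ)) ^ (-1 : ℤ) : ℝ) : ℂ) := by
  have hx : x ∈ G.T (G.r x) := (G.mem_T _ _).2 rfl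
  have hpos : ((N : ℝ) / (m : ℝ)) ≠ 0 := by
    have h1 : (0 : ℝ) < m := by exact_mod_cast hmN.1
    have h2 : (0 : ℝ) < N := by exact_mod_cast hmN.1.trans hmN.2
    positivity
  have h1 := KMS.conj D.e_mem_A hpos (D.u_mem_A (G.r x)) (D.kms_u (G.r x))
  have h2 := KMS.scale D.e_mem_A (star_mem (D.u_mem_A (G.r x))) h1 (S' := G.T (G.r x))
    (S := G.S (G.r x)) (by rw [star_star]; exact D.fhs.iT _) (by rw [star_star]; exact D.fhs.iS _)
    (D.e_mem_A x)
  rw [star_star, ← D.q_eq, D.W.φF_e_mem hx, mul_one] at h2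
  rw [h2, zpow_neg_one]

theorem Mdl.exists_w (hmN : 0 < m ∧ m < N) (x : G.V) :
    ∃ w ∈ D.R, D.Hom 0 w ∧ star w * w = D.W.e G.o ∧ w * star w = D.W.e x := by
  refine D.exists_pi hmN 0 (D.W.e G.o) (D.W.e x) (D.e_mem_R _) (D.e_mem_R _) (D.W.idem _)
    (D.W.sa _) (D.W.idem _) (D.W.sa _) (D.hom_e _) (D.hom_e _) {G.o} {x} ?_ ?_ ?_
  · rw [D.W.eF_singleton, D.W.idem]
  · rw [D.W.eF_singleton, D.W.idem]
  · rw [D.W.φF_e_mem (Finset.mem_singleton_self _), D.W.φF_e_mem (Finset.mem_singleton_self _)]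
    simp

theorem Mdl.exists_k (hmN : 0 < m ∧ m < N) (x : G.V) :
    ∃ k ∈ D.R, D.Hom (-1) k ∧ star k * k = D.W.e x ∧ k * star k = D.q x := by
  have hq1 : D.q x * D.q x = D.q x := by
    unfold Mdl.q
    calc star D.t * D.W.e x * D.t * (star D.t * D.W.e x * D.t)
        = star D.t * D.W.e x * (D.t * star D.t) * D.W.e x * D.t := by noncomm_ring
      _ = star D.t * (D.W.e x * D.W.e x) * D.t := by rw [D.t2, mul_one]; noncomm_ring
      _ = _ := by rw [D.W.idem]
  have hq2 : star (D.q x) = D.q x := by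
    unfold Mdl.q
    rw [star_mul, star_mul, star_star, D.W.sa, mul_assoc]
  refine D.exists_pi hmN (-1) (D.W.e x) (D.q x) (D.e_mem_R _) (D.q_mem_R _) (D.W.idem _)
    (D.W.sa _) hq1 hq2 (D.hom_e _) (D.hom_q _) {x} (G.S (G.r x)) ?_ ?_ ?_
  · rw [D.W.eF_singleton, D.W.idem]
  · have e : D.W.eF (G.S (G.r x)) * star (D.t * D.W.eF (G.S (G.r x))) =
        star (D.t * D.W.eF (G.S (G.r x))) := by
      rw [star_mul, D.W.eF_sa, ← mul_assoc, D.W.eF_idem]
    have e' : ∀ a b c d : Op H, a * (b * c * d) = (a * b) * c * d := fun a b c d => by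
      noncomm_ring
    rw [D.q_eq, e', e]
  · rw [D.φ_q hmN, D.W.φF_e_mem (Finset.mem_singleton_self _), mul_one]

theorem Mdl.exists_k1 (hmN : 0 < m ∧ m < N) {k m1 n1 : ℕ} (hm : m = k * m1) (hN : N = k * n1)
    (zz : ℕ ≃ G.V) :
    ∃ y ∈ D.R, D.Hom 1 y ∧ star y * y = D.W.eF (seg zz m1) ∧ y * star y = D.W.eF (seg zz n1) := by
  refine D.exists_pi hmN 1 (D.W.eF (seg zz m1)) (D.W.eF (seg zz n1)) (D.W.eF_mem D.e_mem_R _)
    (D.W.eF_mem D.e_mem_R _) (D.W.eF_idem _) (D.W.eF_sa _) (D.W.eF_idem _) (D.W.eF_sa _)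
    (D.hom_eF _) (D.hom_eF _) (seg zz m1) (seg zz n1) (D.W.eF_idem _) (D.W.eF_idem _) ?_
  rw [D.W.φF_eF, D.W.φF_eF, zpow_one]
  have hk : (k : ℂ) ≠ 0 := by
    rintro h
    have : k = 0 := by exact_mod_cast h
    subst this
    omega
  have hm1 : (m1 : ℂ) ≠ 0 := by
    rintro h
    have : m1 = 0 := by exact_mod_cast h
    subst this
    omega
  simp only [seg, Finset.card_map, Finset.card_range]
  rw [hm, hN]
  push_cast
  field_simp

end pis

theorem exists_enum {V : Type} [Countable V] [Infinite V] (o : V) : ∃ zz : ℕ ≃ V, zz 0 = o := by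
  obtain ⟨_⟩ := nonempty_denumerable V
  classical
  refine ⟨(Denumerable.eqv V).symm.trans (Equiv.swap ((Denumerable.eqv V).symm 0) o), ?_⟩
  simp

section free
variable {V J H H' : Type} [NormedAddCommGroup H] [InnerProductSpace ℂ H] [CompleteSpace H]
  [NormedAddCommGroup H'] [InnerProductSpace ℂ H'] [CompleteSpace H']

/-- Comparison of free families over isomorphic bases. -/
theorem spEq_free (W : WSys V H) (W' : WSys V H') (π : Op H →⋆ₐ[ℂ] Op H')
    (he : ∀ x, π (W.e x) = W'.e x)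
    (hξ : ∀ X x y, ⟪W'.ξ x, π X (W'.ξ y)⟫_ℂ = ⟪W.ξ x, X (W.ξ y)⟫_ℂ)
    {B : StarSubalgebra ℂ (Op H)} {U : J → Op H} {U' : J → Op H'} {S T : J → Finset V}
    (h : FHS W B U S T) (h' : FHS W' (B.map π) U' S T) (o : V) :
    SpEq (vNa ((B : Set (Op H)) ∪ Set.range U)) (W.ξ o)
      (vNa (((B.map π : StarSubalgebra ℂ (Op H')) : Set (Op H')) ∪ Set.range U')) (W'.ξ o) := by
  set γ : Op H →⋆ₐ[ℂ] (Op H × Op H') := StarAlgHom.prod (StarAlgHom.id ℂ (Op H)) π with hγ
  have hγ1 : ∀ {p}, p ∈ B.map γ ↔ ∃ b, b ∈ B ∧ (b, π b) = p := by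
    intro p
    rw [StarSubalgebra.mem_map]
    rfl
  have hφ : ∀ (F : Finset V) (b : Op H), W.φF F b = W'.φF F (π b) := by
    intro F b
    rw [W.φF_apply, W'.φF_apply]
    exact Finset.sum_congr rfl fun x _ => (hξ b x x).symm
  have heF : ∀ F : Finset V, π (W.eF F) = W'.eF F := by
    intro F
    simp only [WSys.eF, map_sum, he]
  have hm := h.moments h' (B.map γ) (fun p hp => by obtain ⟨b, hb, rfl⟩ := hγ1.1 hp; exact hb)
    (fun p hp => by
      obtain ⟨b, hb, rfl⟩ := hγ1.1 hp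
      exact StarSubalgebra.mem_map.2 ⟨b, hb, rfl⟩) o o o o
    (fun p hp j => by obtain ⟨b, hb, rfl⟩ := hγ1.1 hp; exact hφ _ _)
    (fun p hp j => by obtain ⟨b, hb, rfl⟩ := hγ1.1 hp; exact hφ _ _)
    (fun p hp => by obtain ⟨b, hb, rfl⟩ := hγ1.1 hp; exact (hξ _ _ _).symm)
    (fun j => hγ1.2 ⟨_, W.eF_mem h.mem_e _, by rw [heF]⟩)
    (fun j => hγ1.2 ⟨_, W.eF_mem h.mem_e _, by rw [heF]⟩) (fun _ => rfl) (fun _ => rfl)
  have h1 := SpEq.of_gens _ (W.ξ o) (W'.ξ o) hm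
  rw [Set.image_union, Set.image_union, ← Set.range_comp, ← Set.range_comp] at h1
  have e1 : Prod.fst '' ((B.map γ : StarSubalgebra ℂ (Op H × Op H')) : Set (Op H × Op H')) =
      (B : Set (Op H)) := by
    ext b
    constructor
    · rintro ⟨p, hp, rfl⟩
      obtain ⟨b, hb, rfl⟩ := hγ1.1 hp
      exact hb
    · intro hb
      exact ⟨(b, π b), hγ1.2 ⟨b, hb, rfl⟩, rfl⟩
  have e2 : Prod.snd '' ((B.map γ : StarSubalgebra ℂ (Op H × Op H')) : Set (Op H × Op H')) =
      ((B.map π : StarSubalgebra ℂ (Op H')) : Set (Op H')) := by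
    ext b
    constructor
    · rintro ⟨p, hp, rfl⟩
      obtain ⟨b, hb, rfl⟩ := hγ1.1 hp
      exact StarSubalgebra.mem_map.2 ⟨b, hb, rfl⟩
    · intro hb
      obtain ⟨b', hb', rfl⟩ := StarSubalgebra.mem_map.1 hb
      exact ⟨(b', π b'), hγ1.2 ⟨b', hb', rfl⟩, rfl⟩
  rw [e1, e2] at h1
  exact h1

end free

section stage1
variable {m N : ℕ} {G : HG m N} {H : Type} [NormedAddCommGroup H] [InnerProductSpace ℂ H]
  [CompleteSpace H] (D : Mdl G H)

/-- The first Fock extension: matrix units `v x * star (v y)` free from the edges. -/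
theorem Mdl.stage1 (w : G.V → Op H) (hw : ∀ x, w x ∈ D.A) (w0 : ∀ x, D.Hom 0 (w x))
    (w1 : ∀ x, star (w x) * w x = D.W.e G.o) (w2 : ∀ x, w x * star (w x) = D.W.e x) :
    ∃ (F : Type) (_ : NormedAddCommGroup F) (_ : InnerProductSpace ℂ F) (_ : CompleteSpace F)
      (E : FockExt H G.V D.W.ξ F) (v : G.V → Op F) (c' : {x : G.V // x ≠ G.o} → Op F),
      v G.o = (D.W.push E).e G.o ∧
      (∀ x, star (v x) * v x = (D.W.push E).e G.o) ∧
      (∀ x, v x * star (v x) = (D.W.push E).e x) ∧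
      (∀ x : {x : G.V // x ≠ G.o}, v x = E.π (w x) * c' x) ∧
      FHS (D.W.push E) (D.A.map E.π) c' (fun _ => {G.o}) (fun _ => {G.o}) ∧
      (∀ x, KMS (D.W.push E)
        (vNa (((D.A.map E.π : StarSubalgebra ℂ (Op F)) : Set (Op F)) ∪ Set.range v)) 1 (v x)) ∧
      (∀ c X, X ∈ D.A → KMS D.W D.A c X → KMS (D.W.push E)
        (vNa (((D.A.map E.π : StarSubalgebra ℂ (Op F)) : Set (Op F)) ∪ Set.range v)) c (E.π X)) ∧
      FHS (D.W.push E) (vNa (Set.range v)) (fun χ => E.π (D.t * D.W.eF (G.S χ))) G.S G.T := by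
  classical
  obtain ⟨F, _, _, _, ⟨E⟩⟩ := exists_fockExt H G.V D.W.ξ D.W.norm_ξ
  set W1 := D.W.push E with hW1
  have hW1e : ∀ x, W1.e x = E.π (D.W.e x) := fun _ => rfl
  set f : G.V → Op F := HH W1 (fun x => E.ℓ x * E.π (D.W.e x)) (fun x => {x}) with hf
  have hf0 : FHS W1 E.π.range f (fun x => {x}) (fun x => {x}) := (FSys.first E).fhsA
  have hAr : D.A.map E.π ≤ E.π.range := by
    intro X hX
    obtain ⟨b, _, rfl⟩ := StarSubalgebra.mem_map.1 hX
    exact ⟨b, rfl⟩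
  have hmem : ∀ {B : StarSubalgebra ℂ (Op H)} {X : Op H}, X ∈ B → E.π X ∈ B.map E.π :=
    fun h => StarSubalgebra.mem_map.2 ⟨_, h, rfl⟩
  have hfA : FHS W1 (D.A.map E.π) f (fun x => {x}) (fun x => {x}) :=
    hf0.le hAr (fun x => hmem (D.e_mem_A x))
  have hkA : ∀ {Y : Op H}, Y ∈ D.A → D.Hom 0 Y → KMS W1 (D.A.map E.π) 1 (E.π Y) := by
    intro Y hY h0
    have := (D.kms 0 Y hY h0).push E
    rw [zpow_zero] at this
    exact this
  have hπw1 : ∀ x, star (E.π (w x)) * E.π (w x) = W1.eF {G.o} := fun x => by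
    rw [← map_star, ← map_mul, w1, W1.eF_singleton, hW1e]
  have hπw2 : ∀ x, E.π (w x) * star (E.π (w x)) = W1.eF {x} := fun x => by
    rw [← map_star, ← map_mul, w2, W1.eF_singleton, hW1e]
  have hfC : FHS W1 (D.A.map E.π) (fun x : {x : G.V // x ≠ G.o} => f x) (fun x => {(x : G.V)})
      (fun x => {(x : G.V)}) :=
    hfA.reidx Subtype.val Subtype.val_injective (fun _ => rfl) (fun _ => rfl) (fun _ => rfl)
  have hsc : ∀ x, ∀ b ∈ D.A.map E.π, W1.φF {G.o} b = 0 →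
      W1.φF {x} (E.π (w x) * b * star (E.π (w x))) = 0 := fun x b hb hb0 => by
    have h5 := KMS.scale (W := W1) (M := D.A.map E.π) hfA.mem_e (hmem (hw x))
      (hkA (hw x) (w0 x)) (S' := {G.o}) (S := {x}) (hπw1 x) (hπw2 x) hb
    rw [h5, hb0, mul_zero]
  have hc' := hfC.abs (fun x => star (E.π (w x))) (fun x => E.π (w x))
    (fun x => star_mem (hmem (hw x))) (fun x => hmem (hw x)) (fun _ => {G.o}) (fun _ => {G.o})
    (fun _ => Finset.singleton_nonempty _) (fun _ => Finset.singleton_nonempty _)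
    (fun x => hπw1 x) (fun x => hπw2 x) (fun x => by rw [star_star]; exact hπw2 x)
    (fun x => by rw [star_star]; exact hπw1 x) (fun x => hsc x)
    (fun x => by rw [star_star]; exact hsc x)
  have hv0 := hfC.abs (fun x => W1.eF {(x : G.V)}) (fun x => E.π (w x))
    (fun x => W1.eF_mem hfA.mem_e _) (fun x => hmem (hw x)) (fun _ => {G.o})
    (fun x => {(x : G.V)})
    (fun _ => Finset.singleton_nonempty _) (fun _ => Finset.singleton_nonempty _)
    (fun x => hπw1 x) (fun x => hπw2 x) (fun x => by rw [W1.eF_sa, W1.eF_idem])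
    (fun x => by rw [W1.eF_sa, W1.eF_idem]) (fun x => hsc x)
    (fun x b hb hb0 => by
      rw [W1.eF_sa, W1.φF_singleton]
      rw [W1.φF_singleton] at hb0
      rw [← hb0]
      change ⟪W1.ξ x, W1.eF {(x : G.V)} (b (W1.eF {(x : G.V)} (W1.ξ x)))⟫_ℂ = _
      rw [W1.eF_ξ_mem (Finset.mem_singleton_self _), inner_op_star, W1.eF_sa,
        W1.eF_ξ_mem (Finset.mem_singleton_self _)])
  have f1 : ∀ y, star (f y) * f y = W1.e y := fun y => by
    have := hf0.iS y; rwa [W1.eF_singleton] at this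
  have f2 : ∀ y, f y * star (f y) = W1.e y := fun y => by
    have := hf0.iT y; rwa [W1.eF_singleton] at this
  set v : G.V → Op F := fun x => if x = G.o then W1.e G.o else f x * E.π (w x) with hv
  have hvo : v G.o = W1.e G.o := by simp [hv]
  have hvx : ∀ x, x ≠ G.o → v x = f x * E.π (w x) := fun x hx => by simp [hv, hx]
  have hπw1' : ∀ x, star (E.π (w x)) * E.π (w x) = W1.e G.o := fun x => by
    rw [hπw1, W1.eF_singleton]
  have hπw2' : ∀ x, E.π (w x) * star (E.π (w x)) = W1.e x := fun x => by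
    rw [hπw2, W1.eF_singleton]
  have v1 : ∀ x, star (v x) * v x = W1.e G.o := by
    intro x
    by_cases hx : x = G.o
    · subst hx; rw [hvo, W1.sa, W1.idem]
    · rw [hvx x hx, star_mul, mul_assoc, ← mul_assoc (star (f x)), f1,
        W1.le_left (hπw2' x), hπw1']
  have v2 : ∀ x, v x * star (v x) = W1.e x := by
    intro x
    by_cases hx : x = G.o
    · subst hx; rw [hvo, W1.sa, W1.idem]
    · rw [hvx x hx, star_mul, mul_assoc, ← mul_assoc (E.π (w x)), hπw2', ← mul_assoc,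
        W1.le_right (f1 x), f2]
  have hvC : FHS W1 (D.A.map E.π) (fun x : {x : G.V // x ≠ G.o} => v x) (fun _ => {G.o})
      (fun x => {(x : G.V)}) := by
    refine hv0.reidx id Function.injective_id (fun x => ?_) (fun _ => rfl) (fun _ => rfl)
    change v x = W1.eF {(x : G.V)} * f x * E.π (w x)
    rw [hvx x x.2, W1.eF_singleton, W1.le_left (f2 x)]
  have hvv : vNa (((D.A.map E.π : StarSubalgebra ℂ (Op F)) : Set (Op F)) ∪
      Set.range (fun x : {x : G.V // x ≠ G.o} => v x)) =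
      vNa (((D.A.map E.π : StarSubalgebra ℂ (Op F)) : Set (Op F)) ∪ Set.range v) := by
    apply vNa_eq
    · rintro X (hX | ⟨x, rfl⟩)
      · exact subset_vNa _ (Or.inl hX)
      · exact subset_vNa _ (Or.inr ⟨x, rfl⟩)
    · rintro X (hX | ⟨x, rfl⟩)
      · exact subset_vNa _ (Or.inl hX)
      · by_cases hx : x = G.o
        · subst hx; rw [hvo]; exact subset_vNa _ (Or.inl (hfA.mem_e _))
        · exact subset_vNa _ (Or.inr ⟨⟨x, hx⟩, rfl⟩)
  have hD0 : (vNa (Set.range D.W.e)).map E.π ≤ D.A.map E.π := StarSubalgebra.map_mono D.Dg_le_A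
  refine ⟨F, _, _, _, E, v, fun x => star (E.π (w x)) * f x * E.π (w x), hvo, v1, v2, ?_, hc',
    ?_, ?_, ?_⟩
  · intro x
    rw [hvx x x.2, ← mul_assoc, ← mul_assoc, hπw2', W1.le_left (f2 x)]
  · intro x
    by_cases hx : x = G.o
    · subst hx
      rw [hvo]
      exact KMS.eproj (fun y => subset_vNa _ (Or.inl (hfA.mem_e y))) _
    · have := hvC.kms_letter ⟨x, hx⟩
      simp only [Finset.card_singleton, Nat.cast_one, div_one] at this
      rwa [hvv] at this
  · intro c X hX hK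
    have := hvC.kms_extend (hmem hX) (hK.push E)
    rwa [hvv] at this
  · have h1 := ((D.fhs.push E).assoc_inv hvC hD0 (fun χ => hmem (D.u_mem_A χ))).swap.assocV
    refine h1.le (vNa_le ?_) (fun x => ?_)
    · rintro X ⟨x, rfl⟩
      by_cases hx : x = G.o
      · subst hx; rw [hvo]
        exact subset_vNa _ (Or.inl (hmem (subset_vNa _ ⟨_, rfl⟩)))
      · exact subset_vNa _ (Or.inr ⟨⟨x, hx⟩, rfl⟩)
    · rw [← hW1, ← v2 x]
      exact mul_mem (subset_vNa _ ⟨x, rfl⟩) (star_mem (subset_vNa _ ⟨x, rfl⟩))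

end stage1

end Pool.Agent.MP9a76ab
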