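import Pool.Agent.Lib.MP_9a76ab_an.PartA
import Pool.Agent.Lib.MP_9a76ab_an.FockBlk
import Pool.Agent.Lib.MP_9a76ab_an.FockLB
import Pool.Agent.Lib.MP_9a76ab_an.FockGen
import Pool.Agent.Lib.MP_9a76ab_an.Defs3

/-! Assembly, part C: the second Fock extension. -/

set_option autoImplicit false

namespace Pool.Agent.MP9a76ab

open scoped InnerProductSpace

section
variable {V F F2 K2 : Type} [NormedAddCommGroup F] [InnerProductSpace ℂ F] [CompleteSpace F]
  [NormedAddCommGroup F2] [InnerProductSpace ℂ F2] [CompleteSpace F2]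

/-- the Haar letter of a block -/
noncomputable def hbl (W : WSys V F) {ξ : K2 → F} (E : FockExt F K2 ξ F2) (v : V → Op F) {r : ℕ}
    (z : Fin r → V) (κ : Fin r × Fin r → K2) (P : Finset V) : Op F2 :=
  HH (W.push E) (fun _ : Unit => LB E v z κ) (fun _ => P) ()

theorem univ_map_seg (zz : ℕ ≃ V) (r : ℕ)
    (h : Function.Injective (fun i : Fin r => zz i)) :
    Finset.univ.map ⟨fun i : Fin r => zz i, h⟩ = seg zz r := by
  ext x
  simp only [Finset.mem_map, Finset.mem_univ, Function.Embedding.coeFn_mk, true_and, seg,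
    Finset.mem_range]
  constructor
  · rintro ⟨i, rfl⟩; exact ⟨i, i.2, rfl⟩
  · rintro ⟨i, hi, rfl⟩; exact ⟨⟨i, hi⟩, rfl⟩

theorem univ_map_one (o : V) (h : Function.Injective (fun _ : Fin 1 => o)) :
    Finset.univ.map ⟨fun _ : Fin 1 => o, h⟩ = {o} := by
  ext x
  simp [eq_comm]

theorem lb_one {W : WSys V F} {o : V} (E : FockExt F K2 (fun _ => W.ξ o) F2) (v : V → Op F)
    (vo : v o = W.e o) (κ : K2) :
    LB E v (fun _ : Fin 1 => o) (fun _ => κ) = E.ℓ κ * E.π (W.e o) := by
  have h0 : E.π (W.e o) * E.ℓ κ = E.ℓ κ := by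
    have h1 := E.rel κ (1 - W.e o)
    have h2 : ⟪W.ξ o, (1 - W.e o : Op F) (W.ξ o)⟫_ℂ = 0 := by
      have : (1 - W.e o : Op F) (W.ξ o) = 0 := by
        change W.ξ o - W.e o (W.ξ o) = 0
        rw [W.eξ, sub_self]
      rw [this, inner_zero_right]
    rw [h2, zero_smul] at h1
    have h3 : star (E.π (1 - W.e o) * E.ℓ κ) * (E.π (1 - W.e o) * E.ℓ κ) = 0 := by
      have h4 : star (E.π (1 - W.e o)) * E.π (1 - W.e o) = E.π (1 - W.e o) := by
        rw [← map_star, ← map_mul]
        congr 1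
        rw [star_sub, star_one, W.sa, sub_mul, mul_sub, mul_sub, W.idem]
        simp
      rw [star_mul, mul_assoc, ← mul_assoc (star (E.π (1 - W.e o))), h4, ← mul_assoc]
      exact h1
    have h5 : E.π (1 - W.e o) * E.ℓ κ = 0 := by
      have h6 : ‖E.π (1 - W.e o) * E.ℓ κ‖ * ‖E.π (1 - W.e o) * E.ℓ κ‖ = 0 := by
        rw [← CStarRing.norm_star_mul_self, h3, norm_zero]
      exact norm_eq_zero.1 (mul_self_eq_zero.1 h6)
    rw [map_sub, map_one, sub_mul, one_mul, sub_eq_zero] at h5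
    exact h5.symm
  unfold LB
  simp only [Finset.univ_unique, Finset.sum_singleton, lhat, if_true, vo, W.sa, Nat.cast_one,
    Real.sqrt_one, Complex.ofReal_one, inv_one, one_smul, h0]

variable {W : WSys V F}

theorem blocks_fhs {o : V} (E : FockExt F K2 (fun _ => W.ξ o) F2)
    (B : StarSubalgebra ℂ (Op F)) (hB : ∀ x, W.e x ∈ B) (v : V → Op F) (hv : ∀ x, v x ∈ B)
    (v1 : ∀ x, star (v x) * v x = W.e o) (v2 : ∀ x, v x * star (v x) = W.e x)
    (vk : ∀ x, KMS W B 1 (v x)) {J : Type} (r : J → ℕ) (hr : ∀ j, 0 < r j)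
    (z : ∀ j, Fin (r j) → V)
    (hz : ∀ j, Function.Injective (z j)) (κ : ∀ j, Fin (r j) × Fin (r j) → K2)
    (hκ : Function.Injective (fun p : Σ j, Fin (r j) × Fin (r j) => κ p.1 p.2))
    (P : J → Finset V) (hP : ∀ j, Finset.univ.map ⟨z j, hz j⟩ = P j) :
    FHS (W.push E) (B.map E.π) (fun j => hbl W E v (z j) (κ j) (P j)) P P := by
  have h := (FSys.blocks E B hB v hv v1 v2 vk r hr z hz κ hκ).fhs
  have hP' : (fun j => Finset.univ.map ⟨z j, hz j⟩) = P := funext hP
  rw [hP'] at h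
  exact h

theorem gen_semi {o : V} (E : FockExt F K2 (fun _ => W.ξ o) F2)
    (B : StarSubalgebra ℂ (Op F)) (hB : ∀ x, W.e x ∈ B) (v : V → Op F) (hv : ∀ x, v x ∈ B)
    (v1 : ∀ x, star (v x) * v x = W.e o) (v2 : ∀ x, v x * star (v x) = W.e x)
    (vk : ∀ x, KMS W B 1 (v x)) {r : ℕ} (hr : 0 < r) (z : Fin r → V)
    (hz : Function.Injective z) (κ : Fin r × Fin r → K2) (hκ : Function.Injective κ)
    (P : Finset V) (hP : Finset.univ.map ⟨z, hz⟩ = P) :
    LB E v z κ + star (LB E v z κ) ∈ vNa {hbl W E v z κ P} := by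
  have h := FSys.blocks E B hB v hv v1 v2 vk (fun _ : Unit => r) (fun _ => hr) (fun _ => z)
    (fun _ => hz) (fun _ => κ) (by
      rintro ⟨⟨⟩, p⟩ ⟨⟨⟩, q⟩ h
      have : p = q := hκ h
      rw [this])
  have := h.gen () (LB_pure E v z κ)
  simp only [hP] at this
  exact this

theorem hbl_mem {o : V} (E : FockExt F K2 (fun _ => W.ξ o) F2)
    (B : StarSubalgebra ℂ (Op F)) (hB : ∀ x, W.e x ∈ B) (v : V → Op F) (hv : ∀ x, v x ∈ B)
    (v1 : ∀ x, star (v x) * v x = W.e o) (v2 : ∀ x, v x * star (v x) = W.e x)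
    (vk : ∀ x, KMS W B 1 (v x)) {r : ℕ} (hr : 0 < r) (z : Fin r → V)
    (hz : Function.Injective z) (κ : Fin r × Fin r → K2) (hκ : Function.Injective κ)
    (P : Finset V) (hP : Finset.univ.map ⟨z, hz⟩ = P) :
    hbl W E v z κ P ∈ vNa {LB E v z κ + star (LB E v z κ), (W.push E).eF P} := by
  have h := FSys.blocks E B hB v hv v1 v2 vk (fun _ : Unit => r) (fun _ => hr) (fun _ => z)
    (fun _ => hz) (fun _ => κ) (by
      rintro ⟨⟨⟩, p⟩ ⟨⟨⟩, q⟩ h
      have : p = q := hκ h
      rw [this])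
  have := HH_mem h ()
  simp only [hP] at this
  exact this


/-- the Haar letter of a `1 × 1` block -/
noncomputable def ha (W : WSys V F) {o : V} (E : FockExt F K2 (fun _ => W.ξ o) F2)
    (v : V → Op F) (κ : K2) : Op F2 :=
  hbl W E v (fun _ : Fin 1 => o) (fun _ => κ) {o}

theorem vproj_mem {o : V} (E : FockExt F K2 (fun _ => W.ξ o) F2) (v : V → Op F)
    (v2 : ∀ x, v x * star (v x) = W.e x) (S : Set (Op F2))
    (hS : Set.range (fun x => E.π (v x)) ⊆ S) (P : Finset V) : (W.push E).eF P ∈ vNa S := by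
  refine (W.push E).eF_mem (fun x => ?_) P
  change E.π (W.e x) ∈ _
  rw [← v2 x, map_mul, map_star]
  exact mul_mem (subset_vNa _ (hS ⟨x, rfl⟩)) (star_mem (subset_vNa _ (hS ⟨x, rfl⟩)))

section gens
variable {o : V} (E : FockExt F K2 (fun _ => W.ξ o) F2)
    (B : StarSubalgebra ℂ (Op F)) (hB : ∀ x, W.e x ∈ B) (v : V → Op F) (hv : ∀ x, v x ∈ B)
    (vo : v o = W.e o)
    (v1 : ∀ x, star (v x) * v x = W.e o) (v2 : ∀ x, v x * star (v x) = W.e x)
    (vk : ∀ x, KMS W B 1 (v x))

include B hB hv vo v1 v2 vk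

theorem gen_one (κ : K2) :
    E.ℓ κ * E.π (W.e o) + star (E.ℓ κ * E.π (W.e o)) ∈ vNa {ha W E v κ} := by
  have := gen_semi E B hB v hv v1 v2 vk one_pos (fun _ : Fin 1 => o)
    (fun a b _ => Subsingleton.elim a b) (fun _ => κ) (fun a b _ => Subsingleton.elim a b) {o}
    (univ_map_one o _)
  rwa [lb_one E v vo κ] at this

theorem ha_mem (κ : K2) :
    ha W E v κ ∈ vNa {E.ℓ κ * E.π (W.e o) + star (E.ℓ κ * E.π (W.e o)), (W.push E).eF {o}} := by
  have := hbl_mem E B hB v hv v1 v2 vk one_pos (fun _ : Fin 1 => o)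
    (fun a b _ => Subsingleton.elim a b) (fun _ => κ) (fun a b _ => Subsingleton.elim a b) {o}
    (univ_map_one o _)
  rwa [lb_one E v vo κ] at this

theorem hbl_gen1 {r : ℕ} (hr : 0 < r) (z : Fin r → V)
    (hz : Function.Injective z) (κ : Fin r × Fin r → K2) (hκ : Function.Injective κ)
    (P : Finset V) (hP : Finset.univ.map ⟨z, hz⟩ = P) :
    hbl W E v z κ P ∈ vNa (Set.range (fun x => E.π (v x)) ∪
      Set.range (fun p => ha W E v (κ p))) := by
  refine vNa_le ?_ (hbl_mem E B hB v hv v1 v2 vk hr z hz κ hκ P hP)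
  rintro X (rfl | rfl)
  · refine vNa_le ?_ (LB_gen1 E v v1 v2 z κ)
    rintro X (⟨x, rfl⟩ | ⟨p, rfl⟩)
    · exact subset_vNa _ (Or.inl ⟨x, rfl⟩)
    · refine vNa_mono ?_ (gen_one E B hB v hv vo v1 v2 vk (κ p))
      rintro X rfl
      exact Or.inr ⟨p, rfl⟩
  · exact vproj_mem E v v2 _ Set.subset_union_left P

theorem hbl_gen2 {r : ℕ} (hr : 0 < r) (z : Fin r → V)
    (hz : Function.Injective z) (κ : Fin r × Fin r → K2) (hκ : Function.Injective κ)
    (P : Finset V) (hP : Finset.univ.map ⟨z, hz⟩ = P) (p : Fin r × Fin r) :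
    ha W E v (κ p) ∈ vNa (Set.range (fun x => E.π (v x)) ∪ {hbl W E v z κ P}) := by
  refine vNa_le ?_ (ha_mem E B hB v hv vo v1 v2 vk (κ p))
  rintro X (rfl | rfl)
  · refine vNa_le ?_ (LB_gen2 E v v1 v2 hr z hz κ p)
    rintro X (⟨x, rfl⟩ | rfl)
    · exact subset_vNa _ (Or.inl ⟨x, rfl⟩)
    · exact vNa_mono Set.subset_union_right (gen_semi E B hB v hv v1 v2 vk hr z hz κ hκ P hP)
  · exact vproj_mem E v v2 _ Set.subset_union_left {o}

end gens

end

section stage2
variable {V F : Type} [NormedAddCommGroup F] [InnerProductSpace ℂ F] [CompleteSpace F]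

theorem stage2_fock {W : WSys V F} (zz : ℕ ≃ V) (B : StarSubalgebra ℂ (Op F))
    (hB : ∀ x, W.e x ∈ B) (v : V → Op F) (hv : ∀ x, v x ∈ B)
    (vo : v (zz 0) = W.e (zz 0)) (v1 : ∀ x, star (v x) * v x = W.e (zz 0))
    (v2 : ∀ x, v x * star (v x) = W.e x)
    (vk : ∀ x, KMS W B 1 (v x)) {m1 m : ℕ} (h1 : 0 < m1) (h2 : 0 < m) (K : Type) :
    ∃ (F2 : Type) (_ : NormedAddCommGroup F2) (_ : InnerProductSpace ℂ F2)
      (_ : CompleteSpace F2)
      (E : FockExt F ((Fin m1 × Fin m1) ⊕ ((K × (Fin m × Fin m)) ⊕ ℕ))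
        (fun _ => W.ξ (zz 0)) F2)
      (h : Op F2) (hK : K → Op F2) (a1 : Fin m1 × Fin m1 → Op F2)
      (a2 : K × (Fin m × Fin m) → Op F2) (a3 : ℕ → Op F2),
      FHS (W.push E) (B.map E.π) (Sum.elim a1 (Sum.elim a2 a3)) (fun _ => {zz 0})
        (fun _ => {zz 0}) ∧
      FHS (W.push E) (B.map E.π) (Sum.elim (fun _ : Unit => h) (Sum.elim a2 a3))
        (Sum.elim (fun _ => seg zz m1) (fun _ => {zz 0}))
        (Sum.elim (fun _ => seg zz m1) (fun _ => {zz 0})) ∧
      FHS (W.push E) (B.map E.π) (Sum.elim (fun _ : Unit => h) (Sum.elim hK a3))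
        (Sum.elim (fun _ => seg zz m1) (Sum.elim (fun _ => seg zz m) (fun _ => {zz 0})))
        (Sum.elim (fun _ => seg zz m1) (Sum.elim (fun _ => seg zz m) (fun _ => {zz 0}))) ∧
      h ∈ vNa (Set.range (fun x => E.π (v x)) ∪ Set.range a1) ∧
      (∀ p, a1 p ∈ vNa (Set.range (fun x => E.π (v x)) ∪ {h})) ∧
      (∀ χ, hK χ ∈ vNa (Set.range (fun x => E.π (v x)) ∪ Set.range a2)) ∧
      (∀ p, a2 p ∈ vNa (Set.range (fun x => E.π (v x)) ∪ Set.range hK)) := by
  obtain ⟨F2, _, _, _, ⟨E⟩⟩ := exists_fockExt F ((Fin m1 × Fin m1) ⊕ ((K × (Fin m × Fin m)) ⊕ ℕ))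
    (fun _ => W.ξ (zz 0)) (fun _ => W.norm_ξ _)
  have hzz : ∀ r, Function.Injective (fun i : Fin r => zz i) := fun r i j hij =>
    Fin.ext (zz.injective hij)
  have hz1 : Function.Injective (fun _ : Fin 1 => zz 0) := fun a b _ => Subsingleton.elim a b
  set h : Op F2 := hbl W E v (fun i : Fin m1 => zz i) Sum.inl (seg zz m1) with hh
  set hK : K → Op F2 := fun χ => hbl W E v (fun i : Fin m => zz i)
    (fun p => Sum.inr (Sum.inl (χ, p))) (seg zz m) with hhK
  refine ⟨F2, _, _, _, E, h, hK, fun p => ha W E v (Sum.inl p),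
    fun p => ha W E v (Sum.inr (Sum.inl p)), fun i => ha W E v (Sum.inr (Sum.inr i)),
    ?_, ?_, ?_, ?_, ?_, ?_, ?_⟩
  · have := blocks_fhs E B hB v hv v1 v2 vk
      (J := (Fin m1 × Fin m1) ⊕ ((K × (Fin m × Fin m)) ⊕ ℕ)) (fun _ => 1) (fun _ => one_pos)
      (fun _ _ => zz 0) (fun _ => hz1) (fun j _ => j) (by
        rintro ⟨i, p⟩ ⟨j, q⟩ hij
        have : i = j := hij
        subst this
        have : p = q := Subsingleton.elim _ _
        rw [this]) (fun _ => {zz 0}) (fun _ => univ_map_one _ _)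
    refine this.reidx id Function.injective_id ?_ (fun _ => rfl) (fun _ => rfl)
    rintro (p | (p | i)) <;> rfl
  · have := blocks_fhs E B hB v hv v1 v2 vk
      (J := Unit ⊕ ((K × (Fin m × Fin m)) ⊕ ℕ))
      (fun j => match j with | Sum.inl _ => m1 | Sum.inr _ => 1)
      (fun j => match j with | Sum.inl _ => h1 | Sum.inr _ => one_pos)
      (fun j => match j with | Sum.inl _ => fun i => zz i | Sum.inr _ => fun _ => zz 0)
      (fun j => match j with | Sum.inl _ => hzz _ | Sum.inr _ => hz1)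
      (fun j => match j with | Sum.inl _ => Sum.inl | Sum.inr j => fun _ => Sum.inr j) (by
        rintro ⟨i | i, p⟩ ⟨j | j, q⟩ hij
        · have : p = q := Sum.inl_injective hij
          rw [this]
        · exact absurd hij (by simp)
        · exact absurd hij (by simp)
        · have : i = j := Sum.inr_injective hij
          subst this
          have : p = q := Subsingleton.elim (α := Fin 1 × Fin 1) _ _
          rw [this])
      (fun j => match j with | Sum.inl _ => seg zz m1 | Sum.inr _ => {zz 0})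
      (fun j => match j with | Sum.inl _ => univ_map_seg _ _ _ | Sum.inr _ => univ_map_one _ _)
    refine this.reidx id Function.injective_id ?_ ?_ ?_
    all_goals rintro (_ | (p | i)) <;> rfl
  · have := blocks_fhs E B hB v hv v1 v2 vk
      (J := Unit ⊕ (K ⊕ ℕ))
      (fun j => match j with | Sum.inl _ => m1 | Sum.inr (Sum.inl _) => m | Sum.inr (Sum.inr _) => 1)
      (fun j => match j with
        | Sum.inl _ => h1 | Sum.inr (Sum.inl _) => h2 | Sum.inr (Sum.inr _) => one_pos)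
      (fun j => match j with
        | Sum.inl _ => fun i => zz i | Sum.inr (Sum.inl _) => fun i => zz i
        | Sum.inr (Sum.inr _) => fun _ => zz 0)
      (fun j => match j with
        | Sum.inl _ => hzz _ | Sum.inr (Sum.inl _) => hzz _ | Sum.inr (Sum.inr _) => hz1)
      (fun j => match j with
        | Sum.inl _ => Sum.inl | Sum.inr (Sum.inl χ) => fun p => Sum.inr (Sum.inl (χ, p))
        | Sum.inr (Sum.inr i) => fun _ => Sum.inr (Sum.inr i)) (by
        rintro ⟨i | (i | i), p⟩ ⟨j | (j | j), q⟩ hij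
        · have : p = q := Sum.inl_injective hij
          rw [this]
        · exact absurd hij (by simp)
        · exact absurd hij (by simp)
        · exact absurd hij (by simp)
        · have h5 : (i, p) = (j, q) := Sum.inl_injective (Sum.inr_injective hij)
          have h6 : i = j := congrArg Prod.fst h5
          subst h6
          have : p = q := congrArg Prod.snd h5
          rw [this]
        · exact absurd hij (by simp)
        · exact absurd hij (by simp)
        · exact absurd hij (by simp)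
        · have : i = j := Sum.inr_injective (Sum.inr_injective hij)
          subst this
          have : p = q := Subsingleton.elim (α := Fin 1 × Fin 1) _ _
          rw [this])
      (fun j => match j with
        | Sum.inl _ => seg zz m1 | Sum.inr (Sum.inl _) => seg zz m | Sum.inr (Sum.inr _) => {zz 0})
      (fun j => match j with
        | Sum.inl _ => univ_map_seg _ _ _ | Sum.inr (Sum.inl _) => univ_map_seg _ _ _
        | Sum.inr (Sum.inr _) => univ_map_one _ _)
    refine this.reidx id Function.injective_id ?_ ?_ ?_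
    all_goals rintro (_ | (p | i)) <;> rfl
  · exact hbl_gen1 E B hB v hv vo v1 v2 vk h1 _ (hzz m1) _ Sum.inl_injective _
      (univ_map_seg _ _ _)
  · intro p
    exact hbl_gen2 E B hB v hv vo v1 v2 vk h1 _ (hzz m1) _ Sum.inl_injective _
      (univ_map_seg _ _ _) p
  · intro χ
    refine vNa_mono ?_ (hbl_gen1 E B hB v hv vo v1 v2 vk h2 (fun i : Fin m => zz i) (hzz m)
      (fun p => Sum.inr (Sum.inl (χ, p))) (fun p q hpq => by
        have := Sum.inl_injective (Sum.inr_injective hpq)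
        exact congrArg Prod.snd this) _ (univ_map_seg _ _ _))
    rintro X (⟨x, rfl⟩ | ⟨p, rfl⟩)
    · exact Or.inl ⟨x, rfl⟩
    · exact Or.inr ⟨(χ, p), rfl⟩
  · rintro ⟨χ, p⟩
    refine vNa_mono ?_ (hbl_gen2 E B hB v hv vo v1 v2 vk h2 (fun i : Fin m => zz i) (hzz m)
      (fun p => Sum.inr (Sum.inl (χ, p))) (fun p q hpq => by
        have := Sum.inl_injective (Sum.inr_injective hpq)
        exact congrArg Prod.snd this) _ (univ_map_seg _ _ _) p)
    rintro X (⟨x, rfl⟩ | rfl)
    · exact Or.inl ⟨x, rfl⟩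
    · exact Or.inr ⟨χ, rfl⟩

end stage2

end Pool.Agent.MP9a76ab
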