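import Pool.Agent.Lib.MP_9a76ab_an.PartA
import Pool.Agent.Lib.MP_9a76ab_an.Defs3

/-! Assembly, part D: matrix units; changing the size of the letters. -/

set_option autoImplicit false

namespace Pool.Agent.MP9a76ab

open scoped InnerProductSpace

section kms
variable {V J H : Type} [NormedAddCommGroup H] [InnerProductSpace ℂ H] [CompleteSpace H]
  {W : WSys V H} {M B : StarSubalgebra ℂ (Op H)}

theorem KMS.zero {c : ℝ} : KMS W M c 0 := by
  intro Y _ x y
  simp

theorem KMS.sum {c : ℝ} {I : Type} (F : Finset I) (A : I → Op H)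
    (h : ∀ i ∈ F, KMS W M c (A i)) : KMS W M c (∑ i ∈ F, A i) := by
  classical
  induction F using Finset.induction_on with
  | empty => simpa using KMS.zero
  | insert a s ha ih =>
    rw [Finset.sum_insert ha]
    exact KMS.add (h a (Finset.mem_insert_self _ _))
      (ih fun i hi => h i (Finset.mem_insert_of_mem hi))

theorem KMS.eF (hM : ∀ x, W.e x ∈ M) (F : Finset V) : KMS W M 1 (W.eF F) :=
  KMS.sum F _ fun x _ => KMS.eproj hM x

theorem KMS.le {M' : StarSubalgebra ℂ (Op H)} (hM : M' ≤ M) {c : ℝ} {X : Op H}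
    (h : KMS W M c X) : KMS W M' c X := fun Y hY => h Y (hM hY)

/-- absorption with KMS multipliers -/
theorem FHS.absK {U : J → Op H} {S T : J → Finset V} (h : FHS W B U S T) (g k : J → Op H)
    (hg : ∀ j, g j ∈ B) (hk : ∀ j, k j ∈ B) (S' T' : J → Finset V)
    (neS : ∀ j, (S' j).Nonempty) (neT : ∀ j, (T' j).Nonempty)
    (k1 : ∀ j, star (k j) * k j = W.eF (S' j)) (k2 : ∀ j, k j * star (k j) = W.eF (S j))
    (g1 : ∀ j, star (g j) * g j = W.eF (T j)) (g2 : ∀ j, g j * star (g j) = W.eF (T' j))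
    (kk : ∀ j, ∃ c : ℝ, c ≠ 0 ∧ KMS W B c (k j)) (kg : ∀ j, ∃ c : ℝ, c ≠ 0 ∧ KMS W B c (g j)) :
    FHS W B (fun j => g j * U j * k j) S' T' := by
  refine h.abs g k hg hk S' T' neS neT k1 k2 g1 g2 ?_ ?_
  · intro j b hb hb0
    obtain ⟨c, _, hc⟩ := kk j
    rw [KMS.scale h.mem_e (hk j) hc (k1 j) (k2 j) hb, hb0, mul_zero]
  · intro j b hb hb0
    obtain ⟨c, hc0, hc⟩ := kg j
    have h1 := KMS.scale h.mem_e (star_mem (hg j)) (KMS.conj h.mem_e hc0 (hg j) hc)
      (S' := T' j) (S := T j) (by rw [star_star]; exact g2 j) (by rw [star_star]; exact g1 j) hb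
    rw [star_star] at h1
    rw [h1, hb0, mul_zero]

/-- absorption on the left of one letter -/
theorem FHS.absU {I : Type} {h1 : Op H} {a : I → Op H} {S1 T1 T1' : Finset V}
    {S T : I → Finset V}
    (h : FHS W B (Sum.elim (fun _ : Unit => h1) a) (Sum.elim (fun _ => S1) S)
      (Sum.elim (fun _ => T1) T)) (g : Op H) (hg : g ∈ B) (neT : T1'.Nonempty)
    (g1 : star g * g = W.eF T1) (g2 : g * star g = W.eF T1') {c : ℝ} (hc : c ≠ 0)
    (kg : KMS W B c g) :
    FHS W B (Sum.elim (fun _ : Unit => g * h1) a) (Sum.elim (fun _ => S1) S)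
      (Sum.elim (fun _ => T1') T) := by
  have h2 := h.absK (Sum.elim (fun _ => g) (fun i => W.eF (T i)))
    (Sum.elim (fun _ => W.eF S1) (fun i => W.eF (S i)))
    (by rintro (_ | i); exacts [hg, W.eF_mem h.mem_e _])
    (by rintro (_ | i); exacts [W.eF_mem h.mem_e _, W.eF_mem h.mem_e _])
    (Sum.elim (fun _ => S1) S) (Sum.elim (fun _ => T1') T)
    h.neS (by rintro (_ | i); exacts [neT, h.neT (Sum.inr i)])
    (by rintro (_ | i) <;> simp [W.eF_sa, W.eF_idem])
    (by rintro (_ | i) <;> simp [W.eF_sa, W.eF_idem])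
    (by rintro (_ | i); exacts [g1, by simp [W.eF_sa, W.eF_idem]])
    (by rintro (_ | i); exacts [g2, by simp [W.eF_sa, W.eF_idem]])
    (by rintro (_ | i) <;> exact ⟨1, one_ne_zero, KMS.eF h.mem_e _⟩)
    (by rintro (_ | i); exacts [⟨c, hc, kg⟩, ⟨1, one_ne_zero, KMS.eF h.mem_e _⟩])
  refine h2.reidx id Function.injective_id ?_ (fun _ => rfl) (fun _ => rfl)
  rintro (_ | i)
  · change g * h1 = g * h1 * W.eF S1
    have := h.ltr_mul (Sum.inl (), true)
    change h1 * W.eF S1 = h1 at this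
    rw [mul_assoc, this]
  · change a i = W.eF (T i) * a i * W.eF (S i)
    have e1 := h.ltr_mul (Sum.inr i, true)
    change a i * W.eF (S i) = a i at e1
    have e2 := h.mul_ltr (Sum.inr i, true)
    change W.eF (T i) * a i = a i at e2
    rw [e2, e1]

end kms

section tr
variable {V F : Type} [NormedAddCommGroup F] [InnerProductSpace ℂ F] [CompleteSpace F]
  (W : WSys V F)

/-- partial isometries between finite sums of vertices -/
theorem exists_tr {o : V} (v : V → Op F) (v1 : ∀ x, star (v x) * v x = W.e o)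
    (v2 : ∀ x, v x * star (v x) = W.e x) (A B : Finset V) (hc : A.card = B.card) :
    ∃ h : Op F, star h * h = W.eF A ∧ h * star h = W.eF B ∧
      (∀ M : StarSubalgebra ℂ (Op F), (∀ x, v x ∈ M) → h ∈ M) ∧
      ∀ M : StarSubalgebra ℂ (Op F), (∀ x, W.e x ∈ M) → (∀ x, v x ∈ M) →
        (∀ x, KMS W M 1 (v x)) → KMS W M 1 h := by
  set e : A ≃ B := Finset.equivOfCardEq hc with he
  set s : A ↪ V := ⟨fun x => x, Subtype.val_injective⟩ with hs
  set t : A ↪ V := ⟨fun x => e x, Subtype.val_injective.comp e.injective⟩ with ht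
  have a1 : ∀ i : A, star (v (e i) * star (v i)) * (v (e i) * star (v i)) = W.e (s i) := by
    intro i
    rw [star_mul, star_star, mul_assoc, ← mul_assoc (star (v (e i))), v1, ← mul_assoc,
      W.le_right (v1 _), v2]
    rfl
  have a2 : ∀ i : A, (v (e i) * star (v i)) * star (v (e i) * star (v i)) = W.e (t i) := by
    intro i
    rw [star_mul, star_star, mul_assoc, ← mul_assoc (star (v i)), v1, ← mul_assoc,
      W.le_right (v1 _), v2]
    rfl
  have ms : Finset.univ.map s = A := by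
    ext x
    simp [hs]
  have mt : Finset.univ.map t = B := by
    ext x
    simp only [ht, Finset.mem_map, Finset.mem_univ, true_and, Function.Embedding.coeFn_mk]
    constructor
    · rintro ⟨i, rfl⟩; exact (e i).2
    · intro hx; exact ⟨e.symm ⟨x, hx⟩, by simp⟩
  refine ⟨∑ i : A, v (e i) * star (v i), ?_, ?_, ?_, ?_⟩
  · rw [W.sum_iso1 Finset.univ _ s t a1 a2, ms]
  · rw [W.sum_iso2 Finset.univ _ s t a1 a2, mt]
  · intro M hM
    exact sum_mem fun i _ => mul_mem (hM _) (star_mem (hM _))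
  · intro M hM hv hk
    refine KMS.sum _ _ fun i _ => ?_
    have := KMS.mul hM (hv (e i)) (star_mem (hv i)) (hk (e i))
      (KMS.conj hM one_ne_zero (hv i) (hk i))
    simpa using this

theorem eF_range_mul (zz : ℕ ≃ V) (k r : ℕ) :
    ∑ l ∈ Finset.range k, W.eF ((Finset.range r).map
      ⟨fun i => zz (l * r + i), fun i j h => by simpa using zz.injective h⟩) =
    W.eF (seg zz (k * r)) := by
  induction k with
  | zero => simp [seg, WSys.eF]
  | succ k ih =>
    rw [Finset.sum_range_succ, ih]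
    simp only [seg, WSys.eF, Finset.sum_map, Function.Embedding.coeFn_mk]
    rw [Nat.succ_mul, Finset.sum_range_add]

theorem seg_disj (zz : ℕ ≃ V) (r : ℕ) {l l' : ℕ} (h : l ≠ l') :
    Disjoint ((Finset.range r).map
      (⟨fun i => zz (l * r + i), fun i j h => by simpa using zz.injective h⟩ : ℕ ↪ V))
      ((Finset.range r).map
      ⟨fun i => zz (l' * r + i), fun i j h => by simpa using zz.injective h⟩) := by
  rw [Finset.disjoint_left]
  intro x hx hx'
  simp only [Finset.mem_map, Finset.mem_range] at hx hx'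
  obtain ⟨i, hi, rfl⟩ := hx
  obtain ⟨j, hj, hij⟩ := hx'
  have h1 := zz.injective hij
  apply h
  have e1 : (l * r + i) / r = l := by
    rw [mul_comm, Nat.mul_add_div (by omega), Nat.div_eq_of_lt hi, add_zero]
  have e2 : (l' * r + j) / r = l' := by
    rw [mul_comm, Nat.mul_add_div (by omega), Nat.div_eq_of_lt hj, add_zero]
  rw [← e1, ← e2, h1]

/-- Amplification of a letter. -/
theorem exists_ampl {o : V} (v : V → Op F) (v1 : ∀ x, star (v x) * v x = W.e o)
    (v2 : ∀ x, v x * star (v x) = W.e x) (zz : ℕ ≃ V) (k m1 n1 : ℕ) (U : Op F)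
    (u1 : star U * U = W.eF (seg zz m1)) (u2 : U * star U = W.eF (seg zz n1)) :
    ∃ h : Op F, star h * h = W.eF (seg zz (k * m1)) ∧
      h * star h = W.eF (seg zz (k * n1)) ∧
      (∀ M : StarSubalgebra ℂ (Op F), (∀ x, v x ∈ M) → U ∈ M → h ∈ M) ∧
      ∀ (M : StarSubalgebra ℂ (Op F)) (c : ℝ), (∀ x, W.e x ∈ M) → (∀ x, v x ∈ M) → U ∈ M →
        (∀ x, KMS W M 1 (v x)) → KMS W M c U → KMS W M c h := by
  set s : ℕ → ℕ → Finset V := fun r l => (Finset.range r).map
      ⟨fun i => zz (l * r + i), fun i j h => by simpa using zz.injective h⟩ with hs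
  have hcard : ∀ r l, (seg zz r).card = (s r l).card := by
    intro r l
    simp [hs, seg]
  choose p p1 p2 hp pk using fun l => exists_tr W v v1 v2 (seg zz m1) (s m1 l) (hcard m1 l)
  choose q q1 q2 hq qk using fun l => exists_tr W v v1 v2 (seg zz n1) (s n1 l) (hcard n1 l)
  set b : ℕ → Op F := fun l => q l * U * star (p l) with hb
  have b1 : ∀ l, star (b l) * b l = W.eF (s m1 l) := by
    intro l
    calc star (b l) * b l = p l * (star U * ((star (q l) * q l) * U)) * star (p l) := by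
          simp only [hb, star_mul, star_star]; noncomm_ring
      _ = (p l * W.eF (seg zz m1)) * star (p l) := by rw [q1, W.leF_left u2, u1]
      _ = _ := by rw [W.leF_right (p1 l), p2]
  have b2 : ∀ l, b l * star (b l) = W.eF (s n1 l) := by
    intro l
    calc b l * star (b l) = q l * (U * ((star (p l) * p l) * star U)) * star (q l) := by
          simp only [hb, star_mul, star_star]; noncomm_ring
      _ = (q l * W.eF (seg zz n1)) * star (q l) := by
          rw [p1, W.leF_left (by rw [star_star]; exact u1), u2]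
      _ = _ := by rw [W.leF_right (q1 l), q2]
  have o1 : ∀ l l', l ≠ l' → star (b l) * b l' = 0 := by
    intro l l' h
    have e1 := W.leF_left (b2 l)
    have e2 := W.leF_left (b2 l')
    rw [← e1, ← e2, star_mul, W.eF_sa, mul_assoc, ← mul_assoc (W.eF _) (W.eF _),
      W.eF_mul_eF_disj (seg_disj zz n1 h), zero_mul, mul_zero]
  have o2 : ∀ l l', l ≠ l' → b l * star (b l') = 0 := by
    intro l l' h
    have e1 := W.leF_right (b1 l)
    have e2 := W.leF_right (b1 l')
    rw [← e1, ← e2, star_mul, W.eF_sa, mul_assoc, ← mul_assoc (W.eF _) (W.eF _),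
      W.eF_mul_eF_disj (seg_disj zz m1 h), zero_mul, mul_zero]
  refine ⟨∑ l ∈ Finset.range k, b l, ?_, ?_, ?_, ?_⟩
  · rw [star_sum, Finset.sum_mul, ← eF_range_mul]
    refine Finset.sum_congr rfl fun l hl => ?_
    rw [Finset.mul_sum, Finset.sum_eq_single l]
    · exact b1 l
    · intro l' _ h; exact o1 l l' h.symm
    · intro h; exact absurd hl h
  · rw [star_sum, Finset.sum_mul, ← eF_range_mul]
    refine Finset.sum_congr rfl fun l hl => ?_
    rw [Finset.mul_sum, Finset.sum_eq_single l]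
    · exact b2 l
    · intro l' _ h; exact o2 l l' h.symm
    · intro h; exact absurd hl h
  · intro M hv hU
    exact sum_mem fun l _ => mul_mem (mul_mem (hq l M hv) hU) (star_mem (hp l M hv))
  · intro M c hM hv hU hk hc
    refine KMS.sum _ _ fun l _ => ?_
    have hpM : p l ∈ M := hp l M hv
    have hqM : q l ∈ M := hq l M hv
    have k1 := KMS.mul hM hqM hU (qk l M hM hv hk) hc
    have k2 := KMS.mul hM (mul_mem hqM hU) (star_mem hpM) k1
      (KMS.conj hM one_ne_zero hpM (pk l M hM hv hk))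
    simpa using k2

/-- Step 5: the edges are replaced by letters of size `k m1 × k m1`. -/
theorem step5 {W : WSys V F} {K I : Type} (zz : ℕ ≃ V) (v : V → Op F)
    (v1 : ∀ x, star (v x) * v x = W.e (zz 0)) (v2 : ∀ x, v x * star (v x) = W.e x)
    (vk : ∀ x, KMS W (vNa (Set.range v)) 1 (v x))
    {k m1 n1 : ℕ} (hk : 0 < k) (h1 : 0 < m1) (h2 : 0 < n1)
    {u : K → Op F} {S T : K → Finset V} (cS : ∀ χ, (S χ).card = k * m1)
    (cT : ∀ χ, (T χ).card = k * n1) {U1 : Op F} {a : I → Op F}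
    (h : FHS W (vNa (Set.range v)) (Sum.elim u (Sum.elim (fun _ : Unit => U1) a))
      (Sum.elim S (Sum.elim (fun _ => seg zz m1) (fun _ => {zz 0})))
      (Sum.elim T (Sum.elim (fun _ => seg zz n1) (fun _ => {zz 0})))) :
    ∃ g : K → Op F, FHS W (vNa (Set.range v)) (Sum.elim (Sum.elim (fun _ : Unit => U1) a) g)
      (Sum.elim (Sum.elim (fun _ => seg zz m1) (fun _ => {zz 0})) (fun _ => seg zz (k * m1)))
      (Sum.elim (Sum.elim (fun _ => seg zz n1) (fun _ => {zz 0})) (fun _ => seg zz (k * m1))) ∧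
      (∀ χ, g χ ∈ vNa (Set.range v ∪ {U1} ∪ Set.range u)) ∧
      (∀ χ, u χ ∈ vNa (Set.range v ∪ {U1} ∪ Set.range g)) := by
  have hU := h.inr
  have hM := h.swap.assocV
  set M : StarSubalgebra ℂ (Op F) := vNa (((vNa (Set.range v) : StarSubalgebra ℂ (Op F)) :
    Set (Op F)) ∪ Set.range (Sum.elim (fun _ : Unit => U1) a)) with hMdef
  have heM : ∀ x, W.e x ∈ M := hM.mem_e
  have hEM : vNa (Set.range v) ≤ M := fun X hX => subset_vNa _ (Or.inl hX)
  have hvM : ∀ x, v x ∈ M := fun x => hEM (subset_vNa _ ⟨x, rfl⟩)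
  have hUM : U1 ∈ M := subset_vNa _ (Or.inr ⟨Sum.inl (), rfl⟩)
  have hvk : ∀ x, KMS W M 1 (v x) := fun x => hU.kms_extend (subset_vNa _ ⟨x, rfl⟩) (vk x)
  have hUk : KMS W M (((seg zz n1).card : ℝ) / ((seg zz m1).card : ℝ)) U1 :=
    hU.kms_letter (Sum.inl ())
  have hc0 : (((seg zz n1).card : ℝ) / ((seg zz m1).card : ℝ)) ≠ 0 := by
    simp only [seg, Finset.card_map, Finset.card_range]
    positivity
  obtain ⟨Ut, ut1, ut2, utM, utk⟩ := exists_ampl W v v1 v2 zz k m1 n1 U1
    (hU.iS (Sum.inl ())) (hU.iT (Sum.inl ()))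
  choose p p1 p2 hp pk using fun χ => exists_tr W v v1 v2 (seg zz (k * m1)) (S χ)
    (by simp [seg, cS])
  choose q q1 q2 hq qk using fun χ => exists_tr W v v1 v2 (T χ) (seg zz (k * n1))
    (by simp [seg, cT])
  have hUtM : Ut ∈ M := utM M hvM hUM
  have hUtk := utk M _ heM hvM hUM hvk hUk
  have nes : (seg zz (k * m1)).Nonempty := by
    rw [← Finset.card_pos]
    simp only [seg, Finset.card_map, Finset.card_range]
    positivity
  set gl : K → Op F := fun χ => star Ut * q χ with hgl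
  have hgM : ∀ χ, gl χ ∈ M := fun χ => mul_mem (star_mem hUtM) (hq χ M hvM)
  have gl1 : ∀ χ, star (gl χ) * gl χ = W.eF (T χ) := by
    intro χ
    calc star (gl χ) * gl χ = star (q χ) * ((Ut * star Ut) * q χ) := by
          simp only [hgl, star_mul, star_star]; noncomm_ring
      _ = _ := by rw [ut2, W.leF_left (q2 χ), q1]
  have gl2 : ∀ χ, gl χ * star (gl χ) = W.eF (seg zz (k * m1)) := by
    intro χ
    calc gl χ * star (gl χ) = star Ut * ((q χ * star (q χ)) * Ut) := by
          simp only [hgl, star_mul, star_star]; noncomm_ring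
      _ = _ := by rw [q2, W.leF_left ut2, ut1]
  have glk : ∀ χ, ∃ c : ℝ, c ≠ 0 ∧ KMS W M c (gl χ) := by
    intro χ
    refine ⟨_, ?_, KMS.mul heM (star_mem hUtM) (hq χ M hvM) (KMS.conj heM hc0 hUtM hUtk)
      (qk χ M heM hvM hvk)⟩
    rw [mul_one]
    exact inv_ne_zero hc0
  have h3 := hM.absK gl p hgM (fun χ => hp χ M hvM) (fun _ => seg zz (k * m1))
    (fun _ => seg zz (k * m1)) (fun _ => nes) (fun _ => nes) p1 p2 gl1 gl2
    (fun χ => ⟨1, one_ne_zero, pk χ M heM hvM hvk⟩) glk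
  refine ⟨fun χ => gl χ * u χ * p χ, ?_, ?_, ?_⟩
  · exact hU.assoc_inv h3 hEM (fun j => subset_vNa _ (Or.inr ⟨j, rfl⟩))
  · intro χ
    have m1 : ∀ x, v x ∈ vNa (Set.range v ∪ {U1} ∪ Set.range u) := fun x =>
      subset_vNa _ (Or.inl (Or.inl ⟨x, rfl⟩))
    have m2 : U1 ∈ vNa (Set.range v ∪ {U1} ∪ Set.range u) := subset_vNa _ (Or.inl (Or.inr rfl))
    exact mul_mem (mul_mem (mul_mem (star_mem (utM _ m1 m2)) (hq χ _ m1))
      (subset_vNa _ (Or.inr ⟨χ, rfl⟩))) (hp χ _ m1)
  · intro χ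
    set g : K → Op F := fun χ => gl χ * u χ * p χ with hg
    have m1 : ∀ x, v x ∈ vNa (Set.range v ∪ {U1} ∪ Set.range g) := fun x =>
      subset_vNa _ (Or.inl (Or.inl ⟨x, rfl⟩))
    have m2 : U1 ∈ vNa (Set.range v ∪ {U1} ∪ Set.range g) := subset_vNa _ (Or.inl (Or.inr rfl))
    have e1 : u χ * W.eF (S χ) = u χ := h.ltr_mul (Sum.inl χ, true)
    have e2 : W.eF (T χ) * u χ = u χ := h.mul_ltr (Sum.inl χ, true)
    have e : u χ = star (gl χ) * g χ * star (p χ) := by
      calc u χ = W.eF (T χ) * u χ * W.eF (S χ) := by rw [e2, e1]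
        _ = _ := by rw [← gl1, ← p2]; simp only [hg]; noncomm_ring
    rw [e]
    refine mul_mem (mul_mem (star_mem ?_) (subset_vNa _ (Or.inr ⟨χ, rfl⟩))) (star_mem (hp χ _ m1))
    exact mul_mem (star_mem (utM _ m1 m2)) (hq χ _ m1)

end tr

end Pool.Agent.MP9a76ab
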