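import Pool.Agent.Lib.MP_9a76ab_an.PartB
import Pool.Agent.Lib.MP_9a76ab_an.PartC
import Pool.Agent.Lib.MP_9a76ab_an.PartD

/-! Assembly, part E: reduction of the model to the standard form. -/

set_option autoImplicit false

namespace Pool.Agent.MP9a76ab

open scoped InnerProductSpace

section stage2
variable {V F : Type} [NormedAddCommGroup F] [InnerProductSpace ℂ F] [CompleteSpace F]

theorem stage2 {W : WSys V F} {K : Type} [Countable K] (zz : ℕ ≃ V)
    (B : StarSubalgebra ℂ (Op F)) (he : ∀ x, W.e x ∈ B)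
    (v : V → Op F) (hE : vNa (Set.range v) ≤ B)
    (vo : v (zz 0) = W.e (zz 0)) (v1 : ∀ x, star (v x) * v x = W.e (zz 0))
    (v2 : ∀ x, v x * star (v x) = W.e x) (vk : ∀ x, KMS W B 1 (v x))
    {k m1 n1 : ℕ} (hk : 0 < k) (h1 : 0 < m1) (h2 : 0 < n1)
    {k1 : Op F} (hk1 : k1 ∈ B) {c : ℝ} (hc : c ≠ 0) (kk1 : KMS W B c k1)
    (k11 : star k1 * k1 = W.eF (seg zz m1)) (k12 : k1 * star k1 = W.eF (seg zz n1))
    {u : K → Op F} (hu : ∀ χ, u χ ∈ B) {S T : K → Finset V}
    (cS : ∀ χ, (S χ).card = k * m1) (cT : ∀ χ, (T χ).card = k * n1)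
    (hfu : FHS W (vNa (Set.range v)) u S T)
    (gen : B ≤ vNa (Set.range v ∪ Set.range u)) :
    ∃ (K2 : Type) (_ : Countable K2) (F2 : Type) (_ : NormedAddCommGroup F2)
      (_ : InnerProductSpace ℂ F2) (_ : CompleteSpace F2)
      (E : FockExt F K2 (fun _ => W.ξ (zz 0)) F2) (a : K2 → Op F2) (v' : V → Op F2) (U : Op F2)
      (a' : ℕ → Op F2),
      FHS (W.push E) (B.map E.π) a (fun _ => {zz 0}) (fun _ => {zz 0}) ∧
      Std m1 n1 (W.push E) zz v' U a' ∧
      SpEq (vNa (((B.map E.π : StarSubalgebra ℂ (Op F2)) : Set (Op F2)) ∪ Set.range a))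
        ((W.push E).ξ (zz 0)) (stdAlg v' U a') ((W.push E).ξ (zz 0)) := by
  have hv : ∀ x, v x ∈ B := fun x => hE (subset_vNa _ ⟨x, rfl⟩)
  have hkm : 0 < k * m1 := Nat.mul_pos hk h1
  obtain ⟨F2, _, _, _, E, h, hK, a1, a2, a3, A1, A2, A3, G1, G2, G3, G4⟩ :=
    stage2_fock zz B he v hv vo v1 v2 vk h1 hkm K
  set W2 := W.push E with hW2
  set v' : V → Op F2 := fun x => E.π (v x) with hv'
  have hmem : ∀ {B : StarSubalgebra ℂ (Op F)} {X : Op F}, X ∈ B → E.π X ∈ B.map E.π :=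
    fun h => StarSubalgebra.mem_map.2 ⟨_, h, rfl⟩
  have v1' : ∀ x, star (v' x) * v' x = W2.e (zz 0) := fun x => by
    simp only [hv']; rw [← map_star, ← map_mul, v1]; rfl
  have v2' : ∀ x, v' x * star (v' x) = W2.e x := fun x => by
    simp only [hv']; rw [← map_star, ← map_mul, v2]; rfl
  have vo' : v' (zz 0) = W2.e (zz 0) := by
    simp only [hv']; rw [vo]; rfl
  set U1 : Op F2 := E.π k1 * h with hU1
  have ne1 : (seg zz n1).Nonempty := by
    rw [← Finset.card_pos]
    simpa only [seg, Finset.card_map, Finset.card_range]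
  have kg1 : star (E.π k1) * E.π k1 = W2.eF (seg zz m1) := by
    rw [← map_star, ← map_mul, k11, push_eF]
  have kg2 : E.π k1 * star (E.π k1) = W2.eF (seg zz n1) := by
    rw [← map_star, ← map_mul, k12, push_eF]
  have B2 := A2.absU (E.π k1) (hmem hk1) ne1 kg1 kg2 hc (kk1.push E)
  have B3 := A3.absU (E.π k1) (hmem hk1) ne1 kg1 kg2 hc (kk1.push E)
  -- over the matrix units
  have hv'B : vNa (Set.range v') ≤ vNa ((B.map E.π : StarSubalgebra ℂ (Op F2)) :
      Set (Op F2)) := by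
    apply vNa_mono
    rintro _ ⟨x, rfl⟩
    exact hmem (hv x)
  have e'E : ∀ x, W2.e x ∈ vNa (Set.range v') := fun x => by
    rw [← v2' x]
    exact mul_mem (subset_vNa _ ⟨x, rfl⟩) (star_mem (subset_vNa _ ⟨x, rfl⟩))
  have vk' : ∀ x, KMS W2 (vNa (Set.range v')) 1 (v' x) := by
    intro x
    have := B2.kms_extend (hmem (hv x)) ((vk x).push E)
    refine this.le (vNa_mono ?_)
    rintro _ ⟨y, rfl⟩
    exact Or.inl (hmem (hv y))
  have hEB : (vNa (Set.range v)).map E.π ≤ B.map E.π := StarSubalgebra.map_mono hE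
  have C1 := (hfu.push E).assoc_inv B2 hEB (fun χ => hmem (hu χ))
  have hv'E : vNa (Set.range v') ≤ vNa (((vNa (Set.range v)).map E.π :
      StarSubalgebra ℂ (Op F2)) : Set (Op F2)) := by
    apply vNa_mono
    rintro _ ⟨x, rfl⟩
    exact hmem (subset_vNa _ ⟨x, rfl⟩)
  have C2 := C1.closure.le hv'E e'E
  obtain ⟨g, D1, D2, D3⟩ := step5 zz v' v1' v2' vk' hk h1 h2 cS cT C2
  have B2' := B2.closure.le hv'B e'E
  have B3' := B3.closure.le hv'B e'E
  -- enumeration
  have : Countable ((K × (Fin (k * m1) × Fin (k * m1))) ⊕ ℕ) := inferInstance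
  have : Infinite ((K × (Fin (k * m1) × Fin (k * m1))) ⊕ ℕ) := inferInstance
  obtain ⟨_⟩ := nonempty_denumerable ((K × (Fin (k * m1) × Fin (k * m1))) ⊕ ℕ)
  set e : ((K × (Fin (k * m1) × Fin (k * m1))) ⊕ ℕ) ≃ ℕ := Denumerable.eqv _ with heq
  set a' : ℕ → Op F2 := fun i => Sum.elim a2 a3 (e.symm i) with ha'
  refine ⟨_, inferInstance, F2, _, _, _, E, Sum.elim a1 (Sum.elim a2 a3), v', U1, a', A1, ?_, ?_⟩
  · refine ⟨v1', v2', vo', ?_⟩
    refine B2'.reidx (fun j : Option ℕ => j.elim (Sum.inl ()) (fun i => Sum.inr (e.symm i)))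
      ?_ ?_ ?_ ?_
    · rintro (_ | i) (_ | j) hij
      · rfl
      · exact absurd hij (by simp)
      · exact absurd hij (by simp)
      · have := Sum.inr_injective hij
        exact congrArg some (e.symm.injective this)
    all_goals rintro (_ | i) <;> rfl
  · -- the second family
    have E1 : FHS W2 (vNa (Set.range v'))
        (Sum.elim (Sum.elim (fun _ : Unit => U1) (fun i => a3 (e i))) hK)
        (Sum.elim (Sum.elim (fun _ => seg zz m1) (fun _ => {zz 0})) (fun _ => seg zz (k * m1)))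
        (Sum.elim (Sum.elim (fun _ => seg zz n1) (fun _ => {zz 0}))
          (fun _ => seg zz (k * m1))) := by
      refine B3'.reidx (Sum.elim (Sum.elim (fun _ => Sum.inl ()) (fun i => Sum.inr (Sum.inr (e i))))
        (fun χ => Sum.inr (Sum.inl χ))) ?_ ?_ ?_ ?_
      · rintro ((_ | i) | χ) ((_ | j) | χ') hij
        · rfl
        · exact absurd hij (by simp)
        · exact absurd hij (by simp)
        · exact absurd hij (by simp)
        · have := e.injective (Sum.inr_injective (Sum.inr_injective hij))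
          rw [this]
        · exact absurd hij (by simp)
        · exact absurd hij (by simp)
        · exact absurd hij (by simp)
        · have := Sum.inl_injective (Sum.inr_injective hij)
          rw [this]
      all_goals rintro ((_ | i) | χ) <;> rfl
    have hid : (vNa (Set.range v')).map (StarAlgHom.id ℂ (Op F2)) = vNa (Set.range v') :=
      StarSubalgebra.map_id _
    have E1' := E1
    rw [← hid] at E1'
    have E2 := spEq_free W2 W2 (StarAlgHom.id ℂ (Op F2)) (fun _ => rfl) (fun _ _ _ => rfl)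
      D1 E1' (zz 0)
    rw [hid] at E2
    -- identification of the algebras
    have mU : h = star (E.π k1) * U1 := by
      have h5 : W2.eF (seg zz m1) * h = h := A2.mul_ltr (Sum.inl (), true)
      rw [hU1, ← mul_assoc, kg1, h5]
    have I1 : vNa (((B.map E.π : StarSubalgebra ℂ (Op F2)) : Set (Op F2)) ∪
        Set.range (Sum.elim a1 (Sum.elim a2 a3))) =
        vNa (((vNa (Set.range v') : StarSubalgebra ℂ (Op F2)) : Set (Op F2)) ∪
          Set.range (Sum.elim (Sum.elim (fun _ : Unit => U1) (Sum.elim a2 a3)) g)) := by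
      apply vNa_eq
      · have hsub : Set.range v' ∪ {U1} ∪ Set.range g ⊆
            vNa (((vNa (Set.range v') : StarSubalgebra ℂ (Op F2)) : Set (Op F2)) ∪
          Set.range (Sum.elim (Sum.elim (fun _ : Unit => U1) (Sum.elim a2 a3)) g)) := by
          rintro X ((⟨x, rfl⟩ | rfl) | ⟨χ, rfl⟩)
          · exact subset_vNa _ (Or.inl (subset_vNa _ ⟨x, rfl⟩))
          · exact subset_vNa _ (Or.inr ⟨Sum.inl (Sum.inl ()), rfl⟩)
          · exact subset_vNa _ (Or.inr ⟨Sum.inr χ, rfl⟩)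
        have hB' : ∀ b ∈ B, E.π b ∈ vNa (Set.range v' ∪ {U1} ∪ Set.range g) := by
          intro b hb
          refine vNa_le ?_ (E.normal _ (gen hb))
          rintro _ ⟨X, (⟨x, rfl⟩ | ⟨χ, rfl⟩), rfl⟩
          · exact subset_vNa _ (Or.inl (Or.inl ⟨x, rfl⟩))
          · exact D3 χ
        have hh : h ∈ vNa (Set.range v' ∪ {U1} ∪ Set.range g) := by
          rw [mU]
          exact mul_mem (star_mem (hB' k1 hk1)) (subset_vNa _ (Or.inl (Or.inr rfl)))
        rintro X (hX | ⟨(p | (p | i)), rfl⟩)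
        · obtain ⟨b, hb, rfl⟩ := StarSubalgebra.mem_map.1 hX
          exact vNa_le hsub (hB' b hb)
        · refine vNa_le hsub (vNa_le ?_ (G2 p))
          rintro X (⟨x, rfl⟩ | rfl)
          · exact subset_vNa _ (Or.inl (Or.inl ⟨x, rfl⟩))
          · exact hh
        · exact subset_vNa _ (Or.inr ⟨Sum.inl (Sum.inr (Sum.inl p)), rfl⟩)
        · exact subset_vNa _ (Or.inr ⟨Sum.inl (Sum.inr (Sum.inr i)), rfl⟩)
      · have mv : ∀ x, v' x ∈ vNa (((B.map E.π : StarSubalgebra ℂ (Op F2)) : Set (Op F2)) ∪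
            Set.range (Sum.elim a1 (Sum.elim a2 a3))) := fun x =>
          subset_vNa _ (Or.inl (hmem (hv x)))
        have mh : h ∈ vNa (((B.map E.π : StarSubalgebra ℂ (Op F2)) : Set (Op F2)) ∪
            Set.range (Sum.elim a1 (Sum.elim a2 a3))) := by
          refine vNa_le ?_ G1
          rintro X (⟨x, rfl⟩ | ⟨p, rfl⟩)
          · exact mv x
          · exact subset_vNa _ (Or.inr ⟨Sum.inl p, rfl⟩)
        have mU1 : U1 ∈ vNa (((B.map E.π : StarSubalgebra ℂ (Op F2)) : Set (Op F2)) ∪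
            Set.range (Sum.elim a1 (Sum.elim a2 a3))) :=
          mul_mem (subset_vNa _ (Or.inl (hmem hk1))) mh
        rintro X (hX | ⟨((_ | (p | i)) | χ), rfl⟩)
        · refine vNa_le ?_ hX
          rintro _ ⟨x, rfl⟩
          exact mv x
        · exact mU1
        · exact subset_vNa _ (Or.inr ⟨Sum.inr (Sum.inl p), rfl⟩)
        · exact subset_vNa _ (Or.inr ⟨Sum.inr (Sum.inr i), rfl⟩)
        · refine vNa_le ?_ (D2 χ)
          rintro X ((⟨x, rfl⟩ | rfl) | ⟨χ, rfl⟩)
          · exact mv x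
          · exact mU1
          · exact subset_vNa _ (Or.inl (hmem (hu χ)))
    have I2 : stdAlg v' U1 a' =
        vNa (((vNa (Set.range v') : StarSubalgebra ℂ (Op F2)) : Set (Op F2)) ∪
          Set.range (Sum.elim (Sum.elim (fun _ : Unit => U1) (fun i => a3 (e i))) hK)) := by
      unfold stdAlg
      apply vNa_eq
      · have hsub : Set.range v' ∪ Set.range hK ⊆
            vNa (((vNa (Set.range v') : StarSubalgebra ℂ (Op F2)) : Set (Op F2)) ∪
          Set.range (Sum.elim (Sum.elim (fun _ : Unit => U1) (fun i => a3 (e i))) hK)) := by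
          rintro X (⟨x, rfl⟩ | ⟨χ, rfl⟩)
          · exact subset_vNa _ (Or.inl (subset_vNa _ ⟨x, rfl⟩))
          · exact subset_vNa _ (Or.inr ⟨Sum.inr χ, rfl⟩)
        rintro X ((⟨x, rfl⟩ | rfl) | ⟨i, rfl⟩)
        · exact subset_vNa _ (Or.inl (subset_vNa _ ⟨x, rfl⟩))
        · exact subset_vNa _ (Or.inr ⟨Sum.inl (Sum.inl ()), rfl⟩)
        · obtain ⟨j, rfl⟩ := e.surjective i
          simp only [ha', Equiv.symm_apply_apply]
          rcases j with p | i
          · exact vNa_le hsub (G4 p)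
          · refine subset_vNa _ (Or.inr ⟨Sum.inl (Sum.inr (e.symm i)), ?_⟩)
            simp
      · rintro X (hX | ⟨((_ | i) | χ), rfl⟩)
        · exact vNa_mono (fun Y hY => Or.inl (Or.inl hY)) hX
        · exact subset_vNa _ (Or.inl (Or.inr rfl))
        · refine subset_vNa _ (Or.inr ⟨e (Sum.inr (e i)), ?_⟩)
          simp [ha']
        · refine vNa_le ?_ (G3 χ)
          rintro X (⟨x, rfl⟩ | ⟨p, rfl⟩)
          · exact subset_vNa _ (Or.inl (Or.inl ⟨x, rfl⟩))
          · refine subset_vNa _ (Or.inr ⟨e (Sum.inl p), ?_⟩)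
            simp [ha']
    rw [I1, I2]
    exact E2

end stage2

section final
variable {m N : ℕ} {G : HG m N} {H : Type} [NormedAddCommGroup H] [InnerProductSpace ℂ H]
  [CompleteSpace H] (D : Mdl G H)

theorem Mdl.t_mem_gen {S : Set (Op H)} (he : ∀ x, D.W.e x ∈ vNa S)
    (hu : ∀ χ, D.t * D.W.eF (G.S χ) ∈ vNa S) : D.t ∈ vNa S := by
  rw [mem_vNa_iff]
  intro T hT
  refine D.W.op_ext fun x => ?_
  have hx : x ∈ G.S (G.s x) := (G.mem_S _ _).2 rfl
  have e1 := mem_vNa_iff.1 (he x) T hT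
  have e2 := mem_vNa_iff.1 (hu (G.s x)) T hT
  have e3 := mem_vNa_iff.1 ((D.W.eF_mem he (G.S (G.s x)))) T hT
  calc T * D.t * D.W.e x = T * D.t * (D.W.eF (G.S (G.s x)) * D.W.e x) := by
        rw [D.W.eF_mul_e_mem hx]
    _ = (T * (D.t * D.W.eF (G.S (G.s x)))) * D.W.e x := by noncomm_ring
    _ = D.t * (D.W.eF (G.S (G.s x)) * T) * D.W.e x := by rw [e2]; noncomm_ring
    _ = D.t * T * (D.W.eF (G.S (G.s x)) * D.W.e x) := by rw [← e3]; noncomm_ring
    _ = D.t * T * D.W.e x := by rw [D.W.eF_mul_e_mem hx]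

theorem Mdl.t_mem_of_g {S : Set (Op H)} (he : ∀ x, D.W.e x ∈ vNa S)
    (hg : ∀ x, D.g x ∈ vNa S) : D.t ∈ vNa S := by
  rw [← star_star D.t]
  refine star_mem ?_
  rw [mem_vNa_iff]
  intro T hT
  refine D.W.op_ext fun x => ?_
  have e1 := mem_vNa_iff.1 (he x) T hT
  have e2 := mem_vNa_iff.1 (hg x) T hT
  unfold Mdl.g at e2
  rw [mul_assoc, e2, mul_assoc, ← e1, ← mul_assoc]

theorem HG.countK (hm : 0 < m) (G : HG m N) : Countable G.K := by
  have := G.cV
  refine Function.Surjective.countable (f := G.s) fun χ => ?_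
  have h : (G.S χ).Nonempty := by
    rw [← Finset.card_pos, G.card_S]
    exact hm
  obtain ⟨x, hx⟩ := h
  exact ⟨x, (G.mem_S _ _).1 hx⟩

/-- The reduction of the model to the standard form. -/
theorem Mdl.spEq_std (hmN : 0 < m ∧ m < N) {k m1 n1 : ℕ} (hm : m = k * m1) (hN : N = k * n1) :
    ∃ (F : Type) (_ : NormedAddCommGroup F) (_ : InnerProductSpace ℂ F) (_ : CompleteSpace F)
      (W : WSys G.V F) (zz : ℕ ≃ G.V) (v : G.V → Op F) (U : Op F) (a : ℕ → Op F),
      Std m1 n1 W zz v U a ∧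
      SpEq D.A (D.W.ξ G.o) (stdAlg v U a) (W.ξ (zz 0)) := by
  have := G.cV
  have := G.iV
  have hKc : Countable G.K := G.countK hmN.1
  have hk : 0 < k := Nat.pos_of_ne_zero fun h => by subst h; omega
  have hm1 : 0 < m1 := Nat.pos_of_ne_zero fun h => by subst h; omega
  have hn1 : 0 < n1 := Nat.pos_of_ne_zero fun h => by subst h; omega
  obtain ⟨zz, hzz⟩ := exists_enum G.o
  choose w hw w0 w1 w2 using fun x => D.exists_w hmN x
  choose κ hκ κ0 κ1 κ2 using fun x => D.exists_k hmN x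
  obtain ⟨y, hy, y0, y1, y2⟩ := D.exists_k1 hmN hm hN zz
  have R1 := D.fhs_R1 w κ hw w0 w1 w2 hκ κ0 κ1 κ2
  obtain ⟨F1, _, _, _, E1, v, c', vo, v1, v2, hvc, hc', vk, kext, hfu⟩ :=
    D.stage1 w (fun x => D.R_le_A' (hw x)) w0 w1 w2
  rw [← hzz] at vo v1
  have hc' : FHS (D.W.push E1) (D.A.map E1.π) c' (fun _ => {zz 0}) (fun _ => {zz 0}) := by
    rw [hzz]; exact hc'
  have R1 : FHS D.W D.R (fun x : G.C => star (w x) * (star (κ x) * D.g x) * w x)
      (fun _ => {zz 0}) (fun _ => {zz 0}) := by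
    rw [hzz]; exact R1
  set W1 := D.W.push E1 with hW1
  set B : StarSubalgebra ℂ (Op F1) := vNa (((D.A.map E1.π : StarSubalgebra ℂ (Op F1)) :
    Set (Op F1)) ∪ Set.range v) with hB
  have hmem : ∀ {A : StarSubalgebra ℂ (Op H)} {X : Op H}, X ∈ A → E1.π X ∈ A.map E1.π :=
    fun h => StarSubalgebra.mem_map.2 ⟨_, h, rfl⟩
  have hAB : D.A.map E1.π ≤ B := fun X hX => subset_vNa _ (Or.inl hX)
  have heB : ∀ x, W1.e x ∈ B := fun x => hAB (hmem (D.e_mem_A x))
  have hEB : vNa (Set.range v) ≤ B := vNa_mono Set.subset_union_right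
  have hvB : ∀ x, v x ∈ B := fun x => subset_vNa _ (Or.inr ⟨x, rfl⟩)
  have hNm : ((N : ℝ) / (m : ℝ)) ≠ 0 := by
    have h1 : (0 : ℝ) < m := by exact_mod_cast hmN.1
    have h2 : (0 : ℝ) < N := by exact_mod_cast hmN.1.trans hmN.2
    positivity
  have ky : KMS D.W D.A ((N : ℝ) / (m : ℝ)) y := by
    have := D.kms 1 y (D.R_le_A' hy) y0
    rwa [zpow_one] at this
  have hgen : B ≤ vNa (Set.range v ∪ Set.range (fun χ => E1.π (D.t * D.W.eF (G.S χ)))) := by
    apply vNa_le
    rintro X (hX | ⟨x, rfl⟩)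
    · obtain ⟨b, hb, rfl⟩ := StarSubalgebra.mem_map.1 hX
      have h1 : D.A ≤ vNa (Set.range D.W.e ∪ Set.range (fun χ => D.t * D.W.eF (G.S χ))) := by
        apply vNa_le
        rintro X (⟨x, rfl⟩ | rfl)
        · exact subset_vNa _ (Or.inl ⟨x, rfl⟩)
        · exact D.t_mem_gen (fun x => subset_vNa _ (Or.inl ⟨x, rfl⟩))
            (fun χ => subset_vNa _ (Or.inr ⟨χ, rfl⟩))
      refine vNa_le ?_ (E1.normal _ (h1 hb))
      rintro _ ⟨X, (⟨x, rfl⟩ | ⟨χ, rfl⟩), rfl⟩
      · change W1.e x ∈ _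
        rw [← v2 x]
        exact mul_mem (subset_vNa _ (Or.inl ⟨x, rfl⟩)) (star_mem (subset_vNa _ (Or.inl ⟨x, rfl⟩)))
      · exact subset_vNa _ (Or.inr ⟨χ, rfl⟩)
    · exact subset_vNa _ (Or.inl ⟨x, rfl⟩)
  obtain ⟨K2, _, F2, _, _, _, E2, a, v', U, a', H1, H2, H3⟩ := stage2 (K := G.K) zz B heB v hEB
    vo v1 v2 vk hk hm1 hn1 (k1 := E1.π y) (hAB (hmem (D.R_le_A' hy))) hNm
    (kext _ y (D.R_le_A' hy) ky) (by rw [← map_star, ← map_mul, y1, push_eF])
    (by rw [← map_star, ← map_mul, y2, push_eF]) (fun χ => hAB (hmem (D.u_mem_A χ)))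
    (fun χ => (G.card_S χ).trans hm) (fun χ => (G.card_T χ).trans hN) hfu hgen
  refine ⟨F2, _, _, _, W1.push E2, zz, v', U, a', H2, ?_⟩
  refine SpEq.trans ?_ H3
  set W2 := W1.push E2 with hW2
  have hmem2 : ∀ {A : StarSubalgebra ℂ (Op F1)} {X : Op F1}, X ∈ A → E2.π X ∈ A.map E2.π :=
    fun h => StarSubalgebra.mem_map.2 ⟨_, h, rfl⟩
  set c : G.C → Op H := fun x => star (w x) * (star (κ x) * D.g x) * w x with hc
  have hcA : ∀ x, c x ∈ D.A := fun x =>
    mul_mem (mul_mem (star_mem (D.R_le_A' (hw _)))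
      (mul_mem (star_mem (D.R_le_A' (hκ _))) (D.g_mem_A _))) (D.R_le_A' (hw _))
  have hRA : D.R.map E1.π ≤ D.A.map E1.π := StarSubalgebra.map_mono D.R_le_A'
  have J1 := (R1.push E1).assoc_inv hc' hRA (fun x => hmem (hcA x))
  set L1 : (G.C ⊕ {x : G.V // x ≠ G.o}) → Op F1 := Sum.elim (fun x => E1.π (c x)) c' with hL1
  have hc'e : ∀ x, c' x = star (E1.π (w x)) * v x := by
    intro x
    have h1 : W1.eF {zz 0} * c' x = c' x := hc'.mul_ltr (x, true)
    have h2 : star (E1.π (w x)) * E1.π (w x) = W1.eF {zz 0} := by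
      rw [← map_star, ← map_mul, w1, W1.eF_singleton, hzz]; rfl
    rw [hvc x, ← mul_assoc, h2, h1]
  have hL1B : ∀ j, L1 j ∈ B := by
    rintro (x | x)
    · exact hAB (hmem (hcA x))
    · change c' x ∈ B
      rw [hc'e x]
      exact mul_mem (star_mem (hAB (hmem (D.R_le_A' (hw x))))) (hvB x)
  have J2 := (J1.push E2).assoc_inv H1 (StarSubalgebra.map_mono (hRA.trans hAB))
    (fun j => hmem2 (hL1B j))
  have hmm : (D.R.map E1.π).map E2.π = D.R.map (E2.π.comp E1.π) :=
    StarSubalgebra.map_map _ _ _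
  have hCi : Infinite G.C := G.iC.to_subtype
  have hCc : Countable G.C := inferInstance
  have hJc : Countable ((G.C ⊕ {x : G.V // x ≠ G.o}) ⊕ K2) := inferInstance
  have hJi : Infinite ((G.C ⊕ {x : G.V // x ≠ G.o}) ⊕ K2) := inferInstance
  obtain ⟨d1⟩ := nonempty_denumerable G.C
  obtain ⟨d2⟩ := nonempty_denumerable ((G.C ⊕ {x : G.V // x ≠ G.o}) ⊕ K2)
  obtain ⟨e⟩ : Nonempty (G.C ≃ ((G.C ⊕ {x : G.V // x ≠ G.o}) ⊕ K2)) :=
    ⟨(Denumerable.eqv _).trans (Denumerable.eqv _).symm⟩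
  set L2 : ((G.C ⊕ {x : G.V // x ≠ G.o}) ⊕ K2) → Op F2 :=
    Sum.elim (fun j => E2.π (L1 j)) a with hL2
  have J3 : FHS W2 (D.R.map (E2.π.comp E1.π)) (fun x => L2 (e x)) (fun _ => {zz 0})
      (fun _ => {zz 0}) := by
    rw [← hmm]
    refine J2.reidx e e.injective (fun _ => rfl) ?_ ?_
    all_goals
      intro j
      rcases e j with (x | x) | x <;> rfl
  have S1 := spEq_free D.W W2 (E2.π.comp E1.π) (fun _ => rfl)
    (fun X x y => by
      change ⟪E2.ι (E1.ι (D.W.ξ x)), E2.π (E1.π X) (E2.ι (E1.ι (D.W.ξ y)))⟫_ℂ = _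
      rw [push_inner, push_inner]) R1 J3 (zz 0)
  have I1 : vNa ((D.R : Set (Op H)) ∪
      Set.range (fun x : G.C => star (w x) * (star (κ x) * D.g x) * w x)) = D.A := by
    unfold Mdl.A
    apply vNa_eq
    · rintro X (hX | ⟨x, rfl⟩)
      · exact D.R_le_A' hX
      · exact hcA x
    · have me : ∀ x, D.W.e x ∈ vNa ((D.R : Set (Op H)) ∪
          Set.range (fun x : G.C => star (w x) * (star (κ x) * D.g x) * w x)) := fun x =>
        subset_vNa _ (Or.inl (D.e_mem_R x))
      rintro X (⟨x, rfl⟩ | rfl)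
      · exact me x
      · refine D.t_mem_of_g me fun x => ?_
        by_cases hx : x ∈ G.C
        · have e1 : D.g x = κ x * w x * (star (w x) * (star (κ x) * D.g x) * w x) *
              star (w x) := by
            have a1 : D.g x * D.W.e x = D.g x := D.W.le_right (D.g_star_g x)
            have a2 : κ x * D.W.e x = κ x := D.W.le_right (κ1 x)
            have a3 : D.q x * D.g x = D.g x := by
              rw [← D.g_g_star, mul_assoc, D.g_star_g, a1]
            symm
            calc κ x * w x * (star (w x) * (star (κ x) * D.g x) * w x) * star (w x)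
                = (κ x * (w x * star (w x))) * star (κ x) * D.g x * (w x * star (w x)) := by
                  noncomm_ring
              _ = D.g x := by rw [w2, a2, κ2, a3, a1]
          rw [e1]
          have b1 := subset_vNa ((D.R : Set (Op H)) ∪
            Set.range (fun x : G.C => star (w x) * (star (κ x) * D.g x) * w x))
            (Or.inr ⟨⟨x, hx⟩, rfl⟩)
          have b2 := subset_vNa ((D.R : Set (Op H)) ∪
            Set.range (fun x : G.C => star (w x) * (star (κ x) * D.g x) * w x))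
            (Or.inl (hw x))
          have b3 := subset_vNa ((D.R : Set (Op H)) ∪
            Set.range (fun x : G.C => star (w x) * (star (κ x) * D.g x) * w x))
            (Or.inl (hκ x))
          exact mul_mem (mul_mem (mul_mem b3 b2) b1) (star_mem b2)
        · exact subset_vNa _ (Or.inl (D.g_mem_R hx))
  have I2 : vNa (((D.R.map (E2.π.comp E1.π) : StarSubalgebra ℂ (Op F2)) : Set (Op F2)) ∪
      Set.range (fun x => L2 (e x))) =
      vNa (((B.map E2.π : StarSubalgebra ℂ (Op F2)) : Set (Op F2)) ∪ Set.range a) := by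
    apply vNa_eq
    · rintro X (hX | ⟨j, rfl⟩)
      · obtain ⟨b, hb, rfl⟩ := StarSubalgebra.mem_map.1 hX
        exact subset_vNa _ (Or.inl (hmem2 (hAB (hmem (D.R_le_A' hb)))))
      · change L2 (e j) ∈ _
        rcases e j with x | x
        · exact subset_vNa _ (Or.inl (hmem2 (hL1B x)))
        · exact subset_vNa _ (Or.inr ⟨x, rfl⟩)
    · set Y : Set (Op F2) := ((D.R.map (E2.π.comp E1.π) : StarSubalgebra ℂ (Op F2)) :
        Set (Op F2)) ∪ Set.range (fun x => L2 (e x)) with hY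
      have m1 : ∀ j, L2 j ∈ vNa Y := fun j =>
        subset_vNa _ (Or.inr ⟨e.symm j, by simp⟩)
      have m2 : ∀ b ∈ D.A, E2.π (E1.π b) ∈ vNa Y := by
        intro b hb
        rw [← I1] at hb
        refine vNa_le ?_ (E2.normal _ (E1.normal _ hb))
        rintro _ ⟨_, ⟨X, (hX | ⟨x, rfl⟩), rfl⟩, rfl⟩
        · exact subset_vNa _ (Or.inl (StarSubalgebra.mem_map.2 ⟨X, hX, rfl⟩))
        · exact m1 (Sum.inl (Sum.inl x))
      rintro X (hX | ⟨x, rfl⟩)
      · obtain ⟨b, hb, rfl⟩ := StarSubalgebra.mem_map.1 hX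
        refine vNa_le ?_ (E2.normal _ hb)
        rintro _ ⟨X, (hX | ⟨x, rfl⟩), rfl⟩
        · obtain ⟨b, hb, rfl⟩ := StarSubalgebra.mem_map.1 hX
          exact m2 b hb
        · by_cases hx : x = G.o
          · have e1 : v x = E1.π (D.W.e G.o) := by
              rw [hx, ← hzz]; exact vo
            rw [e1]
            exact m2 _ (D.e_mem_A _)
          · rw [hvc ⟨x, hx⟩, map_mul]
            exact mul_mem (m2 _ (D.R_le_A' (hw x))) (m1 (Sum.inl (Sum.inr ⟨x, hx⟩)))
      · exact m1 (Sum.inr x)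
  rw [I1, I2] at S1
  rw [← hzz]
  exact S1

end final

end Pool.Agent.MP9a76ab
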