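import Pool.Agent.Lib.MP_9a76ab_an.Basic

/-! MP_9a76ab_an, module POLAR: polar decomposition with the intertwining property. -/

set_option autoImplicit false

namespace Pool.Agent.MP9a76ab

open scoped InnerProductSpace

namespace PolarX

section
variable {H : Type} [NormedAddCommGroup H] [InnerProductSpace ℂ H] [CompleteSpace H]

theorem exists_ext (a X : Op H) (hn : ∀ h, ‖X h‖ = ‖a h‖) (ha : star a = a) :
    ∃ v : Op H, (∀ h, v (a h) = X h) ∧ (∀ h, v h = 0 ↔ a h = 0) ∧ v * star v * v = v := by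
  classical
  set K : Submodule ℂ H := (LinearMap.range (a : H →ₗ[ℂ] H)).topologicalClosure with hK
  have : CompleteSpace K := (Submodule.isClosed_topologicalClosure _).completeSpace_coe
  have hmem : ∀ h, a h ∈ K := fun h => subset_closure (LinearMap.mem_range_self _ h)
  let e : H →ₗ[ℂ] K := (a : H →ₗ[ℂ] H).codRestrict K hmem
  have hee : ∀ h, ((e h : K) : H) = a h := fun h => rfl
  have hdense : DenseRange e := by
    intro y
    rw [Topology.IsInducing.subtypeVal.closure_eq_preimage_closure_image]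
    have h1 : (Subtype.val '' (Set.range e) : Set H) =
        ((LinearMap.range (a : H →ₗ[ℂ] H) : Submodule ℂ H) : Set H) := by
      ext z
      constructor
      · rintro ⟨_, ⟨h, rfl⟩, rfl⟩
        exact ⟨h, rfl⟩
      · rintro ⟨h, rfl⟩
        exact ⟨e h, ⟨h, rfl⟩, rfl⟩
    have h2 : (y : H) ∈ closure
        ((LinearMap.range (a : H →ₗ[ℂ] H) : Submodule ℂ H) : Set H) := y.2
    rw [← h1] at h2
    exact h2
  have hnorm : ∀ x : H, ‖(X : H →ₗ[ℂ] H) x‖ ≤ 1 * ‖e x‖ := by
    intro x
    rw [one_mul]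
    exact (hn x).le
  let w : K →L[ℂ] H := (X : H →ₗ[ℂ] H).extendOfNorm e
  have hwe : ∀ h, w (e h) = X h := fun h =>
    LinearMap.extendOfNorm_eq hdense ⟨1, hnorm⟩ h
  have hwn : ∀ y, ‖w y‖ = ‖y‖ := by
    refine hdense.induction ?_ (isClosed_eq (by fun_prop) (by fun_prop))
    rintro _ ⟨h, rfl⟩
    rw [hwe]
    exact hn h
  let W : K →ₗᵢ[ℂ] H := ⟨w.toLinearMap, hwn⟩
  have hWi : ∀ y z, ⟪w y, w z⟫_ℂ = ⟪y, z⟫_ℂ := fun y z => W.inner_map_map y z
  let P : H →L[ℂ] K := K.orthogonalProjectionOnto
  have hPs : ∀ h, ((P h : K) : H) = K.starProjection h := fun h => rfl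
  refine ⟨w ∘L P, ?_, ?_, ?_⟩
  · intro h
    have h1 : P (a h) = e h := by
      have := K.orthogonalProjectionOnto_mem_subspace_eq_self (e h)
      exact this
    change w (P (a h)) = X h
    rw [h1, hwe]
  · intro h
    change w (P h) = 0 ↔ a h = 0
    have h1 : w (P h) = 0 ↔ P h = 0 := by
      rw [← norm_eq_zero, hwn, norm_eq_zero]
    rw [h1]
    have h2 : P h = 0 ↔ h ∈ Kᗮ := K.orthogonalProjectionOnto_eq_zero_iff
    rw [h2, hK, Submodule.orthogonal_closure, Submodule.mem_orthogonal]
    constructor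
    · intro h3
      refine ext_inner_left ℂ fun u => ?_
      rw [inner_op_star, ha, inner_zero_right]
      exact h3 _ ⟨u, rfl⟩
    · rintro h3 _ ⟨u, rfl⟩
      change ⟪a u, h⟫_ℂ = 0
      rw [← ha, ← inner_op_star, h3, inner_zero_right]
  · have h1 : star (w ∘L P) * (w ∘L P) = K.starProjection := by
      refine ContinuousLinearMap.ext fun y => ?_
      refine ext_inner_left ℂ fun u => ?_
      rw [mul_apply_eq_comp, inner_star_op]
      change ⟪w (P u), w (P y)⟫_ℂ = _
      rw [hWi]
      change ⟪K.starProjection u, K.starProjection y⟫_ℂ = _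
      rw [K.inner_starProjection_left_eq_right, 
        K.starProjection_eq_self_iff.2 (K.starProjection_apply_mem y)]
    rw [mul_assoc, h1]
    refine ContinuousLinearMap.ext fun y => ?_
    change w (P (K.starProjection y)) = w (P y)
    congr 1
    exact K.orthogonalProjectionOnto_mem_subspace_eq_self (P y)

/-- two operators which agree on the range and on the kernel of a selfadjoint operator agree -/
theorem ext_of_range_ker (a : Op H) (ha : star a = a) {A B : Op H}
    (h1 : ∀ h, A (a h) = B (a h)) (h2 : ∀ h, a h = 0 → A h = B h) : A = B := by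
  set K : Submodule ℂ H := (LinearMap.range (a : H →ₗ[ℂ] H)).topologicalClosure with hK
  have : CompleteSpace K := (Submodule.isClosed_topologicalClosure _).completeSpace_coe
  have hA : ∀ y ∈ K, A y = B y := by
    intro y hy
    have hcl : IsClosed {y : H | A y = B y} := isClosed_eq A.continuous B.continuous
    have hsub : ((LinearMap.range (a : H →ₗ[ℂ] H) : Submodule ℂ H) : Set H) ⊆ {y : H | A y = B y} := by
      rintro _ ⟨h, rfl⟩
      exact h1 h
    exact closure_minimal hsub hcl hy
  refine ContinuousLinearMap.ext fun y => ?_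
  have e1 : y = K.starProjection y + (y - K.starProjection y) := by abel
  have e2 : y - K.starProjection y ∈ Kᗮ := K.sub_starProjection_mem_orthogonal y
  have hKo : Kᗮ = (LinearMap.range (a : H →ₗ[ℂ] H))ᗮ := Submodule.orthogonal_closure _
  have e3 : a (y - K.starProjection y) = 0 := by
    rw [hKo, Submodule.mem_orthogonal] at e2
    refine ext_inner_left ℂ fun u => ?_
    rw [inner_op_star, ha, inner_zero_right]
    exact e2 _ ⟨u, rfl⟩
  rw [e1, map_add, map_add, hA _ (K.starProjection_apply_mem y), h2 _ e3]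

end

end PolarX

section A
variable {H : Type} [NormedAddCommGroup H] [InnerProductSpace ℂ H] [CompleteSpace H]

theorem exists_polar (X : Op H) : ∃ v : Op H, v * star v * v = v ∧ (∀ h, v h = 0 ↔ X h = 0) ∧
    v * star v * X = X ∧ (∀ Z : Op H, Z * X = 0 → Z * v = 0) ∧
    (∀ T T' : Op H, T * X = X * T' → T' * star X = star X * T → T * v = v * T') := by
  set b : Op H := star X * X with hb
  set a : Op H := CFC.abs X with ha_def
  have haa : a * a = b := CFC.abs_mul_abs X
  have hsa : star a = a := (IsSelfAdjoint.of_nonneg (CFC.abs_nonneg X)).star_eq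
  have hn : ∀ h, ‖X h‖ = ‖a h‖ := by
    intro h
    have h1 : ((‖X h‖ : ℝ) : ℂ) ^ 2 = ((‖a h‖ : ℝ) : ℂ) ^ 2 := by
      have e1 : ⟪X h, X h⟫_ℂ = ⟪h, b h⟫_ℂ := by
        rw [hb, mul_apply_eq_comp, inner_star_op]
      have e2 : ⟪a h, a h⟫_ℂ = ⟪h, b h⟫_ℂ := by
        rw [← haa, mul_apply_eq_comp, inner_op_star a h (a h), hsa]
      rw [← inner_self_C, ← inner_self_C, e1, e2]
    have h2 : ‖X h‖ ^ 2 = ‖a h‖ ^ 2 := by exact_mod_cast h1
    exact (sq_eq_sq₀ (norm_nonneg _) (norm_nonneg _)).1 h2
  obtain ⟨v, hv1, hv2, hv3⟩ := PolarX.exists_ext a X hn hsa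
  have hker : ∀ h, v h = 0 ↔ X h = 0 := by
    intro h
    rw [hv2, ← norm_eq_zero, ← hn, norm_eq_zero]
  have hva : v * a = X := ContinuousLinearMap.ext fun h => hv1 h
  refine ⟨v, hv3, hker, ?_, ?_, ?_⟩
  · rw [← hva, ← mul_assoc, hv3]
  · intro Z hZ
    refine PolarX.ext_of_range_ker a hsa (fun h => ?_) (fun h hh => ?_)
    · change Z (v (a h)) = 0
      rw [hv1]
      exact congrArg (fun A : Op H => A h) hZ
    · change Z (v h) = 0
      rw [(hv2 h).2 hh, map_zero]
  · intro T T' h1 h2
    have hcomm : Commute T' b := by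
      change T' * b = b * T'
      rw [hb, ← mul_assoc, h2, mul_assoc, h1, mul_assoc]
    have hcomm2 : T' * a = a * T' := by
      have h3 : Commute b T' := hcomm.symm
      have h4 : Commute (cfcₙ NNReal.sqrt b) T' := h3.cfcₙ_nnreal NNReal.sqrt
      exact h4.symm.eq
    refine PolarX.ext_of_range_ker a hsa (fun h => ?_) (fun h hh => ?_)
    · change T (v (a h)) = v (T' (a h))
      have e1 : T (X h) = X (T' h) := congrArg (fun A : Op H => A h) h1
      have e2 : T' (a h) = a (T' h) := congrArg (fun A : Op H => A h) hcomm2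
      rw [hv1, e2, hv1, e1]
    · change T (v h) = v (T' h)
      have e2 : T' (a h) = a (T' h) := congrArg (fun A : Op H => A h) hcomm2
      rw [(hv2 h).2 hh, map_zero, (hv2 _).2]
      rw [← e2, hh, map_zero]

end A

end Pool.Agent.MP9a76ab
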