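import Pool.Agent.Lib.MP_9a76ab_an.Defs2

/-! MP_9a76ab_an, module HLINK: the link with the Hecke von Neumann algebra. -/

set_option autoImplicit false

namespace Pool.Agent.MP9a76ab

open scoped InnerProductSpace

namespace RepHX

section
variable {Γ H V : Type} [Group Γ] [NormedAddCommGroup H] [InnerProductSpace ℂ H] [CompleteSpace H]
  {a : Γ} {χ : V → Circle}

lemma π_mul (R : TRep a χ H) (g h : Γ) (v : H) : R.π g (R.π h v) = R.π (g * h) v := by
  rw [map_mul]; rfl

lemma π_one (R : TRep a χ H) (v : H) : R.π 1 v = v := by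
  rw [map_one]; rfl

lemma inner_π (R : TRep a χ H) (g h : Γ) (u v : H) :
    ⟪R.π g u, R.π h v⟫_ℂ = ⟪u, R.π (g⁻¹ * h) v⟫_ℂ := by
  rw [← π_mul, ← R.star_π, inner_star_op]

/-- the stabiliser of `ξ o` -/
def stab (R : TRep a χ H) (o : V) : Subgroup Γ where
  carrier := {g | R.π g (R.ξ o) = R.ξ o}
  mul_mem' := by
    intro g h hg hh
    change R.π (g * h) (R.ξ o) = R.ξ o
    rw [← π_mul, show R.π h (R.ξ o) = R.ξ o from hh, show R.π g (R.ξ o) = R.ξ o from hg]
  one_mem' := π_one R _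
  inv_mem' := by
    intro g hg
    change R.π g⁻¹ (R.ξ o) = R.ξ o
    conv_lhs => rw [← show R.π g (R.ξ o) = R.ξ o from hg]
    rw [π_mul, inv_mul_cancel, π_one]

lemma π_zpowers (R : TRep a χ H) (o : V) (ho : χ o = 1) {h : Γ}
    (hh : h ∈ Subgroup.zpowers a) : R.π h (R.ξ o) = R.ξ o := by
  have h1 : Subgroup.zpowers a ≤ stab R o := by
    rw [Subgroup.zpowers_le]
    change R.π a (R.ξ o) = R.ξ o
    rw [R.π_a, ho]
    simp
  exact h1 hh

/-- the images of the vacuum vector, indexed by the cosets -/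
noncomputable def uu (R : TRep a χ H) (o : V) (c : Γ ⧸ Subgroup.zpowers a) : H :=
  R.π (Quotient.out c) (R.ξ o)

lemma uu_mk (R : TRep a χ H) (o : V) (ho : χ o = 1) (g : Γ) :
    uu R o (g : Γ ⧸ Subgroup.zpowers a) = R.π g (R.ξ o) := by
  obtain ⟨h, hh⟩ := QuotientGroup.mk_out_eq_mul (Subgroup.zpowers a) g
  unfold uu
  rw [hh, ← π_mul, π_zpowers R o ho h.2]

lemma π_uu (R : TRep a χ H) (o : V) (ho : χ o = 1) (g : Γ) (c : Γ ⧸ Subgroup.zpowers a) :
    R.π g (uu R o c) = uu R o (g • c) := by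
  obtain ⟨h, rfl⟩ := QuotientGroup.mk_surjective c
  rw [uu_mk R o ho, π_mul, ← uu_mk R o ho]
  rfl

lemma orthonormal_uu (R : TRep a χ H) (o : V) : Orthonormal ℂ (uu R o) := by
  constructor
  · intro c
    have h1 : ⟪uu R o c, uu R o c⟫_ℂ = ⟪R.ξ o, R.ξ o⟫_ℂ := by
      unfold uu
      rw [inner_π, inv_mul_cancel, π_one]
    rw [inner_self_eq_norm_sq_to_K, inner_self_eq_norm_sq_to_K, R.norm_ξ] at h1
    have h2 : ‖uu R o c‖ ^ 2 = 1 := by
      have h3 : ((‖uu R o c‖ ^ 2 : ℝ) : ℂ) = ((1 : ℝ) : ℂ) := by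
        push_cast
        simpa using h1
      exact_mod_cast h3
    have h4 := norm_nonneg (uu R o c)
    nlinarith
  · intro c c' hc
    unfold uu
    rw [inner_π]
    apply R.orth
    left
    intro hmem
    apply hc
    have h1 : ((Quotient.out c : Γ) : Γ ⧸ Subgroup.zpowers a) =
        ((Quotient.out c' : Γ) : Γ ⧸ Subgroup.zpowers a) := QuotientGroup.eq.2 hmem
    rwa [QuotientGroup.out_eq', QuotientGroup.out_eq'] at h1

/-- the isometry -/
noncomputable def iso (R : TRep a χ H) (o : V) : l2 (Γ ⧸ Subgroup.zpowers a) →ₗᵢ[ℂ] H :=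
  (orthonormal_uu R o).orthogonalFamily.linearIsometry

lemma iso_hasSum (R : TRep a χ H) (o : V) (f : l2 (Γ ⧸ Subgroup.zpowers a)) :
    HasSum (fun c => (f c : ℂ) • uu R o c) (iso R o f) :=
  (orthonormal_uu R o).orthogonalFamily.hasSum_linearIsometry f

lemma iso_single [DecidableEq (Γ ⧸ Subgroup.zpowers a)] (R : TRep a χ H) (o : V)
    (c : Γ ⧸ Subgroup.zpowers a) :
    iso R o (lp.single 2 c (1 : ℂ)) = uu R o c := by
  have h := (orthonormal_uu R o).orthogonalFamily.linearIsometry_apply_single (i := c) (1 : ℂ)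
  refine h.trans ?_
  simp

lemma quasiReg_apply (g : Γ) (f : l2 (Γ ⧸ Subgroup.zpowers a)) (c : Γ ⧸ Subgroup.zpowers a) :
    (quasiReg (Subgroup.zpowers a) g f) c = f (g⁻¹ • c) := rfl

/-- the intertwining relation -/
lemma iso_quasiReg (R : TRep a χ H) (o : V) (ho : χ o = 1) (g : Γ)
    (f : l2 (Γ ⧸ Subgroup.zpowers a)) :
    iso R o (quasiReg (Subgroup.zpowers a) g f) = R.π g (iso R o f) := by
  have h1 := (iso_hasSum R o f).mapL (R.π g)
  have h2 := iso_hasSum R o (quasiReg (Subgroup.zpowers a) g f)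
  rw [← (MulAction.toPerm g : Equiv.Perm (Γ ⧸ Subgroup.zpowers a)).hasSum_iff] at h2
  refine h2.unique ?_
  convert h1 using 2 with c
  simp only [Function.comp, MulAction.toPerm_apply, quasiReg_apply, inv_smul_smul, map_smul,
    π_uu R o ho]

/-- the isometry as an operator -/
noncomputable abbrev JJ (R : TRep a χ H) (o : V) : l2 (Γ ⧸ Subgroup.zpowers a) →L[ℂ] H :=
  (iso R o).toContinuousLinearMap

lemma adj_JJ (R : TRep a χ H) (o : V) (f : l2 (Γ ⧸ Subgroup.zpowers a)) :
    ContinuousLinearMap.adjoint (JJ R o) (JJ R o f) = f := by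
  refine ext_inner_left ℂ fun u => ?_
  rw [ContinuousLinearMap.adjoint_inner_right]
  exact (iso R o).inner_map_map u f

lemma JJ_quasiReg (R : TRep a χ H) (o : V) (ho : χ o = 1) (g : Γ)
    (f : l2 (Γ ⧸ Subgroup.zpowers a)) :
    JJ R o (quasiReg (Subgroup.zpowers a) g f) = R.π g (JJ R o f) :=
  iso_quasiReg R o ho g f

lemma star_quasiReg (R : TRep a χ H) (o : V) (ho : χ o = 1) (g : Γ) :
    star (quasiReg (Subgroup.zpowers a) g) = quasiReg (Subgroup.zpowers a) g⁻¹ := by
  ext1 f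
  refine ext_inner_left ℂ fun u => ?_
  rw [inner_star_op, ← (iso R o).inner_map_map, ← (iso R o).inner_map_map,
    iso_quasiReg R o ho, iso_quasiReg R o ho, inner_op_star, R.star_π, inv_inv]

lemma adj_π (R : TRep a χ H) (o : V) (ho : χ o = 1) (g : Γ) (v : H) :
    ContinuousLinearMap.adjoint (JJ R o) (R.π g v) =
      quasiReg (Subgroup.zpowers a) g (ContinuousLinearMap.adjoint (JJ R o) v) := by
  refine ext_inner_left ℂ fun u => ?_
  rw [ContinuousLinearMap.adjoint_inner_right, inner_op_star, inner_op_star, R.star_π,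
    star_quasiReg R o ho, ← JJ_quasiReg R o ho, ContinuousLinearMap.adjoint_inner_right]

/-- operators commuting with the quasi-regular representation commute with `π` -/
lemma conj_comm (R : TRep a χ H) (o : V) (ho : χ o = 1) {T : Op (l2 (Γ ⧸ Subgroup.zpowers a))}
    (hT : ∀ g : Γ, quasiReg (Subgroup.zpowers a) g * T = T * quasiReg (Subgroup.zpowers a) g)
    {X : Op H} (hX : X ∈ vNa (Set.range R.π)) :
    (JJ R o ∘L T ∘L ContinuousLinearMap.adjoint (JJ R o)) * X =
      X * (JJ R o ∘L T ∘L ContinuousLinearMap.adjoint (JJ R o)) := by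
  have key : ∀ g : Γ, R.π g * (JJ R o ∘L T ∘L ContinuousLinearMap.adjoint (JJ R o)) =
      (JJ R o ∘L T ∘L ContinuousLinearMap.adjoint (JJ R o)) * R.π g := by
    intro g
    ext1 v
    change R.π g (JJ R o (T (ContinuousLinearMap.adjoint (JJ R o) v))) =
      JJ R o (T (ContinuousLinearMap.adjoint (JJ R o) (R.π g v)))
    rw [adj_π R o ho, ← JJ_quasiReg R o ho]
    congr 1
    exact congrArg (fun A : Op (l2 (Γ ⧸ Subgroup.zpowers a)) =>
      A (ContinuousLinearMap.adjoint (JJ R o) v)) (hT g)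
  refine vNa_commute hX ?_
  rintro s ⟨g, rfl⟩
  exact ⟨key g, by rw [R.star_π]; exact key g⁻¹⟩

lemma conj_comm_inv (R : TRep a χ H) (o : V) (ho : χ o = 1)
    {T : Op (l2 (Γ ⧸ Subgroup.zpowers a))}
    (hT : ∀ X ∈ vNa (Set.range R.π),
      (JJ R o ∘L T ∘L ContinuousLinearMap.adjoint (JJ R o)) * X =
      X * (JJ R o ∘L T ∘L ContinuousLinearMap.adjoint (JJ R o))) (g : Γ) :
    quasiReg (Subgroup.zpowers a) g * T = T * quasiReg (Subgroup.zpowers a) g := by
  have h1 := hT (R.π g) (subset_vNa _ ⟨g, rfl⟩)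
  ext1 f
  have h2 : JJ R o (T (ContinuousLinearMap.adjoint (JJ R o) (R.π g (JJ R o f)))) =
      R.π g (JJ R o (T (ContinuousLinearMap.adjoint (JJ R o) (JJ R o f)))) :=
    congrArg (fun A : Op H => A (JJ R o f)) h1
  rw [adj_π R o ho, adj_JJ, ← JJ_quasiReg R o ho] at h2
  have h3 := congrArg (ContinuousLinearMap.adjoint (JJ R o)) h2
  rw [adj_JJ, adj_JJ] at h3
  exact h3.symm

end

end RepHX

section H
variable {Γ H : Type} [Group Γ] [NormedAddCommGroup H] [InnerProductSpace ℂ H] [CompleteSpace H]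
variable {a : Γ}

open RepHX in
theorem hecke_link {V : Type} {χ : V → Circle} (R : TRep a χ H) (o : V) (ho : χ o = 1) :
    ∃ ι1 : l2 (Γ ⧸ Subgroup.zpowers a) →ₗᵢ[ℂ] H,
      LinearMap.range ι1.toLinearMap = cyc (vNa (Set.range R.π)) (R.ξ o) ∧
      ∀ T : Op (l2 (Γ ⧸ Subgroup.zpowers a)), T ∈ HeckeVN (Subgroup.zpowers a) ↔
        ∀ X ∈ vNa (Set.range R.π),
          (ι1.toContinuousLinearMap ∘L T ∘L ContinuousLinearMap.adjoint ι1.toContinuousLinearMap) * X
            = X * (ι1.toContinuousLinearMap ∘L T ∘L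
              ContinuousLinearMap.adjoint ι1.toContinuousLinearMap) := by
  classical
  refine ⟨iso R o, ?_, ?_⟩
  · apply le_antisymm
    · have h1 : LinearMap.range (iso R o).toLinearMap = _ :=
        (orthonormal_uu R o).orthogonalFamily.range_linearIsometry
      rw [h1]
      unfold cyc
      refine Submodule.topologicalClosure_mono ?_
      refine iSup_le fun c => ?_
      rintro _ ⟨z, rfl⟩
      refine Submodule.smul_mem _ z (Submodule.subset_span ?_)
      exact ⟨R.π (Quotient.out c), subset_vNa _ ⟨_, rfl⟩, rfl⟩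
    · unfold cyc
      refine Submodule.topologicalClosure_minimal _ ?_ ?_
      · rw [Submodule.span_le]
        rintro _ ⟨X, hX, rfl⟩
        have h1 := conj_comm R o ho (T := 1) (fun g => by rw [mul_one, one_mul]) hX
        have h2 : JJ R o (ContinuousLinearMap.adjoint (JJ R o) (X (R.ξ o))) =
            X (JJ R o (ContinuousLinearMap.adjoint (JJ R o) (R.ξ o))) :=
          congrArg (fun A : Op H => A (R.ξ o)) h1
        have h3 : JJ R o (lp.single 2 ((1 : Γ) : Γ ⧸ Subgroup.zpowers a) (1 : ℂ)) = R.ξ o := by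
          have := iso_single R o ((1 : Γ) : Γ ⧸ Subgroup.zpowers a)
          rw [uu_mk R o ho, π_one] at this
          exact this
        have h4 : JJ R o (ContinuousLinearMap.adjoint (JJ R o) (R.ξ o)) = R.ξ o := by
          conv_lhs => rw [← h3]
          rw [adj_JJ, h3]
        rw [h4] at h2
        exact ⟨_, h2⟩
      · have := (iso R o).isometry.isUniformInducing.isComplete_range.isClosed
        exact this
  · intro T
    unfold HeckeVN
    rw [StarSubalgebra.mem_centralizer_iff]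
    constructor
    · intro h X hX
      exact conj_comm R o ho (fun g => (h _ ⟨g, rfl⟩).1) hX
    · intro h
      have h1 := conj_comm_inv R o ho h
      rintro _ ⟨g, rfl⟩
      exact ⟨h1 g, by rw [star_quasiReg R o ho]; exact h1 g⁻¹⟩

end H

end Pool.Agent.MP9a76ab
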